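import Pool.Agent.SC7292.Count

/-!
The Prikry property: reduction to the low blocks, preservation of cardinals.
-/

namespace Pool.Agent.SC7292

open Cardinal Ordinal Set Function Filter Pool.Agent.MP_7b2404_lc Pool.Agent.Lib.ForcingU

variable [Hyp] {η β : Ordinal.{0}} {p q r t m u v : Cond} {s : Shape} {b : RO Cond}

/-- The low part of `u` and the high part of `q` force `b`. -/
def Dec (b : RO Cond) (β : Ordinal.{0}) (u q : Cond) : Prop :=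
  ∀ v, Lw β v u → Hg β v q → v ∈ b.s

/-- The low part of `r`, the set of states `D` and the high part of `q` force `b`. -/
def SS (b : RO Cond) (q r : Cond) (η : Ordinal.{0}) (s : Shape) (D : Set (State (Fin s.n))) :
    Prop := ∀ u, LB η u r → BLe η (u.b η) ⟨s, D, st0 _⟩ → Hg (η + 1) u q → u ∈ b.s

/-- The largest closed set of states forcing `b`. -/
def DD (b : RO Cond) (q r : Cond) (η : Ordinal.{0}) (s : Shape) : Set (State (Fin s.n)) :=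
  ⋃₀ {D | (par η).Closed s.ty s.Φ D ∧ SS b q r η s D}

theorem closed_DD (hs : SOK η s) : (par η).Closed s.ty s.Φ (DD b q r η s) :=
  Par.closed_sUnion hs.phi fun _ h => h.1

theorem SS.of_dense (hn : s.n ≠ 0) {D} (h : ∀ v, LB η v r → BLe η (v.b η) ⟨s, D, st0 _⟩ →
    ∃ u ≤ v, ∃ j, SLe η (u.b η).sh s j ∧ proj j (u.b η).rt ∈ DD b q r η s) : SS b q r η s D := by
  refine fun u a1 a2 a3 => b.reg u fun v k => ?_
  obtain ⟨t, b1, j, b2, D', b3, b4⟩ := h v ((LB.of_le k).trans a1) ((k.2 η).trans (v.ok η) a2)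
  obtain ⟨z, c1, -, ⟨T, c2, c3⟩, -⟩ := Cond.shrink' (p := t) rfl (b2.ne hn)
    (b3.1.pre b2.ty (t.ok η).phi b2.cmp) ⟨(t.ok η).val, b4⟩ (t.ok η).rt (t.cons η) t.pp
    subset_rfl (t.sub η)
  have c4 := c1.trans (b1.trans k)
  exact ⟨z, c1.trans b1, b3.2 z ((LB.of_le c4).trans a1) (c3 ▸ ⟨j, b2, fun σ l => (c2 l).2⟩)
    ((Hg.of_le c4).trans a3)⟩

theorem ss_DD (hn : s.n ≠ 0) : SS b q r η s (DD b q r η s) :=
  SS.of_dense hn fun v _ ⟨j, a, c⟩ => ⟨v, le_rfl, j, a, c _ (v.ok η).rt⟩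

theorem reg_DD (hs : SOK η s) (hn : s.n ≠ 0) : (par η).Reg s.ty (DD b q r η s) := fun _ k l =>
  ⟨_, ⟨(closed_DD hs).reg hs.phi, SS.of_dense hn fun v _ ⟨_, a, c⟩ =>
    let ⟨u, d, e, _⟩ := Cond.to_reg a hn (closed_DD hs) (c _ (v.eff η))
    let ⟨j, f, g⟩ := e (st0 _)
    ⟨u, d, j, f, g _ (u.ok η).rt⟩⟩, Par.mem_reg.2 ⟨k, l⟩⟩

theorem dd_force (hs : SOK η s) (hn : s.n ≠ 0) {j} (a : SLe η (v.b η).sh s j) (h1 : LB η v r)
    (h2 : proj j (eff η v.q (v.b η).rt) ∈ DD b q r η s) (h3 : Hg (η + 1) v q) :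
    ∃ z ≤ v, z ∈ b.s :=
  let ⟨z, d, e, _⟩ := Cond.to_reg a hn (closed_DD hs) ((closed_DD hs).1.sub_reg h2)
  ⟨z, d, ss_DD hn z ((LB.of_le d).trans h1) (e _) ((Hg.of_le d).trans h3)⟩

theorem Cons1.of_ext {p : Ordinal.{0} → BC} {h h' : Hist (Fin s.n)} (e : HExt h h') {d}
    (k : Cons1 p η s h' d) : Cons1 p η s h d := fun c =>
  let ⟨a0, c, a1, a2, a3, a4⟩ := k c
  ⟨a0, c, a1, a2, a3, fun i l => ⟨(a4 i (l.trans_le (e.1 d).1)).1,
    (e.2 (d, i) l).1.symm.trans (a4 i (l.trans_le (e.1 d).1)).2⟩⟩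

theorem Par.Closed.union {C : Type} [LinearOrder C] {P : Par} {ty : C → Ty} {Φ : Phi C}
    {D D' : Set (State C)} (hΦ : P.PhiOK ty Φ) (h : P.Closed ty Φ D) (h' : P.Closed ty Φ D') :
    P.Closed ty Φ (D ∪ D') := sUnion_pair D D' ▸ Par.closed_sUnion hΦ (by
  rintro _ (rfl | rfl)
  exacts [h, h'])

omit [Hyp] in
theorem Par.Closed.tag {C : Type} [LinearOrder C] {P : Par} {ty : C → Ty} {Φ : Phi C}
    {D : Set (State C)} (hΦ : P.PhiOK ty Φ) (h : P.Closed ty Φ D) (S : Set (Set At)) :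
    P.Closed ty Φ {τ ∈ D | ∃ s ∈ S, s ⊆ τ.2.1} :=
  ⟨fun σ ⟨a, s, b, d⟩ => ⟨(h.1 σ a).1, fun g e f => ⟨(h.1 σ a).2 g e f, s, b, d.trans f.1⟩⟩,
    fun σ ⟨a, s, b, d⟩ c x hn => ((h.inter hΦ (Par.closed_sub hΦ s)).2 σ ⟨a, (h.1 σ a).1, d⟩ c x
      hn).mono hΦ fun _ k => ⟨k.1, s, b, k.2.2⟩⟩

theorem closed_avoid (hs : SOK η s) (h0 : s.n ≠ 0) :
    (par η).Closed s.ty s.Φ {τ | (par η).Val s.ty τ ∧
    ((∀ d, Cons1 r.b η s τ.1 d) → τ ∈ (par η).perp s.ty (DD b q r η s))} := by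
  refine ⟨fun τ k => ⟨k.1, fun g a e => ⟨k.1.ext a, fun l => (Par.opn_perp τ (k.2 l)).2 g a e⟩⟩,
    fun σ k c a hn => ?_⟩
  by_cases o : ∃ z, ∀ d, Cons1 r.b η s (σ.1.step c a z) d
  swap
  · exact Par.large_of_succ hs.phi k.1 hn fun x τ l =>
      ⟨l.choose_spec.2.2.2.1, fun e => (o ⟨_, l.hist ▸ e⟩).elim⟩
  obtain ⟨z, o⟩ := o
  have hD := closed_DD (b := b) (q := q) (r := r) hs
  refine ((Par.ultra hs.phi k.1 hn hD.1 (reg_DD hs h0)).resolve_left ?_).mono hs.phi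
    fun τ l => ⟨l.1, fun _ => l⟩
  rintro ⟨g, a1, a2, a3⟩
  have hJ := Par.closed_hist hs.phi (fun h => (par η).Clocked (s.ty c) ∧ σ.1.len c < h.len c ∧
    h.inp (c, σ.1.len c) ≠ a) fun h c' a' z l _ =>
      ⟨l.1, l.2.1.trans_le ((HExt.step h c' a' z).1 c).1,
        ((HExt.step h c' a' z).2 (c, _) l.2.1).1.trans_ne l.2.2⟩
  have h1 := (hD.union hs.phi hJ).cone hs.phi (k.1.ext a1) fun c' a' hn' => by
      obtain rfl := hn'.1.unique hn.1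
      by_cases e : a' = a
      · exact e.symm ▸ a3.mono hs.phi subset_union_left
      · refine Par.large_of_succ hs.phi (k.1.ext a1) hn' fun x τ l =>
          Or.inr ⟨l.choose_spec.2.2.2.1, not_not.1 fun f => e ((hn'.2.2 f).trans (hn.2.2 f).symm), ?_⟩
        rw [l.hist]
        simpa [Hist.step] using e
  refine (k.2 fun d => (o d).of_ext (HExt.step _ _ _ _)).2 g a1 a2 ⟨_, ⟨h1, SS.of_dense h0
    fun v b1 b2 => ?_⟩, Or.inr ⟨rfl, a1, le_rfl⟩⟩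
  obtain ⟨u, c1, -, -, c2⟩ := adv v (η + 1) (σ.1.len c + 1)
  obtain ⟨j, d1, d2⟩ := (c1.2 η).trans (u.ok η) b2
  have d3 : σ.1.len c < (u.b η).rt.1.len (j c) := c2 η (lt_add_one η) _
  refine ⟨u, c1, j, d1, ?_⟩
  rcases d2 _ (u.ok η).rt with l | l
  · refine l.resolve_right fun l => l.2.2.2 ?_
    have := ((Cons1.proj d1).2 (u.cons η _) l.2.1).unique
      ((o c).mono ((LB.of_le c1).trans b1) l.2.1) d3 (by simp [Hist.step])
    simpa [Hist.step, proj] using this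
  · exact (d3.ne (congrFun (congrArg Hist.len l.1) c).symm).elim

theorem root_mem {T σ} (hu : u.b η = ⟨s, T, σ⟩) (h : ∀ v, LB η v r → res (par η).Ω u.q ⊆ v.q →
    BLe η (v.b η) (u.b η) → Hg (η + 1) v q → v ∈ b.s) : eff η u.q σ ∈ DD b q r η s :=
  have o := Cond.okE hu
  ⟨_, ⟨o.cl.inter o.phi (Par.closed_sub o.phi (res (par η).Ω u.q)), fun v a1 ⟨j, a2, a3⟩ a4 =>
    h v a1 ((a3 _ (v.ok η).rt).2.2.trans (v.sub η)) (hu ▸ ⟨j, a2, fun σ k => (a3 σ k).1⟩) a4⟩,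
    Cond.effE hu, (o.cl.1 _ (Cond.effE hu)).1, subset_rfl⟩

theorem Lw.succ (hη : KK η) (h0 : res (par η).Ω u.q ⊆ v.q) (h1 : LB η v u)
    (h2 : BLe η (v.b η) (u.b η)) : Lw (η + 1) v u :=
  ⟨par_Ω hη ▸ h0, fun ζ k => (Order.lt_add_one_iff.1 k).lt_or_eq.elim (h1 ζ) fun e => e ▸ h2⟩

/-- The Prikry property above `η` for the family `b`. -/
def Prk {I : Type 1} (b : I → RO Cond) (β η : Ordinal.{0}) (q : Cond) : Prop :=
  ∀ i, ∀ u ≤ q, Ex β q u → u ∈ (b i).s → ∃ u' ≤ u, Ex β q u' ∧ Dec (b i) η u' q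

/-- The same for the blocks only. -/
def Prk' {I : Type 1} (b : I → RO Cond) (β η : Ordinal.{0}) (q : Cond) : Prop :=
  ∀ i, ∀ u ≤ q, Ex β q u → u ∈ (b i).s → ∃ u' ≤ u, Ex β q u' ∧
    ∀ v, LB η v u' → u'.q ⊆ v.q → Hg η v q → v ∈ (b i).s

variable {I : Type 1} {B : I → RO Cond}

theorem Prk.weak (h : Prk B β η q) : Prk' B β η q := fun i u a1 a2 a3 =>
  let ⟨u', b1, b2, b3⟩ := h i u a1 a2 a3
  ⟨u', b1, b2, fun v c1 c2 => b3 v ⟨(res_sub _ _).trans c2, c1⟩⟩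

theorem Prk'.gap {η' : Ordinal.{0}} (h : Prk' B β η q) (h1 : β ≤ η')
    (h2 : ∀ ζ, η' ≤ ζ → ζ < η → q.b ζ = triv ζ) : Prk' B β η' q := fun i u a1 a2 a3 =>
  let ⟨u', b1, b2, b3⟩ := h i u a1 a2 a3
  ⟨u', b1, b2, fun v c1 c2 c3 => b3 v (fun ζ k => (lt_or_ge ζ η').elim (c1 ζ) fun l =>
    eq_triv (u'.ok ζ) (h2 ζ l k ▸ b2 ζ (h1.trans l)) ▸ le_triv (v.ok ζ)) c2 ⟨c3.1,
    fun ζ _ => (lt_or_ge ζ η').elim (c1.trans (LB.of_le (b1.trans a1)) ζ) (c3.2 ζ)⟩⟩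

omit [Hyp] in
theorem mk_mul_lt {X Y : Type 1} {γ : Ordinal.{0}} (h : Stage γ) (a : #X < lc γ.card)
    (b : #Y < lc γ.card) : #(X × Y) < lc γ.card := by
  simpa using mul_lt_of_lt (aleph0_le_lift.2 h.1.aleph0_lt.le) a b

theorem Prk'.tail (h : Prk' B β η q) (hη : KK η) (hI : #I < lc (base η)) :
    ∃ q' ≤ q, q'.b = q.b ∧ Prk B β η q' := by
  let E : I × Low η → Set At → Prop := fun x k =>
    ∀ v, LB η v x.2.1 → k ⊆ v.q → Hg η v q → v ∈ (B x.1).s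
  have hT := ppT_ok hη
  obtain ⟨t, a1, a2, -, a4⟩ := hT.rds le_rfl (not_stage_base hη) (ι := I × Low η)
    (fun γ k l => mk_mul_lt k (hI.trans (Cardinal.lift_lt.2 (k.lt_card l))) (mk_low' hη γ k l))
    (fun x k => E x k ∨ ∀ k' ∈ PP, k ⊆ k' → ¬ E x k') q.pp fun x k hk _ => by
      by_cases e : ∀ k' ∈ PP, k ⊆ k' → ¬ E x k'
      · exact ⟨k, hk, le_rfl, Or.inr e⟩
      · push Not at e
        obtain ⟨k', d1, d2, d3⟩ := e
        exact ⟨k', d1, d2, Or.inl d3⟩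
  refine ⟨q.setq a1 a2, q.setq_le _ _, rfl, fun i u b1 b2 b3 => ?_⟩
  obtain ⟨u', c1, c2, c3⟩ := h i u (b1.trans (q.setq_le _ _)) b2 b3
  obtain ⟨r, r2, -, r1⟩ := exists_low u' η
  have d0 : t ⊆ u'.q := (c1.trans b1).1
  obtain ⟨s', d1, d2, k, d3, -, d4, d5⟩ := a4 (i, ⟨r, r2⟩) _ (PP.res u'.pp _)
    (res_mono (Subset.trans a2 d0))
  have e1 : s' ∪ u'.q ∈ PP := PP.amal (PP.of_le hη le_rfl d1) d1 u'.pp d2
  have e2 : E (i, ⟨r, r2⟩) k := d4.resolve_right fun n => n _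
    (hT.cov d5 d3 e1 (union_subset_union_right _ d0)) subset_union_right fun v f1 f2 f3 =>
      c3 v (f1.trans (LB.of_eq r1)) ((subset_union_right.trans subset_union_left).trans f2) f3
  refine ⟨u'.setq e1 subset_union_right, (u'.setq_le _ _).trans c1, c2,
    fun v f1 f2 => (B i).reg v fun v' f3 => ?_⟩
  have g1 := hT.cov d5 d3 v'.pp (union_subset
    (((PV.sub_res d1 subset_union_left).trans f1.1).trans f3.1) (f2.1.trans f3.1))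
  have g2 := v'.setq_le g1 subset_union_left
  exact ⟨_, g2, e2 _ (((LB.of_le (g2.trans f3)).trans f1.2).trans
    (LB.of_eq fun ζ l => (r1 ζ l).symm)) subset_union_right
    (((Hg.of_le (g2.trans f3)).trans f2).trans (Hg.of_le (q.setq_le _ _)))⟩

theorem Prk.step (h : Prk B β (η + 1) q) (h1 : β < η) (hq : q.b η ≠ triv η)
    (hI : #I < lc (base η)) : ∃ q' ≤ q, Ex 0 q q' ∧ Prk B β η q' := by
  have hη := q.kk η hq
  obtain ⟨κ, hκ, e⟩ := Cardinal.lt_lift_iff.1 hI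
  obtain ⟨c, c0, hc, hn, hf⟩ := exists_fits q h1 (Cardinal.ord_lt_ord.2 hκ)
  have h2 : ∀ γ, Stage γ → c < γ → #(I × LowEx q β η c) < lc γ.card := fun γ k l =>
    mk_mul_lt k (e ▸ Cardinal.lift_lt.2 (k.lt_card (hc.trans l)))
      (mk_lowEx (hη.mono h1.le) hf k.ord (k.2.1.symm ▸ l))
  obtain ⟨α, hα, h3⟩ := (par η).sc_cof (nx c.card) (par_ν hη ▸
    nx_lt_base (zero_le.trans_lt h1) (lt_ord.1 c0))
  have h4 : #(I × LowEx q β η c) < lc ((par η).sc α) := by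
    have := h2 _ (nx_st c.card) (lt_ord.2 (nx_sc _).1)
    rw [card_ord] at this
    exact this.trans (Cardinal.lift_lt.2 h3)
  obtain ⟨p, a1, a2, a3⟩ := q.high hα
  have o := p.ok η
  have n0 : (p.b η).sh.n ≠ 0 := fun k => hq ((q.ok η).nz (a2 η zero_le ▸ k))
  have cb : c ≤ (par η).b := par_b hη ▸ c0.le
  have cΩ : c ≤ (par η).Ω := cb.trans (par η).b_le
  let D : I × LowEx q β η c → _ := fun x => DD (B x.1) q x.2 η (p.b η).sh
  have hD : ∀ x, _ := fun x : I × LowEx q β η c =>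
    closed_DD (b := B x.1) (q := q) (r := x.2) o.toSOK
  have hR : ∀ x, _ := fun x : I × LowEx q β η c =>
    reg_DD (b := B x.1) (q := q) (r := x.2) o.toSOK n0
  have v0 := (o.cl.1 _ (p.eff η)).1
  have hT := Par.lab_ok (P := par η) (ty := (p.b η).sh.ty) (p.b η).rt.1.len
  obtain ⟨g, b1, b2, b3, b4⟩ := hT.rds cb hn h2 (fun x g => ((p.b η).rt.1, g) ∈ D x ∨
    ((p.b η).rt.1, g) ∈ (par η).perp (p.b η).sh.ty (D x)) v0.2 fun x g k _ => by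
      by_cases l : ((p.b η).rt.1, g) ∈ (par η).perp (p.b η).sh.ty (D x)
      · exact ⟨g, k, le_rfl, Or.inr l⟩
      · simp only [Par.perp, mem_setOf_eq, not_and, not_forall, not_not] at l
        obtain ⟨g', d1, d2, d3⟩ := l (o.val.ext k)
        exact ⟨g', d1, d2, Or.inl d3⟩
  let G : I × LowEx q β η c → Set (State (Fin (p.b η).sh.n)) := fun x =>
    {τ ∈ D x | ∃ s ∈ {s ∈ PV c | ((p.b η).rt.1, ((s, ∅) : Lb _) ⊔ g) ∈ D x}, s ⊆ τ.2.1} ∪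
    {τ ∈ {τ | (par η).Val (p.b η).sh.ty τ ∧ ((∀ d, Cons1 x.2.1.b η _ τ.1 d) →
        τ ∈ (par η).perp (p.b η).sh.ty (D x))} |
      ∃ s ∈ {s | ((p.b η).rt.1, ((s, ∅) : Lb _) ⊔ g) ∈ (par η).perp (p.b η).sh.ty (D x)},
        s ⊆ τ.2.1}
  have g1 : ∀ x, (par η).Closed (p.b η).sh.ty (p.b η).sh.Φ ((par η).reg (p.b η).sh.ty (G x)) :=
    fun x => (((hD x).tag o.phi _).union
    o.phi ((closed_avoid o.toSOK n0).tag o.phi _)).reg o.phi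
  have g2 : ∀ x, ((p.b η).rt.1, g) ∈ (par η).reg (p.b η).sh.ty (G x) := fun x =>
    Par.mem_reg.2 ⟨o.val.ext b1, fun g' d1 d2 => by
      have d0 := res_mono (c := c) (Subset.trans b2.1 d2.1)
      obtain ⟨s', e1, e2, k, e3, -, e4, e5⟩ := b4 x _ (PV.res d1.1 c) d0
      have e6 := hT.amal cb e1 b1 (b3.le.trans (d0.trans e2))
      have e7 := hT.amal cb e1 d1 e2
      have e8 : ((s', ∅) : Lb _) ⊔ g ≤ (s', ∅) ⊔ g' := sup_le_sup_left d2 _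
      refine ⟨_, e7, le_sup_right, e4.imp (fun l => ?_) fun l => ?_⟩
      · have := (hR x).of_sle (hD x).1 l e6 e5
        exact ⟨((hD x).1 _ this).2 _ e7 e8, s', ⟨e1, this⟩, subset_union_left⟩
      · have := (Par.reg_perp (hD x).1).of_sle Par.opn_perp l e6 e5
        exact ⟨⟨o.val.ext e7, fun _ => (Par.opn_perp _ this).2 _ e7 e8⟩, s', this,
          subset_union_left⟩⟩
  have g3 : ∀ x, ∀ τ ∈ (par η).reg (p.b η).sh.ty (G x), g.1 ⊆ τ.2.1 → ∀ s ⊆ τ.2.1,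
      ((p.b η).rt.1, ((s, ∅) : Lb _) ⊔ g) ∈ D x → τ ∈ D x := fun x τ k l s m n =>
    hR x τ k.1 ((Par.mem_reg.1 k).2.imp fun g' d1 d2 d3 => (d3.resolve_right
      fun ⟨_, s', e1, e2⟩ => by
        have e3 := Par.QL_up' b1 d1.1 (l.trans d2.1)
        exact e1.2 _ e3 (sup_le ⟨e2, empty_subset _⟩ ⟨l.trans d2.1, subset_rfl⟩) (((hD x).1 _ n).2
          _ e3 (sup_le ⟨m.trans d2.1, empty_subset _⟩ ⟨l.trans d2.1, subset_rfl⟩))).1)
  obtain ⟨t, c1, -, ⟨T, c2, c3⟩, c4⟩ := Cond.shrink (p := p) rfl n0 ((Par.closed_iInter o.phi hα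
    h4 g1 fun _ => Par.reg_reg).inter o.phi (Par.closed_sub o.phi g.1))
    ⟨⟨⟨o.val.ext b1, a3⟩, g2⟩, o.val.ext b1, subset_rfl⟩ ((o.cl.1 _ (p.eff η)).2 g b1 b2)
    (p.cons η) b2.1
  have c5 := a2.trans (Ex.of_upd rfl c3 c4)
  have c6 := c1.trans a1
  refine ⟨t, c6, c5, fun i u d1 d2 d3 => ?_⟩
  obtain ⟨u1, d4, d5, d6⟩ := h i u (d1.trans c6) (c5.mono.trans d2) d3
  obtain ⟨u2, e1, e2, e3, r, e4, e5, e6, e7⟩ := Cond.loc hf hn d5
  have e8 : Ex β t u2 := fun ζ k =>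
    ((e2 ζ zero_le).trans (d5 ζ k)).trans (c5 ζ zero_le).symm
  have e9 := e1.trans (d4.trans d1)
  obtain ⟨T', σ, f1⟩ := (u2.b η).ex ((e8 η h1.le).trans (congrArg BC.sh c3))
  have f2 : eff η u2.q σ ∈ D (i, ⟨r, e4⟩) := root_mem f1 fun v k1 k2 k3 k4 =>
    (B i).reg v fun v' k5 => by
      obtain ⟨z, k6, k7⟩ := e7 v' ((LB.of_le k5).trans k1) (((res_mono_left
        (par_b hη ▸ (par η).b_le)).trans k2).trans k5.1)
      have k8 := k6.trans k5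
      exact ⟨z, k6, d6 z (Lw.succ hη (((res_mono e1.1).trans k2).trans k8.1) k7
        (e3 η le_rfl ▸ (k8.2 η).trans (z.ok η) k3)) ((Hg.of_le k8).trans k4)⟩
  have f3 := c2 (BLe.sub o.toSOK (f1 ▸ c3 ▸ e9.2 η) (Cond.effE f1))
  obtain ⟨g', f4, f5, f6⟩ := (Par.mem_reg.1 (f3.1.2 (i, ⟨r, e4⟩))).2 _ f3.2.1.2 le_rfl
  obtain ⟨-, s', ⟨f7, f8⟩, f9⟩ := f6.resolve_right fun k => (k.1.2 fun d => e6 _ _ d
    (Cond.consE ((e3 η le_rfl).symm.trans f1) d)).2 g' f4 le_rfl (((hD _).1 _ f2).2 g' f4 f5)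
  refine ⟨u2.setq (u2.amal hη f4.1 f5.1) subset_union_right, (u2.setq_le _ _).trans
    (e1.trans d4), e8, fun v k1 k2 => (B i).reg v fun v' k3 => ?_⟩
  obtain ⟨j, k4, k5⟩ := c3 ▸ ((Hg.of_le k3).trans k2).2 η le_rfl
  have k6 := c2 (k5 _ (v'.eff η))
  exact dd_force o.toSOK n0 k4 (((LB.of_le k3).trans k1.2).trans e5) (g3 _ _ (k6.1.2 _) k6.2.2 s'
    (PV.sub_res (PV.mono f7 cΩ) (((PV.sub_res (PV.mono f7 c0.le)
      (f9.trans subset_union_left)).trans k1.1).trans k3.1)) f8)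
    ((((Hg.of_le k3).trans k2).trans (Hg.of_le c6)).mono (le_add_right le_rfl))

theorem red (q : Cond) {γ : Ordinal.{0}} (h : β < γ) (hγ : KK γ) (B : I → RO Cond)
    (hI : #I < lc (base γ)) : ∃ q' ≤ q, Ex 0 q q' ∧ Prk B β γ q' := by
  have key : ∀ S : Finset Ordinal.{0}, ∀ q η, (∀ ζ, γ ≤ ζ → ζ < η → q.b ζ ≠ triv ζ → ζ ∈ S) →
      Prk' B β η q → ∃ q' ≤ q, Ex 0 q q' ∧ Prk B β γ q' := by
    intro S
    induction S using Finset.induction_on_max with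
    | empty =>
      intro q η a b
      obtain ⟨p, c1, c2, c3⟩ := (b.gap h.le fun ζ k l =>
        not_not.1 fun e => Finset.notMem_empty _ (a ζ k l e)).tail hγ hI
      exact ⟨p, c1, fun _ _ => by rw [c2], c3⟩
    | insert a S hS ih =>
      intro q η k l
      by_cases o : γ ≤ a ∧ a < η ∧ q.b a ≠ triv a
      swap
      · exact ih q η (fun ζ x y z => (Finset.mem_insert.1 (k ζ x y z)).resolve_left
          fun e => o (e ▸ ⟨x, y, z⟩)) l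
      have e := hI.trans_le (Cardinal.lift_le.2 (base_strict.monotone o.1))
      obtain ⟨p0, a0, a4, a5⟩ := (l.gap ((h.le.trans o.1).trans (le_add_right le_rfl)) fun ζ x y =>
        not_not.1 fun z => (Finset.mem_insert.1 (k ζ (o.1.trans ((le_add_right le_rfl).trans x))
          y z)).elim (Order.add_one_le_iff.1 x).ne' fun w =>
          (hS _ w).not_gt (Order.add_one_le_iff.1 x)).tail (q.kk a o.2.2).succ
        (e.trans (Cardinal.lift_lt.2 (base_strict (lt_add_one a))))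
      obtain ⟨p, a1, a6, a3⟩ := a5.step (h.trans_le o.1) (a4 ▸ o.2.2) e
      have a2 : Ex 0 q p := fun ζ x => a4 ▸ a6 ζ x
      obtain ⟨t, b1, b2, b3⟩ := ih p a (fun ζ x y z => (Finset.mem_insert.1 (k ζ x (y.trans o.2.1)
        fun w => z (eq_triv (p.ok ζ) (w ▸ a2 ζ zero_le)))).resolve_left y.ne) a3.weak
      exact ⟨t, b1.trans (a1.trans a0), a2.trans b2, b3⟩
  obtain ⟨η, hη⟩ := q.fin.bddAbove
  refine key q.fin.toFinset q (max β (η + 1)) (fun ζ _ _ e => q.fin.mem_toFinset.2 e)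
    fun i u _ a2 a3 => ⟨u, le_rfl, a2, fun v b1 b2 _ => (B i).lower (b1.le ⟨b2, fun ζ k => ?_⟩) a3⟩
  have : q.b ζ = triv ζ := not_not.1 fun e =>
    (hη e).not_gt (Order.add_one_le_iff.1 ((le_max_right _ _).trans k))
  exact eq_triv (u.ok ζ) (this ▸ a2 ζ ((le_max_left _ _).trans k)) ▸ le_triv (v.ok ζ)

theorem mem_cd {P : Type 1} [Preorder P] {p q : P} (h : p ∈ (RO.cd q).s) : ∃ r ≤ p, r ≤ q :=
  let ⟨r, a, _, rfl, c⟩ := h p le_rfl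
  ⟨r, a, c⟩

theorem red_op (hβ : KK β) (hI : Sm #I) : ∃ γ, KK γ ∧ ∀ s : Set (Ordinal.{0} × ℝ), s.Finite →
    ∀ B : I → RO Cond, (∀ i, ∀ π ∈ Fix s, (∀ c, Lo β c → sg π c = c) → sg π (B i) = B i) →
    ∀ p : Cond, ∃ q ≤ p, ∃ R : RO Cond → RO Cond, Monotone R ∧ (∀ x, Lo γ (R x)) ∧
      (∀ x, RO.cd q ⊓ R x ≤ x) ∧ (∀ c x, Lo β c → c ⊓ R x ≤ R (c ⊓ x)) ∧
      (∀ π ∈ Fix (Co q), ∀ x, sg π (R x) = R (sg π x)) ∧ ∀ i, RO.cd q ⊓ B i ≤ R (B i) := by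
  obtain ⟨η, h1, h2⟩ := hI
  have h3 : ∀ n : ℕ, KK (max β η + n) := fun n => by
    induction n with
    | zero => simpa using hβ.max h1
    | succ n ih => simpa [← add_assoc] using ih.succ
  obtain ⟨γ, g1, g2⟩ := (Sm.aleph0.mono mk_le_aleph0).bdd _ fun n : ULift.{1} ℕ => h3 n.down
  refine ⟨γ, g1, fun s hs B hB p => ?_⟩
  obtain ⟨t, a1, a2⟩ := exists_add p hs
  obtain ⟨n, hn⟩ := exists_gap t (β := fun n => max β η + n)
  have h4 : max β η ≤ max β η + n := le_add_right le_rfl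
  have h5 := h3 n
  have h6 := (g2 ⟨n + 1⟩).le
  simp only [Nat.cast_succ, ← add_assoc] at hn h6
  generalize max β η + n = δ at *
  have h7 : lc (nu δ 1) < lc (base (δ + 1)) := Cardinal.lift_lt.2 (nu_lt_base (lt_add_one δ) 1)
  obtain ⟨q, b1, b2, b3⟩ := red t (lt_add_one δ) h5.succ B (h2.trans_le ((Cardinal.lift_le.2
    (nu_mono ((le_max_right _ _).trans h4) 1)).trans h7.le))
  have h9 : β ≤ δ := (le_max_left _ _).trans h4
  have hl : ∀ x u, Dec x (δ + 1) u q → ∀ v, Lw (δ + 1) v u → Dec x (δ + 1) v q :=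
    fun x u a v c z d => a z (d.trans c)
  have h8 : ∀ π ∈ Fix (Co q), ∀ x, sg π (RO.hull {r | Dec x (δ + 1) r q}) ≤
      RO.hull {r | Dec (sg π x) (δ + 1) r q} := fun π k x u a v c => by
    obtain ⟨r, c1, z, c2, c3⟩ := a (π⁻¹ • v) (smul_mono _ _ _ c)
    refine ⟨π • r, by simpa using smul_mono π _ _ c1, π • z, fun w d1 d2 => c2 _ ?_ ?_,
      smul_mono π _ _ c3⟩
    · simpa only [inv_smul_smul] using d1.act π⁻¹
    · simpa only [smul_fix (inv_mem k)] using d2.act π⁻¹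
  refine ⟨q, b1.trans a1, fun x => RO.hull {r | Dec x (δ + 1) r q}, fun x y e u a v c => ?_,
    fun x => (lo_hull (hl x)).mono h6, fun x u a => x.reg u fun v c => ?_,
    fun c x e u a v d => ?_, fun π k x => (h8 π k x).antisymm ?_, fun i u a v c => ?_⟩
  · obtain ⟨r, c1, z, c2, c3⟩ := a v c
    exact ⟨r, c1, z, fun w d1 d2 => e (c2 w d1 d2), c3⟩
  · obtain ⟨r, c1, c2⟩ := mem_cd ((RO.cd q).lower c (RO.mem_inf.1 a).1)
    obtain ⟨w, c3, z, c4, c5⟩ := (RO.mem_inf.1 a).2 r (c1.trans c)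
    exact ⟨w, c3.trans c1, c4 w (Lw.of_le c5) (Hg.of_le (c3.trans c2))⟩
  · obtain ⟨r, c1, z, c2, c3⟩ := (RO.mem_inf.1 a).2 v d
    exact ⟨r, c1, r, fun w d1 d2 => RO.mem_inf.2 ⟨e.mono (h9.trans (le_add_right le_rfl)) _
      (c.lower (c1.trans d) (RO.mem_inf.1 a).1) w d1, c2 w (d1.trans (Lw.of_le c3)) d2⟩, le_rfl⟩
  · have := (sg π).monotone (h8 π⁻¹ (inv_mem k) (sg π x))
    simpa only [← RelIso.mul_apply, ← map_mul, mul_inv_cancel, inv_mul_cancel, map_one,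
      RelIso.one_apply] using this
  · obtain ⟨r, c1, c2⟩ := mem_cd ((RO.cd q).lower c (RO.mem_inf.1 a).1)
    obtain ⟨z, d1, d0, d2, d3, d4⟩ := flat_mem (β := δ) hs (fun π k l => hB i π k fun c e =>
      (e.mono h9).fix l) (fun x k l => co_mono b1 (a2 x k l)) c2
      ((B i).lower (c1.trans c) (RO.mem_inf.1 a).2)
    obtain ⟨z', e1, e2, e3⟩ := b3 i z d1 d2 d4
    obtain ⟨y, f1, f2, f3, -⟩ := exists_mix' ((LB.of_le e1).trans (LB.of_eq d3)) z'.pp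
      (d0 ▸ e1.1) fun ζ _ => z'.sub ζ
    refine ⟨y, f1.trans c1, y, hl _ _ e3 y (Lw.succ h5 (f2 ▸ res_sub _ _) (LB.of_eq f3) ?_), le_rfl⟩
    rw [eq_triv (z'.ok δ) (hn δ le_rfl (lt_add_one δ) ▸ (e2 δ le_rfl).trans (b2 δ zero_le))]
    exact le_triv (y.ok δ)

end Pool.Agent.SC7292

/-!
Preservation of the cardinals `nu η k` for `2 ≤ k`.
-/

namespace Pool.Agent.SC7292

open Cardinal Ordinal Set Function Filter Pool.Agent.MP_7b2404_lc Pool.Agent.Lib.ForcingU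

/-- Names of sets of ordinals with few forced members. -/
def Few (d : Ordinal.{0}) (μ : Cardinal.{1}) (N : Ordinal.{0} → Set At → Prop) : Prop :=
  ∀ s ∈ PV d, #{a | Dn (PV d) s (N a)} ≤ μ

/-- The cut `c` is adapted to `μ`. -/
def Gd (d : Ordinal.{0}) (μ : Cardinal.{1}) (c : Ordinal.{0}) : Prop :=
  c ≤ d ∧ ¬ Stage c ∧ ℵ₀ ≤ μ ∧ #(PV c) ≤ μ ∧ ∀ γ, Stage γ → c < γ → μ < lc γ.card

section

variable {c d : Ordinal.{0}} {μ : Cardinal.{1}} {N N' : Ordinal.{0} → Set At → Prop}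

theorem exists_gd {χ : Cardinal.{0}} (h : Stage χ.ord) (hd : χ.ord ≤ d) (hμ : μ < lc χ) :
    ∃ μ' c, μ ≤ μ' ∧ μ' < lc χ ∧ Gd d μ' c := by
  obtain ⟨κ, a, rfl⟩ := Cardinal.lt_lift_iff.1 hμ
  have b := (isSuccLimit_ord h.inacc.aleph0_lt.le).add_one_lt (Cardinal.ord_lt_ord.2 a)
  have e : ∀ γ, Stage γ → κ.ord + 1 < γ → max (max (lc κ) #(PV (κ.ord + 1))) ℵ₀ < lc γ.card :=
    fun γ k l => max_lt (max_lt (Cardinal.lift_lt.2 (k.lt_card ((lt_add_one _).trans l)))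
      (k.mk_PV l)) (aleph0_lt_lift.2 k.1.aleph0_lt)
  exact ⟨_, _, (le_max_left _ _).trans (le_max_left _ _), by simpa using e _ h b, b.le.trans hd,
    not_stage_succ _, le_max_right _ _, (le_max_right _ _).trans (le_max_left _ _), e⟩

theorem succ_lt_lc {χ : Cardinal.{0}} (h : χ.IsStrongLimit) (k : μ < lc χ) : Order.succ μ < lc χ :=
  (Order.succ_le_of_lt (cantor _)).trans_lt (two_pow_lt h k)

theorem Gd.pigeon (h : Gd d μ c) {J : Type 1} (hJ : #J ≤ μ)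
    {N : J → Ordinal.{0} → Set At → Prop} {s : Set At} (hs : s ∈ PV d)
    (H : μ < #{a | Dn (PV d) s fun k => ∃ j, N j a k}) :
    ∃ s' ∈ PV d, ∃ j, μ < #{a | ∃ k ∈ PV d, N j a k ∧ Sle s' k} := by
  obtain ⟨S, s1, s2⟩ := le_mk_iff_exists_subset.1 (Order.succ_le_of_lt H)
  obtain ⟨g, a1, -, a3, a4⟩ := (pvT_ok d).rds h.1 h.2.1 (ι := S) (fun γ k l =>
    s2 ▸ succ_lt_lc k.1.isStrongLimit (h.2.2.2.2 γ k l)) (fun a k => ∃ j, N j a k) hs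
    fun a => s1 a.2
  choose t b1 b2 k b3 b4 b5 b6 using fun a => a4 a _ (PV.res hs c) subset_rfl
  choose j b7 using b5
  have hr := isRegular_succ h.2.2.1
  obtain ⟨z, hz⟩ := infinite_pigeonhole_card (fun a : S => ((⟨t a, b1 a⟩, j a) : PV c × J))
    (Order.succ μ) s2.ge hr.aleph0_le (by
      rw [hr.cof_ord, Order.lt_succ_iff, mk_prod, Cardinal.lift_id, Cardinal.lift_id]
      exact (mul_le_mul' h.2.2.2.1 hJ).trans (mul_eq_self h.2.2.1).le)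
  obtain ⟨⟨a0, e0⟩⟩ := mk_ne_zero_iff.1 (hr.pos.trans_le hz).ne'
  refine ⟨z.1.1 ∪ g, PV.amal z.1.2 a1 (e0 ▸ (show res c g = _ from a3).le.trans (b2 a0)) h.1, z.2,
    Order.succ_le_iff.1 (hz.trans (mk_le_of_injective (f := fun a => ⟨a.1.1, k a.1, b3 _, ?_⟩)
      fun a b e => Subtype.ext (Subtype.ext (by simpa using e))))⟩
  obtain ⟨a, rfl⟩ := a
  exact ⟨b7 _, b6 _⟩

theorem Few.mono (h : Few d μ N') (e : ∀ a k, N a k → N' a k) : Few d μ N := fun s hs =>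
  (mk_le_mk_of_subset fun a k => Dn.imp k fun _ _ _ => e a _).trans (h s hs)

theorem Few.union (h : Gd d μ c) {J : Type 1} (hJ : #J ≤ μ) {N : J → Ordinal.{0} → Set At → Prop}
    (hm : ∀ j a k, N j a k → ∀ k' ∈ PV d, k ⊆ k' → N j a k') (H : ∀ j, Few d μ (N j)) :
    Few d μ fun a k => ∃ j, N j a k := fun s hs => not_lt.1 fun e =>
  let ⟨s', a1, j, a2⟩ := h.pigeon hJ hs e
  a2.not_ge (le_trans (mk_le_mk_of_subset fun a ⟨k, b1, b2, b3⟩ =>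
    (pvT_ok d).dn b3 b1 (Dn.of (hm j a k b2))) (H j s' a1))

end

section

variable {C : Type} [LinearOrder C] (P : Par) (ty : C → Ty) (k : ℕ)

/-- Values captured after `n` moves. -/
def cap (A : Hist C → Ordinal.{0} → Set At → Prop) : ℕ → Hist C → Ordinal.{0} → Set At → Prop
  | 0, h => A h
  | n + 1, h => fun a s => ∃ c : ULift.{1} C, ((ty c.down).k < k ∧ ∃ x : (Iio P.ρ ×ˢ
      {z | z ⊆ Iio (ty c.down).θ} : Set (Ordinal.{0} × Set Ordinal.{0})),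
        cap A n (h.step c.down x.1.1 x.1.2) a s) ∨ (k ≤ (ty c.down).k ∧ P.UN (ty c.down) s
          fun y => {q | cap A n (h.step c.down (h.len c.down) (y ∩ Iio (ty c.down).θ)) a q})

variable {P ty k} {A : Hist C → Ordinal.{0} → Set At → Prop}

theorem ne_of_le (hk : k ≠ 0) {t : Ty} (l : k ≤ t.k) : t.k ≠ 0 :=
  fun o => hk (Nat.le_zero.1 (o ▸ l))

theorem cap_mono (hk : k ≠ 0) (hA : ∀ h a s, A h a s → ∀ s' ∈ PV P.Ω, s ⊆ s' → A h a s') (n : ℕ) :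
    ∀ h a s, cap P ty k A n h a s → ∀ s' ∈ PV P.Ω, s ⊆ s' → cap P ty k A n h a s' := by
  induction n with
  | zero => exact hA
  | succ n ih =>
    rintro h a s ⟨c, b⟩ s' d e
    exact ⟨c, b.imp (And.imp_right (Exists.imp fun x f => ih _ _ _ f s' d e))
      fun f => ⟨f.1, (P.UN_uf (ne_of_le hk f.1)).mono f.2 e d⟩⟩

theorem mk_cap [Finite C] (hk : k ≠ 0) {μ : Cardinal.{1}} {c : Ordinal.{0}} (hg : Gd P.Ω μ c)
    (hμ : μ < lc (P.ν k)) (hM : ∀ c, (ty c).k < k → #(Iio P.ρ ×ˢ {z | z ⊆ Iio (ty c).θ} :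
      Set (Ordinal.{0} × Set Ordinal.{0})) ≤ μ)
    (hA : ∀ h a s, A h a s → ∀ s' ∈ PV P.Ω, s ⊆ s' → A h a s') (H : ∀ h, Few P.Ω μ (A h)) (n : ℕ) :
    ∀ h, Few P.Ω μ (cap P ty k A n h) := by
  induction n with
  | zero => exact H
  | succ n ih =>
    have hm := cap_mono (ty := ty) hk hA n
    refine fun h => Few.union hg (mk_le_aleph0.trans hg.2.2.1) (fun c a s b s' d e => b.imp
      (And.imp_right (Exists.imp fun x f => hm _ _ _ f s' d e))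
      fun f => ⟨f.1, (P.UN_uf (ne_of_le hk f.1)).mono f.2 e d⟩) fun c => ?_
    rcases lt_or_ge (ty c.down).k k with l | l
    · exact (Few.union hg (hM _ l) (fun x => hm _) fun x => ih _).mono fun a s b =>
        (b.resolve_right fun e => e.1.not_gt l).2
    · refine fun s hs => not_lt.1 fun hc => ?_
      obtain ⟨S, s1, s2⟩ := le_mk_iff_exists_subset.1 (Order.succ_le_of_lt hc)
      have u := P.UN_uf (ne_of_le hk l)
      obtain ⟨y, g, a1, -, _, a2, a3⟩ := u.proper (u.inter (ι := S) (s2.trans_lt ((succ_lt_lc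
        (P.inacc hk).isStrongLimit hμ).trans_le (Cardinal.lift_le.2 (P.ν_mono.monotone l)))) hs
        fun a => u.reg hs (Dn.imp (s1 a.2) fun _ _ _ b => (b.resolve_left
          fun e => e.1.not_ge l).2))
      exact (Order.lt_succ _).not_ge (s2.ge.trans ((mk_le_mk_of_subset fun a o =>
        ((a2 ⟨a, o⟩).mono a3).imp fun q b _ ⟨_, e, f⟩ => hm _ _ _ e q b f).trans (ih _ g a1)))

theorem closed_cap {Φ : Phi C} (hΦ : P.PhiOK ty Φ) (hk : k ≠ 0) {ι : Type 1} (hι : #ι < lc (P.ν k))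
    (A : ι → Hist C → Ordinal.{0} → Set At → Prop) (a : Ordinal.{0}) :
    P.Closed ty Φ {σ | P.Val ty σ ∧ ∀ x : ι × ULift.{1} ℕ, ∀ s ∈ PV P.Ω, σ.2.1 ⊆ s →
      ¬ cap P ty k (A x.1) x.2.down σ.1 a s} := by
  refine ⟨fun σ h => ⟨h.1, fun g b e => ⟨h.1.ext b, fun x s d f => h.2 x s d (e.1.trans f)⟩⟩,
    fun σ h c a' hn => ?_⟩
  rcases lt_or_ge (ty c).k k with l | l
  · exact Par.large_of_succ hΦ h.1 hn fun x τ b => ⟨b.choose_spec.2.2.2.1, fun i s d f e =>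
      h.2 (i.1, ⟨i.2.down + 1⟩) s d (b.sub.trans f) ⟨⟨c⟩, Or.inl ⟨l, ⟨(a', _),
        hn.2.1, inter_subset_right⟩, b.hist ▸ e⟩⟩⟩
  · have o := ne_of_le hk l
    have u := P.UN_uf o
    obtain rfl := hn.2.2 fun e => o e.1
    refine ⟨fun e => (o e).elim, fun _ => P.UN_incl o (Par.val_upper h.1 hn o) (u.inter
      (ι := ι × ULift.{1} ℕ) ?_ h.1.2.1 fun i => u.perp h.1.2.1 fun g b d e =>
        h.2 (i.1, ⟨i.2.down + 1⟩) g b d ⟨⟨c⟩, Or.inr ⟨l, e⟩⟩)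
      fun y hy q b d ⟨_, e1, e2⟩ => ⟨q, b, subset_rfl, hit_of_mem ⟨hy q b d, fun i s f1 f2 f3 =>
        let ⟨s', f4, f5, _, f6, f7⟩ := e1 i s f1 (e2.trans f2)
        f6 s' f4 f7 ⟨s, f3, f5⟩⟩⟩⟩
    refine lt_of_lt_of_le ?_ (Cardinal.lift_le.2 (P.ν_mono.monotone l))
    simpa using mul_lt_of_lt (P.lν0.trans (P.ν0_lt hk).le) hι (P.lν0.trans_lt (P.ν0_lt hk))

theorem exists_inputs [Finite C] (hk : k ≠ 0) (hT : ∀ c, P.TyOK (ty c)) :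
    ∃ μ < lc (P.ν k), ∀ c, (ty c).k < k → #(Iio P.ρ ×ˢ {z | z ⊆ Iio (ty c).θ} :
      Set (Ordinal.{0} × Set Ordinal.{0})) ≤ μ := by
  have hχ := P.inacc hk
  exact ⟨_, mk_biUnion_lt (aleph0_le_lift.2 hχ.aleph0_lt.le)
    (toFinite {c : ULift.{1} C | (ty c.down).k < k}) fun c hc =>
    mk_prod_lt hχ.aleph0_lt.le (mk_Iio_lt (Par.ρ_le.trans_lt (Cardinal.ord_lt_ord.2
      (P.ν_mono (Nat.pos_of_ne_zero hk))))) (mk_subsets hχ.isStrongLimit (mk_Iio_lt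
      ((hT _).1.trans_le (Cardinal.ord_le_ord.2 (P.ν_mono.monotone hc))))),
    fun c l => mk_le_mk_of_subset fun _ o => mem_biUnion (show (⟨c⟩ : ULift.{1} C) ∈ _ from l) o⟩

end

variable [Hyp] {η : Ordinal.{0}}

theorem pres (hη : KK η) {k : ℕ} (hk : 2 ≤ k) {s : Set (Ordinal.{0} × ℝ)} (hs : s.Finite)
    {ι : Type 1} (hι : #ι < lc (nu η k)) (B : ι → Ordinal.{0} → RO Cond)
    (hB : ∀ i a, ∀ π ∈ Fix s, sg π (B i a) = B i a) (p : Cond)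
    (h1 : ∀ i a a', a ≠ a' → ∀ u ≤ p, u ∈ (B i a).s → u ∉ (B i a').s)
    (h2 : ∀ a < (nu η k).ord, ∀ u ≤ p, ∃ t ≤ u, ∃ i, t ∈ (B i a).s) : False := by
  have k0 : k ≠ 0 := by omega
  have h3 : ∀ β, ℵ₀ ≤ lc (base β) := fun β => aleph0_le_lift.2 (aleph0_le_base β)
  have h4 : lc (nu η k) < lc (base (η + 1)) := Cardinal.lift_lt.2 (nu_lt_base (lt_add_one η) k)
  obtain ⟨t, a1, a2⟩ := exists_add p (hs.insert (η, 0))
  obtain ⟨q, b1, b2, b3⟩ := red t (β := 0) (zero_le.trans_lt (lt_add_one η)) hη.succ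
    (fun x : ι × Iio (nu η k).ord => B x.1 x.2) (by
    simpa using mul_lt_of_lt (h3 _) (hι.trans h4) ((mk_Iio_ord _).trans_lt h4))
  have o := q.ok η
  have n0 : (q.b η).sh.n ≠ 0 := (co_mono b1 (a2 _ (Or.inl rfl) hη)).choose.pos.ne'
  have hst : Stage ((par η).ν k).ord := by
    obtain ⟨k, rfl⟩ := Nat.exists_eq_succ_of_ne_zero k0
    exact (par η).ν_st k
  rw [← par_ν hη] at hι
  have hχ := (par η).inacc k0
  have h0 := aleph0_le_lift.2 hχ.aleph0_lt.le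
  let A : ι × Low η → Hist (Fin (q.b η).sh.n) → Ordinal.{0} → Set At → Prop := fun x h a s =>
    (LB η x.2.1 q ∧ ∀ d, Cons1 x.2.1.b η _ h d) ∧ x.2.1.q ∪ res (par η).Ω q.q ⊆ s ∧
      ∃ g, (h, g) ∈ DD (B x.1 a) q x.2 η (q.b η).sh ∩ (q.b η).T ∧ g.1 ⊆ s
  have hm : ∀ x h a s, A x h a s → ∀ s' ∈ PV (par η).Ω, s ⊆ s' → A x h a s' :=
    fun x h a s ⟨c1, c2, g, c3, c4⟩ s' _ e => ⟨c1, c2.trans e, g, c3, c4.trans e⟩
  have h5 : #((ι × Low η) × ULift.{1} ℕ) < lc ((par η).ν k) := by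
    simpa using mul_lt_of_lt h0 (mul_lt_of_lt h0 hι (mk_low hη hst
      (par_ν hη ▸ nu_strict η (Nat.pos_of_ne_zero k0)))) (aleph0_lt_lift.2 hχ.aleph0_lt)
  obtain ⟨μ0, m1, m2⟩ := exists_inputs k0 o.ty
  obtain ⟨μ, c, m3, m4, hg⟩ := exists_gd hst (Par.lt_Ω k).le (max_lt (max_lt m1 h5)
    (Cardinal.lift_lt.2 ((par η).ν_mono hk)))
  have hA : ∀ x h, Few (par η).Ω μ (A x h) := by
    refine fun x h s0 e0 => not_lt.1 fun hc => ?_
    obtain ⟨s', e1, -, e2⟩ := hg.pigeon (J := PUnit) (N := fun _ => A x h)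
      (mk_le_aleph0.trans hg.2.2.1) e0 (by simpa only [exists_const] using hc)
    choose k k1 k2 k3 using fun a : {a | ∃ k ∈ PV (par η).Ω, A x h a k ∧ Sle s' k} => a.2
    choose g g1 g2 using fun a => (k2 a).2.2
    obtain ⟨a, a', c1, c2⟩ := Par.Q_cc (f := h.len) (((le_max_right _ _).trans m3).trans e2.le)
      (fun a => (g a).2) fun a => Par.QL_sle (g := (k a, (g a).2))
        (Par.QL_up' (o.cl.1 _ (g1 a).2).1.2 (k1 a) (g2 a)) e1 (k3 a)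
    have c3 := ((k3 a').mono subset_union_left).union_mem ((k3 a).union_mem e1 (k1 a)) (k1 a')
    have c4 := Par.QL_up' c2 c3 (subset_union_left.trans subset_union_left)
    have c5 : k a ⊆ s' ∪ k a ∪ k a' := subset_union_right.trans subset_union_left
    have c6 := (k2 a).2.1.trans c5
    have c7 := q.amal hη c3 (subset_union_right.trans c6)
    obtain ⟨z, z0, z3, z1, z2⟩ := exists_mix' (k2 a).1.1 c7 subset_union_right fun ζ _ =>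
      (x.2.1.sub ζ).trans ((subset_union_left.trans c6).trans subset_union_left)
    have hD := fun a => closed_DD (b := B x.1 a) (q := q) (r := x.2) o.toSOK
    have l1 : g a ≤ (s' ∪ k a ∪ k a', (g a).2 ∪ (g a').2) := ⟨(g2 a).trans c5, subset_union_left⟩
    obtain ⟨u, d1, -, ⟨T, d2, d3⟩, -⟩ := Cond.shrink' (z2 η le_rfl) n0 ((hD a).inter o.phi (hD a'))
      (σ' := (h, s' ∪ k a ∪ k a', (g a).2 ∪ (g a').2)) ⟨((hD a).1 _ (g1 a).1).2 _ c4 l1,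
        ((hD a').1 _ (g1 a').1).2 _ c4 ⟨(g2 a').trans subset_union_right, subset_union_right⟩⟩
      ((o.cl.1 _ (g1 a).2).2 _ c4 l1) (fun d => ((k2 a).1.2 d).mono (LB.of_eq z1)) c7 z3.subset
      subset_union_left
    have d4 := d1.trans z0
    have d5 := (LB.of_le (β := η) d1).trans (LB.of_eq z1)
    exact h1 x.1 a a' (fun e => c1 (Subtype.ext e)) u (d4.trans (b1.trans a1))
      (ss_DD n0 u d5 (d3 ▸ BLe.of_sub o.toSOK fun _ l => (d2 l).1) (Hg.of_le d4))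
      (ss_DD n0 u d5 (d3 ▸ BLe.of_sub o.toSOK fun _ l => (d2 l).2) (Hg.of_le d4))
  have h6 := (Few.union hg (J := (ι × Low η) × ULift.{1} ℕ)
    (((le_max_right _ _).trans (le_max_left _ _)).trans m3) (fun x => cap_mono k0 (hm x.1) _ _)
    (fun x => mk_cap k0 hg m4 (fun c l => (m2 c l).trans (((le_max_left _ _).trans
      (le_max_left _ _)).trans m3)) (hm x.1) (hA x.1) x.2.down (q.b η).rt.1) _
    (PP.res q.pp _)).trans_lt m4
  obtain ⟨a, c1, c2⟩ := not_subset.1 fun e : Iio (nu η k).ord ⊆ _ =>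
    h6.not_ge (((congrArg (fun f => lc (f k)) (par_ν hη)).trans (mk_Iio_ord _).symm).trans_le
      (mk_le_mk_of_subset e))
  simp only [Dn, mem_setOf_eq, not_forall, not_exists, not_and] at c2
  obtain ⟨s1, c3, c4, c5⟩ := c2
  have c6 := o.cl.1.up (q.eff η) c3 c4
  obtain ⟨u, d1, -, ⟨T, d2, d3⟩, d4⟩ := Cond.shrink (p := q) rfl n0 (closed_cap o.phi k0
    (lt_of_le_of_lt (mk_le_of_injective (f := fun x => (x, ⟨0⟩)) fun _ _ e => congrArg Prod.fst e)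
      h5) A a) ⟨(o.cl.1 _ c6).1, fun x s e f => c5 s e f x⟩ c6 (q.cons η) c4
  obtain ⟨v, e1, i, e2⟩ := h2 a c1 u (d1.trans (b1.trans a1))
  obtain ⟨z0, f0, -, f2, -, f3⟩ := flat_mem (β := 0) hs (fun π l _ => hB i a π l)
    (fun x l n => co_mono (d1.trans b1) (a2 x (Or.inr l) n)) e1 e2
  obtain ⟨z, f6, f4, f7⟩ := b3 (i, ⟨a, c1⟩) z0 (f0.trans d1) ((Ex.of_upd rfl d3 d4).trans f2) f3
  have f1 := f6.trans f0
  obtain ⟨r, r2, r0, r1⟩ := exists_low z η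
  obtain ⟨T', σ, f5⟩ := (z.b η).ex (f4 η zero_le)
  have f8 := Cond.effE f5
  exact (d2 (BLe.sub o.toSOK (f5 ▸ d3 ▸ f1.2 η) f8)).2 ((i, ⟨r, r2⟩), ⟨0⟩) _
    (PP.res z.pp _) subset_rfl ⟨⟨(LB.of_eq r1).trans (LB.of_le (f1.trans d1)),
      fun d => (Cond.consE f5 d).mono (LB.of_eq r1)⟩, union_subset (r0.le.trans (res_mono_left
        (par_b hη ▸ (par η).b_le))) (res_mono (f1.trans d1).1), (eff η z.q σ).2,
      ⟨(root_mem f5 fun v k1 k2 k3 => f7 v (Lw.succ hη k2 (k1.trans (LB.of_eq r1)) k3) :),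
      BLe.sub o.toSOK (f5 ▸ (f1.trans d1).2 η) f8⟩, subset_rfl⟩

end Pool.Agent.SC7292

/-!
The generic cofinal sequences and the generic arrays of sets.
-/

namespace Pool.Agent.SC7292

open Cardinal Ordinal Set Function Pool.Agent.MP_7b2404_lc Pool.Agent.Lib.ForcingU

namespace Par

variable {C : Type} [LinearOrder C] {P : Par} {ty : C → Ty} {Φ : Phi C} {σ τ : State C} {c c' : C}
  {a β : Ordinal.{0}} {x : Set Ordinal.{0}} {w : List Ordinal.{0}}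

theorem Succ.col (h : P.Succ ty σ c a x τ) (hc : (ty c).k = 0) (hx : β ∈ x) {s : Set At}
    (k : (s, (c, [], .leaf β), w) ∈ σ.2.2) :
    (s, (c, [], .leaf β), P.cd (σ.1.len c) x β :: w) ∈ τ.2.2 := by
  obtain ⟨g, -, e, rfl, -⟩ := h
  rw [mv_base hc]
  exact ⟨_, e.2 k, Prod.ext rfl (if_pos ⟨rfl, hx⟩)⟩

theorem Succ.col' (h : P.Succ ty σ c' a x τ) {s : Set At} (k : (s, (c, [], .leaf β), w) ∈ σ.2.2) :
    (s, (c, [], .leaf β), w) ∈ τ.2.2 ∨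
      c = c' ∧ (s, (c, [], .leaf β), P.cd (σ.1.len c) x β :: w) ∈ τ.2.2 := by
  by_cases o : (ty c').k = 0 ∧ c = c' ∧ β ∈ x
  · obtain ⟨a1, rfl, a2⟩ := o
    exact Or.inr ⟨rfl, h.col a1 a2 k⟩
  obtain ⟨g, -, e, rfl, -⟩ := h
  by_cases l : (ty c').k = 0
  · rw [mv_base l]
    exact Or.inl ⟨_, e.2 k, Prod.ext rfl (if_neg fun n => o ⟨l, congrArg Prod.fst n.1, n.2⟩)⟩
  · rw [mv_upper l]
    exact Or.inl ⟨_, e.2 k, rfl⟩

variable (c β) in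
/-- The column `β` of `c` has a value satisfying `p`. -/
def _root_.Pool.Agent.SC7292.Col (σ : State C) (p : List Ordinal.{0} → Prop) : Prop :=
  ∃ s w, (s, (c, [], .leaf β), w) ∈ σ.2.2 ∧ s ⊆ σ.2.1 ∧ p w

theorem closed_col (hΦ : P.PhiOK ty Φ) (c : C) (β : Ordinal.{0}) (p : ℕ → List Ordinal.{0} → Prop)
    (h : ∀ n w, p n w → p (n + 1) w ∧ ∀ x, p (n + 1) (P.cd n x β :: w)) :
    P.Closed ty Φ {σ | P.Val ty σ ∧ Col c β σ (p (σ.1.len c))} := by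
  refine closed_of_inv hΦ _ (fun σ g ⟨s, w, a, b, d⟩ e => ⟨s, w, e.2 a, b.trans e.1, d⟩)
    fun σ c' a x τ _ ⟨s, w, a1, a0, a2⟩ _ k => ?_
  rcases k.col' a1 with l | ⟨rfl, l⟩
  · refine ⟨s, w, l, a0.trans k.sub, ?_⟩
    rw [k.hist]
    rcases eq_or_ne c c' with rfl | e
    · simpa [Hist.step] using (h _ _ a2).1
    · simpa [Hist.step, e] using a2
  · exact ⟨s, _, l, a0.trans k.sub, by simpa [k.hist, Hist.step] using (h _ _ a2).2 x⟩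

theorem exists_col (h : P.Val ty σ) (hc : (ty c).k = 0) (hβ : β < (ty c).l) :
    ∃ g ∈ P.Q ty σ.1.len, σ.2 ≤ g ∧ Col c β (σ.1, g) fun _ => True := by
  obtain ⟨g, a1, a2, a3⟩ := exists_full' h.2 hc (x := {β})
    ((toFinite _).lt_aleph0.le.trans P.lν0)
  obtain ⟨s, b1, b2, z, b3, b4, b5⟩ := a3 β rfl hβ _ (PV.res a1.1 _) le_rfl
  exact ⟨(s ∪ g.1, g.2), QL_up' a1 (PV.amal b1 a1.1 b2 P.b_le) subset_union_right,
    a2.trans ⟨subset_union_right, subset_rfl⟩, z.1, z.2.2, b4 ▸ b3, b5.trans subset_union_left,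
    trivial⟩

theorem col_unique (h : P.Val ty σ) {p p' : List Ordinal.{0} → Prop} (a : Col c β σ p)
    (b : Col c β σ p') : ∃ w, p w ∧ p' w :=
  let ⟨_, w, a1, a2, a3⟩ := a
  let ⟨_, w', b1, b2, b3⟩ := b
  ⟨w, a3, (show w = w' from h.2.2.2.1 _ a1 _ b1 rfl _ (PV.res h.2.1 _) subset_rfl
    (PV.sub_res (h.2.2.1 _ a1).1 a2) (PV.sub_res (h.2.2.1 _ b1).1 b2)) ▸ b3⟩

theorem exists_tag (P : Par) (w : List Ordinal.{0}) :
    ∃ N, ∀ ξ ∈ w, ∀ m, N ≤ m → ∀ x γ, ξ ≠ P.cd m x γ := by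
  induction w with
  | nil => exact ⟨0, by simp⟩
  | cons ξ w ih =>
    obtain ⟨N, hN⟩ := ih
    by_cases k : ∃ m x γ, ξ = P.cd m x γ
    · obtain ⟨n, y, δ, rfl⟩ := k
      exact ⟨max N (n + 1), List.forall_mem_cons.2 ⟨fun m l x γ e => by
        have := P.cd_tag e
        omega, fun ζ l m o => hN ζ l m ((le_max_left _ _).trans o)⟩⟩
    · exact ⟨N, List.forall_mem_cons.2 ⟨fun m _ x γ e => k ⟨m, x, γ, e⟩, hN⟩⟩

end Par

theorem hull_two {P : Type 1} [Preorder P] {A A' : Set P} (h : IsLowerSet A) (h' : IsLowerSet A')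
    {u : P} (a : u ∈ (RO.hull A).s) (b : u ∈ (RO.hull A').s) : ∃ t ≤ u, t ∈ A ∧ t ∈ A' :=
  let ⟨r, a1, _, a2, a3⟩ := a u le_rfl
  let ⟨t, b1, _, b2, b3⟩ := b r a1
  ⟨t, b1.trans a1, h (b1.trans a3) a2, h' b3 b2⟩

variable [Hyp] {η : Ordinal.{0}} {s : Set (Ordinal.{0} × ℝ)}

theorem hull_fix {A : Set Cond} (h : ∀ π ∈ Fix s, ∀ p ∈ A, π • p ∈ A) :
    ∀ π ∈ Fix s, sg π (RO.hull A) = RO.hull A := by
  have key : ∀ π ∈ Fix s, ∀ u ∈ (RO.hull A).s, π • u ∈ (RO.hull A).s := fun π k u a v c => by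
    obtain ⟨r, c1, z, c2, c3⟩ := a (π⁻¹ • v) (by simpa using smul_mono π⁻¹ _ _ c)
    exact ⟨π • r, by simpa using smul_mono π _ _ c1, π • z, h π k z c2, smul_mono π _ _ c3⟩
  exact fun π k => RO.ext (Set.ext fun u => ⟨fun a => by simpa using key π k _ a,
    key π⁻¹ (inv_mem k) u⟩)

/-- Boolean values of a strictly increasing cofinal map from a smaller ordinal into `δ`. -/
def Sng (δ : Ordinal.{0}) : Prop := ∀ p : Cond, ∃ q ≤ p, ∃ a < δ,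
  ∃ s : Set (Ordinal.{0} × ℝ), s.Finite ∧ ∃ b : Ordinal.{0} → Ordinal.{0} → RO Cond,
    (∀ i ζ, ∀ π ∈ Fix s, sg π (b i ζ) = b i ζ) ∧ (∃ β, KK β ∧ ∀ i ζ, Lo β (b i ζ)) ∧
    (∀ i j ζ ζ' u, u ∈ (b i ζ).s → u ∈ (b j ζ').s → (i = j → ζ = ζ') ∧ (i < j → ζ < ζ')) ∧
    (∀ i < a, ∀ u ≤ q, ∃ t ≤ u, ∃ ζ < δ, t ∈ (b i ζ).s) ∧
    ∀ ξ < δ, ∀ u ≤ q, ∃ t ≤ u, ∃ i < a, ∃ ζ < δ, ξ ≤ ζ ∧ t ∈ (b i ζ).s

theorem sng_of_cof {δ : Ordinal.{0}} (h : δ.cof.ord < δ) : Sng δ := by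
  obtain ⟨f, hf⟩ := exists_isFundamentalSeq (o := δ) rfl
  refine fun p => ⟨p, le_rfl, _, h, ∅, finite_empty, fun i ζ => RO.hull {_p | ∃ k, (f ⟨i, k⟩).1 = ζ},
    fun i ζ => hull_fix fun _ _ _ a => a, ⟨0, KK.zero, fun _ _ => lo_hull fun _ a _ _ => a⟩,
    fun i j ζ ζ' u a b => ?_, fun i k u _ =>
      ⟨u, le_rfl, _, (f ⟨i, k⟩).2, RO.mem_hull ⟨k, rfl⟩ le_rfl⟩, fun ξ k u _ => ?_⟩
  · obtain ⟨t, -, ⟨k, rfl⟩, l, rfl⟩ := hull_two (fun _ _ _ a => a) (fun _ _ _ a => a) a b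
    exact ⟨fun e => by simp only [e], fun e => hf.strictMono e⟩
  · obtain ⟨_, ⟨i, rfl⟩, b⟩ := hf.isCofinal_range ⟨ξ, k⟩
    exact ⟨u, le_rfl, i, i.2, _, (f i).2, b, RO.mem_hull ⟨i.2, rfl⟩ le_rfl⟩

theorem sm_lev {c : Cardinal.{0}} (h : Sm (lc c)) (h0 : ℵ₀ ≤ c) :
    ∃ η, KK η ∧ ∃ k, nu η k ≤ c ∧ c < nu η (k + 1) := by
  obtain ⟨β, a, b⟩ := h
  obtain ⟨η, d, e⟩ := exists_lev h0 ((Cardinal.lift_lt.1 b).trans (nu_lt_base (lt_add_one β) 1))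
  exact ⟨η, a.mono (Order.lt_add_one_iff.1 d), e⟩

theorem sng_of_reg {δ : Cardinal.{0}} (hr : δ.IsRegular) (h0 : ℵ₀ < δ) (h : Sm (lc δ)) :
    Sng δ.ord := by
  obtain ⟨η, hη, k, h1, h2⟩ := sm_lev h h0.le
  intro p
  obtain ⟨q, a1, c, a2⟩ := exists_ty p hη (ty := ⟨k, δ.ord, 0⟩) ⟨par_ν hη ▸ Cardinal.ord_lt_ord.2 h2,
    zero_le.trans_lt (Par.lt_Ω 0)⟩
  let A : Ordinal.{0} → Ordinal.{0} → Set Cond := fun i ζ => {u | ∃ n : ℕ, i = n ∧ ∃ d,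
    (u.b η).sh.e d = (q.b η).sh.e c ∧ n < (u.b η).rt.1.len d ∧
      ζ = sSup (⋃ m ∈ Iic n, (u.b η).rt.1.pt (d, m)) + n}
  have hL : ∀ i ζ, ∀ u ∈ A i ζ, ∀ v : Cond, BLe η (v.b η) (u.b η) → v ∈ A i ζ := by
    rintro i ζ u ⟨n, b0, d, b1, b2, b3⟩ v ⟨j, c1, c2⟩
    have := SLe.hext (u.ok η) (v.ok η) c2
    refine ⟨n, b0, j d, (c1.e d).trans b1, b2.trans_le (this.1 d).1, b3.trans ?_⟩
    rw [iUnion₂_congr fun m (l : m ∈ Iic n) => (this.2 (d, m) (lt_of_le_of_lt l b2)).2.symm]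
    rfl
  have hA : ∀ i ζ, IsLowerSet (A i ζ) := fun i ζ u v e k => hL i ζ u k v (e.2 η)
  have hb : ∀ (u : Cond) d n, BddAbove (⋃ m ∈ Iic n, (u.b η).rt.1.pt (d, m)) := fun u d n =>
    ⟨((u.b η).sh.ty d).θ, fun ξ l => let ⟨m, _, o⟩ := mem_iUnion₂.1 l; le_of_lt (mem_Iio.1
      (((u.ok η).val.1.2 (d, m)).2.1 o))⟩
  have hv : ∀ (u : Cond) d n, (u.b η).sh.ty d = ⟨k, δ.ord, 0⟩ →
      sSup (⋃ m ∈ Iic n, (u.b η).rt.1.pt (d, m)) + (n : ℕ) < δ.ord := fun u d n e => by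
    have := fun m => ((u.ok η).val.1.2 (d, m)).2
    simp only [e, par_ν hη] at this
    refine isPrincipal_add_ord h0.le (sSup_lt_reg hr ?_ (iUnion₂_subset fun m _ => (this m).1))
      ((natCast_lt_omega0 n).trans_le (omega0_le_ord.2 h0.le))
    rw [biUnion_eq_iUnion]
    refine lt_of_le_of_lt (mk_le_mk_of_subset (t := ⋃ m : ULift.{1} ℕ, (u.b η).rt.1.pt (d, m.down))
      (iUnion_subset fun m => subset_iUnion_of_subset ⟨m.1⟩ subset_rfl)) (mk_iUnion_lt hr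
      (by simpa using h0) _ fun m => (this _).2.trans_le (Cardinal.lift_le.2 h1))
  refine ⟨q, a1, ω, by simpa using Cardinal.ord_lt_ord.2 h0, {(η, (q.b η).sh.e c)},
    finite_singleton _, fun i ζ => RO.hull (A i ζ), fun i ζ => hull_fix
      fun π l u ⟨n, b0, d, b1, b2⟩ => ⟨n, b0, d, (congrArg (π η) b1).trans (l _ rfl), b2⟩,
    ⟨η + 1, hη.succ, fun i ζ => lo_hull fun u k v l => hL i ζ u k v (l.2 η (lt_add_one η))⟩,
    fun i j ζ ζ' u a b => ?_, fun i l u e => ?_, fun ξ l u e => ?_⟩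
  · obtain ⟨t, -, ⟨n, rfl, d, b1, -, rfl⟩, m, rfl, d', c1, -, rfl⟩ := hull_two (hA _ _) (hA _ _) a b
    obtain rfl := (t.b η).sh.e.injective (b1.trans c1.symm)
    refine ⟨fun e => by rw [Nat.cast_injective e], fun e => add_lt_add_of_le_of_lt
      (csSup_le_csSup' (hb t d m) (biUnion_subset_biUnion_left (Iic_subset_Iic.2 ?_))) e⟩
    exact (Nat.cast_lt.1 e).le
  · obtain ⟨n, rfl⟩ := lt_omega0.1 l
    obtain ⟨t, b1, -, -, b2⟩ := adv u (η + 1) (n + 1)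
    obtain ⟨j, c1, -⟩ := (b1.trans e).2 η
    exact ⟨t, b1, _, hv t (j c) n ((c1.ty c).trans a2), RO.mem_hull
      ⟨n, rfl, j c, c1.e c, b2 η (lt_add_one η) _, rfl⟩ le_rfl⟩
  · obtain ⟨j, c1, -⟩ := e.2 η
    have c2 := (c1.ty c).trans a2
    obtain ⟨t, b1, -, T, τ, b2, n, -, b3, b4⟩ := u.cover (j c) 0 (ξ := ξ) (c2 ▸ l)
    have b5 := hv t
    have b6 := hb t
    have b7 : ∀ ζ, t ∈ A n ζ → t ∈ (RO.hull (A n ζ)).s := fun ζ o => RO.mem_hull o le_rfl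
    simp only [A, mem_setOf_eq] at b7
    rw [b2] at b5 b6 b7
    exact ⟨t, b1, n, natCast_lt_omega0 n, _, b5 (j c) n c2, (le_csSup (b6 _ n)
      (mem_biUnion (mem_Iic.2 le_rfl) b4)).trans (le_add_right le_rfl),
      b7 _ ⟨n, rfl, j c, c1.e c, b3, rfl⟩⟩

/-- No symmetric map sends `μ` injectively into a smaller set. -/
def Pres (μ : Cardinal.{0}) : Prop := ∀ s : Set (Ordinal.{0} × ℝ), s.Finite → ∀ ι : Type 1,
  #ι < lc μ → ∀ B : ι → Ordinal.{0} → RO Cond, (∀ i a, ∀ π ∈ Fix s, sg π (B i a) = B i a) →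
  ∀ p : Cond, (∀ i a a', a ≠ a' → ∀ u ≤ p, u ∈ (B i a).s → u ∉ (B i a').s) →
  (∀ a < μ.ord, ∀ u ≤ p, ∃ t ≤ u, ∃ i, t ∈ (B i a).s) → False

theorem arr (hη : KK η) {l : Ordinal.{0}} (hl : l < (par η).Ω) (p : Cond) :
    ∃ q ≤ p, ∃ s : Set (Ordinal.{0} × ℝ), s.Finite ∧ ∃ b : Ordinal.{0} → Ordinal.{0} → RO Cond,
      (∀ β ξ, ∀ π ∈ Fix s, sg π (b β ξ) = b β ξ) ∧ (∀ β ξ, Lo (η + 1) (b β ξ)) ∧
      ∀ β < l, ∀ β' < l, β ≠ β' → ∀ u ≤ q, ∃ t ≤ u,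
        ∃ ξ < (base η).ord, t ∈ (b β ξ).s ∧ t ∈ (b β' ξ)ᶜ.s := by
  obtain ⟨q, a1, c, a2⟩ := exists_ty p hη (ty := ⟨0, 0, l⟩) ⟨((par η).ν_in 0).isRegular.ord_pos, hl⟩
  let A : Ordinal.{0} → Ordinal.{0} → Set Cond := fun β ξ => {u | ∃ d,
    (u.b η).sh.e d = (q.b η).sh.e c ∧ ∀ σ ∈ (u.b η).T, Col d β σ (ξ ∈ ·)}
  have hL : ∀ β ξ, ∀ u ∈ A β ξ, ∀ v : Cond, BLe η (v.b η) (u.b η) → v ∈ A β ξ := by
    rintro β ξ u ⟨d, b1, b2⟩ v ⟨j, c1, c2⟩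
    exact ⟨j d, (c1.e d).trans b1, fun σ k => b2 _ (c2 σ k)⟩
  have hA : ∀ β ξ, IsLowerSet (A β ξ) := fun β ξ u v e k => hL β ξ u k v (e.2 η)
  refine ⟨q, a1, {(η, (q.b η).sh.e c)}, finite_singleton _, fun β ξ => RO.hull (A β ξ),
    fun β ξ => hull_fix fun π k u ⟨d, b1, b2⟩ => ⟨d, (congrArg (π η) b1).trans (k _ rfl), b2⟩,
    fun β ξ => lo_hull fun u k v l => hL β ξ u k v (l.2 η (lt_add_one η)),
    fun β h1 β' h2 hne u e => ?_⟩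
  obtain ⟨j, c1, -⟩ := e.2 η
  have c2 := (c1.ty c).trans a2
  have c3 := c1.e c
  generalize j c = d at c2 c3
  have c4 : ((u.b η).sh.ty d).k = 0 := by rw [c2]
  have o := u.ok η
  have o1 := o.cl.1 _ (u.eff η)
  obtain ⟨g0, g3, g4, s0, v, hv⟩ := Par.exists_col (β := β) o1.1 c4 (c2 ▸ h1)
  obtain ⟨g, g1, g2, s', v', hv'⟩ := Par.exists_col (β := β') (o1.1.ext g3) c4 (c2 ▸ h2)
  obtain ⟨N, hN⟩ := (par η).exists_tag v'
  obtain ⟨u1, d1, -, ⟨T1, d2, d3⟩, -⟩ := Cond.shrink (p := u) rfl d.pos.ne'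
    ((Par.closed_col o.phi d β (fun _ _ => True) (by simp)).inter o.phi (Par.closed_col o.phi d β'
      (fun n w => ∀ ξ ∈ w, ∀ m, N ≤ m → n ≤ m → ∀ x γ, ξ ≠ (par η).cd m x γ) fun n w k =>
      ⟨fun ξ a m b c => k ξ a m b (by omega), fun x => List.forall_mem_cons.2
        ⟨fun m _ c y γ f => by have := (par η).cd_tag f; omega,
          fun ξ a m b c => k ξ a m b (by omega)⟩⟩)) (σ' := ((u.b η).rt.1, g))
    ⟨⟨o.val.ext g1, s0, v, g2.2 hv.1, hv.2.1.trans g2.1, trivial⟩, o.val.ext g1, s', v', hv'.1,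
      hv'.2.1, fun ξ a m b _ => hN ξ a m b⟩
    (o1.2 g g1 (g4.trans g2)) (u.cons η) (g4.trans g2).1
  obtain ⟨u2, e1, -, T2, σ, τ, a, x, e2, e3, e4, e5, e6⟩ := Cond.move d3 d N (toFinite {β, β'})
    (by rintro _ (rfl | rfl); exacts [Or.inr ⟨c4, c2 ▸ h1⟩, Or.inr ⟨c4, c2 ▸ h2⟩])
  obtain ⟨⟨-, s1, w, f1, f0, -⟩, -, s2, w', f2, f4, f3⟩ := d2 e3
  have o2 := Cond.okE e2
  obtain ⟨t, i1, -, ⟨T3, i2, i3⟩, -⟩ := Cond.shrink' e2 d.pos.ne' ((Par.closed_col o.phi d β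
    (fun _ w => (par η).cd (σ.1.len d) x β ∈ w) fun _ _ k => ⟨k, fun _ => List.mem_cons_of_mem _ k⟩).inter
      o.phi (Par.closed_col o.phi d β' (fun n w => σ.1.len d < n ∧ (par η).cd (σ.1.len d) x β ∉ w)
      fun n w k => ⟨⟨by omega, k.2⟩, fun y => ⟨by omega, fun f => (List.mem_cons.1 f).elim
        (fun f => k.1.ne ((par η).cd_tag f)) k.2⟩⟩))
    ⟨⟨o2.val, _, _, e5.col c4 (e6 (Or.inl rfl)) f1, f0.trans e5.sub, List.mem_cons_self⟩, o2.val,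
      _, _, e5.col c4 (e6 (Or.inr rfl)) f2, f4.trans e5.sub, by simp [e5.hist, Hist.step], fun f =>
      (List.mem_cons.1 f).elim (fun f => hne ((par η).cd_inj (e5.choose_spec.2.2.2.2 c4).2
        (e6 (Or.inl rfl)) (e6 (Or.inr rfl)) f)) fun f => f3 _ f _ e4 le_rfl _ _ rfl⟩
    o2.rt (Cond.consE e2) u2.pp subset_rfl (Cond.subE e2)
  refine ⟨t, i1.trans (e1.trans d1), _, (congrFun (par_ν hη) 0) ▸ (par η).cd_lt (σ.1.len d) x β,
    RO.mem_hull (a := t) ?_ le_rfl, fun z k l => ?_⟩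
  · change ∃ d, _
    rw [i3]
    exact ⟨d, c3, fun σ k => (i2 k).1.2⟩
  · obtain ⟨y, y1, -, d', y2, y3⟩ := hull_two (hA _ _) (hA _ _) l l
    obtain ⟨i, y4, y5⟩ := i3 ▸ (y1.trans k).2 η
    obtain rfl : i d = d' := (y.b η).sh.e.injective ((y4.e d).trans (c3.trans y2.symm))
    obtain ⟨w1, z1, z2⟩ := Par.col_unique (y.ok η).val (y3 _ (y.ok η).rt)
      (i2 (y5 _ (y.ok η).rt)).2.2
    exact z2.2 z1

end Pool.Agent.SC7292
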