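import Pool.Agent.SC7292.Defs
import Pool.Agent.MP_7b2404_lc.Small
import Pool.Agent.SC7292.Gen

/-!
Absoluteness for transitive classes closed under pairs; automorphisms acting on names.
-/

namespace Pool.Agent.SC7292

open Pool.Agent.Lib.Forcing Pool.Agent.Lib.ForcingU Pool.Agent.MP_7b2404_lc Function

section

universe u

variable {M : Type u} (E : M → M → Prop) (W : M → Prop)

/-- Injections lying in `W`. -/
def LeW (P Q : M → Prop) : Prop := ∃ f, W f ∧ (∀ x, P x → ∃ y, Q y ∧ Ap E f x y) ∧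
  ∀ x x' y y', Ap E f x y → Ap E f x' y' → (x = x' ↔ y = y')

/-- Cardinals of `W`. -/
def CardW (k : M) : Prop := IsOrd E k ∧ ∀ y, E y k → ¬ LeW E W (fun x => E x k) fun x => E x y

/-- Successor cardinals of `W`. -/
def NxtW (k l : M) : Prop := CardW E W l ∧ E k l ∧ ∀ c, W c → CardW E W c → E k c → Sub E l c

/-- Singular in `W`. -/
def SingW (k : M) : Prop := ∃ a f, W f ∧ E a k ∧ Fn E a (fun _ y => E y k) f ∧
  (∀ x x' y y', Ap E f x y → Ap E f x' y' → E x x' → E y y') ∧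
  ∀ z, E z k → ∃ x y, Ap E f x y ∧ Sub E z y

/-- Transitive classes closed under pairs. -/
structure Tr : Prop where
  zfc : ZFC E
  trans : ∀ {x y}, W y → E x y → W x
  pair : ∀ {x y p}, W x → W y → (∀ z, E z p ↔ z = x ∨ z = y) → W p
  inf : ∃ w, W w ∧ Om E w

namespace Tr

variable {E W} (h : Tr E W)
include h

theorem all_mem {y : {x // W x}} {Q : M → Prop} :
    (∀ z : {x // W x}, E z.1 y.1 → Q z.1) ↔ ∀ z, E z y.1 → Q z :=
  ⟨fun H z hz => H ⟨z, h.trans y.2 hz⟩ hz, fun H z => H z.1⟩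

theorem ex_mem {y : {x // W x}} {Q : M → Prop} :
    (∃ z : {x // W x}, E z.1 y.1 ∧ Q z.1) ↔ ∃ z, E z y.1 ∧ Q z :=
  ⟨fun ⟨z, H⟩ => ⟨z.1, H⟩, fun ⟨z, H⟩ => ⟨⟨z, h.trans y.2 H.1⟩, H⟩⟩

theorem all_iff {y : {x // W x}} {Q : M → Prop} (hQ : ∀ z, Q z → W z) :
    (∀ z : {x // W x}, E z.1 y.1 ↔ Q z.1) ↔ ∀ z, E z y.1 ↔ Q z :=
  ⟨fun H z => ⟨fun hz => (H ⟨z, h.trans y.2 hz⟩).1 hz, fun hz => (H ⟨z, hQ z hz⟩).2 hz⟩,
    fun H z => H z.1⟩

theorem sub_iff {x y : {x // W x}} : Sub (EW E W) x y ↔ Sub E x.1 y.1 :=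
  h.all_mem (Q := fun z => E z y.1)

theorem emp_iff {x : {x // W x}} : Emp (EW E W) x ↔ Emp E x.1 :=
  h.all_mem (Q := fun _ => False)

theorem suc_iff {x y : {x // W x}} : Suc (EW E W) x y ↔ Suc E x.1 y.1 := by
  simp only [Suc, EW, Subtype.ext_iff]
  exact h.all_iff (Q := fun z => E z x.1 ∨ z = x.1)
    fun z hz => hz.elim (h.trans x.2) fun e => e ▸ x.2

theorem ind_iff {w : {x // W x}} : Ind (EW E W) w ↔ Ind E w.1 := by
  simp only [Ind, h.emp_iff, h.suc_iff, EW]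
  refine and_congr ?_ ?_
  · simp only [and_comm (a := Emp E _)]
    exact h.ex_mem (Q := Emp E)
  · simp only [and_comm (a := Suc E _ _)]
    rw [← h.all_mem (Q := fun x => ∃ y, E y w.1 ∧ Suc E x y)]
    exact forall₂_congr fun x _ => h.ex_mem (Q := Suc E x.1)

theorem om_iff {w : {x // W x}} (H : Om (EW E W) w) : Om E w.1 := by
  obtain ⟨w', hw', hom⟩ := h.inf
  have e : w.1 = w' := h.zfc.ext _ _ fun z =>
    ⟨fun hz => H.2 ⟨w', hw'⟩ (h.ind_iff.2 hom.1) ⟨z, h.trans w.2 hz⟩ hz,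
      hom.2 _ (h.ind_iff.1 H.1) z⟩
  exact e ▸ hom

theorem pr_iff {x y p : {x // W x}} : Pr (EW E W) x y p ↔ Pr E x.1 y.1 p.1 := by
  have h1 : ∀ z : {x // W x}, (∀ t : {x // W x}, EW E W t z ↔ t = x) ↔ ∀ t, E t z.1 ↔ t = x.1 := by
    intro z
    simp only [EW, Subtype.ext_iff]
    exact h.all_iff (Q := fun t => t = x.1) fun z e => e ▸ x.2
  have h2 : ∀ z : {x // W x}, (∀ t : {x // W x}, EW E W t z ↔ t = x ∨ t = y) ↔
      ∀ t, E t z.1 ↔ t = x.1 ∨ t = y.1 := by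
    intro z
    simp only [EW, Subtype.ext_iff]
    exact h.all_iff (Q := fun t => t = x.1 ∨ t = y.1)
      fun z e => e.elim (fun e => e ▸ x.2) fun e => e ▸ y.2
  simp only [Pr, h1, h2]
  refine h.all_iff (Q := fun z => (∀ t, E t z ↔ t = x.1) ∨ ∀ t, E t z ↔ t = x.1 ∨ t = y.1) ?_
  rintro z (hz | hz)
  · exact h.pair x.2 x.2 fun t => by simp [hz t]
  · exact h.pair x.2 y.2 hz

theorem pr_W {x y p : M} (hp : Pr E x y p) (hW : W p) : W x ∧ W y := by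
  obtain ⟨d, hd⟩ := h.zfc.pair x y
  have := h.trans hW ((hp d).2 (Or.inr hd))
  exact ⟨h.trans this ((hd x).2 (Or.inl rfl)), h.trans this ((hd y).2 (Or.inr rfl))⟩

theorem ap_iff {f x y : {x // W x}} : Ap (EW E W) f x y ↔ Ap E f.1 x.1 y.1 := by
  simp only [Ap, h.pr_iff, EW, and_comm (a := Pr E _ _ _)]
  exact h.ex_mem (Q := Pr E x.1 y.1)

theorem ap_W {f x y : M} (hp : Ap E f x y) (hW : W f) : W x ∧ W y :=
  let ⟨_, h1, h2⟩ := hp; h.pr_W h1 (h.trans hW h2)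

theorem le_iff {Q : M → Prop} {X : {x // W x}} :
    Le (EW E W) (fun x => E x.1 X.1) (fun y => Q y.1) ↔ LeW E W (fun x => E x X.1) Q := by
  constructor
  · rintro ⟨f, h1, h2⟩
    refine ⟨f.1, f.2, fun x hx => ?_, fun x x' y y' a b => ?_⟩
    · obtain ⟨y, hy, hf⟩ := h1 ⟨x, h.trans X.2 hx⟩ hx
      exact ⟨y.1, hy, h.ap_iff.1 hf⟩
    · have := h2 ⟨x, (h.ap_W a f.2).1⟩ ⟨x', (h.ap_W b f.2).1⟩ ⟨y, (h.ap_W a f.2).2⟩
        ⟨y', (h.ap_W b f.2).2⟩ (h.ap_iff.2 a) (h.ap_iff.2 b)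
      simpa [Subtype.ext_iff] using this
  · rintro ⟨f, hW, h1, h2⟩
    refine ⟨⟨f, hW⟩, fun x hx => ?_, fun x x' y y' a b => ?_⟩
    · obtain ⟨y, hy, hf⟩ := h1 x.1 hx
      exact ⟨⟨y, (h.ap_W hf hW).2⟩, hy, h.ap_iff.2 hf⟩
    · simpa [Subtype.ext_iff] using h2 _ _ _ _ (h.ap_iff.1 a) (h.ap_iff.1 b)

theorem trans_iff {x : {x // W x}} : Trans (EW E W) x ↔ Trans E x.1 := by
  simp only [MP_7b2404_lc.Trans, h.sub_iff]
  exact h.all_mem (Q := fun y => Sub E y x.1)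

theorem ord_iff {x : {x // W x}} : IsOrd (EW E W) x ↔ IsOrd E x.1 := by
  simp only [IsOrd, h.trans_iff]
  exact and_congr Iff.rfl (h.all_mem (Q := MP_7b2404_lc.Trans E))

theorem card_iff {x : {x // W x}} : Card (EW E W) x ↔ CardW E W x.1 :=
  and_congr h.ord_iff ((forall₂_congr fun (y : {x // W x}) _ =>
    not_congr (h.le_iff (Q := fun z => E z y.1))).trans (h.all_mem (Q := fun y => ¬ LeW E W (fun z => E z x.1) fun z => E z y)))

theorem nxt {k l : {x // W x}} (H : NxtW E W k.1 l.1) : Nxt (EW E W) k l :=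
  ⟨h.card_iff.2 H.1, H.2.1, fun c a b => h.sub_iff.2 (H.2.2 c.1 c.2 (h.card_iff.1 a) b)⟩

theorem sing {k : {x // W x}} (H : SingW E W k.1) : Sing (EW E W) k := by
  obtain ⟨a, f, hW, h1, hf, h2, h3⟩ := H
  refine ⟨⟨a, h.trans k.2 h1⟩, ⟨f, hW⟩, h1, ⟨fun p hp => ?_, fun x hx => ?_,
    fun x y hxy => hf.2.2 _ _ (h.ap_iff.1 hxy)⟩,
    fun x x' y y' a b => h2 _ _ _ _ (h.ap_iff.1 a) (h.ap_iff.1 b), fun z hz => ?_⟩
  · obtain ⟨x, y, hx, hpr⟩ := hf.1 p.1 hp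
    exact ⟨⟨x, (h.pr_W hpr p.2).1⟩, ⟨y, (h.pr_W hpr p.2).2⟩, hx, h.pr_iff.2 hpr⟩
  · obtain ⟨y, hy, hu⟩ := hf.2.1 x.1 hx
    exact ⟨⟨y, (h.ap_W hy hW).2⟩, h.ap_iff.2 hy, fun z hz => Subtype.ext (hu z.1 (h.ap_iff.1 hz))⟩
  · obtain ⟨x, y, a, b⟩ := h3 z.1 hz
    exact ⟨⟨x, (h.ap_W a hW).1⟩, ⟨y, (h.ap_W a hW).2⟩, h.ap_iff.2 a, h.sub_iff.2 b⟩

end Tr

/-- A bound for the variables of a formula. -/
def bd : Fml → ℕ
  | .mem i j => max i j + 1
  | .eq i j => max i j + 1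
  | .neg φ => bd φ
  | .and φ ψ => max (bd φ) (bd ψ)
  | .all _ φ => bd φ

theorem satR_congr (φ : Fml) {v w : ℕ → M} (h : ∀ i < bd φ, v i = w i) :
    SatR E W φ v ↔ SatR E W φ w := by
  induction φ generalizing v w with
  | mem i j => simp only [SatR, h i (by simp [bd]), h j (by simp [bd])]
  | eq i j => simp only [SatR, h i (by simp [bd]), h j (by simp [bd])]
  | neg φ ih => exact not_congr (ih h)
  | and φ ψ ih1 ih2 =>
    exact and_congr (ih1 fun i k => h i (lt_max_of_lt_left k))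
      (ih2 fun i k => h i (lt_max_of_lt_right k))
  | all i φ ih =>
    refine forall₂_congr fun a _ => ih fun j k => ?_
    rcases eq_or_ne j i with rfl | e
    · simp
    · simpa [e] using h j k

end

variable {B : Type 1} [CompleteBooleanAlgebra B]

/-- Action of an automorphism on names. -/
def nmap (π : B ≃o B) : Nm B → Nm B
  | ⟨ι, A, a⟩ => ⟨ι, fun i => nmap π (A i), fun i => π (a i)⟩

theorem nmap_eq (π : B ≃o B) (x : Nm B) :
    nmap π x = ⟨x.ι, fun i => nmap π (x.fn i), fun i => π (x.val i)⟩ := by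
  cases x
  rw [nmap]

theorem nmap_one (x : Nm B) : nmap 1 x = x := by
  induction x with
  | mk ι A a ih => simp only [nmap, ih]; rfl

theorem nmap_mul (π ρ : B ≃o B) (x : Nm B) : nmap (π * ρ) x = nmap π (nmap ρ x) := by
  induction x with
  | mk ι A a ih => simp only [nmap, ih]; rfl

theorem eqv_nmap (π : B ≃o B) (x y : Nm B) : Nm.eqv (nmap π x) (nmap π y) = π (Nm.eqv x y) := by
  induction x generalizing y with
  | mk ι A a ih =>
    cases y with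
    | mk κ C c =>
      simp only [nmap, Nm.eqv, ih, map_inf, map_sup, map_compl, OrderIso.map_iInf,
        OrderIso.map_iSup]

theorem mem_nmap (π : B ≃o B) (x y : Nm B) : Nm.mem (nmap π x) (nmap π y) = π (Nm.mem x y) := by
  cases y with
  | mk κ C c => simp only [nmap, Nm.mem, eqv_nmap, map_inf, OrderIso.map_iSup]

theorem nmap_o (π : B ≃o B) (α : Ordinal.{0}) : nmap π (oN α) = oN α := by
  induction α using WellFoundedLT.induction with
  | _ α ih =>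
    rw [oN, nmap]
    simp only [map_top, fun β : Set.Iio α => ih β.1 β.2]

theorem nmap_op (π : B ≃o B) (x y : Nm B) : nmap π (opN x y) = opN (nmap π x) (nmap π y) := by
  have : ∀ x y, nmap π (upN x y) = upN (nmap π x) (nmap π y) := fun x y => by
    simp only [upN, nmap, map_top, apply_ite (nmap π), Bool.cond_eq_ite]
  simp only [opN, this]

/-- Image of an ultrafilter. -/
def umap (π : B ≃o B) (U : Ult B) : Ult B where
  P b := U.P (π.symm b)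
  inf a b := by rw [map_inf, U.inf]
  compl a := by rw [map_compl, U.compl]

theorem umap_P (π : B ≃o B) (U : Ult B) (b : B) : (umap π U).P (π b) ↔ U.P b := by
  simp [umap]

theorem umap_surj (π : B ≃o B) (U : Ult B) : ∃ V, U = umap π V := by
  refine ⟨umap π.symm U, ?_⟩
  cases U
  simp [umap]

/-- The isomorphism of quotient models induced by an automorphism. -/
def imap (π : B ≃o B) (U : Ult B) : U.M → (umap π U).M :=
  Quotient.map (nmap π) fun x y (h : U.P _) =>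
    show (umap π U).P _ by rwa [eqv_nmap, umap_P]

theorem imap_cl (π : B ≃o B) (U : Ult B) (x : Nm B) :
    imap π U (U.cl x) = (umap π U).cl (nmap π x) := rfl

theorem imap_E {π : B ≃o B} {U : Ult B} {a b : U.M} :
    (umap π U).E (imap π U a) (imap π U b) ↔ U.E a b := by
  obtain ⟨x, rfl⟩ := U.cl_surj a
  obtain ⟨y, rfl⟩ := U.cl_surj b
  simp only [imap_cl, Ult.E_cl, mem_nmap, umap_P]

theorem imap_eq {π : B ≃o B} {U : Ult B} {a b : U.M} : imap π U a = imap π U b ↔ a = b := by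
  obtain ⟨x, rfl⟩ := U.cl_surj a
  obtain ⟨y, rfl⟩ := U.cl_surj b
  simp only [imap_cl, Ult.cl_eq, eqv_nmap, umap_P]

theorem imap_surj (π : B ≃o B) (U : Ult B) : Surjective (imap π U) := fun b => by
  obtain ⟨y, rfl⟩ := Ult.cl_surj _ b
  exact ⟨U.cl (nmap π⁻¹ y), by rw [imap_cl, ← nmap_mul, mul_inv_cancel, nmap_one]⟩

/-- Forced equality of names. -/
def Feq (x y : Nm B) : Prop := Nm.eqv x y = ⊤

theorem Feq.cl {x y : Nm B} (h : Feq x y) (U : Ult B) : U.cl x = U.cl y :=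
  U.cl_eq.2 (h ▸ U.top)

theorem Feq.of {x y : Nm B} (h : ∀ U : Ult B, U.cl x = U.cl y) : Feq x y :=
  top_le_iff.1 (Ult.le_of fun U _ => U.cl_eq.1 (h U))

theorem Feq.nmap {x y : Nm B} (h : Feq x y) (π : B ≃o B) : Feq (nmap π x) (nmap π y) := by
  rw [Feq, eqv_nmap, h, map_top]

theorem Feq.mem {x y : Nm B} (h : Feq x y) (z : Nm B) : Nm.mem z x = Nm.mem z y :=
  le_antisymm (Ult.le_of fun U a => U.E_cl.1 (h.cl U ▸ U.E_cl.2 a))
    (Ult.le_of fun U a => U.E_cl.1 ((h.cl U).symm ▸ U.E_cl.2 a))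

theorem rep_fin (j : ℕ) (P : ℕ → Ult B → Prop) [∀ i, Rep (P i)] :
    Rep (fun U => ∀ i < j, P i U) := by
  induction j with
  | zero => exact Rep.congr (P := fun _ => True) (by simp)
  | succ j ih =>
    exact Rep.congr (P := fun U => (∀ i < j, P i U) ∧ P j U)
      fun U => (Nat.forall_lt_succ_right (p := fun i => P i U)).symm

end Pool.Agent.SC7292

/-!
Hereditarily symmetric small names; the symmetric model satisfies ZF.
-/

namespace Pool.Agent.SC7292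

open Cardinal Ordinal Set Function Pool.Agent.MP_7b2404_lc Pool.Agent.Lib.Forcing
  Pool.Agent.Lib.ForcingU

theorem Feq.refl {B : Type 1} [CompleteBooleanAlgebra B] (x : Nm B) : Feq x x := Nm.eqv_refl x

theorem feq_o {B : Type 1} [CompleteBooleanAlgebra B] (π : B ≃o B) (β : Ordinal.{0}) :
    Feq (nmap π (oN β)) (oN β) := (nmap_o π β).symm ▸ Feq.refl _

/-- Names with index sets in the lowest universe. -/
inductive TN (B : Type 1) : Type 1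
  | mk (ι : Type) (fn : ι → TN B) (val : ι → B) : TN B

/-- The name given by an element of `TN`. -/
def tn {B : Type 1} : TN B → Nm B
  | .mk ι fn val => ⟨ULift ι, fun i => tn (fn i.down), fun i => val i.down⟩

variable [Hyp] {s s' : Set (Ordinal.{0} × ℝ)} {x y : Nm (RO Cond)} {π : GG} {β : Ordinal.{0}}

/-- `s` supports the name `x`. -/
def Supp (s : Set (Ordinal.{0} × ℝ)) (x : Nm (RO Cond)) : Prop :=
  ∀ π ∈ Fix s, Feq (nmap (sg π) x) x

theorem Supp.mono (h : Supp s x) (k : s ⊆ s') : Supp s' x := fun π a => h π fun z b => a z (k b)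

theorem Supp.congr (h : Supp s x) (k : Feq x y) : Supp s y := fun π a => Feq.of fun U =>
  ((k.nmap _).cl U).symm.trans (((h π a).cl U).trans (k.cl U))

theorem Supp.fix (h : Supp s x) (k : π ∈ Fix s) (U : Ult (RO Cond)) :
    imap (sg π) U (U.cl x) = (umap (sg π) U).cl x := (h π k).cl _

theorem Supp.conj (h : Supp s x) (g : GG) : Supp (cact g '' s) (nmap (sg g) x) := fun π a => by
  have := (h (g⁻¹ * π * g) fun z b => (g z.1).symm_apply_eq.2 (a _ ⟨z, b, rfl⟩)).nmap (sg g)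
  rwa [← nmap_mul, ← map_mul, ← mul_assoc, mul_inv_cancel_left, map_mul, nmap_mul] at this

theorem supp_of_val (h : ∀ π ∈ Fix s, ∀ i,
    sg π (x.val i) ≤ Nm.mem (nmap (sg π) (x.fn i)) x) : Supp s x := by
  intro π a
  obtain ⟨ι, A, v⟩ := x
  refine top_le_iff.1 (Nm.le_eqv (fun i => inf_le_right.trans (h π a i))
    fun i => inf_le_right.trans ?_)
  have := (sg π).monotone (h π⁻¹ (inv_mem a) i)
  rwa [← mem_nmap, ← nmap_mul, map_inv, mul_inv_cancel, nmap_one,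
    show sg π ((sg π)⁻¹ (v i)) = v i from (sg π).apply_symm_apply _] at this

/-- Hereditarily symmetric, hereditarily small names. -/
def HS : Nm (RO Cond) → Prop
  | ⟨ι, A, a⟩ => Sm #ι ∧ (∃ s, s.Finite ∧ Supp s ⟨ι, A, a⟩) ∧ (∃ β, KK β ∧ ∀ i, Lo β (a i)) ∧
      ∀ i, HS (A i)

theorem hs_iff : HS x ↔ Sm #x.ι ∧ (∃ s, s.Finite ∧ Supp s x) ∧
    (∃ β, KK β ∧ ∀ i, Lo β (x.val i)) ∧ ∀ i, HS (x.fn i) := by
  cases x
  rw [HS]

theorem HS.sm (h : HS x) : Sm #x.ι := (hs_iff.1 h).1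

theorem HS.supp (h : HS x) : ∃ s, s.Finite ∧ Supp s x := (hs_iff.1 h).2.1

theorem HS.lo (h : HS x) : ∃ β, KK β ∧ ∀ i, Lo β (x.val i) := (hs_iff.1 h).2.2.1

theorem HS.fn (h : HS x) (i : x.ι) : HS (x.fn i) := (hs_iff.1 h).2.2.2 i

theorem HS.nmap (h : HS x) (g : GG) : HS (nmap (sg g) x) := by
  induction x with
  | mk ι A a ih =>
    obtain ⟨s, a1, a2⟩ := h.supp
    exact hs_iff.2 ⟨h.sm, ⟨_, a1.image _, a2.conj g⟩, h.lo.imp fun _ k => ⟨k.1, fun i => (k.2 i).sg g⟩,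
      fun i => ih i (h.fn i)⟩

theorem HS.tn (h : HS x) : ∃ σ, HS (tn σ) ∧ Feq x (tn σ) := by
  induction x with
  | mk ι A a ih =>
    choose σ a1 a2 using fun i => ih i (h.fn i)
    obtain ⟨η, -, b⟩ := h.sm
    obtain ⟨J, φ, -⟩ := small_of_lt b
    have e : Feq ⟨ι, A, a⟩ (SC7292.tn (.mk J (fun j => σ (φ j)) fun j => a (φ j))) := by
      refine top_le_iff.1 (Nm.le_eqv (fun i => ?_) fun j => ?_)
      · obtain ⟨j, rfl⟩ := φ.surjective i
        exact Nm.le_mem ⟨j⟩ inf_le_right (le_top.trans (a2 _).ge)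
      · exact Nm.le_mem (φ j.down) inf_le_right (le_top.trans ((Nm.eqv_symm _ _).trans (a2 _)).ge)
    obtain ⟨s, c1, c2⟩ := h.supp
    refine ⟨_, hs_iff.2 ⟨h.sm.mono ?_, ⟨s, c1, c2.congr e⟩,
      h.lo.imp fun _ k => ⟨k.1, fun _ => k.2 _⟩, fun j => a1 _⟩, e⟩
    exact mk_le_of_injective (f := fun j : ULift J => φ j.down)
      (φ.injective.comp ULift.down_injective)

/-- The name of the symmetric model. -/
def SV : Nm (RO Cond) := ⟨{σ // HS (tn σ)}, fun σ => tn σ.1, fun _ => ⊤⟩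

/-- The elements of the symmetric model. -/
def SW (U : Ult (RO Cond)) (a : U.M) : Prop := U.E a (U.cl SV)

instance rep_SW (x : Nm (RO Cond)) : Rep (fun U : Ult (RO Cond) => SW U (U.cl x)) := by
  unfold SW; infer_instance

theorem HS.sw (h : HS x) (U : Ult (RO Cond)) : SW U (U.cl x) := by
  obtain ⟨σ, a, b⟩ := h.tn
  rw [b.cl U]
  exact U.E_intro SV ⟨σ, a⟩ U.top

theorem sw_elim (Q : ∀ U : Ult (RO Cond), U.M → Prop) [∀ x, Rep (fun U => Q U (U.cl x))]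
    (h : ∀ x, HS x → ∀ U, Q U (U.cl x)) (U : Ult (RO Cond)) (a : U.M) (ha : SW U a) : Q U a :=
  mem_elim SV Q (fun U σ _ => h _ σ.2 U) U a ha

theorem HS.mem (h : HS x) (U : Ult (RO Cond)) (a : U.M) (k : U.E a (U.cl x)) : SW U a :=
  mem_elim x SW (fun V i _ => (h.fn i).sw V) U a k

theorem sw_trans (U : Ult (RO Cond)) {a b : U.M} (hb : SW U b) (h : U.E a b) : SW U a :=
  sw_elim (fun V b => ∀ a, V.E a b → SW V a) (fun _ k => k.mem) U b hb a h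

theorem sw_imap {U : Ult (RO Cond)} {a : U.M} : SW _ (imap (sg π) U a) ↔ SW U a := by
  have : Supp ∅ SV := supp_of_val fun π _ i => Ult.le_of fun V _ => (i.2.nmap π).sw V
  rw [SW, ← this.fix (π := π) (by simp [Fix]), imap_E, SW]

theorem satR_imap (φ : Fml) (U : Ult (RO Cond)) (v : ℕ → U.M) :
    SatR (umap (sg π) U).E (SW _) φ (imap (sg π) U ∘ v) ↔ SatR U.E (SW U) φ v := by
  induction φ generalizing v with
  | mem i j => exact imap_E
  | eq i j => exact imap_eq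
  | neg φ ih => exact not_congr (ih v)
  | and φ ψ ih1 ih2 => exact and_congr (ih1 v) (ih2 v)
  | all i φ ih =>
    simp only [SatR, (imap_surj (sg π) U).forall, sw_imap, ← comp_update, ih]

theorem rep_satS (φ : Fml) (v : ℕ → Nm (RO Cond)) :
    Rep (fun U : Ult (RO Cond) => SatR U.E (SW U) φ (fun n => U.cl (v n))) := by
  induction φ generalizing v with
  | mem i j => exact Rep.mem _ _
  | eq i j => exact Rep.eq _ _
  | neg φ ih => exact @Rep.not _ _ _ (ih v)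
  | and φ ψ ih1 ih2 => exact @Rep.and _ _ _ _ (ih1 v) (ih2 v)
  | all i φ ih =>
    refine @Rep.all _ _ (fun U a => SW U a →
      SatR U.E (SW U) φ (update (fun n => U.cl (v n)) i a)) fun x => ?_
    exact @Rep.imp _ _ _ _ _ (@Rep.congr _ _ _ _ (ih (update v i x))
      fun U => by rw [Ult.update_cl])

theorem sg_tv (t : Set At) (π : GG) : sg π (tv t) = tv t :=
  hull_fix (s := ∅) (fun _ _ _ k => k) π (by simp [Fix])

theorem frc_tv {p : Cond} {t : Set At} (h : t ⊆ p.q) : Frc p fun U => U.P (tv t) :=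
  Frc.iff_val.2 (mem_tv h)

theorem exists_set (hs : s.Finite) (h1 : Sm #y.ι) (h2 : ∀ i, HS (y.fn i))
    (Q : ∀ U : Ult (RO Cond), U.M → Prop) [∀ x, Rep (fun U => Q U (U.cl x))]
    (hc : ∀ U a, Q U a → U.E a (U.cl y))
    (hi : ∀ π ∈ Fix s, ∀ U a, Q U a → Q (umap (sg π) U) (imap (sg π) U a)) (U : Ult (RO Cond)) :
    ∃ b, SW U b ∧ ∀ a, U.E a b ↔ Q U a := by
  refine Frc.all_dense (Φ := fun U => ∃ b, SW U b ∧ ∀ a, U.E a b ↔ Q U a) (fun p => ?_) U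
  obtain ⟨v0, hv0⟩ := exists_sep y Q
  obtain ⟨t, a1, a2, a3⟩ := exists_lo h1 v0 p.pp
  let z : Nm (RO Cond) := ⟨y.ι, y.fn, fun i => tv t ⊓ v0 i⟩
  have e : ∀ U a, U.E a (U.cl z) ↔ U.P (tv t) ∧ Q U a := fun U a => ⟨mem_elim z
    (fun U a => U.P (tv t) ∧ Q U a) (fun V i k => ⟨((V.inf _ _).1 k).1,
      ((hv0 V _).1 (V.E_intro ⟨y.ι, y.fn, v0⟩ i ((V.inf _ _).1 k).2)).2⟩) U a,
    fun k => mem_elim ⟨y.ι, y.fn, v0⟩ (fun U a => U.P (tv t) → U.E a (U.cl z))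
      (fun V i l o => V.E_intro z i ((V.inf _ _).2 ⟨o, l⟩)) U a ((hv0 U a).2 ⟨hc U a k.2, k.2⟩) k.1⟩
  have hz : HS z := by
    refine hs_iff.2 ⟨h1, ⟨s, hs, supp_of_val fun π k i => Ult.le_of fun V l => ?_⟩, a3, h2⟩
    obtain ⟨U, rfl⟩ := umap_surj (sg π) V
    have := (e U _).1 (U.E_intro z i ((umap_P _ _ _).1 l))
    exact (e _ _).2 ⟨sg_tv t π ▸ (umap_P _ _ _).2 this.1, hi π k U _ this.2⟩
  exact ⟨_, p.setq_le a1 a2, (frc_tv subset_rfl).imp fun V k =>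
    ⟨_, hz.sw V, fun a => (e V a).trans (and_iff_right k)⟩⟩

theorem lo_top {ι : Type 1} : ∃ β, KK β ∧ ∀ _ : ι, Lo β (⊤ : RO Cond) :=
  ⟨0, KK.zero, fun _ _ _ _ _ => (le_top : tv ∅ ≤ ⊤) (mem_tv (empty_subset _))⟩

theorem hs_fix (hs : s.Finite) (h1 : Sm #x.ι) (h2 : ∀ i, HS (x.fn i))
    (h3 : ∃ β, KK β ∧ ∀ i, Lo β (x.val i))
    (h : ∀ π ∈ Fix s, ∀ i, Feq (nmap (sg π) (x.fn i)) (x.fn i) ∧ sg π (x.val i) = x.val i) :
    HS x := hs_iff.2 ⟨h1, ⟨s, hs, supp_of_val fun π k i =>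
  Nm.le_mem i (h π k i).2.le (le_top.trans (h π k i).1.ge)⟩, h3, h2⟩

theorem HS.up (h : HS x) (h' : HS y) : HS (upN x y) := by
  obtain ⟨s, a1, a2⟩ := h.supp
  obtain ⟨s', b1, b2⟩ := h'.supp
  refine hs_fix (a1.union b1) (sm_fin (X := ULift Bool)) ?_ lo_top fun π k i => ⟨?_, map_top _⟩
  · rintro ⟨_ | _⟩
    exacts [h', h]
  · rcases i with ⟨_ | _⟩
    exacts [b2.mono subset_union_right π k, a2.mono subset_union_left π k]

theorem HS.op (h : HS x) (h' : HS y) : HS (opN x y) := (h.up h).up (h.up h')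

theorem sm_Iio (h : Sm (lc β.card)) : Sm #(Iio β) := h.mono (mk_Iio β).le

theorem hs_o (h : Sm (lc β.card)) : HS (oN β) := by
  induction β using WellFoundedLT.induction with
  | _ β ih =>
    rw [oN]
    exact hs_fix finite_empty (sm_Iio h) (fun i => ih _ i.2 (h.mono (Cardinal.lift_le.2
      (card_le_card (le_of_lt i.2))))) lo_top fun π _ i => ⟨feq_o _ _, map_top _⟩

theorem sw_pair (U : Ult (RO Cond)) {a b p : U.M} (ha : SW U a) (hb : SW U b)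
    (hp : ∀ z, U.E z p ↔ z = a ∨ z = b) : SW U p := by
  refine sw_elim (fun V a => ∀ b, SW V b → ∀ p, (∀ z, V.E z p ↔ z = a ∨ z = b) → SW V p)
    (fun x hx => sw_elim (fun V b => ∀ p, (∀ z, V.E z p ↔ z = V.cl x ∨ z = b) → SW V p)
      fun y hy V p hp => ?_) U a ha b hb p hp
  rw [V.ext' p (V.cl (upN x y)) fun z => (hp z).trans (V.E_upN _ _ z).symm]
  exact (hx.up hy).sw V

theorem sm_omega : Sm (lc (ω : Ordinal.{0}).card) := by simpa using Sm.aleph0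

theorem sw_tr (U : Ult (RO Cond)) : Tr U.E (SW U) :=
  ⟨U.zfc, sw_trans U, sw_pair U, _, (hs_o sm_omega).sw U, o_om U⟩

theorem sw_union (U : Ult (RO Cond)) (a : U.M) (ha : SW U a) :
    ∃ u, SW U u ∧ ∀ z, U.E z u ↔ ∃ b, U.E b a ∧ U.E z b := by
  refine sw_elim (fun V a => ∃ u, SW V u ∧ ∀ z, V.E z u ↔ ∃ b, V.E b a ∧ V.E z b)
    (fun x hx V => ?_) U a ha
  obtain ⟨s, a1, a2⟩ := hx.supp
  let u : Nm (RO Cond) := ⟨Σ i, (x.fn i).ι, fun s => (x.fn s.1).fn s.2, fun _ => ⊤⟩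
  exact exists_set (y := u) a1 ((hx.sm.sum fun i => (hx.fn i).sm).mono
    (mk_sigma _).le) (fun i => (hx.fn _).fn _) (fun V z => ∃ b, V.E b (V.cl x) ∧ V.E z b)
    (fun V z ⟨b, c1, c2⟩ => mem_elim x (fun U b => ∀ z, U.E z b → U.E z (U.cl u)) (fun W i _ =>
      mem_elim (x.fn i) (fun U z => U.E z (U.cl u)) (fun Y j _ => Y.E_intro u ⟨i, j⟩ Y.top) W)
      V b c1 z c2)
    (fun π k V z ⟨b, c1, c2⟩ => ⟨_, a2.fix k V ▸ imap_E.2 c1, imap_E.2 c2⟩) V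

theorem sw_params (n : ℕ) (Q : ∀ U : Ult (RO Cond), (ℕ → U.M) → Prop)
    [∀ v : ℕ → Nm (RO Cond), Rep (fun U => Q U fun i => U.cl (v i))]
    (h : ∀ v : ℕ → Nm (RO Cond), (∀ i < n, HS (v i)) → ∀ U, Q U fun i => U.cl (v i))
    (U : Ult (RO Cond)) (v : ℕ → U.M) (hv : ∀ i < n, SW U (v i)) : Q U v := by
  induction n generalizing Q with
  | zero =>
    choose w hw using fun i => U.cl_surj (v i)
    exact funext hw ▸ h w (by simp) U
  | succ n ih =>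
    refine ih (fun U v => SW U (v n) → Q U v) (fun w hw V k => ?_) (fun i k => hv i (by omega))
      (hv n (by omega))
    have : ∀ x, Rep fun U => Q U (update (fun i => U.cl (w i)) n (U.cl x)) := fun x => by
      simp only [Ult.update_cl]
      infer_instance
    have := sw_elim (fun U a => Q U (update (fun i => U.cl (w i)) n a)) (fun x hx U => by
      rw [Ult.update_cl]
      refine h _ (fun i k => ?_) U
      rcases eq_or_ne i n with rfl | e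
      · simpa using hx
      · simpa [e] using hw i (by omega)) V _ k
    rwa [update_eq_self] at this

theorem exists_supp {n : ℕ} {v : ℕ → Nm (RO Cond)} (h : ∀ i < n, HS (v i)) (hx : HS x) :
    ∃ s, s.Finite ∧ Supp s x ∧ ∀ i < n, Supp s (v i) := by
  obtain ⟨s, a1, a2⟩ := hx.supp
  choose! t b1 b2 using fun i k => (h i k).supp
  exact ⟨s ∪ ⋃ i ∈ Iio n, t i, a1.union ((finite_Iio n).biUnion b1), a2.mono subset_union_left,
    fun i k => (b2 i k).mono fun z l => Or.inr (mem_biUnion (mem_Iio.2 k) l)⟩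

theorem sat_inv {φ : Fml} {U : Ult (RO Cond)} {v : ℕ → U.M} {w : ℕ → (umap (sg π) U).M}
    (e : ∀ i < bd φ, w i = imap (sg π) U (v i)) :
    SatR (umap (sg π) U).E (SW _) φ w ↔ SatR U.E (SW U) φ v :=
  (satR_congr _ _ φ e).trans (satR_imap φ U v)

theorem sw_sep (φ : Fml) (U : Ult (RO Cond)) (v : ℕ → U.M) (hv : ∀ i, SW U (v i)) (a : U.M)
    (ha : SW U a) : ∃ b, SW U b ∧ ∀ z, U.E z b ↔ U.E z a ∧ SatR U.E (SW U) φ (update v 0 z) := by
  have : ∀ (w : ℕ → Nm (RO Cond)) z, Rep fun U : Ult (RO Cond) =>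
      SatR U.E (SW U) φ (update (fun n => U.cl (w n)) 0 (U.cl z)) := fun w z => by
    simp only [Ult.update_cl]
    exact rep_satS φ _
  refine sw_params (bd φ) (fun U v => ∀ a, SW U a → ∃ b, SW U b ∧ ∀ z, U.E z b ↔ U.E z a ∧
    SatR U.E (SW U) φ (update v 0 z)) (fun w hw => sw_elim (fun U a => ∃ b, SW U b ∧ ∀ z,
      U.E z b ↔ U.E z a ∧ SatR U.E (SW U) φ (update (fun n => U.cl (w n)) 0 z)) fun x hx V => ?_)
    U v (fun i _ => hv i) a ha
  obtain ⟨s, a1, a2, a3⟩ := exists_supp hw hx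
  exact exists_set a1 hx.sm hx.fn (fun U z => U.E z (U.cl x) ∧
    SatR U.E (SW U) φ (update (fun n => U.cl (w n)) 0 z)) (fun _ _ k => k.1)
    (fun π k V z l => ⟨a2.fix k V ▸ imap_E.2 l.1, (sat_inv fun i o => by
      simp only [update_apply, apply_ite (imap _ V), (a3 i o).fix k V]).2 l.2⟩) V

theorem exists_coll (hx : HS x) (Q : ∀ U : Ult (RO Cond), U.M → U.M → Prop)
    [∀ z z', Rep (fun U => Q U (U.cl z) (U.cl z'))] (p : Cond) : ∃ t ∈ PP, p.q ⊆ t ∧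
    ∃ y : Nm (RO Cond), Sm #y.ι ∧ (∀ i, HS (y.fn i)) ∧ ∀ U a, U.E a (U.cl x) → ∀ b, SW U b →
      U.P (tv t) ∧ Q U a b → ∃ b, U.E b (U.cl y) ∧ Q U a b := by
  let D : x.ι → Set Cond := fun i =>
    {p | ∃ z, HS z ∧ Frc p fun U => Q U (U.cl (x.fn i)) (U.cl z)}
  obtain ⟨t, β, s1, s2, s0, s3⟩ := tame hx.sm D p.pp
  choose z z1 z2 using fun i (w : (D i ∩ Low β : Set Cond)) => w.2.1
  let y : Nm (RO Cond) := ⟨Σ i, (D i ∩ Low β : Set Cond), fun w => z w.1 w.2, fun _ => ⊤⟩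
  refine ⟨t, ⟨β, s1, s2⟩, s0, y, (hx.sm.sum fun i => (sm_low s1).mono
    (mk_le_mk_of_subset inter_subset_right)).mono (mk_sigma _).le, fun w => z1 _ _, mem_elim x
    (fun U a => ∀ b, SW U b → U.P (tv t) ∧ Q U a b → ∃ b, U.E b (U.cl y) ∧ Q U a b)
      fun U i _ => sw_elim (fun U b => U.P (tv t) ∧ Q U (U.cl (x.fn i)) b →
        ∃ b, U.E b (U.cl y) ∧ Q U (U.cl (x.fn i)) b) (fun b hb => Frc.all_contra fun q h => ?_) U⟩
  obtain ⟨q', b1, b2⟩ := tv_ex (Frc.iff_val.1 (h.imp fun V k => (Classical.not_imp.1 k).1.1))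
  obtain ⟨w, a1, r, a2, a3⟩ := s3 i q' ⟨b, hb, (h.mono b1).imp
    fun V k => (Classical.not_imp.1 k).1.2⟩ b2
  obtain ⟨V, c1, c2⟩ := (((z2 i ⟨w, a1⟩).mono a3).and (h.mono (a2.trans b1))).ex
  exact c2 fun _ => ⟨_, V.E_intro y ⟨i, w, a1⟩ V.top, c1⟩

theorem sw_repl (φ : Fml) (U : Ult (RO Cond)) (v : ℕ → U.M) (hv : ∀ i, SW U (v i)) (a : U.M)
    (ha : SW U a) : ∃ c, SW U c ∧ ∀ b, U.E b c ↔ ∃ z, U.E z a ∧ SW U b ∧
      SatR U.E (SW U) φ (update (update v 0 z) 1 b) ∧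
      ∀ b', SW U b' → SatR U.E (SW U) φ (update (update v 0 z) 1 b') → b' = b := by
  have : ∀ (w : ℕ → Nm (RO Cond)) z z', Rep fun U : Ult (RO Cond) => SatR U.E (SW U) φ
      (update (update (fun n => U.cl (w n)) 0 (U.cl z)) 1 (U.cl z')) := fun w z z' => by
    simp only [Ult.update_cl]
    exact rep_satS φ _
  refine sw_params (bd φ) (fun U v => ∀ a, SW U a → ∃ c, SW U c ∧ ∀ b, U.E b c ↔ ∃ z, U.E z a ∧
    SW U b ∧ SatR U.E (SW U) φ (update (update v 0 z) 1 b) ∧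
      ∀ b', SW U b' → SatR U.E (SW U) φ (update (update v 0 z) 1 b') → b' = b)
    (fun w hw => sw_elim (fun U a => ∃ c, SW U c ∧ ∀ b, U.E b c ↔ ∃ z, U.E z a ∧ SW U b ∧
      SatR U.E (SW U) φ (update (update (fun n => U.cl (w n)) 0 z) 1 b) ∧ ∀ b', SW U b' →
      SatR U.E (SW U) φ (update (update (fun n => U.cl (w n)) 0 z) 1 b') → b' = b)
      fun x hx V => ?_) U v (fun i _ => hv i) a ha
  obtain ⟨s, a1, a2, a3⟩ := exists_supp hw hx
  refine Frc.all_dense (Φ := fun U => ∃ c, SW U c ∧ ∀ b, U.E b c ↔ ∃ z, U.E z (U.cl x) ∧ SW U b ∧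
    SatR U.E (SW U) φ (update (update (fun n => U.cl (w n)) 0 z) 1 b) ∧ ∀ b', SW U b' →
      SatR U.E (SW U) φ (update (update (fun n => U.cl (w n)) 0 z) 1 b') → b' = b) (fun p => ?_) V
  obtain ⟨t, t1, t2, y, y1, y2, y3⟩ := exists_coll hx
    (fun U z b => SatR U.E (SW U) φ (update (update (fun n => U.cl (w n)) 0 z) 1 b)) p
  refine ⟨_, p.setq_le t1 t2, (frc_tv subset_rfl).imp fun V o => ?_⟩
  obtain ⟨z, b1, b2⟩ := exists_set a1 y1 y2 (fun U b => U.P (tv t) ∧ ∃ z, U.E z (U.cl x) ∧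
      SW U b ∧ SatR U.E (SW U) φ (update (update (fun n => U.cl (w n)) 0 z) 1 b) ∧ ∀ b', SW U b' →
      SatR U.E (SW U) φ (update (update (fun n => U.cl (w n)) 0 z) 1 b') → b' = b)
    (fun U b ⟨c0, z, c1, c2, c3, c4⟩ => by
      obtain ⟨b', d1, d2⟩ := y3 U z c1 b c2 ⟨c0, c3⟩
      exact c4 b' (mem_elim y SW (fun V i _ => (y2 i).sw V) U b' d1) d2 ▸ d1)
    (fun π k V b ⟨c0, z, c1, c2, c3, c4⟩ => by
      have e := fun b => sat_inv (π := π) (φ := φ)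
        (v := update (update (fun n => V.cl (w n)) 0 z) 1 b) (w := update (update
          (fun n => Ult.cl _ (w n)) 0 (imap _ V z)) 1 (imap _ V b)) fun i o => by
        simp only [update_apply, apply_ite (imap _ V), (a3 i o).fix k V]
      exact ⟨sg_tv t π ▸ (umap_P _ _ _).2 c0, _, a2.fix k V ▸ imap_E.2 c1, sw_imap.2 c2, (e b).2 c3,
        (imap_surj _ V).forall.2 fun b' l o => congrArg _ (c4 b' (sw_imap.1 l) ((e b').1 o))⟩) V
  exact ⟨z, b1, fun b => (b2 b).trans (and_iff_right o)⟩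

end Pool.Agent.SC7292

/-!
Power sets, ordinals and cardinals of the symmetric model.
-/

namespace Pool.Agent.SC7292

open Cardinal Ordinal Set Function Pool.Agent.MP_7b2404_lc Pool.Agent.Lib.Forcing
  Pool.Agent.Lib.ForcingU

theorem ult_two {P : Type 1} [Preorder P] {U : Ult (RO P)} {a b : RO P} (h : U.P a) (k : U.P b) :
    ∃ u, u ∈ a.s ∧ u ∈ b.s := by
  by_contra hc
  exact U.bot (U.mono (fun u l => (hc ⟨u, RO.mem_inf.1 l⟩).elim) ((U.inf a b).2 ⟨h, k⟩))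

variable [Hyp] {s : Set (Ordinal.{0} × ℝ)} {x y : Nm (RO Cond)} {π : GG} {β γ : Ordinal.{0}}
  {a b : RO Cond}

theorem Lo.iInf {ι : Type 1} {d : ι → RO Cond} (h : ∀ i, Lo β (d i)) : Lo β (⨅ i, d i) :=
  fun u k v c => RO.mem_iInf.2 fun i => h i u (RO.mem_iInf.1 k i) v c

theorem Lo.iSup {ι : Type 1} {d : ι → RO Cond} (h : ∀ i, Lo β (d i)) : Lo β (⨆ i, d i) := by
  simpa only [compl_iInf, compl_compl] using (Lo.iInf fun i => (h i).compl).compl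

theorem Lo.imp (h : Lo β a) (k : Lo β b) : Lo β (aᶜ ⊔ b) := by
  simpa only [compl_inf, compl_compl] using (h.inf k.compl).compl

/-- Names all of whose values are decided below `β`. -/
def HL (β : Ordinal.{0}) : Nm (RO Cond) → Prop
  | ⟨_, A, a⟩ => ∀ i, Lo β (a i) ∧ HL β (A i)

theorem HL.mono (h : HL β x) (k : β ≤ γ) : HL γ x := by
  induction x with
  | mk ι A a ih => exact fun i => ⟨(h i).1.mono k, ih i (h i).2⟩

theorem HL.eqv (h : HL β x) (k : HL β y) : Lo β (Nm.eqv x y) := by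
  induction x generalizing y with
  | mk ι A a ih =>
    obtain ⟨κ, C, c⟩ := y
    exact (Lo.iInf fun i => (h i).1.imp (Lo.iSup fun j => (k j).1.inf (ih i (h i).2 (k j).2))).inf
      (Lo.iInf fun j => (k j).1.imp (Lo.iSup fun i => (h i).1.inf (ih i (h i).2 (k j).2)))

theorem HL.nmap (h : HL β x) (π : GG) : HL β (nmap (sg π) x) := by
  induction x with
  | mk ι A a ih => exact fun i => ⟨(h i).1.sg π, ih i (h i).2⟩

theorem HL.fix (h : HL β x) (k : ∀ c, Lo β c → sg π c = c) : SC7292.nmap (sg π) x = x := by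
  induction x with
  | mk ι A a ih => simp only [SC7292.nmap, fun i => ih i (h i).2, fun i => k _ (h i).1]

theorem HS.hl (h : HS x) : ∃ β, KK β ∧ HL β x := by
  induction x with
  | mk ι A a ih =>
    choose b b1 b2 using fun i => ih i (h.fn i)
    obtain ⟨c, c1, c2⟩ := h.lo
    obtain ⟨β, d1, d2⟩ := h.sm.bdd b b1
    exact ⟨max β c, d1.max c1, fun i => ⟨(c2 i).mono (le_max_right _ _),
      (b2 i).mono ((d2 i).le.trans (le_max_left _ _))⟩⟩

theorem exists_pow (hx : HS x) : ∃ y : Nm (RO Cond), Sm #y.ι ∧ (∀ i, HS (y.fn i)) ∧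
    ∀ U z, SW U z → Sub U.E z (U.cl x) → U.E z (U.cl y) := by
  obtain ⟨β, a1, a2⟩ := hx.hl
  obtain ⟨s, a3, a4⟩ := hx.supp
  obtain ⟨γ, b1, b2⟩ := red_op a1 hx.sm
  obtain ⟨ι, A, a⟩ := x
  let y : Nm (RO Cond) := ⟨{v : ι → RO Cond // (∀ i, Lo (max β γ) (v i)) ∧ HS ⟨ι, A, v⟩},
    fun v => ⟨ι, A, v.1⟩, fun _ => ⊤⟩
  refine ⟨y, ((mk_lo (a1.max b1)).pow hx.sm).mono ?_, fun v => v.2.2, sw_elim
    (fun U z => Sub U.E z (U.cl ⟨ι, A, a⟩) → U.E z (U.cl y))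
    fun z hz => Frc.all_dense fun p => ?_⟩
  · rw [power_def]
    exact mk_le_of_injective (f := fun v i => ⟨v.1 i, v.2.1 i⟩)
      fun v w e => Subtype.ext (funext fun i => congrArg Subtype.val (congrFun e i))
  obtain ⟨s', c1, c2⟩ := hz.supp
  obtain ⟨q, d1, R, d2, d3, d4, d5, d6, d7⟩ := b2 s' c1 (fun i => Nm.mem (A i) z)
    (fun i π k l => by rw [← mem_nmap, (a2 i).2.fix l, (c2 π k).mem]) p
  let v : ι → RO Cond := fun i => Nm.mem (A i) ⟨ι, A, a⟩ ⊓ R (Nm.mem (A i) z)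
  have h1 : ∀ i, Lo (max β γ) (v i) := fun i => (Lo.mono (Lo.iSup fun j =>
    (a2 j).1.inf ((a2 i).2.eqv (a2 j).2)) (le_max_left _ _)).inf ((d3 _).mono (le_max_right _ _))
  have h2 : HS ⟨ι, A, v⟩ := by
    refine hs_iff.2 ⟨hx.sm, ⟨s ∪ s' ∪ Co q, (a3.union c1).union (co_fin q),
      supp_of_val fun π k i => ?_⟩, ⟨_, a1.max b1, h1⟩, hx.fn⟩
    simp only [v, map_inf, d6 π fun w l => k w (Or.inr l), ← mem_nmap,
      (a4 π fun w l => k w (Or.inl (Or.inl l))).mem, (c2 π fun w l => k w (Or.inl (Or.inr l))).mem]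
    rw [inf_comm]
    refine Nm.inf_mem_le fun j => Nm.le_mem j (le_inf (inf_le_right.trans (inf_le_left.trans
      (Nm.val_le_mem ⟨ι, A, a⟩ j))) ?_) (inf_le_right.trans inf_le_right)
    exact (le_inf (inf_le_right.trans inf_le_right) inf_le_left).trans ((d5 _ _
      (((a2 i).2.nmap π).eqv (a2 j).2)).trans (d2 (Nm.mem_congr_left _ _ _)))
  refine ⟨q, d1, fun V k l => ?_⟩
  rw [V.ext' (V.cl z) (V.cl ⟨ι, A, v⟩) fun t => ⟨fun o => ?_, fun o => ?_⟩]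
  · exact V.E_intro y ⟨v, h1, h2⟩ V.top
  · exact mem_elim ⟨ι, A, a⟩ (fun V t => V.P (RO.cd q) → V.E t (V.cl z) → V.E t (V.cl ⟨ι, A, v⟩))
      (fun W i e1 e2 e3 => W.E_intro ⟨ι, A, v⟩ i ((W.inf _ _).2 ⟨W.E_intro ⟨ι, A, a⟩ i e1,
        W.mono (d7 i) ((W.inf _ _).2 ⟨e2, e3⟩)⟩)) V t (l t o) k o
  · exact mem_elim ⟨ι, A, v⟩ (fun V t => V.P (RO.cd q) → V.E t (V.cl z))
      (fun W i e1 e2 => W.mono (d4 _) ((W.inf _ _).2 ⟨e2, ((W.inf _ _).1 e1).2⟩)) V t o k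

theorem sw_power (U : Ult (RO Cond)) (a : U.M) (ha : SW U a) :
    ∃ u, SW U u ∧ ∀ z, U.E z u ↔ SW U z ∧ Sub U.E z a := by
  refine sw_elim (fun V a => ∃ u, SW V u ∧ ∀ z, V.E z u ↔ SW V z ∧ Sub V.E z a)
    (fun x hx V => ?_) U a ha
  obtain ⟨s, a1, a2⟩ := hx.supp
  obtain ⟨y, y1, y2, y3⟩ := exists_pow hx
  exact exists_set a1 y1 y2 (fun V z => SW V z ∧ Sub V.E z (V.cl x))
    (fun V z k => y3 V z k.1 k.2) (fun π k V z l => ⟨sw_imap.2 l.1, (imap_surj _ V).forall.2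
      fun t o => a2.fix k V ▸ imap_E.2 (l.2 t (imap_E.1 o))⟩) V

theorem sw_zf (U : Ult (RO Cond)) : ZF (EW U.E (SW U)) :=
  have h := sw_tr U
  { ext := fun x y e => Subtype.ext (U.ext' _ _ fun z =>
      ⟨fun hz => (e ⟨z, h.trans x.2 hz⟩).1 hz, fun hz => (e ⟨z, h.trans y.2 hz⟩).2 hz⟩)
    found := fun x ⟨y, hy⟩ =>
      let ⟨a, h1, h2⟩ := U.found x.1 ⟨y.1, hy⟩
      ⟨⟨a, h.trans x.2 h1⟩, h1, fun z => h2 z.1⟩
    pair := fun x y =>
      let ⟨p, hp⟩ := h.zfc.pair x.1 y.1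
      ⟨⟨p, h.pair x.2 y.2 hp⟩, fun z => by simpa [EW, Subtype.ext_iff] using hp z.1⟩
    union := fun x =>
      let ⟨p, k, hp⟩ := sw_union U x.1 x.2
      ⟨⟨p, k⟩, fun z => (hp z.1).trans (h.ex_mem (Q := U.E z.1)).symm⟩
    power := fun x =>
      let ⟨p, k, hp⟩ := sw_power U x.1 x.2
      ⟨⟨p, k⟩, fun z => (hp z.1).trans ((and_iff_right z.2).trans h.sub_iff.symm)⟩
    inf := let ⟨w, h1, h2⟩ := h.inf; ⟨⟨w, h1⟩, h.ind_iff.2 h2.1⟩
    sep := fun φ v x => by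
      obtain ⟨p, k, hp⟩ := sw_sep φ U _ (fun i => (v i).2) x.1 x.2
      refine ⟨⟨p, k⟩, fun z => (hp z.1).trans (and_congr_right' ?_)⟩
      rw [sat_iff, ← comp_def Subtype.val, ← comp_update Subtype.val]
      rfl
    repl := fun φ v x H => by
      obtain ⟨p, k, hp⟩ := sw_repl φ U _ (fun i => (v i).2) x.1 x.2
      have e : ∀ a b : {x // SW U x}, Sat (EW U.E (SW U)) φ (update (update v 0 a) 1 b) ↔
          SatR U.E (SW U) φ (update (update (fun n => (v n).1) 0 a.1) 1 b.1) := fun a b => by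
        rw [sat_iff, ← comp_def Subtype.val, comp_update, comp_update]
        rfl
      exact ⟨⟨p, k⟩, fun b => (hp b.1).trans ⟨fun ⟨z, c1, _, c2, _⟩ =>
        ⟨⟨z, h.trans x.2 c1⟩, c1, (e _ _).2 c2⟩, fun ⟨z, c1, c2⟩ => ⟨z.1, c1, b.2, (e _ _).1 c2,
          fun b' l o => congrArg Subtype.val ((H z c1).unique ((e z ⟨b', l⟩).2 o) c2)⟩⟩⟩ }

theorem sm_ord {η : Ordinal.{0}} (h : KK η) (k : ℕ) : Sm (lc (nu η k).ord.card) := by
  simpa using Sm.nu h k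

theorem sw_ord (Q : ∀ U : Ult (RO Cond), U.M → Prop) [∀ x, Rep (fun U => Q U (U.cl x))]
    (h : ∀ β, Sm (lc β.card) → ∀ U, Q U (U.cl (oN β))) (U : Ult (RO Cond)) (a : U.M)
    (ha : SW U a) (ho : IsOrd U.E a) : Q U a := by
  have key : ∀ x, HS x → ∃ η, KK η ∧ ∀ V : Ult (RO Cond), IsOrd V.E (V.cl x) →
      V.E (V.cl x) (V.cl (oN (nu η 0).ord)) := by
    intro x hx
    induction x with
    | mk ι A a ih =>
      choose b b1 b2 using fun i => ih i (hx.fn i)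
      obtain ⟨δ, d1, d2⟩ := hx.sm.bdd b b1
      refine ⟨δ + 1, d1.succ, fun V hV => o_sub V (Order.add_one_le_of_lt (Cardinal.ord_lt_ord.2
        (nu_lt_nu (lt_add_one δ) 0 0))) _ (ord_mem_of_sub V _ _ hV fun z hz => ?_)⟩
      exact mem_elim ⟨ι, A, a⟩ (fun V z => IsOrd V.E z → V.E z (V.cl (oN (nu δ 0).ord)))
        (fun W i _ hi => o_sub W (Cardinal.ord_le_ord.2 (nu_mono (d2 i).le 0)) _ (b2 i W hi)) V z hz
        ⟨hV.2 z hz, fun y hy => hV.2 y (hV.1 z hz y hy)⟩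
  refine sw_elim (fun U a => IsOrd U.E a → Q U a) (fun x hx V hV => ?_) U a ha ho
  obtain ⟨η, h1, h2⟩ := key x hx
  exact o_elim _ Q (fun W β k => h β ((sm_ord h1 0).mono
    (Cardinal.lift_le.2 (card_le_card k.le))) W) V _ (h2 V hV)

instance rep_leW (P Q : ∀ U : Ult (RO Cond), U.M → Prop) [∀ z, Rep (fun U => P U (U.cl z))]
    [∀ z, Rep (fun U => Q U (U.cl z))] : Rep (fun U => LeW U.E (SW U) (P U) (Q U)) := by
  unfold LeW; infer_instance

instance rep_cardW (x : Nm (RO Cond)) : Rep (fun U => CardW U.E (SW U) (U.cl x)) := by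
  unfold CardW; infer_instance

instance rep_nxtW (x y : Nm (RO Cond)) : Rep (fun U => NxtW U.E (SW U) (U.cl x) (U.cl y)) := by
  unfold NxtW; infer_instance

instance rep_singW (x : Nm (RO Cond)) : Rep (fun U => SingW U.E (SW U) (U.cl x)) := by
  unfold SingW; infer_instance

theorem hs_gr {ι : Type 1} (hs : s.Finite) (h : Sm #ι) {X Y : ι → Nm (RO Cond)} {v : ι → RO Cond}
    (hX : ∀ i, HS (X i)) (hY : ∀ i, HS (Y i)) (hv : ∃ β, KK β ∧ ∀ i, Lo β (v i))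
    (k : ∀ π ∈ Fix s, ∀ i,
      nmap (sg π) (X i) = X i ∧ nmap (sg π) (Y i) = Y i ∧ sg π (v i) = v i) : HS (grN X Y v) :=
  hs_fix hs h (fun i => (hX i).op (hY i)) hv fun π l i => ⟨by
    simp only [grN, nmap_op, (k π l i).1, (k π l i).2.1, Feq.refl], (k π l i).2.2⟩

theorem hs_lt {δ : Ordinal.{0}} (h : Sm (lc δ.card)) (i : Iio δ) : HS (oN i.1) := by
  have := hs_o h
  rw [oN] at this
  exact this.fn i

theorem Sng.sing {δ : Ordinal.{0}} (h : Sng δ) (hδ : Sm (lc δ.card)) (U : Ult (RO Cond)) :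
    SingW U.E (SW U) (U.cl (oN δ)) := by
  refine Frc.all_dense (Φ := fun U => SingW U.E (SW U) (U.cl (oN δ))) (fun p => ?_) U
  obtain ⟨q, a1, a, a2, s, a3, b, b1, b0, b2, b3, b4⟩ := h p
  let X : Iio a × Iio δ → Nm (RO Cond) := fun i => oN i.1.1
  let Y : Iio a × Iio δ → Nm (RO Cond) := fun i => oN i.2.1
  let v : Iio a × Iio δ → RO Cond := fun i => b i.1.1 i.2.1
  let f := grN X Y v
  have ha := hδ.mono (Cardinal.lift_le.2 (card_le_card a2.le))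
  have hf : HS f := hs_gr a3 (((sm_Iio ha).sum fun _ => sm_Iio hδ).mono (by simp))
    (fun i => hs_lt ha _) (fun i => hs_lt hδ _) (b0.imp fun _ k => ⟨k.1, fun _ => k.2 _ _⟩)
    fun π k i => ⟨nmap_o _ _, nmap_o _ _, b1 _ _ π k⟩
  have h1 : ∀ (V : Ult (RO Cond)) x y, Ap V.E (V.cl f) x y → ∀ x' y', Ap V.E (V.cl f) x' y' →
      (x = x' → y = y') ∧ (V.E x x' → V.E y y') := ap_elim _ _ _ (fun V x y => ∀ x' y',
        Ap V.E (V.cl f) x' y' → (x = x' → y = y') ∧ (V.E x x' → V.E y y')) fun V i k x' y' l =>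
      ap_elim _ _ _ (fun V x' y' => V.P (b i.1.1 i.2.1) → (V.cl (oN i.1.1) = x' →
        V.cl (oN i.2.1) = y') ∧ (V.E (V.cl (oN i.1.1)) x' → V.E (V.cl (oN i.2.1)) y'))
        (fun W j l k => by
          obtain ⟨u, c1, c2⟩ := ult_two k l
          simpa only [X, Y, o_inj, o_mem] using b2 _ _ _ _ u c1 c2) V x' y' l k
  have h2 : ∀ i < a, Frc q fun V => ∃ y, Ap V.E (V.cl f) (V.cl (oN i)) y := fun i k =>
    Frc.of_dense fun u l => let ⟨t, c1, ζ, c2, c3⟩ := b3 i k u l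
      ⟨t, c1, (Frc.iff_val.2 c3).imp fun V o => ⟨_, V.ap_grN X Y v (⟨i, k⟩, ⟨ζ, c2⟩) o⟩⟩
  have h3 : ∀ ξ < δ, Frc q fun V => ∃ x y, Ap V.E (V.cl f) x y ∧ Sub V.E (V.cl (oN ξ)) y :=
    fun ξ k => Frc.of_dense fun u l => let ⟨t, c1, i, c2, ζ, c3, c4, c5⟩ := b4 ξ k u l
      ⟨t, c1, (Frc.iff_val.2 c5).imp fun V o =>
        ⟨_, _, V.ap_grN X Y v (⟨i, c2⟩, ⟨ζ, c3⟩) o, o_sub V c4⟩⟩
  refine ⟨q, a1, fun V k => ⟨V.cl (oN a), V.cl f, hf.sw V, o_intro V a2, ⟨grN_dom _ _ _ _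
    (fun W i _ => o_intro W i.1.2) V, fun x l => ?_, ap_elim _ _ _
      (fun V _ y => V.E y (V.cl (oN δ))) (fun W i _ => o_intro W i.2.2) V⟩,
    fun x x' y y' l o => (h1 V x y l x' y' o).2, fun z l => ?_⟩⟩
  · obtain ⟨y, o⟩ := o_elim a (fun V x => V.P (RO.cd q) → ∃ y, Ap V.E (V.cl f) x y)
      (fun W i o => h2 i o W) V x l k
    exact ⟨y, o, fun y' o' => (h1 V _ _ o' _ _ o).1 rfl⟩
  · exact o_elim δ (fun V z => V.P (RO.cd q) → ∃ x y, Ap V.E (V.cl f) x y ∧ Sub V.E z y)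
      (fun W i o => h3 i o W) V z l k

theorem sng {δ : Ordinal.{0}} (hδ : Sm (lc δ.card)) (h : ω < δ) : Sng δ := by
  rcases (ord_cof_le δ).lt_or_eq with k | k
  · exact sng_of_cof k
  · rw [← k] at h ⊢
    have h0 : ℵ₀ < δ.cof := Cardinal.ord_lt_ord.1 (by simpa using h)
    exact sng_of_reg ⟨h0.le, by rw [k]⟩ h0 (hδ.mono (Cardinal.lift_le.2 (cof_le_card δ)))

theorem Pres.card {μ : Cardinal.{0}} (h : Pres μ) (U : Ult (RO Cond)) :
    CardW U.E (SW U) (U.cl (oN μ.ord)) := by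
  refine ⟨o_ord U _, o_elim _ (fun U y => ¬ LeW U.E (SW U) (fun x => U.E x (U.cl (oN μ.ord)))
    fun x => U.E x y) (fun V α k ⟨f, a, b⟩ => ?_) U⟩
  refine sw_elim (fun V f => ¬ ((∀ x, V.E x (V.cl (oN μ.ord)) → ∃ y, V.E y (V.cl (oN α)) ∧
    Ap V.E f x y) ∧ ∀ x x' y y', Ap V.E f x y → Ap V.E f x' y' → (x = x' ↔ y = y')))
    (fun f hf => Frc.all_contra fun p l => ?_) V f a b
  obtain ⟨s, c1, c2⟩ := hf.supp
  replace l := l.imp fun _ => not_not.1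
  refine h s c1 (Iio α) (mk_Iio_lt k) (fun i a => Nm.mem (opN (oN a) (oN i.1)) f)
    (fun i a π o => by rw [← mem_nmap, nmap_op, nmap_o, nmap_o, (c2 π o).mem]) p
    (fun i a a' e u d1 d2 d3 => ?_) fun a o u d => ?_
  · obtain ⟨W, ⟨e1, e2⟩, e3⟩ := (((Frc.iff_val.2 d2).and (Frc.iff_val.2 d3)).and (l.mono d1)).ex
    exact e ((o_inj W).1 ((e3.2 _ _ _ _ ((W.ap_iff _ _ _).2 e1) ((W.ap_iff _ _ _).2 e2)).2 rfl))
  · obtain ⟨y, e⟩ := Frc.wit (fun V y => V.E y (V.cl (oN α)) ∧ Ap V.E (V.cl f) (V.cl (oN a)) y)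
      ((l.mono d).imp fun W e => e.1 _ (o_intro W o))
    obtain ⟨t, e1, i, -, e2⟩ := Frc.mem (y := setN (Iio α))
      (e.imp fun W e => oN_eq (B := RO Cond) α ▸ e.1)
    exact ⟨t, e1, i, Frc.iff_val.1 ((e2.and (e.mono e1)).imp fun W e =>
      (W.ap_iff (W.cl f) (oN a) (oN i.1)).1 (by have := e.2.2; rwa [e.1] at this))⟩

theorem exists_nxt {μ : Ordinal.{0}} (h : Sm (lc μ.card)) (U : Ult (RO Cond)) (k : U.M)
    (h1 : U.E k (U.cl (oN μ))) (h2 : CardW U.E (SW U) (U.cl (oN μ))) :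
    ∃ l, SW U l ∧ NxtW U.E (SW U) k l ∧ Sub U.E l (U.cl (oN μ)) := by
  obtain ⟨x, rfl⟩ := U.cl_surj k
  induction μ using WellFoundedLT.induction generalizing U with
  | _ μ ih =>
    by_cases e : ∀ c, SW U c → CardW U.E (SW U) c → U.E (U.cl x) c → Sub U.E (U.cl (oN μ)) c
    · exact ⟨_, (hs_o h).sw U, ⟨h2, h1, e⟩, fun _ a => a⟩
    push Not at e
    obtain ⟨c, a1, a2, a3, a4⟩ := e
    refine sw_ord (fun U c => CardW U.E (SW U) c → U.E (U.cl x) c → ¬ Sub U.E (U.cl (oN μ)) c →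
      ∃ l, SW U l ∧ NxtW U.E (SW U) (U.cl x) l ∧ Sub U.E l (U.cl (oN μ)))
      (fun γ b V b1 b2 b3 => ?_) U c a1 a2.1 a2 a3 a4
    rw [o_sub_iff, not_le] at b3
    obtain ⟨l, c1, c2, c3⟩ := ih γ b3 b V b1 b2
    exact ⟨l, c1, c2, fun z o => o_sub V b3.le z (c3 z o)⟩

theorem arr_le {η : Ordinal.{0}} (hη : KK η) (k : ℕ) (U : Ult (RO Cond)) :
    LeW U.E (SW U) (fun x => U.E x (U.cl (oN (nu η k).ord)))
      fun y => Sub U.E y (U.cl (oN (nu η 0).ord)) := by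
  refine Frc.all_dense (Φ := fun U => LeW U.E (SW U) (fun x => U.E x (U.cl (oN (nu η k).ord)))
      fun y => Sub U.E y (U.cl (oN (nu η 0).ord))) (fun p => ?_) U
  obtain ⟨q, a1, s, a2, b, b1, b0, b2⟩ := arr hη (l := (nu η k).ord) (par_ν hη ▸ Par.lt_Ω k) p
  let F : Ordinal.{0} → Nm (RO Cond) := fun β =>
    ⟨Iio (nu η 0).ord, fun ξ => oN ξ.1, fun ξ => b β ξ.1⟩
  let G := grN (fun β : Iio (nu η k).ord => oN β.1) (fun β => F β.1) fun _ => ⊤
  have hG : HS G := hs_gr a2 (sm_Iio (sm_ord hη k)) (hs_lt (sm_ord hη k))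
    (fun β => hs_fix a2 (sm_Iio (sm_ord hη 0)) (hs_lt (sm_ord hη 0))
      ⟨_, hη.succ, fun _ => b0 _ _⟩ fun π l i => ⟨feq_o _ _, b1 _ _ π l⟩) lo_top
    fun π l β => ⟨nmap_o _ _, by simp only [F, nmap, nmap_o, b1 _ _ π l], map_top _⟩
  have h1 : ∀ β (V : Ult (RO Cond)) ξ, V.E (V.cl (oN ξ)) (V.cl (F β)) → V.P (b β ξ) :=
    fun β V ξ l => mem_elim (F β) (fun V z => z = V.cl (oN ξ) → V.P (b β ξ))
      (fun W i o e => (o_inj W).1 e ▸ o) V _ l rfl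
  have h2 : ∀ β < (nu η k).ord, ∀ β' < (nu η k).ord, β ≠ β' →
      Frc q fun V => V.cl (F β) ≠ V.cl (F β') := fun β l β' l' e => Frc.of_dense fun u o =>
    let ⟨t, c1, ξ, c2, c3, c4⟩ := b2 β l β' l' e u o
    ⟨t, c1, ((Frc.iff_val.2 c3).and (Frc.iff_val.2 c4)).imp fun V d e =>
      (V.compl _).1 d.2 (h1 β' V ξ (e ▸ V.E_intro (F β) ⟨ξ, c2⟩ d.1))⟩
  refine ⟨q, a1, fun V l => ⟨V.cl G, hG.sw V, o_elim _ (fun V x => ∃ y,
    Sub V.E y (V.cl (oN (nu η 0).ord)) ∧ Ap V.E (V.cl G) x y) (fun W β o => ⟨_, mem_elim (F β)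
      (fun V z => V.E z (V.cl (oN (nu η 0).ord))) (fun Y i _ => o_intro Y i.2) W,
      W.ap_grN _ _ _ (⟨β, o⟩ : Iio (nu η k).ord) W.top⟩) V, fun x x' y y' c d => ?_⟩⟩
  refine ap_elim _ _ _ (fun V x y => V.P (RO.cd q) → ∀ x' y', Ap V.E (V.cl G) x' y' →
    (x = x' ↔ y = y')) (fun W i _ l x' y' d => ?_) V x y c l x' y' d
  refine ap_elim _ _ _ (fun V x' y' => V.P (RO.cd q) →
    (V.cl (oN i.1) = x' ↔ V.cl (F i.1) = y')) (fun Y j _ l => ?_) W x' y' d l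
  rw [o_inj]
  exact ⟨fun e => e ▸ rfl, fun e => not_not.1 fun o => h2 _ i.2 _ j.2 o Y l e⟩

theorem fails {δ : Ordinal.{0}} (hδ : Sm (lc δ.card)) (h : ω ≤ δ) (U : Ult (RO Cond)) :
    ∃ l, SW U l ∧ ∃ m, SW U m ∧ NxtW U.E (SW U) (U.cl (oN δ)) l ∧ NxtW U.E (SW U) l m ∧
      LeW U.E (SW U) (fun x => U.E x m) fun y => Sub U.E y (U.cl (oN δ)) := by
  obtain ⟨η, hη, k, a1, a2⟩ := sm_lev hδ (aleph0_le_card.2 h)
  have hc : ∀ j, CardW U.E (SW U) (U.cl (oN (nu η (j + 2)).ord)) := fun j =>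
    Pres.card (fun s hs ι hι => pres hη (by omega) hs hι) U
  obtain ⟨l, b1, b2, b3⟩ := exists_nxt (sm_ord hη _) U _
    (o_intro U (lt_ord.2 (a2.trans (nu_lt_succ _ _)))) (hc k)
  obtain ⟨x, rfl⟩ := U.cl_surj l
  obtain ⟨m, c1, c2, c3⟩ := exists_nxt (sm_ord hη _) U _ (o_sub U (Order.add_one_le_of_lt
    (Cardinal.ord_lt_ord.2 (nu_lt_succ _ _))) _ (ord_mem_of_sub U x _ b2.1.1 b3)) (hc (k + 1))
  obtain ⟨f, d1, d2, d3⟩ := arr_le hη (k + 1 + 2) U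
  exact ⟨_, b1, m, c1, b2, c2, f, d1, fun z o => (d2 z (c3 z o)).imp fun y e => ⟨fun t g => o_sub U
    (Cardinal.ord_le.2 (((nu_strict η).monotone k.zero_le).trans a1)) t (e.1 t g), e.2⟩, d3⟩

theorem main : ∃ (M : Type 2) (E : M → M → Prop), ZF E ∧
    (∀ w k, Om E w → Card E k → E w k → Sing E k) ∧ ∀ w k, Om E w → InfCard E w k →
      ∃ l m, Nxt E k l ∧ Nxt E l m ∧ Le E (fun x => E x m) fun y => Sub E y k := by
  obtain ⟨U, -⟩ := Frc.exists_ult (top : Cond)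
  have h := sw_tr U
  refine ⟨_, EW U.E (SW U), sw_zf U, fun w k a b c => h.sing (sw_ord (fun U k =>
    U.E (U.cl (oN ω)) k → SingW U.E (SW U) k) (fun β d V e => (sng d ((o_mem V).1 e)).sing d V)
    U k.1 k.2 (h.ord_iff.1 b.1) (om_eq U (h.om_iff a) ▸ c)), fun w k a b => ?_⟩
  obtain ⟨l, c1, m, c2, c3, c4, c5⟩ := sw_ord (fun U k => Sub U.E (U.cl (oN ω)) k → ∃ l, SW U l ∧
    ∃ m, SW U m ∧ NxtW U.E (SW U) k l ∧ NxtW U.E (SW U) l m ∧
      LeW U.E (SW U) (fun x => U.E x m) fun y => Sub U.E y k)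
    (fun β d V e => fails d ((o_sub_iff V).1 e) V) U k.1 k.2 (h.ord_iff.1 b.1.1)
    (om_eq U (h.om_iff a) ▸ h.sub_iff.1 b.2)
  exact ⟨⟨l, c1⟩, ⟨m, c2⟩, h.nxt c3, h.nxt c4, le_mono ((h.le_iff (X := ⟨m, c2⟩)).2 c5)
    (fun _ e => e) fun _ => h.sub_iff.2⟩

end Pool.Agent.SC7292
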