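import Pool.Agent.SC7292.Glob

/-!
Amalgamation of conditions and the projection to the shape of a weaker condition.
-/

namespace Pool.Agent.SC7292

open Cardinal Ordinal Set Function Pool.Agent.MP_7b2404_lc

theorem exists_emb {n m : ℕ} (e : Fin n ↪o ℝ) (e1 : Fin m ↪o ℝ) (h : ∀ c, ∃ d, e d = e1 c) :
    ∃ p : Fin m ↪o Fin n, ∀ c, e (p c) = e1 c := by
  choose p hp using h
  exact ⟨OrderEmbedding.ofMapLEIff p fun a b => by rw [← e.le_iff_le, hp, hp, e1.le_iff_le], hp⟩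

theorem Par.mk_inp (P : Par) {C : Type} [Countable C] (ty : C → Ty) :
    #{A : C × ℕ → Ordinal.{0} | ∀ m, P.Inp (ty m.1) m.2 (A m)} < lc (P.sc 0) := by
  by_cases k : ω < P.ρ
  · obtain ⟨c, a, b, d⟩ := P.ρ_reg k
    refine lt_of_le_of_lt (mk_le_of_injective (f := fun f i => (⟨f.1 i, (f.2 i).1⟩ : Iio P.ρ))
      fun a b e => Subtype.ext (funext fun i => congrArg Subtype.val (congrFun e i))) ?_
    rw [mk_arrow, Cardinal.lift_uzero, b, mk_Iio_ord, ← lift_power, Cardinal.lift_lt]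
    refine lt_of_le_of_lt ?_ (d 0)
    exact ((power_le_power_left a.pos.ne' (mk_le_aleph0.trans a.aleph0_le)).trans
      (power_self_eq a.aleph0_le).le)
  · refine lt_of_le_of_lt (le_one_iff_subsingleton.2 ⟨fun a b => Subtype.ext (funext fun m =>
      ((a.2 m).2 fun e => k e.2).trans ((b.2 m).2 fun e => k e.2).symm)⟩) ?_
    exact one_lt_aleph0.trans_le (aleph0_le_lift.2 (P.sc_reg 0).aleph0_le)

variable [Hyp] {η β : Ordinal.{0}} {s0 s1 s2 : Shape} {w1 w2 : BC}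

theorem exists_shape (h0 : SOK η s0) (h1 : SOK η s1) (h2 : SOK η s2) {q1 q2} (a1 : SLe η s1 s0 q1)
    (a2 : SLe η s2 s0 q2) (hd : ∀ c1 c2, s1.e c1 = s2.e c2 → ∃ c0, s0.e c0 = s1.e c1) :
    ∃ s p1 p2, SOK η s ∧ SLe η s s1 p1 ∧ SLe η s s2 p2 ∧
      (∀ c, (∃ c1, p1 c1 = c) ∨ ∃ c2, p2 c2 = c) ∧
      ∀ c1 c2, p1 c1 = p2 c2 → ∃ c0, q1 c0 = c1 ∧ q2 c0 = c2 := by
  classical
  let F : Finset ℝ := Finset.univ.image s1.e ∪ Finset.univ.image s2.e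
  let e := F.orderEmbOfFin rfl
  have he : ∀ r, r ∈ range e ↔ r ∈ range s1.e ∨ r ∈ range s2.e := fun r => by
    simp [e, F]
  obtain ⟨p1, b1⟩ := exists_emb e s1.e fun c => (he _).2 (Or.inl ⟨c, rfl⟩)
  obtain ⟨p2, b2⟩ := exists_emb e s2.e fun c => (he _).2 (Or.inr ⟨c, rfl⟩)
  have b3 : ∀ c, (∃ c1, p1 c1 = c) ∨ ∃ c2, p2 c2 = c := fun c => ((he _).1 ⟨c, rfl⟩).imp
    (Exists.imp fun d k => e.injective ((b1 d).trans k))
    (Exists.imp fun d k => e.injective ((b2 d).trans k))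
  have b4 : ∀ c1 c2, p1 c1 = p2 c2 → ∃ c0, q1 c0 = c1 ∧ q2 c0 = c2 := fun c1 c2 k =>
    have l := (b1 c1).symm.trans ((congrArg e k).trans (b2 c2))
    (hd c1 c2 l).imp fun c0 d => ⟨s1.e.injective ((a1.e c0).trans d),
      s2.e.injective ((a2.e c0).trans (d.trans l))⟩
  have : ∀ c, ∃ x : Ty × Ordinal.{0} × ℝ, (∀ c1, p1 c1 = c → x = (s1.ty c1, s1.clk c1)) ∧
      ∀ c2, p2 c2 = c → x = (s2.ty c2, s2.clk c2) := by
    intro c
    have key : ∀ c1 c2, p1 c1 = p2 c2 → (s1.ty c1, s1.clk c1) = (s2.ty c2, s2.clk c2) := by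
      intro c1 c2 k
      obtain ⟨c0, rfl, rfl⟩ := b4 _ _ k
      rw [a1.ty, a2.ty, a1.clk, a2.clk]
    rcases b3 c with ⟨d, rfl⟩ | ⟨d, rfl⟩
    · exact ⟨_, fun c1 k => p1.injective k ▸ rfl, fun c2 k => key _ _ k.symm⟩
    · exact ⟨_, fun c1 k => (key _ _ k).symm, fun c2 k => p2.injective k ▸ rfl⟩
  choose x x1 x2 using this
  have t1 : ∀ c, (x (p1 c)).1 = s1.ty c := fun c => by rw [x1 _ c rfl]
  have t2 : ∀ c, (x (p2 c)).1 = s2.ty c := fun c => by rw [x2 _ c rfl]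
  have k1 : ∀ c, (x (p1 c)).2 = s1.clk c := fun c => by rw [x1 _ c rfl]
  have k2 : ∀ c, (x (p2 c)).2 = s2.clk c := fun c => by rw [x2 _ c rfl]
  have hT : ∀ c, (par η).TyOK (x c).1 := fun c => by
    rcases b3 c with ⟨d, rfl⟩ | ⟨d, rfl⟩
    exacts [t1 d ▸ h1.ty d, t2 d ▸ h2.ty d]
  obtain ⟨Φ, d1, d2, d3⟩ := Par.exists_phi hT t1 t2 a1.ty a2.ty (RelEmbedding.ext fun c =>
    e.injective ((b1 _).trans ((a1.e c).trans ((b2 _).trans (a2.e c)).symm))) b4 h0.phi h1.phi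
    h2.phi a1.cmp a2.cmp
  refine ⟨⟨_, e, fun c => (x c).1, fun c => (x c).2, Φ⟩, p1, p2, ⟨hT, d1, fun c => ?_⟩,
    ⟨b1, t1, k1, d2⟩, ⟨b2, t2, k2, d3⟩, b3, b4⟩
  rcases b3 c with ⟨d, rfl⟩ | ⟨d, rfl⟩
  · simpa only [t1, k1, b1] using h1.clk d
  · simpa only [t2, k2, b2] using h2.clk d

theorem exists_block (h0 : SOK η s0) (h1 : BOK η w1) (h2 : BOK η w2) {q1 q2}
    (a1 : SLe η w1.sh s0 q1) (a2 : SLe η w2.sh s0 q2)
    (hd : ∀ c1 c2, w1.sh.e c1 = w2.sh.e c2 → ∃ c0, s0.e c0 = w1.sh.e c1) {τ1 τ2} (b1 : τ1 ∈ w1.T)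
    (b2 : τ2 ∈ w2.T) (e : hmap q1 τ1.1 = hmap q2 τ2.1) {f g} (hg : g ∈ (par η).Q s0.ty f)
    (d1 : lpre q1 τ1.2 ≤ g) (d2 : lpre q2 τ2.2 ≤ g) :
    ∃ w, BOK η w ∧ BLe η w w1 ∧ BLe η w w2 ∧ w.rt.2.1 ⊆ g.1 ∧
      ∀ p, (∀ d, Cons1 p η w1.sh τ1.1 d) →
      (∀ d, Cons1 p η w2.sh τ2.1 d) → ∀ d, Cons1 p η w.sh w.rt.1 d := by
  obtain ⟨s, p1, p2, c1, c2, c3, c4, c5⟩ := exists_shape h0 h1.toSOK h2.toSOK a1 a2 hd
  by_cases n : s.n = 0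
  · refine ⟨triv η, triv_ok η, ?_, ?_, empty_subset _, fun _ _ _ d => d.elim0⟩
    · rw [h1.nz (not_not.1 fun k => c2.ne k n)]
      exact BLe.refl (triv_ok η)
    · rw [h2.nz (not_not.1 fun k => c3.ne k n)]
      exact BLe.refl (triv_ok η)
  obtain ⟨σ, e1, e2, e3, e4, e5, e6⟩ := Par.exists_state c2.ty c3.ty c5 c4 (h1.cl.1 _ b1).1
    (h2.cl.1 _ b2).1 e hg d1 d2
  refine ⟨_, BOK.cut c1 n ((h1.cl.pre c2.ty c1.phi c2.cmp).inter c1.phi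
    (h2.cl.pre c3.ty c1.phi c3.cmp)) (σ := σ) ⟨⟨e1, ?_⟩, e1, ?_⟩, ⟨p1, c2, fun _ k => k.1.1.2⟩,
    ⟨p2, c3, fun _ k => k.1.2.2⟩, e6.subset, fun p k1 k2 d => ?_⟩
  · have := (h1.cl.1 _ b1).2 _ (e2 ▸ (e1.proj c2.ty).2) e4
    rwa [← e2] at this
  · have := (h2.cl.1 _ b2).2 _ (e3 ▸ (e1.proj c3.ty).2) e5
    rwa [← e3] at this
  · rcases c4 d with ⟨d, rfl⟩ | ⟨d, rfl⟩
    exacts [(Cons1.proj c2).1 (e2 ▸ k1 d), (Cons1.proj c3).1 (e3 ▸ k2 d)]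

theorem flat_block {w : BC} (h0 : BOK η w) (h1 : BOK η w1) {j} (a : SLe η w1.sh w.sh j)
    (b : ∀ σ ∈ w1.T, proj j σ ∈ w.T) : ∃ T ⊆ w.T, ∃ L, BOK η ⟨w.sh, T, hmap j w1.rt.1, L⟩ ∧
      L.1 ⊆ w1.rt.2.1 ∧ ∀ h, ∃ M, ∀ g0, (h, g0) ∈ T → w1.rt.2.1 ⊆ g0.1 →
        ∀ A : Fin w1.sh.n × ℕ → Ordinal.{0},
        (∀ m, (par η).Inp (w1.sh.ty m.1) m.2 (A m)) → ∃ τ ∈ w1.T, ∃ g ∈ (par η).Q w.sh.ty h.len,
        g0 ≤ g ∧ hmap j τ.1 = h ∧ lpre j τ.2 ≤ g ∧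
        ∀ c, (∀ d, j d ≠ c) → Fol1 A M w1.rt.1 τ.1 c := by
  by_cases n : w.sh.n = 0
  · obtain rfl := h0.nz n
    refine ⟨_, subset_rfl, (∅, ∅), ?_, empty_subset _, fun h => ⟨0, fun g0 k l A _ =>
      ⟨_, h1.cl.1.up h1.rt k.2.1 l, g0, k.2, le_rfl, hist_zero _ _,
        ⟨subset_rfl, fun x _ => x.2.1.1.elim0⟩, fun c _ => (Fol.refl _ _ _).one c⟩⟩⟩
    rw [show hmap j w1.rt.1 = (st0 _).1 from hist_zero _ _]
    exact h0
  let I : (Fin w1.sh.n × ℕ → Ordinal.{0}) → Hist (Fin w1.sh.n) → Prop := fun A h =>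
    HExt w1.rt.1 h ∧ ∀ c, (∀ d, j d ≠ c) → (h.len c ≤ w1.rt.1.len c ∨ ∃ d, h.len c ≤ h.len (j d) + 1) ∧
      ∀ i, w1.rt.1.len c ≤ i → i < h.len c → h.inp (c, i) = A (c, i)
  have hc := Par.closed_iInter h0.phi Par.zero_lt_ρ ((par η).mk_inp w1.sh.ty) (fun A =>
    h1.cl.lift a.ty h0.phi h1.phi a.cmp A.2 (I A.1) (fun h c x z k =>
      ⟨k.1.trans (HExt.step _ _ _ _), fun c' e => by
        have := k.2 c' e
        simp only [Hist.step, update_of_ne (e c).symm, ne_eq, Prod.mk.injEq, (e c).symm, false_and,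
          not_false_eq_true, update_of_ne]
        exact ⟨this.1.imp_right (Exists.imp fun d l => l.trans
          (Nat.succ_le_succ (update_ge _ _ _))), this.2⟩⟩)
      fun h c d z k o l => ⟨k.1.trans (HExt.step _ _ _ _), fun c' e => by
        have := k.2 c' e
        simp only [Hist.step, update_of_ne (o _)]
        rcases eq_or_ne c' c with rfl | n
        · refine ⟨Or.inr ⟨d, by simpa using l⟩, fun i i1 i2 => ?_⟩
          rcases eq_or_ne i (h.len c') with rfl | n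
          · simp
          · rw [update_of_ne (by simpa using n)]
            exact this.2 i i1 (lt_of_le_of_ne (by simpa [Nat.lt_succ_iff] using i2) n)
        · simpa [n] using this⟩) fun _ => Par.reg_reg
  have v := h1.val.proj a.ty
  refine ⟨_, fun _ k => k.1.2, _, BOK.cut h0.toSOK n (hc.inter h0.phi h0.cl)
    (σ := proj j w1.rt) ⟨⟨⟨v, fun _ _ => zero_le⟩,
    fun A => Par.mem_reg.2 ⟨v, Dn.of fun g _ g2 => ⟨_, h1.rt, ⟨HExt.refl _, fun c _ =>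
      ⟨Or.inl le_rfl, fun i x y => (y.not_ge x).elim⟩⟩, rfl, g2⟩⟩⟩, b _ h1.rt⟩, subset_rfl,
      fun h => ?_⟩
  obtain ⟨M, hM⟩ := (finite_range h.len).bddAbove
  refine ⟨M + 1, fun g0 k _ A hA => ?_⟩
  obtain ⟨g, g1, g2, τ, c1, c2, c3, c4⟩ := (Par.mem_reg.1 (k.1.1.2 ⟨A, hA⟩)).2 _ k.2.1.2 le_rfl
  refine ⟨τ, c1, g, g1, g2, c3, c4, fun c o => ⟨(c2.2 c o).1.imp_right fun ⟨d, l⟩ => l.trans
    (Nat.succ_le_succ (hM ⟨d, ?_⟩)), fun i l => (c2.1.2 (c, i) l).1, (c2.2 c o).2⟩⟩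
  exact (congrFun (congrArg Hist.len c3) d).symm

variable {p t m u v : Cond}

theorem glue {t t' : Cond} (e0 : t.q ⊆ t'.q) (h : ∀ a, KK a → ∀ v : Cond, t'.q ⊆ v.q →
    LB a v t → LB a v t' → ∃ u ≤ v, (∀ ζ, a ≤ ζ → u.b ζ = v.b ζ) ∧ ∃ w, BOK a w ∧
      BLe a w (t.b a) ∧ BLe a w (t'.b a) ∧ w.rt.2.1 ⊆ u.q ∧ ∀ d, Cons1 u.b a w.sh w.rt.1 d) :
    ∃ v ≤ t, v ≤ t' := by
  have key : ∀ S : Finset Ordinal.{0}, (∀ ζ ∈ S, KK ζ) → ∀ η,
      (∀ ζ < η, ζ ∉ S → t.b ζ = triv ζ ∧ t'.b ζ = triv ζ) → ∃ v : Cond, t'.q ⊆ v.q ∧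
      LB η v t ∧ LB η v t' ∧ ∀ ζ, η ≤ ζ → v.b ζ = triv ζ := by
    intro S
    induction S using Finset.induction_on_max with
    | empty => exact fun _ η k => ⟨top.setq t'.pp (empty_subset _), subset_rfl,
        fun ζ l => (k ζ l (by simp)).1 ▸ le_triv (triv_ok ζ),
        fun ζ l => (k ζ l (by simp)).2 ▸ le_triv (triv_ok ζ), fun _ _ => rfl⟩
    | insert a S hS ih =>
      intro hK η k
      have ih := ih fun ζ l => hK ζ (Finset.mem_insert_of_mem l)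
      rcases le_or_gt η a with l | l
      · exact ih η fun ζ x y => k ζ x (by simp [y, (x.trans_le l).ne])
      obtain ⟨v, a0, a1, a2, a3⟩ := ih a fun ζ x y => k ζ (x.trans l) (by simp [y, x.ne])
      have ha := hK a (Finset.mem_insert_self _ _)
      obtain ⟨u, b1, b2, w, b3, b4, b5, b0, b6⟩ := h a ha v a0 a1 a2
      obtain ⟨z, c1, -, c2, c3⟩ := exists_upd u (fun _ => ha) b3 b6
        (((b2 a le_rfl).trans (a3 a le_rfl)).symm ▸ le_triv b3) u.pp subset_rfl b0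
      have d : ∀ t0 : Cond, LB a v t0 → BLe a w (t0.b a) → (∀ ζ < η, a < ζ → t0.b ζ = triv ζ) →
          LB η z t0 := fun t0 x y e ζ f => by
        rcases lt_trichotomy ζ a with g | rfl | g
        · exact ((LB.of_le (c1.trans b1)).trans x) ζ g
        · exact c2 ▸ y
        · exact e ζ f g ▸ le_triv (z.ok ζ)
      have e : ∀ ζ < η, a < ζ → t.b ζ = triv ζ ∧ t'.b ζ = triv ζ := fun ζ x y => k ζ x fun f =>
        (Finset.mem_insert.1 f).elim y.ne' fun f => (hS _ f).not_gt y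
      exact ⟨z, a0.trans (c1.trans b1).1, d t a1 b4 fun ζ x y => (e ζ x y).1,
        d t' a2 b5 fun ζ x y => (e ζ x y).2,
        fun ζ x => (c3 ζ (l.trans_le x).ne').trans ((b2 ζ (l.le.trans x)).trans
          (a3 ζ (l.le.trans x)))⟩
  have hf := t.fin.union t'.fin
  obtain ⟨η, hη⟩ := hf.bddAbove
  obtain ⟨v, a0, a1, a2, -⟩ := key hf.toFinset (fun ζ k => (hf.mem_toFinset.1 k).elim (t.kk ζ)
    (t'.kk ζ)) (η + 1) fun ζ _ k => by simpa using k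
  have e : ∀ ζ, η + 1 ≤ ζ → t.b ζ = triv ζ ∧ t'.b ζ = triv ζ := fun ζ k => by
    simpa using fun l : ζ ∈ _ => (hη l).not_gt (Order.add_one_le_iff.1 k)
  exact ⟨v, a1.le ⟨e0.trans a0, fun ζ k => (e ζ k).1 ▸ le_triv (v.ok ζ)⟩,
    a2.le ⟨a0, fun ζ k => (e ζ k).2 ▸ le_triv (v.ok ζ)⟩⟩

theorem exists_flat (h : t ≤ m) (β : Ordinal.{0}) : ∃ u ≤ m, u.q = t.q ∧ Ex β m u ∧
    (∀ ζ < β, u.b ζ = t.b ζ) ∧
    ∀ t' ≤ u, (∀ ζ, β ≤ ζ → ∀ c c', (t.b ζ).sh.e c = (t'.b ζ).sh.e c' →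
      ∃ c0, (m.b ζ).sh.e c0 = (t.b ζ).sh.e c) → ∃ v ≤ t, v ≤ t' := by
  classical
  choose j j1 j2 using h.2
  choose T T1 L T2 T0 T3 using fun ζ => flat_block (m.ok ζ) (t.ok ζ) (j1 ζ) (j2 ζ)
  let b : Ordinal.{0} → BC := fun ζ =>
    if ζ < β then t.b ζ else ⟨(m.b ζ).sh, T ζ, hmap (j ζ) (t.b ζ).rt.1, L ζ⟩
  have h1 : ∀ ζ < β, b ζ = t.b ζ := fun ζ k => if_pos k
  have h2 : ∀ ζ, β ≤ ζ → b ζ = ⟨(m.b ζ).sh, T ζ, hmap (j ζ) (t.b ζ).rt.1, L ζ⟩ :=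
    fun ζ k => if_neg k.not_gt
  have h3 : ∀ ζ, BOK ζ (b ζ) := fun ζ => (lt_or_ge ζ β).elim (fun k => h1 ζ k ▸ t.ok ζ)
    fun k => h2 ζ k ▸ T2 ζ
  have h4 : ∀ ζ, b ζ ≠ triv ζ → t.b ζ ≠ triv ζ ∨ m.b ζ ≠ triv ζ := fun ζ k =>
    (lt_or_ge ζ β).imp (fun l => h1 ζ l ▸ k) fun l e => k (eq_triv (h3 ζ) (by rw [h2 ζ l, ← e]))
  have h5 : ∀ ζ d, Cons1 b ζ (b ζ).sh (b ζ).rt.1 d := by
    intro ζ
    rcases lt_or_ge ζ β with k | k
    · exact t.cons_of h3 (h1 ζ k) fun ξ l => by rw [h1 ξ (l.trans k)]; exact BLe.refl (t.ok ξ)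
    rw [h2 ζ k]
    intro d c
    obtain ⟨a0, c1, a1, a2, a3, a4⟩ := (Cons1.proj (j1 ζ)).2 (t.cons ζ _) c
    obtain ⟨-, c0, a5, -⟩ := m.cons ζ d c
    refine ⟨a0, ?_⟩
    rcases lt_or_ge ((m.b ζ).sh.clk d).1 β with l | l
    · exact h1 _ l ▸ ⟨c1, a1, a2, a3, a4⟩
    · obtain rfl : j _ c0 = c1 := (t.b _).sh.e.injective (((j1 _).e c0).trans (a5.trans a1.symm))
      rw [h2 _ l]
      exact ⟨c0, a5, (j1 _).ty c0 ▸ a2, (j1 _).ty c0 ▸ a3, a4⟩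
  have h6 : ∀ ζ, (b ζ).rt.2.1 ⊆ t.q := fun ζ => (lt_or_ge ζ β).elim (fun k => h1 ζ k ▸ t.sub ζ)
    fun k => h2 ζ k ▸ (T0 ζ).trans (t.sub ζ)
  refine ⟨⟨t.q, b, t.pp, h3, (t.fin.union m.fin).subset h4,
    fun ζ k => (h4 ζ k).elim (t.kk ζ) (m.kk ζ), h5, h6⟩, ⟨h.1, fun ζ => ?_⟩, rfl,
    fun ζ k => (congrArg BC.sh (h2 ζ k) :), h1,
    fun t' ht hd => glue ht.1 fun a ha v a0 a1 a2 => ?_⟩
  · change BLe ζ (b ζ) _
    rcases lt_or_ge ζ β with k | k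
    · exact (h1 ζ k).symm ▸ h.2 ζ
    · exact (h2 ζ k).symm ▸ BLe.of_sub (m.ok ζ).toSOK (T1 ζ)
  have k0 : BLe a (t'.b a) (b a) := ht.2 a
  rcases lt_or_ge a β with k | k
  · exact ⟨v, le_rfl, fun _ _ => rfl, _, t'.ok a, h1 a k ▸ k0, BLe.refl (t'.ok a),
      (t'.sub a).trans a0, fun d => (t'.cons a d).mono a2⟩
  rw [h2 a k] at k0
  obtain ⟨q, q1, q2⟩ := k0
  obtain ⟨M, hM⟩ := T3 a (hmap q (t'.b a).rt.1)
  obtain ⟨u, b1, -, b2, b3⟩ := adv v a M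
  obtain ⟨A, c1, c2⟩ := exists_inp (fun d => (t.cons a d).mono ((LB.of_le b1).trans a1)) b3
  have b4 : t'.q ⊆ u.q := a0.trans b1.1
  have b5 := (t'.ok a).eff u.pp ((t'.sub a).trans b4)
  obtain ⟨τ, d1, g, d2, d3, d4, d5, d6⟩ := hM (proj q (eff a u.q (t'.b a).rt)).2 (q2 _ b5)
    (PV.sub_res (t.ok a).val.2.1 ((t.sub a).trans (ht.1.trans b4))) A c1
  obtain ⟨w, e1, e2, e3, e0, e4⟩ := exists_block (m.ok a).toSOK (t.ok a) (t'.ok a) (j1 a) q1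
    (hd a k) d1 b5 d4 d2 d5 d3
  have f := fun d => (t'.cons a d).mono ((LB.of_le b1).trans a2)
  refine ⟨u.setq (u.amal ha d2.1 d3.1) subset_union_right, (u.setq_le _ _).trans b1, b2, w, e1, e2,
    e3, e0.trans subset_union_left, e4 _ (fun d => ?_) f⟩
  by_cases o : ∃ d0, j a d0 = d
  · obtain ⟨d, rfl⟩ := o
    refine (Cons1.proj (j1 a)).1 ?_
    rw [d4]
    exact (Cons1.proj q1).2 (f _)
  · exact c2 _ d (d6 d fun d0 e => o ⟨d0, e⟩)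

end Pool.Agent.SC7292

/-!
The group of relabellings, homogeneity, adding coordinates.
-/

namespace Pool.Agent.SC7292

open Cardinal Ordinal Set Function Filter Pool.Agent.MP_7b2404_lc Pool.Agent.Lib.ForcingU

theorem exists_iso {F X Y : Set ℝ} (hF : F.Finite) (hX : X.Finite) (hY : Y.Finite) :
    ∃ φ : ℝ ≃o ℝ, (∀ x ∈ F, φ x = x) ∧ ∀ x ∈ X, φ x ∈ Y → x ∈ F := by
  obtain ⟨z, hz⟩ := hX.exists_notMem
  let d : ℝ → ℝ := fun x => min 1 (Metric.infDist x (insert z F))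
  have hd : ∀ x y, x ≤ y → d x ≤ d y + (y - x) := fun x y h => by
    have := Metric.infDist_le_infDist_add_dist (x := x) (y := y) (s := insert z F)
    rw [Real.dist_eq, abs_sub_comm, abs_of_nonneg (sub_nonneg.2 h)] at this
    simp only [d, min_def]
    split_ifs <;> linarith
  have h0 : ∀ x, 0 ≤ d x := fun x => le_min zero_le_one Metric.infDist_nonneg
  obtain ⟨t, ht, ht'⟩ := (Ioo_infinite (zero_lt_one' ℝ)).exists_notMem_finite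
    ((hX.prod hY).image fun s => (s.2 - s.1) / d s.1)
  have hm : StrictMono fun x => x + t * d x := fun x y h => by
    have := mul_le_mul_of_nonneg_left (hd x y h.le) ht.1.le
    nlinarith [ht.2]
  have hc : Continuous fun x => x + t * d x := continuous_id.add (continuous_const.mul
    (continuous_const.min (Metric.continuous_infDist_pt _)))
  refine ⟨hm.orderIsoOfSurjective _ (hc.surjective (tendsto_atTop_mono (fun x =>
    le_add_of_nonneg_right (mul_nonneg ht.1.le (h0 x))) tendsto_id) (tendsto_atBot_mono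
    (fun x => add_le_add_right (mul_le_of_le_one_right ht.1.le (min_le_left _ _)) x)
    (tendsto_atBot_add_const_right _ _ tendsto_id))), fun x hx => ?_, fun x hx k => ?_⟩
  · simp [d, Metric.infDist_zero_of_mem (mem_insert_of_mem z hx)]
  · by_contra hc
    have : 0 < d x := lt_min zero_lt_one (((hF.insert z).isClosed.notMem_iff_infDist_pos
      (insert_nonempty _ _)).1 (by rintro (rfl | e); exacts [hz hx, hc e]))
    exact ht' ⟨(x, _), ⟨hx, k⟩, by simp [this.ne']⟩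

/-- The group of relabellings. -/
abbrev GG : Type 1 := Ordinal.{0} → (ℝ ≃o ℝ)

/-- The action on coordinates. -/
def cact (π : GG) (x : Ordinal.{0} × ℝ) : Ordinal.{0} × ℝ := (x.1, π x.1 x.2)

/-- Pointwise stabilisers. -/
def Fix (s : Set (Ordinal.{0} × ℝ)) : Subgroup GG where
  carrier := {π | ∀ x ∈ s, π x.1 x.2 = x.2}
  mul_mem' a b x hx := (congrArg _ (b x hx)).trans (a x hx)
  one_mem' _ _ := rfl
  inv_mem' {π} a x hx := (π x.1).symm_apply_eq.2 (a x hx).symm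

theorem exists_perm {F X Y : Set (Ordinal.{0} × ℝ)} (hF : F.Finite) (hX : X.Finite)
    (hY : Y.Finite) (β : Ordinal.{0}) : ∃ π ∈ Fix F, (∀ ζ < β, π ζ = 1) ∧
      ∀ x ∈ X, β ≤ x.1 → cact π x ∈ Y → x ∈ F := by
  classical
  have h : ∀ {S : Set (Ordinal.{0} × ℝ)}, S.Finite → ∀ ζ, (Prod.mk ζ ⁻¹' S).Finite :=
    fun h ζ => h.preimage (Prod.mk_right_injective ζ).injOn
  choose φ a b using fun ζ => exists_iso (h hF ζ) (h hX ζ) (h hY ζ)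
  refine ⟨fun ζ => if ζ < β then 1 else φ ζ, fun x hx => ?_, fun ζ k => if_pos k,
    fun x hx k l => b x.1 x.2 hx ?_⟩
  · dsimp only
    split_ifs
    exacts [rfl, a x.1 x.2 hx]
  · simpa [cact, k.not_gt] using l

/-- Actions on a preorder act on its regular lower sets. -/
def roAct {G P : Type*} [Group G] [Preorder P] [MulAction G P]
    (h : ∀ (g : G) (p q : P), p ≤ q → g • p ≤ g • q) : G →* (RO P ≃o RO P) :=
  let f : G → RO P → RO P := fun g b => ⟨{p | g⁻¹ • p ∈ b.s}, fun k l => b.lower (h _ _ _ k) l,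
    fun p k => b.reg _ fun q l => by
      obtain ⟨r, a1, a2⟩ := k (g • q) (by simpa using h g _ _ l)
      exact ⟨_, by simpa using h g⁻¹ _ _ a1, a2⟩⟩
  { toFun := fun g => ⟨⟨f g, f g⁻¹, fun b => RO.ext (by simp [f]), fun b => RO.ext (by simp [f])⟩,
      fun {a b} => ⟨fun k p l => by
        simpa [f] using @k (g • p) (by simpa [f] using l), fun k p l => k l⟩⟩
    map_one' := RelIso.ext fun b => RO.ext (by simp [f])
    map_mul' := fun g g' => RelIso.ext fun b => RO.ext (by simp [f, mul_smul]) }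

/-- Relabelling of shapes. -/
def Shape.act (π : GG) (η : Ordinal.{0}) (s : Shape) : Shape :=
  ⟨s.n, s.e.trans (π η).toOrderEmbedding, s.ty, fun c => cact π (s.clk c), s.Φ⟩

/-- Relabelling of block conditions. -/
def BC.act (π : GG) (η : Ordinal.{0}) (w : BC) : BC := ⟨w.sh.act π η, w.T, w.rt⟩

theorem BC.act_eq {π : GG} {η : Ordinal.{0}} {w : BC} (h1 : ∀ c, π η (w.sh.e c) = w.sh.e c)
    (h2 : ∀ c, cact π (w.sh.clk c) = w.sh.clk c) : w.act π η = w := by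
  obtain ⟨⟨n, e, ty, clk, Φ⟩, T, σ⟩ := w
  have a : e.trans (π η).toOrderEmbedding = e := RelEmbedding.ext h1
  have b : (fun c => cact π (clk c)) = clk := funext h2
  exact congrArg₂ (fun e clk => (⟨⟨n, e, ty, clk, Φ⟩, T, σ⟩ : BC)) a b

variable [Hyp] {η β : Ordinal.{0}} {p q t m u v : Cond}

theorem act_triv (π : GG) (η : Ordinal.{0}) : (triv η).act π η = triv η :=
  BC.act_eq (fun c => c.elim0) fun c => c.elim0

theorem BLe.act (π : GG) {w w' : BC} (h : BLe η w' w) : BLe η (w'.act π η) (w.act π η) :=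
  let ⟨j, a, b⟩ := h
  ⟨j, ⟨fun c => congrArg (π η) (a.e c), a.ty, fun c => congrArg (cact π) (a.clk c), a.cmp⟩, b⟩

instance : MulAction GG Cond where
  smul π p := ⟨p.q, fun η => (p.b η).act π η, p.pp, fun η => ⟨⟨(p.ok η).ty, (p.ok η).phi, fun c =>
      ⟨((p.ok η).clk c).1, fun k => congrArg (cact π) (((p.ok η).clk c).2 k)⟩⟩, (p.ok η).cl,
      (p.ok η).rt, (p.ok η).ext, fun k => by rw [(p.ok η).nz k, act_triv]⟩,
    p.fin.subset fun η k e => k (by rw [e, act_triv]),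
    fun η k => p.kk η fun e => k (by rw [e, act_triv]), fun η d k =>
      let ⟨a0, c, a1, a2⟩ := p.cons η d k
      ⟨a0, c, congrArg (π _) a1, a2⟩, p.sub⟩
  one_smul _ := rfl
  mul_smul _ _ _ := rfl

theorem smul_b (π : GG) (p : Cond) (η : Ordinal.{0}) : (π • p).b η = (p.b η).act π η := rfl

theorem smul_mono (π : GG) (p q : Cond) (h : p ≤ q) : π • p ≤ π • q :=
  ⟨h.1, fun η => (h.2 η).act π⟩

theorem Lw.act (π : GG) (h : Lw β p q) : Lw β (π • p) (π • q) := ⟨h.1, fun ζ k => (h.2 ζ k).act π⟩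

theorem Hg.act (π : GG) (h : Hg β p q) : Hg β (π • p) (π • q) := ⟨h.1, fun ζ k => (h.2 ζ k).act π⟩

/-- The action on the Boolean algebra. -/
noncomputable def sg : GG →* (RO Cond ≃o RO Cond) := roAct smul_mono

theorem mem_sg {π : GG} {b : RO Cond} : p ∈ (sg π b).s ↔ π⁻¹ • p ∈ b.s := Iff.rfl

/-- The coordinates of a condition. -/
def Co (p : Cond) : Set (Ordinal.{0} × ℝ) := {x | ∃ c, (p.b x.1).sh.e c = x.2}

theorem ne_triv (c : Fin (p.b η).sh.n) : p.b η ≠ triv η := fun e => by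
  rw [e] at c
  exact c.elim0

theorem co_fin (p : Cond) : (Co p).Finite :=
  (p.fin.biUnion (t := fun η => range fun c => (η, (p.b η).sh.e c)) fun _ _ =>
    finite_range _).subset fun x ⟨c, h⟩ => mem_biUnion (ne_triv c) ⟨c, Prod.ext rfl h⟩

theorem co_mono (h : u ≤ p) : Co p ⊆ Co u := fun x ⟨c, k⟩ =>
  let ⟨j, a, _⟩ := h.2 x.1
  ⟨j c, (a.e c).trans k⟩

theorem clk_co (c : Fin (p.b η).sh.n) : (p.b η).sh.clk c ∈ Co p := by
  by_cases k : (par η).Clocked ((p.b η).sh.ty c)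
  · exact (p.cons η c k).2.imp fun _ a => a.1
  · rw [((p.ok η).clk c).2 k]
    exact ⟨c, rfl⟩

theorem smul_fix {π : GG} (h : π ∈ Fix (Co p)) : π • p = p :=
  Cond.ext rfl (funext fun η => BC.act_eq (fun c => h (η, _) ⟨c, rfl⟩)
    fun c => Prod.ext rfl (h _ (clk_co c)))

theorem smul_low {π : GG} (h : ∀ ζ < β, π ζ = 1) (p : Cond) {ζ : Ordinal.{0}} (k : ζ < β) :
    (π • p).b ζ = p.b ζ := BC.act_eq (fun c => by rw [h ζ k]; rfl) fun c => Prod.ext rfl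
      (by simp only [cact, h _ (((p.ok ζ).clk c).1.trans_lt k)]; rfl)

theorem flat_mem {b : RO Cond} {s : Set (Ordinal.{0} × ℝ)} (hs : s.Finite)
    (hb : ∀ π ∈ Fix s, (∀ ζ < β, π ζ = 1) → sg π b = b) (hm : ∀ x ∈ s, KK x.1 → x ∈ Co m)
    (h : t ≤ m) (ht : t ∈ b.s) :
    ∃ u ≤ m, u.q = t.q ∧ Ex β m u ∧ (∀ ζ < β, u.b ζ = t.b ζ) ∧ u ∈ b.s := by
  obtain ⟨u, a1, a0, a2, a3, a4⟩ := exists_flat h β
  refine ⟨u, a1, a0, a2, a3, b.reg u fun t' k => ?_⟩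
  obtain ⟨π, b1, b2, b3⟩ := exists_perm (hs.union (co_fin m)) (co_fin t') (co_fin t) β
  have e : π • u = u := smul_fix fun x l => (lt_or_ge x.1 β).elim
    (fun o => by rw [b2 _ o]; rfl) fun o => b1 x (Or.inr 
      (show ∃ c, (m.b x.1).sh.e c = x.2 from a2 _ o ▸ l))
  obtain ⟨v, c1, c2⟩ := a4 (π • t') (e ▸ smul_mono π _ _ k) fun ζ l c c' o => by
    have d := b3 (ζ, _) ⟨c', rfl⟩ l ⟨c, o⟩
    rw [show (t.b ζ).sh.e c = (t'.b ζ).sh.e c' from o.trans (b1 _ d)]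
    exact d.elim (hm _ · (t'.kk ζ (ne_triv c'))) id
  exact ⟨π⁻¹ • v, by simpa using smul_mono π⁻¹ _ _ c2,
    mem_sg.1 ((hb π (fun x l => b1 x (Or.inl l)) b2).symm ▸ b.lower c1 ht)⟩

theorem compat_disj (h0 : t.q ⊆ p.q) (h : ∀ x ∈ Co t, x ∉ Co p) : ∃ v ≤ t, v ≤ p := by
  obtain ⟨u, -, a0, a2, -, a4⟩ := exists_flat (le_top' t) 0
  exact a4 p ⟨a0 ▸ h0, fun ζ => eq_triv (u.ok ζ) (a2 ζ zero_le) ▸ le_triv (p.ok ζ)⟩
    fun ζ _ c c' e => (h (ζ, _) ⟨c, rfl⟩ ⟨c', e.symm⟩).elim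

theorem exists_single (hη : KK η) (hv : v.b η = triv η) {ty : Ty} (h : (par η).TyOK ty) (r : ℝ)
    {k : Ordinal.{0} × ℝ} (h1 : (par η).Clocked ty → Clk v.b η k 0 fun _ => 0)
    (h2 : ¬ (par η).Clocked ty → k = (η, r)) : ∃ u : Cond, u.q = v.q ∧
      (∀ ζ, ζ ≠ η → u.b ζ = v.b ζ) ∧ (∀ c, (u.b η).sh.e c = r) ∧ ∃ c, (u.b η).sh.ty c = ty := by
  obtain ⟨Φ, hΦ⟩ := Par.exists_phi0 (P := par η) (ty := fun _ : Fin 1 => ty) fun _ => h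
  let s : Shape := ⟨1, OrderEmbedding.ofStrictMono (fun _ => r) (Subsingleton.strictMono _),
    fun _ => ty, fun _ => k, Φ⟩
  have hs : SOK η s := ⟨fun _ => h, hΦ, fun _ => ⟨by
    by_cases e : (par η).Clocked ty
    exacts [(h1 e).1.le, (congrArg Prod.fst (h2 e)).le], h2⟩⟩
  have hw := BOK.cut hs one_ne_zero (Par.closed_ext hΦ (st0 _).1) ⟨val_st0 _ _, HExt.refl _⟩
  obtain ⟨u, -, a0, a2, a3⟩ := exists_upd v (fun _ => hη) hw (fun _ => h1) (hv ▸ le_triv hw) v.pp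
    subset_rfl (empty_subset _)
  exact ⟨u, a0, a3, a2 ▸ fun _ => rfl, a2 ▸ ⟨(0 : Fin 1), rfl⟩⟩

theorem exists_add (p : Cond) {s : Set (Ordinal.{0} × ℝ)} (hs : s.Finite) :
    ∃ u ≤ p, ∀ x ∈ s, KK x.1 → x ∈ Co u := by
  induction s, hs using Set.Finite.induction_on with
  | empty => exact ⟨p, le_rfl, by simp⟩
  | @insert x s _ _ ih =>
    obtain ⟨u, a1, a2⟩ := ih
    by_cases k : KK x.1 → x ∈ Co u
    · exact ⟨u, a1, forall_mem_insert.2 ⟨k, a2⟩⟩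
    rw [Classical.not_imp] at k
    obtain ⟨t, b0, b1, b2, c, -⟩ := exists_single (v := top) (ty := ⟨1, 0, 0⟩) k.1 rfl
      ⟨((par _).ν_in 1).isRegular.ord_pos, ((par _).Ω_iff _).2
        ⟨1, ((par _).ν_in 0).isRegular.ord_pos⟩⟩ x.2 (fun e => absurd e.1 one_ne_zero) fun _ => rfl
    obtain ⟨v, c1, c2⟩ := compat_disj (t := t) (p := u) (b0 ▸ empty_subset _)
      fun y ⟨d, e⟩ l => k.2 (by
      obtain ⟨ζ, r⟩ := y
      obtain rfl : ζ = x.1 := not_not.1 fun f => ne_triv d (b1 ζ f)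
      rwa [← ((b2 d).symm.trans e : x.2 = r)] at l)
    exact ⟨v, c2.trans a1, forall_mem_insert.2 ⟨fun _ => co_mono c1 ⟨c, b2 c⟩,
      fun y l o => co_mono c2 (a2 y l o)⟩⟩

theorem exists_ty0 (hη : KK η) {ty : Ty} (h : (par η).TyOK ty) :
    ∃ u : Cond, u.q = ∅ ∧ (∀ ζ, η < ζ → u.b ζ = triv ζ) ∧ ∃ c, (u.b η).sh.ty c = ty := by
  induction η using WellFoundedLT.induction generalizing ty with
  | _ η ih =>
    by_cases k : (par η).Clocked ty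
    · obtain ⟨κ, a1, a2, a3⟩ := (par η).ρ_reg k.2
      obtain ⟨ζ, b1, l, b2, b3⟩ := exists_lev a1.aleph0_le (β := η) ((cantor κ).trans ((a3 0).trans_le
        (((par η).sc_le 0 Par.zero_lt_ρ).trans_eq (congrFun (par_ν hη) 0))))
      have hζ := hη.mono b1.le
      obtain ⟨v, c0, c1, c, c2⟩ := ih ζ b1 hζ (ty := ⟨l, κ.ord, 0⟩)
        ⟨par_ν hζ ▸ Cardinal.ord_lt_ord.2 b3, ((par _).Ω_iff _).2
          ⟨1, ((par _).ν_in 0).isRegular.ord_pos⟩⟩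
      obtain ⟨u, d0, d1, -, d2⟩ := exists_single hη (c1 η b1) h 0 (k := (ζ, (v.b ζ).sh.e c))
        (fun _ => ⟨b1, c, rfl, by simpa [c2, par_ν hζ, a2] using b2, by simp [c2, a2], by simp⟩)
        fun e => (e k).elim
      exact ⟨u, d0.trans c0, fun ξ e => (d1 ξ e.ne').trans (c1 ξ (b1.trans e)), d2⟩
    · obtain ⟨u, d0, d1, -, d2⟩ := exists_single (v := top) hη rfl h 0 (fun e => (k e).elim)
        fun _ => rfl
      exact ⟨u, d0, fun ξ e => d1 ξ e.ne', d2⟩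

theorem exists_ty (p : Cond) (hη : KK η) {ty : Ty} (h : (par η).TyOK ty) :
    ∃ u ≤ p, ∃ c, (u.b η).sh.ty c = ty := by
  obtain ⟨t, e0, -, c, e⟩ := exists_ty0 hη h
  obtain ⟨π, -, -, b⟩ := exists_perm finite_empty (co_fin t) (co_fin p) 0
  obtain ⟨v, c1, c2⟩ := compat_disj (t := π • t) (p := p) (e0.subset.trans (empty_subset _))
    fun x ⟨d, f⟩ l =>
    b (x.1, (t.b x.1).sh.e d) ⟨d, rfl⟩ zero_le
      (by rwa [show cact π (x.1, (t.b x.1).sh.e d) = x from Prod.ext rfl f])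
  obtain ⟨j, a, -⟩ := c1.2 η
  exact ⟨v, c2, j c, (a.ty c).trans e⟩

end Pool.Agent.SC7292

/-!
Counting conditions, the chain condition, Boolean values decided by the low blocks.
-/

namespace Pool.Agent.SC7292

open Cardinal Ordinal Set Function Pool.Agent.MP_7b2404_lc Pool.Agent.Lib.ForcingU

theorem mk_fun_lt {ι X : Type 1} {χ : Cardinal.{0}} (hχ : χ.IsStrongLimit) (hι : #ι < lc χ)
    {S : Set X} (hS : #S < lc χ) : #{f : ι → X | ∀ i, f i ∈ S} < lc χ := by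
  refine lt_of_le_of_lt (mk_le_of_injective (f := fun f i => (⟨f.1 i, f.2 i⟩ : S))
    fun a b e => Subtype.ext (funext fun i => congrArg Subtype.val (congrFun e i))) ?_
  rw [mk_arrow, Cardinal.lift_id, Cardinal.lift_id]
  exact pow_lt_lc hχ hS hι

theorem mk_biUnion_lt {ι X : Type 1} {c : Cardinal.{1}} (h0 : ℵ₀ ≤ c) {F : Set ι} (hF : F.Finite)
    {s : ι → Set X} (h : ∀ i ∈ F, #(s i) < c) : #(⋃ i ∈ F, s i) < c := by
  induction F, hF using Set.Finite.induction_on with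
  | empty => simpa using aleph0_pos.trans_le h0
  | insert _ _ ih =>
    rw [biUnion_insert]
    exact (mk_union_le _ _).trans_lt (add_lt_of_lt h0 (h _ (Or.inl rfl))
      (ih fun i k => h i (Or.inr k)))

theorem mk_ulift_lt {X : Type} {χ : Cardinal.{0}} (h : #X < χ) :
    #(Set.univ : Set (ULift.{1} X)) < lc χ := by
  simpa only [mk_univ, mk_uLift, Cardinal.lift_lt] using h

namespace Par

variable {P : Par} {χ : Cardinal.{0}}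

theorem TyOK.lt {t : Ty} (h : P.TyOK t) : t.θ < P.Ω := h.1.trans (lt_Ω _)

theorem mk_ty (hχ : χ.IsInaccessible) (h : P.Ω < χ.ord) : #{t | P.TyOK t} < lc χ :=
  mk_lt_of_map (mk_prod_lt hχ.aleph0_lt.le (mk_ulift_lt (X := ℕ) (by simpa using hχ.aleph0_lt))
    (mk_prod_lt hχ.aleph0_lt.le (mk_Iio_lt h) (mk_Iio_lt h))) (fun t => (⟨t.k⟩, t.θ, t.l))
    (fun t k => ⟨trivial, k.lt, k.2⟩) fun _ _ _ _ e => by
      simp only [Prod.mk.injEq, ULift.up.injEq] at e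
      exact Ty.ext e.1 e.2.1 e.2.2

theorem bel_of_ty {C : Type} [LinearOrder C] {ty : C → Ty} (hT : ∀ c, P.TyOK (ty c)) :
    P.Bel ty P.Ω := ⟨lt_Ω 0, fun c => ⟨(hT c).lt, (hT c).2, fun k => (P.lam_lt k).trans (lt_Ω _)⟩⟩

theorem mk_phi {C : Type} [LinearOrder C] [Finite C] {ty : C → Ty} (hs : Stage χ.ord)
    (h : P.Ω < χ.ord) (hT : ∀ c, P.TyOK (ty c)) : #{Φ | P.PhiOK ty Φ} < lc χ := by
  have hχ := hs.inacc
  have h0 : P.ν 0 < χ := Cardinal.ord_lt_ord.1 ((lt_Ω 0).trans h)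
  have h1 := mk_QL hs ((bel_of_ty hT).mono h.le) h
  have h2 := hχ.aleph0_lt
  have key : ∀ Φ, P.PhiOK ty Φ → ∀ f α g N, Φ f α g N ↔
      Φ f α g fun x => {k | (Hit N x k ∧ x ⊆ Iio P.Ω) ∧ k ∈ P.Q ty f} := by
    refine fun Φ a f α g N => ⟨fun b => ?_, fun b => (a.pf b).choose_spec.incl b
      fun x g' c _ ⟨k, d, e⟩ => ⟨g', c, le_rfl, d.1.1.mono e⟩⟩
    obtain ⟨b1, c, b2, b3⟩ := a.dom _ _ _ _ b
    have u := a.uf f α c b2 b3 b1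
    exact u.incl (u.toPF.inter2 (P.sc_reg _).aleph0_le (u.small (u.valid b)) b)
      fun x g' c' _ ⟨_, ⟨⟨_, d, _⟩, e⟩, l⟩ => ⟨g', c', le_rfl, hit_of_mem ⟨⟨e.mono l,
        d.1.trans (Iio_subset_Iio (max_le (hT c).lt.le (hT c).2.le))⟩, c'⟩⟩
  let S := (Set.univ : Set (ULift.{1} (C → ℕ))) ×ˢ Iio P.ρ ×ˢ (⋃ f, P.Q ty f) ×ˢ
    {W | W ⊆ {x | x ⊆ Iio P.Ω} ×ˢ ⋃ f, P.Q ty f}
  have h3 : #S < lc χ := mk_prod_lt h2.le (mk_ulift_lt (mk_le_aleph0.trans_lt h2))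
    (mk_prod_lt h2.le (mk_Iio_lt (ρ_le.trans_lt (Cardinal.ord_lt_ord.2 h0))) (mk_prod_lt h2.le h1
      (mk_subsets hχ.isStrongLimit (mk_prod_lt h2.le (mk_subsets hχ.isStrongLimit (mk_Iio_lt h))
        h1))))
  let F : Phi C → Set _ := fun Φ =>
    {z ∈ S | Φ z.1.down z.2.1 z.2.2.1 fun x => {k | (x, k) ∈ z.2.2.2}}
  have key2 : ∀ Φ Ψ, P.PhiOK ty Φ → P.PhiOK ty Ψ → F Φ ⊆ F Ψ → ∀ f α g N, Φ f α g N → Ψ f α g N :=
    fun Φ Ψ a b e f α g N c => (key Ψ b f α g N).2 (@e (⟨f⟩, α, g,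
      {z | (Hit N z.1 z.2 ∧ z.1 ⊆ Iio P.Ω) ∧ z.2 ∈ P.Q ty f}) ⟨⟨trivial, (a.dom _ _ _ _ c).1,
      mem_iUnion.2 ⟨f, (a.pf c).choose_spec.valid c⟩,
      fun z k => ⟨k.1.2, mem_iUnion.2 ⟨f, k.2⟩⟩⟩, (key Φ a f α g N).1 c⟩).2
  refine mk_lt_of_map (mk_subsets hχ.isStrongLimit h3) F (fun _ _ => sep_subset _ _)
    fun Φ a Ψ b e => ?_
  ext f α g N
  exact ⟨key2 Φ Ψ a b e.le f α g N, key2 Ψ Φ b a e.ge f α g N⟩

end Par

variable [Hyp] {η β c : Ordinal.{0}} {p q t m u v : Cond} {χ : Cardinal.{0}}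

theorem mk_exact {s : Shape} (hχ : Stage χ.ord) (hT : (par η).Bel s.ty c) (hc : c < χ.ord) :
    #{w | BOK η w ∧ w.sh = s ∧ LocT c w.T ∧ w.rt.2.1 ∈ PV c} < lc χ := by
  have h1 := Par.mk_val hχ (hT.mono hc.le) hc
  refine lt_of_le_of_lt (mk_le_mk_of_subset (t := (fun z => (⟨s, {τ | (par η).Val s.ty τ ∧
    (τ.1, rl c τ.2) ∈ z.1}, z.2⟩ : BC)) '' ({T | T ⊆ {σ | (par η).Val s.ty σ ∧ σ.2.1 ∈ PV c}} ×ˢ
      {σ | (par η).Val s.ty σ ∧ σ.2.1 ∈ PV c})) ?_) (mk_image_le.trans_lt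
    (mk_prod_lt hχ.inacc.aleph0_lt.le (mk_subsets hχ.inacc.isStrongLimit h1) h1))
  rintro ⟨_, T, σ⟩ ⟨a, rfl, b, d⟩
  refine ⟨({τ ∈ T | τ.2.1 ∈ PV c}, σ), ⟨fun τ k => ⟨(a.cl.1 τ k.1).1, k.2⟩, a.val, d⟩, ?_⟩
  refine congrArg (fun T => (⟨_, T, σ⟩ : BC)) (Set.ext fun τ => ⟨fun k => ?_, fun k =>
    ⟨(a.cl.1 τ k).1, b τ k, PV.res (a.cl.1 τ k).1.2.1 c⟩⟩)
  exact (a.cl.1 _ k.2.1).2 τ.2 k.1.2 ⟨res_sub _ _, subset_rfl⟩

theorem BOK.loc {w : BC} (h : BOK η w) (k : (par η).Ω ≤ c) : LocT c w.T := fun σ a => by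
  rwa [show rl c σ.2 = σ.2 from Prod.ext (PV.res_eq (h.cl.1 σ a).1.2.1 k) rfl]

theorem mk_BOK (hη : KK η) (hs : Stage χ.ord) (h1 : base (η + 1) < χ) :
    #{w | BOK η w} < lc χ := by
  have hχ := hs.inacc
  have h : (par η).Ω < χ.ord := par_Ω hη ▸ Cardinal.ord_lt_ord.2 h1
  have h2 := hχ.aleph0_lt
  have h3 : 𝔠 < χ := hχ.isStrongLimit.two_power_lt h2
  have h4 : #{k : Ordinal.{0} × ℝ | k.1 ≤ η} < lc χ :=
    mk_lt_of_map (mk_prod_lt h2.le (mk_Iio_lt (o := η + 1) (lt_ord.2 ((card_le_base _).trans_lt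
      h1))) (mk_ulift_lt (mk_real.trans_lt h3))) (fun k => (k.1, ⟨k.2⟩))
      (fun k l => ⟨mem_Iio.2 (Order.lt_add_one_iff.2 l), trivial⟩) fun _ _ _ _ e => by
        simpa [Prod.ext_iff] using e
  have h5 : #{s | SOK η s} < lc χ := by
    refine lt_of_le_of_lt (mk_le_mk_of_subset (t := ⋃ n : ULift.{1} ℕ,
      ⋃ ty : {ty : Fin n.down → Ty | ∀ c, ty c ∈ {t | (par η).TyOK t}},
      (fun z => (⟨n.down, z.1.down, ty.1, z.2.1, z.2.2⟩ : Shape)) ''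
      ((Set.univ : Set (ULift.{1} (Fin n.down ↪o ℝ))) ×ˢ
        {k | ∀ c, k c ∈ {k : Ordinal.{0} × ℝ | k.1 ≤ η}} ×ˢ {Φ | (par η).PhiOK ty.1 Φ})) ?_)
      (mk_iUnion_lt hχ.isRegular (by simpa using h2) _ fun n => mk_iUnion_lt hχ.isRegular
        (mk_pi_lt hχ.isStrongLimit (mk_le_aleph0.trans_lt h2) (Par.mk_ty hχ h)) _ fun ty =>
        mk_image_le.trans_lt (mk_prod_lt h2.le (mk_ulift_lt ?_) (mk_prod_lt h2.le
          (mk_pi_lt hχ.isStrongLimit (mk_le_aleph0.trans_lt h2) h4) (Par.mk_phi hs h ty.2))))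
    · exact fun s a => mem_iUnion₂.2 ⟨⟨s.n⟩, ⟨s.ty, a.ty⟩, (⟨s.e⟩, s.clk, s.Φ),
        ⟨trivial, fun c => (a.clk c).1, a.phi⟩, rfl⟩
    · refine (mk_le_of_injective (f := fun e : Fin n.down ↪o ℝ => (e : Fin n.down → ℝ))
        DFunLike.coe_injective).trans_lt ?_
      simpa [mk_real] using power_nat_le_max.trans_lt (max_lt h3 h2)
  exact lt_of_le_of_lt (mk_le_mk_of_subset (t := ⋃ s : {s | SOK η s},
    {w | BOK η w ∧ w.sh = s.1 ∧ LocT (par η).Ω w.T ∧ w.rt.2.1 ∈ PV (par η).Ω})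
    fun w a => mem_iUnion.2 ⟨⟨_, a.toSOK⟩, a, rfl, a.loc le_rfl, a.val.2.1⟩)
    (mk_iUnion_lt hχ.isRegular h5 _ fun s => mk_exact hs (Par.bel_of_ty s.2.ty) h)

/-- Conditions supported below `β`. -/
def Low (β : Ordinal.{0}) : Set Cond :=
  {r | r.q ∈ PV (base β).ord ∧ ∀ ζ, β ≤ ζ → r.b ζ = triv ζ}

theorem mk_low (hβ : KK β) (hs : Stage χ.ord) (h1 : base β < χ) : #(Low β) < lc χ := by
  have hχ := hs.inacc
  have h : #(Iio β) < lc χ := mk_Iio_lt (lt_ord.2 ((card_le_base _).trans_lt h1))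
  refine mk_lt_of_map (mk_prod_lt hχ.aleph0_lt.le (hs.mk_PV' (Cardinal.ord_lt_ord.2 h1))
    (mk_fun_lt hχ.isStrongLimit h (mk_iUnion_lt hχ.isRegular h
    (fun ζ => {w | BOK ζ.1 w}) fun ζ => mk_BOK (hβ.mono (le_of_lt ζ.2)) hs
      ((base_strict.monotone (Order.add_one_le_of_lt (mem_Iio.1 ζ.2))).trans_lt h1))))
    (fun r => (r.q, fun ζ => r.b ζ.1)) (fun r k => ⟨k.1, fun ζ => mem_iUnion.2 ⟨ζ, r.ok _⟩⟩)
    fun r a r' b e => Cond.ext (congrArg Prod.fst e) (funext fun ζ => (lt_or_ge ζ β).elim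
      (fun k => congrFun (congrArg Prod.snd e) ⟨ζ, k⟩) fun k => (a.2 ζ k).trans (b.2 ζ k).symm)

theorem sm_low (hβ : KK β) : Sm #(Low β) := ⟨β, hβ, mk_low hβ (nu_st β 0) (nu_lt_succ β 0)⟩

theorem exists_low (p : Cond) (β : Ordinal.{0}) :
    ∃ r ∈ Low β, r.q = res (base β).ord p.q ∧ ∀ ζ < β, r.b ζ = p.b ζ :=
  let ⟨r, a, b, d⟩ := exists_res p β
  ⟨r, ⟨a ▸ PP.res p.pp _, d⟩, a, b⟩

theorem not_stage_base (h : KK η) : ¬ Stage (base η).ord := fun k => by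
  rcases (zero_le (a := η)).eq_or_lt with rfl | hη
  · exact k.inacc.aleph0_lt.ne' base_zero
  · exact (h.nu_lt k.inacc (fun c => nx_lt_base hη) 0).false

omit [Hyp] in
theorem Stage.lt_card {γ : Ordinal.{0}} (h : Stage γ) (k : χ.ord < γ) : χ < γ.card :=
  Cardinal.ord_lt_ord.1 (h.2.1.symm ▸ k)

omit [Hyp] in
theorem Stage.ord {γ : Ordinal.{0}} (h : Stage γ) : Stage γ.card.ord := h.2.1.symm ▸ h

theorem mk_low' (hβ : KK β) (γ : Ordinal.{0}) (hs : Stage γ) (h1 : (base β).ord < γ) :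
    #(Low β) < lc γ.card := mk_low hβ hs.ord (hs.lt_card h1)

/-- Conditions below `η` that live at the level `c`, with the shapes of `q` from `β` on. -/
def LowEx (q : Cond) (β η c : Ordinal.{0}) : Set Cond :=
  {r | r.q ∈ PV c ∧ (∀ ζ, η ≤ ζ → r.b ζ = triv ζ) ∧ ∀ ζ, β ≤ ζ → ζ < η →
    (r.b ζ).sh = (q.b ζ).sh ∧ (q.b ζ ≠ triv ζ → LocT c (r.b ζ).T)}

/-- The cut `c` fits the blocks of `q` between `β` and `η`. -/
def Fits (q : Cond) (β η c : Ordinal.{0}) : Prop :=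
  (base β).ord ≤ c ∧ ∀ ζ, β ≤ ζ → ζ < η → q.b ζ ≠ triv ζ →
    (par ζ).Fit (q.b ζ).sh.ty (q.b ζ).sh.Φ c

theorem mk_lowEx (hβ : KK β) (h : Fits q β η c) (hs : Stage χ.ord) (hc : c < χ.ord) :
    #(LowEx q β η c) < lc χ := by
  choose res r2 r0 r1 using fun p => exists_low p β
  have hχ := hs.inacc
  have hF : {ζ | q.b ζ ≠ triv ζ ∧ β ≤ ζ ∧ ζ < η}.Finite := q.fin.subset fun _ k => k.1
  have h0 : ℵ₀ ≤ lc χ := aleph0_le_lift.2 hχ.aleph0_lt.le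
  have h1 := mk_biUnion_lt h0 hF (s := fun ζ => {w | BOK ζ w ∧ w.sh = (q.b ζ).sh ∧ LocT c w.T ∧
    w.rt.2.1 ∈ PV c}) fun ζ k => mk_exact hs (h.2 ζ k.2.1 k.2.2 k.1).bel hc
  refine mk_lt_of_map (mk_prod_lt hχ.aleph0_lt.le (hs.mk_PV' hc) (mk_prod_lt hχ.aleph0_lt.le
    (mk_low hβ hs (Cardinal.ord_lt_ord.1 (h.1.trans_lt hc))) (mk_fun_lt hχ.isStrongLimit
    (hF.lt_aleph0.trans_le h0) h1))) (fun r => (r.q, res r, fun ζ => r.b ζ.1))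
    (fun r a => ⟨a.1, r2 r, fun ζ => mem_biUnion ζ.2 ⟨r.ok _, (a.2.2 _ ζ.2.2.1 ζ.2.2.2).1,
      (a.2.2 _ ζ.2.2.1 ζ.2.2.2).2 ζ.2.1, PV.of_st (r.ok _).val.2.1 fun x k =>
        PV.st a.1 x (r.sub _ k)⟩⟩)
    fun r a r' b e => Cond.ext (congrArg Prod.fst e) (funext fun ζ => ?_)
  simp only [Prod.mk.injEq] at e
  rcases lt_or_ge ζ β with k | k
  · rw [← r1 r ζ k, e.2.1, r1 r' ζ k]
  rcases lt_or_ge ζ η with l | l
  swap
  · exact (a.2.1 ζ l).trans (b.2.1 ζ l).symm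
  by_cases o : q.b ζ = triv ζ
  · exact (eq_triv (r.ok ζ) (o ▸ (a.2.2 ζ k l).1)).trans
      (eq_triv (r'.ok ζ) (o ▸ (b.2.2 ζ k l).1)).symm
  · exact congrFun e.2.2 ⟨ζ, o, k, l⟩

theorem exists_fits (q : Cond) (h : β < η) {a : Ordinal.{0}} (ha : a < (base η).ord) :
    ∃ c < (base η).ord, a < c ∧ ¬ Stage c ∧ Fits q β η c := by
  have hF : {ζ | q.b ζ ≠ triv ζ ∧ ζ < η}.Finite := q.fin.subset fun _ k => k.1
  choose l l1 l2 using fun ζ => (q.ok ζ).phi.fit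
  have hl := Cardinal.isSuccLimit_ord (aleph0_le_base η)
  obtain ⟨d, d1, d2⟩ : ∃ d < (base η).ord, ∀ ζ ∈ {ζ | q.b ζ ≠ triv ζ ∧ ζ < η}, l ζ ≤ d := by
    rcases eq_empty_or_nonempty {ζ | q.b ζ ≠ triv ζ ∧ ζ < η} with e | e
    · exact ⟨a, ha, e ▸ fun _ k => k.elim⟩
    · obtain ⟨ζ, z1, z2⟩ := hF.exists_maximalFor l _ e
      exact ⟨l ζ, (l1 ζ).trans_le ((par_Ω (q.kk ζ z1.1)).trans_le
        (base_le (Order.add_one_le_of_lt z1.2))), fun ξ k => (le_total _ _).elim id (z2 k)⟩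
  refine ⟨max (max a d) (base β).ord + 1, hl.add_one_lt (max_lt (max_lt ha d1)
    (Cardinal.ord_lt_ord.2 (base_strict h))), Order.lt_add_one_iff.2
    ((le_max_left _ _).trans (le_max_left _ _)), not_stage_succ _,
    (le_max_right _ _).trans (le_add_right le_rfl), fun ζ _ k o => l2 ζ _ ((d2 ζ ⟨o, k⟩).trans
      (((le_max_right _ _).trans (le_max_left _ _)).trans (le_add_right le_rfl)))⟩

/-- A condition whose root projects into the regularisation of a closed set has an extension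
whose states project into the set. -/
theorem Cond.to_reg {s : Shape} {j} (a : SLe η (p.b η).sh s j) (hn : s.n ≠ 0)
    {D : Set (State (Fin s.n))} (hD : (par η).Closed s.ty s.Φ D)
    (h : proj j (SC7292.eff η p.q (p.b η).rt) ∈ (par η).reg s.ty D) :
    ∃ u ≤ p, (∀ σ, BLe η (u.b η) ⟨s, D, σ⟩) ∧ ∀ ζ, ζ ≠ η → u.b ζ = p.b ζ := by
  have o := p.ok η
  have e := p.eff η
  obtain ⟨g, b1, b2, b3⟩ := hD.1.lift_reg a.ty (o.cl.1 _ e).1 h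
  obtain ⟨u, c1, -, ⟨T, c2, c3⟩, c4⟩ := Cond.shrink (p := p) rfl (a.ne hn)
    (hD.pre a.ty o.phi a.cmp) b3 ((o.cl.1 _ e).2 g b1 b2) (p.cons η) b2.1
  exact ⟨u, c1, fun σ => c3 ▸ ⟨j, a, fun τ k => (c2 k).2⟩, c4⟩

/-- Changing trees and labels of roots. -/
theorem Cond.modify (u : Cond) {b : Ordinal.{0} → BC} (hb : ∀ ζ, BOK ζ (b ζ))
    (e : ∀ ζ, ∃ T g, b ζ = ⟨(u.b ζ).sh, T, (u.b ζ).rt.1, g⟩) {t : Set At} (ht : t ∈ PP)
    (h : ∀ ζ, (b ζ).rt.2.1 ⊆ t) : ∃ r : Cond, r.q = t ∧ r.b = b ∧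
      ∀ η s h d, Cons1 u.b η s h d → Cons1 b η s h d := by
  have key : ∀ η s h d, Cons1 u.b η s h d → Cons1 b η s h d := fun η s h d k l => by
    obtain ⟨a0, a1⟩ := k l
    obtain ⟨T, g, a2⟩ := e (s.clk d).1
    exact ⟨a0, a2 ▸ a1⟩
  have h1 : ∀ ζ, b ζ ≠ triv ζ → u.b ζ ≠ triv ζ := fun ζ k l => k (eq_triv (hb ζ) (by
    obtain ⟨T, g, a2⟩ := e ζ
    rw [a2, ← l]))
  refine ⟨⟨t, b, ht, hb, u.fin.subset h1, fun ζ k => u.kk ζ (h1 ζ k), fun ζ => ?_, h⟩, rfl, rfl,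
    key⟩
  obtain ⟨T, g, a2⟩ := e ζ
  rw [a2]
  exact fun d => key _ _ _ d (u.cons ζ d)

theorem cnt1_step (h : Fits q β η c) (hn : ¬ Stage c) (hu : Ex β q u) {S : Set Ordinal.{0}}
    (hS : S.Finite) (H : ∀ ζ ∈ S, u.b ζ ≠ triv ζ ∧ β ≤ ζ ∧ ζ < η) :
    ∃ t ∈ PP, u.q ⊆ t ∧ res c t = res c u.q ∧ ∀ ζ ∈ S, ∃ T',
      (par ζ).Closed (u.b ζ).sh.ty (u.b ζ).sh.Φ T' ∧ LocT c T' ∧
      ((u.b ζ).rt.1, (res c (res (par ζ).Ω u.q), (u.b ζ).rt.2.2)) ∈ T' ∧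
      (∀ τ ∈ T', ∃ g, (τ.1, g) ∈ (u.b ζ).T) ∧
      ∀ τ ∈ T', res (par ζ).Ω t ⊆ τ.2.1 → τ ∈ (par ζ).reg (u.b ζ).sh.ty (u.b ζ).T := by
  induction S, hS using Set.Finite.induction_on with
  | empty => exact ⟨u.q, u.pp, subset_rfl, rfl, fun _ k => k.elim⟩
  | @insert ζ S _ _ ih =>
    obtain ⟨t, a1, a2, a3, a4⟩ := ih fun ξ k => H ξ (Or.inr k)
    obtain ⟨b1, b2, b3⟩ := H ζ (Or.inl rfl)
    have o := u.ok ζ
    have f := h.2 ζ b2 b3 fun e => b1 (eq_triv o (e ▸ hu ζ b2))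
    rw [← hu ζ b2] at f
    obtain ⟨t1, c1, c2, c3, T', c4, c5, c6, c7, c8⟩ := Par.exists_loc o.phi f hn o.cl o.rt
      (PP.res a1 _) (PV.sub_res o.val.2.1 ((u.sub ζ).trans a2))
    refine ⟨t1 ∪ t, PP.amal (PP.of_Ω (u.kk ζ b1) c1) c1 a1 c2, a2.trans subset_union_right, ?_,
      fun ξ k => ?_⟩
    · rw [res_union, c3, ← a3]
      exact union_eq_right.2 (res_mono (res_sub _ _))
    rcases k with rfl | k
    · have e : ∀ p, res c (res (par ξ).Ω p) = res (par ξ).Ω (res c p) := fun p =>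
        Set.ext fun _ => and_right_comm
      rw [e, a3, ← e] at c6
      exact ⟨T', c4, c5, c6, c7, fun τ x y =>
        c8 τ x ((PV.sub_res c1 subset_union_left).trans y)⟩
    · obtain ⟨T', d1, d2, d3, d4, d5⟩ := a4 ξ k
      exact ⟨T', d1, d2, d3, d4, fun τ x y => d5 τ x ((res_mono subset_union_right).trans y)⟩

/-- Localisation of the blocks between `β` and `η`. By induction on finite subsets `S` of the
nontrivial blocks in `[β, η)` (`Set.Finite.induction_on`), `Par.exists_loc` (applied with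
`t0 = res Ω t`, new `t` is the union, `Cond.amal`-like `PP.amal`) gives `t ∈ PP` with `u.q ⊆ t`,
`res c t = res c u.q` and for `ζ ∈ S` a closed `T' ζ` with `LocT c`, containing
`(root history, (res c (res Ω u.q), root atoms))`, all of whose histories occur in `(u.b ζ).T`,
with `τ ∈ T' ζ → res Ω t ⊆ τ.2.1 → τ ∈ reg (u.b ζ).T`. Build `r` by `Cond.modify` from
`exists_low u η` (blocks `⟨sh, T' ζ, that root⟩` for `ζ ∈ S`, `r.q = res c u.q`) and `u'` by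
`Cond.modify` from `u` (blocks `⟨sh, T ∩ T' ζ, eff ζ t root⟩`, `u'.q = t`). The last clause is an
induction on `S` again, by `Cond.to_reg`. -/
theorem Cond.loc (h : Fits q β η c) (hn : ¬ Stage c) (hu : Ex β q u) :
    ∃ u' ≤ u, Ex 0 u u' ∧ (∀ ζ, η ≤ ζ → u'.b ζ = u.b ζ) ∧ ∃ r ∈ LowEx q β η c, LB η u' r ∧
      (∀ s h d, Cons1 u.b η s h d → Cons1 r.b η s h d) ∧
      ∀ v, LB η v r → res (base η).ord u'.q ⊆ v.q → ∃ z ≤ v, LB η z u := by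
  have hS : {ζ | u.b ζ ≠ triv ζ ∧ β ≤ ζ ∧ ζ < η}.Finite := u.fin.subset fun _ k => k.1
  obtain ⟨t, a1, a2, -, a4⟩ := cnt1_step h hn hu hS fun _ k => k
  obtain ⟨r0, b1, -, b2⟩ := exists_low u η
  have key : ∀ ζ, ∃ w w' : BC, (BOK ζ w ∧ (∃ T g, w = ⟨(r0.b ζ).sh, T, (r0.b ζ).rt.1, g⟩) ∧
      w.rt.2.1 ⊆ res c u.q ∧ (η ≤ ζ → w = triv ζ) ∧
      (β ≤ ζ → ζ < η → w.sh = (q.b ζ).sh ∧ (q.b ζ ≠ triv ζ → LocT c w.T))) ∧
      (BOK ζ w' ∧ (∃ T g, w' = ⟨(u.b ζ).sh, T, (u.b ζ).rt.1, g⟩) ∧ w'.rt.2.1 ⊆ t ∧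
      BLe ζ w' (u.b ζ) ∧ (η ≤ ζ → w' = u.b ζ)) ∧ (ζ < η → BLe ζ w' w ∧ ∀ v : Cond,
        BLe ζ (v.b ζ) w → res (base η).ord t ⊆ v.q → ∃ z ≤ v, BLe ζ (z.b ζ) (u.b ζ)) := by
    intro ζ
    have o := u.ok ζ
    by_cases k : u.b ζ ≠ triv ζ ∧ β ≤ ζ ∧ ζ < η
    · obtain ⟨T', c1, c2, c3, c4, c5⟩ := a4 ζ k
      have n : (u.b ζ).sh.n ≠ 0 := fun e => k.1 (o.nz e)
      refine ⟨⟨(u.b ζ).sh, T', _⟩, ⟨(u.b ζ).sh, (u.b ζ).T ∩ T', SC7292.eff ζ t (u.b ζ).rt⟩,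
        ⟨⟨o.toSOK, c1, c3, fun τ x => ?_, fun e => (n e).elim⟩, ?_, res_mono (res_sub _ _),
        fun l => (k.2.2.not_ge l).elim, fun _ _ => ⟨hu ζ k.2.1, fun _ => c2⟩⟩,
        ⟨⟨o.toSOK, o.cl.inter o.phi c1, ⟨o.eff a1 ((u.sub ζ).trans a2),
        c1.1.up c3 (PP.res a1 _) ((res_sub _ _).trans (res_mono a2))⟩, fun τ x => o.ext τ x.1,
        fun e => (n e).elim⟩, ⟨_, _, rfl⟩, res_sub _ _, BLe.of_sub o.toSOK inter_subset_left,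
        fun l => (k.2.2.not_ge l).elim⟩, fun _ => ⟨BLe.of_sub o.toSOK inter_subset_right, ?_⟩⟩
      · obtain ⟨g, e⟩ := c4 τ x
        exact o.ext (τ.1, g) e
      · rw [b2 ζ k.2.2]
        exact ⟨_, _, rfl⟩
      · rintro v ⟨j, d1, d2⟩ e
        obtain ⟨z, z1, z2, -⟩ := Cond.to_reg d1 n o.cl (c5 _ (d2 _ (v.eff ζ)) fun x y =>
          ⟨e ⟨y.1, y.2.trans_le ((par_Ω (u.kk ζ k.1)).trans_le
            (base_le (Order.add_one_le_of_lt k.2.2)))⟩, y.2⟩)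
        exact ⟨z, z1, z2 _⟩
    · refine ⟨r0.b ζ, u.b ζ, ⟨r0.ok ζ, ⟨_, _, rfl⟩, ?_, b1.2 ζ, fun x y => ?_⟩,
        ⟨o, ⟨_, _, rfl⟩, (u.sub ζ).trans a2, BLe.refl o, fun _ => rfl⟩, fun x => ?_⟩
      · rcases lt_or_ge ζ η with x | x
        · rw [b2 ζ x]
          rcases lt_or_ge ζ β with y | y
          · exact (u.sub_res y).trans (res_mono_left h.1)
          · rw [not_not.1 fun e => k ⟨e, y, x⟩]
            exact empty_subset _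
        · rw [b1.2 ζ x]
          exact empty_subset _
      · rw [b2 ζ y]
        refine ⟨hu ζ x, fun e => (e (eq_triv (q.ok ζ) ?_)).elim⟩
        rw [← hu ζ x, not_not.1 fun e => k ⟨e, x, y⟩]
      · rw [b2 ζ x]
        exact ⟨BLe.refl o, fun v e _ => ⟨v, le_rfl, e⟩⟩
  choose w w' k1 k2 k3 using key
  obtain ⟨r, r1, rfl, r3⟩ := r0.modify (fun ζ => (k1 ζ).1) (fun ζ => (k1 ζ).2.1)
    (PP.res_mem u.pp c) fun ζ => (k1 ζ).2.2.1
  obtain ⟨u', rfl, rfl, -⟩ := u.modify (fun ζ => (k2 ζ).1) (fun ζ => (k2 ζ).2.1) a1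
    fun ζ => (k2 ζ).2.2.1
  refine ⟨u', ⟨a2, fun ζ => (k2 ζ).2.2.2.1⟩, fun ζ _ => ?_, fun ζ => (k2 ζ).2.2.2.2, r,
    ⟨r1 ▸ PP.res u.pp c, fun ζ => (k1 ζ).2.2.2.1, fun ζ => (k1 ζ).2.2.2.2⟩,
    fun ζ k => (k3 ζ k).1, fun s h d k => r3 _ _ _ _ (k.mono (LB.of_eq b2)), fun v a b => ?_⟩
  · obtain ⟨T, g, e⟩ := (k2 ζ).2.1
    rw [e]
  have fin : ∀ S : Set Ordinal.{0}, S.Finite → (∀ ζ ∈ S, ζ < η) →
      ∃ z ≤ v, ∀ ζ ∈ S, BLe ζ (z.b ζ) (u.b ζ) := by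
    intro S hS H
    induction S, hS using Set.Finite.induction_on with
    | empty => exact ⟨v, le_rfl, fun _ k => k.elim⟩
    | @insert ζ S _ _ ih =>
      obtain ⟨z, z1, z2⟩ := ih fun ξ k => H ξ (Or.inr k)
      have l := H ζ (Or.inl rfl)
      obtain ⟨y, y1, y2⟩ := (k3 ζ l).2 z ((z1.2 ζ).trans (z.ok ζ) (a ζ l)) (b.trans z1.1)
      exact ⟨y, y1.trans z1, fun ξ k => k.elim (fun e => e ▸ y2)
        fun k => (y1.2 ξ).trans (y.ok ξ) (z2 ξ k)⟩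
  obtain ⟨z, z1, z2⟩ := fin {ζ | u.b ζ ≠ triv ζ ∧ ζ < η} (u.fin.subset fun _ k => k.1)
    fun _ k => k.2
  refine ⟨z, z1, fun ζ k => ?_⟩
  by_cases e : u.b ζ = triv ζ
  · rw [e]
    exact le_triv (z.ok ζ)
  · exact z2 ζ ⟨e, k⟩

theorem sm_fin {X : Type 1} [Finite X] : Sm #X := Sm.aleph0.mono mk_le_aleph0

theorem Low.mono {γ : Ordinal.{0}} (h : p ∈ Low β) (k : β ≤ γ) : p ∈ Low γ :=
  ⟨PV.mono h.1 (base_le k), fun ζ l => h.2 ζ (k.trans l)⟩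

theorem exists_bound {ι : Type 1} (h : Sm #ι) (w : ι → Cond) : ∃ β, KK β ∧ ∀ i, w i ∈ Low β := by
  have : ∀ p : Cond, ∃ β, KK β ∧ p ∈ Low β := fun p => by
    have := p.fin.to_subtype
    obtain ⟨β, a, b⟩ := sm_fin.bdd (fun ζ : {ζ | p.b ζ ≠ triv ζ} => ζ.1) fun ζ => p.kk _ ζ.2
    obtain ⟨γ, d, e⟩ := p.pp
    exact ⟨max β γ, a.max d, PV.mono e (base_le (le_max_right _ _)), fun ζ k => not_not.1 fun e =>
      (b ⟨ζ, e⟩).not_ge ((le_max_left _ _).trans k)⟩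
  choose a a1 a2 using this
  exact (h.bdd (fun i => a (w i)) fun i => a1 _).imp fun β b =>
    ⟨b.1, fun i => Low.mono (a2 _) (b.2 i).le⟩

theorem exists_gap (p : Cond) {β : ℕ → Ordinal.{0}} :
    ∃ n, ∀ ζ, β n ≤ ζ → ζ < β (n + 1) → p.b ζ = triv ζ := by
  by_contra hc
  push Not at hc
  choose ζ a b c using hc
  exact infinite_of_injective_forall_mem (strictMono_nat_of_lt_succ fun n =>
    (b n).trans_le (a _)).injective c p.fin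

/-- One step of `tame`. Apply `rds` for `ppT_ok hβ` at the cut `(base β).ord` (`not_stage_base`,
`mk_low'`) with index set `I × Low β` to the sets of `k` with
`(∃ w ∈ D i, w.q ⊆ k ∧ ∀ ζ < β, w.b ζ = r.b ζ) ∨ ∀ k' ∈ PP, k ⊆ k' → ¬ (the same for k')`.
Choose the witnesses `w` for all `(i, r)` and all `s ∈ PV (base β).ord` (a small index set:
`Stage.mk_PV'` with `nu_st`), and bound them together with `top.setq t'` by `exists_bound`.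
For `u` take `r` from `exists_low u β`, `s = res (base β).ord u.q`, and `k' = s' ∪ u.q ∪ k`
(`PP.amal`, `cov`). -/
theorem tame_step {I : Type 1} (D : I → Set Cond) (hβ : KK β) (hI : #I < lc (base β))
    {t : Set At} (ht : t ∈ PP) : ∃ t' γ, KK γ ∧ β ≤ γ ∧ t' ∈ PV (base γ).ord ∧ t ⊆ t' ∧
      res (base β).ord t' = res (base β).ord t ∧ ∀ i, ∀ u ∈ D i, t' ⊆ u.q → ∃ w ∈ D i ∩ Low γ,
        (∀ ζ < β, w.b ζ = u.b ζ) ∧ ∃ k ∈ PP, u.q ⊆ k ∧ w.q ⊆ k := by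
  let E : I × Low β → Set At → Prop := fun j k =>
    ∃ w ∈ D j.1, w.q ⊆ k ∧ ∀ ζ < β, w.b ζ = j.2.1.b ζ
  have h0 : ∀ γ, Stage γ → (base β).ord < γ → #(I × Low β) < lc γ.card := fun γ a b => by
    rw [mk_prod, Cardinal.lift_id, Cardinal.lift_id]
    exact mul_lt_of_lt (aleph0_le_lift.2 a.1.aleph0_lt.le)
      (hI.trans (Cardinal.lift_lt.2 (a.lt_card b))) (mk_low' hβ γ a b)
  obtain ⟨t', a1, a2, a3, a4⟩ := (ppT_ok hβ).rds le_rfl (not_stage_base hβ) h0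
    (fun j k => E j k ∨ ∀ k' ∈ PP, k ⊆ k' → ¬ E j k') (g := t) ht fun j g b _ => by
      by_cases e : ∃ k' ∈ PP, g ⊆ k' ∧ E j k'
      · obtain ⟨k', e1, e2, e3⟩ := e
        exact ⟨k', e1, e2, Or.inl e3⟩
      · exact ⟨g, b, le_rfl, Or.inr fun k' e1 e2 e3 => e ⟨k', e1, e2, e3⟩⟩
  have a5 : ∀ z : (I × Low β) × PV (base β).ord, ∃ w : Cond, res (base β).ord t ⊆ z.2.1 →
      ∃ s' ∈ PV (base β).ord, z.2.1 ⊆ s' ∧ ∃ k ∈ PP, Sle (s' ∪ t') k ∧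
        ((w ∈ D z.1.1 ∧ w.q ⊆ k ∧ ∀ ζ < β, w.b ζ = z.1.2.1.b ζ) ∨
          ∀ k' ∈ PP, k ⊆ k' → ¬ E z.1 k') := fun z => by
    by_cases e : res (base β).ord t ⊆ z.2.1
    · obtain ⟨s', b1, b2, k, b3, -, ⟨w, b4⟩ | b4, b5⟩ := a4 z.1 z.2.1 z.2.2 e
      · exact ⟨w, fun _ => ⟨s', b1, b2, k, b3, b5, Or.inl b4⟩⟩
      · exact ⟨top, fun _ => ⟨s', b1, b2, k, b3, b5, Or.inr b4⟩⟩
    · exact ⟨top, fun k => absurd k e⟩
  choose W hW using a5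
  have h1 : (base β).ord < (nu β (0 + 1)).ord := Cardinal.ord_lt_ord.2 (nu_lt_succ β 0)
  obtain ⟨γ, c1, c2⟩ := exists_bound ⟨β, hβ, by
    rw [mk_prod, Cardinal.lift_id, Cardinal.lift_id]
    exact mul_lt_of_lt (aleph0_le_lift.2 (aleph0_le_nu _ _))
      (by simpa using h0 _ (nu_st β 0) h1) ((nu_st β 0).mk_PV' h1)⟩ W
  obtain ⟨γ', d1, d2⟩ := a1
  refine ⟨t', max β (max γ γ'), hβ.max (c1.max d1), le_max_left _ _,
    PV.mono d2 (base_le ((le_max_right _ _).trans (le_max_right _ _))), a2, a3,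
    fun i u hu e => ?_⟩
  obtain ⟨r, r1, -, r2⟩ := exists_low u β
  obtain ⟨s', b1, b2, k, b3, b4, b5⟩ := hW ((i, ⟨r, r1⟩), ⟨_, PP.res u.pp (base β).ord⟩)
    ((show res (base β).ord t' = res (base β).ord t from a3) ▸ res_mono e)
  have b6 : (s' ∪ u.q) ∪ k ∈ PP := (ppT_ok hβ).cov b4 b3
    (PP.amal (PP.of_le hβ le_rfl b1) b1 u.pp b2) (union_subset_union_right _ e)
  have b7 : u.q ⊆ (s' ∪ u.q) ∪ k := subset_union_right.trans subset_union_left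
  rcases b5 with ⟨f1, f2, f3⟩ | f
  · exact ⟨_, ⟨f1, Low.mono (c2 _) ((le_max_left _ _).trans (le_max_right _ _))⟩,
      fun ζ l => (f3 ζ l).trans (r2 ζ l), _, b6, b7, f2.trans subset_union_right⟩
  · exact (f _ b6 subset_union_right ⟨u, hu, b7, fun ζ l => (r2 ζ l).symm⟩).elim

/-- Below a suitable condition of the iteration the forcing satisfies the chain condition. Iterate
`tame_step` (on the subtype of pairs `(t, β)` with `KK β`, `#I < lc (base β)`, `t ∈ PP`), take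
the union by `iUnion_PV` with `c n = (base (β n)).ord`, bound the `β n` by `Sm.bdd`; for `u` use
`exists_gap` and `exists_mix'` (compare the old theorem `cc`). -/
theorem tame {I : Type 1} (hI : Sm #I) (D : I → Set Cond) {t0 : Set At} (h : t0 ∈ PP) :
    ∃ t β, KK β ∧ t ∈ PV (base β).ord ∧ t0 ⊆ t ∧
      ∀ i, ∀ u ∈ D i, t ⊆ u.q → ∃ w ∈ D i ∩ Low β, ∃ z ≤ u, z ≤ w := by
  obtain ⟨η, hη, hI⟩ := hI
  let X := {z : Set At × Ordinal.{0} // KK z.2 ∧ #I < lc (base z.2) ∧ z.1 ∈ PP}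
  have step : ∀ x : X, ∃ y : X, x.1.2 ≤ y.1.2 ∧ y.1.1 ∈ PV (base y.1.2).ord ∧ x.1.1 ⊆ y.1.1 ∧
      res (base x.1.2).ord y.1.1 = res (base x.1.2).ord x.1.1 ∧ ∀ i, ∀ u ∈ D i, y.1.1 ⊆ u.q →
        ∃ w ∈ D i ∩ Low y.1.2, (∀ ζ < x.1.2, w.b ζ = u.b ζ) ∧ ∃ k ∈ PP, u.q ⊆ k ∧ w.q ⊆ k :=
    fun x =>
      let ⟨t', γ, a1, a2, a3, a4⟩ := tame_step D x.2.1 x.2.2.1 x.2.2.2
      ⟨⟨(t', γ), a1, x.2.2.1.trans_le (Cardinal.lift_le.2 (base_strict.monotone a2)), γ, a1, a3⟩,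
        a2, a3, a4⟩
  choose f f1 f2 f3 f4 f5 using step
  obtain ⟨x, x0, x1⟩ : ∃ x : ℕ → X, (x 0).1.1 = t0 ∧ ∀ n, x (n + 1) = f (x n) :=
    ⟨fun n => f^[n] ⟨(t0, η + 1), hη.succ,
      hI.trans (Cardinal.lift_lt.2 (nu_lt_base (lt_add_one η) 1)), h⟩, rfl,
      fun n => iterate_succ_apply' _ _ _⟩
  obtain ⟨β, b1, b2⟩ := (Sm.aleph0.mono mk_le_aleph0).bdd
    (fun n : ULift.{1} ℕ => (x n.down).1.2) fun n => (x _).2.1
  refine ⟨⋃ n, (x n).1.1, β, b1, iUnion_PV (c := fun n => (base (x n).1.2).ord)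
    (monotone_nat_of_le_succ fun n => base_le (x1 n ▸ f1 _)) (fun n => ?_)
    (monotone_nat_of_le_succ fun n => x1 n ▸ f3 _) (fun n => x1 n ▸ f4 _)
    fun n => base_le (b2 ⟨n⟩).le, x0 ▸ subset_iUnion (fun n => (x n).1.1) 0, fun i u hu e => ?_⟩
  · obtain ⟨_, -, a⟩ := (x n).2.2.2
    exact PV.of_st a fun z k => x1 n ▸ PV.st (f2 _) z (f3 _ k)
  · obtain ⟨n, hn⟩ := exists_gap u (β := fun n => (x n).1.2)
    have e' := (subset_iUnion (fun n => (x n).1.1) (n + 1)).trans e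
    have b3 := (b2 ⟨n + 1⟩).le
    rw [x1 n] at hn e' b3
    obtain ⟨w, ⟨w1, w2⟩, w3, k, k1, k2, k3⟩ := f5 _ i u hu e'
    have c : LB (f (x n)).1.2 w u := fun ζ l => (lt_or_ge ζ _).elim
      (fun m => w3 ζ m ▸ BLe.refl (w.ok ζ)) fun m => hn ζ m l ▸ le_triv (w.ok ζ)
    obtain ⟨z, z1, z2, z3, -⟩ := exists_mix' c k1 k2 fun ζ _ => (w.sub ζ).trans k3
    exact ⟨w, ⟨w1, Low.mono w2 b3⟩, z, z1, (LB.of_eq z3).le
      ⟨z2 ▸ k3, fun ζ l => w2.2 ζ l ▸ le_triv (z.ok ζ)⟩⟩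

/-- Boolean values decided below `β`. -/
def Lo (β : Ordinal.{0}) (b : RO Cond) : Prop := ∀ u ∈ b.s, ∀ v, Lw β v u → v ∈ b.s

theorem Lo.compl {b : RO Cond} (h : Lo β b) : Lo β bᶜ := fun u a v c q d e =>
  let ⟨z, z0, z1, _⟩ := exists_mix ((Lw.of_le d).trans c)
  a z z0 (h q e z z1)

theorem lo_hull {A : Set Cond} (h : ∀ u ∈ A, ∀ v, Lw β v u → v ∈ A) : Lo β (RO.hull A) := by
  intro u a v c q d
  obtain ⟨z, z0, z1, -⟩ := exists_mix ((Lw.of_le d).trans c)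
  obtain ⟨r, r1, x, r2, r3⟩ := a z z0
  obtain ⟨y, y0, y1, -⟩ := exists_mix ((Lw.of_le r1).trans z1)
  exact ⟨y, y0, y, h x r2 y (y1.trans (Lw.of_le r3)), le_rfl⟩

theorem Lo.mono {γ : Ordinal.{0}} {b : RO Cond} (h : Lo β b) (k : β ≤ γ) : Lo γ b :=
  fun u a v c => h u a v (c.mono k)

theorem Lo.inf {a b : RO Cond} (h : Lo β a) (k : Lo β b) : Lo β (a ⊓ b) := fun u l v c =>
  RO.mem_inf.2 ⟨h u (RO.mem_inf.1 l).1 v c, k u (RO.mem_inf.1 l).2 v c⟩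

/-- The value of a condition of the iteration. -/
def tv (t : Set At) : RO Cond := RO.hull {u | t ⊆ u.q}

theorem mem_tv {t : Set At} (h : t ⊆ u.q) : u ∈ (tv t).s := RO.mem_hull (a := u) h le_rfl

theorem tv_ex {t : Set At} (h : u ∈ (tv t).s) : ∃ v ≤ u, t ⊆ v.q :=
  let ⟨v, a, _, b, d⟩ := h u le_rfl
  ⟨v, a, Subset.trans b d.1⟩

theorem exists_lo {I : Type 1} (hI : Sm #I) (b : I → RO Cond) {t0 : Set At} (h : t0 ∈ PP) :
    ∃ t ∈ PP, t0 ⊆ t ∧ ∃ β, KK β ∧ ∀ i, Lo β (tv t ⊓ b i) := by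
  obtain ⟨t, β, a1, a2, a3, a4⟩ := tame hI (fun i => (b i)ᶜ.s) h
  have e : Lo β (tv t) := lo_hull fun u k v l => (PV.sub_res a2 k).trans l.1
  refine ⟨t, ⟨β, a1, a2⟩, a3, β, a1, fun i u a v c => ?_⟩
  have f := e u (RO.mem_inf.1 a).1 v c
  refine RO.mem_inf.2 ⟨f, (b i).reg v fun q d => by_contra fun e => ?_⟩
  obtain ⟨q', q1, q2⟩ := tv_ex ((tv t).lower d f)
  obtain ⟨w, ⟨w1, w2⟩, z, t1, t2⟩ := a4 i q' (fun r f g => e ⟨r, f.trans q1, g⟩) q2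
  obtain ⟨y, y0, y1, -⟩ := exists_mix ((Lw.of_le (t1.trans (q1.trans d))).trans c)
  exact w1 y ((y1.2.trans (LB.of_le t2)).le ⟨(PV.sub_res w2.1 t2.1).trans y1.1,
    fun ζ k => w2.2 ζ k ▸ le_triv (y.ok ζ)⟩) ((b i).lower y0 (RO.mem_inf.1 a).2)

theorem mk_lo (hβ : KK β) : Sm #{b | Lo β b} := by
  have key : ∀ b b' : RO Cond, Lo β b → Lo β b' → b.s ∩ Low β ⊆ b'.s ∩ Low β → b ≤ b' := by
    intro b b' h h' e u a
    obtain ⟨r, r2, r0, r1⟩ := exists_low u β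
    exact h' r (e ⟨h u a r ⟨r0.ge, LB.of_eq r1⟩, r2⟩).1 u
      ⟨(res_sub _ _).trans (r0.le.trans (res_sub _ _)), LB.of_eq fun ζ k => (r1 ζ k).symm⟩
  exact ⟨β, hβ, mk_lt_of_map (mk_subsets (nu_in β 0).isStrongLimit
    (mk_low hβ (nu_st β 0) (nu_lt_succ β 0)))
    (fun b => b.s ∩ Low β) (fun _ _ => inter_subset_right)
    fun b h b' h' e => (key b b' h h' e.le).antisymm (key b' b h' h e.ge)⟩

theorem Lo.sg {b : RO Cond} (h : Lo β b) (π : GG) : Lo β (sg π b) :=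
  fun _ a _ c => h _ a _ (c.act π⁻¹)

theorem Lo.fix {b : RO Cond} (h : Lo β b) {π : GG} (hπ : ∀ ζ < β, π ζ = 1) :
    Pool.Agent.SC7292.sg π b = b :=
  have e : ∀ ζ < β, π⁻¹ ζ = 1 := fun ζ k => by rw [Pi.inv_apply, hπ ζ k, inv_one]
  RO.ext (Set.ext fun p => ⟨fun a => h _ a _ ⟨res_sub _ _, LB.of_eq fun _ k =>
    (smul_low e p k).symm⟩, fun a => h _ a _ ⟨res_sub _ _, LB.of_eq fun _ k => smul_low e p k⟩⟩)

end Pool.Agent.SC7292
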