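import Pool.Agent.MP_7b2404_lc.Defs

/-!
The large cardinal hypothesis, and the notions of the problem inside a structure `(M, E)`.
-/

namespace Pool.Agent.SC7292

open Cardinal Filter Pool.Agent.Lib.Forcing Pool.Agent.MP_7b2404_lc

/-- `κ` is supercompact: it is uncountable, and for every set `α` there is a `κ`-complete, fine
and normal ultrafilter on the subsets of `α` of size less than `κ`. -/
def Supercompact (κ : Cardinal.{0}) : Prop :=
  ℵ₀ < κ ∧ ∀ α : Type, ∃ U : Ultrafilter (Set α),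
    CardinalInterFilter (U : Filter (Set α)) κ ∧ (∀ᶠ x : Set α in (U : Filter (Set α)), #x < κ) ∧
    (∀ a, ∀ᶠ x in (U : Filter (Set α)), a ∈ x) ∧
    ∀ h : Set α → α, (∀ᶠ x in (U : Filter (Set α)), h x ∈ x) →
      ∃ a, ∀ᶠ x in (U : Filter (Set α)), h x = a

universe u

variable {M : Type u} (E : M → M → Prop)

/-- `(M, E)` is a model of ZF. -/
structure ZF : Prop where
  ext : ∀ x y, (∀ z, E z x ↔ E z y) → x = y
  found : ∀ x, (∃ y, E y x) → ∃ y, E y x ∧ ∀ z, E z y → ¬ E z x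
  pair : ∀ x y, ∃ p, ∀ z, E z p ↔ z = x ∨ z = y
  union : ∀ x, ∃ u, ∀ z, E z u ↔ ∃ y, E y x ∧ E z y
  power : ∀ x, ∃ p, ∀ z, E z p ↔ ∀ t, E t z → E t x
  inf : ∃ w, Ind E w
  sep : ∀ (φ : Fml) (v : ℕ → M) (x : M), ∃ y, ∀ z,
    E z y ↔ E z x ∧ Sat E φ (Function.update v 0 z)
  repl : ∀ (φ : Fml) (v : ℕ → M) (x : M),
    (∀ a, E a x → ∃! b, Sat E φ (Function.update (Function.update v 0 a) 1 b)) →
    ∃ y, ∀ b, E b y ↔ ∃ a, E a x ∧ Sat E φ (Function.update (Function.update v 0 a) 1 b)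

/-- `l = k⁺`, the least cardinal above `k`. -/
def Nxt (k l : M) : Prop := Card E l ∧ E k l ∧ ∀ c, Card E c → E k c → Sub E l c

/-- `k` is singular: a strictly increasing function from some `a < k` into `k` has cofinal
range. -/
def Sing (k : M) : Prop :=
  ∃ a f, E a k ∧ Fn E a (fun _ y => E y k) f ∧
    (∀ x x' y y', Ap E f x y → Ap E f x' y' → E x x' → E y y') ∧
    ∀ z, E z k → ∃ x y, Ap E f x y ∧ Sub E z y

end Pool.Agent.SC7292
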