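import Pool.Agent.SC7292.Proj

/-!
The cardinals of the blocks, small cardinals, parameters of the blocks.
-/

namespace Pool.Agent.SC7292

open Cardinal Ordinal Set Function Pool.Agent.MP_7b2404_lc

/-- The large cardinal hypothesis. -/
class Hyp : Prop where
  out : ∀ c : Cardinal.{0}, ∃ κ, c < κ ∧ Supercompact κ

/-- The next large cardinal. -/
noncomputable def nx (c : Cardinal.{0}) : Cardinal.{0} := sInf {κ | c < κ ∧ Supercompact κ}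

/-- The first cardinal of a block. -/
noncomputable def base (η : Ordinal.{0}) : Cardinal.{0} :=
  max ℵ₀ (⨆ ζ : Iio η, ⨆ k : ℕ, (nx ∘ nx)^[k] (base ζ.1))
termination_by η
decreasing_by exact ζ.2

/-- The cardinals of a block. -/
noncomputable def nu (η : Ordinal.{0}) (k : ℕ) : Cardinal.{0} := (nx ∘ nx)^[k] (base η)

/-- Ordinals below every inaccessible limit of large cardinals. -/
def KK (η : Ordinal.{0}) : Prop :=
  ∀ θ : Cardinal.{0}, θ.IsInaccessible → (∀ c < θ, nx c < θ) → η < θ.ord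

/-- Small cardinals. -/
def Sm (c : Cardinal.{1}) : Prop := ∃ η, KK η ∧ c < lc (nu η 1)

theorem nu_succ (η : Ordinal.{0}) (k : ℕ) : nu η (k + 1) = nx (nx (nu η k)) :=
  iterate_succ_apply' _ _ _

theorem base_eq (η : Ordinal.{0}) : base η = max ℵ₀ (⨆ ζ : Iio η, ⨆ k : ℕ, nu ζ.1 k) := by
  rw [base]
  rfl

theorem base_zero : base 0 = ℵ₀ := by
  have : IsEmpty (Iio (0 : Ordinal.{0})) := ⟨fun a => not_lt_zero (mem_Iio.1 a.2)⟩
  simp [base_eq]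

theorem aleph0_le_base (η : Ordinal.{0}) : ℵ₀ ≤ base η := base_eq η ▸ le_max_left _ _

theorem lt_base {η : Ordinal.{0}} {c : Cardinal.{0}} (h : c < base η) :
    c < ℵ₀ ∨ ∃ ζ < η, ∃ k, c < nu ζ k := by
  rw [base_eq, lt_max_iff] at h
  refine h.imp_right fun h => ?_
  obtain ⟨ζ, h⟩ := exists_lt_of_lt_ciSup' h
  obtain ⟨k, h⟩ := exists_lt_of_lt_ciSup' h
  exact ⟨ζ, ζ.2, k, h⟩

theorem KK.mono {α β : Ordinal.{0}} (h : KK α) (h' : β ≤ α) : KK β :=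
  fun θ a b => h'.trans_lt (h θ a b)

theorem KK.zero : KK 0 := fun _ hθ _ => hθ.isRegular.ord_pos

theorem KK.succ {α : Ordinal.{0}} (h : KK α) : KK (α + 1) := fun θ a b =>
  (Cardinal.isSuccLimit_ord a.isRegular.aleph0_le).add_one_lt (h θ a b)

theorem KK.max {α β : Ordinal.{0}} (h : KK α) (h' : KK β) : KK (max α β) := by
  rcases max_choice α β with e | e <;> rwa [e]

theorem KK.nu_lt {η : Ordinal.{0}} (h : KK η) {θ : Cardinal.{0}} (a : θ.IsInaccessible)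
    (b : ∀ c < θ, nx c < θ) (k : ℕ) : nu η k < θ := by
  induction η using WellFoundedLT.induction generalizing k with
  | _ η ih =>
    induction k with
    | zero =>
      refine (base_eq η).trans_lt (max_lt a.aleph0_lt (lift_iSup_lt_of_lt_cof_ord ?_ fun ζ =>
        iSup_lt_of_lt_cof_ord (by simpa [a.isRegular.cof_ord] using a.aleph0_lt)
          (ih _ ζ.2 (h.mono (le_of_lt ζ.2)))))
      rw [a.isRegular.lift.cof_ord, Cardinal.lift_uzero]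
      exact mk_Iio_lt (h θ a b)
    | succ k ih' => exact nu_succ η k ▸ b _ (b _ ih')

variable [Hyp]

theorem nx_sc (c : Cardinal.{0}) : c < nx c ∧ Supercompact (nx c) := csInf_mem (Hyp.out c)

theorem nx_spec (c : Cardinal.{0}) : c < nx c ∧ (nx c).IsInaccessible ∧ Prep (nx c) :=
  ⟨(nx_sc c).1, (nx_sc c).2.inacc, (nx_sc c).2, c, (nx_sc c).1,
    fun _ a b d => b.not_ge (csInf_le' ⟨a, d⟩)⟩

theorem nx_st (c : Cardinal.{0}) : Stage (nx c).ord := (nx_sc c).2.stage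

theorem nx_mono : Monotone nx := fun _ b h =>
  csInf_le' ⟨h.trans_lt (nx_sc b).1, (nx_sc b).2⟩

theorem nu_lt_succ (η : Ordinal.{0}) (k : ℕ) : nu η k < nu η (k + 1) :=
  nu_succ η k ▸ (nx_spec _).1.trans (nx_spec _).1

theorem nx_nu (η : Ordinal.{0}) (k : ℕ) : nx (nu η k) < nu η (k + 1) :=
  nu_succ η k ▸ (nx_spec _).1

theorem nu_st (η : Ordinal.{0}) (k : ℕ) : Stage (nu η (k + 1)).ord := nu_succ η k ▸ nx_st _

theorem nu_strict (η : Ordinal.{0}) : StrictMono (nu η) := strictMono_nat_of_lt_succ (nu_lt_succ η)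

theorem nu_in (η : Ordinal.{0}) (k : ℕ) : (nu η (k + 1)).IsInaccessible :=
  nu_succ η k ▸ (nx_spec _).2.1

theorem nu_lt_base {ζ η : Ordinal.{0}} (h : ζ < η) (k : ℕ) : nu ζ k < base η := by
  rw [base_eq η]
  refine (nu_lt_succ ζ k).trans_le (le_max_of_le_right ?_)
  exact le_ciSup_of_le (f := fun ζ : Iio η => ⨆ k : ℕ, nu ζ.1 k) (Cardinal.bddAbove_range _) ⟨ζ, h⟩
    (le_ciSup (Cardinal.bddAbove_range _) _)

theorem nu_lt_nu {ζ η : Ordinal.{0}} (h : ζ < η) (k l : ℕ) : nu ζ k < nu η l :=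
  (nu_lt_base h k).trans_le ((nu_strict η).monotone (Nat.zero_le l))

theorem base_strict : StrictMono base := fun _ _ h => nu_lt_base h 0

theorem nu_mono {ζ η : Ordinal.{0}} (h : ζ ≤ η) (k : ℕ) : nu ζ k ≤ nu η k :=
  h.eq_or_lt.elim (fun e => e ▸ le_rfl) fun h => (nu_lt_nu h k k).le

theorem aleph0_le_nu (η : Ordinal.{0}) (k : ℕ) : ℵ₀ ≤ nu η k :=
  (aleph0_le_base η).trans ((nu_strict η).monotone (Nat.zero_le k))

theorem card_le_base (η : Ordinal.{0}) : η.card ≤ base η := by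
  have : StrictMono fun η => (base η).ord := fun _ _ h => Cardinal.ord_lt_ord.2 (base_strict h)
  simpa using Ordinal.card_le_card (this.le_apply (x := η))

theorem nx_lt_base {η : Ordinal.{0}} (hη : 0 < η) {c : Cardinal.{0}} (h : c < base η) :
    nx c < base η := by
  obtain h | ⟨ζ, a, k, h⟩ := lt_base h
  · exact (nx_mono (h.le.trans (aleph0_le_base 0))).trans_lt ((nx_nu 0 0).trans (nu_lt_base hη 1))
  · exact (nx_mono h.le).trans_lt ((nx_nu ζ k).trans (nu_lt_base a _))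

theorem base_sl (η : Ordinal.{0}) : (base η).IsStrongLimit := by
  rcases (zero_le (a := η)).eq_or_lt with rfl | h
  · exact base_zero ▸ isStrongLimit_aleph0
  · exact ⟨(aleph0_pos.trans_le (aleph0_le_base η)).ne', fun c hc =>
      ((nx_spec c).2.1.isStrongLimit.two_power_lt (nx_spec c).1).trans (nx_lt_base h hc)⟩

theorem lt_base_succ {η : Ordinal.{0}} {c : Cardinal.{0}} : c < base (η + 1) ↔ ∃ k, c < nu η k := by
  refine ⟨fun h => ?_, fun ⟨k, h⟩ => h.trans (nu_lt_base (lt_add_one η) k)⟩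
  obtain h | ⟨ζ, a, k, h⟩ := lt_base h
  · exact ⟨0, h.trans_le (aleph0_le_base η)⟩
  · exact ⟨k, h.trans_le (nu_mono (Order.lt_add_one_iff.1 a) k)⟩

theorem exists_lev {c : Cardinal.{0}} (h : ℵ₀ ≤ c) {β : Ordinal.{0}} (hβ : c < base β) :
    ∃ η < β, ∃ k, nu η k ≤ c ∧ c < nu η (k + 1) := by
  induction β using WellFoundedLT.induction with
  | _ β ih =>
    obtain ⟨ζ, a, k, b⟩ := (lt_base hβ).resolve_left h.not_gt
    rcases lt_or_ge c (base ζ) with d | d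
    · obtain ⟨η, e, f⟩ := ih ζ a d
      exact ⟨η, e.trans a, f⟩
    · refine ⟨ζ, a, ?_⟩
      induction k with
      | zero => exact (b.not_ge d).elim
      | succ k ih' => exact (lt_or_ge c (nu ζ k)).elim ih' fun e => ⟨k, e, b⟩

namespace Sm

theorem mono {a b : Cardinal.{1}} (h : Sm b) (h' : a ≤ b) : Sm a :=
  let ⟨η, x, y⟩ := h; ⟨η, x, h'.trans_lt y⟩

theorem nu {η : Ordinal.{0}} (h : KK η) (k : ℕ) : Sm (lc (nu η k)) :=
  ⟨η + 1, h.succ, Cardinal.lift_lt.2 (nu_lt_nu (lt_add_one η) _ _)⟩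

theorem aleph0 : Sm ℵ₀ := (nu KK.zero 0).mono (aleph0_le_lift.2 (aleph0_le_base 0))

theorem pow {a b : Cardinal.{1}} (h : Sm a) (h' : Sm b) : Sm (a ^ b) :=
  let ⟨η, x, y⟩ := h
  let ⟨ζ, x', y'⟩ := h'
  ⟨max η ζ, x.max x', pow_lt_lc (nu_in _ 0).isStrongLimit
    (y.trans_le (Cardinal.lift_le.2 (nu_mono (le_max_left _ _) 1)))
    (y'.trans_le (Cardinal.lift_le.2 (nu_mono (le_max_right _ _) 1)))⟩

omit [Hyp] in
theorem bdd {ι : Type 1} (h : Sm #ι) (a : ι → Ordinal.{0}) (ha : ∀ i, KK (a i)) :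
    ∃ b, KK b ∧ ∀ i, a i < b := by
  obtain ⟨η, x, y⟩ := h
  obtain ⟨J, φ, hJ⟩ := small_of_lt y
  refine ⟨(⨆ j, a (φ j)) + 1, KK.succ fun θ b c => iSup_lt_of_lt_cof ?_ fun i => ha _ θ b c,
    fun i => ?_⟩
  · exact b.isRegular.cof_ord.symm ▸ hJ.trans (x.nu_lt b c 1)
  · obtain ⟨j, rfl⟩ := φ.surjective i
    exact Order.lt_add_one_iff.2 (Ordinal.le_iSup (fun i => a (φ i)) j)

theorem sum {ι : Type 1} (h : Sm #ι) {f : ι → Cardinal.{1}} (hf : ∀ i, Sm (f i)) : Sm (sum f) := by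
  choose a a1 a2 using hf
  obtain ⟨b, b1, b2⟩ := h.bdd a a1
  obtain ⟨η, x, y⟩ := h
  exact ⟨max η b, x.max b1, sum_lt_of_isRegular (nu_in _ 0).isRegular.lift
    (y.trans_le (Cardinal.lift_le.2 (nu_mono (le_max_left _ _) 1))) fun i => (a2 i).trans_le
      (Cardinal.lift_le.2 (nu_mono ((b2 i).le.trans (le_max_right _ _)) 1))⟩

end Sm

theorem exists_par {η : Ordinal.{0}} (h : KK η) :
    ∃ P : Par, P.ν = nu η ∧ P.Ω = (base (η + 1)).ord := by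
  have h0 : ∀ δ, δ < (base (η + 1)).ord ↔ ∃ k, δ < (nu η k).ord := fun δ => by
    simp only [lt_ord, lt_base_succ]
  have h1 : ∀ k, Prep (nu η (k + 1)) := fun k => nu_succ η k ▸ (nx_spec _).2.2
  have h2 : ∀ k, ∃ κ, Supercompact κ ∧ nu η k < κ ∧ κ < nu η (k + 1) :=
    fun k => ⟨_, (nx_sc _).2, (nx_sc _).1, nx_nu η k⟩
  rcases (zero_le (a := η)).eq_or_lt with rfl | hη
  · exact ⟨⟨nu 0, ω, fun _ => ℵ₀, _, h1, h2, base_sl 0, h0, le_rfl,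
      fun h => h.false.elim, fun _ => pre_aleph0,
      fun _ _ => aleph0_le_base 0, monotone_const,
      fun c hc => ⟨0, omega0_pos, hc.trans_eq base_zero⟩⟩, rfl, rfl⟩
  have hl := Cardinal.isSuccLimit_ord (aleph0_le_base η)
  have hc : (base η).ord.cof < base η := by
    refine lt_of_le_of_ne (cof_ord_le _) fun e => ?_
    exact (h.nu_lt ⟨(aleph0_le_base 0).trans_lt (base_strict hη), e.ge,
      (base_sl η).isStrongPrelimit⟩ (fun c => nx_lt_base hη) 0).false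
  obtain ⟨f, hf⟩ := exists_isFundamentalSeq (o := (base η).ord) rfl
  have hr := isRegular_cof hl
  generalize e : (base η).ord.cof = κ at f hf hc hr
  let s : Ordinal.{0} → Cardinal.{0} := fun α => ⨆ i : {i : Iio κ.ord // i.1 ≤ α}, (f i.1).1.card
  have s1 : ∀ α, ∀ i : Iio κ.ord, i.1 ≤ α → (f i).1.card ≤ s α := fun α i k =>
    le_ciSup (f := fun i : {i : Iio κ.ord // i.1 ≤ α} => (f i.1).1.card)
      (Cardinal.bddAbove_range _) ⟨i, k⟩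
  have s2 : ∀ α < κ.ord, s α < base η := by
    refine fun α hα => lift_iSup_lt_of_lt_cof_ord ?_ fun i => lt_ord.1 (mem_Iio.1 (f i.1).2)
    rw [← lift_ord, ← lift_cof, Cardinal.lift_uzero, e]
    refine lt_of_le_of_lt (mk_le_of_injective (f := fun i => (⟨i.1.1,
      Order.lt_add_one_iff.2 i.2⟩ : Iio (α + 1))) fun i j e => Subtype.ext (Subtype.ext
        (by simpa using e))) (mk_Iio_lt ?_)
    exact (Cardinal.isSuccLimit_ord hr.aleph0_le).add_one_lt hα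
  refine ⟨⟨nu η, κ.ord, fun α => nx (max (2 ^ κ) (s α)), _,
    h1, h2, base_sl η, h0, ?_, fun _ => ⟨_, hr, rfl,
      fun α => (le_max_left _ _).trans_lt (nx_spec _).1⟩,
    fun _ => (nx_spec _).2.2.pre, fun α hα => (nx_lt_base hη (max_lt ((base_sl η).two_power_lt hc)
      (s2 α hα))).le, fun a b e => nx_mono (max_le_max_left _ (ciSup_le' fun i =>
      s1 _ _ (i.2.trans e))), fun c a => ?_⟩, rfl, rfl⟩
  · rw [← ord_aleph0]
    exact Cardinal.ord_le_ord.2 hr.aleph0_le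
  · obtain ⟨_, ⟨i, rfl⟩, b⟩ := hf.isCofinal_range ⟨c.ord, Cardinal.ord_lt_ord.2 a⟩
    exact ⟨i, i.2, lt_of_le_of_lt (le_max_of_le_right ((Cardinal.ord_le.1 b).trans
      (s1 _ i le_rfl))) (nx_spec _).1⟩

open Classical in
/-- The parameters of block `η`. -/
noncomputable def par (η : Ordinal.{0}) : Par :=
  if h : KK η then (exists_par h).choose else (exists_par KK.zero).choose

theorem par_ν {η : Ordinal.{0}} (h : KK η) : (par η).ν = nu η := by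
  rw [par, dif_pos h]
  exact (exists_par h).choose_spec.1

theorem par_Ω {η : Ordinal.{0}} (h : KK η) : (par η).Ω = (base (η + 1)).ord := by
  rw [par, dif_pos h]
  exact (exists_par h).choose_spec.2

theorem par_b {η : Ordinal.{0}} (h : KK η) : (par η).b = (base η).ord :=
  congrArg (fun f => (f 0).ord) (par_ν h)

/-- The whole iteration. -/
def PP : Set (Set At) := {q | ∃ η, KK η ∧ q ∈ PV (base η).ord}

variable {c d η : Ordinal.{0}} {q s : Set At}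

theorem base_le {ζ : Ordinal.{0}} (h : ζ ≤ η) : (base ζ).ord ≤ (base η).ord :=
  Cardinal.ord_le_ord.2 (base_strict.monotone h)

omit [Hyp] in
theorem empty_PP : ∅ ∈ PP := ⟨0, KK.zero, empty_PV _⟩

omit [Hyp] in
theorem PP.res (h : q ∈ PP) (c : Ordinal.{0}) : res c q ∈ PV c := let ⟨_, _, a⟩ := h; PV.res a c

omit [Hyp] in
theorem PP.res_mem (h : q ∈ PP) (c : Ordinal.{0}) : SC7292.res c q ∈ PP :=
  let ⟨η, a, b⟩ := h
  ⟨η, a, (cut_res c _).mem _ b⟩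

theorem PP.two (h : q ∈ PP) (k : s ∈ PP) :
    ∃ η, KK η ∧ q ∈ PV (base η).ord ∧ s ∈ PV (base η).ord :=
  let ⟨η, a, b⟩ := h
  let ⟨ζ, d, e⟩ := k
  ⟨max η ζ, a.max d, PV.mono b (base_le (le_max_left _ _)), PV.mono e (base_le (le_max_right _ _))⟩

theorem PP.amal (hs : s ∈ PP) (hc : s ∈ PV c) (h : q ∈ PP) (e : SC7292.res c q ⊆ s) :
    s ∪ q ∈ PP :=
  let ⟨η, a, b, d⟩ := PP.two hs h
  ⟨η, a, PV.amal' b d (PV.res_eq hc le_rfl) e⟩

theorem PP.of_le (h : KK η) (hc : c ≤ (base η).ord) (hs : s ∈ PV c) : s ∈ PP :=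
  ⟨η, h, PV.mono hs hc⟩

theorem PP.of_Ω (h : KK η) (hs : s ∈ PV (par η).Ω) : s ∈ PP := ⟨η + 1, h.succ, par_Ω h ▸ hs⟩

theorem ppT_ok (h : KK η) : (pvT PP).OK (base η).ord where
  res_mem a c := PP.res a c
  gp_mono := monotone_id
  gp_up _ := rfl
  gp_sup _ _ := rfl
  up_le h := h
  up_mono := monotone_id
  amal a b c e := PP.amal (PP.of_le h a b) b c e
  bot := ⟨∅, empty_PP, rfl, empty_subset⟩
  of_le := fun ⟨_, _, a⟩ _ b => Sle.of_sub a b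
  mono := Sle.mono
  trans := fun a b ⟨_, _, d⟩ => a.trans b d
  sup_mem a b c := let ⟨η, d, e, f⟩ := PP.two b c; ⟨η, d, a.union_mem e f⟩
  sup := Sle.union
  sle_up h := h
  cl := fun {c ι u s0} a b e f g => by
    choose ζ z1 z2 using e
    obtain ⟨β, b1, b2⟩ := Sm.bdd ⟨η, h, by simpa using b _ (nu_st η 0) (a.trans
      (Cardinal.ord_le_ord.2 (nu_lt_succ η 0).le))⟩ ζ z1
    obtain ⟨w, c1, c2⟩ := PV.cl (a.trans (base_le (le_max_left η β))) b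
      (fun i => PV.mono (z2 i) (base_le ((b2 i).le.trans (le_max_right _ _)))) f g
    exact ⟨w, ⟨_, h.max b1, c1⟩, c2⟩

end Pool.Agent.SC7292

/-!
Conditions of the forcing; shrinking and advancing.
-/

namespace Pool.Agent.SC7292

open Cardinal Ordinal Set Function Pool.Agent.MP_7b2404_lc

/-- Shapes of block conditions. -/
structure Shape : Type 1 where
  n : ℕ
  e : Fin n ↪o ℝ
  ty : Fin n → Ty
  clk : Fin n → Ordinal.{0} × ℝ
  Φ : Phi (Fin n)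

/-- Block conditions. -/
structure BC : Type 1 where
  sh : Shape
  T : Set (State (Fin sh.n))
  rt : State (Fin sh.n)

theorem BC.ex (w : BC) {s : Shape} (h : w.sh = s) : ∃ T σ, w = ⟨s, T, σ⟩ := h ▸ ⟨_, _, rfl⟩

/-- The initial state. -/
def st0 (C : Type) : State C := (⟨fun _ => 0, fun _ => 0, fun _ => 0, fun _ => ∅⟩, ∅, ∅)

theorem val_st0 {C : Type} [LinearOrder C] (P : Par) (ty : C → Ty) : P.Val ty (st0 C) :=
  ⟨⟨fun _ => Par.zero_lt_ρ, fun _ => ⟨Par.zero_lt_ρ, empty_subset _, by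
    simpa [st0] using aleph0_pos.trans_le (P.ν0.trans (P.ν_mono.monotone (Nat.zero_le _)))⟩⟩,
    Par.QL_empty (empty_PV _)⟩

theorem hist_zero (h h' : Hist (Fin 0)) : h = h' :=
  Hist.ext (funext fun c => c.elim0) (funext fun c => c.elim0)
    (funext fun c => c.1.elim0) (funext fun c => c.1.elim0)

open Classical in
/-- The input read off a point of the clock. -/
noncomputable def rin (ρ : Ordinal.{0}) (x : Set Ordinal.{0}) : Ordinal.{0} :=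
  if sSup (x ∩ Iio ρ) < ρ then sSup (x ∩ Iio ρ) else 0

theorem rin_lt (P : Par) (x : Set Ordinal.{0}) : rin P.ρ x < P.ρ := by
  unfold rin
  split_ifs with h
  exacts [h, Par.zero_lt_ρ]

theorem le_rin {P : Par} (h : ω < P.ρ) {x : Set Ordinal.{0}} (hx : #x < lc P.ρ.card)
    {α : Ordinal.{0}} (h1 : α ∈ x) (h2 : α < P.ρ) : α ≤ rin P.ρ x := by
  obtain ⟨c, a, b, -⟩ := P.ρ_reg h
  rw [b, card_ord] at hx
  rw [rin, if_pos (b ▸ sSup_lt_reg a ((mk_le_mk_of_subset inter_subset_left).trans_lt hx)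
    inter_subset_right)]
  exact le_csSup ⟨P.ρ, fun _ k => le_of_lt k.2⟩ ⟨h1, h2⟩

/-- Coordinate `d` follows the inputs `A`. -/
def Fol1 {C : Type} (A : C × ℕ → Ordinal.{0}) (M : ℕ) (h h' : Hist C) (d : C) : Prop :=
  (h'.len d ≤ h.len d ∨ h'.len d ≤ M) ∧ (∀ i < h.len d, h'.inp (d, i) = h.inp (d, i)) ∧
    ∀ i, h.len d ≤ i → i < h'.len d → h'.inp (d, i) = A (d, i)

theorem Fol.one {C : Type} {A : C × ℕ → Ordinal.{0}} {M : ℕ} {h h' : Hist C} (k : Fol A M h h')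
    (d : C) : Fol1 A M h h' d :=
  ⟨k.2.1 d, fun i hi => (k.1.2 (d, i) hi).1, fun i => k.2.2 (d, i)⟩

theorem Par.Closed.fol_all {C : Type} [LinearOrder C] [Finite C] {P : Par} {ty : C → Ty}
    {Φ : Phi C} {D : Set (State C)} (hΦ : P.PhiOK ty Φ) (h : P.Closed ty Φ D) (h0 : Hist C)
    (B : ℕ) : ∃ M, ∀ g, (h0, g) ∈ D → ∀ A : C × ℕ → Ordinal.{0},
      (∀ m, P.Inp (ty m.1) m.2 (A m)) →
      ∃ τ ∈ D, g.1 ⊆ τ.2.1 ∧ Fol A M h0 τ.1 ∧ ∀ c, B ≤ τ.1.len c := by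
  rcases isEmpty_or_nonempty C with k | ⟨⟨c⟩⟩
  · exact ⟨0, fun g hσ A _ => ⟨_, hσ, subset_rfl, Fol.refl _ _ _, fun c => k.elim c⟩⟩
  · refine ⟨max B (h0.len c) + 1, fun g hσ A hA => ?_⟩
    obtain ⟨τ, a1, a2, a3, a4⟩ := h.fol hΦ hA c hσ (le_max_right B _)
    exact ⟨τ, a1, a2.1, a2.2, fun d => (le_max_left _ _).trans (a4 ▸ (a3 d).1)⟩

variable [Hyp]

/-- The trivial block condition. -/
noncomputable def triv (η : Ordinal.{0}) : BC :=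
  ⟨⟨0, OrderEmbedding.ofIsEmpty, Fin.elim0, Fin.elim0, fun _ _ _ _ => False⟩,
    {σ | (par η).Val Fin.elim0 σ}, st0 _⟩

/-- Valid shapes. -/
structure SOK (η : Ordinal.{0}) (s : Shape) : Prop where
  ty : ∀ c, (par η).TyOK (s.ty c)
  phi : (par η).PhiOK s.ty s.Φ
  clk : ∀ c, (s.clk c).1 ≤ η ∧ (¬ (par η).Clocked (s.ty c) → s.clk c = (η, s.e c))

/-- Valid block conditions. -/
structure BOK (η : Ordinal.{0}) (w : BC) : Prop extends SOK η w.sh where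
  cl : (par η).Closed w.sh.ty w.sh.Φ w.T
  rt : w.rt ∈ w.T
  ext : ∀ τ ∈ w.T, HExt w.rt.1 τ.1
  nz : w.sh.n = 0 → w = triv η

/-- Extension of shapes. -/
structure SLe (η : Ordinal.{0}) (s' s : Shape) (j : Fin s.n ↪o Fin s'.n) : Prop where
  e : ∀ c, s'.e (j c) = s.e c
  ty : ∀ c, s'.ty (j c) = s.ty c
  clk : ∀ c, s'.clk (j c) = s.clk c
  cmp : (par η).Compat s'.ty j s.Φ s'.Φ

/-- Extension of block conditions. -/
def BLe (η : Ordinal.{0}) (w' w : BC) : Prop :=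
  ∃ j, SLe η w'.sh w.sh j ∧ ∀ σ ∈ w'.T, proj j σ ∈ w.T

variable {η : Ordinal.{0}} {w w' w'' : BC} {s s' s'' : Shape}

theorem SLe.refl (h : SOK η s) : SLe η s s (RelEmbedding.refl _) :=
  ⟨fun _ => rfl, fun _ => rfl, fun _ => rfl, Par.compat_refl h.phi⟩

theorem SLe.trans (h : SOK η s'') {i j} (a : SLe η s'' s' i) (b : SLe η s' s j) :
    SLe η s'' s (j.trans i) :=
  ⟨fun c => (a.e _).trans (b.e c), fun c => (a.ty _).trans (b.ty c),
    fun c => (a.clk _).trans (b.clk c), b.cmp.trans h.phi a.ty a.cmp⟩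

theorem SLe.unique {i j} (a : SLe η s' s i) (b : SLe η s' s j) : i = j :=
  RelEmbedding.ext fun c => s'.e.injective ((a.e c).trans (b.e c).symm)

theorem BLe.of_sub (h : SOK η s) {T T' σ σ'} (k : T' ⊆ T) : BLe η ⟨s, T', σ'⟩ ⟨s, T, σ⟩ :=
  ⟨_, SLe.refl h, fun τ a => (proj_refl τ).symm ▸ k a⟩

theorem BLe.refl (h : BOK η w) : BLe η w w := BLe.of_sub h.toSOK subset_rfl

theorem BLe.trans (h : BOK η w'') (a : BLe η w'' w') (b : BLe η w' w) : BLe η w'' w :=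
  let ⟨_, a1, a2⟩ := a
  let ⟨_, b1, b2⟩ := b
  ⟨_, a1.trans h.toSOK b1, fun σ k => by rw [proj_comp]; exact b2 _ (a2 σ k)⟩

theorem BLe.sub (h : SOK η s) {T T' σ σ'} (k : BLe η ⟨s, T', σ'⟩ ⟨s, T, σ⟩) : T' ⊆ T := by
  obtain ⟨j, a, b⟩ := k
  obtain rfl := a.unique (SLe.refl h)
  exact fun τ k => proj_refl τ ▸ b τ k

theorem BOK.val (h : BOK η w) : (par η).Val w.sh.ty w.rt := (h.cl.1 _ h.rt).1

theorem BOK.cut (h : SOK η s) (hn : s.n ≠ 0) {T σ} (hT : (par η).Closed s.ty s.Φ T)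
    (hσ : σ ∈ T) : BOK η ⟨s, T ∩ {τ | (par η).Val s.ty τ ∧ HExt σ.1 τ.1}, σ⟩ :=
  ⟨h, hT.inter h.phi (Par.closed_ext h.phi _), ⟨hσ, (hT.1 _ hσ).1, HExt.refl _⟩,
    fun _ k => k.2.2, fun e => (hn e).elim⟩

theorem triv_ok (η : Ordinal.{0}) : BOK η (triv η) :=
  ⟨⟨fun c => c.elim0, Par.phi_empty (C := Fin 0), fun c => c.elim0⟩,
    ⟨fun _ k => ⟨k, fun _ a _ => Par.Val.ext k a⟩, fun _ _ c => c.elim0⟩, val_st0 _ _,
    fun τ _ => hist_zero τ.1 (triv η).rt.1 ▸ HExt.refl _, fun _ => rfl⟩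

theorem le_triv (h : BOK η w) : BLe η w (triv η) :=
  ⟨(OrderEmbedding.ofIsEmpty : Fin 0 ↪o _), ⟨fun c => c.elim0, fun c => c.elim0, fun c => c.elim0,
    fun _ c => c.elim0⟩, fun σ k => (h.cl.1 σ k).1.proj fun c => c.elim0⟩

theorem eq_triv (h : BOK η w) (e : w.sh = (triv η).sh) : w = triv η := h.nz (congrArg Shape.n e)

theorem SLe.ne {j} (a : SLe η s' s j) (h : s.n ≠ 0) : s'.n ≠ 0 :=
  (j ⟨0, Nat.pos_of_ne_zero h⟩).pos.ne'

/-- The clock `k` of the condition `p` yields the inputs `A` up to `L`. -/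
def Clk (p : Ordinal.{0} → BC) (η : Ordinal.{0}) (k : Ordinal.{0} × ℝ) (L : ℕ)
    (A : ℕ → Ordinal.{0}) : Prop :=
  k.1 < η ∧ ∃ c, (p k.1).sh.e c = k.2 ∧ (par k.1).ν ((p k.1).sh.ty c).k ≤ (par η).ρ.card ∧
    (par η).ρ ≤ ((p k.1).sh.ty c).θ ∧
    ∀ i < L, i < (p k.1).rt.1.len c ∧ A i = rin (par η).ρ ((p k.1).rt.1.pt (c, i))

/-- Coordinate `d` agrees with its clock. -/
def Cons1 (p : Ordinal.{0} → BC) (η : Ordinal.{0}) (s : Shape) (h : Hist (Fin s.n))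
    (d : Fin s.n) : Prop :=
  (par η).Clocked (s.ty d) → Clk p η (s.clk d) (h.len d) fun i => h.inp (d, i)

/-- Conditions. -/
@[ext] structure Cond : Type 1 where
  q : Set At
  b : Ordinal.{0} → BC
  pp : q ∈ PP
  ok : ∀ η, BOK η (b η)
  fin : {η | b η ≠ triv η}.Finite
  kk : ∀ η, b η ≠ triv η → KK η
  cons : ∀ η d, Cons1 b η (b η).sh (b η).rt.1 d
  sub : ∀ η, (b η).rt.2.1 ⊆ q

instance : Preorder Cond where
  le p q := q.q ⊆ p.q ∧ ∀ η, BLe η (p.b η) (q.b η)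
  le_refl p := ⟨subset_rfl, fun η => BLe.refl (p.ok η)⟩
  le_trans p _ _ a b := ⟨b.1.trans a.1, fun η => (a.2 η).trans (p.ok η) (b.2 η)⟩

/-- The trivial condition. -/
noncomputable def top : Cond :=
  ⟨∅, triv, empty_PP, triv_ok, by simp, by simp, fun _ d => d.elim0, fun _ => subset_rfl⟩

/-- Extension of the blocks below `β`. -/
def LB (β : Ordinal.{0}) (u r : Cond) : Prop := ∀ ζ < β, BLe ζ (u.b ζ) (r.b ζ)

/-- Extension below `β`. -/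
def Lw (β : Ordinal.{0}) (u r : Cond) : Prop := res (base β).ord r.q ⊆ u.q ∧ LB β u r

/-- Extension from `β` on, and of the iteration. -/
def Hg (β : Ordinal.{0}) (u q : Cond) : Prop :=
  q.q ⊆ u.q ∧ ∀ ζ, β ≤ ζ → BLe ζ (u.b ζ) (q.b ζ)

/-- Same shapes from `β` on. -/
def Ex (β : Ordinal.{0}) (q u : Cond) : Prop := ∀ ζ, β ≤ ζ → (u.b ζ).sh = (q.b ζ).sh

variable {p q u v : Cond} {β : Ordinal.{0}} {t : Set At}

theorem LB.of_le (h : u ≤ p) : LB β u p := fun ζ _ => h.2 ζ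

theorem Lw.of_le (h : u ≤ p) : Lw β u p := ⟨(res_sub _ _).trans h.1, LB.of_le h⟩

theorem Hg.of_le (h : u ≤ p) : Hg β u p := ⟨h.1, fun ζ _ => h.2 ζ⟩

theorem LB.trans (a : LB β u p) (b : LB β p q) : LB β u q :=
  fun ζ k => (a ζ k).trans (u.ok ζ) (b ζ k)

theorem Lw.trans (a : Lw β u p) (b : Lw β p q) : Lw β u q :=
  ⟨fun _ k => a.1 ⟨b.1 k, k.2⟩, a.2.trans b.2⟩

theorem Hg.trans (a : Hg β u p) (b : Hg β p q) : Hg β u q :=
  ⟨b.1.trans a.1, fun ζ k => (a.2 ζ k).trans (u.ok ζ) (b.2 ζ k)⟩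

theorem Hg.mono {γ : Ordinal.{0}} (a : Hg β u p) (k : β ≤ γ) : Hg γ u p :=
  ⟨a.1, fun ζ l => a.2 ζ (k.trans l)⟩

theorem LB.mono {γ : Ordinal.{0}} (a : LB β u p) (k : γ ≤ β) : LB γ u p :=
  fun ζ l => a ζ (l.trans_le k)

theorem Lw.mono {γ : Ordinal.{0}} (a : Lw β u p) (k : γ ≤ β) : Lw γ u p :=
  ⟨(res_mono_left (base_le k)).trans a.1, a.2.mono k⟩

theorem LB.of_eq (h : ∀ ζ < β, u.b ζ = p.b ζ) : LB β u p := fun ζ k => h ζ k ▸ BLe.refl (u.ok ζ)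

theorem Hg.of_eq (e : p.q ⊆ u.q) (h : ∀ ζ, β ≤ ζ → u.b ζ = p.b ζ) : Hg β u p :=
  ⟨e, fun ζ k => h ζ k ▸ BLe.refl (u.ok ζ)⟩

theorem LB.le (a : LB β u p) (b : Hg β u p) : u ≤ p :=
  ⟨b.1, fun ζ => (lt_or_ge ζ β).elim (a ζ) (b.2 ζ)⟩

theorem Ex.trans (a : Ex β q p) (b : Ex β p u) : Ex β q u := fun ζ k => (b ζ k).trans (a ζ k)

theorem Ex.mono (a : Ex 0 q p) : Ex β q p := fun ζ _ => a ζ zero_le

theorem SLe.hext (h : BOK η w) (h' : BOK η w') {j : Fin w.sh.n ↪o Fin w'.sh.n}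
    (k : ∀ σ ∈ w'.T, proj j σ ∈ w.T) : HExt w.rt.1 (hmap j w'.rt.1) := h.ext _ (k _ h'.rt)

theorem Clk.mono {p u : Ordinal.{0} → BC} {k L A} (h : Clk p η k L A) (hp : ∀ ζ < η, BOK ζ (p ζ))
    (hu : ∀ ζ < η, BOK ζ (u ζ)) (a : ∀ ζ < η, BLe ζ (u ζ) (p ζ)) : Clk u η k L A := by
  obtain ⟨h0, c, h1, h2, h3, h4⟩ := h
  obtain ⟨j, a1, a2⟩ := a _ h0
  have := SLe.hext (hp _ h0) (hu _ h0) a2
  refine ⟨h0, j c, (a1.e c).trans h1, a1.ty c ▸ h2, a1.ty c ▸ h3, fun i hi => ⟨(h4 i hi).1.trans_le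
    (this.1 c).1, (h4 i hi).2.trans (congrArg _ (this.2 (c, i) (h4 i hi).1).2.symm)⟩⟩

theorem Clk.unique {p : Ordinal.{0} → BC} {k L L' A A'} (h : Clk p η k L A) (h' : Clk p η k L' A')
    {i : ℕ} (a : i < L) (b : i < L') : A i = A' i := by
  obtain ⟨-, c, h1, -, -, h4⟩ := h
  obtain ⟨-, c', h1', -, -, h4'⟩ := h'
  obtain rfl := (p k.1).sh.e.injective (h1.trans h1'.symm)
  exact (h4 i a).2.trans (h4' i b).2.symm

theorem Cons1.mono {h d} (k : Cons1 p.b η s h d) (a : LB η u p) : Cons1 u.b η s h d :=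
  fun c => (k c).mono (fun ζ _ => p.ok ζ) (fun ζ _ => u.ok ζ) a

theorem Cons1.proj {p : Ordinal.{0} → BC} {j} (a : SLe η s' s j) {h d} :
    Cons1 p η s (hmap j h) d ↔ Cons1 p η s' h (j d) := by
  simp only [Cons1, a.ty, a.clk, hmap]

theorem Cond.consE {T σ} (hp : p.b η = ⟨s, T, σ⟩) (d : Fin s.n) : Cons1 p.b η s σ.1 d := by
  have := p.cons η
  rw [hp] at this
  exact this d

theorem Cond.cons_of (c : Cond) {b : Ordinal.{0} → BC} (hb : ∀ ζ, BOK ζ (b ζ)) (e : b η = c.b η)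
    (h : ∀ ζ < η, BLe ζ (b ζ) (c.b ζ)) : ∀ d, Cons1 b η (b η).sh (b η).rt.1 d := by
  rw [e]
  exact fun d k => (c.cons η d k).mono (fun ζ _ => c.ok ζ) (fun ζ _ => hb ζ) h

theorem Cond.ne_triv (h : (p.b η).sh.n ≠ 0) : p.b η ≠ triv η := fun e => h (by rw [e]; rfl)

theorem Cond.sub_res (u : Cond) {ζ : Ordinal.{0}} (k : ζ < β) :
    (u.b ζ).rt.2.1 ⊆ res (base β).ord u.q := by
  by_cases e : u.b ζ = triv ζ
  · rw [e]
    exact empty_subset _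
  · exact PV.sub_res (PV.mono (u.ok ζ).val.2.1 ((par_Ω (u.kk ζ e)).trans_le
      (base_le (Order.add_one_le_of_lt k)))) (u.sub ζ)

theorem exists_mix' (h : LB β u p) (ht : t ∈ PP) (e : p.q ⊆ t)
    (e' : ∀ ζ < β, (u.b ζ).rt.2.1 ⊆ t) :
    ∃ v ≤ p, v.q = t ∧ (∀ ζ < β, v.b ζ = u.b ζ) ∧ ∀ ζ, β ≤ ζ → v.b ζ = p.b ζ := by
  classical
  let b : Ordinal.{0} → BC := fun ζ => if ζ < β then u.b ζ else p.b ζ
  have h1 : ∀ ζ < β, b ζ = u.b ζ := fun ζ k => if_pos k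
  have h2 : ∀ ζ, β ≤ ζ → b ζ = p.b ζ := fun ζ k => if_neg k.not_gt
  have h3 : ∀ ζ, b ζ = u.b ζ ∨ b ζ = p.b ζ := fun ζ => (lt_or_ge ζ β).imp (h1 ζ) (h2 ζ)
  have h4 : ∀ ζ, BOK ζ (b ζ) := fun ζ => (h3 ζ).elim (fun e => e ▸ u.ok ζ) fun e => e ▸ p.ok ζ
  have h5 : ∀ ξ, BLe ξ (b ξ) (p.b ξ) := fun ξ => (lt_or_ge ξ β).elim (fun l => h1 ξ l ▸ h ξ l)
    fun l => by rw [h2 ξ l]; exact BLe.refl (p.ok ξ)
  refine ⟨⟨t, b, ht, h4, (u.fin.union p.fin).subset fun ζ k => (h3 ζ).imp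
    (fun e => e.symm.trans_ne k) fun e => e.symm.trans_ne k, fun ζ k => (h3 ζ).elim
    (fun e => u.kk ζ (e ▸ k)) fun e => p.kk ζ (e ▸ k), fun ζ => ?_, fun ζ => (lt_or_ge ζ β).elim
    (fun k => h1 ζ k ▸ e' ζ k) fun k => h2 ζ k ▸ (p.sub ζ).trans e⟩, ⟨e, h5⟩, rfl, h1, h2⟩
  rcases lt_or_ge ζ β with k | k
  · exact u.cons_of h4 (h1 ζ k) fun ξ l => by rw [h1 ξ (l.trans k)]; exact BLe.refl (u.ok ξ)
  · exact p.cons_of h4 (h2 ζ k) fun ξ _ => h5 ξ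

theorem exists_mix (h : Lw β u p) : ∃ v ≤ p, Lw β v u ∧ v.q = res (base β).ord u.q ∪ p.q ∧
    (∀ ζ < β, v.b ζ = u.b ζ) ∧ ∀ ζ, β ≤ ζ → v.b ζ = p.b ζ :=
  let ⟨v, a, b, c, d⟩ := exists_mix' h.2 (PP.amal (PP.res_mem u.pp _) (PP.res u.pp _) p.pp
    fun _ k => ⟨h.1 k, k.2⟩) subset_union_right fun _ k => (u.sub_res k).trans subset_union_left
  ⟨v, a, ⟨b ▸ subset_union_left, LB.of_eq c⟩, b, c, d⟩

theorem le_top' (p : Cond) : p ≤ top := ⟨empty_subset _, fun ζ => le_triv (p.ok ζ)⟩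

theorem exists_res (p : Cond) (β : Ordinal.{0}) : ∃ v : Cond, v.q = res (base β).ord p.q ∧
    (∀ ζ < β, v.b ζ = p.b ζ) ∧ ∀ ζ, β ≤ ζ → v.b ζ = triv ζ :=
  let ⟨v, _, a⟩ := exists_mix' (β := β) (LB.of_le (le_top' p)) (PP.res_mem p.pp (base β).ord)
    (empty_subset _) fun _ k => p.sub_res k
  ⟨v, a⟩

/-- Extension of the iteration part. -/
def Cond.setq (p : Cond) (ht : t ∈ PP) (e : p.q ⊆ t) : Cond :=
  ⟨t, p.b, ht, p.ok, p.fin, p.kk, p.cons, fun η => (p.sub η).trans e⟩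

theorem Cond.setq_le (p : Cond) (ht : t ∈ PP) (e : p.q ⊆ t) : p.setq ht e ≤ p :=
  ⟨e, fun η => BLe.refl (p.ok η)⟩

theorem exists_upd (p : Cond) (hη : w ≠ triv η → KK η) (hw : BOK η w)
    (hc : ∀ d, Cons1 p.b η w.sh w.rt.1 d) (h : BLe η w (p.b η)) (ht : t ∈ PP) (e : p.q ⊆ t)
    (e' : w.rt.2.1 ⊆ t) : ∃ u ≤ p, u.q = t ∧ u.b η = w ∧ ∀ ζ, ζ ≠ η → u.b ζ = p.b ζ := by
  classical
  have h1 : ∀ ζ, BOK ζ (update p.b η w ζ) := fun ζ => by
    rcases eq_or_ne ζ η with rfl | k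
    · rwa [update_self]
    · exact (update_of_ne k w p.b).symm ▸ p.ok ζ
  have h2 : ∀ ζ, BLe ζ (update p.b η w ζ) (p.b ζ) := fun ζ => by
    rcases eq_or_ne ζ η with rfl | k
    · rwa [update_self]
    · exact (update_of_ne k w p.b).symm ▸ BLe.refl (p.ok ζ)
  refine ⟨⟨t, update p.b η w, ht, h1, (p.fin.insert η).subset fun ζ k => ?_, fun ζ k => ?_,
    fun ζ => ?_, fun ζ => ?_⟩, ⟨e, h2⟩, rfl, update_self _ _ _, fun ζ k => update_of_ne k _ _⟩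
  · exact or_iff_not_imp_left.2 fun e e' => k ((update_of_ne e w p.b).trans e')
  · rcases eq_or_ne ζ η with rfl | e
    · exact hη (by rwa [update_self] at k)
    · exact p.kk ζ ((update_of_ne e w p.b).symm.trans_ne k)
  · rcases eq_or_ne ζ η with rfl | e
    · rw [update_self]
      exact fun d k => (hc d k).mono (fun ζ _ => p.ok ζ) (fun ζ _ => h1 ζ) fun ζ _ => h2 ζ
    · exact p.cons_of h1 (update_of_ne e _ _) fun ξ _ => h2 ξ
  · rcases eq_or_ne ζ η with rfl | k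
    · rwa [update_self]
    · exact (update_of_ne k w p.b).symm ▸ (p.sub ζ).trans e

theorem Cond.okE {T σ} (hp : p.b η = ⟨s, T, σ⟩) : BOK η ⟨s, T, σ⟩ := hp ▸ p.ok η

theorem Cond.subE {T σ} (hp : p.b η = ⟨s, T, σ⟩) : σ.2.1 ⊆ p.q := by
  have := p.sub η
  rwa [hp] at this

theorem Cond.kkE {T σ} (hp : p.b η = ⟨s, T, σ⟩) (hn : s.n ≠ 0) : KK η :=
  p.kk η (Cond.ne_triv (by rwa [hp]))

/-- The root together with the iteration part `t`. -/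
def eff (η : Ordinal.{0}) (t : Set At) {C : Type} (σ : State C) : State C :=
  (σ.1, res (par η).Ω t, σ.2.2)

theorem BOK.eff (h : BOK η w) (ht : t ∈ PP) (e : w.rt.2.1 ⊆ t) : eff η t w.rt ∈ w.T :=
  h.cl.1.up h.rt (PP.res ht _) (PV.sub_res h.val.2.1 e)

theorem Cond.eff (p : Cond) (η : Ordinal.{0}) : eff η p.q (p.b η).rt ∈ (p.b η).T :=
  (p.ok η).eff p.pp (p.sub η)

theorem Cond.effE {T σ} (hp : p.b η = ⟨s, T, σ⟩) : SC7292.eff η p.q σ ∈ T :=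
  (Cond.okE hp).eff p.pp (Cond.subE hp)

theorem Cond.amal (p : Cond) (hη : KK η) (ht : t ∈ PV (par η).Ω) (e : res (par η).Ω p.q ⊆ t) :
    t ∪ p.q ∈ PP := PP.amal (PP.of_Ω hη ht) ht p.pp e

theorem Cond.shrink' {T σ T' σ'} (hp : p.b η = ⟨s, T, σ⟩) (hn : s.n ≠ 0)
    (hT : (par η).Closed s.ty s.Φ T') (hσ : σ' ∈ T') (h : σ' ∈ T)
    (hc : ∀ d, Cons1 p.b η s σ'.1 d) (ht : t ∈ PP) (e : p.q ⊆ t) (e' : σ'.2.1 ⊆ t) :
    ∃ u ≤ p, u.q = t ∧ (∃ T'' ⊆ T', u.b η = ⟨s, T'', σ'⟩) ∧ ∀ ζ, ζ ≠ η → u.b ζ = p.b ζ := by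
  have a := Cond.okE hp
  have b := BOK.cut a.toSOK hn (hT.inter a.phi a.cl) ⟨hσ, h⟩
  obtain ⟨u, a1, a0, a2, a3⟩ := exists_upd p (fun _ => Cond.kkE hp hn) b hc
    (by rw [hp]; exact BLe.of_sub a.toSOK fun _ k => k.1.2) ht e e'
  exact ⟨u, a1, a0, ⟨_, fun _ k => k.1.1, a2⟩, a3⟩

/-- Shrinking to a state whose iteration part extends that of the condition. -/
theorem Cond.shrink {T σ T' σ'} (hp : p.b η = ⟨s, T, σ⟩) (hn : s.n ≠ 0)
    (hT : (par η).Closed s.ty s.Φ T') (hσ : σ' ∈ T') (h : σ' ∈ T)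
    (hc : ∀ d, Cons1 p.b η s σ'.1 d) (e : res (par η).Ω p.q ⊆ σ'.2.1) :
    ∃ u ≤ p, u.q = σ'.2.1 ∪ p.q ∧ (∃ T'' ⊆ T', u.b η = ⟨s, T'', σ'⟩) ∧
      ∀ ζ, ζ ≠ η → u.b ζ = p.b ζ :=
  Cond.shrink' hp hn hT hσ h hc (p.amal (Cond.kkE hp hn) (hT.1 _ hσ).1.2.1 e) subset_union_right
    subset_union_left

theorem Ex.of_upd {T σ T' σ'} (hp : p.b η = ⟨s, T, σ⟩) (hu : u.b η = ⟨s, T', σ'⟩)
    (h : ∀ ζ, ζ ≠ η → u.b ζ = p.b ζ) : Ex 0 p u := fun ζ _ => by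
  rcases eq_or_ne ζ η with rfl | k
  · rw [hp, hu]
  · rw [h ζ k]

/-- Canonical inputs read off the clocks. -/
theorem exists_inp {p : Ordinal.{0} → BC} {h : Hist (Fin s.n)} (hc : ∀ d, Cons1 p η s h d) {M : ℕ}
    (hM : ∀ ζ < η, ∀ c, M ≤ (p ζ).rt.1.len c) : ∃ A : Fin s.n × ℕ → Ordinal.{0},
      (∀ m, (par η).Inp (s.ty m.1) m.2 (A m)) ∧ ∀ h' d, Fol1 A M h h' d → Cons1 p η s h' d := by
  have : ∀ d, ∃ A : ℕ → Ordinal.{0}, (∀ i, (par η).Inp (s.ty d) i (A i)) ∧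
      ((par η).Clocked (s.ty d) → ∀ L A', (L ≤ h.len d ∨ L ≤ M) →
        (∀ i < L, A' i = h.inp (d, i) ∧ i < h.len d ∨ A' i = A i) → Clk p η (s.clk d) L A') := by
    intro d
    by_cases k : (par η).Clocked (s.ty d)
    · obtain ⟨h0, c, h1, h2, h3, h4⟩ := hc d k
      refine ⟨fun i => rin (par η).ρ ((p _).rt.1.pt (c, i)), fun i => ⟨rin_lt _ _, fun a =>
        (a k).elim⟩, fun _ L A' a b => ⟨h0, c, h1, h2, h3, fun i hi => ⟨?_, ?_⟩⟩⟩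
      · exact a.elim (fun a => (h4 i (hi.trans_le a)).1) fun a => hi.trans_le (a.trans (hM _ h0 c))
      · exact (b i hi).elim (fun b => b.1.trans (h4 i b.2).2) id
    · exact ⟨fun i => i, fun i => ⟨(par η).nat_lt i, fun _ => rfl⟩, fun a => (k a).elim⟩
  choose A a1 a2 using this
  exact ⟨fun m => A m.1 m.2, fun m => a1 _ _, fun h' d f k => a2 d k _ _ f.1 fun i hi =>
    (lt_or_ge i (h.len d)).imp (fun a => ⟨f.2.1 i a, a⟩) fun a => f.2.2 i a hi⟩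

theorem adv (p : Cond) (η : Ordinal.{0}) (M : ℕ) : ∃ u ≤ p, Ex 0 p u ∧
    (∀ ζ, η ≤ ζ → u.b ζ = p.b ζ) ∧ ∀ ζ < η, ∀ c, M ≤ (u.b ζ).rt.1.len c := by
  have key : ∀ S : Finset Ordinal.{0}, ∀ η M, (∀ ζ < η, p.b ζ ≠ triv ζ → ζ ∈ S) → ∃ u ≤ p,
      Ex 0 p u ∧ (∀ ζ, η ≤ ζ → u.b ζ = p.b ζ) ∧ ∀ ζ < η, ∀ c, M ≤ (u.b ζ).rt.1.len c := by
    intro S
    induction S using Finset.induction_on_max with
    | empty =>
      refine fun η M h => ⟨p, le_rfl, fun _ _ => rfl, fun _ _ => rfl, fun ζ k => ?_⟩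
      rw [not_not.1 fun e => Finset.notMem_empty _ (h ζ k e)]
      exact fun c => c.elim0
    | insert a S hS ih =>
      intro η M h
      rcases le_or_gt η a with k | k
      · exact ih η M fun ζ l e =>
          (Finset.mem_insert.1 (h ζ l e)).resolve_left (l.trans_le k).ne
      by_cases n : (p.b a).sh.n = 0
      · exact ih η M fun ζ l e => (Finset.mem_insert.1 (h ζ l e)).resolve_left
          fun f => e (f ▸ (p.ok a).nz n)
      obtain ⟨B, hB⟩ := (p.ok a).cl.fol_all (p.ok a).phi (p.b a).rt.1 M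
      obtain ⟨u, a1, a2, a3, a4⟩ := ih a (max M B) fun ζ l e =>
        (Finset.mem_insert.1 (h ζ (l.trans k) e)).resolve_left l.ne
      obtain ⟨A, b1, b2⟩ := exists_inp (fun d => (p.cons a d).mono (LB.of_le a1))
        fun ζ l c => (le_max_right _ _).trans (a4 ζ l c)
      obtain ⟨τ, c1, c0, c2, c3⟩ := hB _ (Cond.effE (a3 a le_rfl)) A b1
      obtain ⟨v, d1, -, ⟨T, -, d2⟩, d3⟩ := Cond.shrink (a3 a le_rfl) n (p.ok a).cl c1 c1
        (fun d => b2 _ d (c2.one d)) c0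
      refine ⟨v, d1.trans a1, a2.trans (Ex.of_upd (a3 a le_rfl) d2 d3), fun ζ l =>
        (d3 ζ (k.trans_le l).ne').trans (a3 ζ (k.le.trans l)), fun ζ l => ?_⟩
      rcases lt_trichotomy ζ a with e | rfl | e
      · exact d3 ζ e.ne ▸ fun c => (le_max_left _ _).trans (a4 ζ e c)
      · exact d2 ▸ c3
      · rw [d3 ζ e.ne', a3 ζ e.le, not_not.1 fun e' => (Finset.mem_insert.1 (h ζ l e')).elim e.ne'
          fun b => (hS _ b).not_gt e]
        exact fun c => c.elim0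
  exact key p.fin.toFinset η M fun ζ _ e => p.fin.mem_toFinset.2 e

theorem Cond.step {T σ} (hp : p.b η = ⟨s, T, σ⟩) (c : Fin s.n) (N : ℕ) :
    ∃ u ≤ p, Ex 0 p u ∧ ∃ T' σ' a, u.b η = ⟨s, T', σ'⟩ ∧ (par η).Nx s.ty σ'.1 c a ∧
      N ≤ σ'.1.len c ∧ ∀ z d, Cons1 u.b η s (σ'.1.step c a z) d := by
  have a := Cond.okE hp
  obtain ⟨u, a1, a2, a3, a4⟩ := adv p η (max N (σ.1.len c) + 1)
  obtain ⟨A, b1, b2⟩ := exists_inp (fun d => (Cond.consE hp d).mono (LB.of_le a1)) a4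
  obtain ⟨τ, c1, ⟨c0, c2⟩, c3, c4⟩ := a.cl.fol a.phi b1 c (Cond.effE ((a3 η le_rfl).trans hp))
    (le_max_right N _)
  obtain ⟨v, d1, -, ⟨T', -, d2⟩, d3⟩ := Cond.shrink ((a3 η le_rfl).trans hp) c.pos.ne' a.cl c1 c1
    (fun d => b2 _ d (c2.one d)) c0
  exact ⟨v, d1.trans a1, a2.trans (Ex.of_upd ((a3 η le_rfl).trans hp) d2 d3), T', τ, _, d2,
    ⟨c3, b1 (c, _)⟩, c4 ▸ le_max_left _ _, fun z d => (b2 _ d ((c2.step
      (c4 ▸ Nat.lt_succ_self _) z).one d)).mono (LB.of_le d1)⟩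

theorem Cond.move {T σ} (hp : p.b η = ⟨s, T, σ⟩) (c : Fin s.n) (N : ℕ) {X : Set Ordinal.{0}}
    (hX : X.Finite) (h : ∀ ξ ∈ X, ξ < (s.ty c).θ ∨ (s.ty c).k = 0 ∧ ξ < (s.ty c).l) :
    ∃ u ≤ p, Ex 0 p u ∧ ∃ T' σ' τ a x, u.b η = ⟨s, T', τ⟩ ∧ σ' ∈ T ∧ N ≤ σ'.1.len c ∧
      (par η).Succ s.ty σ' c a x τ ∧ X ⊆ x := by
  obtain ⟨u, a1, a2, T', σ', a, a3, a4, a5, a6⟩ := Cond.step hp c N
  have b := Cond.okE a3
  have b0 := Cond.effE a3
  obtain ⟨x, τ, b1, b2, b3⟩ := (b.cl.2 _ b0 _ _ a4).exists b.phi (b.cl.1 _ b0).1 a4 b.cl.1 hX h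
  obtain ⟨v, d1, -, ⟨T'', -, d2⟩, d3⟩ := Cond.shrink a3 c.pos.ne' b.cl b2 b2 (b1.hist ▸ a6 _) b1.sub
  exact ⟨v, d1.trans a1, a2.trans (Ex.of_upd a3 d2 d3), T'', _, τ, a, x, d2,
    BLe.sub b.toSOK (a3 ▸ hp ▸ a1.2 η) b0, a5, b1, b3⟩

theorem Cond.cover (p : Cond) (c : Fin (p.b η).sh.n) (N : ℕ) {ξ : Ordinal.{0}}
    (h : ξ < ((p.b η).sh.ty c).θ) : ∃ u ≤ p, Ex 0 p u ∧ ∃ T τ, u.b η = ⟨(p.b η).sh, T, τ⟩ ∧
      ∃ n, N ≤ n ∧ n < τ.1.len c ∧ ξ ∈ τ.1.pt (c, n) := by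
  obtain ⟨u, a1, a2, T', σ', τ, a, x, a3, -, a4, a5, a6⟩ := Cond.move (p := p) rfl c N
    (finite_singleton ξ) fun _ k => k ▸ Or.inl h
  refine ⟨u, a1, a2, T', τ, a3, _, a4, ?_⟩
  rw [a5.hist]
  simpa [Hist.step] using ⟨a6 rfl, h⟩

theorem Cond.high (p : Cond) {α : Ordinal.{0}} (hα : α < (par η).ρ) :
    ∃ u ≤ p, Ex 0 p u ∧ High (u.b η).sh.ty α (u.b η).rt.1 := by
  by_cases n0 : (p.b η).sh.n = 0
  · exact ⟨p, le_rfl, fun _ _ => rfl, fun c => (c.pos.ne' n0).elim⟩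
  have a := p.ok η
  generalize hp : p.b η = w at a n0
  obtain ⟨s, T, σ⟩ := w
  have hZ := Par.closed_hist a.phi (fun h => ∀ m : Fin s.n × ℕ, σ.1.len m.1 ≤ m.2 →
    m.2 < h.len m.1 → h.inp m ≤ h.st m.1 ∧ (¬ (par η).Clocked (s.ty m.1) → h.inp m = m.2))
    fun h c a z k hn m a1 a2 => by
      by_cases e : m = (c, h.len c)
      · simpa [Hist.step, e] using hn.2.2
      · have := k m a1 (not_le.1 fun d => (le_update d e).not_gt a2)
        simp only [Hist.step, update_of_ne e]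
        exact ⟨this.1.trans ((HExt.step h c a z).1 _).2, this.2⟩
  obtain ⟨v, d1, -, ⟨T', d0, d2⟩, d3⟩ := Cond.shrink' hp n0 hZ
    ⟨a.val, fun _ a b => (b.not_ge a).elim⟩ a.rt (Cond.consE hp) p.pp subset_rfl (Cond.subE hp)
  have key : ∀ S : Finset (Fin s.n), ∃ u ≤ v, Ex 0 v u ∧ ∀ d ∈ S, ∃ n, σ.1.len d ≤ n ∧
      ((par η).Clocked (s.ty d) → ∀ u' ≤ u, ∀ L A, n < L → Clk u'.b η (s.clk d) L A → α ≤ A n) := by
    intro S
    induction S using Finset.induction_on with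
    | empty => exact ⟨v, le_rfl, fun _ _ => rfl, by simp⟩
    | insert d S _ ih =>
      obtain ⟨u, a1, a2, a3⟩ := ih
      by_cases k : (par η).Clocked (s.ty d)
      swap
      · exact ⟨u, a1, a2, Finset.forall_mem_insert _ _ _ |>.2
          ⟨⟨_, le_rfl, fun e => (k e).elim⟩, a3⟩⟩
      obtain ⟨h0, c, h1, h2, h3, -⟩ := (Cond.consE d2 d).mono (LB.of_le a1) k
      obtain ⟨u', b1, b2, T1, τ, b3, n, b4, b5, b6⟩ := u.cover c (σ.1.len d) (hα.trans_le h3)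
      refine ⟨u', b1.trans a1, a2.trans b2, Finset.forall_mem_insert _ _ _ |>.2
        ⟨⟨n, b4, fun _ t ht L A e f => ?_⟩, fun d' e => (a3 d' e).imp fun n f =>
          ⟨f.1, fun e t ht => f.2 e t (ht.trans b1)⟩⟩⟩
      have b7 := (Cond.okE b3).val.1
      have : Clk u'.b η (s.clk d) (n + 1) fun i => rin (par η).ρ (τ.1.pt (c, i)) :=
        ⟨h0, b3 ▸ ⟨c, h1, h2, h3, fun i hi => ⟨(Nat.lt_succ_iff.1 hi).trans_lt b5, rfl⟩⟩⟩
      rw [f.unique (this.mono (fun ζ _ => u'.ok ζ) (fun ζ _ => t.ok ζ) fun ζ _ => ht.2 ζ) e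
        (Nat.lt_succ_self n)]
      exact le_rin k.2 ((b7.2 (c, n)).2.2.trans_le (Cardinal.lift_le.2 h2)) b6 hα
  obtain ⟨u, a1, a2, a3⟩ := key Finset.univ
  choose n n1 n2 using fun d => a3 d (Finset.mem_univ d)
  obtain ⟨m, hm⟩ : ∃ m : ℕ, ¬ ω < (par η).ρ → α ≤ m := by
    by_cases k : ω < (par η).ρ
    · exact ⟨0, fun e => (e k).elim⟩
    · obtain ⟨m, rfl⟩ := lt_omega0.1 (hα.trans_le (not_lt.1 k))
      exact ⟨m, fun _ => le_rfl⟩
  obtain ⟨B, hB⟩ := (finite_range n).bddAbove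
  obtain ⟨t, b1, b2, -, b3⟩ := adv u (η + 1) (max B m + 1)
  have b4 := (Ex.of_upd hp d2 d3).trans (a2.trans b2)
  obtain ⟨T2, τ, e⟩ := (t.b η).ex ((b4 η zero_le).trans (congrArg BC.sh hp))
  have b5 := (d0 (BLe.sub a.toSOK (e ▸ d2 ▸ (b1.trans a1).2 η) (Cond.okE e).rt)).2
  have b6 := b3 η (lt_add_one η)
  refine ⟨t, b1.trans (a1.trans d1), b4, ?_⟩
  rw [e] at b6 ⊢
  intro d hd
  have b7 : n d < τ.1.len d := ((hB ⟨d, rfl⟩).trans (le_max_left _ _)).trans_lt (b6 d)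
  by_cases k : (par η).Clocked (s.ty d)
  · exact (n2 d k t b1 _ _ b7 (Cond.consE e d k)).trans (b5 (d, n d) (n1 d) b7).1
  · have := b5 (d, max B m) ((n1 d).trans ((hB ⟨d, rfl⟩).trans (le_max_left _ _))) (b6 d)
    refine (hm fun e => k ⟨hd, e⟩).trans (le_trans ?_ this.1)
    rw [this.2 k]
    exact Nat.cast_le.2 (le_max_right _ _)

end Pool.Agent.SC7292
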