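import Pool.Agent.SC7292.Raise

/-!
Parameters of a block; terms, cells and labels.
-/

namespace Pool.Agent.SC7292

open Cardinal Ordinal Set Filter Function Pool.Agent.MP_7b2404_lc

/-- The cardinals attached to one block. -/
structure Par : Type 1 where
  ν : ℕ → Cardinal.{0}
  ρ : Ordinal.{0}
  sc : Ordinal.{0} → Cardinal.{0}
  Ω : Ordinal.{0}
  ν_prep : ∀ k, Prep (ν (k + 1))
  mid : ∀ k, ∃ κ, Supercompact κ ∧ ν k < κ ∧ κ < ν (k + 1)
  ν_sl : (ν 0).IsStrongLimit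
  Ω_iff : ∀ δ, δ < Ω ↔ ∃ k, δ < (ν k).ord
  ρ_om : ω ≤ ρ
  ρ_reg : ω < ρ → ∃ c : Cardinal.{0}, c.IsRegular ∧ ρ = c.ord ∧ ∀ α, 2 ^ c < sc α
  sc_pre : ∀ α, Pre (sc α)
  sc_le : ∀ α < ρ, sc α ≤ ν 0
  sc_mono : Monotone sc
  sc_cof : ∀ c < ν 0, ∃ α < ρ, c < sc α

/-- Types of coordinates: level, collapsed ordinal, width of the array. -/
@[ext] structure Ty : Type 1 where
  k : ℕ
  θ : Ordinal.{0}
  l : Ordinal.{0}

theorem Stage.inacc {χ : Cardinal.{0}} (h : Stage χ.ord) : χ.IsInaccessible := by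
  simpa using h.1

theorem Stage.mk_PV' {χ : Cardinal.{0}} (h : Stage χ.ord) {c : Ordinal.{0}} (k : c < χ.ord) :
    #(PV c) < lc χ := by simpa using h.mk_PV k

namespace Par

variable (P : Par)

theorem ν_lt (k : ℕ) : P.ν k < P.ν (k + 1) := let ⟨_, _, a, b⟩ := P.mid k; a.trans b

theorem ν_in (k : ℕ) : (P.ν (k + 1)).IsInaccessible := (P.ν_prep k).1.inacc

theorem ν_st (k : ℕ) : Stage (P.ν (k + 1)).ord := (P.ν_prep k).1.stage

theorem sc_reg (α : Ordinal.{0}) : (P.sc α).IsRegular := (P.sc_pre α).reg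

theorem ν_mono : StrictMono P.ν := strictMono_nat_of_lt_succ P.ν_lt

theorem ν0 : ℵ₀ ≤ P.ν 0 := P.ν_sl.aleph0_le

theorem lν0 : ℵ₀ ≤ lc (P.ν 0) := aleph0_le_lift.2 P.ν0

theorem ν0_lt {k : ℕ} (hk : k ≠ 0) : lc (P.ν 0) < lc (P.ν k) :=
  lift_lt.2 (P.ν_mono (Nat.pos_of_ne_zero hk))

theorem inacc {k : ℕ} (hk : k ≠ 0) : (P.ν k).IsInaccessible := by
  obtain ⟨k, rfl⟩ := Nat.exists_eq_succ_of_ne_zero hk
  exact P.ν_in k

theorem nat_lt (n : ℕ) : (n : Ordinal.{0}) < P.ρ := (natCast_lt_omega0 n).trans_le P.ρ_om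

variable {P} in
theorem lt_Ω (k : ℕ) : (P.ν k).ord < P.Ω :=
  (P.Ω_iff _).2 ⟨k + 1, Cardinal.ord_lt_ord.2 (P.ν_lt k)⟩

/-- The level of the tags. -/
noncomputable abbrev b : Ordinal.{0} := (P.ν 0).ord

theorem b_le : P.b ≤ P.Ω := (lt_Ω 0).le

theorem sc_b {α : Ordinal.{0}} (h : α < P.ρ) : (P.sc α).ord ≤ P.b :=
  Cardinal.ord_le_ord.2 (P.sc_le α h)

theorem exists_chi : ∃ χ : Cardinal.{0}, P.ν 0 ≤ χ ∧ χ < P.ν 1 ∧ #(PV P.b) ≤ lc χ ∧
    ∃ γ, Stage γ ∧ P.b ≤ γ ∧ γ.card ≤ χ := by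
  obtain ⟨κ, a, b, c⟩ := P.mid 0
  obtain ⟨d, e, f⟩ := Cardinal.lt_lift_iff.1
    ((P.ν_st 0).mk_PV' (Cardinal.ord_lt_ord.2 (P.ν_lt 0)))
  exact ⟨max κ d, b.le.trans (le_max_left _ _), max_lt c e,
    f ▸ Cardinal.lift_le.2 (le_max_right _ _), _, a.stage, Cardinal.ord_le_ord.2 b.le, by simp⟩

/-- The bound for the size of labels. -/
noncomputable def χ : Cardinal.{0} := P.exists_chi.choose

theorem ν0_χ : P.ν 0 ≤ P.χ := P.exists_chi.choose_spec.1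

theorem χ0 : ℵ₀ ≤ P.χ := P.ν0.trans P.ν0_χ

theorem lχ0 : ℵ₀ ≤ lc P.χ := aleph0_le_lift.2 P.χ0

theorem χ_lt {k : ℕ} (hk : k ≠ 0) : lc P.χ < lc (P.ν k) :=
  lift_lt.2 (P.exists_chi.choose_spec.2.1.trans_le (P.ν_mono.monotone (Nat.pos_of_ne_zero hk)))

theorem mk_b : #(PV P.b) ≤ lc P.χ := P.exists_chi.choose_spec.2.2.1

theorem χ_st : ∃ γ, Stage γ ∧ P.b ≤ γ ∧ γ.card ≤ P.χ := P.exists_chi.choose_spec.2.2.2

theorem exists_U (t : Ty) : ∃ z : Ordinal.{0} × Ultrafilter (Set Ordinal.{0}) ×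
    (Set At → Nam (Set At) → Prop), t.k ≠ 0 → (t.θ < (P.ν (t.k + 1)).ord → t.θ ≤ z.1) ∧
      z.1 < (P.ν (t.k + 1)).ord ∧ NM (P.ν t.k) (Iio z.1) z.2.1 ∧
      UF (PV P.Ω) (P.ν t.k) z.1 z.2.2 ∧ Sg (PV P.Ω) z.2.1 z.2.2 ∧
      (∀ p : Set Ordinal.{0} → Prop, (∀ᶠ x in (z.2.1 : Filter (Set Ordinal.{0})), p x) →
        ∀ g ∈ PV P.Ω, z.2.2 g fun x => {_h | p x}) ∧
      ∀ c, (P.ν (t.k + 1)).ord ≤ c → Loc (PV P.Ω) (res c) z.2.2 := by
  classical
  by_cases hk : t.k = 0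
  · exact ⟨⟨0, pure ∅, fun _ _ => False⟩, fun h => (h hk).elim⟩
  obtain ⟨κ, a, b, c⟩ := P.mid t.k
  obtain ⟨k, e⟩ := Nat.exists_eq_succ_of_ne_zero hk
  obtain ⟨l, W, Φ, a1, -, a2⟩ := Prep.exists_up (κ := P.ν t.k) (e ▸ P.ν_prep k) a b c (P.ν_st _)
    (lt_Ω _).le (θ := if t.θ < (P.ν (t.k + 1)).ord then t.θ else 0) (by
      split_ifs with h
      exacts [h, (P.ν_in _).isRegular.ord_pos])
  exact ⟨⟨l, W, Φ⟩, fun _ => ⟨fun h => by rwa [if_pos h] at a1, a2⟩⟩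

/-- The points of an upper type are small subsets of this ordinal. -/
noncomputable def lam (t : Ty) : Ordinal.{0} := (P.exists_U t).choose.1

/-- The ultrafilter of an upper type. -/
noncomputable def U (t : Ty) : Ultrafilter (Set Ordinal.{0}) := (P.exists_U t).choose.2.1

/-- The name of the ultrafilter extending it. -/
noncomputable def UN (t : Ty) : Set At → Nam (Set At) → Prop := (P.exists_U t).choose.2.2

theorem le_lam {t : Ty} (h : t.k ≠ 0) (e : t.θ < (P.ν (t.k + 1)).ord) : t.θ ≤ P.lam t :=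
  ((P.exists_U t).choose_spec h).1 e

theorem lam_lt {t : Ty} (h : t.k ≠ 0) : P.lam t < (P.ν (t.k + 1)).ord :=
  ((P.exists_U t).choose_spec h).2.1

theorem U_ci {t : Ty} (h : t.k ≠ 0) :
    CardinalInterFilter (P.U t : Filter (Set Ordinal.{0})) (lc (P.ν t.k)) :=
  ((P.exists_U t).choose_spec h).2.2.1.ci

theorem U_pt {t : Ty} (h : t.k ≠ 0) :
    ∀ᶠ y in (P.U t : Filter (Set Ordinal.{0})), Pt (P.ν t.k) (P.lam t) y :=
  ((P.exists_U t).choose_spec h).2.2.1.pt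

theorem UN_uf {t : Ty} (h : t.k ≠ 0) : UF (PV P.Ω) (P.ν t.k) (P.lam t) (P.UN t) :=
  ((P.exists_U t).choose_spec h).2.2.2.1

theorem UN_sg {t : Ty} (h : t.k ≠ 0) : Sg (PV P.Ω) (P.U t) (P.UN t) :=
  ((P.exists_U t).choose_spec h).2.2.2.2.1

theorem UN_ae {t : Ty} (h : t.k ≠ 0) {p : Set Ordinal.{0} → Prop}
    (H : ∀ᶠ x in (P.U t : Filter (Set Ordinal.{0})), p x) {q : Set At} (hq : q ∈ PV P.Ω) :
    P.UN t q fun x => {_h | p x} := ((P.exists_U t).choose_spec h).2.2.2.2.2.1 p H q hq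

theorem UN_loc {t : Ty} (h : t.k ≠ 0) {c : Ordinal.{0}} (e : (P.ν (t.k + 1)).ord ≤ c) :
    Loc (PV P.Ω) (res c) (P.UN t) := ((P.exists_U t).choose_spec h).2.2.2.2.2.2 c e

theorem ν0' (k : ℕ) : ℵ₀ ≤ P.ν k := P.ν0.trans (P.ν_mono.monotone k.zero_le)

/-- Passing to a larger name on a large ground model set. -/
theorem UN_incl {t : Ty} (h : t.k ≠ 0) {p : Set Ordinal.{0} → Prop}
    (H : ∀ᶠ x in (P.U t : Filter (Set Ordinal.{0})), p x) {q : Set At} {N N' : Nam (Set At)}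
    (hN : P.UN t q N) (e : ∀ x, p x → ∀ g ∈ PV P.Ω, q ⊆ g → Hit N x g →
      ∃ g' ∈ PV P.Ω, g ⊆ g' ∧ Hit N' x g') : P.UN t q N' :=
  have u := P.UN_uf h
  u.incl (u.toPF.inter2 (P.ν0' _) (P.UN_ae h H (u.valid hN)) hN)
    fun x g a b ⟨_, ⟨⟨_, c, _⟩, d⟩, f⟩ => e x c g a b (d.mono f)

theorem U_all {t : Ty} (h : t.k ≠ 0) {Z : Type 1} {S : Set Z} (hS : #S ≤ lc P.χ)
    {p : Set Ordinal.{0} → Z → Prop}
    (H : ∀ z ∈ S, ∀ᶠ y in (P.U t : Filter (Set Ordinal.{0})), p y z) :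
    ∀ᶠ y in (P.U t : Filter (Set Ordinal.{0})), ∀ z ∈ S, p y z :=
  have := P.U_ci h
  (eventually_cardinal_ball (hS.trans_lt (P.χ_lt h))).2 H

theorem exists_pr : ∃ φ : ℕ → Ordinal.{0} → Ordinal.{0}, (∀ n ξ, φ n ξ < (P.ν 0).ord) ∧
    ∀ n m, ∀ ξ < (P.ν 0).ord, ∀ ζ < (P.ν 0).ord, φ n ξ = φ m ζ → n = m ∧ ξ = ζ := by
  obtain ⟨φ, a, b⟩ := exists_code P.ν0
    ((univ : Set (ULift.{1} ℕ)) ×ˢ Iio (P.ν 0).ord)
  refine ⟨fun n ξ => φ (⟨n⟩, ξ), fun _ _ => a _, fun n m ξ h ζ h' e => ?_⟩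
  have := b (by
    rw [mk_setProd, mk_Iio_ord]
    simpa using (mul_eq_right P.lν0 P.lν0 aleph0_ne_zero).le) (x₁ := (⟨n⟩, ξ)) ⟨trivial, h⟩
    (x₂ := (⟨m⟩, ζ)) ⟨trivial, h'⟩ e
  simpa using this

/-- The value written into column `β` at step `n` by the point `x`. -/
noncomputable def cd (n : ℕ) (x : Set Ordinal.{0}) (β : Ordinal.{0}) : Ordinal.{0} :=
  P.exists_pr.choose n ((exists_code P.ν0 x).choose β)

theorem cd_lt (n : ℕ) (x : Set Ordinal.{0}) (β : Ordinal.{0}) : P.cd n x β < (P.ν 0).ord :=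
  P.exists_pr.choose_spec.1 _ _

theorem cd_tag {n m : ℕ} {x x' : Set Ordinal.{0}} {β β' : Ordinal.{0}}
    (h : P.cd n x β = P.cd m x' β') : n = m :=
  (P.exists_pr.choose_spec.2 _ _ _ ((exists_code P.ν0 x).choose_spec.1 _) _
    ((exists_code P.ν0 x').choose_spec.1 _) h).1

theorem cd_inj {n : ℕ} {x : Set Ordinal.{0}} (hx : #x ≤ lc (P.ν 0)) : InjOn (P.cd n x) x :=
  fun _ a _ b h => (exists_code P.ν0 x).choose_spec.2 hx a b
    (P.exists_pr.choose_spec.2 _ _ _ ((exists_code P.ν0 x).choose_spec.1 _) _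
      ((exists_code P.ν0 x).choose_spec.1 _) h).2

end Par

/-- Terms for columns that depend on future points. -/
inductive Tm : Type 1
  | leaf (β : Ordinal.{0}) : Tm
  | node (φ : Set Ordinal.{0} → Tm) : Tm

/-- The column named by a leaf. -/
def Tm.col : Tm → Ordinal.{0}
  | .leaf β => β
  | .node _ => 0

/-- The chosen representative of a germ. -/
noncomputable def rep (u : Ultrafilter (Set Ordinal.{0})) (φ : Set Ordinal.{0} → Tm) :
    Set Ordinal.{0} → Tm :=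
  Quotient.out (Quotient.mk (germSetoid (u : Filter (Set Ordinal.{0})) Tm) φ)

theorem rep_ae (u : Ultrafilter (Set Ordinal.{0})) (φ : Set Ordinal.{0} → Tm) :
    ∀ᶠ y in (u : Filter (Set Ordinal.{0})), rep u φ y = φ y :=
  Quotient.mk_out (s := germSetoid (u : Filter (Set Ordinal.{0})) Tm) φ

theorem rep_congr {u : Ultrafilter (Set Ordinal.{0})} {φ ψ : Set Ordinal.{0} → Tm}
    (h : ∀ᶠ y in (u : Filter (Set Ordinal.{0})), φ y = ψ y) : rep u φ = rep u ψ :=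
  congrArg Quotient.out (Quotient.sound (s := germSetoid (u : Filter (Set Ordinal.{0})) Tm) h)

/-- Terms in normal form. -/
def TV (l : Ordinal.{0}) : List (Ultrafilter (Set Ordinal.{0})) → Tm → Prop
  | [], t => ∃ β < l, t = .leaf β
  | u :: us, t => ∃ φ, t = .node φ ∧ rep u φ = φ ∧
      (∀ᶠ y in (u : Filter (Set Ordinal.{0})), TV l us (φ y)) ∧
      ∀ t', ¬ ∀ᶠ y in (u : Filter (Set Ordinal.{0})), φ y = t'

theorem mk_TV {χ : Cardinal.{0}} (hχ : χ.IsInaccessible) {l : Ordinal.{0}} (hl : l < χ.ord)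
    (us : List (Ultrafilter (Set Ordinal.{0})))
    (h : ∀ u ∈ us, ∃ X ∈ u, #X < lc χ) : #{t | TV l us t} < lc χ := by
  classical
  induction us with
  | nil =>
    have : {t | TV l [] t} = Tm.leaf '' Iio l := by
      ext t
      simp [TV, eq_comm]
    rw [this]
    refine mk_image_le.trans_lt ?_
    rw [mk_Iio]
    exact lift_lt.2 (lt_ord.1 hl)
  | cons u us ih =>
    obtain ⟨X, hX, hX'⟩ := h u (by simp)
    have h1 := ih fun u hu => h u (by simp [hu])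
    choose φ a1 a2 a3 _ using fun t : {t | TV l (u :: us) t} => t.2
    refine lt_of_le_of_lt (mk_le_of_injective
      (f := fun t (y : X) => if k : TV l us (φ t y) then some (⟨_, k⟩ : {t | TV l us t}) else none)
      fun t t' e => Subtype.ext ?_) ?_
    · rw [a1 t, a1 t', ← a2 t, ← a2 t']
      congr 1
      refine rep_congr ?_
      filter_upwards [a3 t, a3 t', hX] with y b1 b2 b3
      simpa [b1, b2] using congrFun e ⟨y, b3⟩
    · rw [mk_arrow, Cardinal.lift_id, Cardinal.lift_id, mk_option]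
      exact pow_lt_lc hχ.isStrongLimit (add_lt_of_lt (aleph0_le_lift.2 hχ.isRegular.aleph0_le) h1
        (one_lt_aleph0.trans_le (aleph0_le_lift.2 hχ.isRegular.aleph0_le))) hX'

/-- Cells: a coordinate, future nodes, a term. -/
abbrev Cell (C : Type) : Type 1 := C × List (C × ℕ) × Tm

/-- Cells with a value. -/
abbrev Atom (C : Type) : Type 1 := Cell C × List Ordinal.{0}

/-- Atoms with a tag. -/
abbrev LA (C : Type) : Type 1 := Set At × Atom C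

/-- Labels: a condition of the iteration and a name of a map from cells to values. -/
abbrev Lb (C : Type) : Type 1 := Set At × Set (LA C)

/-- Image of a label under a map of atoms. -/
def lmap {C : Type} (F : Atom C → Atom C) (g : Lb C) : Lb C := (g.1, Prod.map id F '' g.2)

theorem lmap_mono {C : Type} (F : Atom C → Atom C) : Monotone (lmap F) :=
  fun _ _ h => ⟨h.1, image_mono h.2⟩

/-- Restriction of labels. -/
def rl {C : Type} (c : Ordinal.{0}) (g : Lb C) : Lb C := (res c g.1, g.2)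

variable {C C' : Type} [LinearOrder C] [LinearOrder C']

/-- The order in which nodes are played. -/
def NdLt (m m' : C × ℕ) : Prop := m.2 < m'.2 ∨ (m.2 = m'.2 ∧ m.1 < m'.1)

/-- The coordinate that moves next. -/
def Mover (f : C → ℕ) (c : C) : Prop := ∀ c', f c ≤ f c' ∧ (f c = f c' → c ≤ c')

theorem Mover.unique {f : C → ℕ} {c c' : C} (h : Mover f c) (h' : Mover f c') : c = c' :=
  have e := (h c').1.antisymm (h' c).1
  ((h c').2 e).antisymm ((h' c).2 e.symm)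

theorem exists_mover [Finite C] (f : C → ℕ) (c0 : C) : ∃ c, Mover f c := by
  obtain ⟨c, -, hc⟩ := Set.exists_min_image univ (fun c => toLex (f c, c)) finite_univ ⟨c0, trivial⟩
  refine ⟨c, fun c' => ?_⟩
  rcases Prod.Lex.toLex_le_toLex.1 (hc c' trivial) with h | h
  · exact ⟨h.le, fun e => (h.ne e).elim⟩
  · exact ⟨h.1.le, fun _ => h.2⟩

theorem Mover.lt {f : C → ℕ} {u : C} (h : Mover f u) {m : C × ℕ}
    (hm : update f u (f u + 1) m.1 ≤ m.2) : NdLt (u, f u) m := by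
  by_cases e : m.1 = u
  · exact Or.inl (by simpa [e] using hm)
  · rw [update_of_ne e] at hm
    rcases ((h m.1).1.trans hm).lt_or_eq with a | a
    · exact Or.inl a
    · exact Or.inr ⟨a, lt_of_le_of_ne ((h m.1).2 ((h m.1).1.antisymm (a ▸ hm))) (Ne.symm e)⟩

theorem Mover.not_lt {f : C → ℕ} {u : C} (h : Mover f u) {m : C × ℕ} (hm : f m.1 ≤ m.2) :
    ¬ NdLt m (u, f u) := by
  rintro (a | ⟨a, b⟩)
  · exact (a.trans_le ((h m.1).1.trans hm)).false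
  · exact b.not_ge ((h m.1).2 ((h m.1).1.antisymm (hm.trans_eq a)))

theorem le_update {f : C → ℕ} {u : C} {m : C × ℕ} (hm : f m.1 ≤ m.2) (e : m ≠ (u, f u)) :
    update f u (f u + 1) m.1 ≤ m.2 := by
  by_cases k : m.1 = u
  · rw [k, update_self]
    exact lt_of_le_of_ne (k ▸ hm) fun a => e (Prod.ext k a.symm)
  · rwa [update_of_ne k]

theorem update_ge (f : C → ℕ) (u c : C) : f c ≤ update f u (f u + 1) c := by
  by_cases k : c = u
  · simp [k]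
  · simp [k]

open Classical in
/-- Evaluation of a cell when node `n` is played with point `y`. -/
noncomputable def ev (n : C × ℕ) (y : Set Ordinal.{0}) : Cell C → Cell C
  | (c, m :: L, .node φ) => if m = n then (c, L, φ y) else (c, m :: L, .node φ)
  | a => a

/-- Evaluation of atoms. -/
noncomputable def evA (n : C × ℕ) (y : Set Ordinal.{0}) (a : Atom C) : Atom C := (ev n y a.1, a.2)

theorem ev_node (n : C × ℕ) (y : Set Ordinal.{0}) (c : C) (L : List (C × ℕ))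
    (φ : Set Ordinal.{0} → Tm) : ev n y (c, n :: L, .node φ) = (c, L, φ y) := by simp [ev]

theorem ev_of_not {n : C × ℕ} (y : Set Ordinal.{0}) {a : Cell C} (h : n ∉ a.2.1) : ev n y a = a := by
  obtain ⟨c, _ | ⟨m, L⟩, _ | φ⟩ := a <;> simp only [ev]
  exact if_neg fun e => h (by simp [e])

namespace Par

variable (P : Par) (ty : C → Ty)

/-- Valid cells at position `f`. -/
def CellOK (f : C → ℕ) (a : Cell C) : Prop :=
  (ty a.1).k = 0 ∧ (∀ m ∈ a.2.1, (ty m.1).k ≠ 0 ∧ f m.1 ≤ m.2) ∧ a.2.1.Pairwise NdLt ∧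
    TV (ty a.1).l (a.2.1.map fun m => P.U (ty m.1)) a.2.2

omit [LinearOrder C] in
/-- The values of a label are forced to be consistent. -/
def Cons (g : Lb C) : Prop := ∀ a ∈ g.2, ∀ a' ∈ g.2, a.2.1 = a'.2.1 → ∀ s ∈ PV P.b,
  res P.b g.1 ⊆ s → a.1 ⊆ s → a'.1 ⊆ s → a.2.2 = a'.2.2

/-- Valid tagged atoms. -/
def AOK (f : C → ℕ) (a : LA C) : Prop :=
  a.1 ∈ PV P.b ∧ P.CellOK ty f a.2.1 ∧ ∀ ξ ∈ a.2.2, ξ < (P.ν 0).ord

/-- Valid labels of level `d` at position `f`. -/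
def QL (f : C → ℕ) (d : Ordinal.{0}) : Set (Lb C) :=
  {g | g.1 ∈ PV d ∧ (∀ a ∈ g.2, P.AOK ty f a) ∧ P.Cons g ∧ #g.2 ≤ lc P.χ}

/-- Valid labels at position `f`. -/
abbrev Q (f : C → ℕ) : Set (Lb C) := P.QL ty f P.Ω

omit [LinearOrder C] in
/-- `g` forces `u`. -/
def lsle (g u : Lb C) : Prop := Sle g.1 u.1 ∧ ∀ a ∈ u.2, ∀ s ∈ PV P.b, res P.b g.1 ⊆ s →
  a.1 ⊆ s → ∃ s' ∈ PV P.b, s ⊆ s' ∧ ∃ a' ∈ g.2, a'.1 ⊆ s' ∧ a'.2 = a.2

/-- The labels as a tower. -/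
def labT (f : C → ℕ) (d : Ordinal.{0}) : Tw (Lb C) :=
  ⟨P.QL ty f d, Prod.fst, fun s => (s, ∅), P.lsle⟩

variable {P ty} {f : C → ℕ} {c d d' : Ordinal.{0}} {g g' : Lb C} {q : Set At}

omit [LinearOrder C] in
theorem Cons.mono (h : P.Cons g) (a : res P.b g.1 ⊆ q) {L : Set (LA C)} (e : L ⊆ g.2) :
    P.Cons (q, L) := fun x k y l m s n o =>
  h x (e k) y (e l) m s n (((res_res le_rfl).ge.trans (res_mono a)).trans o)

theorem QL_up (h : g ∈ P.QL ty f d) (hq : q ∈ PV d') (a : res P.b g.1 ⊆ q) :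
    (q, g.2) ∈ P.QL ty f d' := ⟨hq, h.2.1, h.2.2.1.mono a subset_rfl, h.2.2.2⟩

theorem QL_up' (h : g ∈ P.QL ty f d) (hq : q ∈ PV d') (a : g.1 ⊆ q) :
    (q, g.2) ∈ P.QL ty f d' := QL_up h hq ((res_sub _ _).trans a)

theorem QL_sub (h : g ∈ P.QL ty f d) {L : Set (LA C)} (e : L ⊆ g.2) : (g.1, L) ∈ P.QL ty f d :=
  ⟨h.1, fun a k => h.2.1 a (e k), h.2.2.1.mono (res_sub _ _) e,
    (mk_le_mk_of_subset e).trans h.2.2.2⟩

theorem QL_empty (hq : q ∈ PV d) : (q, ∅) ∈ P.QL ty f d :=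
  ⟨hq, fun _ k => k.elim, fun _ k => k.elim, by simp⟩

theorem QL_union {L L' : Set (LA C)} (h : (q, L) ∈ P.QL ty f d) (h' : (q, L') ∈ P.QL ty f d)
    (e : ∀ a ∈ L, ∀ a' ∈ L', a.2.1 = a'.2.1 → ∀ s ∈ PV P.b, res P.b q ⊆ s → a.1 ⊆ s → a'.1 ⊆ s →
      a.2.2 = a'.2.2) : (q, L ∪ L') ∈ P.QL ty f d := by
  refine ⟨h.1, fun a ha => ha.elim (h.2.1 a) (h'.2.1 a), ?_,
    (mk_union_le _ _).trans ((add_le_add h.2.2.2 h'.2.2.2).trans (add_eq_self P.lχ0).le)⟩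
  rintro a (ha | ha) b (hb | hb)
  exacts [h.2.2.1 a ha b hb, e a ha b hb,
    fun k s x y z w => (e b hb a ha k.symm s x y w z).symm, h'.2.2.1 a ha b hb]

/-- Extend `s` by `res P.b g.1` (`Sle.res`, `Sle.mono`, `Sle.union_mem`). -/
theorem QL_sle (h : g ∈ P.QL ty f d) (hq : q ∈ PV d') (a : Sle q g.1) :
    (q, g.2) ∈ P.QL ty f d' :=
  ⟨hq, h.2.1, fun x k y l e s hs m n o => h.2.2.1 x k y l e _
    (((a.res P.b).mono m).union_mem hs (PV.res h.1 P.b)) subset_union_right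
    (n.trans subset_union_left) (o.trans subset_union_left), h.2.2.2⟩

omit [LinearOrder C] in
theorem lsle_of_sle (a : Sle q g.1) : P.lsle (q, g.2) g :=
  ⟨a, fun x k s l _ n => ⟨s, l, subset_rfl, x, k, n, rfl⟩⟩

theorem lab1_ext {p u s : Set At} (a : Sle p u) (hu : u ∈ PV d) (hs : s ∈ PV c)
    (e : res c p ⊆ s) : s ∪ res c u ∈ PV c := ((a.res c).mono e).union_mem hs (PV.res hu c)

theorem lab1_sup {u : Lb C} (a : P.lsle g u) (hg : g ∈ P.QL ty f d) (hu : u ∈ P.QL ty f d) :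
    g ⊔ u ∈ P.QL ty f d := by
  have hq := a.1.union_mem hg.1 hu.1
  refine QL_union (q := g.1 ∪ u.1) (QL_up' hg hq subset_union_left)
    (QL_up' hu hq subset_union_right) fun x k y l e s hs m n o => ?_
  have m' : res P.b g.1 ⊆ s := (res_mono subset_union_left).trans m
  obtain ⟨s', c1, c2, z, c3, c4, c5⟩ := a.2 y l s hs m' o
  rw [← c5] at e ⊢
  exact hg.2.2.1 x k z c3 e s' c1 (m'.trans c2) (n.trans c2) c4

theorem lab1_mk {ι : Type 1} {u : ι → Lb C} (hι : #ι ≤ lc P.χ) (hu : ∀ i, u i ∈ P.QL ty f d)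
    {L : Set (LA C)} (e : ∀ z ∈ L, z.1 ∈ PV P.b ∧ ∃ i, ∃ a ∈ (u i).2, z.2 = a.2) :
    #L ≤ lc P.χ := by
  have h1 : L ⊆ ⋃ i, (fun p : Set At × LA C => (p.1, p.2.2)) '' (PV P.b ×ˢ (u i).2) :=
    fun z hz => let ⟨c1, i, a, c2, c3⟩ := e z hz
      mem_iUnion.2 ⟨i, (z.1, a), ⟨c1, c2⟩, Prod.ext rfl c3.symm⟩
  refine (mk_le_mk_of_subset h1).trans (mk_iUnion_le_sum_mk.trans
    ((sum_le_sum _ (fun _ => lc P.χ) fun i => mk_image_le.trans ?_).trans ?_))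
  · rw [mk_setProd]
    exact (mul_le_mul' P.mk_b (hu i).2.2.2).trans (mul_eq_self P.lχ0).le
  · rw [sum_const']
    exact (mul_le_mul' hι le_rfl).trans (mul_eq_self P.lχ0).le

theorem lab1_cl (h : P.b ≤ d) {ι : Type 1} {u : ι → Lb C} {s0 : Set At} (hc : c ≤ P.b)
    (hι : ∀ γ, Stage γ → c ≤ γ → #ι < lc γ.card) (hu : ∀ i, u i ∈ P.QL ty f d) (hs : s0 ∈ PV c)
    (hd : ∀ i j, ∀ s ∈ PV c, s0 ⊆ s → res c (u i).1 ⊆ s → res c (u j).1 ⊆ s →
      ∃ s' ∈ PV c, s ⊆ s' ∧ ∃ k, res c (u k).1 ⊆ s' ∧ P.lsle ((s', ∅) ⊔ u k) (u i) ∧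
        P.lsle ((s', ∅) ⊔ u k) (u j)) :
    ∃ w ∈ P.QL ty f d, res c w.1 = s0 ∧
      ∀ i, ∀ s ∈ PV c, s0 ⊆ s → res c (u i).1 ⊆ s → P.lsle ((s, ∅) ⊔ w) (u i) := by
  obtain ⟨w, w1, w2, w3⟩ := PV.cl (u := fun i => (u i).1) (hc.trans h) hι (fun i => (hu i).1) hs
    fun i j s a1 a2 a3 a4 =>
      let ⟨s', b1, b2, k, b3, b4, b5⟩ := hd i j s a1 a2 a3 a4
      ⟨s', b1, b2, k, b3, b4.1, b5.1⟩
  obtain ⟨γ, g1, g2, g3⟩ := P.χ_st
  refine ⟨(w, {z | z.1 ∈ PV P.b ∧ ∃ i, ∃ a ∈ (u i).2, z.2 = a.2 ∧ a.1 ⊆ z.1 ∧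
    res P.b (u i).1 ⊆ z.1}), ⟨w1, ?_, ?_, lab1_mk
      ((hι γ g1 (hc.trans g2)).le.trans (Cardinal.lift_le.2 g3)) hu
      fun z ⟨c1, i, a, c2, c3, _⟩ => ⟨c1, i, a, c2, c3⟩⟩, w2,
    fun i s a1 a2 a3 => ⟨w3 i s a1 a2 a3, fun a ha t t1 t2 t3 => ?_⟩⟩
  · rintro z ⟨c1, i, a, c2, c3, -⟩
    refine ⟨c1, ?_⟩
    rw [c3]
    exact ((hu i).2.1 a c2).2
  · rintro z ⟨-, i, a, c2, c3, c4, c5⟩ z' ⟨-, j, a', d2, d3, d4, d5⟩ e s hs m n o
    have e0 : s0 ⊆ res c s := by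
      rw [← w2, ← res_res (p := w) hc]
      exact res_mono m
    obtain ⟨s', b1, b2, k, b3, b4, b5⟩ := hd i j (res c s) (PV.res hs c) e0
      (res_res (p := (u i).1) hc ▸ res_mono (c5.trans n))
      (res_res (p := (u j).1) hc ▸ res_mono (d5.trans o))
    have p1 : s' ∪ s ∈ PV P.b := PV.amal b1 hs b2 hc
    have p2 : s' ∪ s ∪ res P.b (u k).1 ∈ PV P.b :=
      lab1_ext (w3 k s' b1 (e0.trans b2) b3) (hu k).1 p1 (by
        rw [res_union]
        exact union_subset_union (res_sub _ _) m)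
    have q1 : s ⊆ s' ∪ s ∪ res P.b (u k).1 := subset_union_right.trans subset_union_left
    have q2 : res P.b (s' ∪ (u k).1) ⊆ s' ∪ s ∪ res P.b (u k).1 := by
      rw [res_union]
      exact union_subset_union ((res_sub _ _).trans subset_union_left) subset_rfl
    obtain ⟨s3, p3, l3, x, x1, x2, x3⟩ := b4.2 a c2 _ p2 q2 (c4.trans (n.trans q1))
    obtain ⟨s4, p4, l4, y, y1, y2, y3⟩ := b5.2 a' d2 _ p3 (q2.trans l3)
      (d4.trans (o.trans (q1.trans l3)))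
    rw [c3, d3, ← x3, ← y3] at e ⊢
    exact (hu k).2.2.1 x (x1.resolve_left id) y (y1.resolve_left id) e s4 p4
      (subset_union_right.trans (l3.trans l4)) (x2.trans l4) y2
  · have p1 := lab1_ext (w3 i s a1 a2 a3) (hu i).1 t1 t2
    exact ⟨_, p1, subset_union_left, (t ∪ res P.b (u i).1, a.2), Or.inr ⟨p1, i, a, ha, rfl,
      t3.trans subset_union_left, subset_union_right⟩, subset_rfl, rfl⟩

/-- For `cl`: take the first component `w1` from `PV.cl`, and as second component all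
`(s', a.2)` with `s' ∈ PV P.b`, `a ∈ (u i).2`, `a.1 ⊆ s'`, `res P.b (u i).1 ⊆ s'`. Its size is
at most `#(PV P.b) * #ι * χ` (`mk_b`, `χ_st`). Consistency: apply directedness to `res c s`,
extend by `res P.b (u k).1`, and use consistency of `u k`. -/
theorem labT_ok (h : P.b ≤ d) : (P.labT ty f d).OK P.b where
  res_mem a c := PV.res a.1 c
  gp_mono _ _ a := a.1
  gp_up _ := rfl
  gp_sup _ _ := rfl
  up_le a := ⟨a, empty_subset _⟩
  up_mono _ _ a := ⟨a, le_rfl⟩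
  amal {c s g} a hs hg e :=
    (show (s ∪ g.1, g.2) = (s, ∅) ⊔ g from Prod.ext rfl (empty_union _).symm) ▸
      QL_up' hg (PV.amal hs hg.1 e (a.trans h)) subset_union_right
  bot := ⟨(∅, ∅), QL_empty (empty_PV _), rfl, fun _ => ⟨empty_subset _, empty_subset _⟩⟩
  of_le a _ e := ⟨Sle.of_sub a.1 e.1, fun x k s l _ n => ⟨s, l, subset_rfl, x, e.2 k, n, rfl⟩⟩
  mono a e := ⟨a.1.mono e.1, fun x k s l m n =>
    let ⟨s', c1, c2, z, c3, c4⟩ := a.2 x k s l ((res_mono e.1).trans m) n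
    ⟨s', c1, c2, z, e.2 c3, c4⟩⟩
  trans a e hu := ⟨a.1.trans e.1 hu.1, fun x k s l m n =>
    let ⟨s1, c1, c2, y, c3, c4, c5⟩ := e.2 x k _ (lab1_ext a.1 hu.1 l m) subset_union_right
      (n.trans subset_union_left)
    let ⟨s2, d1, d2, z, d3, d4, d5⟩ := a.2 y c3 s1 c1 (m.trans (subset_union_left.trans c2)) c4
    ⟨s2, d1, subset_union_left.trans (c2.trans d2), z, d3, d4, d5.trans c5⟩⟩
  sup_mem := lab1_sup
  sup a e := ⟨a.1.union e.1, fun x k => k.elim (a.2 x) (e.2 x)⟩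
  sle_up a := ⟨a, fun _ k => k.elim⟩
  cl := lab1_cl h

theorem cut_rl (h : P.b ≤ c) : Cut (P.QL ty f d) (rl c) :=
  ⟨fun _ => ⟨res_sub _ _, subset_rfl⟩, fun _ _ a => ⟨res_mono a.1, a.2⟩,
    fun _ a => QL_up a ((cut_res c d).mem _ a.1) (res_mono_left h),
    fun _ => Prod.ext (res_res le_rfl) rfl, fun k a g b e l => by
      have := (cut_res c d).amal _ a.1 _ b.1 (congrArg Prod.fst e) l.1
      have e' : k.2 ⊔ g.2 = k.2 := sup_eq_left.2 l.2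
      exact ⟨(show k ⊔ g = (k.1 ⊔ g.1, k.2) from Prod.ext rfl e') ▸
        QL_up' a this.1 le_sup_left, Prod.ext this.2 e'⟩⟩

theorem lev_rl (h : c ≤ d) : Lev (P.QL ty f d) (rl c) = P.QL ty f c :=
  Set.ext fun g => ⟨fun a => QL_up' a.1 ((congrArg Prod.fst a.2 :) ▸ PV.res a.1.1 c) subset_rfl,
    fun a => ⟨QL_up' a (PV.mono a.1 h) subset_rfl, Prod.ext (PV.res_eq a.1 le_rfl) rfl⟩⟩

theorem CellOK.cases {u : C} (hu : Mover f u) {a : Cell C} (h : P.CellOK ty f a) :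
    (u, f u) ∉ a.2.1 ∨ ∃ L φ, a = (a.1, (u, f u) :: L, .node φ) := by
  obtain ⟨c, _ | ⟨m, L⟩, t⟩ := a
  · simp
  · by_cases e : m = (u, f u)
    · obtain ⟨φ, rfl, -⟩ := h.2.2.2
      exact Or.inr ⟨L, φ, by rw [e]⟩
    · refine Or.inl fun k => ?_
      rcases List.mem_cons.1 k with k | k
      · exact e k.symm
      · exact hu.not_lt (h.2.1 m (by simp)).2 ((List.pairwise_cons.1 h.2.2.1).1 _ k)

theorem CellOK.ev {u : C} (hu : Mover f u) {a : Cell C} (h : P.CellOK ty f a) :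
    ∀ᶠ y in (P.U (ty u) : Filter (Set Ordinal.{0})),
      P.CellOK ty (update f u (f u + 1)) (ev (u, f u) y a) := by
  rcases h.cases hu with k | ⟨L, φ, k⟩
  · refine Eventually.of_forall fun y => ?_
    rw [ev_of_not y k]
    exact ⟨h.1, fun m hm => ⟨(h.2.1 m hm).1, le_update (h.2.1 m hm).2 fun e => k (e ▸ hm)⟩, h.2.2⟩
  · rw [k] at h ⊢
    obtain ⟨h1, h2, h3, ψ, e, -, h4, -⟩ := h
    obtain rfl : φ = ψ := Tm.node.inj e
    refine h4.mono fun y hy => ?_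
    rw [ev_node]
    refine ⟨h1, fun m hm => ⟨(h2 m (by simp [hm])).1, le_update (h2 m (by simp [hm])).2 ?_⟩,
      (List.pairwise_cons.1 h3).2, hy⟩
    rintro rfl
    simpa [NdLt] using (List.pairwise_cons.1 h3).1 _ hm

theorem CellOK.ev_ne {u : C} (hu : Mover f u) {a b : Cell C} (ha : P.CellOK ty f a)
    (hb : P.CellOK ty f b) (e : a ≠ b) : ∀ᶠ y in (P.U (ty u) : Filter (Set Ordinal.{0})),
      Pool.Agent.SC7292.ev (u, f u) y a ≠ Pool.Agent.SC7292.ev (u, f u) y b := by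
  have key : ∀ {a b : Cell C} {L φ}, P.CellOK ty f a → a = (a.1, (u, f u) :: L, .node φ) →
      ∀ᶠ y in (P.U (ty u) : Filter (Set Ordinal.{0})),
        Pool.Agent.SC7292.ev (u, f u) y a ≠ b := by
    intro a b L φ ha k
    rw [k] at ha ⊢
    obtain ⟨-, -, -, ψ, e, -, -, h4⟩ := ha
    obtain rfl : φ = ψ := Tm.node.inj e
    refine (Ultrafilter.eventually_not.2 (h4 b.2.2)).mono fun y hy k => hy ?_
    rw [ev_node] at k
    rw [← k]
  rcases ha.cases hu with k | ⟨L, φ, k⟩ <;> rcases hb.cases hu with l | ⟨L', φ', l⟩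
  · exact Eventually.of_forall fun y => by rwa [ev_of_not y k, ev_of_not y l]
  · exact (key (b := a) hb l).mono fun y hy => by rw [ev_of_not y k]; exact hy.symm
  · exact (key (b := b) ha k).mono fun y hy => by rwa [ev_of_not y l]
  · rw [k, l] at e
    rw [k] at ha ⊢
    rw [l] at hb ⊢
    obtain ⟨-, -, -, ψ, e1, h1, -⟩ := ha
    obtain ⟨-, -, -, ψ', e2, h2, -⟩ := hb
    obtain rfl : φ = ψ := Tm.node.inj e1
    obtain rfl : φ' = ψ' := Tm.node.inj e2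
    refine Ultrafilter.eventually_not.2 fun H => e ?_
    simp only [ev_node, Prod.mk.injEq] at H
    obtain ⟨y, hy⟩ := H.exists
    rw [hy.1, hy.2.1, ← h1, ← h2, rep_congr (H.mono fun _ h => h.2.2)]

theorem Q_ev {u : C} (hu : Mover f u) (hk : (ty u).k ≠ 0) (h : g ∈ P.QL ty f d) :
    ∀ᶠ y in (P.U (ty u) : Filter (Set Ordinal.{0})),
      lmap (evA (u, f u) y) g ∈ P.QL ty (update f u (f u + 1)) d := by
  have h1 := P.U_all hk h.2.2.2 fun a ha => (h.2.1 a ha).2.1.ev hu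
  have h2 := P.U_all hk h.2.2.2 fun a ha => P.U_all hk h.2.2.2
    (p := fun y b => ev (u, f u) y a.2.1 = ev (u, f u) y b.2.1 → a.2.1 = b.2.1) fun b hb => by
      by_cases e : a.2.1 = b.2.1
      · exact Eventually.of_forall fun _ _ => e
      · exact ((h.2.1 a ha).2.1.ev_ne hu (h.2.1 b hb).2.1 e).mono fun y hy k => (hy k).elim
  filter_upwards [h1, h2] with y a1 a2
  refine ⟨h.1, ?_, ?_, mk_image_le.trans h.2.2.2⟩
  · rintro _ ⟨a, ha, rfl⟩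
    exact ⟨(h.2.1 a ha).1, a1 a ha, (h.2.1 a ha).2.2⟩
  · rintro _ ⟨a, ha, rfl⟩ _ ⟨b, hb, rfl⟩ e
    exact h.2.2.1 a ha b hb (a2 a ha b hb e)

theorem mk_lists : #{v : List Ordinal.{0} | ∀ ξ ∈ v, ξ < (P.ν 0).ord} ≤ lc (P.ν 0) := by
  have : {v : List Ordinal.{0} | ∀ ξ ∈ v, ξ < (P.ν 0).ord} ⊆
      range (List.map (Subtype.val : Iio (P.ν 0).ord → Ordinal.{0})) := fun v hv =>
    ⟨v.attachWith _ hv, by simp⟩
  refine (mk_le_mk_of_subset this).trans (mk_range_le.trans ((mk_list_le_max _).trans ?_))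
  rw [mk_Iio_ord]
  exact max_le P.lν0 le_rfl

/-- A family of cells after an upper move is the family of evaluations of one cell. -/
theorem lab2_cell [Countable C] {u : C} (hu : Mover f u) (hk : (ty u).k ≠ 0)
    (t : Set Ordinal.{0} → Cell C) (k1 : ∀ᶠ y in (P.U (ty u) : Filter (Set Ordinal.{0})),
      P.CellOK ty (update f u (f u + 1)) (t y)) :
    ∃ a, P.CellOK ty f a ∧ ∀ᶠ y in (P.U (ty u) : Filter (Set Ordinal.{0})),
      ev (u, f u) y a = t y := by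
  have := P.U_ci hk
  obtain ⟨⟨c, L⟩, -, k2⟩ := ae_const (U := P.U (ty u)) (S := univ)
    (φ := fun y => ULift.up.{1} ((t y).1, (t y).2.1))
    (lt_of_le_of_lt (mk_le_aleph0.trans P.lν0) (P.ν0_lt hk)) (by simp)
  have k4 : ∀ᶠ y in (P.U (ty u) : Filter (Set Ordinal.{0})), t y = (c, L, (t y).2.2) := by
    filter_upwards [k2] with y a1
    simp only [ULift.up.injEq, Prod.mk.injEq] at a1
    rw [← a1.1, ← a1.2]
  have k5 : ∀ᶠ y in (P.U (ty u) : Filter (Set Ordinal.{0})),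
      P.CellOK ty (update f u (f u + 1)) (c, L, (t y).2.2) := by
    filter_upwards [k1, k4] with y a1 a2
    rwa [a2] at a1
  obtain ⟨y0, y1, y2, y3, -⟩ := k5.exists
  have k6 : ∃ a, P.CellOK ty f a ∧ ∀ᶠ y in (P.U (ty u) : Filter (Set Ordinal.{0})),
      ev (u, f u) y a = (c, L, (t y).2.2) := by
    by_cases k6 : ∃ t', ∀ᶠ y in (P.U (ty u) : Filter (Set Ordinal.{0})), (t y).2.2 = t'
    · obtain ⟨t', k6⟩ := k6
      obtain ⟨y, a1, a2⟩ := (k5.and k6).exists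
      refine ⟨(c, L, t'), ⟨y1, fun m hm => ⟨(y2 m hm).1, (update_ge f u _).trans (y2 m hm).2⟩,
        y3, a2 ▸ a1.2.2.2⟩, k6.mono fun y hy => ?_⟩
      rw [ev_of_not, hy]
      intro k
      simpa using (y2 _ k).2
    · refine ⟨(c, (u, f u) :: L, .node (rep (P.U (ty u)) fun y => (t y).2.2)),
        ⟨y1, fun m hm => ?_, List.pairwise_cons.2 ⟨fun m hm => hu.lt (y2 m hm).2, y3⟩, _, rfl,
          rep_congr (rep_ae _ _), ?_, fun t' k7 => k6 ⟨t', ?_⟩⟩, ?_⟩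
      · rcases List.mem_cons.1 hm with rfl | hm
        · exact ⟨hk, le_rfl⟩
        · exact ⟨(y2 m hm).1, (update_ge f u _).trans (y2 m hm).2⟩
      · filter_upwards [k5, rep_ae (P.U (ty u)) fun y => (t y).2.2] with y a1 a2
        exact a2 ▸ a1.2.2.2
      · filter_upwards [k7, rep_ae (P.U (ty u)) fun y => (t y).2.2] with y a1 a2
        exact a2 ▸ a1
      · exact (rep_ae (P.U (ty u)) fun y => (t y).2.2).mono fun y hy => by rw [ev_node, hy]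
  obtain ⟨a, a1, a2⟩ := k6
  exact ⟨a, a1, (a2.and k4).mono fun y hy => hy.1.trans hy.2.symm⟩

/-- A family of labels after an upper move is dominated by the evaluations of one label. Port of
the old `pull_back`: `L` is the set of valid tagged atoms whose evaluation lies in almost all
`(H y).2`; codes are taken below `χ.ord`, and tags are almost constant by `mk_b`, `χ_lt`. -/
theorem pull_back [Countable C] {u : C} (hu : Mover f u) (hk : (ty u).k ≠ 0)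
    (h : g ∈ P.QL ty f d) (H : Set Ordinal.{0} → Lb C)
    (hH : ∀ᶠ y in (P.U (ty u) : Filter (Set Ordinal.{0})),
      H y ∈ P.QL ty (update f u (f u + 1)) d ∧ (lmap (evA (u, f u) y) g).2 ⊆ (H y).2 ∧
        res P.b (H y).1 ⊆ g.1) :
    ∃ L, (g.1, L) ∈ P.QL ty f d ∧ g.2 ⊆ L ∧ ∀ᶠ y in (P.U (ty u) : Filter (Set Ordinal.{0})),
      (H y).2 ⊆ (lmap (evA (u, f u) y) (g.1, L)).2 := by
  have := P.U_ci hk
  let G : Set (LA C) := {a | P.AOK ty f a ∧ ∀ᶠ y in (P.U (ty u) : Filter (Set Ordinal.{0})),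
    Prod.map id (evA (u, f u) y) a ∈ (H y).2}
  choose cd c1 c2 using fun y => exists_code P.χ0 (H y).2
  have hI : #(Iio P.χ.ord) < lc (P.ν (ty u).k) := (mk_Iio_ord _).trans_lt (P.χ_lt hk)
  refine ⟨G, ⟨h.1, fun a ha => ha.1, fun a ha b hb e s s1 s2 s3 s4 => ?_, ?_⟩,
    fun a ha => ⟨h.2.1 a ha, hH.mono fun y hy => hy.2.1 ⟨a, ha, rfl⟩⟩, ?_⟩
  · obtain ⟨y, h1, h2, h3⟩ := (hH.and (ha.2.and hb.2)).exists
    exact h1.1.2.2.1 _ h2 (Prod.map id (evA (u, f u) y) b) h3 (congrArg (ev _ y) e) s s1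
      (((res_res le_rfl).ge.trans (res_mono h1.2.2)).trans s2) s3 s4
  · choose ζ z1 z2 using fun a : G => ae_const (U := P.U (ty u)) hI
      (φ := fun y => cd y (Prod.map id (evA (u, f u) y) a.1))
      (Eventually.of_forall fun y => c1 y _)
    rw [← mk_Iio_ord]
    refine mk_le_of_injective (f := fun a : G => ⟨ζ a, z1 a⟩) fun a b e => Subtype.ext ?_
    have h1 : ∀ᶠ y in (P.U (ty u) : Filter (Set Ordinal.{0})),
        Prod.map id (evA (u, f u) y) a.1 = Prod.map id (evA (u, f u) y) b.1 := by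
      filter_upwards [hH, a.2.2, b.2.2, z2 a, z2 b] with y a1 a2 a3 a4 a5
      exact c2 y a1.1.2.2.2 a2 a3 (a4.trans ((congrArg Subtype.val e).trans a5.symm))
    refine Prod.ext (Prod.ext_iff.1 h1.exists.choose_spec).1
      (Prod.ext ?_ (Prod.ext_iff.1 (Prod.ext_iff.1 h1.exists.choose_spec).2).2)
    by_contra k
    obtain ⟨y, b1, b2⟩ := (h1.and (a.2.1.2.1.ev_ne hu b.2.1.2.1 k)).exists
    exact b2 (congrArg (fun z : LA C => z.2.1) b1)
  · have key : ∀ ζ ∈ Iio P.χ.ord, ∀ᶠ y in (P.U (ty u) : Filter (Set Ordinal.{0})),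
        ∀ b ∈ (H y).2, cd y b = ζ → b ∈ Prod.map id (evA (u, f u) y) '' G := by
      intro ζ _
      rcases (P.U (ty u)).em fun y => ∃ b ∈ (H y).2, cd y b = ζ with k | k
      swap
      · exact k.mono fun y hy b b1 b2 => (hy ⟨b, b1, b2⟩).elim
      have : Nonempty (LA C) := ⟨k.exists.choose_spec.choose⟩
      choose! t t1 t2 using fun y (h : ∃ b ∈ (H y).2, cd y b = ζ) => h
      have k1 := (hH.and k).mono fun y hy => hy.1.1.2.1 _ (t1 y hy.2)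
      obtain ⟨v, hv, k3⟩ := ae_const (U := P.U (ty u)) (φ := fun y => (t y).2.2)
        (mk_lists.trans_lt (P.ν0_lt hk)) (k1.mono fun y hy => hy.2.2)
      obtain ⟨s, hs, k2⟩ := ae_const (U := P.U (ty u)) (φ := fun y => (t y).1)
        (P.mk_b.trans_lt (P.χ_lt hk)) (k1.mono fun y hy => hy.1)
      obtain ⟨a, a1, a2⟩ := lab2_cell hu hk (fun y => (t y).2.1) (k1.mono fun y hy => hy.2.1)
      have k7 : ∀ᶠ y in (P.U (ty u) : Filter (Set Ordinal.{0})),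
          Prod.map id (evA (u, f u) y) (s, a, v) = t y := by
        filter_upwards [a2, k2, k3] with y b1 b2 b3
        exact Prod.ext b2.symm (Prod.ext b1 b3.symm)
      filter_upwards [k7, k, hH] with y b1 b2 b3 b b4 b5
      refine ⟨(s, a, v), ⟨⟨hs, a1, hv⟩, ?_⟩,
        b1.trans (c2 y b3.1.2.2.2 (t1 y b2) b4 ((t2 y b2).trans b5.symm))⟩
      filter_upwards [k7, k] with y d1 d2
      exact d1 ▸ t1 y d2
    exact (P.U_all hk (mk_Iio_ord _).le key).mono fun y hy b hb => hy _ (c1 y b) b hb rfl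

variable (P) in
open Classical in
/-- The effect of a base move on atoms. -/
noncomputable def fill (c : C) (n : ℕ) (x : Set Ordinal.{0}) (a : Atom C) : Atom C :=
  if a.1 = (c, [], .leaf a.1.2.2.col) ∧ a.1.2.2.col ∈ x then (a.1, P.cd n x a.1.2.2.col :: a.2) else a

theorem fill_fst (c : C) (n : ℕ) (x : Set Ordinal.{0}) (a : Atom C) : (P.fill c n x a).1 = a.1 := by
  unfold fill
  split_ifs <;> rfl

variable (P ty) in
/-- All columns in `x` are forced to occur in `g`. -/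
def Full (c : C) (x : Set Ordinal.{0}) (g : Lb C) : Prop :=
  ∀ β ∈ x, β < (ty c).l → Dn (PV P.b) (res P.b g.1) fun s =>
    ∃ a ∈ g.2, a.2.1 = (c, [], .leaf β) ∧ a.1 ⊆ s

omit [LinearOrder C] in
theorem Full.mono {c : C} {x : Set Ordinal.{0}} (h : P.Full ty c x g) (e : g ≤ g') :
    P.Full ty c x g' := fun β a b => ((h β a b).mono (res_mono e.1)).imp
  fun _ _ _ ⟨z, k, l⟩ => ⟨z, e.2 k, l⟩

theorem cellOK_base {c : C} (hc : (ty c).k = 0) (n : ℕ) {a : Cell C} :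
    P.CellOK ty (update f c n) a ↔ P.CellOK ty f a := by
  refine and_congr_right' (and_congr_left' (forall₂_congr fun m _ => and_congr_right fun h => ?_))
  rw [update_of_ne fun e : m.1 = c => h (e ▸ hc)]

theorem Q_base {c : C} (hc : (ty c).k = 0) (n : ℕ) :
    P.QL ty (update f c n) d = P.QL ty f d := by
  simp only [QL, AOK, cellOK_base hc]

theorem Q_fill (h : g ∈ P.QL ty f d) (c : C) (n : ℕ) (x : Set Ordinal.{0}) :
    lmap (P.fill c n x) g ∈ P.QL ty f d := by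
  refine ⟨h.1, ?_, ?_, mk_image_le.trans h.2.2.2⟩
  · rintro _ ⟨a, ha, rfl⟩
    refine ⟨(h.2.1 a ha).1, (fill_fst c n x a.2).symm ▸ (h.2.1 a ha).2.1, fun ξ k => ?_⟩
    change ξ ∈ (P.fill c n x a.2).2 at k
    unfold fill at k
    split_ifs at k
    · rcases List.mem_cons.1 k with rfl | k
      exacts [P.cd_lt _ _ _, (h.2.1 a ha).2.2 ξ k]
    · exact (h.2.1 a ha).2.2 ξ k
  · rintro _ ⟨a, ha, rfl⟩ _ ⟨b, hb, rfl⟩ e s a1 a2 a3 a4
    have e' : a.2.1 = b.2.1 := (fill_fst c n x a.2).symm.trans (Eq.trans e (fill_fst c n x b.2))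
    exact congrArg (fun z => (P.fill c n x z).2)
      (Prod.ext e' (h.2.2.1 a ha b hb e' s a1 a2 a3 a4))

/-- Let `g' = (t.1, g.2 ∪ {a ∈ t.2 | the cell of a is not a column of c in x})`. -/
theorem fill_pull {t : Lb C} (h : g ∈ P.QL ty f d) (ht : t ∈ P.QL ty f d) {c : C} {n : ℕ}
    {x : Set Ordinal.{0}} (hg : P.Full ty c x g) (e : lmap (P.fill c n x) g ≤ t) :
    ∃ g' ∈ P.QL ty f d, g ≤ g' ∧ P.lsle (lmap (P.fill c n x) g') t := by
  have nf : ∀ a : LA C, ¬ (a.2.1 = (c, [], .leaf a.2.1.2.2.col) ∧ a.2.1.2.2.col ∈ x) →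
      Prod.map id (P.fill c n x) a = a := fun a k => Prod.ext rfl (if_neg k)
  refine ⟨(t.1, g.2 ∪ {a ∈ t.2 | ¬ (a.2.1 = (c, [], .leaf a.2.1.2.2.col) ∧ a.2.1.2.2.col ∈ x)}),
    QL_union (QL_up' h ht.1 e.1) (QL_sub ht (sep_subset _ _)) fun a ha b hb k => ?_,
    ⟨e.1, subset_union_left⟩, Sle.of_sub ht.1 subset_rfl, fun a ha s a1 a2 a3 => ?_⟩
  · exact ht.2.2.1 a (e.2 ⟨a, ha, nf a (k ▸ hb.2)⟩) b hb.1 k
  · by_cases k : a.2.1 = (c, [], .leaf a.2.1.2.2.col) ∧ a.2.1.2.2.col ∈ x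
    · have b1 := (ht.2.1 a ha).2.1
      rw [k.1] at b1
      obtain ⟨β, b2, b3⟩ := b1.2.2.2
      obtain ⟨s', c1, c2, z, c3, c4, c5⟩ :=
        hg _ k.2 (Tm.leaf.inj b3 ▸ b2) s a1 ((res_mono e.1).trans a2)
      have e' : (P.fill c n x z.2).1 = a.2.1 := (fill_fst c n x z.2).trans (c4.trans k.1.symm)
      exact ⟨s', c1, c2, _, ⟨z, Or.inl c3, rfl⟩, c5, Prod.ext e'
        (ht.2.2.1 _ (e.2 ⟨z, c3, rfl⟩) a ha e' s' c1 (a2.trans c2) c5 (a3.trans c2))⟩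
    · exact ⟨s, a1, subset_rfl, a, ⟨a, Or.inr ⟨ha, k⟩, nf a k⟩, a3, rfl⟩

/-- For each column `β ∈ x` add the atoms `(s, (c, [], leaf β), [])` for all `s ∈ PV P.b` that
have no extension in `PV P.b` containing the tag of an atom of `g.2` with this cell. -/
theorem exists_full (h : g ∈ P.QL ty f d) {c : C} (hc : (ty c).k = 0)
    {x : Set Ordinal.{0}} (hx : #x ≤ lc (P.ν 0)) :
    ∃ L, (g.1, L) ∈ P.QL ty f d ∧ g.2 ⊆ L ∧ P.Full ty c x (g.1, L) := by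
  let N : Set (LA C) := (fun z : Set At × Ordinal.{0} => (z.1, (c, [], .leaf z.2), [])) ''
    {z ∈ PV P.b ×ˢ x | z.2 < (ty c).l ∧
      ¬ ∃ s' ∈ PV P.b, z.1 ⊆ s' ∧ ∃ a ∈ g.2, a.2.1 = (c, [], .leaf z.2) ∧ a.1 ⊆ s'}
  have hN : (g.1, N) ∈ P.QL ty f d := by
    refine ⟨h.1, ?_, ?_, mk_image_le.trans ((mk_le_mk_of_subset (sep_subset _ _)).trans ?_)⟩
    · rintro _ ⟨z, hz, rfl⟩
      exact ⟨hz.1.1, ⟨hc, by simp, by simp, _, hz.2.1, rfl⟩, by simp⟩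
    · rintro _ ⟨z, -, rfl⟩ _ ⟨z', -, rfl⟩ _ _ _ _ _ _
      rfl
    · rw [mk_setProd]
      exact (mul_le_mul' P.mk_b (hx.trans (lift_le.2 P.ν0_χ))).trans (mul_eq_self P.lχ0).le
  refine ⟨g.2 ∪ N, QL_union h hN ?_, subset_union_left, fun β b1 b2 s b3 _ => ?_⟩
  · rintro a ha _ ⟨z, hz, rfl⟩ k s a1 - a3 a4
    exact (hz.2.2 ⟨s, a1, a4, a, ha, k, a3⟩).elim
  · by_cases k : ∃ s' ∈ PV P.b, s ⊆ s' ∧ ∃ a ∈ g.2, a.2.1 = (c, [], .leaf β) ∧ a.1 ⊆ s'
    · obtain ⟨s', c1, c2, a, c3, c4⟩ := k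
      exact ⟨s', c1, c2, a, Or.inl c3, c4⟩
    · exact ⟨s, b3, subset_rfl, _, Or.inr ⟨(s, β), ⟨⟨b3, b1⟩, b2, k⟩, rfl⟩, rfl, subset_rfl⟩

/-- The chain condition. Port of the old `Q_cc`, with `Supercompact.exists_ult`; tags and values
are almost constant for each code, so an atom of `L j` whose cell occurs in `L i` lies in
`L i`. -/
theorem Q_cc {I : Type 1} (hI : lc (P.ν 1) ≤ #I) (L : I → Set (LA C))
    (hg : ∀ i, (q, L i) ∈ P.QL ty f d) : ∃ i j, i ≠ j ∧ (q, L i ∪ L j) ∈ P.QL ty f d := by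
  obtain ⟨W, h2, h1⟩ := (P.ν_prep 0).1.exists_ult hI
  have hχ := P.χ_lt one_ne_zero
  have hI : #(Iio P.χ.ord) < lc (P.ν 1) := (mk_Iio_ord _).trans_lt hχ
  choose cd c1 c2 using fun i => exists_code P.χ0 (L i)
  have key : ∀ ζ ∈ Iio P.χ.ord, ∃ v : Set At × List Ordinal.{0}, ∀ᶠ i in (W : Filter I),
      ∀ a ∈ L i, cd i a = ζ → a.1 = v.1 ∧ a.2.2 = v.2 := by
    intro ζ _
    rcases W.em fun i => ∃ b ∈ L i, cd i b = ζ with k | k
    · have : Nonempty (LA C) := ⟨k.exists.choose_spec.choose⟩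
      choose! t t1 t2 using fun i (h : ∃ b ∈ L i, cd i b = ζ) => h
      obtain ⟨v, -, k3⟩ := ae_const (U := W) (φ := fun i => (t i).2.2)
        (mk_lists.trans_lt (P.ν0_lt one_ne_zero)) (k.mono fun i hi => ((hg i).2.1 _ (t1 i hi)).2.2)
      obtain ⟨s, -, k4⟩ := ae_const (U := W) (φ := fun i => (t i).1)
        (P.mk_b.trans_lt hχ) (k.mono fun i hi => ((hg i).2.1 _ (t1 i hi)).1)
      refine ⟨(s, v), (k.and (k3.and k4)).mono fun i hi a a1 a2 => ?_⟩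
      rw [c2 i (hg i).2.2.2 a1 (t1 i hi.1) (a2.trans (t2 i hi.1).symm)]
      exact ⟨hi.2.2, hi.2.1⟩
    · exact ⟨(∅, []), k.mono fun i hi a a1 a2 => (hi ⟨a, a1, a2⟩).elim⟩
  choose! v hv using key
  have k1 := (eventually_cardinal_ball hI).2 hv
  have k2 : ∀ᶠ i in (W : Filter I), ∀ ζ ∈ Iio P.χ.ord, ∀ b,
      (∀ᶠ j in (W : Filter I), ∃ a ∈ L j, a.2.1 = b ∧ cd j a = ζ) →
        ∃ a ∈ L i, a.2.1 = b ∧ cd i a = ζ := by
    refine (eventually_cardinal_ball hI).2 fun ζ _ => ?_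
    by_cases k : ∃ b, ∀ᶠ j in (W : Filter I), ∃ a ∈ L j, a.2.1 = b ∧ cd j a = ζ
    · obtain ⟨b, k⟩ := k
      refine k.mono fun i hi b' k' => ?_
      obtain ⟨j, ⟨a, a1, a2, a3⟩, a', b1, b2, b3⟩ := (k.and k').exists
      rwa [← b2, ← c2 j (hg j).2.2.2 a1 b1 (a3.trans b3.symm), a2]
    · exact Eventually.of_forall fun i b k' => (k ⟨b, k'⟩).elim
  obtain ⟨i, i1, i2⟩ := (k1.and k2).exists
  have k3 : ∀ᶠ j in (W : Filter I), ∀ a ∈ L i, ∀ ζ ∈ Iio P.χ.ord,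
      (∃ b ∈ L j, b.2.1 = a.2.1 ∧ cd j b = ζ) → ∃ b ∈ L i, b.2.1 = a.2.1 ∧ cd i b = ζ := by
    refine (eventually_cardinal_ball ((hg i).2.2.2.trans_lt hχ)).2 fun a _ =>
      (eventually_cardinal_ball hI).2 fun ζ hζ => ?_
    rcases W.em fun j => ∃ b ∈ L j, b.2.1 = a.2.1 ∧ cd j b = ζ with k | k
    · exact Eventually.of_forall fun _ _ => i2 ζ hζ _ k
    · exact k.mono fun j hj k' => (hj k').elim
  obtain ⟨j, j1, j2, j3⟩ := (k1.and (k3.and (h1 i))).exists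
  refine ⟨i, j, j3.symm, QL_union (hg i) (hg j) fun a ha b hb e s s1 s2 s3 s4 => ?_⟩
  obtain ⟨b', b1, b2, b3⟩ := j2 a ha _ (c1 j b) ⟨b, hb, e.symm, rfl⟩
  have e1 := i1 _ (c1 j b) _ b1 b3
  have e2 := j1 _ (c1 j b) _ hb rfl
  rw [(hg i).2.2.1 _ ha _ b1 b2.symm s s1 s2 s3 ((e1.1.trans e2.1.symm).subset.trans s4),
    e1.2, e2.2]

/-- Apply `rds` for `pvT (PV d)` with index set (points) × (subsets `L` of `S`) to the sets of
`k` such that either `(k, L')` is a label deciding `N` at `x` for some `L' ⊇ L`, or no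
`(k', L)` with `k ⊆ k' ∈ PV d` is a label. Use `QL_sle`, `lsle_of_sle`, `cov`. -/
theorem redD_rl (h : P.b ≤ c) (hd : c ≤ d) (hn : ¬ Stage c) {μ : Cardinal.{0}} {δ : Ordinal.{0}}
    {S : Set (LA C)} (hS : ∀ g ∈ P.QL ty f d, g.2 ⊆ S)
    (hp : ∀ γ, Stage γ → c < γ → #{x | Pt μ δ x} < lc γ.card ∧ #S < lc γ.card) :
    RedD (P.QL ty f d) (rl c) μ δ := by
  intro N g hg
  obtain ⟨q, a1, a2, a3, a4⟩ := (pvT_ok d).rds hd hn (ι := {x | Pt μ δ x} × {L | L ⊆ S})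
    (fun γ k l => by
      have k0 : ℵ₀ ≤ lc γ.card := aleph0_le_lift.2 k.1.aleph0_lt.le
      rw [mk_prod, Cardinal.lift_id, Cardinal.lift_id]
      refine mul_lt_of_lt k0 (hp γ k l).1 ((mk_powerset S).trans_lt ?_)
      exact two_pow_lt k.1.isStrongLimit (hp γ k l).2)
    (fun i k => (∃ L', i.2.1 ⊆ L' ∧ (k, L') ∈ P.QL ty f d ∧ Dcd (P.QL ty f d) N i.1.1 (k, L')) ∨
      ∀ k' ∈ PV d, k ⊆ k' → (k', i.2.1) ∉ P.QL ty f d) hg.1 fun i k b1 _ => by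
      by_cases e : ∀ k' ∈ PV d, k ⊆ k' → (k', i.2.1) ∉ P.QL ty f d
      · exact ⟨k, b1, le_rfl, Or.inr e⟩
      · push Not at e
        obtain ⟨k', -, c2, c3⟩ := e
        obtain ⟨z, d1, d2, d3⟩ := dn_dcd _ N i.1.1 _ _ c3 le_rfl
        exact ⟨z.1, d1.1, Subset.trans c2 d2.1, Or.inl ⟨z.2, d2.2, d1, d3⟩⟩
  refine ⟨(q, g.2), QL_up' hg a1 a2, ⟨a2, subset_rfl⟩, fun x hx k0 b1 b2 => ?_⟩
  have b3 : res c g.1 ⊆ res c k0.1 := res_mono (Subset.trans a2 b2.1)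
  obtain ⟨s', c1, c2, k, c3, -, c5, c6⟩ :=
    a4 (⟨x, hx⟩, ⟨k0.2, hS _ b1⟩) _ (PV.res b1.1 c) b3
  have c7 : Sle (s' ∪ q) k := c6
  rcases c5 with ⟨L', d1, d2, d3⟩ | c5
  · have d4 : Sle s' (res c k) := by
      have := c7.res c
      rwa [res_amal c1 ((show res c q = res c g.1 from a3).le.trans (b3.trans c2))] at this
    refine ⟨(s', L'), ⟨QL_sle ((cut_rl h).mem _ d2) (PV.mono c1 hd) d4,
      Prod.ext (PV.res_eq c1 le_rfl) rfl⟩, ⟨c2, d1⟩, _, d2, d3, fun k' e1 e2 e3 => ?_⟩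
    exact (labT_ok (h.trans hd)).cov (lsle_of_sle (g := (k, L')) c7) d2 e1
      ⟨union_subset e2.1 e3.1, e2.2⟩
  · have d1 : s' ∪ k0.1 ∈ PV d := PV.amal c1 b1.1 c2 hd
    have d2 := (c7.mono (union_subset_union_right _ b2.1)).union_mem d1 c3
    exact (c5 _ d2 subset_union_right
      (QL_up' b1 d2 (subset_union_right.trans subset_union_left))).elim

end Par

end Pool.Agent.SC7292
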