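import Pool.Agent.SC7292.Defs
import Pool.Agent.MP_7b2404_lc.K

/-!
Normal fine measures on small sets of ordinals.
-/

namespace Pool.Agent.SC7292

open Cardinal Ordinal Set Filter Function Pool.Agent.MP_7b2404_lc

/-- Lifting of cardinals. -/
noncomputable abbrev lc (c : Cardinal.{0}) : Cardinal.{1} := Cardinal.lift.{1} c

/-- Small subsets of `δ`. -/
def Pt (μ : Cardinal.{0}) (δ : Ordinal.{0}) (x : Set Ordinal.{0}) : Prop :=
  x ⊆ Iio δ ∧ #x < lc μ

theorem small_of_lt {X : Type 1} {c : Cardinal.{0}} (h : #X < lc c) :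
    ∃ (Y : Type) (_ : Y ≃ X), #Y < c := by
  obtain ⟨d, hd, e⟩ := Cardinal.lt_lift_iff.1 h
  obtain ⟨φ⟩ := exists_equiv e
  exact ⟨_, φ, by simpa using hd⟩

theorem small_pt (μ : Cardinal.{0}) (δ : Ordinal.{0}) : Small.{0} {x // Pt μ δ x} :=
  small_of_injective (f := fun x : {x // Pt μ δ x} => (Subtype.val ⁻¹' x.1 : Set (Iio δ)))
    fun a b e => Subtype.ext (Set.ext fun z => ⟨fun hz => (Set.ext_iff.1 e ⟨z, a.2.1 hz⟩).1 hz,
      fun hz => (Set.ext_iff.1 e ⟨z, b.2.1 hz⟩).2 hz⟩)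

theorem mk_iUnion_lt {c : Cardinal.{0}} (hc : c.IsRegular) {ι X : Type 1} (hι : #ι < lc c)
    (s : ι → Set X) (hs : ∀ i, #(s i) < lc c) : #(⋃ i, s i) < lc c :=
  mk_iUnion_le_sum_mk.trans_lt (sum_lt_of_isRegular hc.lift hι hs)

theorem ae_const {X Z : Type 1} {U : Ultrafilter X} {c : Cardinal.{1}}
    [CardinalInterFilter (U : Filter X) c] {S : Set Z} (hS : #S < c) {φ : X → Z}
    (h : ∀ᶠ y in (U : Filter X), φ y ∈ S) : ∃ z ∈ S, ∀ᶠ y in (U : Filter X), φ y = z := by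
  by_contra hc
  push Not at hc
  have := (eventually_cardinal_ball (l := (U : Filter X)) hS (p := fun y z _ => φ y ≠ z)).2
    fun z hz => Ultrafilter.eventually_not.2 (by simpa using hc z hz)
  obtain ⟨y, h1, h2⟩ := (h.and this).exists
  exact h2 _ h1 rfl

theorem exists_code {X : Type 1} {κ : Cardinal.{0}} (h0 : ℵ₀ ≤ κ) (S : Set X) :
    ∃ φ : X → Ordinal.{0}, (∀ a, φ a < κ.ord) ∧ (#S ≤ lc κ → InjOn φ S) := by
  classical
  have h1 : 0 < κ.ord := by simpa using aleph0_pos.trans_le h0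
  by_cases h : #S ≤ lc κ
  · obtain ⟨φ, a, b⟩ := exists_inj_Iio' h
    refine ⟨fun x => if k : x ∈ S then φ ⟨x, k⟩ else 0, fun x => ?_, fun _ x k y l e => ?_⟩
    · dsimp only
      split_ifs
      exacts [b _, h1]
    · simp only [k, l, dif_pos] at e
      exact congrArg Subtype.val (a e)
  · exact ⟨fun _ => 0, fun _ => h1, fun h' => (h h').elim⟩
where
  exists_inj_Iio' {ι : Type 1} {κ : Cardinal.{0}} (h : #ι ≤ lc κ) :
      ∃ φ : ι → Ordinal.{0}, Injective φ ∧ ∀ j, φ j < κ.ord := by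
    have : #ι ≤ #(Iio κ.ord) := by simpa [mk_Iio] using h
    obtain ⟨φ⟩ := this
    exact ⟨fun j => (φ j).1, fun a b e => φ.injective (Subtype.ext e), fun j => (φ j).2⟩

theorem mk_Iio_ord (κ : Cardinal.{0}) : #(Iio κ.ord) = lc κ := by simp [mk_Iio]

/-- Enumeration of a set by the ordinals below a cardinal. -/
theorem exists_enum {X : Type 1} {κ : Cardinal.{0}} {S : Set X} (h : #S ≤ lc κ) (x0 : X) :
    ∃ e : Ordinal.{0} → X, (∀ ξ, e ξ ∈ S ∨ e ξ = x0) ∧ ∀ x ∈ S, ∃ ξ < κ.ord, e ξ = x := by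
  classical
  obtain ⟨φ, a, b⟩ := exists_code.exists_inj_Iio' h
  refine ⟨fun ξ => if k : ∃ j, φ j = ξ then k.choose.1 else x0, fun ξ => ?_,
    fun x hx => ⟨φ ⟨x, hx⟩, b _, ?_⟩⟩
  · dsimp only
    split_ifs with k
    exacts [Or.inl k.choose.2, Or.inr rfl]
  · have k : ∃ j, φ j = φ ⟨x, hx⟩ := ⟨_, rfl⟩
    simp only [dif_pos k]
    exact congrArg Subtype.val (a k.choose_spec)

theorem two_pow_lt {χ : Cardinal.{0}} (hχ : χ.IsStrongLimit) {a : Cardinal.{1}} (ha : a < lc χ) :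
    2 ^ a < lc χ := by
  obtain ⟨a, hb, rfl⟩ := Cardinal.lt_lift_iff.1 ha
  rw [← lift_two_power]
  exact Cardinal.lift_lt.2 (hχ.two_power_lt hb)

theorem pow_lt_lc {χ : Cardinal.{0}} (hχ : χ.IsStrongLimit) {a b : Cardinal.{1}} (ha : a < lc χ)
    (hb : b < lc χ) : a ^ b < lc χ :=
  calc a ^ b ≤ (2 ^ a) ^ b := power_le_power_right (cantor a).le
    _ = 2 ^ (a * b) := by rw [power_mul]
    _ < lc χ := two_pow_lt hχ (mul_lt_of_lt (aleph0_le_lift.2 hχ.aleph0_le) ha hb)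

theorem mk_subsets {X : Type 1} {χ : Cardinal.{0}} (hχ : χ.IsStrongLimit) {S : Set X}
    (hS : #S < lc χ) : #{T | T ⊆ S} < lc χ := (mk_powerset S).trans_lt (two_pow_lt hχ hS)

theorem mk_Iio_lt {χ : Cardinal.{0}} {o : Ordinal.{0}} (h : o < χ.ord) : #(Iio o) < lc χ := by
  rw [mk_Iio]
  exact Cardinal.lift_lt.2 (lt_ord.1 h)

theorem mk_prod_lt {X Y : Type 1} {χ : Cardinal.{0}} (hχ : ℵ₀ ≤ χ) {S : Set X} {T : Set Y}
    (hS : #S < lc χ) (hT : #T < lc χ) : #(S ×ˢ T : Set (X × Y)) < lc χ :=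
  (mk_setProd S T).trans_lt (mul_lt_of_lt (aleph0_le_lift.2 hχ) hS hT)

theorem mk_lt_of_map {X Y : Type 1} {S : Set X} {T : Set Y} {c : Cardinal.{1}} (hT : #T < c)
    (f : X → Y) (h : ∀ x ∈ S, f x ∈ T) (hi : ∀ x ∈ S, ∀ y ∈ S, f x = f y → x = y) : #S < c :=
  lt_of_le_of_lt (mk_le_of_injective (f := fun x : S => (⟨f x, h x x.2⟩ : T))
    fun a b e => Subtype.ext (hi _ a.2 _ b.2 (congrArg Subtype.val e))) hT

theorem sSup_lt_reg {c : Cardinal.{0}} (hc : c.IsRegular) {x : Set Ordinal.{0}} (hx : #x < lc c)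
    (h : x ⊆ Iio c.ord) : sSup x < c.ord :=
  sSup_lt_of_lt_cof (by rwa [← lift_cof, hc.cof_ord]) h

/-- Normal fine complete ultrafilters on the small subsets of `X`. -/
structure NM (κ : Cardinal.{0}) (X : Set Ordinal.{0}) (W : Ultrafilter (Set Ordinal.{0})) :
    Prop where
  ci : CardinalInterFilter (W : Filter (Set Ordinal.{0})) (lc κ)
  pt : ∀ᶠ x : Set Ordinal.{0} in (W : Filter (Set Ordinal.{0})), x ⊆ X ∧ #x < lc κ
  fine : ∀ ξ ∈ X, ∀ᶠ x in (W : Filter (Set Ordinal.{0})), ξ ∈ x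
  diag : ∀ p : Set Ordinal.{0} → Ordinal.{0} → Prop,
    (∀ ξ ∈ X, ∀ᶠ x in (W : Filter (Set Ordinal.{0})), p x ξ) →
      ∀ᶠ x in (W : Filter (Set Ordinal.{0})), ∀ ξ ∈ x, p x ξ

/-- The least ordinal outside `x`. -/
noncomputable def kx (x : Set Ordinal.{0}) : Ordinal.{0} := sInf xᶜ

/-- The function of Menas. -/
noncomputable def fm (γ : Ordinal.{0}) : Ordinal.{0} :=
  max (γ + 1) (sInf {δ | ¬ ∃ W, NM γ.card (Iio δ) W})

theorem lt_fm (γ : Ordinal.{0}) : γ < fm γ := (lt_add_one γ).trans_le (le_max_left _ _)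

/-- The stages of the iteration. -/
def Stage (γ : Ordinal.{0}) : Prop :=
  γ.card.IsInaccessible ∧ γ.card.ord = γ ∧ ∀ α < γ, fm α < γ

variable {κ : Cardinal.{0}} {X : Set Ordinal.{0}} {W : Ultrafilter (Set Ordinal.{0})}
  {l : Ordinal.{0}}

/-- Regressive choices are almost constant (contrapositive of `diag`). -/
theorem NM.const (h : NM κ X W) {p : Set Ordinal.{0} → Ordinal.{0} → Prop}
    (hp : ∀ᶠ x in (W : Filter (Set Ordinal.{0})), ∃ ξ ∈ x, p x ξ) :
    ∃ ξ ∈ X, ∀ᶠ x in (W : Filter (Set Ordinal.{0})), p x ξ := by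
  by_contra hc
  have h1 := h.diag (fun x ξ => ¬ p x ξ) fun ξ hξ =>
    Ultrafilter.eventually_not.2 fun k => hc ⟨ξ, hξ, k⟩
  obtain ⟨x, ⟨ξ, a, b⟩, e⟩ := (hp.and h1).exists
  exact e ξ a b

theorem nm1_pull (h : NM κ X W) {Y : Set Ordinal.{0}} {G : Ordinal.{0} → Ordinal.{0}}
    (h1 : ∀ η ∈ Y, G η ∈ X) (h2 : InjOn G Y) :
    NM κ Y (W.map fun x => {η | η ∈ Y ∧ G η ∈ x}) where
  ci := by
    have := h.ci
    rw [Ultrafilter.coe_map]
    infer_instance
  pt := by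
    rw [Ultrafilter.coe_map, eventually_map]
    exact h.pt.mono fun x k => ⟨fun _ a => a.1, mk_lt_of_map k.2 G (fun _ a => a.2)
      fun a b a' b' e => h2 b.1 b'.1 e⟩
  fine ξ k := by
    rw [Ultrafilter.coe_map, eventually_map]
    exact (h.fine _ (h1 ξ k)).mono fun _ a => ⟨k, a⟩
  diag p k := by
    simp only [Ultrafilter.coe_map, eventually_map] at k ⊢
    refine (h.diag (fun x ξ => ∀ η ∈ Y, G η = ξ → p {η | η ∈ Y ∧ G η ∈ x} η)
      fun ξ _ => ?_).mono fun x a η b => a _ b.2 η b.1 rfl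
    by_cases e : ∃ η ∈ Y, G η = ξ
    · obtain ⟨η, a, rfl⟩ := e
      exact (k η a).mono fun x b η' c d => h2 c a d ▸ b
    · exact Eventually.of_forall fun x η a b => (e ⟨η, a, b⟩).elim

/-- Transfer along an injection `g : Y → X`: push `W` forward by `x ↦ {η ∈ Y | g η ∈ x}`. -/
theorem NM.transfer (h : NM κ X W) {Y : Set Ordinal.{0}} (hY : #Y ≤ #X) : ∃ W', NM κ Y W' := by
  classical
  obtain ⟨g⟩ := hY
  refine ⟨_, nm1_pull h (G := fun η => if k : η ∈ Y then (g ⟨η, k⟩).1 else 0)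
    (fun η k => ?_) fun a k b l e => ?_⟩
  · simp only [dif_pos k]
    exact (g _).2
  · simp only [dif_pos k, dif_pos l] at e
    exact congrArg Subtype.val (g.injective (Subtype.ext e))

/-- Projection to an initial segment. -/
theorem NM.proj (h : NM κ X W) {Y : Set Ordinal.{0}} (hY : Y ⊆ X) :
    NM κ Y (W.map fun x => x ∩ Y) := by
  have e : (fun x : Set Ordinal.{0} => x ∩ Y) = fun x => {η | η ∈ Y ∧ id η ∈ x} :=
    funext fun x => Set.ext fun _ => and_comm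
  rw [e]
  exact nm1_pull h hY (injOn_id Y)

theorem nm1_mk {α : Type} {δ : Ordinal.{0}} (e : α ≃ Iio δ) (x : Set α) :
    #((fun a => (e a).1) '' x) = lc #x := by
  have := mk_image_eq_lift (fun a => (e a).1) x (Subtype.val_injective.comp e.injective)
  simpa using this

theorem nm1_up {α : Type} {δ : Ordinal.{0}} (e : α ≃ Iio δ) {U : Ultrafilter (Set α)}
    (h1 : CardinalInterFilter (U : Filter (Set α)) κ)
    (h2 : ∀ᶠ x : Set α in (U : Filter (Set α)), #x < κ)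
    (h3 : ∀ a, ∀ᶠ x in (U : Filter (Set α)), a ∈ x)
    (h4 : ∀ h : Set α → α, (∀ᶠ x in (U : Filter (Set α)), h x ∈ x) →
      ∃ a, ∀ᶠ x in (U : Filter (Set α)), h x = a) :
    NM κ (Iio δ) (U.map fun x => (fun a => (e a).1) '' x) where
  ci := ⟨fun S hS k => by
    obtain ⟨Y, φ, hY⟩ := small_of_lt hS
    rw [Ultrafilter.coe_map] at k ⊢
    have := (eventually_cardinal_forall (l := (U : Filter (Set α))) hY
      (p := fun x y => (fun a => (e a).1) '' x ∈ (φ y).1)).2 fun y => k _ (φ y).2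
    refine mem_map.2 (mem_of_superset this fun x a s b => ?_)
    simpa using a (φ.symm ⟨s, b⟩)⟩
  pt := by
    rw [Ultrafilter.coe_map, eventually_map]
    refine h2.mono fun x k => ⟨?_, ?_⟩
    · rintro _ ⟨a, _, rfl⟩
      exact (e a).2
    · rw [nm1_mk]
      exact Cardinal.lift_lt.2 k
  fine ξ k := by
    rw [Ultrafilter.coe_map, eventually_map]
    exact (h3 (e.symm ⟨ξ, k⟩)).mono fun x a => ⟨_, a, by simp⟩
  diag p k := by
    classical
    simp only [Ultrafilter.coe_map, eventually_map] at k ⊢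
    by_contra hc
    have hc := Ultrafilter.eventually_not.2 hc
    have h5 : ∀ᶠ x in (U : Filter (Set α)), ∃ a ∈ x, ¬ p ((fun a => (e a).1) '' x) (e a).1 := by
      refine hc.mono fun x a => ?_
      by_contra b
      apply a
      rintro _ ⟨c, d, rfl⟩
      by_contra f
      exact b ⟨c, d, f⟩
    obtain ⟨x0, a0, -⟩ := h5.exists
    let h : Set α → α := fun x =>
      if k : ∃ a ∈ x, ¬ p ((fun a => (e a).1) '' x) (e a).1 then k.choose else a0
    have h6 : ∀ᶠ x in (U : Filter (Set α)),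
        h x ∈ x ∧ ¬ p ((fun a => (e a).1) '' x) (e (h x)).1 := h5.mono fun x k => by
      simp only [h, dif_pos k]
      exact k.choose_spec
    obtain ⟨a, ha⟩ := h4 h (h6.mono fun _ b => b.1)
    obtain ⟨x, b, c, d⟩ := (h6.and (ha.and (k _ (e a).2))).exists
    exact b.2 (c ▸ d)

/-- Transfer between `δ.ToType` (or `α`) and `Iio δ`; normality and `diag` are contrapositives
(use choice; `h x` is only needed almost everywhere). -/
theorem supercompact_iff : Supercompact κ ↔ ℵ₀ < κ ∧ ∀ δ, ∃ W, NM κ (Iio δ) W := by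
  refine and_congr Iff.rfl ⟨fun h δ => ?_, fun h α => ?_⟩
  · obtain ⟨U, h1, h2, h3, h4⟩ := h δ.ToType
    exact ⟨_, nm1_up ToType.mk.symm.toEquiv h1 h2 h3 h4⟩
  · obtain ⟨W, h⟩ := h (#α).ord
    obtain ⟨e⟩ : Nonempty (α ≃ Iio (#α).ord) := by
      rw [← Cardinal.lift_mk_eq'.{0, 1}]
      simp
    have hci := h.ci
    refine ⟨W.map fun x => {a | (e a).1 ∈ x}, ⟨fun S hS k => ?_⟩, ?_, fun a => ?_, fun f k => ?_⟩
    · rw [Ultrafilter.coe_map] at k ⊢
      have := (eventually_cardinal_forall (l := (W : Filter (Set Ordinal.{0}))) (c := lc κ)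
        (ι := ULift.{1} S) (by simpa using hS)
        (p := fun x y => {a | (e a).1 ∈ x} ∈ y.down.1)).2 fun y => k _ y.down.2
      exact mem_map.2 (mem_of_superset this fun x a s b => a ⟨⟨s, b⟩⟩)
    · rw [Ultrafilter.coe_map, eventually_map]
      refine h.pt.mono fun x k => Cardinal.lift_lt.{0, 1}.1 ?_
      refine (nm1_mk e _).symm.trans_lt ((mk_le_mk_of_subset ?_).trans_lt k.2)
      rintro _ ⟨a, b, rfl⟩
      exact b
    · rw [Ultrafilter.coe_map, eventually_map]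
      exact h.fine _ (e a).2
    · simp only [Ultrafilter.coe_map, eventually_map] at k ⊢
      obtain ⟨ξ, a, b⟩ := h.const (p := fun x ξ => (e (f {a | (e a).1 ∈ x})).1 = ξ)
        (k.mono fun x a => ⟨_, a, rfl⟩)
      exact ⟨e.symm ⟨ξ, a⟩, b.mono fun x c => e.eq_symm_apply.2 (Subtype.ext c)⟩

theorem Supercompact.nm (h : Supercompact κ) (δ : Ordinal.{0}) : ∃ W, NM κ (Iio δ) W :=
  (supercompact_iff.1 h).2 δ

theorem nm1_out (h : NM κ (Iio κ.ord) W) : ∃ φ : Set Ordinal.{0} → Ordinal.{0},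
    (∀ᶠ x in (W : Filter (Set Ordinal.{0})), φ x < κ.ord) ∧
      ∀ ξ, ¬ ∀ᶠ x in (W : Filter (Set Ordinal.{0})), φ x = ξ := by
  have h1 : ∀ x : Set Ordinal.{0}, ∃ ξ, #x < lc κ → ξ < κ.ord ∧ ξ ∉ x := fun x => by
    by_contra a
    push Not at a
    exact (a 0).1.not_ge ((mk_Iio_ord κ).symm.trans_le
      (mk_le_mk_of_subset fun ξ b => (a ξ).2 b))
  choose φ hφ using h1
  have h2 := h.pt.mono fun x a => hφ x a.2
  refine ⟨φ, h2.mono fun _ a => a.1, fun ξ k => ?_⟩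
  obtain ⟨x, a, b⟩ := (h2.and k).exists
  obtain ⟨y, c, d, e⟩ := (h2.and (k.and (h.fine ξ (b ▸ a.1)))).exists
  exact c.2 (d ▸ e)

/-- Regular: if `κ` is the supremum of fewer than `κ` smaller cardinals, `#x` is almost always
below one of them, but almost all `x` contain a given small set. Strong limit: if
`μ < κ ≤ 2 ^ μ`, pick `φ x < κ.ord` outside `x`, code it as a subset of `μ`; every bit is almost
constant, so `φ` is almost constant, against fineness. -/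
theorem Supercompact.inacc (h : Supercompact κ) : κ.IsInaccessible := by
  classical
  obtain ⟨W, hW⟩ := h.nm κ.ord
  obtain ⟨φ, h1, h2⟩ := nm1_out hW
  have hci := hW.ci
  refine ⟨h.1, le_of_not_gt fun k => ?_, fun μ k => lt_of_not_ge fun k' => ?_⟩
  · obtain ⟨s, a, b⟩ := Order.exists_cof_eq (Iio κ.ord)
    rw [cof_Iio, ← lift_cof] at b
    have h3 : ∀ x : Set Ordinal.{0}, ∃ β : Ordinal.{0},
        φ x < κ.ord → β ∈ Subtype.val '' s ∧ φ x ≤ β := fun x => by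
      by_cases c : φ x < κ.ord
      · obtain ⟨β, d, e⟩ := a ⟨_, c⟩
        exact ⟨β.1, fun _ => ⟨⟨β, d, rfl⟩, e⟩⟩
      · exact ⟨0, fun d => (c d).elim⟩
    choose ψ hψ using h3
    obtain ⟨_, ⟨β, -, rfl⟩, c⟩ := ae_const (U := W) (c := lc κ) (S := Subtype.val '' s) (φ := ψ)
      (mk_image_le.trans_lt (b.trans_lt (Cardinal.lift_lt.2 k))) (h1.mono fun x a => (hψ x a).1)
    obtain ⟨ξ, -, d⟩ := ae_const (U := W) (c := lc κ) (S := Iio (β.1 + 1)) (φ := φ)
      (mk_Iio_lt ((isSuccLimit_ord h.1.le).add_one_lt β.2))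
      ((h1.and c).mono fun x a => Order.lt_add_one_iff.2 (a.2 ▸ (hψ x a.1).2))
    exact h2 ξ d
  · obtain ⟨g⟩ : #(Iio κ.ord) ≤ #(Set (Iio μ.ord)) := by
      rw [mk_set, mk_Iio_ord, mk_Iio_ord, ← lift_two_power]
      exact Cardinal.lift_le.2 k'
    let G : Set Ordinal.{0} → Set (Iio μ.ord) := fun x =>
      if a : φ x < κ.ord then g ⟨_, a⟩ else ∅
    have h3 := (eventually_cardinal_forall (l := (W : Filter (Set Ordinal.{0}))) (c := lc κ)
      (ι := Iio μ.ord) ((mk_Iio_ord μ).trans_lt (Cardinal.lift_lt.2 k))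
      (p := fun x i => i ∈ G x ↔ ∀ᶠ y in (W : Filter (Set Ordinal.{0})), i ∈ G y)).2 fun i => by
        by_cases a : ∀ᶠ y in (W : Filter (Set Ordinal.{0})), i ∈ G y
        · exact a.mono fun x b => ⟨fun _ => a, fun _ => b⟩
        · exact (Ultrafilter.eventually_not.2 a).mono fun x b =>
            ⟨fun c => (b c).elim, fun c => (a c).elim⟩
    obtain ⟨x0, a, b⟩ := (h1.and h3).exists
    refine h2 (φ x0) ((h1.and h3).mono fun x c => ?_)
    have e : G x = G x0 := Set.ext fun i => (c.2 i).trans (b i).symm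
    simp only [G, dif_pos a, dif_pos c.1] at e
    exact congrArg Subtype.val (g.injective e)

theorem nm2_mem_of_lt {x : Set Ordinal.{0}} {ξ : Ordinal.{0}} (h : ξ < kx x) : ξ ∈ x :=
  not_not.1 (notMem_of_lt_csInf' (s := xᶜ) h)

theorem nm2_kx_le {x : Set Ordinal.{0}} {ξ : Ordinal.{0}} (h : ξ ∉ x) : kx x ≤ ξ :=
  csInf_le' (s := xᶜ) h

theorem nm2_exists_notMem {x : Set Ordinal.{0}} (h : #x < lc κ) : ∃ ξ < κ.ord, ξ ∉ x := by
  by_contra hc
  push Not at hc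
  exact h.not_ge ((mk_Iio_ord κ).symm.trans_le (mk_le_mk_of_subset fun ξ hξ => hc ξ hξ))

theorem NM.kx_spec (h : NM κ (Iio l) W) (hl : κ.ord ≤ l) :
    ∀ᶠ x in (W : Filter (Set Ordinal.{0})), kx x < κ.ord ∧ ∀ ξ < κ.ord, ξ ∈ x ↔ ξ < kx x := by
  have := h.ci
  have h1 := h.diag (fun x ξ => ξ < κ.ord → ∀ η ∈ Iio ξ, η ∈ x) fun ξ _ => by
    by_cases hξ : ξ < κ.ord
    · exact ((eventually_cardinal_ball (mk_Iio_lt hξ) (p := fun x η _ => η ∈ x)).2
        fun η hη => h.fine η ((lt_trans hη hξ).trans_le hl)).mono fun x hx _ => hx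
    · exact Eventually.of_forall fun x hx => (hξ hx).elim
  filter_upwards [h1, h.pt] with x hx hp
  obtain ⟨ζ, hζ, hζx⟩ := nm2_exists_notMem hp.2
  refine ⟨(nm2_kx_le hζx).trans_lt hζ, fun ξ hξ => ⟨fun hξx => ?_, nm2_mem_of_lt⟩⟩
  have hk : kx x ∉ x := csInf_mem (s := xᶜ) ⟨ζ, hζx⟩
  by_contra hc
  rcases (not_lt.1 hc).eq_or_lt with e | e
  · exact hk (e ▸ hξx)
  · exact hk (hx ξ hξx hξ _ e)

theorem NM.lt_kx (h : NM κ (Iio l) W) (hl : κ.ord ≤ l) {α : Ordinal.{0}} (hα : α < κ.ord) :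
    ∀ᶠ x in (W : Filter (Set Ordinal.{0})), α < kx x := by
  filter_upwards [h.kx_spec hl, h.fine α (hα.trans_le hl)] with x h1 h2
  exact (h1.2 α hα).1 h2

theorem NM.diag_kx (h : NM κ (Iio l) W) (hl : κ.ord ≤ l)
    (p : Set Ordinal.{0} → Ordinal.{0} → Prop)
    (hp : ∀ α < κ.ord, ∀ᶠ x in (W : Filter (Set Ordinal.{0})), p x α) :
    ∀ᶠ x in (W : Filter (Set Ordinal.{0})), ∀ α < kx x, p x α := by
  have h1 := h.diag (fun x ξ => ξ < κ.ord → p x ξ) fun ξ _ => by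
    by_cases hξ : ξ < κ.ord
    · exact (hp ξ hξ).mono fun x hx _ => hx
    · exact Eventually.of_forall fun x hx => (hξ hx).elim
  filter_upwards [h1, h.kx_spec hl] with x hx hs α hα
  exact hx α (nm2_mem_of_lt hα) (hα.trans hs.1)

theorem nm2_diag_card (h : NM κ (Iio l) W) (p : Set Ordinal.{0} → Set Ordinal.{0} → Prop)
    (hp : ∀ z, Pt κ l z → ∀ᶠ x in (W : Filter (Set Ordinal.{0})), p x z)
    {c : Cardinal.{0}} (hc : c < κ) :
    ∀ᶠ x in (W : Filter (Set Ordinal.{0})), ∀ z : Set Ordinal.{0}, z ⊆ x →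
      #z ≤ lc c → p x z := by
  have := h.ci
  have hc' : #(Iio c.ord) < lc κ := (mk_Iio_ord c).trans_lt (Cardinal.lift_lt.2 hc)
  have h0 := hp ∅ ⟨empty_subset _, (mk_le_mk_of_subset (empty_subset _)).trans_lt hc'⟩
  by_contra hn
  have h1 : ∀ᶠ x in (W : Filter (Set Ordinal.{0})), ∃ e : Ordinal.{0} → Ordinal.{0},
      (∀ ξ, e ξ ∈ x) ∧ ¬ p x (e '' Iio c.ord) := by
    filter_upwards [Ultrafilter.eventually_not.2 hn, h0] with x hx hx0
    push Not at hx
    obtain ⟨z, hz, hzc, hzp⟩ := hx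
    rcases z.eq_empty_or_nonempty with rfl | ⟨a, ha⟩
    · exact (hzp hx0).elim
    obtain ⟨e, e1, e2⟩ := exists_enum hzc a
    have e3 : ∀ ξ, e ξ ∈ z := fun ξ => (e1 ξ).elim id fun k => k ▸ ha
    have e4 : e '' Iio c.ord = z :=
      Subset.antisymm (by rintro _ ⟨ξ, -, rfl⟩; exact e3 ξ) fun y hy => e2 y hy
    exact ⟨e, fun ξ => hz (e3 ξ), e4 ▸ hzp⟩
  obtain ⟨e, he⟩ := h1.choice
  have h2 : ∀ ξ, ∃ η ∈ Iio l, ∀ᶠ x in (W : Filter (Set Ordinal.{0})), e x ξ = η := fun ξ =>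
    h.const (p := fun x η => e x ξ = η) (he.mono fun x hx => ⟨_, hx.1 ξ, rfl⟩)
  choose g g1 g2 using h2
  have h3 := (eventually_cardinal_ball hc' (p := fun x ξ _ => e x ξ = g ξ)).2 fun ξ _ => g2 ξ
  have h4 := hp (g '' Iio c.ord)
    ⟨by rintro _ ⟨ξ, -, rfl⟩; exact g1 ξ, mk_image_le.trans_lt hc'⟩
  obtain ⟨x, a1, a2, a3⟩ := (he.and (h3.and h4)).exists
  exact a1.2 ((image_congr a2).symm ▸ a3)

theorem nm2_diag_pt (h : NM κ (Iio l) W) (hl : κ.ord ≤ l)
    (p : Set Ordinal.{0} → Set Ordinal.{0} → Prop)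
    (hp : ∀ z, Pt κ l z → ∀ᶠ x in (W : Filter (Set Ordinal.{0})), p x z) :
    ∀ᶠ x in (W : Filter (Set Ordinal.{0})), ∀ z : Set Ordinal.{0}, z ⊆ x →
      #z < lc (kx x).card → p x z := by
  filter_upwards [h.diag_kx hl (fun x δ => ∀ z : Set Ordinal.{0}, z ⊆ x → #z ≤ lc δ.card → p x z)
    fun δ hδ => nm2_diag_card h p hp (lt_ord.1 hδ)] with x hx z hz hzc
  obtain ⟨c, hc, e⟩ := Cardinal.lt_lift_iff.1 hzc
  exact hx c.ord ((ord_lt_ord.2 hc).trans_le (ord_card_le _)) z hz (by rw [card_ord, ← e])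

/-- Each failure (not a cardinal, countable, singular, not strong limit, not closed under `fm`)
is witnessed by boundedly many ordinals below `kx x`, which are almost constant. -/
theorem NM.kx_stage (h : NM κ (Iio l) W) (hl : κ.ord ≤ l) (hκ : Stage κ.ord) :
    ∀ᶠ x in (W : Filter (Set Ordinal.{0})), Stage (kx x) := by
  obtain ⟨hi, -, hf⟩ := hκ
  rw [card_ord] at hi
  have h1 := h.diag_kx hl (fun x α => fm α < kx x) fun α hα => h.lt_kx hl (hf α hα)
  have h2 := h.diag_kx hl (fun x α => Cardinal.ord (2 ^ α.card) < kx x) fun α hα =>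
    h.lt_kx hl (ord_lt_ord.2 (hi.isStrongPrelimit (lt_ord.1 hα)))
  have h3 := h.lt_kx hl (ord_lt_ord.2 hi.aleph0_lt)
  have h4 := nm2_diag_pt h hl (fun x z => z ⊆ Iio κ.ord → sSup z + 1 < kx x) fun z hz => by
    by_cases hzk : z ⊆ Iio κ.ord
    · exact (h.lt_kx hl ((isSuccLimit_ord hi.aleph0_lt.le).succ_lt
        (sSup_lt_reg hi.isRegular hz.2 hzk))).mono fun x hx _ => hx
    · exact Eventually.of_forall fun x hx => (hzk hx).elim
  filter_upwards [h1, h2, h3, h4, h.kx_spec hl] with x a1 a2 a3 a4 a5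
  have e : (kx x).card.ord = kx x := by
    refine (ord_card_le _).eq_of_not_lt fun k => ?_
    have := card_le_card (a2 _ k).le
    rw [card_ord, card_ord] at this
    exact (cantor _).not_ge this
  refine ⟨⟨ord_lt_ord.1 (a3.trans_eq e.symm), ?_, fun c hc => ?_⟩, e, a1⟩
  · rw [e, ← Cardinal.lift_le.{1}, lift_cof, ← cof_Iio, Order.le_cof_iff]
    intro s hs
    by_contra hn
    have b1 : ∀ y ∈ Subtype.val '' s, y < kx x := by
      rintro _ ⟨y, -, rfl⟩
      exact y.2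
    have b2 := a4 (Subtype.val '' s) (fun y hy => nm2_mem_of_lt (b1 y hy))
      (mk_image_le.trans_lt (not_le.1 hn)) fun y hy => (b1 y hy).trans a5.1
    obtain ⟨y, hy, hy2⟩ := hs ⟨_, b2⟩
    exact (lt_add_one _).not_ge (le_trans hy2 (le_csSup ⟨kx x, fun t ht => (b1 t ht).le⟩
      (mem_image_of_mem Subtype.val hy)))
  · have := a2 c.ord ((ord_lt_ord.2 hc).trans_eq e)
    rw [card_ord] at this
    exact ord_lt_ord.1 (this.trans_eq e.symm)

/-- Diagonal intersection over small subsets: enumerate `z ⊆ x` of size below `kx x` by an ordinal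
`δ < kx x`; `δ` and then each of the `δ` values are almost constant. -/
theorem NM.diag_pt (h : NM κ (Iio l) W) (hl : κ.ord ≤ l)
    (p : Set Ordinal.{0} → Set Ordinal.{0} → Prop)
    (hp : ∀ z, Pt κ l z → ∀ᶠ x in (W : Filter (Set Ordinal.{0})), p x z) :
    ∀ᶠ x in (W : Filter (Set Ordinal.{0})), ∀ z : Set Ordinal.{0}, z ⊆ x →
      #z < lc (kx x).card → p x z :=
  nm2_diag_pt h hl p hp

/-- A complete nonprincipal ultrafilter on a large type: the image of a normal measure on the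
small subsets of `κ.ord` under `kx` followed by an injection. -/
theorem Supercompact.exists_ult (h : Supercompact κ) {I : Type 1} (hI : lc κ ≤ #I) :
    ∃ U : Ultrafilter I, CardinalInterFilter (U : Filter I) (lc κ) ∧
      ∀ i, ∀ᶠ j in (U : Filter I), j ≠ i := by
  classical
  obtain ⟨W, hW⟩ := h.nm κ.ord
  have := hW.ci
  obtain ⟨φ⟩ : #(Iio κ.ord) ≤ #I := (mk_Iio_ord κ).trans_le hI
  have h0 : 0 < κ.ord := by simpa using aleph0_pos.trans h.1
  let f : Set Ordinal.{0} → I := fun x => φ (if k : kx x < κ.ord then ⟨kx x, k⟩ else ⟨0, h0⟩)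
  refine ⟨W.map f, inferInstanceAs (CardinalInterFilter (Filter.map f W) (lc κ)), fun i => ?_⟩
  rw [Ultrafilter.coe_map, eventually_map]
  by_cases hi : ∃ a, φ a = i
  · obtain ⟨a, rfl⟩ := hi
    filter_upwards [hW.kx_spec le_rfl, hW.lt_kx le_rfl a.2] with x h1 h2 e
    have e2 := φ.injective e
    rw [dif_pos h1.1] at e2
    exact h2.ne' (congrArg Subtype.val e2)
  · exact Eventually.of_forall fun x e => hi ⟨_, e⟩

end Pool.Agent.SC7292

/-!
The function of Menas; the theorem of Solovay.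
-/

namespace Pool.Agent.SC7292

open Cardinal Ordinal Set Filter Function Pool.Agent.MP_7b2404_lc

variable {κ : Cardinal.{0}} {W : Ultrafilter (Set Ordinal.{0})} {l : Ordinal.{0}}

theorem men1_bind (h : Supercompact κ) {c : Cardinal.{0}} (hc : c < κ)
    (H : ∀ δ < κ.ord, ∃ W, NM c (Iio δ) W) (δ : Ordinal.{0}) : ∃ W, NM c (Iio δ) W := by
  obtain ⟨W, hW⟩ := h.nm δ
  have hU : ∀ x : Set Ordinal.{0}, ∃ U : Ultrafilter (Set Ordinal.{0}),
      #x < lc κ → NM c x U := by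
    intro x
    by_cases hx : #x < lc κ
    · obtain ⟨d, hd, e⟩ := Cardinal.lt_lift_iff.1 hx
      obtain ⟨U, hU⟩ := H d.ord (ord_lt_ord.2 hd)
      obtain ⟨U', hU'⟩ := hU.transfer (Y := x) (by rw [mk_Iio_ord]; exact e.ge)
      exact ⟨U', fun _ => hU'⟩
    · exact ⟨W, fun h' => (hx h').elim⟩
  choose U hU using hU
  have hg : ∀ᶠ x in (W : Filter (Set Ordinal.{0})), x ⊆ Iio δ ∧ NM c x (U x) :=
    hW.pt.mono fun x hx => ⟨hx.1, hU x hx.2⟩
  have hb : ∀ p : Set Ordinal.{0} → Prop,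
      (∀ᶠ z in ((W.bind U : Ultrafilter _) : Filter (Set Ordinal.{0})), p z) ↔
      ∀ᶠ x in (W : Filter (Set Ordinal.{0})), ∀ᶠ z in (U x : Filter (Set Ordinal.{0})), p z :=
    fun p => Iff.rfl
  have := hW.ci
  refine ⟨W.bind U, ⟨fun S hS hm => ?_⟩, ?_, fun ξ hξ => ?_, fun p hp => ?_⟩
  · have h1 : ∀ᶠ x in (W : Filter (Set Ordinal.{0})), ∀ s ∈ S,
        s ∈ (U x : Filter (Set Ordinal.{0})) :=
      (eventually_cardinal_ball (l := (W : Filter (Set Ordinal.{0})))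
        (hS.trans (Cardinal.lift_lt.2 hc))
        (p := fun x s _ => s ∈ (U x : Filter (Set Ordinal.{0})))).2 fun s hs => hm s hs
    have h2 : ∀ᶠ x in (W : Filter (Set Ordinal.{0})), ⋂₀ S ∈ (U x : Filter (Set Ordinal.{0})) := by
      filter_upwards [h1, hg] with x a b
      exact b.2.ci.cardinal_sInter_mem S hS a
    exact h2
  · rw [hb]
    filter_upwards [hg] with x b
    exact b.2.pt.mono fun z hz => ⟨hz.1.trans b.1, hz.2⟩
  · rw [hb]
    filter_upwards [hg, hW.fine ξ hξ] with x b a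
    exact b.2.fine ξ a
  · rw [hb]
    have := hW.diag (fun x ξ => ∀ᶠ z in (U x : Filter (Set Ordinal.{0})), p z ξ)
      fun ξ hξ => (hb _).1 (hp ξ hξ)
    filter_upwards [hg, this] with x b a
    exact b.2.diag p a

/-- If `γ` carries normal measures on all `δ < κ.ord`, it carries them on every `δ`: choose
`U x` on each small `x` (`NM.transfer`) and take `W.bind U`. Then the set in `fm` is empty and
`sInf = 0`; otherwise its infimum is below `κ.ord`. -/
theorem Supercompact.stage (h : Supercompact κ) : Stage κ.ord := by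
  refine ⟨by rw [card_ord]; exact h.inacc, by rw [card_ord], fun α hα => max_lt ?_ ?_⟩
  · exact (isSuccLimit_ord h.1.le).add_one_lt hα
  · by_cases H : ∀ δ < κ.ord, ∃ W, NM α.card (Iio δ) W
    · have : {δ | ¬ ∃ W, NM α.card (Iio δ) W} = ∅ :=
        eq_empty_of_forall_notMem fun δ hδ => hδ (men1_bind h (lt_ord.1 hα) H δ)
      rw [this, Ordinal.sInf_empty]
      exact zero_le.trans_lt hα
    · push Not at H
      obtain ⟨δ, h1, h2⟩ := H
      exact (csInf_le' (s := {δ | ¬ ∃ W, NM α.card (Iio δ) W}) (by simpa using h2)).trans_lt h1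

theorem men2_skolem {X T : Type 1} [Nonempty T] {W : Ultrafilter X} {Φ : X → T → Prop}
    (h : ∀ f : X → T, ∀ᶠ y in (W : Filter X), Φ y (f y)) :
    ∀ᶠ y in (W : Filter X), ∀ t, Φ y t := by
  classical
  filter_upwards [h fun y => if k : ∃ t, ¬ Φ y t then k.choose else Classical.arbitrary T] with y a
  by_contra k
  push Not at k
  rw [dif_pos k] at a
  exact k.choose_spec a

/-- The points below `y`. -/
def men2_P (l : Ordinal.{0}) (y : Set Ordinal.{0}) : Set (Set Ordinal.{0}) :=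
  {z | z ⊆ y ∩ Iio l ∧ #z < lc (kx y).card}

/-- The reflected measure. -/
def men2_m (l : Ordinal.{0}) (E : Ordinal.{0} → Set (Set Ordinal.{0}))
    (U : Ultrafilter (Set Ordinal.{0})) (y : Set Ordinal.{0}) (B : Set (Set Ordinal.{0})) : Prop :=
  ∃ ξ ∈ y, E ξ ∈ U ∧ E ξ ∩ men2_P l y ⊆ B

theorem men2_pt {θ : Ordinal.{0}} (h : Supercompact κ) (hl : κ.ord ≤ l) (hθ : l ≤ θ)
    (hW : NM κ (Iio θ) W) {z : Set Ordinal.{0}} (hz : Pt κ l z) :
    ∀ᶠ y in (W : Filter (Set Ordinal.{0})), z ∈ men2_P l y := by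
  have := hW.ci
  have h1 := (eventually_cardinal_ball (l := (W : Filter (Set Ordinal.{0}))) hz.2
    (p := fun y ξ _ => ξ ∈ y)).2 fun ξ hξ => hW.fine ξ ((hz.1 hξ).trans_le hθ)
  obtain ⟨d, hd, e⟩ := Cardinal.lt_lift_iff.1 hz.2
  filter_upwards [h1, hW.lt_kx (hl.trans hθ) (ord_lt_ord.2 hd),
    hW.kx_stage (hl.trans hθ) h.stage] with y a b c
  refine ⟨fun ξ hξ => ⟨a ξ hξ, hz.1 hξ⟩, ?_⟩
  rw [← e]
  refine Cardinal.lift_lt.2 (ord_lt_ord.1 ?_)
  rwa [c.2.1]

theorem men2_los {θ : Ordinal.{0}} {U : Ultrafilter (Set Ordinal.{0})}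
    {E : Ordinal.{0} → Set (Set Ordinal.{0})} (h : Supercompact κ) (hl : κ.ord ≤ l) (hθ : l ≤ θ)
    (hW : NM κ (Iio θ) W) (hU : NM κ (Iio l) U)
    (hE : ∀ A ⊆ {z | Pt κ l z}, ∃ ξ < θ, E ξ = A) (B : Set Ordinal.{0} → Set (Set Ordinal.{0})) :
    (∀ᶠ y in (W : Filter (Set Ordinal.{0})), men2_m l E U y (B y)) ↔
      ∀ᶠ z in (U : Filter (Set Ordinal.{0})), ∀ᶠ y in (W : Filter (Set Ordinal.{0})), z ∈ B y := by
  constructor
  · intro H
    obtain ⟨ξ, -, H⟩ := hW.const H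
    have h1 : E ξ ∈ (U : Filter (Set Ordinal.{0})) := H.exists.choose_spec.1
    filter_upwards [h1, hU.pt] with z a b
    filter_upwards [H, men2_pt h hl hθ hW b] with y c d
    exact c.2 ⟨a, d⟩
  · intro H
    obtain ⟨ξ, h1, h2⟩ := hE {z | Pt κ l z ∧ ∀ᶠ y in (W : Filter (Set Ordinal.{0})), z ∈ B y}
      fun z hz => hz.1
    have h3 : E ξ ∈ U := by
      rw [h2]
      exact hU.pt.and H
    have h4 := hW.diag_pt (hl.trans hθ) (fun y z => z ∈ E ξ → z ∈ B y) fun z _ => by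
      by_cases k : z ∈ E ξ
      · have k' := k
        rw [h2] at k'
        exact k'.2.mono fun y a _ => a
      · exact Eventually.of_forall fun y a => (k a).elim
    filter_upwards [h4, hW.fine ξ h1] with y a b
    exact ⟨ξ, b, h3, fun z hz => a z (hz.2.1.trans inter_subset_left) hz.2.2 hz.1⟩

theorem men2_build {c : Cardinal.{0}} {X : Set Ordinal.{0}}
    {m : Set (Set Ordinal.{0}) → Prop} (hc : ℵ₀ ≤ c) (mono : ∀ s t, m s → s ⊆ t → m t)
    (ha : ¬ m ∅) (hb : ∀ B, m B ∨ m Bᶜ)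
    (hc' : ∀ δ < c.ord, ∀ F : Ordinal.{0} → Set (Set Ordinal.{0}),
      (∀ η < δ, m (F η)) → m {z | ∀ η < δ, z ∈ F η})
    (he : m {z | z ⊆ X ∧ #z < lc c}) (hf : ∀ ξ ∈ X, m {z | ξ ∈ z})
    (hg : ∀ p : Set Ordinal.{0} → Ordinal.{0} → Prop, (∀ ξ ∈ X, m {z | p z ξ}) →
      m {z | ∀ ξ ∈ z, p z ξ}) : ∃ U, NM c X U := by
  have h2 : (2 : Cardinal.{1}) < lc c :=
    (natCast_lt_aleph0 (n := 2)).trans_le (aleph0_le_lift.2 hc)
  have hi : ∀ S : Set (Set (Set Ordinal.{0})), #S < lc c → S ⊆ {B | m B} → ⋂₀ S ∈ {B | m B} := by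
    intro S hS hm
    obtain ⟨d, hd, e⟩ := Cardinal.lt_lift_iff.1 hS
    obtain ⟨f, h3, h4⟩ := exists_enum (S := S) (κ := d) e.ge univ
    refine mono _ _ (hc' d.ord (ord_lt_ord.2 hd) f fun η _ => ?_) fun z hz B hB => ?_
    · rcases h3 η with k | k
      · exact hm k
      · exact mono _ _ he (by rw [k]; exact subset_univ _)
    · obtain ⟨ξ, a, rfl⟩ := h4 B hB
      exact hz ξ a
  let F := Filter.ofCardinalInter {B | m B} h2 hi mono
  have hF : ∀ s, sᶜ ∉ F ↔ s ∈ F := fun s => ⟨fun k => (hb s).resolve_right k, fun k k' => by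
    have := inter_mem k k'
    rw [inter_compl_self] at this
    exact ha this⟩
  exact ⟨Ultrafilter.ofComplNotMemIff F hF, ⟨hi⟩, he, hf, hg⟩

/-- Reflection of a normal measure `U` on `Iio l`. Let `θ ≥ l` enumerate by `E` all sets of
points (`exists_enum`), `W` normal on `Iio θ`. For `y` put `P y = {z ⊆ y ∩ Iio l, #z < kx y}` and
`m y B := ∃ ξ ∈ y, E ξ ∈ U ∧ E ξ ∩ P y ⊆ B`. For any family `B y`, the set
`A = {z | Pt κ l z ∧ ∀ᶠ y, z ∈ B y}` has `A ∩ P y = B y ∩ P y` almost always (`diag_pt`). Show by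
contradiction (choose failing data, make it constant with `const`, `diag`) that for almost all
`y`, `m y` is an ultrafilter with all properties of `NM (kx y).card (y ∩ Iio l)`. -/
theorem Supercompact.reflect (h : Supercompact κ) (hl : κ.ord ≤ l) :
    ∃ θ W, l ≤ θ ∧ NM κ (Iio θ) W ∧ ∀ᶠ y in (W : Filter (Set Ordinal.{0})),
      ∃ U, NM (kx y).card (y ∩ Iio l) U := by
  obtain ⟨U, hU⟩ := h.nm l
  have := small_pt κ l
  have hμ : #{A | A ⊆ {z | Pt κ l z}} ≤ lc (2 ^ #(Shrink.{0} {x // Pt κ l x})) := by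
    rw [lc, lift_two_power, lift_mk_shrink'']
    exact (mk_powerset _).le
  obtain ⟨E, -, hE⟩ := exists_enum hμ ∅
  set θ := max l (2 ^ #(Shrink.{0} {x // Pt κ l x}) : Cardinal.{0}).ord
  have hθ : l ≤ θ := le_max_left _ _
  obtain ⟨W, hW⟩ := h.nm θ
  have hE' : ∀ A ⊆ {z | Pt κ l z}, ∃ ξ < θ, E ξ = A := fun A hA =>
    (hE A hA).imp fun ξ a => ⟨a.1.trans_le (le_max_right _ _), a.2⟩
  have los := men2_los h hl hθ hW hU hE'
  have hl' := hl.trans hθ
  have := hW.ci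
  have := hU.ci
  have ha : ∀ᶠ y in (W : Filter (Set Ordinal.{0})), ¬ men2_m l E U y ∅ := by
    refine Ultrafilter.eventually_not.2 fun H => ?_
    obtain ⟨z, hz⟩ := ((los fun _ => ∅).1 H).exists
    exact hz.exists.choose_spec
  have hb : ∀ᶠ y in (W : Filter (Set Ordinal.{0})), ∀ B,
      men2_m l E U y B ∨ men2_m l E U y Bᶜ := by
    refine men2_skolem fun B => ?_
    by_cases k : ∀ᶠ z in (U : Filter (Set Ordinal.{0})),
        ∀ᶠ y in (W : Filter (Set Ordinal.{0})), z ∈ B y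
    · exact ((los B).2 k).mono fun y => Or.inl
    · refine ((los fun y => (B y)ᶜ).2 ?_).mono fun y => Or.inr
      exact (Ultrafilter.eventually_not.2 k).mono fun z a => Ultrafilter.eventually_not.2 a
  have hc : ∀ᶠ y in (W : Filter (Set Ordinal.{0})), ∀ δ < kx y,
      ∀ F : Ordinal.{0} → Set (Set Ordinal.{0}), (∀ η < δ, men2_m l E U y (F η)) →
        men2_m l E U y {z | ∀ η < δ, z ∈ F η} := by
    refine hW.diag_kx hl' _ fun δ hδ => men2_skolem fun F => ?_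
    by_cases k : ∀ᶠ y in (W : Filter (Set Ordinal.{0})), ∀ η < δ, men2_m l E U y (F y η)
    · refine ((los fun y => {z | ∀ η < δ, z ∈ F y η}).2 ?_).mono fun y a _ => a
      have h1 := (eventually_cardinal_ball (l := (U : Filter (Set Ordinal.{0}))) (mk_Iio_lt hδ)
        (p := fun z η _ => ∀ᶠ y in (W : Filter (Set Ordinal.{0})), z ∈ F y η)).2
        fun η hη => (los fun y => F y η).1 (k.mono fun y a => a η hη)
      filter_upwards [h1] with z a
      exact (eventually_cardinal_ball (l := (W : Filter (Set Ordinal.{0}))) (mk_Iio_lt hδ)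
        (p := fun y η _ => z ∈ F y η)).2 a
    · exact (Ultrafilter.eventually_not.2 k).mono fun y a b => (a b).elim
  have he : ∀ᶠ y in (W : Filter (Set Ordinal.{0})), men2_m l E U y (men2_P l y) :=
    (los _).2 (hU.pt.mono fun z a => men2_pt h hl hθ hW a)
  have hf : ∀ᶠ y in (W : Filter (Set Ordinal.{0})), ∀ ξ ∈ y, ξ < l →
      men2_m l E U y {z | ξ ∈ z} := by
    refine hW.diag (fun y ξ => ξ < l → men2_m l E U y {z | ξ ∈ z}) fun ξ _ => ?_
    by_cases k : ξ < l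
    · exact ((los fun _ => {z | ξ ∈ z}).2
        ((hU.fine ξ k).mono fun z a => Eventually.of_forall fun _ => a)).mono fun y a _ => a
    · exact Eventually.of_forall fun y a => (k a).elim
  have hg : ∀ᶠ y in (W : Filter (Set Ordinal.{0})),
      ∀ p : Set Ordinal.{0} → Ordinal.{0} → Prop,
        (∀ ξ ∈ y ∩ Iio l, men2_m l E U y {z | p z ξ}) →
          men2_m l E U y {z | ∀ ξ ∈ z, p z ξ} := by
    refine men2_skolem fun p => ?_
    by_cases k : ∀ᶠ y in (W : Filter (Set Ordinal.{0})),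
        ∀ ξ ∈ y ∩ Iio l, men2_m l E U y {z | p y z ξ}
    · refine ((los fun y => {z | ∀ ξ ∈ z, p y z ξ}).2 ?_).mono fun y a _ => a
      have h1 := hU.diag (fun z ξ => ∀ᶠ y in (W : Filter (Set Ordinal.{0})), p y z ξ)
        fun ξ hξ => (los fun y => {z | p y z ξ}).1 (by
          filter_upwards [k, hW.fine ξ (lt_of_lt_of_le hξ hθ)] with y a b
          exact a ξ ⟨b, hξ⟩)
      filter_upwards [h1, hU.pt] with z a b
      exact (eventually_cardinal_ball (l := (W : Filter (Set Ordinal.{0}))) b.2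
        (p := fun y ξ _ => p y z ξ)).2 a
    · exact (Ultrafilter.eventually_not.2 k).mono fun y a b => (a b).elim
  refine ⟨θ, W, hθ, hW, ?_⟩
  filter_upwards [ha, hb, hc, he, hf, hg, hW.kx_stage hl' h.stage] with y a b c e f g s
  exact men2_build (m := men2_m l E U y) s.1.aleph0_lt.le
    (fun s t ⟨ξ, a, b, c⟩ d => ⟨ξ, a, b, c.trans d⟩) a b (by rwa [s.2.1]) e
    (fun ξ hξ => f ξ hξ.1 hξ.2) g

/-- Supercompact cardinals that are not limits of supercompact cardinals. -/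
def Prep (κ : Cardinal.{0}) : Prop :=
  Supercompact κ ∧ ∃ c < κ, ∀ κ', c < κ' → κ' < κ → ¬ Supercompact κ'

/-- Project the measure of `reflect` to `Iio l`; almost all `kx y` are inaccessible and lie in
`(c, κ)`, so the set in `fm` is nonempty, and its infimum has more elements than `y ∩ Iio l` by
`NM.transfer`. -/
theorem Prep.menas (h : Prep κ) (hl : κ.ord ≤ l) : ∃ W, NM κ (Iio l) W ∧
    ∀ᶠ x : Set Ordinal.{0} in (W : Filter (Set Ordinal.{0})), #x < lc (fm (kx x)).card := by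
  obtain ⟨h0, c, hc, hn⟩ := h
  obtain ⟨θ, W, hθ, hW, H⟩ := h0.reflect hl
  have hl' := hl.trans hθ
  refine ⟨_, hW.proj (Iio_subset_Iio hθ), ?_⟩
  rw [Ultrafilter.coe_map, eventually_map]
  filter_upwards [H, hW.kx_spec hl', hW.lt_kx hl' (ord_lt_ord.2 hc), hW.kx_stage hl' h0.stage]
    with y ⟨U, hU⟩ a b s
  have e : kx (y ∩ Iio l) = kx y := by
    have h1 : kx y ∈ (y ∩ Iio l)ᶜ := fun k => lt_irrefl _ ((a.2 _ a.1).1 k.1)
    refine le_antisymm (csInf_le' h1) (le_csInf ⟨_, h1⟩ fun ξ hξ => not_lt.1 fun k => hξ ?_)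
    exact ⟨(a.2 _ (k.trans a.1)).2 k, (k.trans a.1).trans_le hl⟩
  rw [e]
  have h1 := hn (kx y).card (ord_lt_ord.1 (by rwa [s.2.1])) (lt_ord.1 a.1)
  rw [supercompact_iff, not_and, not_forall] at h1
  have h2 : ¬ ∃ W, NM (kx y).card (Iio (sInf {δ | ¬ ∃ W, NM (kx y).card (Iio δ) W})) W :=
    csInf_mem (s := {δ | ¬ ∃ W, NM (kx y).card (Iio δ) W}) (h1 s.1.aleph0_lt)
  have h3 := not_le.1 fun k => h2 (hU.transfer k)
  rw [mk_Iio] at h3
  exact h3.trans_le (Cardinal.lift_le.2 (card_le_card (le_max_right _ _)))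

theorem men3_rec (n : Ordinal.{0} → Ordinal.{0}) :
    ∃ s : Ordinal.{0} → Ordinal.{0}, ∀ ξ, s ξ = sSup ((fun η => n (s η)) '' Iio ξ) := by
  refine ⟨WellFoundedLT.fix fun ξ ih => ⨆ η : Iio ξ, n (ih η η.2), fun ξ => ?_⟩
  rw [WellFoundedLT.fix_eq, sSup_image']

/-- A colouring of the ordinals below `μ.ord` in which each colour contains an interval
`[β, n β)`. -/
theorem men3_colour {μ : Cardinal.{0}} (hμ : μ.IsRegular) (n : Ordinal.{0} → Ordinal.{0})
    (hn : ∀ β < μ.ord, n β < μ.ord) : ∃ c : Ordinal.{0} → Ordinal.{0},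
      ∀ ξ < μ.ord, ∃ β < μ.ord, ∀ a, β ≤ a → a < n β → c a = ξ := by
  classical
  obtain ⟨s, hs⟩ := men3_rec n
  have h1 : ∀ ξ, ξ < μ.ord → s ξ < μ.ord := by
    intro ξ
    induction ξ using WellFoundedLT.induction with
    | ind ξ ih =>
      intro hξ
      rw [hs]
      refine sSup_lt_reg hμ (mk_image_le.trans_lt (mk_Iio_lt hξ)) ?_
      rintro _ ⟨η, hη, rfl⟩
      exact hn _ (ih η hη (lt_trans hη hξ))
  have h2 : ∀ η ξ, η < ξ → n (s η) ≤ s ξ := fun η ξ h => by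
    rw [hs ξ]
    exact le_csSup Ordinal.bddAbove_of_small ⟨η, h, rfl⟩
  refine ⟨fun a => if k : ∃ ξ, s ξ ≤ a ∧ a < n (s ξ) then k.choose else 0,
    fun ξ hξ => ⟨s ξ, h1 ξ hξ, fun a a1 a2 => ?_⟩⟩
  have k : ∃ ξ, s ξ ≤ a ∧ a < n (s ξ) := ⟨ξ, a1, a2⟩
  simp only [dif_pos k]
  obtain ⟨b1, b2⟩ := k.choose_spec
  rcases lt_trichotomy k.choose ξ with h | h | h
  · exact absurd (b2.trans_le ((h2 _ _ h).trans a1)) (lt_irrefl _)
  · exact h
  · exact absurd (a2.trans_le ((h2 _ _ h).trans b1)) (lt_irrefl _)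

/-- A cofinal family of `μ` small sets. -/
theorem men3_cover (h : Supercompact κ) {μ : Cardinal.{0}} (hμ : μ.IsRegular) (h1 : κ ≤ μ) :
    ∃ M : Ordinal.{0} → Set Ordinal.{0}, (∀ α, #(M α) < lc κ) ∧
      ∀ z, Pt κ μ.ord z → ∃ α < μ.ord, z ⊆ M α := by
  classical
  obtain ⟨W, hW⟩ := h.nm μ.ord
  have hlim : Order.IsSuccLimit μ.ord := isSuccLimit_ord hμ.aleph0_le
  let G : Set Ordinal.{0} → Prop := fun x =>
    (x ⊆ Iio μ.ord ∧ #x < lc κ) ∧ ∀ ξ ∈ x, ξ + 1 ∈ x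
  have hG : ∀ᶠ x in (W : Filter (Set Ordinal.{0})), G x :=
    hW.pt.and (hW.diag (fun x ξ => ξ + 1 ∈ x) fun ξ hξ => hW.fine _ (hlim.add_one_lt hξ))
  let A : Ordinal.{0} → Set Ordinal.{0} := fun α =>
    if k : ∃ x, G x ∧ sSup x = α then k.choose else ∅
  have hA : ∀ x, G x → G (A (sSup x)) ∧ sSup (A (sSup x)) = sSup x := fun x hx => by
    have k : ∃ y, G y ∧ sSup y = sSup x := ⟨x, hx, rfl⟩
    simp only [A, dif_pos k]
    exact k.choose_spec
  have hA' : ∀ α, #(A α) < lc κ := fun α => by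
    by_cases k : ∃ x, G x ∧ sSup x = α
    · simp only [A, dif_pos k]
      exact k.choose_spec.1.1.2
    · simp only [A, dif_neg k, mk_eq_zero]
      exact aleph0_pos.trans_le (aleph0_le_lift.2 h.1.le)
  have hb : ∀ x, G x → BddAbove x := fun x hx => ⟨μ.ord, fun a ha => (hx.1.1 ha).le⟩
  have hn : ∀ β, ∃ γ, β < μ.ord → γ < μ.ord ∧ ∀ᶠ x in (W : Filter (Set Ordinal.{0})),
      ∃ a ∈ A (sSup x), β ≤ a ∧ a < γ := fun β => by
    by_cases hβ : β < μ.ord
    · obtain ⟨γ, g1, g2⟩ := hW.const (p := fun x γ => ∃ a ∈ A (sSup x), β ≤ a ∧ a < γ) (by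
        filter_upwards [hG, hW.fine β hβ] with x hx hβx
        obtain ⟨a1, a2⟩ := hA x hx
        have b1 : β < sSup (A (sSup x)) := by
          rw [a2]
          exact (lt_add_one β).trans_le (le_csSup (hb x hx) (hx.2 β hβx))
        obtain ⟨a, ha, b2⟩ := (lt_csSup_iff' (hb _ a1)).1 b1
        have b3 : a < sSup x := by
          rw [← a2]
          exact (lt_add_one a).trans_le (le_csSup (hb _ a1) (a1.2 a ha))
        obtain ⟨ξ, hξ, b4⟩ := (lt_csSup_iff' (hb _ hx)).1 b3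
        exact ⟨ξ, hξ, a, ha, b2.le, b4⟩)
      exact ⟨γ, fun _ => ⟨g1, g2⟩⟩
    · exact ⟨0, fun k => (hβ k).elim⟩
  choose n hn using hn
  obtain ⟨c, hc⟩ := men3_colour hμ n fun β hβ => (hn β hβ).1
  refine ⟨fun α => c '' A α, fun α => mk_image_le.trans_lt (hA' α), fun z hz => ?_⟩
  have := hW.ci
  have h2 := (eventually_cardinal_ball (l := (W : Filter (Set Ordinal.{0}))) hz.2
    (p := fun x ξ _ => ξ ∈ c '' A (sSup x))).2 fun ξ hξ => by
      obtain ⟨β, b1, b2⟩ := hc ξ (hz.1 hξ)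
      filter_upwards [(hn β b1).2] with x hx
      obtain ⟨a, a1, a2, a3⟩ := hx
      exact ⟨a, a1, b2 a a2 a3⟩
  obtain ⟨x, x1, x2⟩ := (hG.and h2).exists
  exact ⟨sSup x, sSup_lt_reg hμ (x1.1.2.trans_le (Cardinal.lift_le.2 h1)) x1.1.1,
    fun ξ hξ => x2 ξ hξ⟩

/-- Solovay. For `W` normal on `Iio μ.ord` and each `α < μ.ord` of the form `sSup x` fix `A α`
cofinal in `α` of size `< κ`. A function `g x < sSup x` is almost bounded below `μ.ord`
(normality), so there are intervals `I ξ` (`ξ < μ.ord`), pairwise disjoint, each met by almost all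
`A (sSup x)`. The sets `M α = {ξ | A α meets I ξ}` are small and every small subset of `μ.ord`
lies in one of them. -/
theorem Supercompact.solovay (h : Supercompact κ) {μ ν : Cardinal.{0}} (hμ : μ.IsRegular)
    (h1 : κ ≤ μ) (h2 : ν < κ) : μ ^ ν ≤ μ := by
  obtain ⟨M, hM, hc⟩ := men3_cover h hμ h1
  have hν : #(Iio ν.ord) < lc κ := by
    rw [mk_Iio_ord]
    exact Cardinal.lift_lt.2 h2
  let F : Iio μ.ord → Set (Iio ν.ord → Iio μ.ord) := fun α => {f | ∀ t, (f t).1 ∈ M α}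
  have hF : ∀ α, #(F α) ≤ lc μ := fun α => by
    have e : #(F α) ≤ #(Iio ν.ord → M α) :=
      mk_le_of_injective (f := fun f t => ⟨(f.1 t).1, f.2 t⟩) fun f g e =>
        Subtype.ext (funext fun t => Subtype.ext
          (congrArg (fun u : M α => (u : Ordinal.{0})) (congrFun e t)))
    refine e.trans ?_
    rw [← Cardinal.power_def]
    exact (pow_lt_lc h.inacc.isStrongLimit (hM α) hν).le.trans (Cardinal.lift_le.2 h1)
  have hU : (⋃ α, F α) = Set.univ := by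
    refine eq_univ_of_forall fun f => ?_
    obtain ⟨α, a1, a2⟩ := hc (range fun t => (f t).1)
      ⟨by rintro _ ⟨t, rfl⟩; exact (f t).2, mk_range_le.trans_lt hν⟩
    exact mem_iUnion.2 ⟨⟨α, a1⟩, fun t => a2 ⟨t, rfl⟩⟩
  have key : #(Iio ν.ord → Iio μ.ord) ≤ lc μ := by
    rw [← mk_univ, ← hU]
    refine mk_iUnion_le_sum_mk.trans ((sum_le_sum _ (fun _ => lc μ) hF).trans ?_)
    rw [sum_const', mk_Iio_ord, mul_eq_self (aleph0_le_lift.2 hμ.aleph0_le)]
  rw [← Cardinal.power_def, mk_Iio_ord, mk_Iio_ord, ← Cardinal.lift_power] at key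
  exact Cardinal.lift_le.1 key

/-- Take `lam = ℶ_(a.ord + κ.ord)` (or any strong limit above `a` of cofinality `κ`); small
subsets are bounded, and `2 ^ lam ≤ lam ^ κ ≤ (succ lam) ^ κ ≤ succ lam` by `solovay`. -/
theorem exists_lam {κ' a : Cardinal.{0}} (hκ : κ.IsRegular) (h : Supercompact κ') (h1 : κ < κ')
    (h2 : κ' ≤ a) : ∃ lam : Cardinal.{0}, a < lam ∧ lam.IsStrongLimit ∧
      (∀ χ : Cardinal.{0}, χ.IsInaccessible → a < χ → lam < χ) ∧
      #{x | Pt κ lam.ord x} ≤ lc lam ∧ 2 ^ lam ≤ Order.succ lam := by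
  have hlim : Order.IsSuccLimit κ.ord := isSuccLimit_ord hκ.aleph0_le
  have hlim' : Order.IsSuccLimit (a.ord + κ.ord) := isSuccLimit_add _ hlim
  have hs : (ℶ_ (a.ord + κ.ord)).IsStrongLimit := isStrongLimit_beth.2 hlim'.isSuccPrelimit
  have hlt : ∀ ξ < κ.ord, ℶ_ (a.ord + ξ) < ℶ_ (a.ord + κ.ord) := fun ξ hξ =>
    beth_lt_beth.2 (add_lt_add_right hξ _)
  have ha : a < ℶ_ (a.ord + κ.ord) :=
    (le_beth_ord a).trans_lt (by simpa using hlt 0 hlim.pos)
  have hb : ∀ c < ℶ_ (a.ord + κ.ord), ∃ ξ < κ.ord, c < ℶ_ (a.ord + ξ) := by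
    intro c hc
    obtain ⟨o, h3, h4⟩ := (isNormal_beth.lt_iff_exists_lt hlim').1 hc
    obtain ⟨ξ, h5, h6⟩ := (lt_add_iff_of_isSuccLimit hlim).1 h3
    exact ⟨ξ, h5, h4.trans (beth_lt_beth.2 h6)⟩
  have hκa : κ < ℶ_ (a.ord + κ.ord) := (h1.trans_le h2).trans ha
  refine ⟨_, ha, hs, fun χ hχ h3 => ?_, ?_, ?_⟩
  · rw [← hχ.beth_ord]
    exact beth_lt_beth.2 (isPrincipal_add_ord hχ.aleph0_lt.le (ord_lt_ord.2 h3)
      (ord_lt_ord.2 ((h1.trans_le h2).trans h3)))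
  · have h3 : {x | Pt κ (ℶ_ (a.ord + κ.ord)).ord x} ⊆
        ⋃ ξ : Iio κ.ord, {x | x ⊆ Iio (ℶ_ (a.ord + ξ)).ord} := by
      intro x hx
      have h4 : ∀ η : x, ∃ ξ < κ.ord, η.1.card < ℶ_ (a.ord + ξ) := fun η =>
        hb _ (lt_ord.1 (hx.1 η.2))
      choose f h5 h6 using h4
      have h7 : #(range f) < lc κ := mk_range_le.trans_lt hx.2
      have h8 := sSup_lt_reg hκ h7 (range_subset_iff.2 h5)
      refine mem_iUnion.2 ⟨⟨_, h8⟩, fun η hη => lt_ord.2 ((h6 ⟨η, hη⟩).trans_le ?_)⟩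
      have h9 : f ⟨η, hη⟩ ≤ sSup (range f) :=
        le_csSup ⟨κ.ord, by rintro _ ⟨η, rfl⟩; exact (h5 η).le⟩ (mem_range_self _)
      exact beth_le_beth.2 (add_le_add_right h9 _)
    refine (mk_le_mk_of_subset h3).trans (mk_iUnion_le_sum_mk.trans ?_)
    refine (sum_le_sum _ (fun _ => lc (ℶ_ (a.ord + κ.ord))) fun ξ =>
      (mk_subsets hs (mk_Iio_lt (ord_lt_ord.2 (hlt _ ξ.2)))).le).trans ?_
    rw [sum_const', mk_Iio_ord]
    exact (mul_eq_right (aleph0_le_lift.2 hs.aleph0_le) (Cardinal.lift_le.2 hκa.le)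
      (by simpa using hκ.pos.ne')).le
  · have h3 : ℶ_ (a.ord + κ.ord) ≤
        sum fun i : κ.ord.ToType => ℶ_ (a.ord + (ToType.mk.symm i).1) := by
      refine le_of_forall_lt fun c hc => ?_
      obtain ⟨ξ, h4, h5⟩ := hb c hc
      refine h5.trans_le (le_trans ?_ (le_sum _ (ToType.mk ⟨ξ, h4⟩)))
      simp
    calc 2 ^ ℶ_ (a.ord + κ.ord) ≤ _ := power_le_power_left two_ne_zero h3
      _ = prod fun i : κ.ord.ToType => 2 ^ ℶ_ (a.ord + (ToType.mk.symm i).1) := power_sum _ _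
      _ ≤ prod fun _ : κ.ord.ToType => Order.succ (ℶ_ (a.ord + κ.ord)) :=
        prod_le_prod _ _ fun i =>
          (hs.isStrongPrelimit (hlt _ (ToType.mk.symm i).2)).le.trans (Order.le_succ _)
      _ = Order.succ (ℶ_ (a.ord + κ.ord)) ^ κ := by rw [prod_const', mk_ord_toType]
      _ ≤ _ := h.solovay (isRegular_succ hs.aleph0_le)
        (h2.trans (ha.le.trans (Order.le_succ _))) h1

end Pool.Agent.SC7292
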