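import Pool.Agent.SC7292.Tree

/-!
Projections of states along embeddings of shapes; lifting and amalgamation; counting.
-/

namespace Pool.Agent.SC7292

open Cardinal Ordinal Set Filter Function Pool.Agent.MP_7b2404_lc

variable {C C' C'' : Type} [LinearOrder C] [LinearOrder C'] [LinearOrder C'']

/-- Image of a cell. -/
def cmap (j : C ↪o C') (a : Cell C) : Cell C' := (j a.1, a.2.1.map (Prod.map j id), a.2.2)

/-- Image of an atom. -/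
def amap (j : C ↪o C') (a : Atom C) : Atom C' := (cmap j a.1, a.2)

/-- Image of a tagged atom. -/
def tmap (j : C ↪o C') (a : LA C) : LA C' := (a.1, amap j a.2)

/-- Projection of a label. -/
def lpre (j : C ↪o C') (g : Lb C') : Lb C := (g.1, tmap j ⁻¹' g.2)

/-- Projection of a history. -/
def hmap (j : C ↪o C') (h : Hist C') : Hist C :=
  ⟨fun c => h.len (j c), fun c => h.st (j c), fun m => h.inp (j m.1, m.2),
    fun m => h.pt (j m.1, m.2)⟩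

/-- Projection of a state. -/
def proj (j : C ↪o C') (σ : State C') : State C := (hmap j σ.1, lpre j σ.2)

theorem nd_inj (j : C ↪o C') : Injective (Prod.map j (id : ℕ → ℕ)) :=
  j.injective.prodMap injective_id

theorem cmap_inj (j : C ↪o C') : Injective (cmap j) := fun a b e => by
  simp only [cmap, Prod.mk.injEq] at e
  exact Prod.ext (j.injective e.1) (Prod.ext ((nd_inj j).list_map e.2.1) e.2.2)

theorem amap_inj (j : C ↪o C') : Injective (amap j) := fun a b e => by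
  simp only [amap, Prod.mk.injEq] at e
  exact Prod.ext (cmap_inj j e.1) e.2

theorem tmap_inj (j : C ↪o C') : Injective (tmap j) := fun a b e => by
  simp only [tmap, Prod.mk.injEq] at e
  exact Prod.ext e.1 (amap_inj j e.2)

theorem lpre_mono (j : C ↪o C') : Monotone (lpre j) := fun _ _ h => ⟨h.1, preimage_mono h.2⟩

theorem lpre_comp (j : C ↪o C') (i : C' ↪o C'') (g : Lb C'') :
    lpre (j.trans i) g = lpre j (lpre i g) := by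
  refine Prod.ext rfl (Set.ext fun a => ?_)
  simp only [lpre, tmap, amap, cmap, mem_preimage, List.map_map]
  rfl

theorem proj_comp (j : C ↪o C') (i : C' ↪o C'') (σ : State C'') :
    proj (j.trans i) σ = proj j (proj i σ) := Prod.ext rfl (lpre_comp j i _)

theorem lpre_refl (g : Lb C) : lpre (RelEmbedding.refl _) g = g := by
  refine Prod.ext rfl (Set.ext fun a => ?_)
  simp [lpre, tmap, amap, cmap]

theorem proj_refl (σ : State C) : proj (RelEmbedding.refl _) σ = σ := Prod.ext rfl (lpre_refl _)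

theorem HExt.hmap (j : C ↪o C') {h h' : Hist C'} (k : HExt h h') : HExt (hmap j h) (hmap j h') :=
  ⟨fun c => k.1 (j c), fun m hm => k.2 (j m.1, m.2) hm⟩

theorem hmap_in (j : C ↪o C') (h : Hist C') (c : C) (a : Ordinal.{0}) (z : Set Ordinal.{0}) :
    hmap j (h.step (j c) a z) = (hmap j h).step c a z := by
  refine Hist.ext ?_ ?_ ?_ ?_
  exacts [update_comp_eq_of_injective _ j.injective _ _,
    update_comp_eq_of_injective _ j.injective _ _,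
    update_comp_eq_of_injective _ (nd_inj j) (c, h.len (j c)) _,
    update_comp_eq_of_injective _ (nd_inj j) (c, h.len (j c)) _]

theorem hmap_out (j : C ↪o C') (h : Hist C') {c : C'} (hc : ∀ d, j d ≠ c) (a : Ordinal.{0})
    (z : Set Ordinal.{0}) : hmap j (h.step c a z) = hmap j h := by
  refine Hist.ext ?_ ?_ ?_ ?_ <;> funext m <;> simp [hmap, Hist.step, hc]

theorem Mover.proj (j : C ↪o C') {f : C' → ℕ} {c : C} (h : Mover f (j c)) :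
    Mover (fun c => f (j c)) c := fun c' => ⟨(h _).1, fun e => j.le_iff_le.1 ((h _).2 e)⟩

theorem ev_cmap (j : C ↪o C') (n : C × ℕ) (y : Set Ordinal.{0}) (a : Cell C) :
    ev (j n.1, n.2) y (cmap j a) = cmap j (ev n y a) := by
  obtain ⟨c, _ | ⟨m, L⟩, _ | φ⟩ := a <;> simp only [ev, cmap, List.map]
  by_cases e : m = n
  · simp [e, Prod.map]
  · rw [if_neg e, if_neg fun k : Prod.map j id m = (j n.1, n.2) => e (nd_inj j k)]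
    rfl

theorem ev_range (j : C ↪o C') (n : C × ℕ) (y : Set Ordinal.{0}) {a : Cell C} {b : Cell C'}
    (h : ev (j n.1, n.2) y b = cmap j a) : ∃ b', b = cmap j b' := by
  obtain ⟨c, _ | ⟨m, L⟩, _ | φ⟩ := b <;> simp only [ev] at h
  exacts [⟨a, h⟩, ⟨a, h⟩, ⟨a, h⟩, by
    split_ifs at h with e
    · simp only [cmap, Prod.mk.injEq] at h
      exact ⟨(a.1, n :: a.2.1, .node φ), by simp [cmap, h.1, h.2.1, e, Prod.map]⟩
    · exact ⟨a, h⟩]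

theorem cmap_common {C0 C1 C2 : Type} [LinearOrder C0] [LinearOrder C1] [LinearOrder C2]
    {p1 : C1 ↪o C} {p2 : C2 ↪o C} {q1 : C0 ↪o C1} {q2 : C0 ↪o C2}
    (h : ∀ c1 c2, p1 c1 = p2 c2 → ∃ c0, q1 c0 = c1 ∧ q2 c0 = c2) {a : Cell C1} {b : Cell C2}
    (e : cmap p1 a = cmap p2 b) : ∃ z, cmap q1 z = a ∧ cmap q2 z = b := by
  obtain ⟨c, L, t⟩ := a
  obtain ⟨c', L', t'⟩ := b
  simp only [cmap, Prod.mk.injEq] at e
  obtain ⟨e1, e2, rfl⟩ := e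
  obtain ⟨c0, rfl, rfl⟩ := h _ _ e1
  have : ∃ L0 : List (C0 × ℕ), L0.map (Prod.map q1 id) = L ∧ L0.map (Prod.map q2 id) = L' := by
    induction L generalizing L' with
    | nil => exact ⟨[], rfl, (List.map_eq_nil_iff.1 e2.symm).symm⟩
    | cons m L ih =>
      obtain _ | ⟨m', L'⟩ := L'
      · simp at e2
      simp only [List.map_cons, List.cons.injEq, Prod.map, Prod.mk.injEq, id] at e2
      obtain ⟨L0, rfl, rfl⟩ := ih _ e2.2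
      obtain ⟨d, a1, a2⟩ := h _ _ e2.1.1
      exact ⟨(d, m.2) :: L0, by simp [a1], by simp [a2, e2.1.2]⟩
  obtain ⟨L0, rfl, rfl⟩ := this
  exact ⟨(c0, L0, t), rfl, rfl⟩

namespace Par

variable {P : Par} {ty : C → Ty} {ty' : C' → Ty} {j : C ↪o C'}

theorem cellOK_cmap (hj : ∀ c, ty' (j c) = ty c) {f : C' → ℕ} {a : Cell C} :
    P.CellOK ty' f (cmap j a) ↔ P.CellOK ty (fun c => f (j c)) a := by
  simp only [CellOK, cmap, hj, List.pairwise_map, List.forall_mem_map, List.map_map, comp_def,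
    Prod.map_fst, Prod.map_snd, NdLt, id, j.lt_iff_lt]
  rfl

theorem Q_lpre (hj : ∀ c, ty' (j c) = ty c) {f : C' → ℕ} {d : Ordinal.{0}} {g : Lb C'}
    (h : g ∈ P.QL ty' f d) : lpre j g ∈ P.QL ty (fun c => f (j c)) d :=
  ⟨h.1, fun a ha => ⟨(h.2.1 _ ha).1, (cellOK_cmap hj).1 (h.2.1 _ ha).2.1, (h.2.1 _ ha).2.2⟩,
    fun a ha b hb e => h.2.2.1 _ ha _ hb (congrArg (cmap j) e),
    (mk_preimage_of_injective _ _ (tmap_inj j)).trans h.2.2.2⟩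

theorem Q_tmap (hj : ∀ c, ty' (j c) = ty c) {f : C' → ℕ} {d : Ordinal.{0}} {g : Lb C}
    (h : g ∈ P.QL ty (fun c => f (j c)) d) : (g.1, tmap j '' g.2) ∈ P.QL ty' f d := by
  refine ⟨h.1, ?_, ?_, mk_image_le.trans h.2.2.2⟩
  · rintro _ ⟨a, ha, rfl⟩
    exact ⟨(h.2.1 _ ha).1, (cellOK_cmap hj).2 (h.2.1 _ ha).2.1, (h.2.1 _ ha).2.2⟩
  · rintro _ ⟨a, ha, rfl⟩ _ ⟨b, hb, rfl⟩ e
    exact h.2.2.1 a ha b hb (cmap_inj j e)

theorem Q_lift (hj : ∀ c, ty' (j c) = ty c) {f : C' → ℕ} {d : Ordinal.{0}} {g : Lb C'}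
    (hg : g ∈ P.QL ty' f d) {k : Lb C} (hk : k ∈ P.QL ty (fun c => f (j c)) d) (e : lpre j g ≤ k) :
    (k.1, g.2 ∪ tmap j '' k.2) ∈ P.QL ty' f d := by
  refine QL_union (QL_up' hg hk.1 e.1) (Q_tmap hj hk) ?_
  rintro a ha _ ⟨b, hb, rfl⟩ e'
  exact hk.2.2.1 (a.1, b.2.1, a.2.2) (e.2 (show (a.1, cmap j b.2.1, a.2.2) ∈ g.2 from
    (show a.2.1 = cmap j b.2.1 from e') ▸ ha)) b hb rfl

theorem prj_lpre (hj : ∀ c, ty' (j c) = ty c) (f : C' → ℕ) (d : Ordinal.{0}) :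
    Prj (P.QL ty' f d) (P.QL ty (fun c => f (j c)) d) (lpre j) :=
  ⟨lpre_mono j, fun _ => Q_lpre hj, fun _ a _ b c => ⟨_, Q_lift hj a b c,
    ⟨c.1, subset_union_left⟩, subset_rfl, fun x hx => Or.inr ⟨x, hx, rfl⟩⟩⟩

theorem Val.proj (hj : ∀ c, ty' (j c) = ty c) {σ : State C'} (h : P.Val ty' σ) :
    P.Val ty (proj j σ) :=
  ⟨⟨fun c => h.1.1 _, fun m => hj m.1 ▸ h.1.2 (j m.1, m.2)⟩, Q_lpre hj h.2⟩

theorem fill_amap (j : C ↪o C') (c : C) (n : ℕ) (x : Set Ordinal.{0}) (a : Atom C) :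
    P.fill (j c) n x (amap j a) = amap j (P.fill c n x a) := by
  have : (amap j a).1 = (j c, [], .leaf (amap j a).1.2.2.col) ↔ a.1 = (c, [], .leaf a.1.2.2.col) :=
    (cmap_inj j).eq_iff (b := (c, [], .leaf a.1.2.2.col))
  unfold fill
  split_ifs with h1 h2 h2
  exacts [rfl, (h2 ⟨this.1 h1.1, h1.2⟩).elim, (h1 ⟨this.2 h2.1, h2.2⟩).elim, rfl]

theorem proj1_lmap {F' : Atom C' → Atom C'} {F : Atom C → Atom C}
    (h1 : ∀ a, F' (amap j a) = amap j (F a)) (h2 : ∀ b a, F' b = amap j a → ∃ b', b = amap j b')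
    (g : Lb C') : lpre j (lmap F' g) = lmap F (lpre j g) := by
  refine Prod.ext rfl (Set.ext fun b => ⟨fun ⟨k, a1, a2⟩ => ?_, ?_⟩)
  · obtain ⟨b', e⟩ := h2 k.2 b.2 (congrArg Prod.snd a2)
    refine ⟨(k.1, b'), show (k.1, amap j b') ∈ g.2 from e ▸ a1,
      Prod.ext (congrArg Prod.fst a2 :) (amap_inj j ((h1 b').symm.trans ?_))⟩
    exact e ▸ (congrArg Prod.snd a2 :)
  · rintro ⟨k, a1, rfl⟩
    exact ⟨_, a1, Prod.ext rfl (h1 k.2)⟩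

/-- Port. -/
theorem proj_mv (hj : ∀ c, ty' (j c) = ty c) (h : Hist C') (c : C) (a : Ordinal.{0})
    (x : Set Ordinal.{0}) (g : Lb C') :
    proj j (P.mv ty' h (j c) a x g) = P.mv ty (hmap j h) c a x (lpre j g) := by
  refine Prod.ext (by simp only [mv, proj, hmap_in, hj]) ?_
  simp only [mv, proj, mva, hj]
  split_ifs
  · exact proj1_lmap (fill_amap j c _ x) (fun b a k => ⟨(a.1, b.2),
      Prod.ext ((fill_fst (j c) _ x b).symm.trans (congrArg Prod.fst k :)) rfl⟩) g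
  · exact proj1_lmap (j := j) (F' := evA (j c, h.len (j c)) x) (F := evA (c, h.len (j c)) x)
      (fun a => Prod.ext (ev_cmap j (c, h.len (j c)) x a.1) rfl) (fun b a k =>
      let ⟨b', e⟩ := ev_range j (c, h.len (j c)) x (a := a.1) (b := b.1) (congrArg Prod.fst k :)
      ⟨(b', b.2), Prod.ext e rfl⟩) g

/-- Port. -/
theorem Succ.out {σ τ : State C'} {c : C'} (hc : ∀ d, j d ≠ c) {a : Ordinal.{0}}
    {x : Set Ordinal.{0}} (h : P.Succ ty' σ c a x τ) :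
    hmap j τ.1 = hmap j σ.1 ∧ lpre j σ.2 ≤ lpre j τ.2 := by
  obtain ⟨g, -, e, rfl, -⟩ := h
  refine ⟨hmap_out j _ hc _ _, e.1, fun b hb => ⟨_, e.2 hb, Prod.ext rfl ?_⟩⟩
  simp only [mva, Prod.map_snd, tmap]
  split_ifs
  · exact if_neg fun k => hc _ (congrArg Prod.fst k.1)
  · refine Prod.ext (ev_of_not _ fun k => ?_) rfl
    obtain ⟨m, -, k⟩ := List.mem_map.1 k
    exact hc _ (congrArg Prod.fst k)

variable (P ty' j) in
/-- `Φ'` extends `Φ` along `j`. -/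
def Compat (Φ : Phi C) (Φ' : Phi C') : Prop :=
  ∀ f c α, Mover f (j c) → Cmp (P.Q ty' f) (lpre j) (Φ (fun c => f (j c)) α) (Φ' f α)

variable {Φ : Phi C} {Φ' : Phi C'}

theorem compat_refl (hΦ : P.PhiOK ty Φ) : P.Compat ty (RelEmbedding.refl _) Φ Φ := by
  intro f c α _ g hg N h
  rw [lpre_refl] at h
  refine (hΦ.pf h).choose_spec.incl h fun x g' a _ b => ⟨g', a, le_rfl, ?_⟩
  exact hit_of_mem (show Hit _ _ _ by rwa [lpre_refl])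

theorem Compat.trans {ty'' : C'' → Ty} {i : C' ↪o C''} {Φ'' : Phi C''} (hΦ : P.PhiOK ty'' Φ'')
    (hi : ∀ c, ty'' (i c) = ty' c) (h : P.Compat ty' j Φ Φ') (h' : P.Compat ty'' i Φ' Φ'') :
    P.Compat ty'' (j.trans i) Φ Φ'' := by
  intro f c α hm g hg N k
  rw [lpre_comp] at k
  have k1 := h' f (j c) α hm g hg _ (h _ c α (Mover.proj i hm) _ (Q_lpre hi hg) N k)
  refine (hΦ.pf k1).choose_spec.incl k1 fun x g' a _ b => ⟨g', a, le_rfl, ?_⟩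
  rw [hit_pull (lpre_mono _), hit_pull (lpre_mono _)] at b
  rwa [hit_pull (lpre_mono _), lpre_comp]

variable (P ty' j) in
/-- Preimage of a set of states. -/
def pre (D : Set (State C)) : Set (State C') := {τ | P.Val ty' τ ∧ proj j τ ∈ D}

theorem Opn.pre (hj : ∀ c, ty' (j c) = ty c) {D : Set (State C)} (h : P.Opn ty D) :
    P.Opn ty' (P.pre ty' j D) := fun _ k =>
  ⟨k.1, fun _ a b => ⟨k.1.ext a, (h _ k.2).2 _ (Q_lpre hj a) (lpre_mono j b)⟩⟩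

theorem Nx.proj (hj : ∀ c, ty' (j c) = ty c) {h : Hist C'} {c : C} {a : Ordinal.{0}}
    (hn : P.Nx ty' h (j c) a) : P.Nx ty (hmap j h) c a := ⟨hn.1.proj j, hj c ▸ hn.2⟩

/-- Port. In the upper case use `UN_incl` with `val_upper`. -/
theorem Large.pre (hj : ∀ c, ty' (j c) = ty c) (hΦ : P.PhiOK ty' Φ') (hc : P.Compat ty' j Φ Φ')
    {σ : State C'} (hσ : P.Val ty' σ) {c : C} {a : Ordinal.{0}} (hn : P.Nx ty' σ.1 (j c) a)
    {D : Set (State C)} (hD : P.Opn ty D) (h : P.Large ty Φ (proj j σ) c a D) :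
    P.Large ty' Φ' σ (j c) a (P.pre ty' j D) := by
  refine ⟨fun hk => ?_, fun hk => ?_⟩
  · have u := hΦ.uf' hσ hn hk
    have hk' : (ty c).k = 0 := hj c ▸ hk
    refine u.incl (u.toPF.inter2 (P.sc_reg _).aleph0_le (u.small hσ.2)
      (hc _ c _ hn.1 _ hσ.2 _ (h.1 hk'))) fun x g b1 _ ⟨_, ⟨⟨_, hx, _⟩, b2⟩, b3⟩ => ?_
    obtain ⟨k, d1, d2⟩ := (hit_pull (lpre_mono j)).1 (b2.mono b3)
    refine ⟨g, b1, le_rfl, hit_of_mem ⟨fun β e1 e2 => ?_, val_base hσ hn hk hx b1, ?_⟩⟩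
    · exact (d1.1.mono d2 β e1 (hj c ▸ e2)).imp fun _ _ _ ⟨z, z1, z2, z3⟩ =>
        ⟨tmap j z, z1, congrArg (cmap j) z2, z3⟩
    · rw [proj_mv hj]
      exact hD.mv hk' d2 (Q_lpre hj b1) d1.2
  · have k := h.2 (hj c ▸ hk)
    rw [← hj c] at k
    exact P.UN_incl hk (val_upper hσ hn hk) k fun y hy q b e l => ⟨q, b, subset_rfl,
      hit_of_mem ⟨hy q b e, (proj_mv hj _ _ _ _ _).symm ▸ hD.hit b l⟩⟩

theorem Closed.pre (hj : ∀ c, ty' (j c) = ty c) (hΦ : P.PhiOK ty' Φ') (hc : P.Compat ty' j Φ Φ')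
    {D : Set (State C)} (hD : P.Closed ty Φ D) : P.Closed ty' Φ' (P.pre ty' j D) := by
  refine ⟨hD.1.pre hj, fun σ k c a hn => ?_⟩
  by_cases e : ∃ d, j d = c
  · obtain ⟨d, rfl⟩ := e
    exact (hD.2 _ k.2 d a (hn.proj hj)).pre hj hΦ hc k.1 hn hD.1
  · refine large_of_succ hΦ k.1 hn fun x τ s => ⟨s.choose_spec.2.2.2.1, ?_⟩
    obtain ⟨a1, a2⟩ := s.out (j := j) fun d e' => e ⟨d, e'⟩
    have := (s.choose_spec.2.2.2.1.proj hj).2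
    simp only [proj, a1] at this ⊢
    exact (hD.1 _ k.2).2 _ this a2

/-- A state projecting into the regularisation has an extension projecting into the set. -/
theorem Opn.lift_reg (hj : ∀ c, ty' (j c) = ty c) {D : Set (State C)} (hD : P.Opn ty D)
    {σ : State C'} (hσ : P.Val ty' σ) (h : proj j σ ∈ P.reg ty D) :
    ∃ g ∈ P.Q ty' σ.1.len, σ.2 ≤ g ∧ (σ.1, g) ∈ P.pre ty' j D := by
  obtain ⟨k, a1, a2, a3⟩ := (mem_reg.1 h).2 _ h.1.2 le_rfl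
  obtain ⟨g, b1, b2, b3⟩ := (prj_lpre hj σ.1.len P.Ω).lift _ hσ.2 k a1 a2
  exact ⟨g, b1, b2, hσ.ext b1, (hD _ a3).2 _ (Q_lpre hj b1) b3⟩

theorem proj1_reg {S : Set (State C)} (hS : ∀ h g g', (h, g) ∈ S → g ≤ g' → (h, g') ∈ S) :
    P.Reg ty (P.perp ty S) := fun _ h H => ⟨h, fun g a b c =>
  let ⟨k, d, e, f⟩ := H g a b
  f.2 k d le_rfl (hS _ _ _ c e)⟩

/-- States that densely have a lift into `D` satisfying `I` form a closed set. Port. -/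
theorem Closed.lift [Finite C'] [Countable C] (hj : ∀ c, ty' (j c) = ty c) (hΦ : P.PhiOK ty Φ)
    (hΦ' : P.PhiOK ty' Φ') (hc : P.Compat ty' j Φ Φ') {D : Set (State C')}
    (hD : P.Closed ty' Φ' D) {A : C' × ℕ → Ordinal.{0}} (hA : ∀ m, P.Inp (ty' m.1) m.2 (A m))
    (I : Hist C' → Prop) (h1 : ∀ h c a z, I h → I (h.step (j c) a z))
    (h2 : ∀ h c d z, I h → (∀ d, j d ≠ c) → h.len c ≤ h.len (j d) →
      I (h.step c (A (c, h.len c)) z)) :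
    P.Closed ty Φ (P.reg ty {υ | ∃ τ ∈ D, I τ.1 ∧ hmap j τ.1 = υ.1 ∧ lpre j τ.2 ≤ υ.2}) := by
  have hR : P.Reg ty (P.perp ty {υ | ∃ τ ∈ D, I τ.1 ∧ hmap j τ.1 = υ.1 ∧ lpre j τ.2 ≤ υ.2}) :=
    proj1_reg fun _ _ _ ⟨τ, x, y, z, w⟩ e => ⟨τ, x, y, z, w.trans e⟩
  refine ⟨opn_perp, fun υ hυ c a hn => (ultra hΦ hυ.1 hn opn_perp hR).resolve_left ?_⟩
  rintro ⟨g, a1, a2, a3⟩
  refine hυ.2 g a1 a2 ⟨hυ.1.ext a1, ?_⟩
  rintro g' b1 b2 ⟨τ, b3, b4, b5, b6⟩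
  obtain ⟨h, g0⟩ := υ
  obtain rfl : hmap j τ.1 = h := b5
  obtain ⟨τ', d1, ⟨d2, d3, d4⟩, d5, -⟩ := hD.adv hΦ' hA (j c) (τ.1.len (j c))
    (fun σ => I σ.1 ∧ hmap j σ.1 = hmap j τ.1 ∧ g' ≤ lpre j σ.2) (fun σ c' x σ' k m lt s => by
      have e : ∀ d, σ.1.len (j d) = τ.1.len (j d) := congrFun (congrArg Hist.len k.2.1)
      have o : ∀ d, j d ≠ c' := by
        rintro d rfl
        refine hn.1.not_lt (m := (d, τ.1.len (j d))) le_rfl ?_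
        simpa [NdLt, e, hmap] using lt
      obtain ⟨s1, s2⟩ := s.out o
      exact ⟨s.hist ▸ h2 _ _ c _ k.1 o (m _).1, s1.trans k.2.1, k.2.2.trans s2⟩)
    ((hD.1 _ b3).2 _ (Q_lift hj (hD.1 _ b3).1.2 b1 b6) ⟨b6.1, subset_union_left⟩)
    ⟨b4, rfl, subset_rfl, fun x hx => Or.inr ⟨x, hx, rfl⟩⟩ le_rfl
  have v := (hD.1 _ d1).1
  have hn' : P.Nx ty' τ'.1 (j c) a :=
    ⟨d5, hj c ▸ (show P.Inp (ty c) ((hmap j τ'.1).len c) a from d3 ▸ hn.2)⟩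
  have l1 := a3.ext hΦ opn_perp hn.1 (g := lpre j τ'.2) (d3 ▸ (v.proj hj).2) (b2.trans d4)
  simp only [← d3] at l1
  obtain ⟨x, τ'', s, e1, e2⟩ := ((hD.2 _ d1 _ _ hn').inter hΦ' v hn' hD.1 (opn_perp.pre hj)
    (Large.pre hj hΦ' hc v hn' opn_perp l1)).ex hΦ' v hn' (hD.1.inter (opn_perp.pre hj))
  exact e2.2.2 _ e2.2.1.2 le_rfl ⟨τ'', e1, s.hist ▸ h1 _ _ _ _ d2, rfl, le_rfl⟩

variable (P ty) in
/-- The data of all types lie below `γ`. -/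
def Bel (γ : Ordinal.{0}) : Prop :=
  P.b < γ ∧ ∀ c, (ty c).θ < γ ∧ (ty c).l < γ ∧ ((ty c).k ≠ 0 → P.lam (ty c) < γ)

theorem Bel.mono {γ γ' : Ordinal.{0}} (h : P.Bel ty γ) (e : γ ≤ γ') : P.Bel ty γ' :=
  ⟨h.1.trans_le e, fun c => ⟨(h.2 c).1.trans_le e, (h.2 c).2.1.trans_le e,
    fun k => ((h.2 c).2.2 k).trans_le e⟩⟩

theorem exists_level [Finite C] (hT : ∀ c, P.TyOK (ty c)) :
    ∃ K, P.Bel ty (P.ν (K + 1)).ord ∧ ∀ c, (ty c).k ≤ K := by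
  choose k hk using fun c => (P.Ω_iff _).1 (hT c).2
  obtain ⟨K, hK⟩ := (finite_range fun c => max (ty c).k (k c)).bddAbove
  have e : ∀ c, (P.ν ((ty c).k + 1)).ord ≤ (P.ν (K + 1)).ord := fun c => Cardinal.ord_le_ord.2
    (P.ν_mono.monotone (Nat.succ_le_succ ((le_max_left _ _).trans (hK ⟨c, rfl⟩))))
  exact ⟨K, ⟨Cardinal.ord_lt_ord.2 (P.ν_mono K.succ_pos), fun c => ⟨(hT c).1.trans_le (e c),
    (hk c).trans_le (Cardinal.ord_le_ord.2 (P.ν_mono.monotone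
      (((le_max_right _ _).trans (hK ⟨c, rfl⟩)).trans (Nat.le_succ _)))),
    fun k => (P.lam_lt k).trans_le (e c)⟩⟩, fun c => (le_max_left _ _).trans (hK ⟨c, rfl⟩)⟩

end Par

theorem mk_pi_lt {ι : Type} {X : Type 1} {χ : Cardinal.{0}} (hχ : χ.IsStrongLimit) (hι : #ι < χ)
    {S : Set X} (hS : #S < lc χ) : #{f : ι → X | ∀ i, f i ∈ S} < lc χ := by
  refine lt_of_le_of_lt (mk_le_of_injective (f := fun f i => (⟨f.1 i, f.2 i⟩ : S))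
    fun a b e => Subtype.ext (funext fun i => congrArg Subtype.val (congrFun e i))) ?_
  rw [mk_arrow, Cardinal.lift_uzero]
  exact pow_lt_lc hχ hS (Cardinal.lift_lt.2 hι)

namespace Par

variable {P : Par} {ty : C → Ty} {χ : Cardinal.{0}}

theorem ρ_le : P.ρ ≤ (P.ν 0).ord := by
  rcases P.ρ_om.eq_or_lt with h | h
  · rw [← h, ← ord_aleph0]
    exact Cardinal.ord_le_ord.2 P.ν0
  · obtain ⟨c, -, h1, h2⟩ := P.ρ_reg h
    exact h1.trans_le (Cardinal.ord_le_ord.2 ((cantor c).le.trans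
      ((h2 0).le.trans (P.sc_le _ zero_lt_ρ))))

/-- Port of `mk_atoms`; multiply by `PV P.b` (`Stage.mk_PV'`). -/
theorem mk_atoms [Countable C] (hχ : Stage χ.ord) (hT : P.Bel ty χ.ord) :
    ∃ S : Set (LA C), #S < lc χ ∧ ∀ f d, ∀ g ∈ P.QL ty f d, g.2 ⊆ S := by
  have hi := Stage.inacc hχ
  have h0 : P.ν 0 < χ := Cardinal.ord_lt_ord.1 hT.1
  refine ⟨PV P.b ×ˢ ((⋃ s : ULift.{1} (C × {L : List (C × ℕ) // ∀ m ∈ L, (ty m.1).k ≠ 0}),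
    (fun t => (s.down.1, s.down.2.1, t)) ''
      {t | TV (ty s.down.1).l (s.down.2.1.map fun m => P.U (ty m.1)) t}) ×ˢ
      {v | ∀ ξ ∈ v, ξ < (P.ν 0).ord}), mk_prod_lt hi.isRegular.aleph0_le (hχ.mk_PV' hT.1)
      (mk_prod_lt hi.isRegular.aleph0_le (mk_iUnion_lt hi.isRegular
      ((mk_le_aleph0.trans P.lν0).trans_lt (Cardinal.lift_lt.2 h0)) _ fun s =>
        mk_image_le.trans_lt (mk_TV hi (hT.2 _).2.1 _ fun u hu => ?_))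
      (mk_lists.trans_lt (Cardinal.lift_lt.2 h0))),
    fun f d g hg a ha => ⟨(hg.2.1 a ha).1, ?_, (hg.2.1 a ha).2.2⟩⟩
  · obtain ⟨m, hm, rfl⟩ := List.mem_map.1 hu
    exact ⟨_, (P.U_pt (s.down.2.2 m hm)).mono fun y hy => hy.1,
      mk_subsets hi.isStrongLimit (mk_Iio_lt ((hT.2 _).2.2 (s.down.2.2 m hm)))⟩
  · have := (hg.2.1 a ha).2.1
    exact mem_iUnion.2 ⟨⟨a.2.1.1, a.2.1.2.1, fun m hm => (this.2.1 m hm).1⟩, _, this.2.2.2, rfl⟩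

theorem mk_QL [Countable C] (hχ : Stage χ.ord) (hT : P.Bel ty χ.ord) {c : Ordinal.{0}}
    (hc : c < χ.ord) : #(⋃ f, P.QL ty f c) < lc χ := by
  obtain ⟨S, h1, h2⟩ := mk_atoms hχ hT
  exact lt_of_le_of_lt (mk_le_mk_of_subset (t := PV c ×ˢ {L | L ⊆ S})
    (iUnion_subset fun f g k => ⟨k.1, h2 f c g k⟩)) (mk_prod_lt
    hχ.inacc.aleph0_lt.le (hχ.mk_PV' hc) (mk_subsets hχ.inacc.isStrongLimit h1))

/-- Extracted from the old `mk_val`. -/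
theorem mk_hist [Finite C] (hχ : χ.IsInaccessible) (hT : P.Bel ty χ.ord) :
    #{h | P.HOK ty h} < lc χ := by
  have h0 : P.ν 0 < χ := Cardinal.ord_lt_ord.1 hT.1
  have h1 := hχ.isRegular.aleph0_le
  have h2 : ∀ (ι : Type) [Countable ι], #ι < χ := fun ι _ => (mk_le_aleph0.trans P.ν0).trans_lt h0
  have h3 : #(Iio P.ρ) < lc χ := mk_Iio_lt (ρ_le.trans_lt hT.1)
  have h4 : #{y | y ⊆ ⋃ c : ULift.{1} C, Iio (ty c.down).θ} < lc χ :=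
    mk_subsets hχ.isStrongLimit (mk_iUnion_lt hχ.isRegular (by simpa using h2 C) _
      fun c => mk_Iio_lt (hT.2 _).1)
  have h5 := mk_prod_lt h1 (S := (univ : Set (ULift.{1} (C → ℕ))))
    (by simpa only [mk_univ, mk_uLift, Cardinal.lift_lt] using h2 (C → ℕ))
    (mk_prod_lt h1 (mk_pi_lt hχ.isStrongLimit (h2 C) h3)
      (mk_prod_lt h1 (mk_pi_lt hχ.isStrongLimit (h2 (C × ℕ)) h3)
        (mk_pi_lt hχ.isStrongLimit (h2 (C × ℕ)) h4)))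
  refine mk_lt_of_map h5 (fun h => (⟨h.len⟩, h.st, h.inp, h.pt)) (fun h k => ⟨trivial, k.1,
    fun m => (k.2 m).1, fun m => (k.2 m).2.1.trans
      (subset_iUnion (fun c : ULift.{1} C => Iio (ty c.down).θ) ⟨m.1⟩)⟩) fun a _ b _ e => ?_
  simp only [Prod.mk.injEq, ULift.up.injEq] at e
  exact Hist.ext e.1 e.2.1 e.2.2.1 e.2.2.2

theorem mk_val [Finite C] (hχ : Stage χ.ord) (hT : P.Bel ty χ.ord) {c : Ordinal.{0}}
    (hc : c < χ.ord) : #{σ | P.Val ty σ ∧ σ.2.1 ∈ PV c} < lc χ :=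
  lt_of_le_of_lt (mk_le_mk_of_subset (t := {h | P.HOK ty h} ×ˢ ⋃ f, P.QL ty f c)
    fun σ k => ⟨k.1.1, mem_iUnion.2 ⟨_, QL_up' k.1.2 k.2 subset_rfl⟩⟩) (mk_prod_lt hχ.inacc.aleph0_lt.le (mk_hist hχ.inacc hT) (mk_QL hχ hT hc))

/-- Labels inject into `PV d × 𝒫 S` (`small_PV`, `mk_atoms`, `exists_level`). -/
theorem small_Q [Finite C] (hT : ∀ c, P.TyOK (ty c)) (f : C → ℕ) (d : Ordinal.{0}) :
    Small.{0} (P.QL ty f d) := by
  obtain ⟨K, hK, -⟩ := exists_level hT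
  obtain ⟨S, h1, h2⟩ := mk_atoms (P.ν_st K) hK
  obtain ⟨Y, e, -⟩ := small_of_lt (mk_subsets (P.ν_in K).isStrongLimit h1)
  have : Small.{0} {L | L ⊆ S} := ⟨_, ⟨e.symm⟩⟩
  have := small_PV d
  exact small_of_injective (f := fun g : P.QL ty f d =>
      ((⟨g.1.1, g.2.1⟩ : PV d), (⟨g.1.2, h2 f d _ g.2⟩ : {L | L ⊆ S})))
    fun a b k => Subtype.ext (Prod.ext (congrArg (·.1.1) k) (congrArg (·.2.1) k))

variable (P ty) in
/-- The cut `c` lies above all data of the shape. -/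
structure Fit (Φ : Phi C) (c : Ordinal.{0}) : Prop where
  bel : P.Bel ty c
  phi : ∀ f α, Loc (P.Q ty f) (rl c) (Φ f α)
  un : ∀ d, (ty d).k ≠ 0 → Loc (PV P.Ω) (res c) (P.UN (ty d))

theorem PhiOK.fit [Finite C] {Φ : Phi C} (h : P.PhiOK ty Φ) :
    ∃ l < P.Ω, ∀ c, l ≤ c → P.Fit ty Φ c := by
  obtain ⟨K, a, b⟩ := exists_level h.tyok
  obtain ⟨l, d, e⟩ := h.loc
  exact ⟨max l (P.ν (K + 1)).ord, max_lt d (lt_Ω _), fun c k => ⟨a.mono ((le_max_right _ _).trans k),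
    e c ((le_max_left _ _).trans k), fun x y => P.UN_loc y ((Cardinal.ord_le_ord.2
      (P.ν_mono.monotone (Nat.succ_le_succ (b x)))).trans ((le_max_right _ _).trans k))⟩⟩

/-- Use `redD_rl` with `S` the set of all tagged atoms occurring in labels; for a stage `γ > c`
bound it by `mk_atoms` (`γ = γ.card.ord`), and bound the points by subsets of `Iio dl`. -/
theorem Bel.redD [Countable C] {c : Ordinal.{0}} (h : P.Bel ty c) (hc : c ≤ P.Ω) (hn : ¬ Stage c)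
    (f : C → ℕ) (μ : Cardinal.{0}) (x : C) : RedD (P.Q ty f) (rl c) μ (ty x).dl := by
  refine redD_rl h.1.le hc hn (S := {a | ∃ g ∈ P.Q ty f, a ∈ g.2}) (fun g k a l => ⟨g, k, l⟩)
    fun γ s k => ?_
  have s' : Stage γ.card.ord := s.2.1.symm ▸ s
  have k' : c < γ.card.ord := s.2.1.symm ▸ k
  obtain ⟨S, h1, h2⟩ := mk_atoms s' (h.mono k'.le)
  exact ⟨(mk_le_mk_of_subset fun _ a => a.1).trans_lt (mk_subsets s.1.isStrongLimit
    (mk_Iio_lt ((max_lt (h.2 x).1 (h.2 x).2.1).trans k'))),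
    lt_of_le_of_lt (mk_le_mk_of_subset (t := S) fun _ ⟨g, a, b⟩ => h2 f _ g a b) h1⟩

/-- Raising a name from a level: `UF.ext1` along `rl c` and `Cut.loc`. -/
theorem Bel.raise [Finite C] (hT : ∀ c, P.TyOK (ty c)) {c : Ordinal.{0}} (h : P.Bel ty c)
    (hc : c ≤ P.Ω) (hn : ¬ Stage c) {f : C → ℕ} {α : Ordinal.{0}} (hα : α < P.ρ) {x : C}
    {Φ0 : Lb C → Nam (Lb C) → Prop}
    (h0 : UF (Lev (P.Q ty f) (rl c)) (P.sc α) (ty x).dl Φ0) :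
    ∃ Φ, UF (P.Q ty f) (P.sc α) (ty x).dl Φ ∧ Cmp (P.Q ty f) (rl c) Φ0 Φ ∧
      ∀ c', c ≤ c' → Loc (P.Q ty f) (rl c') Φ := by
  have hcut : Cut (P.Q ty f) (rl c) := cut_rl h.1.le
  obtain ⟨Φ, u1, u2⟩ := UF.ext1 (lab_ok f) (P.sc_pre α) (P.sc_b hα) (small_Q hT f P.Ω) h0 hcut.prj
    fun s hs g k e y hy =>
      (e.1 ⟨Or.inl hy, (PV.st hs y hy).trans_le ((P.sc_b hα).trans h.1.le)⟩).1
  exact ⟨Φ, u1, u2, fun c' k => hcut.loc (cut_rl (h.1.le.trans k))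
    (fun _ => Prod.ext (res_res k) rfl) (P.sc_reg α).aleph0_le h0 u1.toPF u2 (h.redD hc hn f _ x)⟩

section Amalgam

variable {C0 C1 C2 : Type} [LinearOrder C0] [LinearOrder C1] [LinearOrder C2] {ty0 : C0 → Ty}
  {ty1 : C1 → Ty} {ty2 : C2 → Ty} {p1 : C1 ↪o C} {p2 : C2 ↪o C} {q1 : C0 ↪o C1} {q2 : C0 ↪o C2}

/-- Port; `g' = (k0.1, g.2 ∪ tmap p1 '' k1.2 ∪ tmap p2 '' k2.2)`. -/
theorem Q_amal (hp1 : ∀ c, ty (p1 c) = ty1 c) (hp2 : ∀ c, ty (p2 c) = ty2 c)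
    (h : ∀ c1 c2, p1 c1 = p2 c2 → ∃ c0, q1 c0 = c1 ∧ q2 c0 = c2) {f : C → ℕ} {f0 : C0 → ℕ}
    {d : Ordinal.{0}} : ∀ g ∈ P.QL ty f d, ∀ k1 ∈ P.QL ty1 (fun c => f (p1 c)) d,
      ∀ k2 ∈ P.QL ty2 (fun c => f (p2 c)) d, ∀ k0 ∈ P.QL ty0 f0 d, lpre p1 g ≤ k1 →
      lpre p2 g ≤ k2 → lpre q1 k1 ≤ k0 → lpre q2 k2 ≤ k0 →
      ∃ g' ∈ P.QL ty f d, g ≤ g' ∧ k1 ≤ lpre p1 g' ∧ k2 ≤ lpre p2 g' ∧ g'.1 = k0.1 := by
  intro g hg k1 a1 k2 a2 k0 a0 b1 b2 d1 d2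
  refine ⟨(k0.1, (g.2 ∪ tmap p1 '' k1.2) ∪ tmap p2 '' k2.2), QL_union
    (QL_up' (Q_lift hp1 hg a1 b1) a0.1 d1.1) (QL_up' (Q_tmap hp2 a2) a0.1 d2.1) ?_,
    ⟨b1.1.trans d1.1, subset_union_left.trans subset_union_left⟩,
    ⟨d1.1, fun x hx => Or.inl (Or.inr ⟨x, hx, rfl⟩)⟩, ⟨d2.1, fun x hx => Or.inr ⟨x, hx, rfl⟩⟩, rfl⟩
  rintro a (ha | ⟨a, ha, rfl⟩) b hb e
  · exact (QL_up' (Q_lift hp2 hg a2 b2) a0.1 d2.1).2.2.1 a (Or.inl ha) b (Or.inr hb) e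
  · obtain ⟨b, hb, rfl⟩ := hb
    obtain ⟨z, z1, z2⟩ := cmap_common h e
    exact a0.2.2.1 (a.1, z, a.2.2) (d1.2 (show (a.1, cmap q1 z, a.2.2) ∈ k1.2 from z1 ▸ ha))
      (b.1, z, b.2.2) (d2.2 (show (b.1, cmap q2 z, b.2.2) ∈ k2.2 from z2 ▸ hb)) rfl

theorem proj3_uf {Φ : Phi C} (hΦ : P.PhiOK ty Φ) {c : Ordinal.{0}} (hc : P.Fit ty Φ c)
    (hΩ : c ≤ P.Ω) {f : C → ℕ} {α : Ordinal.{0}} (hα : α < P.ρ) {x : C} (hm : Mover f x) {t : Ty}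
    (e : ty x = t) (hk : t.k = 0) :
    UF (P.QL ty f c) (P.sc α) t.dl (restr (P.Q ty f) (rl c) (Φ f α)) := by
  subst e
  exact lev_rl (P := P) (ty := ty) (f := f) hΩ ▸
    (hΦ.uf f α x hm hk hα).restr (cut_rl hc.bel.1.le) (hc.phi f α)

theorem proj3_cmp {ty' : C' → Ty} {j : C ↪o C'} (hj : ∀ c, ty' (j c) = ty c) {Φ : Phi C}
    {Φ' : Phi C'} (hΦ : P.PhiOK ty' Φ') (h : P.Compat ty' j Φ Φ') {c : Ordinal.{0}}
    (hb : P.b ≤ c) (hΩ : c ≤ P.Ω) {f : C' → ℕ} {α : Ordinal.{0}} (hα : α < P.ρ) {x : C}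
    (hm : Mover f (j x)) (hk : (ty' (j x)).k = 0) :
    Cmp (P.QL ty' f c) (lpre j) (restr (P.Q ty fun c => f (j c)) (rl c) (Φ (fun c => f (j c)) α))
      (restr (P.Q ty' f) (rl c) (Φ' f α)) :=
  lev_rl (P := P) (ty := ty') (f := f) hΩ ▸ (h f x α hm).restr (hΦ.uf f α _ hm hk hα).toPF
    (cut_rl hb) (cut_rl hb) (prj_lpre hj f _) fun _ => rfl

theorem proj3_raise [Finite C] {ty' : C' → Ty} {j : C ↪o C'} (hj : ∀ c, ty' (j c) = ty c)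
    {Φ : Phi C} (hΦ : P.PhiOK ty Φ) {c : Ordinal.{0}} (hc : P.Fit ty Φ c) (hΩ : c ≤ P.Ω)
    (hn : ¬ Stage c) {f : C' → ℕ} {α : Ordinal.{0}} (hα : α < P.ρ) {x : C}
    (hm : Mover f (j x)) (hk : (ty' (j x)).k = 0) {Ψ0 Ψ : Lb C' → Nam (Lb C') → Prop}
    (h0 : PF (P.QL ty' f c) (P.sc α) (ty' (j x)).dl Ψ0)
    (h1 : PF (P.Q ty' f) (P.sc α) (ty' (j x)).dl Ψ)
    (c1 : Cmp (P.QL ty' f c) (lpre j)
      (restr (P.Q ty fun c => f (j c)) (rl c) (Φ (fun c => f (j c)) α)) Ψ0)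
    (c2 : Cmp (P.Q ty' f) (rl c) Ψ0 Ψ) :
    Cmp (P.Q ty' f) (lpre j) (Φ (fun c => f (j c)) α) Ψ := by
  rw [hj] at hk h0 h1
  rw [← lev_rl (P := P) (ty := ty') (f := f) hΩ] at h0 c1
  exact Cmp.raise (P.sc_reg α).aleph0_le (hΦ.uf _ α x (hm.proj j) hk hα) (hc.phi _ α)
    (hc.bel.redD hΩ hn _ _ x) h1 (cut_rl hc.bel.1.le) (cut_rl hc.bel.1.le) (prj_lpre hj f _)
    (fun _ => rfl) h0 c1 c2

theorem proj3_emp {ty' : C' → Ty} {j : C ↪o C'} (hj : ∀ c, ty' (j c) = ty c)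
    {Φ : Phi C} (hΦ : P.PhiOK ty Φ) {f : C' → ℕ} {α : Ordinal.{0}}
    (hn : ¬ (α < P.ρ ∧ ∃ x, Mover f x ∧ (ty' x).k = 0)) {x : C} (hm : Mover f (j x)) :
    Cmp (P.Q ty' f) (lpre j) (Φ (fun c => f (j c)) α) fun _ _ => False := fun _ _ _ k => by
  obtain ⟨a, y, b, e⟩ := hΦ.dom _ _ _ _ k
  obtain rfl := b.unique (hm.proj j)
  exact hn ⟨a, _, hm, (hj y).symm ▸ e⟩

/-- Port. Choose `c = l + 1 < P.Ω` above the bounds of `PhiOK.fit` for `Φ0`, `Φ1`, `Φ2` and with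
`P.Bel ty c` (`exists_level`). For `f`, `α < ρ` with a base mover `x` (otherwise take the empty
relation): restrict the given names to the level (`UF.restr`, `Cmp.restr`, `lev_rl`), amalgamate
over `labT ty f c` (`UF.amal`, `UF.ext1` or `exists_UF`, according to whether `x` lies in the
ranges of `p1`, `p2`), then use `Bel.raise` and `Cmp.raise`. If the mover is not a base
coordinate, `Φ1`, `Φ2` are empty at the projections of `f` (`dom`, `Mover.unique`). -/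
theorem exists_phi [Finite C] [Finite C0] [Finite C1] [Finite C2] (hT : ∀ c, P.TyOK (ty c))
    (hp1 : ∀ c, ty (p1 c) = ty1 c)
    (hp2 : ∀ c, ty (p2 c) = ty2 c) (hq1 : ∀ c, ty1 (q1 c) = ty0 c) (hq2 : ∀ c, ty2 (q2 c) = ty0 c)
    (he : q1.trans p1 = q2.trans p2)
    (h : ∀ c1 c2, p1 c1 = p2 c2 → ∃ c0, q1 c0 = c1 ∧ q2 c0 = c2) {Φ0 : Phi C0} {Φ1 : Phi C1}
    {Φ2 : Phi C2} (h0 : P.PhiOK ty0 Φ0) (h1 : P.PhiOK ty1 Φ1) (h2 : P.PhiOK ty2 Φ2)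
    (c1 : P.Compat ty1 q1 Φ0 Φ1) (c2 : P.Compat ty2 q2 Φ0 Φ2) :
    ∃ Φ, P.PhiOK ty Φ ∧ P.Compat ty p1 Φ1 Φ ∧ P.Compat ty p2 Φ2 Φ := by
  obtain ⟨l0, a0, b0⟩ := h0.fit
  obtain ⟨l1, a1, b1⟩ := h1.fit
  obtain ⟨l2, a2, b2⟩ := h2.fit
  obtain ⟨K, b3, -⟩ := exists_level hT
  obtain ⟨l, hl⟩ : ∃ l, l = max (max l0 l1) (max l2 (P.ν (K + 1)).ord) := ⟨_, rfl⟩
  obtain ⟨k, hk⟩ := (P.Ω_iff l).1 (hl ▸ max_lt (max_lt a0 a1) (max_lt a2 (lt_Ω _)))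
  have hΩ : l + 1 < P.Ω := (Order.add_one_le_of_lt hk).trans_lt (lt_Ω k)
  have hn := not_stage_succ l
  have e0 : max (max l0 l1) (max l2 (P.ν (K + 1)).ord) ≤ l + 1 := hl ▸ (lt_add_one l).le
  generalize l + 1 = c at hΩ hn e0
  simp only [max_le_iff] at e0
  have F0 := b0 c e0.1.1
  have F1 := b1 c e0.1.2
  have F2 := b2 c e0.2.1
  have F := b3.mono e0.2.2
  have hb : P.b ≤ c := F.1.le
  have key : ∀ (f : C → ℕ) (α : Ordinal.{0}), ∃ Φ,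
      (∀ x, Mover f x → (ty x).k = 0 → α < P.ρ → UF (P.Q ty f) (P.sc α) (ty x).dl Φ) ∧
      (∀ g N, Φ g N → α < P.ρ ∧ ∃ x, Mover f x ∧ (ty x).k = 0) ∧
      (∀ c', c ≤ c' → Loc (P.Q ty f) (rl c') Φ) ∧
      (∀ c, Mover f (p1 c) → Cmp (P.Q ty f) (lpre p1) (Φ1 (fun c => f (p1 c)) α) Φ) ∧
      ∀ c, Mover f (p2 c) → Cmp (P.Q ty f) (lpre p2) (Φ2 (fun c => f (p2 c)) α) Φ := by
    intro f α
    by_cases H : α < P.ρ ∧ ∃ x, Mover f x ∧ (ty x).k = 0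
    swap
    · exact ⟨fun _ _ => False, fun x a b d => (H ⟨d, x, a, b⟩).elim, fun _ _ k => k.elim,
        fun _ _ _ _ _ k => k.elim, fun _ => proj3_emp hp1 h1 H, fun _ => proj3_emp hp2 h2 H⟩
    obtain ⟨hα, x, hm, hx⟩ := H
    have hT' := labT_ok (P := P) (ty := ty) (f := f) hb
    have hs : Small.{0} (P.labT ty f c).Q := small_Q hT f c
    have lev : ∃ Ψ, UF (P.QL ty f c) (P.sc α) (ty x).dl Ψ ∧
        (∀ d, p1 d = x → Cmp (P.QL ty f c) (lpre p1)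
          (restr (P.Q ty1 fun c => f (p1 c)) (rl c) (Φ1 (fun c => f (p1 c)) α)) Ψ) ∧
        ∀ d, p2 d = x → Cmp (P.QL ty f c) (lpre p2)
          (restr (P.Q ty2 fun c => f (p2 c)) (rl c) (Φ2 (fun c => f (p2 c)) α)) Ψ := by
      by_cases k1 : ∃ d, p1 d = x <;> by_cases k2 : ∃ d, p2 d = x
      · obtain ⟨d1, k1⟩ := k1
        obtain ⟨d2, k2⟩ := k2
        obtain ⟨d, rfl, rfl⟩ := h _ _ (k1.trans k2.symm)
        have e : (fun c => f (p2 (q2 c))) = fun c => f (p1 (q1 c)) :=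
          funext fun c => congrArg f (DFunLike.congr_fun he c).symm
        have m1 : Mover (fun c => f (p1 c)) (q1 d) := Mover.proj p1 (k1 ▸ hm)
        have m2 : Mover (fun c => f (p2 c)) (q2 d) := Mover.proj p2 (k2 ▸ hm)
        have t1 : ty1 (q1 d) = ty x := (hp1 _).symm.trans (congrArg ty k1)
        have t2 : ty2 (q2 d) = ty x := (hp2 _).symm.trans (congrArg ty k2)
        obtain ⟨Ψ, a, b, b'⟩ := UF.amal hT' (P.sc_pre α) (P.sc_b hα) hs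
          (proj3_uf h0 F0 hΩ.le hα (m1.proj q1) ((hq1 d).symm.trans t1) hx)
          (proj3_uf h1 F1 hΩ.le hα m1 t1 hx) (proj3_uf h2 F2 hΩ.le hα m2 t2 hx)
          (prj_lpre hp1 f c) (prj_lpre hp2 f c) (prj_lpre hq1 _ c) (e ▸ prj_lpre hq2 _ c)
          (proj3_cmp hq1 h1 c1 hb hΩ.le hα m1 (t1 ▸ hx))
          (e ▸ proj3_cmp hq2 h2 c2 hb hΩ.le hα m2 (t2 ▸ hx))
          (fun g => by rw [← lpre_comp, ← lpre_comp, he])
          (fun g u k1 u1 k2 u2 k0 u0 v1 v2 v3 v4 =>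
            let ⟨g', w1, w2, w3, w4, _⟩ := Q_amal hp1 hp2 h g u k1 u1 k2 u2 k0 u0 v1 v2 v3 v4
            ⟨g', w1, w2, w3, w4⟩)
          (fun _ _ _ _ e => subset_union_left.trans e.1)
          fun _ _ _ _ e => subset_union_left.trans e.1
        exact ⟨Ψ, a, fun _ _ => b, fun _ _ => b'⟩
      · obtain ⟨d, rfl⟩ := k1
        obtain ⟨Ψ, a, b⟩ := UF.ext1 hT' (P.sc_pre α) (P.sc_b hα) hs
          (proj3_uf h1 F1 hΩ.le hα (hm.proj p1) (hp1 d).symm hx) (prj_lpre hp1 f c)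
          fun _ _ _ _ e => subset_union_left.trans e.1
        exact ⟨Ψ, a, fun _ _ => b, fun d k => (k2 ⟨d, k⟩).elim⟩
      · obtain ⟨d, rfl⟩ := k2
        obtain ⟨Ψ, a, b⟩ := UF.ext1 hT' (P.sc_pre α) (P.sc_b hα) hs
          (proj3_uf h2 F2 hΩ.le hα (hm.proj p2) (hp2 d).symm hx) (prj_lpre hp2 f c)
          fun _ _ _ _ e => subset_union_left.trans e.1
        exact ⟨Ψ, a, fun d k => (k1 ⟨d, k⟩).elim, fun _ _ => b⟩
      · obtain ⟨Ψ, a⟩ := exists_UF hT' (P.sc_pre α) (P.sc_b hα) hs (ty x).dl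
        exact ⟨Ψ, a, fun d k => (k1 ⟨d, k⟩).elim, fun d k => (k2 ⟨d, k⟩).elim⟩
    obtain ⟨Ψ, u0, u1, u2⟩ := lev
    obtain ⟨Φ, v0, v1, v2⟩ := F.raise hT hΩ.le hn hα (x := x) (Φ0 := Ψ)
      ((lev_rl (P := P) (ty := ty) (f := f) hΩ.le).symm ▸ u0)
    refine ⟨Φ, fun y a _ _ => hm.unique a ▸ v0, fun _ _ _ => ⟨hα, x, hm, hx⟩, v2, fun d a => ?_,
      fun d a => ?_⟩
    · obtain rfl := a.unique hm
      exact proj3_raise hp1 h1 F1 hΩ.le hn hα hm hx u0.toPF v0.toPF (u1 d rfl) v1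
    · obtain rfl := a.unique hm
      exact proj3_raise hp2 h2 F2 hΩ.le hn hα hm hx u0.toPF v0.toPF (u2 d rfl) v1
  choose Φ a b d e e' using key
  exact ⟨Φ, ⟨hT, a, b, c, hΩ, fun c' k f α => d f α c' k⟩, fun f x α => e f α x,
    fun f x α => e' f α x⟩

theorem phi_empty [IsEmpty C] : P.PhiOK ty fun _ _ _ _ => False :=
  ⟨isEmptyElim, fun _ _ => isEmptyElim, fun _ _ _ _ h => h.elim, _, lt_Ω 0,
    fun _ _ _ _ _ _ _ h => h.elim⟩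

theorem exists_phi0 [Finite C] (hT : ∀ c, P.TyOK (ty c)) : ∃ Φ, P.PhiOK ty Φ :=
  (exists_phi (C0 := Fin 0) (C1 := Fin 0) (C2 := Fin 0) (ty0 := Fin.elim0) (ty1 := Fin.elim0)
    (ty2 := Fin.elim0) (p1 := OrderEmbedding.ofIsEmpty) (p2 := OrderEmbedding.ofIsEmpty)
    (q1 := OrderEmbedding.ofIsEmpty) (q2 := OrderEmbedding.ofIsEmpty) hT isEmptyElim isEmptyElim
    isEmptyElim isEmptyElim rfl isEmptyElim phi_empty phi_empty phi_empty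
    (fun _ => isEmptyElim) fun _ => isEmptyElim).imp fun _ h => h.1

/-- Port; start `Q_amal` from `(∅, ∅)`. -/
theorem exists_state (hp1 : ∀ c, ty (p1 c) = ty1 c) (hp2 : ∀ c, ty (p2 c) = ty2 c)
    (h : ∀ c1 c2, p1 c1 = p2 c2 → ∃ c0, q1 c0 = c1 ∧ q2 c0 = c2)
    (hs : ∀ c, (∃ c1, p1 c1 = c) ∨ ∃ c2, p2 c2 = c) {σ1 : State C1} {σ2 : State C2}
    (v1 : P.Val ty1 σ1) (v2 : P.Val ty2 σ2) (e : hmap q1 σ1.1 = hmap q2 σ2.1) {f0 : C0 → ℕ}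
    {k0 : Lb C0} (h0 : k0 ∈ P.Q ty0 f0) (d1 : lpre q1 σ1.2 ≤ k0) (d2 : lpre q2 σ2.2 ≤ k0) :
    ∃ σ, P.Val ty σ ∧ hmap p1 σ.1 = σ1.1 ∧ hmap p2 σ.1 = σ2.1 ∧ σ1.2 ≤ lpre p1 σ.2 ∧
      σ2.2 ≤ lpre p2 σ.2 ∧ σ.2.1 = k0.1 := by
  let X := ℕ × Ordinal.{0} × (ℕ → Ordinal.{0}) × (ℕ → Set Ordinal.{0})
  let u : ∀ {D : Type}, Hist D → D → X := fun h c =>
    (h.len c, h.st c, fun n => h.inp (c, n), fun n => h.pt (c, n))
  have : ∀ c, ∃ x : X, (∀ c1, p1 c1 = c → x = u σ1.1 c1) ∧ ∀ c2, p2 c2 = c → x = u σ2.1 c2 := by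
    intro c
    have key : ∀ c1 c2, p1 c1 = p2 c2 → u σ1.1 c1 = u σ2.1 c2 := fun c1 c2 k => by
      obtain ⟨c0, rfl, rfl⟩ := h _ _ k
      exact congrArg (u · c0) e
    rcases hs c with ⟨d, rfl⟩ | ⟨d, rfl⟩
    · exact ⟨_, fun c1 k => p1.injective k ▸ rfl, fun c2 k => key _ _ k.symm⟩
    · exact ⟨_, fun c1 k => (key _ _ k).symm, fun c2 k => p2.injective k ▸ rfl⟩
  choose x x1 x2 using this
  let H : Hist C := ⟨fun c => (x c).1, fun c => (x c).2.1, fun m => (x m.1).2.2.1 m.2,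
    fun m => (x m.1).2.2.2 m.2⟩
  have e1 : hmap p1 H = σ1.1 := by
    refine Hist.ext ?_ ?_ ?_ ?_ <;> funext m <;> simp only [hmap, H, x1 _ _ rfl, u]
  have e2 : hmap p2 H = σ2.1 := by
    refine Hist.ext ?_ ?_ ?_ ?_ <;> funext m <;> simp only [hmap, H, x2 _ _ rfl, u]
  obtain ⟨g, a1, -, a2, a3, a4⟩ := Q_amal hp1 hp2 h (f := H.len) (∅, ∅) (QL_empty (empty_PV _))
    σ1.2 (show _ ∈ P.Q ty1 (hmap p1 H).len from e1 ▸ v1.2) σ2.2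
    (show _ ∈ P.Q ty2 (hmap p2 H).len from e2 ▸ v2.2) k0 h0
    ⟨empty_subset _, fun _ k => k.elim⟩ ⟨empty_subset _, fun _ k => k.elim⟩ d1 d2
  refine ⟨(H, g), ⟨⟨fun c => ?_, fun m => ?_⟩, a1⟩, e1, e2, a2, a3, a4⟩
  · rcases hs c with ⟨d, rfl⟩ | ⟨d, rfl⟩
    exacts [(e1 ▸ v1.1).1 d, (e2 ▸ v2.1).1 d]
  · obtain ⟨c, n⟩ := m
    rcases hs c with ⟨d, rfl⟩ | ⟨d, rfl⟩
    exacts [hp1 d ▸ (e1 ▸ v1.1).2 (d, n), hp2 d ▸ (e2 ▸ v2.1).2 (d, n)]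

end Amalgam

/-- Sets of states that live at the level `c`. -/
def _root_.Pool.Agent.SC7292.LocT (c : Ordinal.{0}) (T : Set (State C)) : Prop :=
  ∀ σ ∈ T, (σ.1, rl c σ.2) ∈ T

theorem proj4_mk [Finite C] {c : Ordinal.{0}} (h : P.Bel ty c) (γ : Ordinal.{0}) (k : Stage γ)
    (l : c < γ) : #(({h | P.HOK ty h} ×ˢ {L | ∃ f q, (q, L) ∈ P.Q ty f} :
      Set (Hist C × Set (LA C)))) < lc γ.card := by
  have k' : Stage γ.card.ord := k.2.1.symm ▸ k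
  have h' : P.Bel ty γ.card.ord := h.mono (l.le.trans k.2.1.ge)
  obtain ⟨S, h1, h2⟩ := mk_atoms k' h'
  refine mk_prod_lt k.1.aleph0_lt.le (mk_hist k.1 h') ?_
  refine lt_of_le_of_lt (mk_le_mk_of_subset ?_) (mk_subsets k.1.isStrongLimit h1)
  rintro L ⟨f, q, a⟩
  exact h2 f _ _ a

/-- The localised set. -/
def proj4_set (P : Par) (ty : C → Ty) (c : Ordinal.{0}) (t : Set At) (R : Set (State C)) :
    Set (State C) :=
  {τ | P.Val ty τ ∧ res c t ⊆ τ.2.1 ∧ (τ.1, (res c τ.2.1 ∪ t, τ.2.2)) ∈ R}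

section

variable {c : Ordinal.{0}} {t : Set At} {R : Set (State C)}

theorem proj4_sub {q : Set At} (e : res c t ⊆ q) : res c t ⊆ res c q := fun _ a => ⟨e a, a.2⟩

theorem proj4_pv (hc : c ≤ P.Ω) (ht : t ∈ PV P.Ω) {q : Set At} (hq : q ∈ PV P.Ω)
    (e : res c t ⊆ q) : res c q ∪ t ∈ PV P.Ω := PV.amal (PV.res hq c) ht (proj4_sub e) hc

theorem proj4_loc (hb : P.b ≤ c) : LocT c (proj4_set P ty c t R) := fun τ k =>
  ⟨k.1.ext ((cut_rl hb).mem _ k.1.2), proj4_sub k.2.1, by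
    have := k.2.2
    rwa [← res_res (c := c) (d := c) (p := τ.2.1) le_rfl] at this⟩

theorem proj4_opn (hb : P.b ≤ c) (hc : c ≤ P.Ω) (ht : t ∈ PV P.Ω) (hR : P.Opn ty R) :
    P.Opn ty (proj4_set P ty c t R) := fun _ k => ⟨k.1, fun g a b =>
  ⟨k.1.ext a, k.2.1.trans b.1, (hR _ k.2.2).2 (res c g.1 ∪ t, g.2)
    (QL_up a (proj4_pv hc ht a.1 (k.2.1.trans b.1)) ((res_mono_left hb).trans subset_union_left))
    ⟨union_subset_union_left _ (res_mono b.1), b.2⟩⟩⟩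

theorem proj4_key (hc : c ≤ P.Ω) (ht : t ∈ PV P.Ω) (hR : P.Opn ty R) (hR' : P.Reg ty R)
    {τ : State C} (k : τ ∈ R) (e : t ⊆ τ.2.1)
    (H : ∃ s ∈ PV c, res c τ.2.1 ⊆ s ∧ ∃ q ∈ PV P.Ω, ((τ.1, (q, τ.2.2)) ∈ R ∨
      ∀ q' ∈ PV P.Ω, q ⊆ q' → (τ.1, (q', τ.2.2)) ∉ R) ∧ Sle (s ∪ t) q) :
    ∃ q ∈ PV P.Ω, τ.2.1 ⊆ q ∧ (τ.1, (q, τ.2.2)) ∈ proj4_set P ty c t R := by
  obtain ⟨s, a1, a2, q, a3, a4, a5⟩ := H
  have b1 : s ∪ τ.2.1 ∈ PV P.Ω := PV.amal a1 (hR τ k).1.2.1 a2 hc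
  have b2 : s ∪ t ∈ PV P.Ω := PV.amal a1 ht ((res_mono e).trans a2) hc
  have b3 : (τ.1, (q, τ.2.2)) ∈ R := a4.resolve_right fun n =>
    n _ ((a5.mono (union_subset_union_right _ e)).union_mem b1 a3) subset_union_right
      (hR.up k ((a5.mono (union_subset_union_right _ e)).union_mem b1 a3)
        (subset_union_right.trans subset_union_left))
  have b4 : (τ.1, (s ∪ t, τ.2.2)) ∈ R :=
    hR'.of_sle hR b3 (QL_sle (g := (q, τ.2.2)) (hR _ b3).1.2 b2 a5)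
      (lsle_of_sle (g := (q, τ.2.2)) a5)
  refine ⟨_, b1, subset_union_right, (hR _ (hR.up k b1 subset_union_right)).1,
    (res_sub _ _).trans (e.trans subset_union_right), ?_⟩
  change (τ.1, (res c (s ∪ τ.2.1) ∪ t, τ.2.2)) ∈ R
  rwa [res_amal a1 a2]

theorem proj4_closed {Φ : Phi C} (hΦ : P.PhiOK ty Φ) (hf : P.Fit ty Φ c) (hc : c ≤ P.Ω)
    (ht : t ∈ PV P.Ω) (hR : P.Closed ty Φ R)
    (key : ∀ τ ∈ R, t ⊆ τ.2.1 →
      ∃ q ∈ PV P.Ω, τ.2.1 ⊆ q ∧ (τ.1, (q, τ.2.2)) ∈ proj4_set P ty c t R) :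
    P.Closed ty Φ (proj4_set P ty c t R) := by
  have hb : P.b ≤ c := hf.bel.1.le
  refine ⟨proj4_opn hb hc ht hR.1, fun τ k d a hn => ?_⟩
  have l := hR.2 _ k.2.2 d a hn
  have e : res c (res c τ.2.1 ∪ t) ⊆ τ.2.1 := by
    rw [res_amal (PV.res k.1.2.1 c) (proj4_sub k.2.1)]
    exact res_sub _ _
  refine ⟨fun hk => hf.phi _ _ (res c τ.2.1 ∪ t, τ.2.2) _ ?_ ?_ _ k.1.2 ⟨e, subset_rfl⟩,
    fun hk => hf.un d hk (res c τ.2.1 ∪ t) _ ?_ ?_ _ k.1.2.1 e⟩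
  · rintro x g ⟨g0, ⟨b1, b2⟩, b3⟩
    refine ⟨rl c g0, ⟨fun β x1 x2 => ?_, proj4_loc hb _ b2⟩, (cut_rl (P := P) (ty := ty)
      (f := τ.1.len) (d := P.Ω) hb).mono b3⟩
    have := b1 β x1 x2
    rwa [← res_res hb] at this
  · refine (hΦ.pf (l.1 hk)).choose_spec.incl (l.1 hk) ?_
    rintro x g b1 b2 ⟨g0, ⟨b3, b4⟩, b5⟩
    obtain ⟨q, d1, d2, d3⟩ := key _ (hR.1.mv hk b5 b1 b4) (subset_union_right.trans b2.1)
    exact ⟨(q, g.2), QL_up' b1 d1 d2, ⟨d2, subset_rfl⟩,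
      hit_of_mem ⟨b3.mono (b5.trans ⟨d2, subset_rfl⟩), d3⟩⟩
  · rintro y g ⟨q, b1, b2⟩
    exact ⟨res c q, proj4_loc hb _ b1, res_mono b2⟩
  · refine (P.UN_uf hk).incl (l.2 hk) fun y g b1 b2 b3 => ?_
    obtain ⟨q, d1, d2, d3⟩ := key _ (hR.1.hit b1 b3) (subset_union_right.trans b2)
    exact ⟨q, d1, d2, hit_of_mem d3⟩

end

/-- Localisation. If `P.Ω ≤ c` take `t = t0`, `T' = T`. Otherwise apply `rds` for
`pvT (PV P.Ω)` with index set (valid histories `h`) × (subsets `L` of the set of `mk_atoms`) to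
the sets of `k` with `(h, (k, L)) ∈ reg T ∨ ∀ k' ∈ PV P.Ω, k ⊆ k' → (h, (k', L)) ∉ reg T`, and let
`T' = {τ | Val τ ∧ res c t ⊆ τ.2.1 ∧ (τ.1, (res c τ.2.1 ∪ t, τ.2.2)) ∈ reg T}`. Key fact: if
`(h, g) ∈ reg T` and `t ⊆ g.1`, there is `s ∈ PV c` containing `res c g.1` with
`(h, (s ∪ g.1, g.2)) ∈ T'` (`Reg.of_sle`, `QL_sle`, `lsle_of_sle`). For closedness at `τ ∈ T'`
start from largeness of `reg T` (`Closed.reg`) at `(τ.1, (res c τ.2.1 ∪ t, τ.2.2))`, pass to `T'`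
by `incl` and the key fact, and come down to `τ` by `Fit.phi`, `Fit.un`. -/
theorem exists_loc [Finite C] {Φ : Phi C} (hΦ : P.PhiOK ty Φ) {c : Ordinal.{0}}
    (hc : P.Fit ty Φ c) (hn : ¬ Stage c) {T : Set (State C)} (hT : P.Closed ty Φ T) {σ : State C}
    (hσ : σ ∈ T) {t0 : Set At} (h0 : t0 ∈ PV P.Ω) (e : σ.2.1 ⊆ t0) :
    ∃ t ∈ PV P.Ω, t0 ⊆ t ∧ res c t = res c t0 ∧ ∃ T', P.Closed ty Φ T' ∧ LocT c T' ∧
      (σ.1, (res c t0, σ.2.2)) ∈ T' ∧ (∀ τ ∈ T', ∃ g, (τ.1, g) ∈ T) ∧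
      ∀ τ ∈ T', t ⊆ τ.2.1 → τ ∈ P.reg ty T := by
  rcases le_or_gt P.Ω c with k | k
  · refine ⟨t0, h0, subset_rfl, rfl, T, hT, fun τ a => ?_, ?_, fun τ a => ⟨_, a⟩,
      fun τ a _ => hT.1.sub_reg a⟩
    · rwa [rl, PV.res_eq (hT.1 τ a).1.2.1 k]
    · rw [PV.res_eq h0 k]
      exact hT.1.up hσ h0 e
  have hb : P.b ≤ c := hc.bel.1.le
  obtain ⟨t, a1, a2, a3, a4⟩ := (pvT_ok P.Ω).rds k.le hn (proj4_mk hc.bel)
    (fun i q => (i.1.1, (q, i.1.2)) ∈ P.reg ty T ∨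
      ∀ q' ∈ PV P.Ω, q ⊆ q' → (i.1.1, (q', i.1.2)) ∉ P.reg ty T) h0 fun i q b _ => by
      by_cases n : ∀ q' ∈ PV P.Ω, q ⊆ q' → (i.1.1, (q', i.1.2)) ∉ P.reg ty T
      · exact ⟨q, b, le_rfl, Or.inr n⟩
      · simp only [not_forall, not_not] at n
        obtain ⟨q', x, y, z⟩ := n
        exact ⟨q', x, y, Or.inl z⟩
  have a2' : t0 ⊆ t := a2
  have a3' : res c t = res c t0 := a3
  have b0 : (t0, σ.2.2) ∈ P.Q ty σ.1.len := QL_up' (hT.1 σ hσ).1.2 h0 e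
  refine ⟨t, a1, a2', a3', proj4_set P ty c t (P.reg ty T),
    proj4_closed hΦ hc k.le a1 (hT.reg hΦ) fun τ x y =>
      proj4_key k.le a1 opn_reg reg_reg x y ?_, proj4_loc hb,
    ⟨(hT.1 σ hσ).1.ext ((cut_rl hb).mem _ b0), a3'.le, hT.1.sub_reg (hT.1.up hσ
      (proj4_pv k.le a1 (PV.mono (PV.res h0 c) k.le) a3'.le)
      ((e.trans a2').trans subset_union_right))⟩, fun τ x => ?_, fun τ x y => ?_⟩
  · obtain ⟨s, b1, b2, q, b3, -, b4, b5⟩ := a4 ⟨(τ.1, τ.2.2), x.1.1, _, _, x.1.2⟩ _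
      (PV.res x.1.2.1 c) (res_mono (a2'.trans y))
    exact ⟨s, b1, b2, q, b3, b4, b5⟩
  · obtain ⟨g, -, -, b⟩ := (mem_reg.1 x.2.2).2 _ x.2.2.1.2 le_rfl
    exact ⟨g, b⟩
  · exact (opn_reg _ x.2.2).2 τ.2 x.1.2 ⟨union_subset (res_sub _ _) y, subset_rfl⟩

end Par

end Pool.Agent.SC7292
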