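import Pool.Agent.SC7292.Tower
import Pool.Agent.Lib.ForcingU.RO

/-!
Names of filters over posets (larger is stronger); existence and amalgamation of names of
ultrafilters.
-/

namespace Pool.Agent.SC7292

open Cardinal Set Filter Pool.Agent.Lib.ForcingU Pool.Agent.MP_7b2404_lc

theorem RO.mem_iInf {P : Type*} [Preorder P] {ι : Sort*} {d : ι → RO P} {p : P} :
    p ∈ (⨅ i, d i).s ↔ ∀ i, p ∈ (d i).s := by
  rw [iInf, RO.mem_sInf]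
  simp

/-- Names of sets of points. -/
abbrev Nam (X : Type 1) : Type 1 := Set Ordinal.{0} → Set X

section

variable {X X0 X1 X2 : Type 1} [Preorder X] [Preorder X0] [Preorder X1] [Preorder X2]

/-- `g` puts `x` into the set named `N`. -/
def Hit (N : Nam X) (x : Set Ordinal.{0}) (g : X) : Prop := ∃ h ∈ N x, h ≤ g

theorem Hit.mono {N : Nam X} {x : Set Ordinal.{0}} {g g' : X} (h : Hit N x g) (h' : g ≤ g') :
    Hit N x g' := let ⟨k, a, b⟩ := h; ⟨k, a, b.trans h'⟩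

theorem hit_of_mem {N : Nam X} {x : Set Ordinal.{0}} {g : X} (h : g ∈ N x) : Hit N x g :=
  ⟨g, h, le_rfl⟩

/-- The name of the complement. -/
def perpN (Q : Set X) (N : Nam X) : Nam X := fun x => {h | ∀ h' ∈ Q, h ≤ h' → ¬ Hit N x h'}

/-- `k` decides whether `x` is in the set named `N`. -/
def Dcd (Q : Set X) (N : Nam X) (x : Set Ordinal.{0}) (k : X) : Prop :=
  Hit N x k ∨ k ∈ perpN Q N x

theorem dn_dcd (Q : Set X) (N : Nam X) (x : Set Ordinal.{0}) (g : X) : Dn Q g (Dcd Q N x) :=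
  fun k a _ => by
    by_cases h : k ∈ perpN Q N x
    · exact ⟨k, a, le_rfl, Or.inr h⟩
    · simp only [perpN, mem_setOf_eq, not_forall, not_not] at h
      obtain ⟨k', b, c, d⟩ := h
      exact ⟨k', b, c, Or.inl d⟩

/-- Names of fine complete filters. -/
structure PF (Q : Set X) (μ : Cardinal.{0}) (δ : Ordinal.{0}) (Φ : X → Nam X → Prop) : Prop where
  valid : ∀ {g N}, Φ g N → g ∈ Q
  mono : ∀ {g g' N}, Φ g N → g ≤ g' → g' ∈ Q → Φ g' N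
  incl : ∀ {g N N'}, Φ g N →
    (∀ x, ∀ g' ∈ Q, g ≤ g' → Hit N x g' → ∃ g'' ∈ Q, g' ≤ g'' ∧ Hit N' x g'') → Φ g N'
  inter : ∀ {ι : Type 1} {g} {N : ι → Nam X}, #ι < lc μ → g ∈ Q → (∀ i, Φ g (N i)) →
    Φ g fun x => {h | ∀ i, Dn Q h (Hit (N i) x)}
  proper : ∀ {g N}, Φ g N → ∃ x, ∃ g' ∈ Q, g ≤ g' ∧ Hit N x g'
  reg : ∀ {g N}, g ∈ Q → (∀ g' ∈ Q, g ≤ g' → ∃ g'' ∈ Q, g' ≤ g'' ∧ Φ g'' N) → Φ g N
  small : ∀ {g}, g ∈ Q → Φ g fun x => {_h | Pt μ δ x}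
  fine : ∀ {g ξ}, g ∈ Q → ξ < δ → Φ g fun x => {_h | ξ ∈ x}

/-- Names of fine complete ultrafilters. -/
structure UF (Q : Set X) (μ : Cardinal.{0}) (δ : Ordinal.{0}) (Φ : X → Nam X → Prop) :
    Prop extends PF Q μ δ Φ where
  ultra : ∀ {g} N, g ∈ Q → ∃ g' ∈ Q, g ≤ g' ∧ (Φ g' N ∨ Φ g' (perpN Q N))

variable {Q : Set X} {μ : Cardinal.{0}} {δ : Ordinal.{0}} {Φ : X → Nam X → Prop}

theorem PF.inter2 (h : PF Q μ δ Φ) (h0 : ℵ₀ ≤ μ) {g : X} {N N' : Nam X}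
    (h1 : Φ g N) (h2 : Φ g N') : Φ g fun x => {k | Hit N x k ∧ Hit N' x k} :=
  h.incl (h.inter (ι := ULift.{1} Bool) (N := fun b => cond b.down N N')
    ((lt_aleph0_of_finite _).trans_le (aleph0_le_lift.2 h0)) (h.valid h1)
    (by rintro ⟨_ | _⟩; exacts [h2, h1])) fun _ g' hg' _ ⟨_, hk, a⟩ =>
    let ⟨k, b1, b2, b3⟩ := hk ⟨true⟩ g' hg' a
    let ⟨k', c1, c2, c3⟩ := hk ⟨false⟩ k b1 (a.trans b2)
    ⟨k', c1, b2.trans c2, hit_of_mem ⟨b3.mono c2, c3⟩⟩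

theorem PF.proper2 (h : PF Q μ δ Φ) (h0 : ℵ₀ ≤ μ) {g : X} {N N' : Nam X}
    (h1 : Φ g N) (h2 : Φ g N') : ∃ x, ∃ g' ∈ Q, g ≤ g' ∧ Hit N x g' ∧ Hit N' x g' :=
  let ⟨x, g', a, b, _, c, d⟩ := h.proper (h.inter2 h0 h1 h2)
  ⟨x, g', a, b, c.1.mono d, c.2.mono d⟩

/-- Intersections of ground model sets. -/
theorem PF.all (h : PF Q μ δ Φ) {ι : Type 1} (hι : #ι < lc μ) {g : X} (hg : g ∈ Q)
    {p : ι → Set Ordinal.{0} → Prop} (H : ∀ i, Φ g fun x => {_h | p i x}) :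
    Φ g fun x => {_h | ∀ i, p i x} :=
  h.incl (h.inter hι hg H) fun _ g' a _ ⟨_, b, c⟩ =>
    ⟨g', a, le_rfl, hit_of_mem fun i => let ⟨_, _, _, _, d, _⟩ := b i g' a c; d⟩

/-- If no extension forces `N` to be large, its complement is large. -/
theorem UF.perp (h : UF Q μ δ Φ) {g : X} (hg : g ∈ Q) {N : Nam X}
    (H : ∀ g' ∈ Q, g ≤ g' → ¬ Φ g' N) : Φ g (perpN Q N) :=
  h.reg hg fun k a b => let ⟨k', c, d, e⟩ := h.ultra N a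
    ⟨k', c, d, e.resolve_left (H k' c (b.trans d))⟩

/-- Pull-back of names along a projection. -/
def pull (p : X → X1) (N : Nam X1) : Nam X := fun x => {h | Hit N x (p h)}

/-- `Φ'` extends `Φ` along the projection `p`. -/
def Cmp (Q' : Set X) (p : X → X1) (Φ : X1 → Nam X1 → Prop) (Φ' : X → Nam X → Prop) : Prop :=
  ∀ g ∈ Q', ∀ N, Φ (p g) N → Φ' g (pull p N)

/-- Projections of posets. -/
structure Prj (Q' : Set X) (Q : Set X1) (p : X → X1) : Prop where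
  mono : Monotone p
  map : ∀ g ∈ Q', p g ∈ Q
  lift : ∀ g ∈ Q', ∀ h ∈ Q, p g ≤ h → ∃ g' ∈ Q', g ≤ g' ∧ h ≤ p g'

theorem hit_pull {p : X → X1} (hp : Monotone p) {N : Nam X1} {x : Set Ordinal.{0}}
    {g : X} : Hit (pull p N) x g ↔ Hit N x (p g) :=
  ⟨fun ⟨_, a, b⟩ => a.mono (hp b), fun h => hit_of_mem h⟩

theorem UF.proj {Q1 : Set X1} {Q0 : Set X0} {q : X1 → X0} {Φ0 : X0 → Nam X0 → Prop}
    {Φ1 : X1 → Nam X1 → Prop} (h0 : UF Q0 μ δ Φ0) (h1 : UF Q1 μ δ Φ1) (hμ : ℵ₀ ≤ μ)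
    (hq : Prj Q1 Q0 q) (hc : Cmp Q1 q Φ0 Φ1) {g : X1} {N : Nam X1} (h : Φ1 g N) :
    Φ0 (q g) fun x => {k | ∃ h ∈ Q1, g ≤ h ∧ Hit N x h ∧ q h ≤ k} := by
  refine h0.reg (hq.map _ (h1.valid h)) fun k a b => ?_
  obtain ⟨k', c, d, e | e⟩ := h0.ultra (fun x => {k | ∃ h ∈ Q1, g ≤ h ∧ Hit N x h ∧ q h ≤ k}) a
  · exact ⟨k', c, d, e⟩
  · obtain ⟨g', f1, f2, f3⟩ := hq.lift g (h1.valid h) k' c (b.trans d)
    obtain ⟨x, t, t1, t2, t3, t4⟩ := h1.proper2 hμ (h1.mono h f2 f1)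
      (hc g' f1 _ (h0.mono e f3 (hq.map _ f1)))
    obtain ⟨u, u1, u2⟩ := (hit_pull hq.mono).1 t4
    exact (u1 _ (hq.map _ t1) u2 (hit_of_mem ⟨t, t1, f2.trans t2, t3, le_rfl⟩)).elim

/-- The regularisation of a finitely complete relation is a name of a filter. -/
theorem uf1_pf {R : X → Nam X → Prop}
    (hm : ∀ g g' N, R g N → g ≤ g' → g' ∈ Q → R g' N)
    (hi : ∀ g N N', g ∈ Q → R g N →
      (∀ x, ∀ g' ∈ Q, g ≤ g' → Hit N x g' → ∃ g'' ∈ Q, g' ≤ g'' ∧ Hit N' x g'') → R g N')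
    (h2 : ∀ g N N', g ∈ Q → R g N → R g N' → R g fun x => {k | Hit N x k ∧ Hit N' x k})
    (hp : ∀ g N, g ∈ Q → R g N → ∃ x, ∃ g' ∈ Q, g ≤ g' ∧ Hit N x g')
    (hs : ∀ g ∈ Q, R g fun x => {_h | Pt ℵ₀ δ x})
    (hf : ∀ g ∈ Q, ∀ ξ < δ, R g fun x => {_h | ξ ∈ x}) :
    PF Q ℵ₀ δ fun g N => g ∈ Q ∧ Dn Q g fun k => R k N where
  valid h := h.1
  mono h e a := ⟨a, h.2.mono e⟩
  incl h H := ⟨h.1, h.2.imp fun k a b c => hi k _ _ a c fun x g' d e f => H x g' d (b.trans e) f⟩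
  inter := by
    intro ι g N hι hg H
    refine ⟨hg, ?_⟩
    have hfin : Finite ι := by
      rw [lc, Cardinal.lift_aleph0] at hι
      exact Cardinal.lt_aleph0_iff_finite.1 hι
    have key : ∀ s : Finset ι,
        Dn Q g fun k => R k fun x => {h | ∀ i ∈ s, Dn Q h (Hit (N i) x)} := by
      classical
      intro s
      induction s using Finset.induction_on with
      | empty =>
        exact Dn.of fun k a _ => hi k _ _ a (hs k a) fun x g' d _ _ =>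
          ⟨g', d, le_rfl, hit_of_mem fun i hi => absurd hi (Finset.notMem_empty i)⟩
      | insert i s _ ih =>
        intro k a b
        obtain ⟨k1, c1, d1, e1⟩ := ih k a b
        obtain ⟨k2, c2, d2, e2⟩ := (H i).2 k1 c1 (b.trans d1)
        refine ⟨k2, c2, d1.trans d2, hi k2 _ _ c2 (h2 k2 _ _ c2 e2 (hm _ _ _ e1 d2 c2)) ?_⟩
        rintro x g' d _ ⟨h, ⟨f1, h', f2, f3⟩, f4⟩
        refine ⟨g', d, le_rfl, hit_of_mem fun j hj => ?_⟩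
        rcases Finset.mem_insert.1 hj with rfl | hj
        · exact Dn.of fun k' _ e => f1.mono (f4.trans e)
        · exact (f2 j hj).mono (f3.trans f4)
    have := Fintype.ofFinite ι
    exact (key Finset.univ).imp fun k a _ c => hi k _ _ a c fun x g' d _ ⟨h, f1, f2⟩ =>
      ⟨g', d, le_rfl, h, fun i => f1 i (Finset.mem_univ i), f2⟩
  proper := fun {g _} h =>
    let ⟨k, a, b, c⟩ := h.2 g h.1 le_rfl
    let ⟨x, g', d, e, f⟩ := hp k _ a c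
    ⟨x, g', d, b.trans e, f⟩
  reg := fun hg H => ⟨hg, Dn.dn fun k a b => let ⟨k', c, d, e⟩ := H k a b; ⟨k', c, d, e.2⟩⟩
  small := fun hg => ⟨hg, Dn.of fun k a _ => hs k a⟩
  fine := fun hg hξ => ⟨hg, Dn.of fun k a _ => hf k a _ hξ⟩

/-- The name of the set of points that lie in `M` if they lie in `N`. -/
def uf1_imp (Q : Set X) (N M : Nam X) : Nam X :=
  fun x => {h | ∀ h' ∈ Q, h ≤ h' → Hit N x h' → Dn Q h' (Hit M x)}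

theorem uf1_imp_of (h : PF Q μ δ Φ) {g : X} {N M : Nam X} (H : Φ g M) : Φ g (uf1_imp Q N M) :=
  h.incl H fun _ g' a _ c => ⟨g', a, le_rfl, hit_of_mem fun _ _ e _ =>
    Dn.of fun _ _ f => c.mono (e.trans f)⟩

theorem uf1_imp2 (h : PF Q ℵ₀ δ Φ) {g : X} {N M M' : Nam X} (H : Φ g (uf1_imp Q N M))
    (H' : Φ g (uf1_imp Q N M')) :
    Φ g (uf1_imp Q N fun x => {k | Hit M x k ∧ Hit M' x k}) := by
  refine h.incl (h.inter2 le_rfl H H') ?_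
  rintro x g' a _ ⟨k, ⟨⟨k1, b1, b2⟩, k2, c1, c2⟩, d⟩
  refine ⟨g', a, le_rfl, hit_of_mem fun h' e1 e2 e3 t t1 t2 => ?_⟩
  obtain ⟨u, u1, u2, u3⟩ := b1 h' e1 (b2.trans (d.trans e2)) e3 t t1 t2
  obtain ⟨v, v1, v2, v3⟩ := c1 h' e1 (c2.trans (d.trans e2)) e3 u u1 (t2.trans u2)
  exact ⟨v, v1, u2.trans v2, hit_of_mem ⟨u3.mono v2, v3⟩⟩

/-- A name whose complement is nowhere large can be added to a filter. -/
theorem uf1_add (h : PF Q ℵ₀ δ Φ) {g : X} {N : Nam X}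
    (H : ∀ g' ∈ Q, g ≤ g' → ¬ Φ g' (perpN Q N)) :
    PF Q ℵ₀ δ fun k M => k ∈ Q ∧ Dn Q k fun k' => Φ k' M ∨ (g ≤ k' ∧ Φ k' (uf1_imp Q N M)) := by
  refine uf1_pf (R := fun k' M => Φ k' M ∨ (g ≤ k' ∧ Φ k' (uf1_imp Q N M))) ?_ ?_ ?_ ?_
    (fun k a => Or.inl (h.small a)) fun k a ξ b => Or.inl (h.fine a b)
  · rintro k k' M (a | ⟨a, b⟩) c d
    · exact Or.inl (h.mono a c d)
    · exact Or.inr ⟨a.trans c, h.mono b c d⟩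
  · rintro k M M' _ (a | ⟨a, b⟩) c
    · exact Or.inl (h.incl a c)
    · refine Or.inr ⟨a, h.incl b ?_⟩
      rintro x g' d e ⟨k1, f1, f2⟩
      refine ⟨g', d, le_rfl, hit_of_mem fun h' e1 e2 e3 t t1 t2 => ?_⟩
      obtain ⟨u, u1, u2, u3⟩ := f1 h' e1 (f2.trans e2) e3 t t1 t2
      obtain ⟨v, v1, v2, v3⟩ := c x u u1 (e.trans (e2.trans (t2.trans u2))) u3
      exact ⟨v, v1, u2.trans v2, v3⟩
  · rintro k M M' _ (a | ⟨a, b⟩) (c | ⟨c, d⟩)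
    · exact Or.inl (h.inter2 le_rfl a c)
    · exact Or.inr ⟨c, uf1_imp2 h (uf1_imp_of h a) d⟩
    · exact Or.inr ⟨a, uf1_imp2 h b (uf1_imp_of h c)⟩
    · exact Or.inr ⟨a, uf1_imp2 h b d⟩
  · rintro k M hk (a | ⟨a, b⟩)
    · exact h.proper a
    · by_contra hn
      refine H k hk a (h.incl b ?_)
      rintro x g' d e ⟨k1, f1, f2⟩
      refine ⟨g', d, le_rfl, hit_of_mem fun h' e1 e2 e3 => ?_⟩
      obtain ⟨u, u1, u2, u3⟩ := f1 h' e1 (f2.trans e2) e3 h' e1 le_rfl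
      exact hn ⟨x, u, u1, e.trans (e2.trans u2), u3⟩

/-- The finitely complete case, by the lemma of Zorn (`zorn_le_nonempty₀` on the set of all `Ψ`
with `PF Q ℵ₀ δ Ψ`). An upper bound of a chain `c` is
`fun g N => g ∈ Q ∧ Dn Q g fun k => ∃ Ψ ∈ c, Ψ k N` (for `inter` use induction on the finite
index type). Let `Φ` be maximal, `g ∈ Q`, and suppose no extension of `g` has `Φ · (perpN Q N)`.
With `imp M x = {h | ∀ h' ∈ Q, h ≤ h' → Hit N x h' → Dn Q h' (Hit M x)}` the relation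
`fun k M => k ∈ Q ∧ Dn Q k fun k' => Φ k' M ∨ (g ≤ k' ∧ Φ k' (imp M))` is a `PF` above `Φ`
that holds of `g` and `N`. -/
theorem PF.ext_aleph0 {F : X → Nam X → Prop} (hF : PF Q ℵ₀ δ F) :
    ∃ Φ, UF Q ℵ₀ δ Φ ∧ ∀ g N, F g N → Φ g N := by
  obtain ⟨Φ, h1, h2⟩ := zorn_le_nonempty₀ {Ψ : X → Nam X → Prop | PF Q ℵ₀ δ Ψ} (by
    intro c hc hch y hy
    refine ⟨fun g N => g ∈ Q ∧ Dn Q g fun k => ∃ Ψ ∈ c, Ψ k N,
      uf1_pf (R := fun k N => ∃ Ψ ∈ c, Ψ k N) ?_ ?_ ?_ ?_ ?_ ?_, ?_⟩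
    · rintro g g' N ⟨Ψ, a, b⟩ d e
      exact ⟨Ψ, a, (hc a).mono b d e⟩
    · rintro g N N' _ ⟨Ψ, a, b⟩ d
      exact ⟨Ψ, a, (hc a).incl b d⟩
    · rintro g N N' _ ⟨Ψ, a, b⟩ ⟨Ψ', a', b'⟩
      rcases hch.total a a' with e | e
      · exact ⟨Ψ', a', PF.inter2 (hc a') le_rfl (e g N b) b'⟩
      · exact ⟨Ψ, a, PF.inter2 (hc a) le_rfl b (e g N' b')⟩
    · rintro g N _ ⟨Ψ, a, b⟩
      exact (hc a).proper b
    · exact fun g a => ⟨y, hy, (hc hy).small a⟩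
    · exact fun g a ξ b => ⟨y, hy, (hc hy).fine a b⟩
    · exact fun z hz g N a => ⟨(hc hz).valid a, Dn.of fun k b d => ⟨z, hz, (hc hz).mono a d b⟩⟩)
    F hF
  have h : PF Q ℵ₀ δ Φ := h2.prop
  refine ⟨Φ, ⟨h, fun {g} N hg => ?_⟩, fun g N a => h1 g N a⟩
  by_cases H : ∀ g' ∈ Q, g ≤ g' → ¬ Φ g' (perpN Q N)
  · refine ⟨g, hg, le_rfl, Or.inl (h2.le_of_ge (uf1_add h H) ?_ g N ⟨hg, ?_⟩)⟩
    · exact fun k M a => ⟨h.valid a, Dn.of fun k' b d => Or.inl (h.mono a d b)⟩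
    · exact Dn.of fun k a b => Or.inr ⟨b, h.incl (h.small a) fun x g' c _ _ =>
        ⟨g', c, le_rfl, hit_of_mem fun _ _ _ e => Dn.of fun _ _ f => e.mono f⟩⟩
  · simp only [not_forall, not_not] at H
    obtain ⟨g', a, b, c⟩ := H
    exact ⟨g', a, b, Or.inr c⟩

end

/-- Names of `κ`-complete filters over towers extend to names of ultrafilters. -/
def Extd (κ : Cardinal.{0}) : Prop :=
  ∀ (X : Type 1) [SemilatticeSup X] (T : Tw X) (b : Ordinal.{0}), T.OK b → κ.ord ≤ b →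
    Small.{0} T.Q → ∀ δ F, PF T.Q κ δ F → ∃ Φ, UF T.Q κ δ Φ ∧ ∀ g N, F g N → Φ g N

/-- Prepared cardinals. -/
structure Pre (κ : Cardinal.{0}) : Prop where
  reg : κ.IsRegular
  cc : CC κ.ord (lc κ)
  ext : Extd κ

theorem pre_aleph0 : Pre ℵ₀ :=
  ⟨isRegular_aleph0, cc_omega, fun _ _ _ _ _ _ _ _ _ h => h.ext_aleph0⟩

theorem le_stage {κ : Cardinal.{0}} (γ : Ordinal.{0}) (_ : Stage γ) (h : κ.ord ≤ γ) :
    lc κ ≤ lc γ.card := Cardinal.lift_le.2 (Cardinal.ord_le.1 h)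

variable {X X0 X1 X2 : Type 1} [SemilatticeSup X] [Preorder X0] [Preorder X1] [Preorder X2]
  {T : Tw X} {b δ : Ordinal.{0}} {μ : Cardinal.{0}}

theorem uf2_iUnion_lt {c : Cardinal.{0}} (hc : c.IsRegular) {ι Y : Type 1} (hι : #ι < lc c)
    (s : ι → Set Y) (hs : ∀ i, #(s i) < lc c) : #(⋃ i, s i) < lc c :=
  mk_iUnion_le_sum_mk.trans_lt (sum_lt_of_isRegular hc.lift hι hs)

/-- The form of `rd_anti` used for intersections. -/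
theorem uf2_anti (hT : T.OK b) (hμ : Pre μ) (hb : μ.ord ≤ b) {ι : Type 1} (hι : #ι < lc μ)
    (D : ι → X → Prop) {g : X} (hg : g ∈ T.Q) (hD : ∀ i, Dn T.Q g (D i)) :
    ∃ g' ∈ T.Q, g ≤ g' ∧ ∃ A : ι → Set (Set At × X), (∀ i, #(A i) < lc μ) ∧
      (∀ i, ∀ e ∈ A i, e.1 ∈ PV μ.ord ∧ e.2 ∈ T.Q ∧ D i e.2 ∧ T.sle (T.up e.1 ⊔ g') e.2) ∧
      (∀ i, ∀ e ∈ A i, ∀ e' ∈ A i, ∀ k ∈ T.Q, e.1 ⊆ T.gp k → e'.1 ⊆ T.gp k → e = e') ∧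
      ∀ i, ∀ k ∈ T.Q, g' ≤ k → ∃ e ∈ A i, ∃ k' ∈ T.Q, k ≤ k' ∧ T.up e.1 ⊔ g' ≤ k' ∧
        e.2 ≤ k' := by
  obtain ⟨g', a, c, d, A, hA⟩ := hT.rd_anti hb (aleph0_le_lift.2 hμ.reg.aleph0_le) le_stage
    hμ.cc hι D hg hD
  refine ⟨g', a, c, A, fun i => (hA i).1, fun i e he => ?_, fun i e he e' he' k hk x y => ?_,
    fun i k hk x => ?_⟩
  · obtain ⟨u1, -, u2, -, u3, u4⟩ := (hA i).2.1 e he
    exact ⟨u1, u2, u3, u4⟩
  · exact (hA i).2.2.1 e he e' he' _ (hT.res_mem hk _) (PV.sub_res ((hA i).2.1 e he).1 x)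
      (PV.sub_res ((hA i).2.1 e' he').1 y)
  · obtain ⟨e, he, s, hs, u, v⟩ := (hA i).2.2.2 _ (hT.res_mem hk μ.ord)
      (d ▸ res_mono (hT.gp_mono x))
    obtain ⟨-, -, u2, -, -, u4⟩ := (hA i).2.1 e he
    have w : T.up e.1 ⊔ g' ≤ T.up s ⊔ k := sup_le_sup (hT.up_mono v) x
    exact ⟨e, he, _, hT.cov u4 u2 (hT.amal hb hs hk u) w, le_sup_right.trans le_sup_left,
      w.trans le_sup_left, le_sup_right⟩

/-- Port of `exists_UF` (old file Amal). For `inter` apply `rd_anti` at the cut `μ.ord` (with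
`le_stage`, `Pre.cc`) and take the union of the small sets attached to all elements of all
antichains. -/
theorem exists_UF (hT : T.OK b) (hμ : Pre μ) (hb : μ.ord ≤ b) (hs : Small.{0} T.Q)
    (δ : Ordinal.{0}) : ∃ Φ, UF T.Q μ δ Φ := by
  have hr := hμ.reg
  let D : Nam X → X → Prop := fun N g => ∃ s, Pt μ δ s ∧ ∀ x, Pt μ δ x → s ⊆ x →
    ∀ h ∈ T.Q, g ≤ h → ∃ h' ∈ T.Q, h ≤ h' ∧ Hit N x h'
  have : PF T.Q μ δ fun g N => g ∈ T.Q ∧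
      ∀ g' ∈ T.Q, g ≤ g' → ∃ g'' ∈ T.Q, g' ≤ g'' ∧ D N g'' := by
    refine ⟨fun h => h.1, fun h a b => ⟨b, fun k c d => h.2 k c (a.trans d)⟩,
      fun h H => ⟨h.1, fun g' a b => ?_⟩, fun {ι g N} hι hg H => ⟨hg, fun g' a b => ?_⟩,
      fun h => ?_, fun hg H => ⟨hg, fun g' a b => ?_⟩, fun hg => ⟨hg, fun g' a _ => ?_⟩,
      fun {g ξ} hg hξ => ⟨hg, fun g' a _ => ?_⟩⟩
    · obtain ⟨g'', c, d, s, e, f⟩ := h.2 g' a b
      refine ⟨g'', c, d, s, e, fun x k l m n o => ?_⟩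
      obtain ⟨h', p, q, r⟩ := f x k l m n o
      obtain ⟨h'', t, u, v⟩ := H x h' p (b.trans (d.trans (o.trans q))) r
      exact ⟨h'', t, q.trans u, v⟩
    · obtain ⟨g'', c, d, A, A1, A2, -, A4⟩ := uf2_anti hT hμ hb hι (fun i => D (N i)) a
        fun i k x y => (H i).2 k x (b.trans y)
      choose s s1 s2 using fun i (e : A i) => (A2 i e e.2).2.2.1
      refine ⟨g'', c, d, ⋃ i, ⋃ e, s i e, ⟨iUnion₂_subset fun i e => (s1 i e).1,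
        uf2_iUnion_lt hr hι _ fun i => uf2_iUnion_lt hr (A1 i) _ fun e => (s1 i e).2⟩,
        fun x k l m n o => ⟨m, n, le_rfl, hit_of_mem fun i t u v => ?_⟩⟩
      obtain ⟨e, he, t', w1, w2, -, w4⟩ := A4 i t u (o.trans v)
      obtain ⟨h', p, q, r⟩ := s2 i ⟨e, he⟩ x k ((subset_iUnion₂ (s := s) i _).trans l) t' w1 w4
      exact ⟨h', p, w2.trans q, r⟩
    · obtain ⟨g'', c, d, s, e, f⟩ := h.2 _ h.1 le_rfl
      obtain ⟨h', p, q, r⟩ := f s e subset_rfl _ c le_rfl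
      exact ⟨s, h', p, d.trans q, r⟩
    · obtain ⟨g'', c, d, e⟩ := H g' a b
      obtain ⟨k, x, y, z⟩ := e.2 _ c le_rfl
      exact ⟨k, x, d.trans y, z⟩
    · exact ⟨g', a, le_rfl, ∅, ⟨empty_subset _, by simpa using hr.pos⟩,
        fun x k _ m n _ => ⟨m, n, le_rfl, hit_of_mem k⟩⟩
    · exact ⟨g', a, le_rfl, {ξ}, ⟨singleton_subset_iff.2 hξ, by
        simpa using one_lt_aleph0.trans_le hr.aleph0_le⟩,
        fun x _ l m n _ => ⟨m, n, le_rfl, hit_of_mem (l rfl)⟩⟩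
  exact (hμ.ext X T b hT hb hs δ _ this).imp fun _ h => h.1

/-- Mixing names along an antichain. -/
theorem uf2_mix {Q1 : Set X1} {p : X → X1} {Φ1 : X1 → Nam X1 → Prop} (h1 : PF Q1 μ δ Φ1)
    (hp : Prj T.Q Q1 p) {g : X} (hg : g ∈ T.Q) {A : Set (Set At × X)} {N : A → Nam X1}
    (hN : ∀ e : A, Φ1 (p e.1.2) (N e))
    (hA : ∀ k ∈ T.Q, g ≤ k → ∃ e ∈ A, ∃ k' ∈ T.Q, k ≤ k' ∧ T.up e.1 ⊔ g ≤ k' ∧ e.2 ≤ k') :
    Φ1 (p g) fun x => {h | ∃ e : A, p (T.up e.1.1 ⊔ g) ≤ h ∧ Hit (N e) x h} := by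
  refine h1.reg (hp.map _ hg) fun h a c => ?_
  obtain ⟨k, k1, k2, k3⟩ := hp.lift g hg h a c
  obtain ⟨e, he, k', w1, w2, w3, w4⟩ := hA k k1 k2
  exact ⟨p k', hp.map _ w1, k3.trans (hp.mono w2),
    h1.incl (h1.mono (hN ⟨e, he⟩) (hp.mono w4) (hp.map _ w1)) fun x t u v w =>
      ⟨t, u, le_rfl, hit_of_mem ⟨⟨e, he⟩, (hp.mono w3).trans v, w⟩⟩⟩

/-- Port of `UF.amal` (old file Amal). For `inter` apply `rd_anti` at the cut `μ.ord`, giving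
`g''` and antichains `A i` of pairs `e = (s, k)` with names `N1 i e`, `N2 i e`. Mix them:
`M1 i x = {h | ∃ e ∈ A i, p1 (T.up e.1 ⊔ g'') ≤ h ∧ Hit (N1 i e) x h}`; `Φ1 (p1 g'') (M1 i)`
holds by `reg`, `lift`, `amal`, `cov`. If `k ≥ g''` hits `M1 i` and `M2 i` by `e`, `e'`, then
`hs1`, `hs2` give `e.1, e'.1 ⊆ res μ.ord (T.gp k)`, so `e = e'`. -/
theorem UF.amal (hT : T.OK b) (hμ : Pre μ) (hb : μ.ord ≤ b) (hs : Small.{0} T.Q)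
    {Q0 : Set X0} {Q1 : Set X1} {Q2 : Set X2} {p1 : X → X1} {p2 : X → X2} {q1 : X1 → X0}
    {q2 : X2 → X0} {Φ0 : X0 → Nam X0 → Prop} {Φ1 : X1 → Nam X1 → Prop}
    {Φ2 : X2 → Nam X2 → Prop} (h0 : UF Q0 μ δ Φ0) (h1 : UF Q1 μ δ Φ1) (h2 : UF Q2 μ δ Φ2)
    (hp1 : Prj T.Q Q1 p1) (hp2 : Prj T.Q Q2 p2) (hq1 : Prj Q1 Q0 q1) (hq2 : Prj Q2 Q0 q2)
    (hc1 : Cmp Q1 q1 Φ0 Φ1) (hc2 : Cmp Q2 q2 Φ0 Φ2) (he : ∀ g, q1 (p1 g) = q2 (p2 g))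
    (ha : ∀ g ∈ T.Q, ∀ k1 ∈ Q1, ∀ k2 ∈ Q2, ∀ k0 ∈ Q0, p1 g ≤ k1 → p2 g ≤ k2 → q1 k1 ≤ k0 →
      q2 k2 ≤ k0 → ∃ g' ∈ T.Q, g ≤ g' ∧ k1 ≤ p1 g' ∧ k2 ≤ p2 g')
    (hs1 : ∀ s ∈ PV μ.ord, ∀ g k, p1 (T.up s ⊔ g) ≤ p1 k → s ⊆ T.gp k)
    (hs2 : ∀ s ∈ PV μ.ord, ∀ g k, p2 (T.up s ⊔ g) ≤ p2 k → s ⊆ T.gp k) :
    ∃ Φ, UF T.Q μ δ Φ ∧ Cmp T.Q p1 Φ1 Φ ∧ Cmp T.Q p2 Φ2 Φ := by
  have hr := hμ.reg.aleph0_le
  let D : Nam X → X → Prop := fun N g => ∃ N1 N2, Φ1 (p1 g) N1 ∧ Φ2 (p2 g) N2 ∧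
    ∀ x, ∀ h ∈ T.Q, g ≤ h → Hit N1 x (p1 h) → Hit N2 x (p2 h) → ∃ h' ∈ T.Q, h ≤ h' ∧ Hit N x h'
  have hD : ∀ N g g', D N g → g ≤ g' → g' ∈ T.Q → D N g' := fun N g g' ⟨N1, N2, a, b, c⟩ d e =>
    ⟨N1, N2, h1.mono a (hp1.mono d) (hp1.map _ e), h2.mono b (hp2.mono d) (hp2.map _ e),
      fun x h f k => c x h f (d.trans k)⟩
  have e1 : ∀ g ∈ T.Q, ∀ N, Φ1 (p1 g) N → D (pull p1 N) g := fun g hg N h =>
    ⟨N, _, h, h2.small (hp2.map _ hg), fun x k a _ b _ => ⟨k, a, le_rfl, hit_of_mem b⟩⟩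
  have e2 : ∀ g ∈ T.Q, ∀ N, Φ2 (p2 g) N → D (pull p2 N) g := fun g hg N h =>
    ⟨_, N, h1.small (hp1.map _ hg), h, fun x k a _ _ b => ⟨k, a, le_rfl, hit_of_mem b⟩⟩
  have : PF T.Q μ δ fun g N => g ∈ T.Q ∧
      ∀ g' ∈ T.Q, g ≤ g' → ∃ g'' ∈ T.Q, g' ≤ g'' ∧ D N g'' := by
    refine ⟨fun h => h.1, fun h a b => ⟨b, fun k c d => h.2 k c (a.trans d)⟩,
      fun h H => ⟨h.1, fun g' a b => ?_⟩, fun {ι g N} hι hg H => ⟨hg, fun g' a b => ?_⟩,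
      fun h => ?_, fun hg H => ⟨hg, fun g' a b => ?_⟩, fun hg => ⟨hg, fun g' a _ => ?_⟩,
      fun {g ξ} hg hξ => ⟨hg, fun g' a _ => ?_⟩⟩
    · obtain ⟨g'', c, d, N1, N2, e, e', f⟩ := h.2 g' a b
      refine ⟨g'', c, d, N1, N2, e, e', fun x m n o k l => ?_⟩
      obtain ⟨h', p, q, r⟩ := f x m n o k l
      obtain ⟨h'', t, u, v⟩ := H x h' p (b.trans (d.trans (o.trans q))) r
      exact ⟨h'', t, q.trans u, v⟩
    · obtain ⟨g'', c, d, A, -, A2, A3, A4⟩ := uf2_anti hT hμ hb hι (fun i => D (N i)) a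
        fun i k x y => (H i).2 k x (b.trans y)
      choose N1 N2 s1 s2 s3 using fun i (e : A i) => (A2 i e e.2).2.2.1
      refine ⟨g'', c, d, _, _,
        h1.inter hι (hp1.map _ c) fun i => uf2_mix h1.toPF hp1 c (s1 i) (A4 i),
        h2.inter hι (hp2.map _ c) fun i => uf2_mix h2.toPF hp2 c (s2 i) (A4 i),
        fun x m n o ⟨_, k, k'⟩ ⟨_, l, l'⟩ => ⟨m, n, le_rfl, hit_of_mem fun i t u v => ?_⟩⟩
      obtain ⟨y1, a1, a2, _, ⟨e, a3, a4⟩, a5⟩ := k i _ (hp1.map _ u) (k'.trans (hp1.mono v))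
      obtain ⟨t1, b1, b2, b3⟩ := hp1.lift t u y1 a1 a2
      obtain ⟨y2, c1, c2, _, ⟨e', c3, c4⟩, c5⟩ :=
        l i _ (hp2.map _ b1) (l'.trans (hp2.mono (v.trans b2)))
      obtain ⟨t2, d1, d2, d3⟩ := hp2.lift t1 b1 y2 c1 c2
      have f1 := a5.trans (b3.trans (hp1.mono d2))
      have f2 := c5.trans d3
      have g1 := hs1 _ (A2 i _ e.2).1 _ _ (a3.trans f1)
      have g2 := hs2 _ (A2 i _ e'.2).1 _ _ (c3.trans f2)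
      obtain rfl : e = e' := Subtype.ext (A3 i _ e.2 _ e'.2 _ d1 g1 g2)
      obtain ⟨h', p, q, r⟩ := s3 i e x _ (hT.cov (A2 i _ e.2).2.2.2 (A2 i _ e.2).2.1 d1
        (hT.up_sup_le g1 (o.trans (v.trans (b2.trans d2))))) le_sup_right
        (a4.mono (f1.trans (hp1.mono le_sup_left))) (c4.mono (f2.trans (hp2.mono le_sup_left)))
      exact ⟨h', p, b2.trans (d2.trans (le_sup_left.trans q)), r⟩
    · obtain ⟨g'', c, d, N1, N2, e, e', f⟩ := h.2 _ h.1 le_rfl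
      have a1 := h0.proj h1 hr hq1 hc1 e
      rw [he] at a1
      obtain ⟨x, k0, b1, -, ⟨_, ⟨k1, c1, c2, c3, c4⟩, c5⟩, _, ⟨k2, d1, d2, d3, d4⟩, d5⟩ :=
        h0.proper2 hr a1 (h0.proj h2 hr hq2 hc2 e')
      obtain ⟨t, t1, t2, t3, t4⟩ := ha _ c _ c1 _ d1 _ b1 c2 d2 (c4.trans c5) (d4.trans d5)
      obtain ⟨h', p, q, r⟩ := f x t t1 t2 (c3.mono t3) (d3.mono t4)
      exact ⟨x, h', p, d.trans (t2.trans q), r⟩
    · obtain ⟨g'', c, d, e⟩ := H g' a b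
      obtain ⟨k, x, y, z⟩ := e.2 _ c le_rfl
      exact ⟨k, x, d.trans y, z⟩
    · exact ⟨g', a, le_rfl, _, _, h1.small (hp1.map _ a), h2.small (hp2.map _ a),
        fun x m n _ ⟨_, k, _⟩ _ => ⟨m, n, le_rfl, hit_of_mem k⟩⟩
    · exact ⟨g', a, le_rfl, _, _, h1.fine (hp1.map _ a) hξ, h2.small (hp2.map _ a),
        fun x m n _ ⟨_, k, _⟩ _ => ⟨m, n, le_rfl, hit_of_mem k⟩⟩
  obtain ⟨Φ, a, b⟩ := hμ.ext X T b hT hb hs δ _ this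
  exact ⟨Φ, a, fun g hg N h => b _ _ ⟨hg, fun g' c d => ⟨g', c, le_rfl,
    hD _ _ _ (e1 g hg N h) d c⟩⟩, fun g hg N h => b _ _ ⟨hg, fun g' c d => ⟨g', c, le_rfl,
    hD _ _ _ (e2 g hg N h) d c⟩⟩⟩

theorem UF.ext1 (hT : T.OK b) (hμ : Pre μ) (hb : μ.ord ≤ b) (hs : Small.{0} T.Q)
    {Q1 : Set X1} {p : X → X1} {Φ1 : X1 → Nam X1 → Prop} (h1 : UF Q1 μ δ Φ1) (hp : Prj T.Q Q1 p)
    (hs1 : ∀ s ∈ PV μ.ord, ∀ g k, p (T.up s ⊔ g) ≤ p k → s ⊆ T.gp k) :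
    ∃ Φ, UF T.Q μ δ Φ ∧ Cmp T.Q p Φ1 Φ := by
  have e : Prj Q1 Q1 id := ⟨monotone_id, fun _ a => a, fun _ _ h a b => ⟨h, a, b, le_rfl⟩⟩
  have e' : Cmp Q1 id Φ1 Φ1 := fun g _ N h =>
    h1.incl h fun x g' a _ b => ⟨g', a, le_rfl, hit_of_mem b⟩
  obtain ⟨Φ, a, b, -⟩ := h1.amal hT hμ hb hs h1 h1 hp hp e e e' e' (fun _ => rfl)
    (fun g hg k1 _ k2 _ k0 a0 b1 _ d1 d2 =>
      let ⟨g', x, y, z⟩ := hp.lift g hg k0 a0 (b1.trans d1)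
      ⟨g', x, y, le_trans d1 z, le_trans d2 z⟩) hs1 hs1
  exact ⟨Φ, a, b⟩

end Pool.Agent.SC7292
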