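import Pool.Agent.SC7292.Ref
import Pool.Agent.SC7292.UF

/-!
Lifting of normal measures to names of ultrafilters over towers.
-/

namespace Pool.Agent.SC7292

open Cardinal Ordinal Set Filter Function Pool.Agent.MP_7b2404_lc

variable {X I : Type 1} [SemilatticeSup X] [Preorder I] (T : Tw X)
  (W : Ultrafilter (Set Ordinal.{0})) (ι : Set Ordinal.{0} → X → Set At)
  (Z : Set Ordinal.{0} → Set At → Set Ordinal.{0} → Prop) (r : I → Set Ordinal.{0} → X)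

/-- `s` decides the seed, and together with `r i x` puts it into the set named `N`. -/
def LM (i : I) (x : Set Ordinal.{0}) (N : Nam X) (s : Set At) : Prop :=
  ∃ z, Z x s z ∧ Dn T.Q (T.up s ⊔ r i x) (Hit N z)

/-- The lifted filter. -/
def LF (u : X) (N : Nam X) : Prop :=
  u ∈ T.Q ∧ ∃ i, ∀ᶠ x in (W : Filter (Set Ordinal.{0})), Dn (PV (kx x + 1)) (ι x u) (LM T Z r i x N)

/-- The index `i` decides the name `N`. -/
def SD (m : Set Ordinal.{0} → Set At) (i : I) (N : Nam X) : Prop :=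
  ∀ᶠ x in (W : Filter (Set Ordinal.{0})), ∀ s ∈ PV (kx x + 1), m x ⊆ s →
    ∃ s' ∈ PV (kx x + 1), s ⊆ s' ∧ ∃ z, Z x s' z ∧ ∃ k ∈ T.Q, Dcd T.Q N z k ∧
      T.sle (T.up s' ⊔ r i x) k

/-- Seeds and a chain of master conditions deciding all names. -/
structure Seed (κ : Cardinal.{0}) (m : Set Ordinal.{0} → Set At) (w : Set Ordinal.{0} → X) :
    Prop where
  mono : ∀ x s s' z, Z x s z → s ⊆ s' → Z x s' z
  func : ∀ᶠ x in (W : Filter (Set Ordinal.{0})), ∀ s ∈ PV (kx x + 1), ∀ z z',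
    Z x s z → Z x s z' → z = z'
  mem : ∀ i, ∀ᶠ x in (W : Filter (Set Ordinal.{0})),
    r i x ∈ T.Q ∧ w x ≤ r i x ∧ res (kx x + 1) (T.gp (r i x)) = m x
  chain : ∀ i j, i ≤ j → ∀ᶠ x in (W : Filter (Set Ordinal.{0})), T.sle (r j x) (r i x)
  bdd : ∀ (J : Type 1) (f : J → I), #J < lc κ → ∃ i, ∀ j, f j ≤ i
  dcd : ∀ N, ∃ i, SD T W Z r m i N

variable {T W ι Z r} {κ : Cardinal.{0}} {b l δ : Ordinal.{0}} {m : Set Ordinal.{0} → Set At}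
  {w : Set Ordinal.{0} → X}

/-- A negative decision is refuted above `up s' ⊔ r k x` for `k` an upper bound of `j` and the
index in `LF`. -/
theorem Seed.pos (h : Seed T W Z r κ m w) (hT : T.OK b) (hb : κ.ord ≤ b) (hW : NM κ (Iio l) W)
    (hl : κ.ord ≤ l) (h0 : ℵ₀ ≤ κ) (hR : Rf T W ι m w) {u : X} {N : Nam X}
    (H : LF T W ι Z r u N) {j : I} (hj : SD T W Z r m j N) :
    ∀ᶠ x in (W : Filter (Set Ordinal.{0})), Dn (PV (kx x + 1)) (ι x u) fun s' =>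
      ∃ z, Z x s' z ∧ ∃ k ∈ T.Q, Hit N z k ∧ T.sle (T.up s' ⊔ r j x) k := by
  obtain ⟨hu, i, H⟩ := H
  obtain ⟨k, hk⟩ := h.bdd (ULift.{1} Bool) (fun b => cond b.down i j)
    ((lt_aleph0_of_finite _).trans_le (aleph0_le_lift.2 h0))
  filter_upwards [H, hj, h.func, h.mem i, h.mem j, h.mem k, h.chain i k (hk ⟨true⟩),
    h.chain j k (hk ⟨false⟩), hR.io u hu, hW.kx_spec hl] with x a1 a2 a3 a4 a5 a6 a7 a8 a9 a0 s hs e
  have hc : kx x + 1 ≤ b := (Order.add_one_le_of_lt a0.1).trans hb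
  obtain ⟨s1, b1, b2, z, b3, b4⟩ := a1 s hs e
  have m1 : m x ⊆ s1 := a9.2.1.trans (Subset.trans e b2)
  obtain ⟨s2, c1, c2, z', c3, k0, c4, c5, c6⟩ := a2 s1 b1 m1
  obtain rfl : z = z' := a3 s2 c1 _ _ (h.mono _ _ _ _ b3 c2) c3
  refine ⟨s2, c1, Subset.trans b2 c2, z, c3, k0, c4, c5.resolve_right fun n => ?_, c6⟩
  have g := hT.amal hc c1 a6.1 (a6.2.2.subset.trans (m1.trans c2))
  have f := hT.trans (hT.sup (hT.sle_sub g c1 (hT.sub_gp _ _)) (hT.mono a8 le_sup_right)) c6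
    (hT.amal hc c1 a5.1 (a5.2.2.subset.trans (m1.trans c2)))
  obtain ⟨k', x1, x2, x3⟩ := hT.dn (hT.sup (hT.sle_sub g b1 (c2.trans (hT.sub_gp _ _)))
    (hT.mono a7 le_sup_right)) (hT.amal hc b1 a4.1 (a4.2.2.subset.trans m1)) b4 _
    (hT.sup_mem f g c4) le_sup_left
  exact n k' x1 (le_sup_right.trans x2) x3

theorem lift1_dn (hT : T.OK b) {g k : X} {N : Nam X} {z : Set Ordinal.{0}} (hk : k ∈ T.Q)
    (H : Hit N z k) (e : T.sle g k) : Dn T.Q g (Hit N z) :=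
  hT.dn e hk (Dn.of fun _ _ a => H.mono a)

theorem lift1_mono (hR : Rf T W ι m w) {g g' : X} (hg : g ∈ T.Q) (hg' : g' ∈ T.Q) (e : g ≤ g')
    {p : Set Ordinal.{0} → Set At → Prop}
    (H : ∀ᶠ x in (W : Filter (Set Ordinal.{0})), Dn (PV (kx x + 1)) (ι x g) (p x)) :
    ∀ᶠ x in (W : Filter (Set Ordinal.{0})), Dn (PV (kx x + 1)) (ι x g') (p x) := by
  filter_upwards [H, hR.mono g hg g' hg' e, hR.io g hg] with x a1 a2 a3
  exact (pvT_ok _).dn a2 a3.1 a1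

/-- A property that is not dense almost everywhere is refuted above an extension. -/
theorem lift1_key (hR : Rf T W ι m w) {g : X} (hg : g ∈ T.Q)
    {p : Set Ordinal.{0} → Set At → Prop}
    (H : ¬ ∀ᶠ x in (W : Filter (Set Ordinal.{0})), Dn (PV (kx x + 1)) (ι x g) (p x)) :
    ∃ u ∈ T.Q, g ≤ u ∧ ∀ᶠ x in (W : Filter (Set Ordinal.{0})), Dn (PV (kx x + 1)) (ι x u)
      fun s => ∀ s' ∈ PV (kx x + 1), s ⊆ s' → ¬ p x s' := by
  have e : ∀ x, ∃ s, ¬ Dn (PV (kx x + 1)) (ι x g) (p x) → (s ∈ PV (kx x + 1) ∧ ι x g ⊆ s) ∧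
      ∀ s' ∈ PV (kx x + 1), s ⊆ s' → ¬ p x s' := fun x => by
    by_cases a : Dn (PV (kx x + 1)) (ι x g) (p x)
    · exact ⟨∅, fun k => (k a).elim⟩
    · simp only [Dn, not_forall, not_exists, not_and] at a
      obtain ⟨s, a1, a2, a3⟩ := a
      exact ⟨s, fun _ => ⟨⟨a1, a2⟩, a3⟩⟩
  choose s hs using e
  have H' := (Ultrafilter.eventually_not.2 H).mono hs
  obtain ⟨u, a1, a2, a3⟩ := hR.key g hg s (H'.mono fun _ a => a.1)
  refine ⟨u, a1, a2, ?_⟩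
  filter_upwards [H', a3] with x b1 b2
  exact (pvT_ok _).dn b2 b1.1.1 (Dn.of fun t _ c s' d f => b1.2 s' d (Subset.trans c f))

/-- The lifted filter is an ultrafilter. `mono`: `Rf.mono` and `(pvT_ok _).dn`. `incl`:
everything above `up s ⊔ r i x` is compatible with `u` by `Rf.io`. `inter`: pass to an upper bound
of the indices; if `s` decides the seed then `up s ⊔ r i x` itself lies in the intersection
(amalgamate at the cut `kx x + 1 ≤ κ.ord`, use `func`). `reg` and `ultra`: `Seed.pos` and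
`Rf.key`. -/
theorem Seed.uf (h : Seed T W Z r κ m w) (hT : T.OK b) (hb : κ.ord ≤ b) (hW : NM κ (Iio l) W)
    (hl : κ.ord ≤ l) (h0 : ℵ₀ ≤ κ) (hR : Rf T W ι m w)
    (h1 : ∀ g ∈ T.Q, LF T W ι Z r g fun x => {_h | Pt κ δ x})
    (h2 : ∀ g ∈ T.Q, ∀ ξ < δ, LF T W ι Z r g fun x => {_h | ξ ∈ x}) :
    UF T.Q κ δ (LF T W ι Z r) := by
  have hc : ∀ᶠ x in (W : Filter (Set Ordinal.{0})), kx x + 1 ≤ b :=
    (hW.kx_spec hl).mono fun _ a => (Order.add_one_le_of_lt a.1).trans hb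
  refine ⟨⟨fun H => H.1, fun ⟨a, i, H⟩ e c => ⟨c, i, lift1_mono hR a c e H⟩, ?_, ?_, ?_, ?_,
    h1 _, fun a => h2 _ a _⟩, ?_⟩
  · rintro g N N' ⟨hg, i, H⟩ e
    refine ⟨hg, i, ?_⟩
    filter_upwards [H, hR.io g hg, h.mem i] with x a1 a2 a3
    refine a1.imp fun s b1 b2 ⟨z, b3, b4⟩ => ⟨z, b3, fun k c1 c2 => ?_⟩
    obtain ⟨k', d1, d2, d3⟩ := b4 _ (hT.cov (hT.mono (a2.2.2 s b1 b2)
      (sup_le_sup_left a3.2.1 _)) hg c1 c2) (c2.trans le_sup_left)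
    obtain ⟨k'', f1, f2, f3⟩ := e z k' d1 (le_sup_right.trans d2) d3
    exact ⟨k'', f1, le_sup_left.trans (d2.trans f2), f3⟩
  · intro J g N hJ hg H
    choose f hf using fun i => (H i).2
    obtain ⟨k, hk⟩ := h.bdd J f hJ
    obtain ⟨-, i0, H0⟩ := h1 g hg
    have := hW.ci
    refine ⟨hg, k, ?_⟩
    filter_upwards [H0, hc, hR.io g hg, h.func, (eventually_cardinal_forall hJ).2 fun i =>
      (hf i).and ((h.mem (f i)).and (h.chain _ _ (hk i)))] with x a1 a2 a3 a4 a5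
    refine a1.imp fun s b1 b2 ⟨z, b3, _⟩ => ⟨z, b3, Dn.of fun _ _ e => ⟨_, ?_, e⟩⟩
    intro i t c1 c2
    have c3 : s ⊆ res (kx x + 1) (T.gp t) := PV.sub_res b1 ((hT.sub_gp _ _).trans (hT.gp_mono c2))
    obtain ⟨s2, d1, d2, z', d3, d4⟩ := (a5 i).1 _ (hT.res_mem c1 _) (Subset.trans b2 c3)
    obtain rfl : z = z' := a4 s2 d1 _ _ (h.mono _ _ _ _ b3 (c3.trans d2)) d3
    have g1 := hT.amal a2 d1 c1 d2
    obtain ⟨k', f1, f2, f3⟩ := hT.dn (hT.sup (hT.sle_sub g1 d1 (hT.sub_gp _ _))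
      (hT.mono (a5 i).2.2 (le_sup_right.trans (c2.trans le_sup_right)))) (hT.amal a2 d1 (a5 i).2.1.1
      ((a5 i).2.1.2.2.subset.trans (a3.2.1.trans (Subset.trans b2 (c3.trans d2))))) d4 _ g1 le_rfl
    exact ⟨k', f1, le_sup_right.trans f2, f3⟩
  · rintro g N ⟨hg, i, H⟩
    obtain ⟨x, ⟨a1, a2⟩, a3, a4⟩ := ((H.and hc).and ((hR.io g hg).and (h.mem i))).exists
    obtain ⟨s, b1, b2, z, -, b4⟩ := a1 _ a3.1 le_rfl
    obtain ⟨k, d1, d2, d3⟩ := b4 _ (hT.sup_mem (hT.mono (a3.2.2 s b1 b2) (sup_le_sup_left a4.2.1 _))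
      (hT.amal a2 b1 a4.1 (a4.2.2.subset.trans (a3.2.1.trans b2))) hg) le_sup_left
    exact ⟨z, k, d1, le_sup_right.trans d2, d3⟩
  · intro g N hg H
    obtain ⟨j, hj⟩ := h.dcd N
    refine ⟨hg, j, by_contra fun n => ?_⟩
    obtain ⟨u, a1, a2, a3⟩ := lift1_key hR hg n
    obtain ⟨u', b1, b2, b3⟩ := H u a1 a2
    obtain ⟨x, ⟨c1, c2⟩, c3⟩ := (((lift1_mono hR a1 b1 b2 a3).and
      (h.pos hT hb hW hl h0 hR b3 hj)).and (hR.io u' b1)).exists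
    obtain ⟨s, d1, d2, d3⟩ := c1 _ c3.1 le_rfl
    obtain ⟨s', f1, f2, z, f3, k, f4, f5, f6⟩ := c2 s d1 d2
    exact d3 s' f1 f2 ⟨z, f3, lift1_dn hT f4 f5 f6⟩
  · intro g N hg
    obtain ⟨j, hj⟩ := h.dcd N
    by_cases n : ∀ᶠ x in (W : Filter (Set Ordinal.{0})),
      Dn (PV (kx x + 1)) (ι x g) (LM T Z r j x N)
    · exact ⟨g, hg, le_rfl, Or.inl ⟨hg, j, n⟩⟩
    obtain ⟨u, a1, a2, a3⟩ := lift1_key hR hg n
    refine ⟨u, a1, a2, Or.inr ⟨a1, j, ?_⟩⟩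
    filter_upwards [a3, hj, hR.io u a1] with x b1 b2 b3 s hs e
    obtain ⟨s1, c1, c2, c3⟩ := b1 s hs e
    obtain ⟨s2, d1, d2, z, d3, k, d4, d5, d6⟩ := b2 s1 c1 (b3.2.1.trans (Subset.trans e c2))
    exact ⟨s2, d1, Subset.trans c2 d2, z, d3, lift1_dn hT d4 (hit_of_mem (d5.resolve_left fun f =>
      c3 s2 d1 d2 ⟨z, d3, lift1_dn hT d4 f d6⟩)) d6⟩

theorem lift2_small {Y : Type 1} (h : Small.{0} Y) : ∃ a : Cardinal.{0}, #Y = lc a :=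
  ⟨_, (Cardinal.lift_mk_shrink''.{1, 0} Y).symm⟩

theorem lift2_names {X : Type 1} {Q : Set X} (hs : Small.{0} Q) (κ : Cardinal.{0}) (δ : Ordinal.{0}) :
    Small.{0} {N : Nam X | ∀ z, ∀ h ∈ N z, h ∈ Q ∧ Pt κ δ z} := by
  have := small_pt κ δ
  refine small_of_injective (f := fun N : {N : Nam X | ∀ z, ∀ h ∈ N z, h ∈ Q ∧ Pt κ δ z} =>
    fun z : {x // Pt κ δ x} => (Subtype.val ⁻¹' N.1 z.1 : Set Q)) fun a b e => ?_
  refine Subtype.ext (funext fun z => Set.ext fun h => ⟨fun k => ?_, fun k => ?_⟩)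
  · exact (Set.ext_iff.1 (congrFun e ⟨z, (a.2 z h k).2⟩) ⟨h, (a.2 z h k).1⟩).1 k
  · exact (Set.ext_iff.1 (congrFun e ⟨z, (b.2 z h k).2⟩) ⟨h, (b.2 z h k).1⟩).2 k

theorem lift2_large {Q : Set X} {F : X → Nam X → Prop} (hF : PF Q κ δ F) (N : Nam X) {g : X}
    (hg : g ∈ Q) : F g fun z => {h | Hit N z h ∨ ∀ h' ∈ Q, h ≤ h' → ¬ F h' N} := by
  refine hF.reg hg fun g' a _ => ?_
  by_cases k : ∃ h' ∈ Q, g' ≤ h' ∧ F h' N
  · obtain ⟨h', b, c, d⟩ := k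
    exact ⟨h', b, c, hF.incl d fun x t e _ f => ⟨t, e, le_rfl, hit_of_mem (Or.inl f)⟩⟩
  · exact ⟨g', a, le_rfl, hF.incl (hF.small a) fun x t e f _ => ⟨t, e, le_rfl,
      hit_of_mem (Or.inr fun h' b c d => k ⟨h', b, f.trans c, d⟩)⟩⟩

theorem lift2_pt (hT : T.OK b) {F : X → Nam X → Prop} (hF : PF T.Q κ δ F) (h0 : ℵ₀ ≤ κ)
    (E : Ordinal.{0} → Nam X) {x : Set Ordinal.{0}} {g : X} (hx : #x < lc κ)
    (hc : kx x + 1 ≤ b) (hm : #x < lc (fm (kx x)).card) (hg : g ∈ T.Q) :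
    ∃ (A : Set (Set At × X)) (zf : Set At × X → Set Ordinal.{0}) (r : X),
      (r ∈ T.Q ∧ g ≤ r ∧ res (kx x + 1) (T.gp r) = res (kx x + 1) (T.gp g)) ∧
      (∀ a ∈ A, a.2 ∈ T.Q ∧ T.sle (T.up a.1 ⊔ r) a.2 ∧ Pt κ δ (zf a) ∧ ∀ β ∈ x, Dn T.Q a.2
        (Hit (fun z => {h | Hit (E β) z h ∨ ∀ h' ∈ T.Q, h ≤ h' → ¬ F h' (E β)}) (zf a))) ∧
      (∀ a ∈ A, ∀ a' ∈ A, ∀ s ∈ PV (kx x + 1), a.1 ⊆ s → a'.1 ⊆ s → a = a') ∧
      (∀ s ∈ PV (kx x + 1), res (kx x + 1) (T.gp g) ⊆ s →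
        ∃ a ∈ A, ∃ s' ∈ PV (kx x + 1), s ⊆ s' ∧ a.1 ⊆ s') ∧
      ∀ β ∈ x, ∀ a ∈ A, ∀ s ∈ PV (kx x + 1), res (kx x + 1) (T.gp g) ⊆ s →
        ∃ s' ∈ PV (kx x + 1), s ⊆ s' ∧ ∃ k ∈ T.Q, Dcd T.Q (E β) (zf a) k ∧
          T.sle (T.up s' ⊔ r) k := by
  obtain ⟨μ, m1, m2, m3, -⟩ := exists_mu (not_stage_succ (kx x)) (a := 0)
    fun γ k _ => (aleph0_pos.trans_le (aleph0_le_lift.2 k.1.aleph0_lt.le))
  obtain ⟨g', a1, a2, a3, A, hA⟩ := hT.rd_anti hc m1 m2 m3 (ι := PUnit.{2})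
    ((lt_aleph0_of_finite _).trans_le m1)
    (fun _ k => ∃ z, Pt κ δ z ∧ ∀ β ∈ x, Dn T.Q k
      (Hit (fun z => {h | Hit (E β) z h ∨ ∀ h' ∈ T.Q, h ≤ h' → ¬ F h' (E β)}) z)) hg
    fun _ k hk _ => by
      obtain ⟨z, k', c1, c2, ⟨t, c3, c4⟩, _, c5, -⟩ := hF.proper2 h0
        (hF.inter (ι := x) hx hk fun i => lift2_large hF (E i.1) hk) (hF.small hk)
      exact ⟨k', c1, c2, z, c5, fun β hβ => (c3 ⟨β, hβ⟩).mono c4⟩
  obtain ⟨b1, b2, b3, b4⟩ := hA ⟨⟩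
  choose! zf z1 z2 using fun a (ha : a ∈ A ⟨⟩) => (b2 a ha).2.2.2.2.1
  obtain ⟨r, r1, r2, r3, r4⟩ := hT.rds hc (not_stage_succ (kx x)) (ι := x × A ⟨⟩)
    (fun γ k l => by
      rw [mk_prod, Cardinal.lift_id, Cardinal.lift_id]
      refine mul_lt_of_lt (aleph0_le_lift.2 k.1.aleph0_lt.le) (hm.trans_le ?_)
        (b1.trans_le (m2 γ k l.le))
      exact Cardinal.lift_le.2 (card_le_card (k.2.2 _ ((lt_add_one _).trans l)).le))
    (fun i => Dcd T.Q (E i.1.1) (zf i.2.1)) a1 fun _ => dn_dcd _ _ _ _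
  refine ⟨A ⟨⟩, zf, r, ⟨r1, a2.trans r2, r3.trans a3⟩, fun a ha => ⟨(b2 a ha).2.2.1,
    hT.mono (b2 a ha).2.2.2.2.2 (sup_le_sup_left r2 _), z1 a ha, z2 a ha⟩, b3, b4,
    fun β hβ a ha s hs e => ?_⟩
  obtain ⟨s', c1, c2, k, c3, -, c4, c5⟩ := r4 (⟨β, hβ⟩, ⟨a, ha⟩) s hs (a3 ▸ e)
  exact ⟨s', c1, c2, k, c3, c4, c5⟩

/-- Let `lam ≥ κ` bound `#T.Q` and the number of names `N` with `N z ⊆ T.Q`, `N z = ∅` unless
`Pt κ δ z`; enumerate these names as `E β`, `β < lam.ord`; take `W` from `Prep.menas` and the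
reflection data. Put `N' β z = {h | Hit (E β) z h ∨ ∀ h' ∈ T.Q, h ≤ h' → ¬ F h' (E β)}`; then
`F g (N' β)` for all `g ∈ T.Q`. For almost all `x`, by `inter` over `x`, `small`, `proper`: densely
many `k` have a point `z` with `Pt κ δ z` and `∀ β ∈ x, Dn T.Q k (Hit (N' β) z)`. Apply `rd_anti`
at the cut `kx x + 1` (`exists_mu`, `not_stage_succ`) above `w x`; the antichain `A` gives the
seed `Z x s z := ∃ a ∈ A, a.1 ⊆ s ∧ z = z a`. Apply `rds` to the sets `Dcd T.Q (E β) (z a)`,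
`β ∈ x`, `a ∈ A`, to get `r x`. The index type is `PUnit`. -/
theorem Prep.extd (h : Prep κ) : Extd κ := by
  intro X _ T b hT hb hs δ F hF
  have h0 : ℵ₀ ≤ κ := h.1.1.le
  obtain ⟨a1, e1⟩ := lift2_small hs
  obtain ⟨a2, e2⟩ := lift2_small (lift2_names hs κ δ)
  obtain ⟨lam, l0, l1, l2⟩ : ∃ lam : Cardinal.{0}, κ ≤ lam ∧ a1 ≤ lam ∧ a2 ≤ lam :=
    ⟨max κ (max a1 a2), le_max_left _ _, le_max_of_le_right (le_max_left _ _),
      le_max_of_le_right (le_max_right _ _)⟩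
  obtain ⟨E, -, hE⟩ := exists_enum (κ := lam) (e2.trans_le (Cardinal.lift_le.2 l2)) fun _ => ∅
  have hl : κ.ord ≤ lam.ord := Cardinal.ord_le_ord.2 l0
  obtain ⟨W, hW, hm⟩ := h.menas hl
  obtain ⟨ι, m, w, hR⟩ := exists_rf hT hb hW l0 h.1.stage (hW.cc hl h.1.stage)
    (e1.trans_le (Cardinal.lift_le.2 l1)) hm
  obtain ⟨o, -, -⟩ := hT.bot
  have : Nonempty X := ⟨o⟩
  choose! A zf r H using fun (x : Set Ordinal.{0}) (k : #x < lc κ ∧ kx x + 1 ≤ b ∧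
    #x < lc (fm (kx x)).card ∧ w x ∈ T.Q) => lift2_pt hT hF h0 E k.1 k.2.1 k.2.2.1 k.2.2.2
  have H' := ((hW.pt.and ((hW.kx_spec hl).and (hm.and hR.mem))).mono fun x k =>
    And.intro k.2.2.2.2.2 (H x ⟨k.1.2, (Order.add_one_le_of_lt k.2.1.1).trans hb, k.2.2.1,
      k.2.2.2.2.1⟩))
  have hN : ∀ N : Nam X, ∃ β, E β = (fun z => {h | h ∈ T.Q ∧ Pt κ δ z ∧ Hit N z h}) ∧
      ∀ᶠ x in (W : Filter (Set Ordinal.{0})), β ∈ x := fun N =>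
    let ⟨β, a, c⟩ := hE (fun z => {h | h ∈ T.Q ∧ Pt κ δ z ∧ Hit N z h})
      fun _ _ k => ⟨k.1, k.2.1⟩
    ⟨β, c, hW.fine β a⟩
  have hS : Seed T W (fun x s z => ∃ a ∈ A x, a.1 ⊆ s ∧ z = zf x a)
      (fun (_ : PUnit.{2}) => r) κ m w := by
    refine ⟨fun x s s' z ⟨a, c1, c2, c3⟩ e => ⟨a, c1, c2.trans e, c3⟩, H'.mono ?_,
      fun _ => H'.mono fun x k => ⟨k.2.1.1, k.2.1.2.1, k.2.1.2.2.trans k.1⟩,
      fun _ _ _ => H'.mono fun x k => hT.of_le k.2.1.1 k.2.1.1 le_rfl,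
      fun _ _ _ => ⟨⟨⟩, fun _ => le_rfl⟩, fun N => ⟨⟨⟩, ?_⟩⟩
    · rintro x k s hs _ _ ⟨a, c1, c2, rfl⟩ ⟨a', d1, d2, rfl⟩
      rw [k.2.2.2.1 a c1 a' d1 s hs c2 d2]
    · obtain ⟨β, c, d⟩ := hN N
      filter_upwards [H', d] with x k hβ s hs e
      obtain ⟨k0, -, k2, -, k4, k5⟩ := k
      rw [← k0] at e
      obtain ⟨a, c1, s1, c2, c3, c4⟩ := k4 s hs e
      obtain ⟨s', d1, d2, t, d3, d4, d5⟩ := k5 β hβ a c1 s1 c2 (e.trans c3)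
      refine ⟨s', d1, c3.trans d2, _, ⟨a, c1, c4.trans d2, rfl⟩, t, d3, ?_, d5⟩
      rw [c] at d4
      rcases d4 with ⟨u, u1, u2⟩ | d4
      · exact Or.inl (u1.2.2.mono u2)
      · exact Or.inr fun u u1 u2 u3 => d4 u u1 u2 (hit_of_mem ⟨u1, (k2 a c1).2.2.1, u3⟩)
  have key : ∀ g N, F g N → LF T W ι (fun x s z => ∃ a ∈ A x, a.1 ⊆ s ∧ z = zf x a)
      (fun (_ : PUnit.{2}) => r) g N := by
    intro g N hg
    have gq := hF.valid hg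
    obtain ⟨β, c, d⟩ := hN N
    have hβ : F g (E β) := by
      rw [c]
      exact hF.incl (hF.inter2 h0 hg (hF.small gq)) fun z t t1 _ ⟨u, ⟨u1, _, u2, _⟩, u3⟩ =>
        ⟨t, t1, le_rfl, hit_of_mem ⟨t1, u2, u1.mono u3⟩⟩
    refine ⟨gq, ⟨⟩, ?_⟩
    filter_upwards [H', d, hR.io g gq] with x k hx hi s hs e
    obtain ⟨k0, k1, k2, -, k4, -⟩ := k
    obtain ⟨a, c1, s1, c2, c3, c4⟩ := k4 s hs (k0 ▸ hi.2.1.trans e)
    refine ⟨s1, c2, c3, _, ⟨a, c1, c4, rfl⟩, fun t t1 t2 => ?_⟩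
    obtain ⟨q1, q2, -, q3⟩ := k2 a c1
    have p1 : t ⊔ g ∈ T.Q :=
      hT.cov (hi.2.2 s1 c2 (e.trans c3)) gq t1 ((sup_le_sup_left k1.2.1 _).trans t2)
    have p2 : t ⊔ g ⊔ a.2 ∈ T.Q := hT.cov q2 q1 p1
      ((sup_le_sup_right (hT.up_mono c4) _).trans (t2.trans le_sup_left))
    obtain ⟨u, u1, u2, v, v1, v2⟩ := q3 β hx _ p2 le_sup_right
    refine ⟨u, u1, le_sup_left.trans (le_sup_left.trans u2), ?_⟩
    rcases v1 with v1 | v1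
    · rw [c] at v1
      obtain ⟨y, y1, y2⟩ := v1
      exact y1.2.2.mono (y2.trans v2)
    · exact (v1 u u1 v2 (hF.mono hβ (le_sup_right.trans (le_sup_left.trans u2)) u1)).elim
  exact ⟨_, hS.uf hT hb hW hl h0 hR (fun g a => key g _ (hF.small a))
    fun g a ξ c => key g _ (hF.fine a c), key⟩

theorem Prep.pre (h : Prep κ) : Pre κ :=
  let ⟨_, a⟩ := h.1.nm κ.ord
  ⟨h.1.inacc.isRegular, a.cc le_rfl h.1.stage, h.extd⟩

/-- Large sets contain large sets given by one condition for each point. -/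
def Sg {X : Type 1} [Preorder X] (Q : Set X) (W : Ultrafilter (Set Ordinal.{0}))
    (Φ : X → Nam X → Prop) : Prop := ∀ g N, Φ g N → ∃ g' ∈ Q, g ≤ g' ∧
  ∃ h : Set Ordinal.{0} → X, (∀ᶠ x in (W : Filter (Set Ordinal.{0})), h x ∈ Q ∧ Hit N x (h x)) ∧
    Φ g' fun x => {h x}

theorem lift3_mk {lam : Cardinal.{0}} (i : Iio (Order.succ lam).ord) : #(Iio i) ≤ lc lam := by
  have h1 : #(Iio i) ≤ #(Iio i.1) :=
    mk_le_of_injective (f := fun j : Iio i => (⟨j.1.1, j.2⟩ : Iio i.1))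
      fun j k e => Subtype.ext (Subtype.ext (congrArg (fun t : Iio i.1 => t.1) e))
  have h2 := mk_Iio_lt i.2
  rw [lc, Cardinal.lift_succ] at h2
  exact h1.trans (Order.lt_succ_iff.1 h2)

/-- A chain of master conditions of length `lam⁺`. Use `exists_seq` on `Iio (succ lam).ord`. At
step `i` fix an injection `φ` of `Iio i` into `Iio lam.ord` (`exists_code`); for almost all `x`
the `r j x` with `φ j ∈ x` form a chain (`diag` twice) above `w x`; apply `cl` at the cut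
`kx x + 1` to these and `w x` (a stage above `kx x` is above `fm (kx x)`), join with `w x`, and
decide `E i` at `x` by `rds`. -/
theorem exists_chain (hT : T.OK b) (hb : κ.ord ≤ b) {lam : Cardinal.{0}}
    (hW : NM κ (Iio lam.ord) W) (hl : κ ≤ lam) (h0 : ℵ₀ ≤ κ) (hR : Rf T W ι m w)
    (hm : ∀ᶠ x : Set Ordinal.{0} in (W : Filter (Set Ordinal.{0})), #x < lc (fm (kx x)).card)
    (E : Ordinal.{0} → Nam X) : ∃ r : Iio (Order.succ lam).ord → Set Ordinal.{0} → X, ∀ i,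
      (∀ᶠ x in (W : Filter (Set Ordinal.{0})), (r i x ∈ T.Q ∧ w x ≤ r i x ∧
        res (kx x + 1) (T.gp (r i x)) = m x) ∧ ∀ s ∈ PV (kx x + 1), m x ⊆ s →
        ∃ s' ∈ PV (kx x + 1), s ⊆ s' ∧ ∃ k ∈ T.Q, Dcd T.Q (E i) x k ∧ T.sle (T.up s' ⊔ r i x) k) ∧
      ∀ j < i, ∀ᶠ x in (W : Filter (Set Ordinal.{0})), T.sle (r i x) (r j x) := by
  classical
  have : Nonempty (Set Ordinal.{0} → X) := ⟨w⟩
  refine exists_seq (ι := Iio (Order.succ lam).ord) (Y := Set Ordinal.{0} → X) (· < ·)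
    wellFounded_lt
    (fun i y => ∀ᶠ x in (W : Filter (Set Ordinal.{0})), (y x ∈ T.Q ∧ w x ≤ y x ∧
        res (kx x + 1) (T.gp (y x)) = m x) ∧ ∀ s ∈ PV (kx x + 1), m x ⊆ s →
        ∃ s' ∈ PV (kx x + 1), s ⊆ s' ∧ ∃ k ∈ T.Q, Dcd T.Q (E i) x k ∧ T.sle (T.up s' ⊔ y x) k)
    (fun _ _ y z => ∀ᶠ x in (W : Filter (Set Ordinal.{0})), T.sle (y x) (z x))
    (fun i F hF => ?_) fun _ _ _ => lt_trans
  obtain ⟨φ, f1, f2⟩ := exists_code (κ := lam) (h0.trans hl) (Iio i)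
  have f3 : InjOn φ (Iio i) := f2 (lift3_mk i)
  have a1 := hW.diag (fun x ξ => ∀ j < i, φ j = ξ → F j x ∈ T.Q ∧ w x ≤ F j x ∧
      res (kx x + 1) (T.gp (F j x)) = m x) fun ξ _ => by
    by_cases k : ∃ j < i, φ j = ξ
    · obtain ⟨j, hj, rfl⟩ := k
      filter_upwards [(hF j hj).1] with x hx j' hj' e
      rw [f3 hj' hj e]
      exact hx.1
    · exact Eventually.of_forall fun x j hj e => (k ⟨j, hj, e⟩).elim
  have a2 := hW.diag (fun x ξ => ∀ η ∈ x, ∀ j < i, ∀ k < j, φ j = ξ → φ k = η →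
      T.sle (F j x) (F k x)) fun ξ _ => hW.diag _ fun η _ => by
    by_cases k : ∃ j < i, ∃ k < j, φ j = ξ ∧ φ k = η
    · obtain ⟨j, hj, k, hk, rfl, rfl⟩ := k
      filter_upwards [(hF j hj).2 k hk] with x hx j' hj' k' hk' e e'
      rw [f3 hj' hj e, f3 (hk'.trans hj') (hk.trans hj) e']
      exact hx
    · exact Eventually.of_forall fun x j hj k' hk e e' => (k ⟨j, hj, k', hk, e, e'⟩).elim
  have key : ∀ᶠ x in (W : Filter (Set Ordinal.{0})), ∃ y, ((y ∈ T.Q ∧ w x ≤ y ∧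
      res (kx x + 1) (T.gp y) = m x) ∧ ∀ s ∈ PV (kx x + 1), m x ⊆ s →
        ∃ s' ∈ PV (kx x + 1), s ⊆ s' ∧ ∃ k ∈ T.Q, Dcd T.Q (E i) x k ∧ T.sle (T.up s' ⊔ y) k) ∧
      ∀ j < i, φ j ∈ x → T.sle y (F j x) := by
    filter_upwards [a1, a2, hR.mem, hm, hW.kx_spec (Cardinal.ord_le_ord.2 hl)] with
      x x1 x2 x3 x4 x5
    have hc : kx x + 1 ≤ b := (Order.add_one_le_of_lt x5.1).trans hb
    let J : Type 1 := {j : Iio (Order.succ lam).ord // j < i ∧ φ j ∈ x}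
    let u : Option J → X := fun o => o.elim (w x) fun j => F j.1 x
    have u1 : ∀ o, u o ∈ T.Q ∧ w x ≤ u o ∧ res (kx x + 1) (T.gp (u o)) = m x := by
      rintro (_ | j)
      · exact ⟨x3.2.1, le_rfl, x3.2.2⟩
      · exact x1 _ j.2.2 _ j.2.1 rfl
    have u2 : ∀ o o', T.sle (u o) (u o') ∨ T.sle (u o') (u o) := by
      rintro (_ | j) (_ | k)
      · exact Or.inl (hT.of_le x3.2.1 x3.2.1 le_rfl)
      · exact Or.inr (hT.of_le (u1 _).1 x3.2.1 (u1 (some k)).2.1)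
      · exact Or.inl (hT.of_le (u1 _).1 x3.2.1 (u1 (some j)).2.1)
      · rcases lt_trichotomy j.1 k.1 with e | e | e
        · exact Or.inr (x2 _ k.2.2 _ j.2.2 _ k.2.1 _ e rfl rfl)
        · rw [Subtype.ext e]
          exact Or.inl (hT.of_le (u1 _).1 (u1 _).1 le_rfl)
        · exact Or.inl (x2 _ j.2.2 _ k.2.2 _ j.2.1 _ e rfl rfl)
    have hJ : #J ≤ #x := mk_le_of_injective (f := fun j : J => (⟨φ j.1, j.2.2⟩ : x))
      fun j k e => Subtype.ext (f3 j.2.1 k.2.1 (congrArg Subtype.val e))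
    obtain ⟨v, v1, v2, v3⟩ := hT.cl (u := u) (s0 := m x) hc (fun γ g1 g2 => by
      have g0 : ℵ₀ ≤ lc γ.card := aleph0_le_lift.2 g1.1.aleph0_lt.le
      rw [mk_option]
      exact add_lt_of_lt g0 (hJ.trans_lt (x4.trans_le (Cardinal.lift_le.2 (card_le_card
        (g1.2.2 _ ((lt_add_one _).trans_le g2)).le)))) (one_lt_aleph0.trans_le g0))
      (fun o => (u1 o).1) x3.1 fun o o' s s1 s2 s3 s4 => ⟨s, s1, subset_rfl, by
        rcases u2 o o' with e | e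
        · exact ⟨o, s3, hT.mono (hT.of_le (u1 o).1 (u1 o).1 le_rfl) le_sup_right,
            hT.mono e le_sup_right⟩
        · exact ⟨o', s4, hT.mono e le_sup_right,
            hT.mono (hT.of_le (u1 o').1 (u1 o').1 le_rfl) le_sup_right⟩⟩
    have v4 : ∀ o, T.sle v (u o) := fun o =>
      hT.mono (v3 o _ x3.1 subset_rfl (u1 o).2.2.subset)
        (hT.up_sup_le (v2.symm.subset.trans (res_sub _ _)) le_rfl)
    have v5 : v ⊔ w x ∈ T.Q := hT.sup_mem (v4 none) v1 x3.2.1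
    have v6 : res (kx x + 1) (T.gp (v ⊔ w x)) = m x := by
      rw [hT.gp_sup, res_union, v2, x3.2.2, union_self]
    obtain ⟨y, y1, y2, y3, y4⟩ := hT.rds hc (not_stage_succ _) (ι := PUnit.{2}) (fun γ g1 _ => by
      rw [mk_punit]
      exact one_lt_aleph0.trans_le (aleph0_le_lift.2 g1.1.aleph0_lt.le))
      (fun _ => Dcd T.Q (E i) x) v5 fun _ => dn_dcd _ _ _ _
    refine ⟨y, ⟨⟨y1, le_sup_right.trans y2, y3.trans v6⟩, fun s s1 s2 => ?_⟩, fun j hj hx =>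
      hT.mono (v4 (some ⟨j, hj, hx⟩)) (le_sup_left.trans y2)⟩
    obtain ⟨s', b1, b2, k, b3, -, b4, b5⟩ := y4 PUnit.unit s s1 (v6.subset.trans s2)
    exact ⟨s', b1, b2, k, b3, b4, b5⟩
  obtain ⟨y, hy⟩ := key.choice
  refine ⟨y, hy.mono fun x hx => hx.1, fun j hj => ?_⟩
  filter_upwards [hy, hW.fine _ (f1 j)] with x x1 x2 using x1.2 j hj x2

theorem lift3_names {X : Type 1} (Q : Set X) {lam : Cardinal.{0}} (h0 : ℵ₀ ≤ lam)
    (hQ : #Q ≤ lc lam) (hp : #{x | Pt κ lam.ord x} ≤ lc lam) (h2 : 2 ^ lam ≤ Order.succ lam) :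
    #{N : Nam X | ∀ z, ∀ k ∈ N z, k ∈ Q ∧ Pt κ lam.ord z} ≤ lc (Order.succ lam) := by
  have a1 : #{N : Nam X | ∀ z, ∀ k ∈ N z, k ∈ Q ∧ Pt κ lam.ord z} ≤
      #(Set ({x | Pt κ lam.ord x} × Q)) :=
    mk_le_of_injective (f := fun N => {e | e.2.1 ∈ N.1 e.1.1}) fun N N' e =>
      Subtype.ext (funext fun z => Set.ext fun k =>
        ⟨fun a => (Set.ext_iff.1 e (⟨z, (N.2 z k a).2⟩, ⟨k, (N.2 z k a).1⟩)).1 a,
          fun a => (Set.ext_iff.1 e (⟨z, (N'.2 z k a).2⟩, ⟨k, (N'.2 z k a).1⟩)).2 a⟩)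
  refine a1.trans ?_
  rw [mk_set, mk_prod, Cardinal.lift_id, Cardinal.lift_id]
  refine (power_le_power_left two_ne_zero ((mul_le_mul' hp hQ).trans_eq
    (mul_eq_self (aleph0_le_lift.2 h0)))).trans ?_
  rw [← lift_two_power]
  exact Cardinal.lift_le.2 h2

/-- The seed is `x` itself. There are at most `2 ^ lam ≤ lam⁺` names `N` with `N z ⊆ T.Q` and
`N z = ∅` unless `Pt κ lam.ord z`; enumerate them and use `exists_chain`, `Seed.uf`. For `Sg` use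
`Seed.pos` and `Rf.key`. -/
theorem Prep.upper (h : Prep κ) (hT : T.OK b) (hb : κ.ord ≤ b) {lam : Cardinal.{0}} (hl : κ ≤ lam)
    (hQ : #T.Q ≤ lc lam) (hp : #{x | Pt κ lam.ord x} ≤ lc lam) (h2 : 2 ^ lam ≤ Order.succ lam) :
    ∃ W Φ, NM κ (Iio lam.ord) W ∧ UF T.Q κ lam.ord Φ ∧ Sg T.Q W Φ ∧
      ∀ p : Set Ordinal.{0} → Prop, (∀ᶠ x in (W : Filter (Set Ordinal.{0})), p x) →
        ∀ g ∈ T.Q, Φ g fun x => {_h | p x} := by
  classical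
  have h0 : ℵ₀ ≤ κ := h.1.1.le
  have hl' : κ.ord ≤ lam.ord := Cardinal.ord_le_ord.2 hl
  have hreg : (Order.succ lam).IsRegular := isRegular_succ (h0.trans hl)
  obtain ⟨W, hW, hm⟩ := h.menas hl'
  obtain ⟨ι, m, w, hR⟩ := exists_rf hT hb hW hl h.1.stage (hW.cc hl' h.1.stage) hQ hm
  obtain ⟨E, -, hE⟩ := exists_enum (lift3_names T.Q (h0.trans hl) hQ hp h2) fun _ => ∅
  obtain ⟨r, hr⟩ := exists_chain hT hb hW hl h0 hR hm E
  have hS : Seed T W (fun x _ z => z = x) r κ m w :=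
    { mono := fun _ _ _ _ a _ => a
      func := Eventually.of_forall fun _ _ _ _ _ a e => a.trans e.symm
      mem := fun i => (hr i).1.mono fun _ a => a.1
      chain := fun i j e => by
        rcases e.eq_or_lt with rfl | e
        · exact (hr i).1.mono fun _ a => hT.of_le a.1.1 a.1.1 le_rfl
        · exact (hr j).2 i e
      bdd := fun J f hJ => ⟨⟨sSup (range fun j => (f j).1), sSup_lt_reg hreg
        (mk_range_le.trans_lt (hJ.trans_le (Cardinal.lift_le.2 (hl.trans (Order.le_succ _)))))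
        (by rintro _ ⟨j, rfl⟩; exact (f j).2)⟩, fun j =>
          le_csSup ⟨(Order.succ lam).ord, by rintro _ ⟨j, rfl⟩; exact (f j).2.le⟩ ⟨j, rfl⟩⟩
      dcd := fun N => by
        obtain ⟨ξ, a1, a2⟩ := hE (fun z => {k | k ∈ T.Q ∧ Pt κ lam.ord z ∧ Hit N z k})
          fun z k hk => ⟨hk.1, hk.2.1⟩
        refine ⟨⟨ξ, a1⟩, ?_⟩
        filter_upwards [(hr ⟨ξ, a1⟩).1, hW.pt] with x x1 x2 s s1 s2
        obtain ⟨s', b1, b2, k, b3, b4, b5⟩ := x1.2 s s1 s2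
        refine ⟨s', b1, b2, x, rfl, k, b3, ?_, b5⟩
        rw [a2] at b4
        rcases b4 with ⟨k', c1, c2⟩ | b4
        · exact Or.inl (c1.2.2.mono c2)
        · exact Or.inr fun k' c1 c2 c3 => b4 k' c1 c2 (hit_of_mem ⟨c1, x2, c3⟩) }
  have hG : ∀ p : Set Ordinal.{0} → Prop, (∀ᶠ x in (W : Filter (Set Ordinal.{0})), p x) →
      ∀ g ∈ T.Q, LF T W ι (fun x _ z => z = x) r g fun x => {_h | p x} := fun p hp g hg =>
    ⟨hg, ⟨0, hreg.ord_pos⟩, hp.mono fun x a => Dn.of fun _ _ _ =>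
      ⟨x, rfl, Dn.of fun _ _ _ => hit_of_mem a⟩⟩
  refine ⟨W, _, hW, hS.uf hT hb hW hl' h0 hR (hG _ hW.pt)
    (fun g hg ξ hξ => hG _ (hW.fine ξ hξ) g hg), fun g N H => ?_, hG⟩
  obtain ⟨j, hj⟩ := hS.dcd N
  have key : ∀ᶠ x in (W : Filter (Set Ordinal.{0})), ∃ e : Set At × X,
      (e.1 ∈ PV (kx x + 1) ∧ ι x g ⊆ e.1) ∧ (e.2 ∈ T.Q ∧ Hit N x e.2) ∧
        T.sle (T.up e.1 ⊔ r j x) e.2 := by
    filter_upwards [hS.pos hT hb hW hl' h0 hR H hj, hR.io g H.1] with x x1 x2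
    obtain ⟨s, a1, a2, z, rfl, k, a3, a4, a5⟩ := x1 _ x2.1 le_rfl
    exact ⟨(s, k), ⟨a1, a2⟩, ⟨a3, a4⟩, a5⟩
  obtain ⟨e, he⟩ := key.choice
  obtain ⟨g', a1, a2, a3⟩ := hR.key g H.1 (fun x => (e x).1) (he.mono fun _ a => a.1)
  refine ⟨g', a1, a2, fun x => (e x).2, he.mono fun _ a => a.2.1, a1, j, ?_⟩
  filter_upwards [he, a3] with x x1 x2 t t1 t2
  refine ⟨t ∪ (e x).1, (x2.mono t2).union_mem t1 x1.1.1, subset_union_left, x, rfl, ?_⟩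
  exact hT.dn (hT.mono x1.2.2 (sup_le_sup_right (hT.up_mono subset_union_right) _)) x1.2.1.1
    (Dn.of fun _ _ a => ⟨_, rfl, a⟩)

end Pool.Agent.SC7292

/-!
Names of ultrafilters that live at a level of the iteration.
-/

namespace Pool.Agent.SC7292

open Cardinal Ordinal Set Filter Function Pool.Agent.MP_7b2404_lc

variable {X : Type 1} [SemilatticeSup X]

/-- Restriction to a level. -/
structure Cut (Q : Set X) (rl : X → X) : Prop where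
  le : ∀ g, rl g ≤ g
  mono : Monotone rl
  mem : ∀ g ∈ Q, rl g ∈ Q
  idem : ∀ g, rl (rl g) = rl g
  amal : ∀ k ∈ Q, ∀ g ∈ Q, rl k = k → rl g ≤ k → k ⊔ g ∈ Q ∧ rl (k ⊔ g) = k

/-- The conditions of the level. -/
def Lev (Q : Set X) (rl : X → X) : Set X := {k ∈ Q | rl k = k}

/-- Names that live at the level. -/
def LocN (rl : X → X) (N : Nam X) : Prop := ∀ x g, Hit N x g → Hit N x (rl g)

/-- Filters whose trace on the level is decided by the level. -/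
def Loc (Q : Set X) (rl : X → X) (Φ : X → Nam X → Prop) : Prop :=
  ∀ g N, LocN rl N → Φ g N → ∀ k ∈ Q, rl g ≤ k → Φ k N

/-- Names of sets of points are decided by the level, above suitable conditions. -/
def RedD (Q : Set X) (rl : X → X) (μ : Cardinal.{0}) (δ : Ordinal.{0}) : Prop :=
  ∀ N : Nam X, ∀ g ∈ Q, ∃ g' ∈ Q, g ≤ g' ∧ ∀ x, Pt μ δ x → ∀ k0 ∈ Q, g' ≤ k0 →
    ∃ k1 ∈ Lev Q rl, rl k0 ≤ k1 ∧ ∃ k ∈ Q, Dcd Q N x k ∧ ∀ k' ∈ Q, k1 ≤ k' → g' ≤ k' → k' ⊔ k ∈ Q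

/-- The trace of `N` on the level, above `g`. -/
def wit (Q : Set X) (g : X) (N : Nam X) : Nam X := fun x =>
  {k1 | ∃ k ∈ Q, Hit N x k ∧ ∀ k' ∈ Q, k1 ≤ k' → g ≤ k' → k' ⊔ k ∈ Q}

/-- The restriction of a filter to the level. -/
def restr (Q : Set X) (rl : X → X) (Φ : X → Nam X → Prop) (g : X) (N : Nam X) : Prop :=
  g ∈ Lev Q rl ∧ Φ g (pull rl N)

variable {Q : Set X} {rl rl' : X → X} {μ : Cardinal.{0}} {δ : Ordinal.{0}}
  {Φ Φ0 : X → Nam X → Prop} {g k : X} {N : Nam X} {x : Set Ordinal.{0}}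

theorem Cut.lev (h : Cut Q rl) (hg : g ∈ Q) : rl g ∈ Lev Q rl := ⟨h.mem g hg, h.idem g⟩

theorem Cut.prj (h : Cut Q rl) : Prj Q (Lev Q rl) rl :=
  ⟨h.mono, fun _ => h.lev, fun g a k b c =>
    ⟨_, (h.amal k b.1 g a b.2 c).1, le_sup_right, (h.amal k b.1 g a b.2 c).2.ge⟩⟩

theorem Cut.locN (h : Cut Q rl) (N : Nam X) : LocN rl (pull rl N) := fun _ g a =>
  (hit_pull h.mono).2 ((h.idem g).symm ▸ (hit_pull h.mono).1 a)

theorem hit_wit (h : Cut Q rl) (a : g ≤ k) (b : Hit (wit Q g N) x (rl k)) : Dn Q k (Hit N x) :=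
  let ⟨_, ⟨_, _, c, d⟩, e⟩ := b
  fun k' f l => ⟨_, d k' f (e.trans ((h.le k).trans l)) (a.trans l), le_sup_left,
    c.mono le_sup_right⟩

theorem Cut.cmp (h : Cut Q rl) (hΦ : PF Q μ δ Φ) (hl : Loc Q rl Φ) :
    Cmp Q rl (restr Q rl Φ) Φ := fun g a _ b => hΦ.mono b.2 (h.le g) a

theorem rai1_am (h : Cut Q rl) (a : k ∈ Lev Q rl) (b : g ∈ Q) (c : rl g ≤ k) :
    k ⊔ g ∈ Q ∧ rl (k ⊔ g) = k := h.amal k a.1 g b a.2 c

theorem rai1_le (h : Cut Q rl) (a : k ∈ Lev Q rl) (b : k ≤ g) : k ≤ rl g := a.2.ge.trans (h.mono b)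

/-- All clauses use `amal` to pass between `Q` and the level. For `ultra` turn
`perpN Q (pull rl N)` into `pull rl (perpN (Lev Q rl) N)` by `incl`, then apply `Loc`. -/
theorem UF.restr (hΦ : UF Q μ δ Φ) (h : Cut Q rl) (hl : Loc Q rl Φ) :
    UF (Lev Q rl) μ δ (restr Q rl Φ) := by
  refine ⟨⟨fun b => b.1, fun b c d => ⟨d, hΦ.mono b.2 c d.1⟩, fun {g N N'} b H => ⟨b.1, ?_⟩,
    fun {ι g N} a b H => ⟨b, ?_⟩, fun {g N} b => ?_, fun {g N} b H => ⟨b, ?_⟩, fun {g} b => ⟨b, ?_⟩,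
    fun {g ξ} b c => ⟨b, ?_⟩⟩, fun {g} N b => ?_⟩
  · refine hΦ.incl b.2 fun x t a c d => ?_
    obtain ⟨u, u1, u2, u3⟩ := H x _ (h.lev a) (rai1_le h b.1 c) ((hit_pull h.mono).1 d)
    obtain ⟨v1, v2⟩ := rai1_am h u1 a u2
    exact ⟨_, v1, le_sup_right, (hit_pull h.mono).2 (v2.symm ▸ u3)⟩
  · refine hΦ.incl (hΦ.inter a b.1 fun i => (H i).2) fun x t c _ ⟨u, u1, u2⟩ =>
      ⟨t, c, le_rfl, (hit_pull h.mono).2 (hit_of_mem fun i k k1 k2 => ?_)⟩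
    obtain ⟨v1, v2⟩ := rai1_am h k1 c k2
    obtain ⟨w, w1, w2, w3⟩ := u1 i _ v1 (u2.trans le_sup_right)
    exact ⟨_, h.lev w1, v2.ge.trans (h.mono w2), (hit_pull h.mono).1 w3⟩
  · obtain ⟨x, t, a, c, d⟩ := hΦ.proper b.2
    exact ⟨x, _, h.lev a, rai1_le h b.1 c, (hit_pull h.mono).1 d⟩
  · refine hΦ.reg b.1 fun t a c => ?_
    obtain ⟨u, u1, u2, u3⟩ := H _ (h.lev a) (rai1_le h b c)
    exact ⟨_, (rai1_am h u1 a u2).1, le_sup_right, hΦ.mono u3.2 le_sup_left (rai1_am h u1 a u2).1⟩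
  · exact hΦ.incl (hΦ.small b.1) fun x t a _ ⟨_, d, _⟩ =>
      ⟨t, a, le_rfl, t, ⟨rl t, d, le_rfl⟩, le_rfl⟩
  · exact hΦ.incl (hΦ.fine b.1 c) fun x t a _ ⟨_, d, _⟩ =>
      ⟨t, a, le_rfl, t, ⟨rl t, d, le_rfl⟩, le_rfl⟩
  · obtain ⟨t, a, c, d | d⟩ := hΦ.ultra (pull rl N) b.1
    · exact ⟨_, h.lev a, rai1_le h b c, Or.inl ⟨h.lev a, hl t _ (h.locN N) d _ (h.mem t a) le_rfl⟩⟩
    · refine ⟨_, h.lev a, rai1_le h b c, Or.inr ⟨h.lev a, hl t _ (h.locN _) ?_ _ (h.mem t a) le_rfl⟩⟩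
      refine hΦ.incl d fun x k k1 _ ⟨u, u1, u2⟩ =>
        ⟨k, k1, le_rfl, (hit_pull h.mono).2 (hit_of_mem fun w w1 w2 w3 => ?_)⟩
      obtain ⟨v1, v2⟩ := rai1_am h w1 k1 w2
      exact u1 _ v1 (u2.trans le_sup_right) ((hit_pull h.mono).2 (v2.symm ▸ w3))

/-- Take `g2` from `RedD`, decide `wit Q g2 N` by `k0 ≥ rl g2` and pass to `k0 ⊔ g2`; the negative
case contradicts `proper` (intersect with `small`). -/
theorem Cut.gen (h : Cut Q rl) (h0 : ℵ₀ ≤ μ) (hΦ0 : UF (Lev Q rl) μ δ Φ0) (hΦ : PF Q μ δ Φ)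
    (hc : Cmp Q rl Φ0 Φ) (hr : RedD Q rl μ δ) (H : Φ g N) :
    Dn Q g fun g' => Φ0 (rl g') (wit Q g' N) := by
  intro g1 a b
  obtain ⟨g2, c, d, R⟩ := hr N g1 a
  obtain ⟨k0, k1, k2, e⟩ := hΦ0.ultra (wit Q g2 N) (h.lev c)
  obtain ⟨v1, v2⟩ := rai1_am h k1 c k2
  rcases e with e | e
  · refine ⟨_, v1, d.trans le_sup_right, ?_⟩
    beta_reduce
    rw [v2]
    exact hΦ0.incl e fun x t t1 _ ⟨u, ⟨w, w1, w2, w3⟩, u2⟩ =>
      ⟨t, t1, le_rfl, u, ⟨w, w1, w2, fun k' x1 x2 x3 => w3 k' x1 x2 (le_sup_right.trans x3)⟩, u2⟩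
  · exfalso
    obtain ⟨x, t, t1, t2, ⟨s, ⟨s1, _, s2, _⟩, s3⟩, t3⟩ := hΦ.proper2 h0
      (hΦ.inter2 h0 (hΦ.mono H ((b.trans d).trans le_sup_right) v1) (hΦ.small v1))
      (hc _ v1 _ (v2.symm ▸ e))
    obtain ⟨u, u1, u2⟩ := (hit_pull h.mono).1 t3
    obtain ⟨l1, l2, l3, k, l4, l5 | l5, l6⟩ := R x s2 t t1 (le_sup_right.trans t2)
    · exact u1 l1 l2 (u2.trans l3) (hit_of_mem ⟨k, l4, l5, l6⟩)
    · have := l6 _ (rai1_am h l2 t1 l3).1 le_sup_left ((le_sup_right.trans t2).trans le_sup_right)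
      exact l5 _ this le_sup_right (s1.mono ((s3.trans le_sup_right).trans le_sup_left))

/-- For `k0 ≥ k ≥ rl' g` extend `rl' k0 ⊔ g` to `g'` as in `gen`; then `k1 = rl' g' ⊔ k0` has
`Φ k1 (pull rl (wit Q g' N))`, and this name is forced to be contained in `N`. -/
theorem Cut.loc (h : Cut Q rl) (h' : Cut Q rl') (e : ∀ g, rl (rl' g) = rl g) (h0 : ℵ₀ ≤ μ)
    (hΦ0 : UF (Lev Q rl) μ δ Φ0) (hΦ : PF Q μ δ Φ) (hc : Cmp Q rl Φ0 Φ) (hr : RedD Q rl μ δ) :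
    Loc Q rl' Φ := by
  intro g N hN H k a b
  refine hΦ.reg a fun k0 c d => ?_
  have hg := hΦ.valid H
  obtain ⟨v1, v2⟩ := rai1_am h' (h'.lev c) hg (rai1_le h' (h'.lev hg) (b.trans d))
  obtain ⟨g', g1, g2, g3⟩ := h.gen h0 hΦ0 hΦ hc hr H _ v1 le_sup_right
  obtain ⟨w1, w2⟩ := rai1_am h' (h'.lev g1) c (v2.ge.trans (h'.mono g2))
  have w3 : rl (rl' g' ⊔ k0) = rl g' := by rw [← e, w2, e]
  refine ⟨_, w1, le_sup_right, hΦ.incl (hc _ w1 _ (w3.symm ▸ g3)) fun x t t1 t2 t3 => ?_⟩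
  obtain ⟨u, ⟨w, _, u1, u2⟩, u3⟩ := (hit_pull h.mono).1 t3
  obtain ⟨s1, s2⟩ := rai1_am h' (h'.lev t1) g1 (w2.ge.trans (h'.mono t2))
  have s3 := u2 _ s1 ((u3.trans ((e t).ge.trans (h.le _))).trans le_sup_left) le_sup_right
  exact ⟨_, (rai1_am h' (h'.lev s3) t1 (s2.ge.trans (h'.mono le_sup_left))).1, le_sup_right,
    (hN x _ (u1.mono le_sup_right)).mono le_sup_left⟩

/-- If `Φ0 k0 fun x => {h0 x}` with `h0 x` hitting `wit Q g' N`, let `h x` be the witness `k`;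
then `Φ (k0 ⊔ g') fun x => {h x}`. -/
theorem Cut.sg (h : Cut Q rl) (h0 : ℵ₀ ≤ μ) (hΦ0 : UF (Lev Q rl) μ δ Φ0) (hΦ : PF Q μ δ Φ)
    (hc : Cmp Q rl Φ0 Φ) (hr : RedD Q rl μ δ) {W : Ultrafilter (Set Ordinal.{0})}
    (hW : ∀ p : Set Ordinal.{0} → Prop, (∀ᶠ x in (W : Filter (Set Ordinal.{0})), p x) →
      ∀ g ∈ Q, Φ g fun x => {_h | p x}) (hs : Sg (Lev Q rl) W Φ0) : Sg Q W Φ := by
  classical
  intro g N H
  obtain ⟨g', g1, g2, g3⟩ := h.gen h0 hΦ0 hΦ hc hr H g (hΦ.valid H) le_rfl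
  obtain ⟨k0, k1, k2, f0, f1, f2⟩ := hs _ _ g3
  obtain ⟨v1, v2⟩ := rai1_am h k1 g1 k2
  let P : Set Ordinal.{0} → X → Prop := fun x k =>
    k ∈ Q ∧ Hit N x k ∧ ∀ k' ∈ Q, f0 x ≤ k' → g' ≤ k' → k' ⊔ k ∈ Q
  let f : Set Ordinal.{0} → X := fun x => if c : ∃ k, P x k then c.choose else g
  have f3 : ∀ᶠ x in (W : Filter (Set Ordinal.{0})), P x (f x) := f1.mono fun x a => by
    obtain ⟨_, u, ⟨w, w1, w2, w3⟩, u1⟩ := a
    have c : ∃ k, P x k := ⟨w, w1, w2, fun k' x1 x2 x3 => w3 k' x1 (u1.trans x2) x3⟩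
    simp only [f, dif_pos c]
    exact c.choose_spec
  refine ⟨_, v1, g2.trans le_sup_right, f, f3.mono fun x a => ⟨a.1, a.2.1⟩, ?_⟩
  refine hΦ.incl (hΦ.inter2 h0 (hc _ v1 _ (v2.symm ▸ f2)) (hW _ f3 _ v1))
    fun x t t1 t2 ⟨s, ⟨s1, _, s2, _⟩, s3⟩ => ?_
  obtain ⟨u, u1, u2⟩ := (hit_pull h.mono).1 s1
  obtain rfl : u = f0 x := u1
  exact ⟨_, s2.2.2 t t1 ((u2.trans (h.le s)).trans s3) (le_sup_right.trans t2), le_sup_left,
    f x, rfl, le_sup_right⟩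

/-- Compatibility passes to the restrictions. -/
theorem Cmp.restr {X1 : Type 1} [SemilatticeSup X1] {Q1 : Set X1} {rl1 : X1 → X1} {p : X → X1}
    {Φ1 : X1 → Nam X1 → Prop} (hc : Cmp Q p Φ1 Φ) (hΦ : PF Q μ δ Φ) (h : Cut Q rl)
    (h1 : Cut Q1 rl1) (hp : Prj Q Q1 p) (e : ∀ g, p (rl g) = rl1 (p g)) :
    Cmp (Lev Q rl) p (restr Q1 rl1 Φ1) (restr Q rl Φ) := by
  intro g a N b
  refine ⟨a, hΦ.incl (hc g a.1 _ b.2) fun x t t1 _ t2 => ⟨t, t1, le_rfl, ?_⟩⟩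
  rw [hit_pull h.mono, hit_pull hp.mono, e]
  exact (hit_pull h1.mono).1 ((hit_pull hp.mono).1 t2)

/-- Compatibility at the level implies compatibility: use `gen` for `Φ1`, `lift`, `reg`. -/
theorem Cmp.raise {X1 : Type 1} [SemilatticeSup X1] {Q1 : Set X1} {rl1 : X1 → X1} {p : X → X1}
    {Φ1 : X1 → Nam X1 → Prop} (h0 : ℵ₀ ≤ μ) (hΦ1 : UF Q1 μ δ Φ1) (hl : Loc Q1 rl1 Φ1)
    (hr : RedD Q1 rl1 μ δ) (hΦ : PF Q μ δ Φ) (h : Cut Q rl) (h1 : Cut Q1 rl1) (hp : Prj Q Q1 p)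
    (e : ∀ g, p (rl g) = rl1 (p g)) (hΦ0 : PF (Lev Q rl) μ δ Φ0)
    (c1 : Cmp (Lev Q rl) p (SC7292.restr Q1 rl1 Φ1) Φ0) (c2 : Cmp Q rl Φ0 Φ) : Cmp Q p Φ1 Φ := by
  intro g _ N H
  have hU := hΦ1.restr h1 hl
  refine hΦ.reg ‹_› fun g1 a b => ?_
  obtain ⟨g', c, d, R⟩ := h1.gen h0 hU hΦ1.toPF (h1.cmp hΦ1.toPF hl) hr H _ (hp.map g1 a) (hp.mono b)
  obtain ⟨g2, l1, l2, l3⟩ := hp.lift g1 a g' c d
  have R' := hU.mono R (h1.mono l3) (h1.lev (hp.map g2 l1))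
  rw [← e] at R'
  refine ⟨g2, l1, l2, hΦ.incl (c2 g2 l1 _ (c1 _ (h.lev l1) _ R')) fun x t t1 t2 t3 => ?_⟩
  rw [hit_pull h.mono, hit_pull hp.mono, e] at t3
  obtain ⟨s, s1, s2, s3⟩ := hit_wit h1 (l3.trans (hp.mono t2)) t3 _ (hp.map t t1) le_rfl
  obtain ⟨t', u1, u2, u3⟩ := hp.lift t t1 s s1 s2
  exact ⟨t', u1, u2, (hit_pull hp.mono).2 (s3.mono u3)⟩

variable {c d : Ordinal.{0}}

theorem PV.amal' {s p : Set At} (hs : s ∈ PV d) (hp : p ∈ PV d) (e : SC7292.res c s = s)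
    (h : SC7292.res c p ⊆ s) : s ∪ p ∈ PV d := by
  rcases le_total c d with k | k
  · exact PV.amal (e ▸ PV.res hs c) hp h k
  · rwa [union_eq_left.2 (PV.res_eq hp k ▸ h)]

theorem cut_res (c d : Ordinal.{0}) : Cut (PV d) (res c) :=
  ⟨res_sub c, fun _ _ => res_mono, fun _ a => PV.of_st (PV.res a c) fun b k => PV.st a b k.1,
    fun _ => res_res le_rfl, fun _ a _ b e f => ⟨PV.amal' a b e f, by
      change res c (_ ∪ _) = _
      rw [res_union, e, union_eq_left.2 f]⟩⟩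

theorem lev_res (h : c ≤ d) : Lev (PV d) (res c) = PV c :=
  Set.ext fun _ => ⟨fun a => a.2 ▸ PV.res a.1 c, fun a => ⟨PV.mono a h, PV.res_eq a le_rfl⟩⟩

/-- Apply `rds` to the sets `Dcd (PV d) N x` indexed by the points. -/
theorem redD_res (h : c ≤ d) (hn : ¬ Stage c)
    (hp : ∀ γ, Stage γ → c < γ → #{x | Pt μ δ x} < lc γ.card) : RedD (PV d) (res c) μ δ := by
  intro N g hg
  obtain ⟨g', a1, a2, -, a4⟩ := (pvT_ok d).rds h hn hp (fun i => Dcd (PV d) N i.1) hg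
    fun i => dn_dcd _ N i.1 g
  refine ⟨g', a1, a2, fun x hx k0 _ b => ?_⟩
  obtain ⟨s', c1, c2, k, c3, -, c5, c6⟩ := a4 ⟨x, hx⟩ (res c k0) (PV.res ‹_› c)
    (res_mono (a2.trans b))
  exact ⟨s', (lev_res h).symm ▸ c1, c2, k, c3, c5, fun k' e1 e2 e3 =>
    (Sle.mono c6 (union_subset e2 e3)).union_mem e1 c3⟩

/-- The measure of an upper coordinate. Let `c = (max θ.card κ').ord + 1`, `a` the maximum of
`θ.card`, `κ'` and the size of `PV c`; take `lam` from `exists_lam`, `W`, `Φ0` from `Prep.upper`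
for `pvT (PV c)`, and extend along `res c` by `UF.ext1` for `pvT (PV d)`. -/
theorem Prep.exists_up {κ κ' χ : Cardinal.{0}} (h : Prep κ) (h' : Supercompact κ') (h1 : κ < κ')
    (h2 : κ' < χ) (hχ : Stage χ.ord) (hd : χ.ord ≤ d) {θ : Ordinal.{0}} (hθ : θ < χ.ord) :
    ∃ l W Φ, θ ≤ l ∧ κ.ord ≤ l ∧ l < χ.ord ∧ NM κ (Iio l) W ∧ UF (PV d) κ l Φ ∧ Sg (PV d) W Φ ∧
      (∀ p : Set Ordinal.{0} → Prop, (∀ᶠ x in (W : Filter (Set Ordinal.{0})), p x) →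
        ∀ g ∈ PV d, Φ g fun x => {_h | p x}) ∧ ∀ c, χ.ord ≤ c → Loc (PV d) (res c) Φ := by
  have hχ' : χ.IsInaccessible := by simpa using hχ.1
  have h0 : ℵ₀ ≤ κ := h.1.1.le
  obtain ⟨c, hc⟩ : ∃ c, c = (max θ.card κ').ord + 1 := ⟨_, rfl⟩
  have c1 : (max θ.card κ').ord < c := hc ▸ lt_add_one _
  have c2 : c < χ.ord := hc ▸ (isSuccLimit_ord hχ'.isRegular.aleph0_le).add_one_lt
    (Cardinal.ord_lt_ord.2 (max_lt (lt_ord.1 hθ) h2))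
  have c3 : c ≤ d := c2.le.trans hd
  have c4 : κ.ord ≤ c := (Cardinal.ord_le_ord.2 (h1.le.trans (le_max_right _ _))).trans c1.le
  obtain ⟨a, -, ha⟩ := Cardinal.lt_lift_iff.1 (hχ.mk_PV c2)
  obtain ⟨lam, l1, -, l3, l4, l5⟩ := exists_lam (a := max (max θ.card κ') a)
    h.1.inacc.isRegular h' h1 ((le_max_right _ _).trans (le_max_left _ _))
  have l6 : ∀ γ, Stage γ → c < γ → lam < γ.card := fun γ s k => by
    refine l3 _ s.1 (max_lt (Cardinal.ord_lt_ord.1 ?_) ?_)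
    · rw [s.2.1]
      exact c1.trans k
    · exact Cardinal.lift_lt.1 (ha.trans_lt (s.mk_PV k))
  have l7 : κ ≤ lam :=
    (h1.le.trans ((le_max_right _ _).trans (le_max_left _ _))).trans l1.le
  obtain ⟨W, Φ0, w1, w2, w3, w4⟩ := h.upper (pvT_ok c) c4 l7
    (ha.symm.trans_le (Cardinal.lift_le.2 ((le_max_right _ _).trans l1.le))) l4 l5
  have hcut := cut_res c d
  have hprj : Prj (PV d) (PV c) (res c) := lev_res c3 ▸ hcut.prj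
  obtain ⟨Φ, u1, u2⟩ := UF.ext1 (pvT_ok d) h.pre (c4.trans c3) (small_PV d) w2 hprj
    fun s hs g k e x hx => (e ⟨Or.inl hx, (PV.st hs x hx).trans_le c4⟩).1
  have hr : RedD (PV d) (res c) κ lam.ord := redD_res c3 (hc ▸ not_stage_succ _)
    fun γ s k => l4.trans_lt (Cardinal.lift_lt.2 (l6 γ s k))
  have w2' : UF (Lev (PV d) (res c)) κ lam.ord Φ0 := (lev_res c3).symm ▸ w2
  have w3' : Sg (Lev (PV d) (res c)) W Φ0 := (lev_res c3).symm ▸ w3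
  have w5 : ∀ p : Set Ordinal.{0} → Prop, (∀ᶠ x in (W : Filter (Set Ordinal.{0})), p x) →
      ∀ g ∈ PV d, Φ g fun x => {_h | p x} := fun p hp g hg =>
    u1.incl (u2 g hg _ (w4 p hp _ (PV.res hg c))) fun x g' b _ ⟨_, ⟨_, e, _⟩, _⟩ =>
      ⟨g', b, le_rfl, hit_of_mem e⟩
  refine ⟨lam.ord, W, Φ,
    (lt_ord.2 (((le_max_left _ _).trans (le_max_left _ _)).trans_lt l1)).le,
    Cardinal.ord_le_ord.2 l7, Cardinal.ord_lt_ord.2 (by simpa using l6 _ hχ c2), w1, u1,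
    hcut.sg h0 w2' u1.toPF u2 hr w5 w3', w5, fun c' k => ?_⟩
  exact hcut.loc (cut_res c' d) (fun _ => res_res (c2.le.trans k)) h0 w2' u1.toPF u2 hr

end Pool.Agent.SC7292
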