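import Pool.Agent.SC7292.Tower

/-!
Reflection of a tower into single stages of the iteration; master conditions.
-/

namespace Pool.Agent.SC7292

open Cardinal Ordinal Set Filter Function Pool.Agent.MP_7b2404_lc

variable {X : Type 1} [SemilatticeSup X] (T : Tw X) (κ : Cardinal.{0}) (e : Ordinal.{0} → X)
  (π : Set Ordinal.{0} → Ordinal.{0} → Ordinal.{0})

/-- The reflected ticket: the part of the tower enumerated by `x`, renamed by `π x`. -/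
def rtk (x : Set Ordinal.{0}) : Tk :=
  {z | ∃ α ∈ x, ∃ β ∈ x, z.2.1 = π x α ∧ z.2.2 = π x β ∧ z.1.1 < kx x ∧ z.1.2 < kx x ∧
    dec z.1 ∈ PV (kx x) ∧ res κ.ord (T.gp (e α)) ⊆ dec z.1 ∧ res κ.ord (T.gp (e β)) ⊆ dec z.1 ∧
    T.sle (T.up (dec z.1) ⊔ e α) (e β)}

/-- The atom for the vertex `α`. -/
noncomputable def rat (x : Set Ordinal.{0}) (α : Ordinal.{0}) : At := ⟨kx x, (0, 0), rtk T κ e π x, π x α⟩

/-- The reflected condition; `o` is the index of the least element. -/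
def rio (o : Ordinal.{0}) (x : Set Ordinal.{0}) (α : Ordinal.{0}) : Set At :=
  res κ.ord (T.gp (e α)) ∪ {rat T κ e π x α, rat T κ e π x o}

/-- Points at which the reflection behaves. -/
structure RPt (o : Ordinal.{0}) (x : Set Ordinal.{0}) : Prop where
  st : Stage (kx x)
  lt : kx x < κ.ord
  card : #x < lc (fm (kx x)).card
  inj : InjOn (π x) x
  bd : ∀ α ∈ x, π x α < fm (kx x)
  mem : ∀ α ∈ x, e α ∈ T.Q ∧ res κ.ord (T.gp (e α)) ∈ PV (kx x)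
  zero : o ∈ x ∧ T.gp (e o) = ∅ ∧ ∀ g, e o ≤ g

variable {T κ e π} {b l o α β : Ordinal.{0}} {x : Set Ordinal.{0}} {s : Set At}
  {W : Ultrafilter (Set Ordinal.{0})}

/-- For `←` use `Stage.code`; for `→` use `inj` and `mono`, `up_mono`. -/
theorem RPt.vle_iff (h : RPt T κ e π o x) (hT : T.OK b) (hα : α ∈ x) (hβ : β ∈ x)
    (hs : s ∈ PV (kx x)) : vle s (rtk T κ e π x, π x α) (rtk T κ e π x, π x β) ↔
      res κ.ord (T.gp (e α)) ⊆ s ∧ res κ.ord (T.gp (e β)) ⊆ s ∧ T.sle (T.up s ⊔ e α) (e β) := by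
  constructor
  · rintro ⟨-, c, ⟨α', a1, β', a2, a3, a4, -, -, -, a5, a6, a7⟩, hc⟩
    obtain rfl : α = α' := h.inj hα a1 a3
    obtain rfl : β = β' := h.inj hβ a2 a4
    exact ⟨a5.trans hc, a6.trans hc, hT.mono a7 (sup_le_sup_right (hT.up_mono hc) _)⟩
  · rintro ⟨a1, a2, a3⟩
    obtain ⟨c, c1, c2, rfl⟩ := h.st.code hs
    exact ⟨rfl, c, ⟨α, hα, β, hβ, rfl, rfl, c1, c2, hs, a1, a2, a3⟩, subset_rfl⟩

theorem vle_rtk {v v' : Ordinal.{0}} (h : vle s (rtk T κ e π x, v) (rtk T κ e π x, v')) :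
    ∃ α ∈ x, ∃ β ∈ x, v = π x α ∧ v' = π x β :=
  let ⟨_, _, ⟨α, a, β, c, d, f, _⟩, _⟩ := h
  ⟨α, a, β, c, d, f⟩

/-- `s` forces that `u` is stronger than `v`. -/
def ref1_R (T : Tw X) (c : Ordinal.{0}) (s : Set At) (u v : X) : Prop :=
  res c (T.gp u) ⊆ s ∧ res c (T.gp v) ⊆ s ∧ T.sle (T.up s ⊔ u) v

theorem ref1_mono (hT : T.OK b) {c : Ordinal.{0}} {s' : Set At} {u v : X} (h : ref1_R T c s u v)
    (k : s ⊆ s') : ref1_R T c s' u v :=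
  ⟨h.1.trans k, h.2.1.trans k, hT.mono h.2.2 (sup_le_sup_right (hT.up_mono k) _)⟩

theorem ref1_up (hT : T.OK b) {c : Ordinal.{0}} (hc : c ≤ b) {s' : Set At} {u v : X}
    (hs : s ∈ PV c) (hs' : s' ∈ PV c) (k : s' ⊆ s) (hu : u ∈ T.Q) (h : ref1_R T c s u v) :
    T.sle (T.up s ⊔ u) (T.up s' ⊔ v) :=
  hT.sup (hT.sle_sub (hT.amal hc hs hu h.1) hs' (k.trans (hT.sub_gp _ _))) h.2.2

theorem ref1_trans (hT : T.OK b) {c : Ordinal.{0}} (hc : c ≤ b) {u v w : X} (hs : s ∈ PV c)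
    (hu : u ∈ T.Q) (hv : v ∈ T.Q) (h : ref1_R T c s u v) (k : ref1_R T c s v w) :
    ref1_R T c s u w :=
  ⟨h.1, k.2.1, hT.trans (ref1_up hT hc hs hs subset_rfl hu h) k.2.2 (hT.amal hc hs hv k.1)⟩

theorem ref1_PV (hW : NM κ (Iio l) W) (hl : κ.ord ≤ l) (hκ : Stage κ.ord)
    {p : Set Ordinal.{0} → Set At → Prop}
    (hp : ∀ᶠ x in (W : Filter (Set Ordinal.{0})), ∃ s ∈ PV (kx x), p x s) :
    ∃ s ∈ PV κ.ord, ∀ᶠ x in (W : Filter (Set Ordinal.{0})), p x s := by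
  by_contra hc
  have h1 := hW.diag_PV hl hκ (fun x s => ¬ p x s) fun s hs =>
    Ultrafilter.eventually_not.2 fun k => hc ⟨s, hs, k⟩
  obtain ⟨x, ⟨s, a, b⟩, e⟩ := (hp.and h1).exists
  exact e s a b

theorem ref1_kx (hW : NM κ (Iio l) W) (hl : κ.ord ≤ l)
    {p : Set Ordinal.{0} → Ordinal.{0} → Prop}
    (hp : ∀ᶠ x in (W : Filter (Set Ordinal.{0})), ∃ i < kx x, p x i) :
    ∃ i, ∀ᶠ x in (W : Filter (Set Ordinal.{0})), p x i := by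
  by_contra hc
  have h1 := hW.diag_kx hl (fun x i => ¬ p x i) fun i _ =>
    Ultrafilter.eventually_not.2 fun k => hc ⟨i, k⟩
  obtain ⟨x, ⟨i, a, b⟩, e⟩ := (hp.and h1).exists
  exact e i a b

/-- The closure property for fixed `δ`, `s0` and one family `m x` for each `x`. -/
theorem ref1_cl (hT : T.OK b) (hb : κ.ord ≤ b) (hW : NM κ (Iio l) W) (hl : κ.ord ≤ l)
    (hκ : Stage κ.ord) (hcc : CC κ.ord (lc κ)) (he : ∀ u ∈ T.Q, ∃ α < l, e α = u)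
    (hp : ∀ᶠ x in (W : Filter (Set Ordinal.{0})), RPt T κ e π o x) {δ : Ordinal.{0}}
    (hδ : δ < κ.ord) {s0 : Set At} (h0 : s0 ∈ PV κ.ord)
    (m : Set Ordinal.{0} → Ordinal.{0} → Set (Set At × Ordinal.{0}))
    (H1 : ∀ᶠ x in (W : Filter (Set Ordinal.{0})), ∀ i < δ, ∀ z ∈ m x i, z.1 ∈ PV (kx x))
    (H2 : ∀ᶠ x in (W : Filter (Set Ordinal.{0})), ∀ i < δ, ∀ z ∈ m x i, ∀ z' ∈ m x i,
      ∀ s ∈ PV (kx x), s0 ⊆ s → z.1 ⊆ s → z'.1 ⊆ s →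
        Dn (PV (kx x)) s fun s' => vle s' (rtk T κ e π x, z.2) (rtk T κ e π x, z'.2))
    (H3 : ∀ᶠ x in (W : Filter (Set Ordinal.{0})), ∀ i < δ, ∀ j < δ, ∀ z ∈ m x i, ∀ z' ∈ m x j,
      ∀ s ∈ PV (kx x), s0 ⊆ s → z.1 ⊆ s → z'.1 ⊆ s → ∃ s' ∈ PV (kx x), s ⊆ s' ∧ ∃ k < δ,
        ∃ z'' ∈ m x k, z''.1 ⊆ s' ∧ vle s' (rtk T κ e π x, z''.2) (rtk T κ e π x, z.2) ∧
          vle s' (rtk T κ e π x, z''.2) (rtk T κ e π x, z'.2)) :
    ∀ᶠ x in (W : Filter (Set Ordinal.{0})), ∃ s1 ∈ PV (kx x), s0 ⊆ s1 ∧ ∃ v,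
      (Dn (PV (kx x)) s1 fun s' => vle s' (rtk T κ e π x, v) (rtk T κ e π x, v)) ∧
      ∀ i < δ, ∀ z ∈ m x i, ∀ s ∈ PV (kx x), s1 ⊆ s → z.1 ⊆ s →
        Dn (PV (kx x)) s fun s' => vle s' (rtk T κ e π x, v) (rtk T κ e π x, z.2) := by
  have hQ : ∀ α < l, e α ∈ T.Q := fun α k =>
    let ⟨_, a1, a2⟩ := (hp.and (hW.fine α k)).exists
    (a1.mem α a2).1
  let M : Ordinal.{0} → Set At → Ordinal.{0} → Prop := fun i s α =>
    ∀ᶠ x in (W : Filter (Set Ordinal.{0})), (s, π x α) ∈ m x i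
  have same : ∀ i < δ, ∀ s α s' β, M i s α → M i s' β → α < l → β < l → ∀ r ∈ PV κ.ord,
      s0 ⊆ r → s ⊆ r → s' ⊆ r → ∃ r' ∈ PV κ.ord, r ⊆ r' ∧ ref1_R T κ.ord r' (e α) (e β) := by
    intro i hi s α s' β a1 a2 a3 a4 r a5 a6 a7 a8
    obtain ⟨x, ⟨⟨b1, b2⟩, b3, b4⟩, ⟨b5, b6⟩, b7⟩ := (((hp.and H2).and (a1.and a2)).and
      (((hW.fine α a3).and (hW.fine β a4)).and (hW.mem_PV hl hκ a5))).exists
    obtain ⟨r', c1, c2, c3⟩ := b2 i hi _ b3 _ b4 r b7 a6 a7 a8 r b7 le_rfl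
    exact ⟨r', PV.mono c1 b1.lt.le, c2, (b1.vle_iff hT b5 b6 c1).1 c3⟩
  let O : Ordinal.{0} → Set (Set At × Ordinal.{0}) := fun i => {z | z.1 ∈ PV κ.ord ∧ s0 ⊆ z.1 ∧
    z.2 < l ∧ res κ.ord (T.gp (e z.2)) ⊆ z.1 ∧ ∃ s ⊆ z.1, M i s z.2}
  choose A A1 A2 A3 using fun i => exists_anti (O i)
    (fun a a' => ∃ s ∈ PV κ.ord, a.1 ⊆ s ∧ a'.1 ⊆ s)
    (fun a k => ⟨a.1, k.1, subset_rfl, subset_rfl⟩) fun _ _ ⟨s, k1, k2, k3⟩ => ⟨s, k1, k3, k2⟩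
  have A4 : ∀ i, #(A i) < lc κ := fun i => by
    refine mk_lt_of_map (T := Prod.fst '' A i) (hcc _ ?_ ?_) Prod.fst
      (fun a k => mem_image_of_mem _ k) fun a k a' k' q =>
        A2 i a k a' k' ⟨a.1, (A1 i k).1, subset_rfl, q.ge⟩
    · rintro _ ⟨a, k, rfl⟩
      exact (A1 i k).1
    · rintro _ ⟨a, k, rfl⟩ _ ⟨a', k', rfl⟩ q
      rw [A2 i a k a' k' q]
  -- below every member some element of the antichain is forced to be stronger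
  have hit : ∀ i < δ, ∀ z ∈ O i, ∃ a ∈ A i, ∃ r ∈ PV κ.ord, z.1 ⊆ r ∧ a.1 ⊆ r ∧
      ref1_R T κ.ord r (e a.2) (e z.2) := by
    intro i hi z hz
    obtain ⟨a, a1, r, a2, a3, a4⟩ := A3 i z hz
    obtain ⟨-, -, b1, -, s, b2, b3⟩ := A1 i a1
    obtain ⟨-, c0, c1, -, s', c2, c3⟩ := hz
    obtain ⟨r', d1, d2, d3⟩ := same i hi s a.2 s' z.2 b3 c3 b1 c1 r a2 (c0.trans a3)
      (b2.trans a4) (c2.trans a3)
    exact ⟨a, a1, r', d1, a3.trans d2, a4.trans d2, d3⟩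
  have hreg : κ.IsRegular := by simpa using hκ.1.isRegular
  let I : Set (Ordinal.{0} × Set At × Ordinal.{0}) := ⋃ i : Iio δ, Prod.mk i.1 '' A i.1
  have I1 : #I < lc κ := mk_iUnion_lt hreg (mk_Iio_lt hδ) _ fun i => mk_image_le.trans_lt (A4 _)
  have I2 : ∀ j : I, j.1.1 < δ ∧ j.1.2 ∈ A j.1.1 := by
    rintro ⟨_, _, ⟨i, rfl⟩, a, k, rfl⟩
    exact ⟨i.2, k⟩
  have I3 : ∀ i < δ, ∀ a ∈ A i, (i, a) ∈ I := fun i hi a k => mem_iUnion.2 ⟨⟨i, hi⟩, a, k, rfl⟩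
  have I4 : ∀ j : I, res κ.ord (T.gp (T.up j.1.2.1 ⊔ e j.1.2.2)) = j.1.2.1 := fun j =>
    hT.res_up (A1 _ (I2 j).2).1 (A1 _ (I2 j).2).2.2.2.1
  obtain ⟨w, w1, w2, w3⟩ := hT.cl (c := κ.ord) (ι := I) (u := fun j => T.up j.1.2.1 ⊔ e j.1.2.2)
    (s0 := s0) hb (fun γ _ k => I1.trans_le (Cardinal.lift_le.2 (ord_le.1 k)))
    (fun j => hT.amal hb (A1 _ (I2 j).2).1 (hQ _ (A1 _ (I2 j).2).2.2.1) (A1 _ (I2 j).2).2.2.2.1)
    h0 (by
      intro i j s a1 a2 a3 a4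
      simp only [I4] at a3 a4 ⊢
      obtain ⟨b0, -, b1, -, si, b2, b3⟩ := A1 _ (I2 i).2
      obtain ⟨c0, -, c1, -, sj, c2, c3⟩ := A1 _ (I2 j).2
      have h1 : ∀ᶠ x in (W : Filter (Set Ordinal.{0})), ∃ s' ∈ PV (kx x), ∃ k < kx x,
          ∃ s'' ∈ PV (kx x), ∃ η ∈ x, (s'', π x η) ∈ m x k ∧ s ⊆ s' ∧ k < δ ∧ s'' ⊆ s' ∧
            ref1_R T κ.ord s' (e η) (e i.1.2.2) ∧ ref1_R T κ.ord s' (e η) (e j.1.2.2) := by
        filter_upwards [hp, H1, H3, b3, c3, hW.fine _ b1, hW.fine _ c1, hW.mem_PV hl hκ a1,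
          hW.lt_kx hl hδ] with x d1 d2 d3 d4 d5 d6 d7 d8 d9
        obtain ⟨s', f1, f2, k, f3, ⟨s'', v⟩, f4, f5, f6, f7⟩ := d3 _ (I2 i).1 _ (I2 j).1 _ d4 _ d5
          s d8 a2 (b2.trans a3) (c2.trans a4)
        obtain ⟨η, g1, -, -, g2, -⟩ := vle_rtk f6
        obtain rfl : v = π x η := g2
        exact ⟨s', f1, k, f3.trans d9, s'', d2 k f3 _ f4, η, g1, f4, f2, f3, f5,
          (d1.vle_iff hT g1 d6 f1).1 f6, (d1.vle_iff hT g1 d7 f1).1 f7⟩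
      obtain ⟨s', d1, h2⟩ := ref1_PV hW hl hκ h1
      obtain ⟨k, h3⟩ := ref1_kx hW hl h2
      obtain ⟨s'', -, h4⟩ := ref1_PV hW hl hκ h3
      obtain ⟨η, d2, h5⟩ := hW.const h4
      obtain ⟨-, -, d3, d4, d5, d6, d7⟩ := h5.exists
      obtain ⟨a, f1, r, f2, f3, f4, f5⟩ := hit k d4 (s', η)
        ⟨d1, a2.trans d3, d2, d6.1, s'', d5, h5.mono fun _ q => q.1⟩
      have f6 := hQ _ (A1 _ f1).2.2.1
      have f7 : T.up r ⊔ e a.2 ≤ T.up r ⊔ (T.up a.1 ⊔ e a.2) := sup_le_sup_left le_sup_right _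
      refine ⟨r, f2, d3.trans f3, ⟨(k, a), I3 k d4 a f1⟩, f4, hT.mono ?_ f7, hT.mono ?_ f7⟩
      · exact ref1_up hT hb f2 b0 (a3.trans (d3.trans f3)) f6
          (ref1_trans hT hb f2 f6 (hQ _ d2) f5 (ref1_mono hT d6 f3))
      · exact ref1_up hT hb f2 c0 (a4.trans (d3.trans f3)) f6
          (ref1_trans hT hb f2 f6 (hQ _ d2) f5 (ref1_mono hT d7 f3)))
  obtain ⟨α, hα, rfl⟩ := he w w1
  have P : ∀ᶠ x in (W : Filter (Set Ordinal.{0})), ∀ i < kx x, ∀ s1 ∈ PV (kx x),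
      ∀ s ∈ PV (kx x), ∀ β ∈ x, i < δ → (s1, π x β) ∈ m x i → s0 ⊆ s → s1 ⊆ s →
        ∃ g ∈ PV (kx x), s ⊆ g ∧ ref1_R T κ.ord g (e α) (e β) := by
    refine hW.diag_kx hl _ fun i _ => hW.diag_PV hl hκ _ fun s1 _ => hW.diag_PV hl hκ _
      fun s hs => hW.diag _ fun β hβ => ?_
    by_cases k : i < δ ∧ s0 ⊆ s ∧ s1 ⊆ s ∧ M i s1 β
    · obtain ⟨k1, k2, k3, k4⟩ := k
      obtain ⟨r, a1, a2, a3⟩ := same i k1 s1 β s1 β k4 k4 hβ hβ s hs k2 k3 k3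
      obtain ⟨a, f1, g, f2, f3, f4, f5⟩ := hit i k1 (r, β)
        ⟨a1, k2.trans a2, hβ, a3.1, s1, k3.trans a2, k4⟩
      obtain ⟨b0, b1, b2, b3, -⟩ := A1 _ f1
      have f6 := w3 ⟨(i, a), I3 i k1 a f1⟩ g f2 (b1.trans f4) ((I4 _).subset.trans f4)
      have f7 : ref1_R T κ.ord g (e α) (e a.2) := ⟨w2.subset.trans (b1.trans f4), f5.1,
        hT.anti f6 (hT.amal hb b0 (hQ _ b2) b3) (hQ _ b2) le_sup_right⟩
      exact (hW.mem_PV hl hκ f2).mono fun x q _ _ _ _ =>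
        ⟨g, q, a2.trans f3, ref1_trans hT hb f2 w1 (hQ _ b2) f7 f5⟩
    · by_cases k' : M i s1 β
      · exact Eventually.of_forall fun x k1 _ k2 k3 => (k ⟨k1, k2, k3, k'⟩).elim
      · exact (Ultrafilter.eventually_not.2 k').mono fun x q _ q' => (q q').elim
  filter_upwards [hp, H1, H2, P, hW.fine α hα, hW.mem_PV hl hκ h0, hW.lt_kx hl hδ]
    with x d1 d2 d3 d4 d5 d6 d7
  refine ⟨s0, d6, subset_rfl, π x α, Dn.of fun k k1 k2 => ?_, fun i hi z hz s _ a2 a3 g a4 a5 => ?_⟩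
  · have k3 : res κ.ord (T.gp (e α)) ⊆ k := w2.subset.trans k2
    exact (d1.vle_iff hT d5 d5 k1).2 ⟨k3, k3,
      hT.of_le (hT.amal hb (PV.mono k1 d1.lt.le) w1 k3) w1 le_sup_right⟩
  · obtain ⟨s1, v⟩ := z
    obtain ⟨_, -, -, b1⟩ := d3 i hi _ hz _ hz g a4 (a2.trans a5) (a3.trans a5) (a3.trans a5) g a4
      le_rfl
    obtain ⟨β, b2, -, -, b3, -⟩ := vle_rtk b1
    obtain rfl : v = π x β := b3
    obtain ⟨g', c1, c2, c3⟩ := d4 i (hi.trans d7) s1 (d2 i hi _ hz) g a4 β b2 hi hz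
      (a2.trans a5) (a3.trans a5)
    exact ⟨g', c1, c2, (d1.vle_iff hT d5 b2 c1).2 c3⟩

/-- The reflected ticket is good. Transitivity holds at every point (`vle_iff`, `sup`, `sle_sub`,
`trans`, `amal`). Closure: otherwise choose bad `δ x`, `s0 x`, `m x`, make `δ`, `s0` constant
(`diag_kx`, `diag_PV`, read contrapositively). Put
`O i = {(s', α) | s' ∈ PV κ.ord, s0 ⊆ s', α < l, res κ.ord (gp (e α)) ⊆ s',
∃ s ⊆ s', ∀ᶠ x, (s, π x α) ∈ m x i}`, take maximal antichains `A i ⊆ O i` (compatibility of first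
components in `PV κ.ord`; small by `hcc`), and apply `cl` at the cut `κ.ord` to the family
`up s' ⊔ e α` indexed by `Σ i < δ, A i`; directedness comes from directedness of almost all `m x`
after making the witnesses constant. The bound is `e α` for some `α < l`, and `(s0, π x α)` is a
bound for almost all `m x` (again by contradiction, making the failing data constant). -/
theorem good_rtk (hT : T.OK b) (hb : κ.ord ≤ b) (hW : NM κ (Iio l) W) (hl : κ.ord ≤ l)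
    (hκ : Stage κ.ord) (hcc : CC κ.ord (lc κ)) (he : ∀ u ∈ T.Q, ∃ α < l, e α = u)
    (hp : ∀ᶠ x in (W : Filter (Set Ordinal.{0})), RPt T κ e π o x) :
    ∀ᶠ x in (W : Filter (Set Ordinal.{0})), Good (PV (kx x)) (kx x) (rtk T κ e π x) := by
  have key : ∀ᶠ x in (W : Filter (Set Ordinal.{0})), ∀ δ < kx x, ∀ s0 ∈ PV (kx x),
      ∀ m : Ordinal.{0} → Set (Set At × Ordinal.{0}), (∀ i < δ, ∀ z ∈ m i, z.1 ∈ PV (kx x)) →
      (∀ i < δ, ∀ z ∈ m i, ∀ z' ∈ m i, ∀ s ∈ PV (kx x), s0 ⊆ s → z.1 ⊆ s → z'.1 ⊆ s →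
        Dn (PV (kx x)) s fun s' => vle s' (rtk T κ e π x, z.2) (rtk T κ e π x, z'.2)) →
      (∀ i < δ, ∀ j < δ, ∀ z ∈ m i, ∀ z' ∈ m j, ∀ s ∈ PV (kx x), s0 ⊆ s → z.1 ⊆ s → z'.1 ⊆ s →
        ∃ s' ∈ PV (kx x), s ⊆ s' ∧ ∃ k < δ, ∃ z'' ∈ m k, z''.1 ⊆ s' ∧
          vle s' (rtk T κ e π x, z''.2) (rtk T κ e π x, z.2) ∧
          vle s' (rtk T κ e π x, z''.2) (rtk T κ e π x, z'.2)) →
      ∃ s1 ∈ PV (kx x), s0 ⊆ s1 ∧ ∃ v,
        (Dn (PV (kx x)) s1 fun s' => vle s' (rtk T κ e π x, v) (rtk T κ e π x, v)) ∧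
        ∀ i < δ, ∀ z ∈ m i, ∀ s ∈ PV (kx x), s1 ⊆ s → z.1 ⊆ s →
          Dn (PV (kx x)) s fun s' => vle s' (rtk T κ e π x, v) (rtk T κ e π x, z.2) := by
    refine hW.diag_kx hl _ fun δ hδ => hW.diag_PV hl hκ _ fun s0 h0 => ?_
    by_contra hc
    obtain ⟨m, hm⟩ := ((Ultrafilter.eventually_not.2 hc).mono fun x k => not_forall.1 k).choice
    obtain ⟨x, a1, a2⟩ := (hm.and (ref1_cl hT hb hW hl hκ hcc he hp hδ h0 m
      (hm.mono fun x k => (Classical.not_imp.1 k).1)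
      (hm.mono fun x k => (Classical.not_imp.1 (Classical.not_imp.1 k).2).1)
      (hm.mono fun x k =>
        (Classical.not_imp.1 (Classical.not_imp.1 (Classical.not_imp.1 k).2).2).1))).exists
    exact a1 fun _ _ _ => a2
  filter_upwards [hp, key] with x h1 h2
  refine ⟨?_, fun s hs a a' a'' k1 k2 => Dn.of fun k _ k3 => vle.mono ?_ k3, h2⟩
  · rintro z ⟨α, a1, β, a2, a3, a4, a5, a6, -⟩
    exact ⟨a5, a6, a3 ▸ h1.bd α a1, a4 ▸ h1.bd β a2⟩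
  · obtain ⟨α, a1, β, a2, rfl, rfl⟩ := vle_rtk k1
    obtain ⟨-, -, γ, a3, -, rfl⟩ := vle_rtk k2
    exact (h1.vle_iff hT a1 a3 hs).2 (ref1_trans hT hb (PV.mono hs h1.lt.le) (h1.mem α a1).1
      (h1.mem β a2).1 ((h1.vle_iff hT a1 a2 hs).1 k1) ((h1.vle_iff hT a2 a3 hs).1 k2))

theorem ref2_mem (h : RPt T κ e π o x) (hT : T.OK b) (hb : κ.ord ≤ b) (hα : α ∈ x)
    (hs : s ∈ PV (kx x + 1)) (k : res κ.ord (T.gp (e α)) ⊆ s) : T.up s ⊔ e α ∈ T.Q :=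
  hT.amal hb (PV.mono hs (Order.add_one_le_of_lt h.lt)) (h.mem α hα).1 k

theorem ref2_vle (h : RPt T κ e π o x) (hT : T.OK b) (hb : κ.ord ≤ b) (hα : α ∈ x) (hβ : β ∈ x)
    (hs : s ∈ PV (kx x)) (k : res κ.ord (T.gp (e β)) ⊆ s) (m : e α ≤ e β) :
    vle s (rtk T κ e π x, π x β) (rtk T κ e π x, π x α) :=
  (h.vle_iff hT hβ hα hs).2 ⟨k, (res_mono (hT.gp_mono m)).trans k,
    hT.of_le (ref2_mem h hT hb hβ (PV.mono hs (lt_add_one _).le) k) (h.mem α hα).1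
      (m.trans le_sup_right)⟩

theorem ref2_sub (h : RPt T κ e π o x) (hα : α ∈ x) {p : Set At} (k : rio T κ e π o x α ⊆ p) :
    res κ.ord (T.gp (e α)) ⊆ res (kx x) p :=
  PV.sub_res (h.mem α hα).2 (subset_union_left.trans k)

theorem ref2_act {p : Set At} (k : rio T κ e π o x α ⊆ p) :
    (rtk T κ e π x, π x α) ∈ act p (kx x) s :=
  ⟨(0, 0), k (Or.inr (Or.inl rfl)), dec_zero ▸ empty_subset s⟩

/-- `π x α` is a least vertex of `rio o x α`. -/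
theorem RPt.rio_mem (h : RPt T κ e π o x) (hT : T.OK b) (hb : κ.ord ≤ b)
    (hg : Good (PV (kx x)) (kx x) (rtk T κ e π x)) (hα : α ∈ x) :
    rio T κ e π o x α ∈ PV (kx x + 1) := by
  have hR := (h.mem α hα).2
  have h0 : 0 < kx x := omega0_pos.trans h.st.omega_lt
  have hst : ∀ a ∈ ({rat T κ e π x α, rat T κ e π x o} : Set At), a.st = kx x := by
    rintro a (rfl | rfl) <;> rfl
  refine mem_PV.2 ⟨fun a ha => ha.elim (fun y => (PV.st hR a y).trans (lt_add_one _))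
    fun y => (hst a y).trans_lt (lt_add_one _), it2_easton_union (mem_PV.1 hR).2.1 fun δ hδ => ?_,
    fun γ => ?_⟩
  · by_cases k : kx x < δ.ord
    · exact ⟨kx x + 1, (isSuccLimit_ord hδ.aleph0_lt.le).add_one_lt k,
        fun a ha _ => (hst a ha).trans_lt (lt_add_one _)⟩
    · refine ⟨0, ?_, fun a ha y => (k (hst a ha ▸ y)).elim⟩
      rw [← ord_zero]
      exact Cardinal.ord_lt_ord.2 hδ.isRegular.pos
  by_cases k : γ = kx x
  · subst k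
    refine ⟨?_, fun s hs h1 _ => ⟨s, hs, subset_rfl, _, ref2_act subset_rfl, ?_⟩⟩
    · rintro a (y | rfl | rfl) ha
      · exact ((PV.st hR a y).ne ha).elim
      · exact ⟨h.st, h0, h0, hg, h.bd α hα⟩
      · exact ⟨h.st, h0, h0, hg, h.bd o h.zero.1⟩
    · rintro s' hs' h2 ⟨t, v⟩ ⟨c, y | y | y, -⟩
      · exact ((PV.st hR _ y).ne rfl).elim
      · obtain ⟨rfl, rfl⟩ : t = rtk T κ e π x ∧ v = π x α :=
          ⟨congrArg At.tk y, congrArg At.v y⟩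
        exact ⟨s', hs', subset_rfl, ref2_vle h hT hb hα hα hs'
          ((ref2_sub h hα subset_rfl).trans (h1.trans h2)) le_rfl⟩
      · obtain ⟨rfl, rfl⟩ : t = rtk T κ e π x ∧ v = π x o :=
          ⟨congrArg At.tk y, congrArg At.v y⟩
        exact ⟨s', hs', subset_rfl, ref2_vle h hT hb h.zero.1 hα hs'
          ((ref2_sub h hα subset_rfl).trans (h1.trans h2)) (h.zero.2.2 _)⟩
  · exact it2_congr (PV.valid hR γ) (fun a ha => ⟨fun y => y.elim id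
      fun z => (k (ha.symm.trans (hst a z))).elim, Or.inl⟩) (res_mono subset_union_left)

/-- A condition that contains the ground part, the least atom and an active copy of the vertex
forces the reflected condition. -/
theorem ref2_sle (h : RPt T κ e π o x) (hT : T.OK b) (hb : κ.ord ≤ b) (hα : α ∈ x) (hβ : β ∈ x)
    (k : e α ≤ e β) {p : Set At} (hp : p ∈ PV (kx x + 1)) (h1 : res κ.ord (T.gp (e β)) ⊆ p)
    (h2 : rat T κ e π x o ∈ p) (h3 : (rtk T κ e π x, π x β) ∈ act p (kx x) (res (kx x) p)) :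
    Sle p (rio T κ e π o x α) := by
  refine (Sle.of_sub hp ((res_mono (hT.gp_mono k)).trans h1)).union ?_
  rintro a (rfl | rfl)
  · exact fun s hs h4 _ => ⟨s, hs, subset_rfl, _, act_mono subset_rfl h4 h3,
      ref2_vle h hT hb hα hβ hs ((PV.sub_res (h.mem β hβ).2 h1).trans h4) k⟩
  · exact Sle.of_sub hp subset_rfl _ h2

/-- The master condition: apply `cl` at the cut `kx x + 1` with `s0 = {rat x o} = rio o x o` to
the family `up (rio o x α) ⊔ e α`, `α ∈ x` (a stage above `kx x` is above `fm (kx x)`).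
Directedness: if `s` contains `rio o x α` and `rio o x β`, take a least vertex `π x δ` of `s` at
stage `kx x`, forced by `s2 ∈ PV (kx x)` to lie below `π x α`, `π x β`; then
`s2 ∪ s` forces `rio o x δ`. -/
theorem RPt.master (h : RPt T κ e π o x) (hT : T.OK b) (hb : κ.ord ≤ b)
    (hg : Good (PV (kx x)) (kx x) (rtk T κ e π x)) :
    ∃ w ∈ T.Q, res (kx x + 1) (T.gp w) = {rat T κ e π x o} ∧ ∀ α ∈ x, ∀ s ∈ PV (kx x + 1),
      rio T κ e π o x α ⊆ s → T.sle (T.up s ⊔ w) (e α) := by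
  have hc : kx x + 1 ≤ κ.ord := Order.add_one_le_of_lt h.lt
  have hm : ∀ α : x, rio T κ e π o x α ∈ PV (kx x + 1) := fun α => h.rio_mem hT hb hg α.2
  have hQ : ∀ α : x, T.up (rio T κ e π o x α) ⊔ e α ∈ T.Q := fun α =>
    ref2_mem h hT hb α.2 (hm α) subset_union_left
  have hr : ∀ α : x, res (kx x + 1) (T.gp (T.up (rio T κ e π o x α) ⊔ e α)) =
      rio T κ e π o x α := fun α =>
    hT.res_up (hm α) ((res_mono_left hc).trans subset_union_left)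
  have h0 : rio T κ e π o x o = {rat T κ e π x o} := by
    rw [rio, h.zero.2.1, pair_eq_singleton]
    exact union_eq_right.2 ((res_sub _ _).trans (empty_subset _))
  obtain ⟨w, w1, w2, w3⟩ := hT.cl (c := kx x + 1) (ι := x)
    (u := fun α => T.up (rio T κ e π o x α) ⊔ e α) (s0 := {rat T κ e π x o}) (hc.trans hb)
    (fun γ hγ k => h.card.trans_le (Cardinal.lift_le.2
      (card_le_card (hγ.2.2 _ ((lt_add_one _).trans_le k)).le))) hQ (h0 ▸ hm ⟨o, h.zero.1⟩) (by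
    intro α β s hs s0 hα hβ
    rw [hr] at hα hβ
    obtain ⟨s1, a1, a2, ⟨t, v⟩, ⟨c, a3, a4⟩, a5⟩ :=
      (PV.valid hs (kx x)).2 _ (PV.res hs _) subset_rfl ⟨_, ref2_act hα⟩
    obtain ⟨s2, b1, b2, b3⟩ := a5 s1 a1 subset_rfl _ (ref2_act hα)
    obtain ⟨s3, c1, c2, c3⟩ := a5 s2 b1 b2 _ (ref2_act hβ)
    obtain rfl : t = rtk T κ e π x := b3.1
    obtain ⟨δ, hδ, -, -, rfl, -⟩ := vle_rtk b3
    obtain ⟨d1, -, d2⟩ := (h.vle_iff hT hδ α.2 c1).1 (b3.mono c2)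
    obtain ⟨-, -, d3⟩ := (h.vle_iff hT hδ β.2 c1).1 c3
    have e1 : s3 ∪ s ∈ PV (kx x + 1) :=
      PV.amal c1 hs (a2.trans (b2.trans c2)) (lt_add_one _).le
    have e2 : s3 ∪ s ∪ rio T κ e π o x δ ∈ PV (kx x + 1) :=
      (ref2_sle h hT hb hδ hδ le_rfl e1 (d1.trans subset_union_left) (Or.inr (s0 rfl))
        ⟨c, Or.inr a3, a4.trans (b2.trans (c2.trans
          (PV.sub_res c1 subset_union_left)))⟩).union_mem e1 (hm ⟨δ, hδ⟩)
    have e3 := hT.amal (hc.trans hb) e2 (hQ ⟨δ, hδ⟩) ((hr ⟨δ, hδ⟩).trans_subset subset_union_right)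
    have e4 : s ⊆ s3 ∪ s ∪ rio T κ e π o x δ := subset_union_right.trans subset_union_left
    have e5 : T.up s3 ⊔ e δ ≤
        T.up (s3 ∪ s ∪ rio T κ e π o x δ) ⊔ (T.up (rio T κ e π o x δ) ⊔ e δ) :=
      sup_le_sup (hT.up_mono (subset_union_left.trans subset_union_left)) le_sup_right
    exact ⟨_, e2, e4, ⟨δ, hδ⟩, (hr ⟨δ, hδ⟩).trans_subset subset_union_right,
      hT.sup (hT.sle_sub e3 (hm α) (hα.trans (e4.trans (hT.sub_gp _ _)))) (hT.mono d2 e5),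
      hT.sup (hT.sle_sub e3 (hm β) (hβ.trans (e4.trans (hT.sub_gp _ _)))) (hT.mono d3 e5)⟩)
  exact ⟨w, w1, w2, fun α hα s hs k => hT.anti (w3 ⟨α, hα⟩ s hs
    (singleton_subset_iff.2 (k (Or.inr (Or.inr rfl)))) ((hr ⟨α, hα⟩).trans_subset k))
    (hQ ⟨α, hα⟩) (h.mem α hα).1 le_sup_right⟩

theorem RPt.sle_rio (h : RPt T κ e π o x) (hT : T.OK b) (hb : κ.ord ≤ b)
    (hg : Good (PV (kx x)) (kx x) (rtk T κ e π x)) (hα : α ∈ x) (hβ : β ∈ x) (k : e α ≤ e β) :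
    Sle (rio T κ e π o x β) (rio T κ e π o x α) :=
  ref2_sle h hT hb hα hβ k (h.rio_mem hT hb hg hβ) subset_union_left (Or.inr (Or.inr rfl))
    (ref2_act subset_rfl)

theorem ref3_min (hs : s ∈ PV (kx x + 1)) (h : rio T κ e π o x α ⊆ s) :
    ∃ δ ∈ x, ∃ r ∈ PV (kx x), res (kx x) s ⊆ r ∧
      MinV (PV (kx x)) s (kx x) r (rtk T κ e π x, π x δ) ∧
        vle r (rtk T κ e π x, π x δ) (rtk T κ e π x, π x α) := by
  have m : ∀ t, (rtk T κ e π x, π x α) ∈ act s (kx x) t := fun t =>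
    ⟨(0, 0), h (Or.inr (Or.inl rfl)), dec_zero ▸ empty_subset _⟩
  obtain ⟨s1, a1, a2, ⟨t, v⟩, a3⟩ :=
    (PV.valid hs (kx x)).2 _ (PV.res hs (kx x)) subset_rfl ⟨_, m _⟩
  obtain ⟨s2, b1, b2, b3⟩ := a3.2 s1 a1 subset_rfl _ (m s1)
  obtain rfl : t = rtk T κ e π x := b3.1
  obtain ⟨δ, c1, _, -, rfl, -⟩ := vle_rtk b3
  exact ⟨δ, c1, s2, b1, a2.trans b2, cl1_minv a3 b2, b3⟩

theorem ref3_const (hW : NM κ (Iio l) W) (hl : κ.ord ≤ l) (hκ : Stage κ.ord)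
    {p : Set Ordinal.{0} → Set At → Prop}
    (h : ∀ᶠ x in (W : Filter (Set Ordinal.{0})), ∃ r ∈ PV (kx x), p x r) :
    ∃ r ∈ PV κ.ord, ∀ᶠ x in (W : Filter (Set Ordinal.{0})), r ∈ PV (kx x) ∧ p x r := by
  by_contra hn
  obtain ⟨x, a, r, b, c⟩ := ((hW.diag_PV hl hκ (fun x r => ¬ (r ∈ PV (kx x) ∧ p x r))
    fun r k => Ultrafilter.eventually_not.2 fun k' => hn ⟨r, k, k'⟩).and h).exists
  exact a r b ⟨b, c⟩

/-- For almost all `x` take `r x ∈ PV (kx x)` containing `res (kx x) (s x)` and forcing that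
`π x (δ x)` is a least vertex of `s x` lying below `π x α`; make `r`, `δ` constant and let
`e β = up r ⊔ e δ ⊔ e α`. -/
theorem rio_key (hT : T.OK b) (hb : κ.ord ≤ b) (hW : NM κ (Iio l) W) (hl : κ.ord ≤ l)
    (hκ : Stage κ.ord) (he : ∀ u ∈ T.Q, ∃ α < l, e α = u)
    (hp : ∀ᶠ x in (W : Filter (Set Ordinal.{0})), RPt T κ e π o x ∧
      Good (PV (kx x)) (kx x) (rtk T κ e π x)) (hα : α < l) (s : Set Ordinal.{0} → Set At)
    (hs : ∀ᶠ x in (W : Filter (Set Ordinal.{0})), s x ∈ PV (kx x + 1) ∧ rio T κ e π o x α ⊆ s x) :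
    ∃ β < l, e β ∈ T.Q ∧ e α ≤ e β ∧
      ∀ᶠ x in (W : Filter (Set Ordinal.{0})), Sle (rio T κ e π o x β) (s x) := by
  have h1 : ∀ᶠ x in (W : Filter (Set Ordinal.{0})), ∃ δ ∈ x, ∃ r ∈ PV (kx x),
      res (kx x) (s x) ⊆ r ∧ MinV (PV (kx x)) (s x) (kx x) r (rtk T κ e π x, π x δ) ∧
        vle r (rtk T κ e π x, π x δ) (rtk T κ e π x, π x α) := by
    filter_upwards [hs] with x a
    exact ref3_min a.1 a.2
  obtain ⟨δ, h0, h2⟩ := hW.const h1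
  obtain ⟨r, hr, h3⟩ := ref3_const hW hl hκ h2
  have h4 := hW.fine δ h0
  obtain ⟨x0, ⟨a1, a2⟩, a3, a4, a5⟩ := (h3.and (hp.and (h4.and (hW.fine α hα)))).exists
  obtain ⟨b1, b2, b3⟩ := (a3.1.vle_iff hT a4 a5 a1).1 a2.2.2
  have q1 : e δ ∈ T.Q := (a3.1.mem δ a4).1
  have q2 : T.up r ⊔ e δ ⊔ e α ∈ T.Q :=
    hT.sup_mem b3 (hT.amal hb hr q1 b1) (a3.1.mem α a5).1
  obtain ⟨β, c1, c2⟩ := he _ q2
  have q3 : res κ.ord (T.gp (e β)) = r := by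
    rw [c2, hT.gp_sup, res_union, hT.res_up hr b1, union_eq_left.2 b2]
  have q4 : e δ ≤ e β := c2 ▸ le_sup_right.trans le_sup_left
  refine ⟨β, c1, c2 ▸ q2, c2 ▸ le_sup_right, ?_⟩
  filter_upwards [h3, hp, h4, hW.fine β c1, hs] with x ⟨d1, d2, d3, _⟩ ⟨d4, d5⟩ d6 d7 d8
  have q5 : r ⊆ rio T κ e π o x β := q3 ▸ subset_union_left
  intro a ha
  rcases (Order.lt_add_one_iff.1 (PV.st d8.1 a ha)).eq_or_lt with k | k
  · intro t ht f1 f2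
    rw [k] at ht f1 ⊢
    have f3 : r ⊆ t := (PV.sub_res d1 q5).trans f1
    obtain ⟨t1, g1, g2, g3⟩ := d3.2 t ht f3 (a.tk, a.v) ⟨a.tag, k ▸ ha, f2⟩
    have g4 : vle t1 (rtk T κ e π x, π x β) (rtk T κ e π x, π x δ) :=
      (d4.vle_iff hT d7 d6 g1).2 ⟨q3 ▸ f3.trans g2, b1.trans (f3.trans g2),
        hT.mono (hT.of_le (c2 ▸ q2) q1 q4) le_sup_right⟩
    obtain ⟨t2, i1, i2, i3⟩ := it2_trans (z' := (rtk T κ e π x, π x δ)) d5 g1 g4 g3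
    exact ⟨t2, i1, g2.trans i2, _, ⟨(0, 0), Or.inr (Or.inl rfl), dec_zero ▸ empty_subset _⟩, i3⟩
  · exact ((Sle.of_sub d1 d2).mono q5) a ⟨ha, k⟩

/-- Reflection data. -/
structure Rf (T : Tw X) (W : Ultrafilter (Set Ordinal.{0})) (ι : Set Ordinal.{0} → X → Set At)
    (m : Set Ordinal.{0} → Set At) (w : Set Ordinal.{0} → X) : Prop where
  mem : ∀ᶠ x in (W : Filter (Set Ordinal.{0})),
    m x ∈ PV (kx x + 1) ∧ w x ∈ T.Q ∧ res (kx x + 1) (T.gp (w x)) = m x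
  io : ∀ u ∈ T.Q, ∀ᶠ x in (W : Filter (Set Ordinal.{0})), ι x u ∈ PV (kx x + 1) ∧ m x ⊆ ι x u ∧
    ∀ s ∈ PV (kx x + 1), ι x u ⊆ s → T.sle (T.up s ⊔ w x) u
  mono : ∀ u ∈ T.Q, ∀ u' ∈ T.Q, u ≤ u' →
    ∀ᶠ x in (W : Filter (Set Ordinal.{0})), Sle (ι x u') (ι x u)
  key : ∀ u ∈ T.Q, ∀ s : Set Ordinal.{0} → Set At,
    (∀ᶠ x in (W : Filter (Set Ordinal.{0})), s x ∈ PV (kx x + 1) ∧ ι x u ⊆ s x) →
    ∃ u' ∈ T.Q, u ≤ u' ∧ ∀ᶠ x in (W : Filter (Set Ordinal.{0})), Sle (ι x u') (s x)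

/-- Enumerate `T.Q` by `e` (`exists_enum` with the least element as default value), choose an
index `n u < lam.ord` for each `u`, injections `π x : x → Iio (fm (kx x))` (`exists_code`), and
put `ι x u = rio o x (n u)`. For `key`, if `e β = u'` then `rio o x (n u')` forces `rio o x β`
by `sle_rio`. -/
theorem exists_rf (hT : T.OK b) (hb : κ.ord ≤ b) {lam : Cardinal.{0}} (hW : NM κ (Iio lam.ord) W)
    (hl : κ ≤ lam) (hκ : Stage κ.ord) (hcc : CC κ.ord (lc κ)) (hQ : #T.Q ≤ lc lam)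
    (hm : ∀ᶠ x : Set Ordinal.{0} in (W : Filter (Set Ordinal.{0})), #x < lc (fm (kx x)).card) :
    ∃ ι m w, Rf T W ι m w := by
  obtain ⟨o0, o1, o2, o3⟩ := hT.bot
  obtain ⟨e, e1, e2⟩ := exists_enum hQ o0
  have e3 : ∀ ξ, e ξ ∈ T.Q := fun ξ => (e1 ξ).elim id fun k => k ▸ o1
  have e4 : ∀ u, ∃ ξ, u ∈ T.Q → ξ < lam.ord ∧ e ξ = u := fun u => by
    by_cases k : u ∈ T.Q
    · obtain ⟨ξ, a⟩ := e2 u k
      exact ⟨ξ, fun _ => a⟩
    · exact ⟨0, fun a => (k a).elim⟩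
  choose n hn using e4
  have e5 : ∀ x : Set Ordinal.{0}, ∃ φ : Ordinal.{0} → Ordinal.{0}, Stage (kx x) →
      (∀ a, φ a < fm (kx x)) ∧ (#x ≤ lc (fm (kx x)).card → InjOn φ x) := fun x => by
    by_cases k : Stage (kx x)
    · obtain ⟨φ, a, c⟩ := exists_code (κ := (fm (kx x)).card)
        (k.1.aleph0_lt.le.trans (card_le_card (lt_fm _).le)) x
      exact ⟨φ, fun _ => ⟨fun y => (a y).trans_le (ord_card_le _), c⟩⟩
    · exact ⟨id, fun a => (k a).elim⟩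
  choose π hπ using e5
  have hl' : κ.ord ≤ lam.ord := Cardinal.ord_le_ord.2 hl
  have h1 : ∀ᶠ x in (W : Filter (Set Ordinal.{0})), RPt T κ e π (n o0) x := by
    filter_upwards [hW.kx_stage hl' hκ, hW.kx_spec hl', hm, hW.fine _ (hn o0 o1).1,
      hW.diag (fun x ξ => res κ.ord (T.gp (e ξ)) ∈ PV (kx x))
        fun ξ _ => hW.mem_PV hl' hκ (hT.res_mem (e3 ξ) _)] with x a1 a2 a3 a4 a5
    exact ⟨a1, a2.1, a3, (hπ x a1).2 a3.le, fun y _ => (hπ x a1).1 y,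
      fun y k => ⟨e3 y, a5 y k⟩, a4, (hn o0 o1).2.symm ▸ o2, (hn o0 o1).2.symm ▸ o3⟩
  have h2 := h1.and (good_rtk hT hb hW hl' hκ hcc e2 h1)
  have e6 : ∀ x : Set Ordinal.{0}, ∃ w, RPt T κ e π (n o0) x ∧
      Good (PV (kx x)) (kx x) (rtk T κ e π x) → w ∈ T.Q ∧
        res (kx x + 1) (T.gp w) = {rat T κ e π x (n o0)} ∧ ∀ α ∈ x, ∀ s ∈ PV (kx x + 1),
          rio T κ e π (n o0) x α ⊆ s → T.sle (T.up s ⊔ w) (e α) := fun x => by
    by_cases k : RPt T κ e π (n o0) x ∧ Good (PV (kx x)) (kx x) (rtk T κ e π x)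
    · obtain ⟨w, a⟩ := k.1.master hT hb k.2
      exact ⟨w, fun _ => a⟩
    · exact ⟨o0, fun a => (k a).elim⟩
  choose w hw using e6
  refine ⟨fun x u => rio T κ e π (n o0) x (n u), fun x => {rat T κ e π x (n o0)}, w,
    h2.mono fun x a => ⟨(hw x a).2.1 ▸ hT.res_mem (hw x a).1 _, (hw x a).1, (hw x a).2.1⟩,
    fun u hu => ?_, fun u hu u' hu' k => ?_, fun u hu s hs => ?_⟩
  · filter_upwards [h2, hW.fine _ (hn u hu).1] with x a c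
    refine ⟨a.1.rio_mem hT hb a.2 c, singleton_subset_iff.2 (Or.inr (Or.inr rfl)),
      fun s d f => ?_⟩
    have := (hw x a).2.2 _ c s d f
    rwa [(hn u hu).2] at this
  · filter_upwards [h2, hW.fine _ (hn u hu).1, hW.fine _ (hn u' hu').1] with x a c d
    exact a.1.sle_rio hT hb a.2 c d (by rwa [(hn u hu).2, (hn u' hu').2])
  · obtain ⟨β, b1, b2, b3, b4⟩ := rio_key hT hb hW hl' hκ e2 h2 (hn u hu).1 s hs
    refine ⟨e β, b2, (hn u hu).2 ▸ b3, ?_⟩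
    filter_upwards [h2, hW.fine _ b1, hW.fine _ (hn _ b2).1, b4] with x a c d f
    exact (a.1.sle_rio hT hb a.2 c d (hn _ b2).2.ge).trans f (a.1.rio_mem hT hb a.2 c)

end Pool.Agent.SC7292
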