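import Pool.Agent.SC7292.NM

/-!
The preparatory iteration. Conditions are sets of atoms ordered by reverse inclusion. An atom
names a vertex of a ticket (a name of a directed closed preorder) below a tag.
-/

namespace Pool.Agent.SC7292

open Cardinal Ordinal Set Filter Function Pool.Agent.MP_7b2404_lc

/-- `p` holds densely below `g` in `Q` (larger means stronger). -/
def Dn {X : Type 1} [Preorder X] (Q : Set X) (g : X) (p : X → Prop) : Prop :=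
  ∀ g' ∈ Q, g ≤ g' → ∃ g'' ∈ Q, g' ≤ g'' ∧ p g''

theorem Dn.mono {X : Type 1} [Preorder X] {Q : Set X} {g g' : X} {p : X → Prop} (h : Dn Q g p)
    (e : g ≤ g') : Dn Q g' p := fun k a b => h k a (e.trans b)

theorem Dn.imp {X : Type 1} [Preorder X] {Q : Set X} {g : X} {p p' : X → Prop} (h : Dn Q g p)
    (e : ∀ k ∈ Q, g ≤ k → p k → p' k) : Dn Q g p' := fun k a b =>
  let ⟨k', c, d, f⟩ := h k a b
  ⟨k', c, d, e _ c (b.trans d) f⟩

theorem Dn.of {X : Type 1} [Preorder X] {Q : Set X} {g : X} {p : X → Prop}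
    (e : ∀ k ∈ Q, g ≤ k → p k) : Dn Q g p := fun k a b => ⟨k, a, le_rfl, e k a b⟩

theorem Dn.dn {X : Type 1} [Preorder X] {Q : Set X} {g : X} {p : X → Prop}
    (h : Dn Q g fun k => Dn Q k p) : Dn Q g p := fun k a b =>
  let ⟨k', c, d, f⟩ := h k a b
  let ⟨k'', x, y, z⟩ := f k' c le_rfl
  ⟨k'', x, d.trans y, z⟩

/-- Maximal antichains. -/
theorem exists_anti {Y : Type 1} (O : Set Y) (r : Y → Y → Prop) (h1 : ∀ a ∈ O, r a a)
    (h2 : ∀ a b, r a b → r b a) :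
    ∃ A ⊆ O, (∀ a ∈ A, ∀ b ∈ A, r a b → a = b) ∧ ∀ o ∈ O, ∃ a ∈ A, r o a := by
  obtain ⟨A, hA⟩ := zorn_subset {A : Set Y | A ⊆ O ∧ ∀ a ∈ A, ∀ b ∈ A, r a b → a = b} (by
    intro C hC hc
    refine ⟨⋃₀ C, ⟨sUnion_subset fun A hA => (hC hA).1, ?_⟩, fun A hA => subset_sUnion_of_mem hA⟩
    rintro a ⟨A, hA, ha⟩ b ⟨B, hB, hb⟩ e
    rcases hc.total hA hB with k | k
    exacts [(hC hB).2 a (k ha) b hb e, (hC hA).2 a ha b (k hb) e])
  refine ⟨A, hA.prop.1, hA.prop.2, fun o ho => ?_⟩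
  by_contra hn
  push Not at hn
  have : insert o A ⊆ A := hA.le_of_ge ⟨insert_subset ho hA.prop.1, by
    rintro a (rfl | ha) b (rfl | hb) e
    exacts [rfl, (hn b hb e).elim, (hn a ha (h2 _ _ e)).elim, hA.prop.2 a ha b hb e]⟩
    (subset_insert o A)
  exact hn o (this (mem_insert o A)) (h1 o ho)

/-- Transfinite constructions. -/
theorem exists_seq {ι Y : Type 1} [Nonempty Y] (r : ι → ι → Prop) (hr : WellFounded r)
    (P : ι → Y → Prop) (R : ι → ι → Y → Y → Prop)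
    (h : ∀ i (F : ι → Y), (∀ j, r j i → P j (F j) ∧ ∀ k, r k j → R j k (F j) (F k)) →
      ∃ y, P i y ∧ ∀ j, r j i → R i j y (F j)) (ht : Transitive r) :
    ∃ F : ι → Y, ∀ i, P i (F i) ∧ ∀ k, r k i → R i k (F i) (F k) := by
  have _ := ht
  let F : ι → Y := hr.fix fun i G =>
    Classical.epsilon fun y => P i y ∧ ∀ j (k : r j i), R i j y (G j k)
  have hF : ∀ i, F i = Classical.epsilon fun y => P i y ∧ ∀ j, r j i → R i j y (F j) :=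
    fun i => hr.fix_eq _ i
  refine ⟨F, fun i => hr.induction (C := fun i => P i (F i) ∧ ∀ k, r k i → R i k (F i) (F k)) i
    fun i ih => ?_⟩
  have := Classical.epsilon_spec (h i F ih)
  rwa [← hF i] at this

/-- Codes of sets of atoms. -/
abbrev Cd : Type 1 := Ordinal.{0} × Ordinal.{0}

/-- Tickets. -/
abbrev Tk : Type 1 := Set (Cd × Ordinal.{0} × Ordinal.{0})

/-- Atoms: stage, code of the tag, ticket, vertex. -/
@[ext] structure At : Type 1 where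
  st : Ordinal.{0}
  tag : Cd
  tk : Tk
  v : Ordinal.{0}

/-- Atoms built from ordinals below `β`. -/
def Bd (β : Ordinal.{0}) : Set At := {a | a.st < β ∧ a.tag.1 < β ∧ a.tag.2 < β ∧
  (∀ e ∈ a.tk, e.1.1 < β ∧ e.1.2 < β ∧ e.2.1 < β ∧ e.2.2 < β) ∧ a.v < β}

theorem mk_Bd {χ : Cardinal.{0}} (hχ : χ.IsStrongLimit) {β : Ordinal.{0}} (h : β < χ.ord) :
    #(Bd β) < lc χ := by
  have h1 := mk_Iio_lt h
  have h2 := mk_prod_lt hχ.aleph0_le h1 h1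
  have h3 := mk_subsets hχ (mk_prod_lt hχ.aleph0_le h2 h2)
  refine mk_lt_of_map (mk_prod_lt hχ.aleph0_le h1 (mk_prod_lt hχ.aleph0_le h2
    (mk_prod_lt hχ.aleph0_le h3 h1))) (fun a : At => (a.st, a.tag, a.tk, a.v))
    (fun a ⟨a1, a2, a3, a4, a5⟩ => ⟨a1, ⟨a2, a3⟩, fun e he => ?_, a5⟩) fun a _ b _ e => ?_
  · obtain ⟨b1, b2, b3, b4⟩ := a4 e he
    exact ⟨⟨b1, b2⟩, b3, b4⟩
  · simp only [Prod.mk.injEq] at e
    exact At.ext e.1 e.2.1 e.2.2.1 e.2.2.2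

theorem it1_strong (β : Ordinal.{0}) : ∃ χ : Cardinal.{0}, χ.IsStrongLimit ∧ β < χ.ord :=
  ⟨ℶ_ (β + ω), isStrongLimit_beth.2 (isSuccLimit_add β isSuccLimit_omega0).isSuccPrelimit,
    lt_ord.2 (β.card_le_beth.trans_lt (beth_lt_beth.2 (lt_add_of_pos_right β omega0_pos)))⟩

/-- Enumerate the subsets of `Bd β` by the ordinals below the cardinal `#{S | S ⊆ Bd β}`
(`exists_enum`; it is a lift since it is below some strong limit). -/
theorem exists_dec : ∃ D : Cd → Set At, (∀ c, D c ⊆ Bd c.1) ∧ ∀ β, ∀ S ⊆ Bd β, ∃ ξ,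
    D (β, ξ) = S ∧ ∀ χ : Cardinal.{0}, χ.IsStrongLimit → β < χ.ord → ξ < χ.ord := by
  have key : ∀ β : Ordinal.{0}, ∃ e : Ordinal.{0} → Set At, (∀ ξ, e ξ ⊆ Bd β) ∧ ∀ S ⊆ Bd β, ∃ ξ,
      e ξ = S ∧ ∀ χ : Cardinal.{0}, χ.IsStrongLimit → β < χ.ord → ξ < χ.ord := by
    intro β
    obtain ⟨χ, h1, h2⟩ := it1_strong β
    obtain ⟨κ, -, hκ⟩ := Cardinal.lt_lift_iff.1 (mk_subsets h1 (mk_Bd h1 h2))
    obtain ⟨e, a, b⟩ := exists_enum (κ := κ) (S := {S | S ⊆ Bd β}) hκ.ge ∅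
    refine ⟨e, fun ξ => (a ξ).elim id fun k => k ▸ empty_subset _, fun S hS => ?_⟩
    obtain ⟨ξ, c, d⟩ := b S hS
    refine ⟨ξ, d, fun χ' h3 h4 => c.trans (Cardinal.ord_lt_ord.2 ?_)⟩
    have := mk_subsets h3 (mk_Bd h3 h4)
    rw [← hκ] at this
    exact Cardinal.lift_lt.1 this
  choose e a b using key
  exact ⟨fun c => e c.1 c.2, fun c => a c.1 c.2, b⟩

/-- Decoding. -/
noncomputable def dec : Cd → Set At := exists_dec.choose

theorem dec_sub (c : Cd) : dec c ⊆ Bd c.1 := exists_dec.choose_spec.1 c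

theorem dec_zero : dec (0, 0) = ∅ :=
  eq_empty_of_subset_empty fun _ h => (not_lt_zero (dec_sub _ h).1).elim

/-- Restriction. -/
def res (c : Ordinal.{0}) (p : Set At) : Set At := {a ∈ p | a.st < c}

/-- Vertices of `p` at stage `γ` whose tags lie in `s`. -/
def act (p : Set At) (γ : Ordinal.{0}) (s : Set At) : Set (Tk × Ordinal.{0}) :=
  {z | ∃ c, (⟨γ, c, z.1, z.2⟩ : At) ∈ p ∧ dec c ⊆ s}

/-- `s` puts `z` below `z'`. -/
def vle (s : Set At) (z z' : Tk × Ordinal.{0}) : Prop :=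
  z.1 = z'.1 ∧ ∃ c, (c, z.2, z'.2) ∈ z.1 ∧ dec c ⊆ s

/-- Tickets that name directed closed preorders over `S`. -/
structure Good (S : Set (Set At)) (γ : Ordinal.{0}) (t : Tk) : Prop where
  bd : ∀ e ∈ t, e.1.1 < γ ∧ e.1.2 < γ ∧ e.2.1 < fm γ ∧ e.2.2 < fm γ
  trans : ∀ s ∈ S, ∀ a b d, vle s (t, a) (t, b) → vle s (t, b) (t, d) →
    Dn S s fun s' => vle s' (t, a) (t, d)
  cl : ∀ δ < γ, ∀ s0 ∈ S, ∀ m : Ordinal.{0} → Set (Set At × Ordinal.{0}),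
    (∀ i < δ, ∀ e ∈ m i, e.1 ∈ S) →
    (∀ i < δ, ∀ e ∈ m i, ∀ e' ∈ m i, ∀ s ∈ S, s0 ⊆ s → e.1 ⊆ s → e'.1 ⊆ s →
      Dn S s fun s' => vle s' (t, e.2) (t, e'.2)) →
    (∀ i < δ, ∀ j < δ, ∀ e ∈ m i, ∀ e' ∈ m j, ∀ s ∈ S, s0 ⊆ s → e.1 ⊆ s → e'.1 ⊆ s →
      ∃ s' ∈ S, s ⊆ s' ∧ ∃ k < δ, ∃ e'' ∈ m k, e''.1 ⊆ s' ∧ vle s' (t, e''.2) (t, e.2) ∧
        vle s' (t, e''.2) (t, e'.2)) →
    ∃ s1 ∈ S, s0 ⊆ s1 ∧ ∃ v, (Dn S s1 fun s' => vle s' (t, v) (t, v)) ∧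
      ∀ i < δ, ∀ e ∈ m i, ∀ s ∈ S, s1 ⊆ s → e.1 ⊆ s → Dn S s fun s' => vle s' (t, v) (t, e.2)

/-- `s` forces that `z` is a least vertex of `p` at stage `γ`. -/
def MinV (S : Set (Set At)) (p : Set At) (γ : Ordinal.{0}) (s : Set At) (z : Tk × Ordinal.{0}) :
    Prop :=
  z ∈ act p γ s ∧ ∀ s' ∈ S, s ⊆ s' → ∀ z' ∈ act p γ s', ∃ s'' ∈ S, s' ⊆ s'' ∧ vle s'' z z'

/-- Validity at stage `γ` over `S`. -/
def ValidAt (S : Set (Set At)) (γ : Ordinal.{0}) (p : Set At) : Prop :=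
  (∀ a ∈ p, a.st = γ → Stage γ ∧ a.tag.1 < γ ∧ a.tag.2 < γ ∧ Good S γ a.tk ∧ a.v < fm γ) ∧
    ∀ s ∈ S, res γ p ⊆ s → (act p γ s).Nonempty → ∃ s' ∈ S, s ⊆ s' ∧ ∃ z, MinV S p γ s' z

/-- Easton support. -/
def Easton (p : Set At) : Prop := ∀ δ : Cardinal.{0}, δ.IsInaccessible →
  ∃ β < δ.ord, ∀ a ∈ p, a.st < δ.ord → a.st < β

/-- The iteration up to `γ`. -/
def PV (γ : Ordinal.{0}) : Set (Set At) :=
  {p | (∀ a ∈ p, a.st < γ) ∧ Easton p ∧ ∀ γ' : Iio γ, ValidAt (PV γ'.1) γ'.1 p}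
termination_by γ
decreasing_by exact γ'.2

variable {c d γ : Ordinal.{0}} {p p' s s' u u' w : Set At}

theorem it2_none {S : Set (Set At)} (h : ∀ a ∈ p, a.st ≠ γ) : ValidAt S γ p :=
  ⟨fun a ha e => (h a ha e).elim, fun _ _ _ ⟨_, _, ha, _⟩ => (h _ ha rfl).elim⟩

theorem it2_congr {S : Set (Set At)} (hp : ValidAt S γ p)
    (h : ∀ a : At, a.st = γ → (a ∈ p' ↔ a ∈ p)) (k : res γ p ⊆ res γ p') : ValidAt S γ p' := by
  have e : ∀ s, act p' γ s = act p γ s := fun s =>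
    Set.ext fun z => exists_congr fun c => and_congr_left' (h _ rfl)
  refine ⟨fun a ha e => hp.1 a ((h a e).1 ha) e, fun s hs h1 h2 => ?_⟩
  obtain ⟨s', a1, a2, z, a3⟩ := hp.2 s hs (k.trans h1) (e s ▸ h2)
  refine ⟨s', a1, a2, z, ?_⟩
  simpa only [MinV, e] using a3

theorem it2_easton_sub (h : Easton p) (k : p' ⊆ p) : Easton p' := fun δ hδ =>
  let ⟨β, a1, a2⟩ := h δ hδ
  ⟨β, a1, fun a ha => a2 a (k ha)⟩

theorem it2_easton_union (h : Easton p) (k : Easton p') : Easton (p ∪ p') := fun δ hδ =>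
  let ⟨β, a1, a2⟩ := h δ hδ
  let ⟨β', b1, b2⟩ := k δ hδ
  ⟨max β β', max_lt a1 b1, fun a ha e => ha.elim (fun x => lt_max_of_lt_left (a2 a x e))
    fun x => lt_max_of_lt_right (b2 a x e)⟩

theorem mem_PV : p ∈ PV γ ↔ (∀ a ∈ p, a.st < γ) ∧ Easton p ∧ ∀ γ', ValidAt (PV γ') γ' p := by
  rw [PV]
  refine and_congr_right fun h => and_congr_right' ⟨fun k γ' => ?_, fun k γ' => k γ'.1⟩
  by_cases e : γ' < γ
  · exact k ⟨γ', e⟩
  · exact it2_none fun a ha e' => e (e' ▸ h a ha)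

theorem res_sub (c : Ordinal.{0}) (p : Set At) : res c p ⊆ p := sep_subset _ _

theorem res_mono (h : p ⊆ p') : res c p ⊆ res c p' := fun _ a => ⟨h a.1, a.2⟩

theorem res_mono_left (h : c ≤ d) : res c p ⊆ res d p := fun _ a => ⟨a.1, a.2.trans_le h⟩

theorem res_res (h : c ≤ d) : res c (res d p) = res c p :=
  Set.ext fun _ => ⟨fun a => ⟨a.1.1, a.2⟩, fun a => ⟨⟨a.1, a.2.trans_le h⟩, a.2⟩⟩

theorem res_union : res c (p ∪ p') = res c p ∪ res c p' := sep_union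

theorem PV.st (h : p ∈ PV γ) : ∀ a ∈ p, a.st < γ := (mem_PV.1 h).1

theorem PV.res_eq (h : p ∈ PV c) (k : c ≤ d) : res d p = p :=
  Set.ext fun a => ⟨fun b => b.1, fun b => ⟨b, (PV.st h a b).trans_le k⟩⟩

theorem PV.sub_res (h : s ∈ PV c) (k : s ⊆ p) : s ⊆ res c p := fun a b => ⟨k b, PV.st h a b⟩

theorem PV.valid (h : p ∈ PV d) (γ : Ordinal.{0}) : ValidAt (PV γ) γ p := (mem_PV.1 h).2.2 γ

theorem PV.mono (h : p ∈ PV c) (k : c ≤ d) : p ∈ PV d :=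
  mem_PV.2 ⟨fun a b => (PV.st h a b).trans_le k, (mem_PV.1 h).2⟩

theorem PV.of_st (h : p ∈ PV d) (k : ∀ a ∈ p, a.st < c) : p ∈ PV c :=
  mem_PV.2 ⟨k, (mem_PV.1 h).2⟩

theorem empty_PV (γ : Ordinal.{0}) : ∅ ∈ PV γ := by
  refine mem_PV.2 ⟨fun _ h => h.elim, fun δ hδ => ⟨0, ?_, fun _ h => h.elim⟩,
    fun _ => it2_none fun _ h => h.elim⟩
  rw [← ord_zero]
  exact Cardinal.ord_lt_ord.2 hδ.isRegular.pos

theorem PV.res (h : p ∈ PV d) (c : Ordinal.{0}) : res c p ∈ PV c := by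
  refine mem_PV.2 ⟨fun _ h => h.2, it2_easton_sub (mem_PV.1 h).2.1 (res_sub _ _), fun γ => ?_⟩
  by_cases e : γ < c
  · exact it2_congr (PV.valid h γ) (fun a ha => ⟨fun x => x.1, fun x => ⟨x, ha ▸ e⟩⟩)
      (res_res e.le).symm.subset
  · exact it2_none fun a ha e' => e (e' ▸ ha.2)

/-- Amalgamation. -/
theorem PV.amal (hs : s ∈ PV c) (hp : p ∈ PV d) (h : SC7292.res c p ⊆ s) (k : c ≤ d) :
    s ∪ p ∈ PV d := by
  refine mem_PV.2 ⟨fun a ha => ha.elim (fun x => (PV.st hs a x).trans_le k) (PV.st hp a),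
    it2_easton_union (mem_PV.1 hs).2.1 (mem_PV.1 hp).2.1, fun γ => ?_⟩
  by_cases e : γ < c
  · exact it2_congr (PV.valid hs γ)
      (fun a ha => ⟨fun x => x.elim id fun y => h ⟨y, ha ▸ e⟩, Or.inl⟩) (res_mono subset_union_left)
  · exact it2_congr (PV.valid hp γ)
      (fun a ha => ⟨fun x => x.elim (fun y => (e (ha ▸ PV.st hs a y)).elim) id, Or.inr⟩)
      (res_mono subset_union_right)

theorem res_amal (hs : s ∈ PV c) (h : res c p ⊆ s) : res c (s ∪ p) = s := by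
  rw [res_union, PV.res_eq hs le_rfl, union_eq_left.2 h]

theorem PV.eq_empty (h : p ∈ PV c) (k : ∀ γ < c, ¬ Stage γ) : p = ∅ :=
  eq_empty_of_forall_notMem fun a b => k _ (PV.st h a b) ((PV.valid h _).1 a b rfl).1

theorem Stage.omega_lt (h : Stage γ) : ω < γ := by
  rw [← h.2.1, ← ord_aleph0]
  exact Cardinal.ord_lt_ord.2 h.1.aleph0_lt

theorem PV.bd (h : p ∈ PV d) : ∀ a ∈ p, a ∈ Bd (fm a.st) := by
  intro a ha
  obtain ⟨-, h2, h3, h4, h5⟩ := (PV.valid h a.st).1 a ha rfl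
  have k := lt_fm a.st
  refine ⟨k, h2.trans k, h3.trans k, fun e he => ?_, h5⟩
  obtain ⟨b1, b2, b3, b4⟩ := h4.bd e he
  exact ⟨b1.trans k, b2.trans k, b3, b4⟩

/-- Conditions below a stage are bounded below it. -/
theorem Stage.bdd (h : Stage γ) (hs : s ∈ PV γ) : ∃ β < γ, s ∈ PV β := by
  obtain ⟨β, h1, h2⟩ := (mem_PV.1 hs).2.1 γ.card h.1
  rw [h.2.1] at h1 h2
  exact ⟨β, h1, PV.of_st hs fun a ha => h2 a ha (PV.st hs a ha)⟩

theorem it1_sub (h : p ∈ PV d) : p ⊆ Bd (sSup (fm '' Iio d)) := by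
  intro a ha
  have k : fm a.st ≤ sSup (fm '' Iio d) :=
    le_csSup Ordinal.bddAbove_of_small ⟨a.st, PV.st h a ha, rfl⟩
  obtain ⟨a1, a2, a3, a4, a5⟩ := PV.bd h a ha
  refine ⟨a1.trans_le k, a2.trans_le k, a3.trans_le k, fun e he => ?_, a5.trans_le k⟩
  obtain ⟨b1, b2, b3, b4⟩ := a4 e he
  exact ⟨b1.trans_le k, b2.trans_le k, b3.trans_le k, b4.trans_le k⟩

theorem it1_sup_lt (h : Stage γ) (k : c < γ) : sSup (fm '' Iio c) < γ := by
  have h1 : c < γ.card.ord := by rwa [h.2.1]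
  have := sSup_lt_reg (x := fm '' Iio c) h.1.isRegular (mk_image_le.trans_lt (mk_Iio_lt h1)) (by
    rintro _ ⟨α, hα, rfl⟩
    rw [h.2.1]
    exact h.2.2 α (hα.trans k))
  rwa [h.2.1] at this

/-- The supremum of `fm` below `c < γ` is below the stage `γ`, so `PV c ⊆ 𝒫 (Bd β)`. -/
theorem Stage.mk_PV (h : Stage γ) (k : c < γ) : #(PV c) < lc γ.card := by
  have h1 := it1_sup_lt h k
  rw [← h.2.1] at h1
  exact (mk_le_mk_of_subset (t := {S | S ⊆ Bd (sSup (fm '' Iio c))}) fun _ hp =>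
    it1_sub hp).trans_lt (mk_subsets h.1.isStrongLimit (mk_Bd h.1.isStrongLimit h1))

/-- `PV d ⊆ 𝒫 (Bd β)` for `β` the supremum of `fm` below `d`; use `mk_Bd` with a strong limit
above `β` (a beth number) and `small_of_lt`. -/
theorem small_PV (d : Ordinal.{0}) : Small.{0} (PV d) := by
  obtain ⟨χ, h1, h2⟩ := it1_strong (sSup (fm '' Iio d))
  obtain ⟨Y, e, -⟩ := small_of_lt ((mk_le_mk_of_subset (s := PV d)
    (t := {S | S ⊆ Bd (sSup (fm '' Iio d))}) fun _ hp => it1_sub hp).trans_lt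
    (mk_subsets h1 (mk_Bd h1 h2)))
  exact ⟨Y, ⟨e.symm⟩⟩

theorem Stage.code (h : Stage γ) (hs : s ∈ PV γ) : ∃ e : Cd, e.1 < γ ∧ e.2 < γ ∧ dec e = s := by
  obtain ⟨β, h1, h2⟩ := h.bdd hs
  obtain ⟨ξ, a, b⟩ := exists_dec.choose_spec.2 _ s (it1_sub h2)
  have h3 := it1_sup_lt h h1
  have h4 := b γ.card h.1.isStrongLimit (by rwa [h.2.1])
  rw [h.2.1] at h4
  exact ⟨(_, ξ), h3, h4, a⟩

theorem act_mono (h : p ⊆ p') (k : s ⊆ s') : act p γ s ⊆ act p' γ s' :=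
  fun _ ⟨e, a, b⟩ => ⟨e, h a, b.trans k⟩

theorem vle.mono {z z' : Tk × Ordinal.{0}} (h : vle s z z') (k : s ⊆ s') : vle s' z z' :=
  ⟨h.1, h.2.imp fun _ a => ⟨a.1, a.2.trans k⟩⟩

/-- The order of the iteration: `p` forces every atom of `u`. -/
def Sle (p u : Set At) : Prop := ∀ a ∈ u, ∀ s ∈ PV a.st, res a.st p ⊆ s → dec a.tag ⊆ s →
  ∃ s' ∈ PV a.st, s ⊆ s' ∧ ∃ z ∈ act p a.st s', vle s' z (a.tk, a.v)

theorem Sle.of_sub (hp : p ∈ PV d) (h : u ⊆ p) : Sle p u := by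
  intro a ha s hs h1 h2
  have m : (a.tk, a.v) ∈ act p a.st s := ⟨a.tag, h ha, h2⟩
  obtain ⟨s', a1, a2, z, a3, a4⟩ := (PV.valid hp a.st).2 s hs h1 ⟨_, m⟩
  obtain ⟨s'', b1, b2, b3⟩ := a4 s' a1 subset_rfl _ (act_mono subset_rfl a2 m)
  exact ⟨s'', b1, a2.trans b2, z, act_mono subset_rfl b2 a3, b3⟩

theorem Sle.mono (h : Sle p u) (k : p ⊆ p') : Sle p' u := fun a b s x y z =>
  let ⟨s', a1, a2, e, a3, a4⟩ := h a b s x ((res_mono k).trans y) z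
  ⟨s', a1, a2, e, act_mono k subset_rfl a3, a4⟩

theorem Sle.anti (h : Sle p u) (k : u' ⊆ u) : Sle p u' := fun a b => h a (k b)

theorem Sle.union (h : Sle p u) (k : Sle p u') : Sle p (u ∪ u') :=
  fun a b => b.elim (h a) (k a)

theorem Sle.res (h : Sle p u) (c : Ordinal.{0}) : Sle (res c p) (res c u) := by
  intro a ha s hs h1 h2
  rw [res_res ha.2.le] at h1
  obtain ⟨s', a1, a2, z, ⟨e, a3, a4⟩, a5⟩ := h a ha.1 s hs h1 h2
  exact ⟨s', a1, a2, z, ⟨e, ⟨a3, ha.2⟩, a4⟩, a5⟩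

theorem it2_trans {S : Set (Set At)} {z z' z'' : Tk × Ordinal.{0}} (g : Good S γ z'.1)
    (hs : s ∈ S) (h : vle s z z') (k : vle s z' z'') : ∃ s' ∈ S, s ⊆ s' ∧ vle s' z z'' := by
  obtain ⟨t, a⟩ := z
  obtain ⟨t', b⟩ := z'
  obtain ⟨t'', e⟩ := z''
  obtain rfl : t = t' := h.1
  obtain rfl : t = t'' := k.1
  exact g.trans s hs a b e h k s hs le_rfl

/-- If `p` forces `u` then `p ∪ u` is a condition: a least vertex of `p` is least for `p ∪ u`. -/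
theorem Sle.union_mem (h : Sle p u) (hp : p ∈ PV d) (hu : u ∈ PV d) : p ∪ u ∈ PV d := by
  refine mem_PV.2 ⟨fun a ha => ha.elim (PV.st hp a) (PV.st hu a),
    it2_easton_union (mem_PV.1 hp).2.1 (mem_PV.1 hu).2.1, fun γ =>
    ⟨fun a ha => ha.elim ((PV.valid hp γ).1 a) ((PV.valid hu γ).1 a), fun s hs h1 h2 => ?_⟩⟩
  have h3 : SC7292.res γ p ⊆ s := (res_mono subset_union_left).trans h1
  obtain ⟨s1, a1, a2, a3⟩ : ∃ s1 ∈ PV γ, s ⊆ s1 ∧ (act p γ s1).Nonempty := by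
    obtain ⟨z, e, b1 | b1, b2⟩ := h2
    · exact ⟨s, hs, subset_rfl, z, e, b1, b2⟩
    · obtain ⟨s', c1, c2, z', c3, -⟩ := h _ b1 s hs h3 b2
      exact ⟨s', c1, c2, z', c3⟩
  obtain ⟨s2, b1, b2, z, b3, b4⟩ := (PV.valid hp γ).2 s1 a1 (h3.trans a2) a3
  refine ⟨s2, b1, a2.trans b2, z, act_mono subset_union_left subset_rfl b3, ?_⟩
  rintro s3 c1 c2 z' ⟨e, c3 | c3, c4⟩
  · exact b4 s3 c1 c2 z' ⟨e, c3, c4⟩
  · obtain ⟨s4, d1, d2, z'', d3, d4⟩ := h _ c3 s3 c1 (h3.trans (a2.trans (b2.trans c2))) c4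
    obtain ⟨s5, e1, e2, e3⟩ := b4 s4 d1 (c2.trans d2) z'' d3
    have g : Good (PV γ) γ z''.1 := d4.1 ▸ ((PV.valid hu γ).1 _ c3 rfl).2.2.2.1
    obtain ⟨s6, f1, f2, f3⟩ := it2_trans g e1 e3 (d4.mono e2)
    exact ⟨s6, f1, d2.trans (e2.trans f2), f3⟩

theorem Sle.trans (h : Sle p u) (k : Sle u w) (hu : u ∈ PV d) : Sle p w := by
  intro a ha s hs h1 h2
  have m : s ∪ SC7292.res a.st u ∈ PV a.st :=
    ((h.res a.st).mono h1).union_mem hs (PV.res hu a.st)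
  obtain ⟨s2, a1, a2, z1, ⟨e, a3, a4⟩, a5⟩ :=
    k a ha _ m subset_union_right (h2.trans subset_union_left)
  have a6 : s ⊆ s2 := subset_union_left.trans a2
  obtain ⟨s3, b1, b2, z, b3, b4⟩ := h _ a3 s2 a1 (h1.trans a6) a4
  obtain ⟨s4, c1, c2, c3⟩ := it2_trans (z' := z1) ((PV.valid hu a.st).1 _ a3 rfl).2.2.2.1 b1 b4
    (a5.mono b2)
  exact ⟨s4, c1, a6.trans (b2.trans c2), z, act_mono subset_rfl c2 b3, c3⟩

/-- Unions of sequences that change only higher and higher up. At an inaccessible `δ`, either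
some `c n ≥ δ`, or the supremum of the `c n` is below `δ`. -/
theorem iUnion_PV {t : ℕ → Set At} {c : ℕ → Ordinal.{0}} (hc : Monotone c)
    (h1 : ∀ n, t n ∈ PV (c (n + 1))) (h2 : Monotone t)
    (h3 : ∀ n, res (c n) (t (n + 1)) = res (c n) (t n)) (h4 : ∀ n, c n ≤ d) :
    ⋃ n, t n ∈ PV d := by
  have key : ∀ n m, n ≤ m → res (c n) (t m) = res (c n) (t n) := fun n m h => by
    induction m, h using Nat.le_induction with
    | base => rfl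
    | succ m h ih => rw [← res_res (hc h), h3, res_res (hc h), ih]
  have key2 : ∀ n, ∀ a ∈ ⋃ n, t n, a.st < c n → a ∈ t n := fun n a ha e => by
    obtain ⟨m, hm⟩ := mem_iUnion.1 ha
    exact ((key n (max n m) (le_max_left _ _)).subset ⟨h2 (le_max_right _ _) hm, e⟩).1
  have key3 : ∀ a ∈ ⋃ n, t n, ∃ n, a.st < c n := fun a ha => by
    obtain ⟨m, hm⟩ := mem_iUnion.1 ha
    exact ⟨_, PV.st (h1 m) a hm⟩
  refine mem_PV.2 ⟨fun a ha => (key3 a ha).elim fun n e => e.trans_le (h4 n), fun δ hδ => ?_,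
    fun γ => ?_⟩
  · by_cases e : ∃ n, δ.ord ≤ c n
    · obtain ⟨n, e⟩ := e
      obtain ⟨β, a1, a2⟩ := (mem_PV.1 (h1 n)).2.1 δ hδ
      exact ⟨β, a1, fun a ha x => a2 a (key2 n a ha (x.trans_le e)) x⟩
    · push Not at e
      refine ⟨⨆ n, c n, ?_, fun a ha _ => (key3 a ha).elim fun n x =>
        x.trans_le (Ordinal.le_iSup c n)⟩
      exact Cardinal.iSup_lt_ord_of_isRegular hδ.isRegular (by simpa using hδ.aleph0_lt) e
  · by_cases e : ∃ n, γ < c n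
    · obtain ⟨n, e⟩ := e
      exact it2_congr (PV.valid (h1 n) γ)
        (fun a ha => ⟨fun x => key2 n a x (ha ▸ e), fun x => mem_iUnion.2 ⟨n, x⟩⟩)
        (res_mono (subset_iUnion t n))
    · exact it2_none fun a ha x => e (x ▸ key3 a ha)

end Pool.Agent.SC7292

/-!
Closure of the tails of the iteration; the chain condition.
-/

namespace Pool.Agent.SC7292

open Cardinal Ordinal Set Filter Function Pool.Agent.MP_7b2404_lc

variable {c d γ : Ordinal.{0}} {ι : Type 1} {u : ι → Set At} {s0 : Set At}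

/-- The family `u` is forced to be directed below `s0` over `PV c`. -/
def DirF (c : Ordinal.{0}) (s0 : Set At) (u : ι → Set At) : Prop :=
  ∀ i j, ∀ s ∈ PV c, s0 ⊆ s → res c (u i) ⊆ s → res c (u j) ⊆ s → ∃ s' ∈ PV c, s ⊆ s' ∧
    ∃ k, res c (u k) ⊆ s' ∧ Sle (s' ∪ u k) (u i) ∧ Sle (s' ∪ u k) (u j)

/-- `w` is a lower bound of the family up to `γ`. -/
def LowB (c : Ordinal.{0}) (s0 : Set At) (u : ι → Set At) (γ : Ordinal.{0}) (w : Set At) : Prop :=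
  w ∈ PV γ ∧ res c w = s0 ∧ (∀ a ∈ w, a ∈ s0 ∨ ∃ i, ∃ b ∈ u i, b.st = a.st) ∧
    ∀ i, ∀ s ∈ PV c, s0 ⊆ s → res c (u i) ⊆ s → Sle (s ∪ w) (res γ (u i))

theorem cl1_trans {S : Set (Set At)} {s : Set At} {z y x : Tk × Ordinal.{0}}
    (hg : Good S γ z.1) (hs : s ∈ S) (h1 : vle s z y) (h2 : vle s y x) :
    Dn S s fun s' => vle s' z x := by
  obtain ⟨t, a⟩ := z
  obtain ⟨t1, b⟩ := y
  obtain ⟨t2, e⟩ := x
  obtain rfl : t = t1 := h1.1
  obtain rfl : t = t2 := h2.1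
  exact hg.trans s hs a b e h1 h2

theorem cl1_minv {S : Set (Set At)} {p s s' : Set At} {z : Tk × Ordinal.{0}}
    (h : MinV S p γ s z) (k : s ⊆ s') : MinV S p γ s' z :=
  ⟨act_mono subset_rfl k h.1, fun t a b => h.2 t a (k.trans b)⟩

theorem cl1_good {p s : Set At} {z : Tk × Ordinal.{0}} (hp : p ∈ PV d) (h : z ∈ act p γ s) :
    Good (PV γ) γ z.1 :=
  let ⟨_, a, _⟩ := h
  ((PV.valid hp γ).1 _ a rfl).2.2.2.1

theorem cl1_act {p r s : Set At} {z : Tk × Ordinal.{0}} (hr : ∀ a ∈ r, a.st ≠ γ)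
    (h : z ∈ act (r ∪ p) γ s) : z ∈ act p γ s :=
  let ⟨e, a, b⟩ := h
  ⟨e, a.resolve_left fun k => hr _ k rfl, b⟩

/-- Two least vertices have a common lower bound that is a least vertex: apply `DirF` to
`res c s`, add `res γ (u k)` (allowed by `LowB` and `Sle.union_mem`), and use transitivity. -/
theorem LowB.dir {w : Set At} (hw : LowB c s0 u γ w) (hc : c ≤ γ) (hu : ∀ i, u i ∈ PV d)
    (hd : DirF c s0 u) {i j : ι} {s : Set At} (hs : s ∈ PV γ) (h0 : w ⊆ s)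
    (hi : res γ (u i) ⊆ s) (hj : res γ (u j) ⊆ s) {z z' : Tk × Ordinal.{0}}
    (a : z ∈ act (u i) γ s) (b : z' ∈ act (u j) γ s) : ∃ s' ∈ PV γ, s ⊆ s' ∧ ∃ k z'',
      res γ (u k) ⊆ s' ∧ MinV (PV γ) (u k) γ s' z'' ∧ vle s' z'' z ∧ vle s' z'' z' := by
  have e0 : s0 ⊆ res c s := hw.2.1 ▸ res_mono h0
  obtain ⟨r, hr, h1, k, h2, h3, h4⟩ := hd i j (res c s) (PV.res hs c) e0
    (res_res hc ▸ res_mono hi) (res_res hc ▸ res_mono hj)
  have p1 : r ∪ s ∈ PV γ := PV.amal hr hs h1 hc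
  have p2 : r ∪ s ∪ res γ (u k) ∈ PV γ :=
    ((hw.2.2.2 k r hr (e0.trans h1) h2).mono (union_subset_union_right _ h0)).union_mem p1
      (PV.res (hu k) γ)
  have ne : ∀ a ∈ r, a.st ≠ γ := fun a x => ((PV.st hr a x).trans_le hc).ne
  have q1 : s ⊆ r ∪ s ∪ res γ (u k) := subset_union_right.trans subset_union_left
  have q2 : res γ (r ∪ u k) ⊆ r ∪ s ∪ res γ (u k) := by
    rw [res_union]
    exact union_subset_union ((res_sub _ _).trans subset_union_left) subset_rfl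
  obtain ⟨e, a1, a2⟩ := a
  obtain ⟨e', b1, b2⟩ := b
  obtain ⟨s3, p3, l3, y, y1, y2⟩ := h3 _ a1 _ p2 q2 (a2.trans q1)
  obtain ⟨s4, p4, l4, y', y3, y4⟩ := h4 _ b1 _ p3 (q2.trans l3) (b2.trans (q1.trans l3))
  replace y1 := cl1_act ne y1
  replace y3 := cl1_act ne y3
  have q3 : res γ (u k) ⊆ s4 := subset_union_right.trans (l3.trans l4)
  obtain ⟨s5, p5, l5, x, hx⟩ := (PV.valid (hu k) γ).2 s4 p4 q3 ⟨_, y3⟩
  obtain ⟨s6, p6, l6, v6⟩ := hx.2 s5 p5 subset_rfl y (act_mono subset_rfl (l4.trans l5) y1)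
  obtain ⟨s7, p7, l7, v7⟩ := hx.2 s6 p6 l6 y' (act_mono subset_rfl (l5.trans l6) y3)
  have hg := cl1_good (hu k) hx.1
  obtain ⟨s8, p8, l8, v8⟩ := cl1_trans hg p7 (v6.mono l7)
    (vle.mono y2 (l4.trans (l5.trans (l6.trans l7)))) s7 p7 le_rfl
  obtain ⟨s9, p9, l9, v9⟩ := cl1_trans hg p8 (v7.mono l8)
    (vle.mono y4 (l5.trans (l6.trans (l7.trans l8)))) s8 p8 le_rfl
  have m59 : s5 ⊆ s9 := l6.trans (l7.trans (l8.trans l9))
  exact ⟨s9, p9, q1.trans (l3.trans (l4.trans (l5.trans m59))), k, x, q3.trans (l5.trans m59),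
    cl1_minv hx m59, v8.mono l9, v9⟩

/-- The pairs that are forced lower bounds of all vertices of the family at stage `γ`. -/
def cl1_O (u : ι → Set At) (γ : Ordinal.{0}) (w : Set At) : Set (Set At × Tk × Ordinal.{0}) :=
  {o | w ⊆ o.1 ∧ o.1 ∈ PV γ ∧ Good (PV γ) γ o.2.1 ∧ (Dn (PV γ) o.1 fun s => vle s o.2 o.2) ∧
    ∀ i, ∀ s ∈ PV γ, o.1 ⊆ s → res γ (u i) ⊆ s → ∀ z' ∈ act (u i) γ s,
      Dn (PV γ) s fun s' => vle s' o.2 z'}

theorem cl1_dense {w : Set At} (hw : LowB c s0 u γ w) (hc : c ≤ γ) (hu : ∀ i, u i ∈ PV d)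
    (hd : DirF c s0 u) (hγ : Stage γ) (hι : #ι < lc γ.card) {i : ι} {s : Set At}
    (hs : s ∈ PV γ) (h0 : w ⊆ s) (hi : res γ (u i) ⊆ s) (hn : (act (u i) γ s).Nonempty) :
    ∃ o ∈ cl1_O u γ w, s ⊆ o.1 := by
  obtain ⟨s', p', l', ⟨t, v0⟩, hx⟩ := (PV.valid (hu i) γ).2 s hs hi hn
  have hg : Good (PV γ) γ t := cl1_good (hu i) hx.1
  obtain ⟨κ, hκ, eκ⟩ := Cardinal.lt_lift_iff.1 hι
  obtain ⟨e, -, he⟩ := exists_enum (κ := κ) (S := (univ : Set ι)) (by rw [mk_univ, ← eκ]) i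
  have hδ : κ.ord < γ := hγ.2.1 ▸ Cardinal.ord_lt_ord.2 hκ
  obtain ⟨s1, p1, l1, v, d1, d2⟩ := hg.cl κ.ord hδ s' p'
    (fun ξ => {o | w ⊆ o.1 ∧ res γ (u (e ξ)) ⊆ o.1 ∧ o.1 ∈ PV γ ∧
      MinV (PV γ) (u (e ξ)) γ o.1 (t, o.2)})
    (fun _ _ _ h => h.2.2.1)
    (fun _ _ o h o' h' r _ _ a b k hk l =>
      h.2.2.2.2 k hk (a.trans l) _ (act_mono subset_rfl (b.trans l) h'.2.2.2.1))
    (fun _ _ _ _ o h o' h' r hr _ a b => by
      obtain ⟨r', q1, q2, k, ⟨t', v'⟩, q3, q4, q5, q6⟩ := hw.dir hc hu hd hr (h.1.trans a)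
        (h.2.1.trans a) (h'.2.1.trans b) (act_mono subset_rfl a h.2.2.2.1)
        (act_mono subset_rfl b h'.2.2.2.1)
      obtain rfl : t' = t := q5.1
      obtain ⟨ζ, hζ, rfl⟩ := he k trivial
      exact ⟨r', q1, q2, ζ, hζ, (r', v'), ⟨h.1.trans (a.trans q2), q3, q1, q4⟩, subset_rfl,
        q5, q6⟩)
  refine ⟨(s1, t, v), ⟨h0.trans (l'.trans l1), p1, hg, d1, fun j r _ a b z' hz k hk l => ?_⟩,
    l'.trans l1⟩
  have m1 : s' ⊆ k := l1.trans (a.trans l)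
  obtain ⟨r', q1, q2, k', ⟨t', v'⟩, q3, q4, q5, q6⟩ := hw.dir hc hu hd hk
    (h0.trans (l'.trans m1)) (hi.trans (l'.trans m1)) (b.trans l)
    (act_mono subset_rfl m1 hx.1) (act_mono subset_rfl l hz)
  obtain rfl : t' = t := q5.1
  obtain ⟨ζ, hζ, rfl⟩ := he k' trivial
  obtain ⟨k2, x1, x2, x3⟩ := d2 ζ hζ (r', v') ⟨h0.trans (l'.trans (m1.trans q2)), q3, q1, q4⟩ r' q1
    (a.trans (l.trans q2)) subset_rfl r' q1 le_rfl
  obtain ⟨k3, y1, y2, y3⟩ := cl1_trans (z := (t', v)) hg x1 x3 (q6.mono x2) k2 x1 le_rfl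
  exact ⟨k3, y1, q2.trans (x2.trans y2), y3⟩

/-- One stage. Let `O` be the set of `(s1, z)` with `w ⊆ s1 ∈ PV γ`, `z.1` good,
`Dn _ s1 (vle · z z)`, and for all `i`, `s ⊇ s1 ∪ res γ (u i)`, `z' ∈ act (u i) γ s`:
`Dn _ s (vle · z z')`. If `act (u i) γ s` is nonempty with `s ⊇ w ∪ res γ (u i)`, some element of
`O` lies above `s`: extend to `s'` with a least vertex `(t, _)`, enumerate `ι` by ordinals below
`δ < γ` and apply `Good.cl` to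
`m i = {(s1, v) | w ∪ res γ (u i) ⊆ s1 ∈ PV γ, MinV _ (u i) γ s1 (t, v)}` (`LowB.dir` gives
directedness and shows that all active tickets equal `t`). Take a maximal antichain `A` of `O`
(`exists_anti`, compatibility of first components in `PV γ`) and add the atoms
`⟨γ, code s1, z.1, z.2⟩` (`Stage.code`). If no `u i` has an atom of stage `γ`, add nothing. -/
theorem LowB.step {w : Set At} (hw : LowB c s0 u γ w) (hc : c ≤ γ) (hu : ∀ i, u i ∈ PV d)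
    (hd : DirF c s0 u) (hι : Stage γ → #ι < lc γ.card) :
    ∃ w', LowB c s0 u (γ + 1) w' ∧ res γ w' = w := by
  have lt1 : γ < γ + 1 := lt_add_one γ
  have cas : ∀ {x : Ordinal.{0}}, x < γ + 1 → x < γ ∨ x = γ := fun h =>
    (Order.lt_add_one_iff.1 h).lt_or_eq
  by_cases hex : ∃ i, ∃ a ∈ u i, a.st = γ
  swap
  · refine ⟨w, ⟨PV.mono hw.1 lt1.le, hw.2.1, hw.2.2.1, fun i s a b e => ?_⟩,
      PV.res_eq hw.1 le_rfl⟩
    exact (hw.2.2.2 i s a b e).anti fun x hx =>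
      ⟨hx.1, (cas hx.2).resolve_right fun k => hex ⟨i, x, hx.1, k⟩⟩
  obtain ⟨i0, a0, ha0, ea0⟩ := hex
  have hγ : Stage γ := ((PV.valid (hu i0) γ).1 a0 ha0 ea0).1
  obtain ⟨A, hA, an, mx⟩ := exists_anti (cl1_O u γ w)
    (fun a b => ∃ s ∈ PV γ, a.1 ⊆ s ∧ b.1 ⊆ s) (fun a h => ⟨a.1, h.2.1, subset_rfl, subset_rfl⟩)
    (fun _ _ ⟨s, a, b, e⟩ => ⟨s, a, e, b⟩)
  choose! cd c1 c2 c3 using fun (s : Set At) (hs : s ∈ PV γ) => hγ.code hs
  set N : Set At := {a | ∃ o ∈ A, a = ⟨γ, cd o.1, o.2.1, o.2.2⟩} with hN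
  have nst : ∀ a ∈ N, a.st = γ := by
    rintro _ ⟨o, -, rfl⟩
    rfl
  have wne : ∀ a ∈ w, a.st ≠ γ := fun a x => (PV.st hw.1 a x).ne
  have rw' : res γ (w ∪ N) = w := Set.ext fun a =>
    ⟨fun h => h.1.resolve_right fun k => h.2.ne (nst a k),
      fun h => ⟨Or.inl h, PV.st hw.1 a h⟩⟩
  have actN : ∀ {s z}, z ∈ act N γ s → ∃ o ∈ A, o.2 = z ∧ o.1 ⊆ s := by
    rintro s z ⟨e, ⟨o, ho, h⟩, k⟩
    simp only [At.mk.injEq, true_and] at h
    refine ⟨o, ho, Prod.ext h.2.1.symm h.2.2.symm, ?_⟩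
    rwa [h.1, c3 _ (hA ho).2.1] at k
  have Nact : ∀ {s}, ∀ o ∈ A, o.1 ⊆ s → o.2 ∈ act N γ s := fun o ho k =>
    ⟨cd o.1, ⟨o, ho, rfl⟩, by rwa [c3 _ (hA ho).2.1]⟩
  refine ⟨w ∪ N, ⟨mem_PV.2 ⟨fun a h => ?_, fun δ hδ => ?_, fun γ' => ?_⟩, ?_, fun a h => ?_,
    fun i s hs h1 h2 a ha => ?_⟩, rw'⟩
  · exact h.elim (fun k => (PV.st hw.1 a k).trans lt1) fun k => nst a k ▸ lt1
  · obtain ⟨β, b1, b2⟩ := (mem_PV.1 hw.1).2.1 δ hδ
    by_cases k : γ < δ.ord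
    · refine ⟨max β (γ + 1), max_lt b1 ((isSuccLimit_ord hδ.aleph0_lt.le).add_one_lt k),
        fun a h l => h.elim (fun h => lt_max_of_lt_left (b2 a h l))
          fun h => lt_max_of_lt_right (nst a h ▸ lt1)⟩
    · exact ⟨β, b1, fun a h l => h.elim (fun h => b2 a h l) fun h => (k (nst a h ▸ l)).elim⟩
  · rcases eq_or_ne γ' γ with rfl | ne
    · refine ⟨fun a h e => ?_, fun s hs _ ⟨z, hz⟩ => ?_⟩
      · obtain ⟨o, ho, rfl⟩ := h.resolve_left fun k => wne a k e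
        have hO := hA ho
        obtain ⟨k, -, -, -, e', m, -⟩ := hO.2.2.2.1 o.1 hO.2.1 le_rfl
        exact ⟨hγ, c1 _ hO.2.1, c2 _ hO.2.1, hO.2.2.1, (hO.2.2.1.bd _ m).2.2.1⟩
      · refine ⟨s, hs, subset_rfl, z, hz, fun s' hs' l z' hz' => ?_⟩
        obtain ⟨o, ho, rfl, k⟩ := actN (cl1_act wne hz)
        obtain ⟨o', ho', rfl, k'⟩ := actN (cl1_act wne hz')
        obtain rfl := an o ho o' ho' ⟨s', hs', k.trans l, k'⟩
        exact (hA ho).2.2.2.1 s' hs' k'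
    · have nn : ∀ a ∈ N, a.st ≠ γ' := fun a h e => ne (e.symm.trans (nst a h))
      have ea : act (w ∪ N) γ' = act w γ' := funext fun s => Set.ext fun z =>
        ⟨fun h => cl1_act nn (union_comm w N ▸ h), fun h => act_mono subset_union_left subset_rfl h⟩
      have hv := PV.valid hw.1 γ'
      refine ⟨fun a h e => hv.1 a (h.resolve_right fun k => nn a k e) e, fun s hs l n => ?_⟩
      simp only [MinV, ea] at n ⊢
      exact hv.2 s hs ((res_mono subset_union_left).trans l) n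
  · rw [← res_res hc, rw', hw.2.1]
  · exact h.elim (hw.2.2.1 a) fun k => Or.inr ⟨i0, a0, ha0, ea0.trans (nst a k).symm⟩
  · have old := hw.2.2.2 i s hs h1 h2
    rcases cas ha.2 with k | k
    · exact old.mono (union_subset_union_right _ subset_union_left) a ⟨ha.1, k⟩
    obtain ⟨st, tag, tk, v⟩ := a
    obtain rfl : st = γ := k
    intro t ht l1 l2
    have m1 : s ∪ w ⊆ t := fun x hx => l1 ⟨hx.imp_right Or.inl,
      hx.elim (fun y => (PV.st hs x y).trans_le hc) (PV.st hw.1 x)⟩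
    have p1 : t ∪ res st (u i) ∈ PV st := (old.mono m1).union_mem ht (PV.res (hu i) st)
    have ac : (tk, v) ∈ act (u i) st (t ∪ res st (u i)) :=
      ⟨tag, ha.1, l2.trans subset_union_left⟩
    obtain ⟨o, ho, l3⟩ := cl1_dense hw hc hu hd hγ (hι hγ) p1
      (subset_union_right.trans (m1.trans subset_union_left)) subset_union_right ⟨_, ac⟩
    obtain ⟨o', ho', t2, p2, l4, l5⟩ := mx o ho
    obtain ⟨t3, p3, l6, v3⟩ := (hA ho').2.2.2.2 i t2 p2 l5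
      (subset_union_right.trans (l3.trans l4)) _ (act_mono subset_rfl (l3.trans l4) ac) t2 p2 le_rfl
    exact ⟨t3, p3, subset_union_left.trans (l3.trans (l4.trans l6)), o'.2,
      act_mono (subset_union_right.trans subset_union_right) subset_rfl
        (Nact o' ho' (l5.trans l6)), v3⟩

theorem cl2_valid {S : Set (Set At)} {p p' : Set At} (e : res (γ + 1) p = res (γ + 1) p')
    (h : ValidAt S γ p') : ValidAt S γ p := by
  have e1 : ∀ a : At, a.st = γ → (a ∈ p ↔ a ∈ p') := fun a ha =>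
    ⟨fun k => (e.subset ⟨k, ha.trans_lt (lt_add_one γ)⟩).1,
      fun k => (e.superset ⟨k, ha.trans_lt (lt_add_one γ)⟩).1⟩
  have e2 : ∀ s, act p γ s = act p' γ s := fun s => Set.ext fun z =>
    exists_congr fun t => and_congr (e1 _ rfl) Iff.rfl
  have e3 : res γ p = res γ p' := by
    rw [← res_res (p := p) (lt_add_one γ).le, e, res_res (lt_add_one γ).le]
  refine ⟨fun a k ha => h.1 a ((e1 a ha).1 k) ha, ?_⟩
  simp only [MinV, e2, e3]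
  exact h.2

theorem cl2_lim {F : Ordinal.{0} → Set At} (hcγ : c < γ) (hγ : ∀ j < γ, j + 1 < γ)
    (hι : ∀ γ, Stage γ → c ≤ γ → #ι < lc γ.card) (hu : ∀ i, u i ∈ PV d)
    (h1 : ∀ j < γ, c ≤ j → LowB c s0 u j (F j))
    (h2 : ∀ j < γ, ∀ k < j, c ≤ k → res k (F j) = F k) :
    ∃ y, LowB c s0 u γ y ∧ ∀ j < γ, c ≤ j → res j y = F j := by
  let y : Set At := {a | ∃ j < γ, c ≤ j ∧ a ∈ F j}
  have hy : ∀ k < γ, c ≤ k → res k y = F k := fun k hk hc => by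
    refine Set.ext fun a => ⟨?_, fun ha => ⟨⟨k, hk, hc, ha⟩, PV.st (h1 k hk hc).1 a ha⟩⟩
    rintro ⟨⟨j, hj, hcj, ha⟩, hs⟩
    rcases lt_trichotomy j k with e | e | e
    · exact ((h2 k hk j e hcj).superset ha).1
    · exact e ▸ ha
    · exact (h2 j hj k e hc).subset ⟨ha, hs⟩
  have hc := h1 c hcγ le_rfl
  have h0 : res c y = s0 := by rw [hy c hcγ le_rfl, ← hc.2.1, PV.res_eq hc.1 le_rfl]
  have hst : ∀ a ∈ y, a.st < γ := fun a ⟨j, hj, hcj, ha⟩ => (PV.st (h1 j hj hcj).1 a ha).trans hj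
  have hat : ∀ a ∈ y, a ∈ s0 ∨ ∃ i, ∃ b ∈ u i, b.st = a.st :=
    fun a ⟨j, hj, hcj, ha⟩ => (h1 j hj hcj).2.2.1 a ha
  refine ⟨y, ⟨mem_PV.2 ⟨hst, fun δ hδ => ?_, fun γ' => ?_⟩, h0, hat, fun i s hs a b x hx => ?_⟩, hy⟩
  · rcases le_or_gt δ.ord c with e | e
    · obtain ⟨β, b1, b2⟩ := (mem_PV.1 hc.1).2.1 δ hδ
      exact ⟨β, b1, fun a ha k => b2 a ((hy c hcγ le_rfl).subset ⟨ha, k.trans_le e⟩) k⟩
    · by_cases hS : ∃ η, Stage η ∧ c ≤ η ∧ η < δ.ord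
      · obtain ⟨η, e1, e2, e3⟩ := hS
        have e4 : #ι < lc δ := (hι η e1 e2).trans (Cardinal.lift_lt.2 (lt_ord.1 e3))
        choose β b1 b2 using fun i => (mem_PV.1 (hu i)).2.1 δ hδ
        have b3 : range β ⊆ Iio δ.ord := range_subset_iff.2 b1
        have b4 := sSup_lt_reg hδ.isRegular (mk_range_le.trans_lt e4) b3
        refine ⟨max c (sSup (range β)), max_lt e b4, fun a ha k => ?_⟩
        rcases hat a ha with m | ⟨i, b, m, e5⟩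
        · exact lt_max_of_lt_left (h0.superset m).2
        · refine lt_max_of_lt_right ?_
          rw [← e5] at k ⊢
          exact (b2 i b m k).trans_le (le_csSup ⟨δ.ord, fun z hz => (b3 hz).le⟩ ⟨i, rfl⟩)
      · refine ⟨c, e, fun a ⟨j, hj, hcj, ha⟩ k => lt_of_not_ge fun m => hS ⟨_, ?_, m, k⟩⟩
        exact ((PV.valid (h1 j hj hcj).1 _).1 a ha rfl).1
  · rcases lt_or_ge γ' γ with e | e
    · have e1 : max c (γ' + 1) < γ := max_lt hcγ (hγ _ e)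
      refine cl2_valid ?_ (PV.valid (h1 _ e1 (le_max_left _ _)).1 γ')
      rw [← hy _ e1 (le_max_left _ _), res_res (le_max_right _ _)]
    · refine ⟨fun a ha k => absurd (k ▸ hst a ha) (not_lt.2 e), ?_⟩
      rintro s - - ⟨z, t, ht, -⟩
      exact absurd (hst _ ht) (not_lt.2 e)
  · have e1 : max c (x.st + 1) < γ := max_lt hcγ (hγ _ hx.2)
    have e2 := ((h1 _ e1 (le_max_left _ _)).2.2.2 i s hs a b).mono (p' := s ∪ y)
      (union_subset_union_right _ fun z hz => ⟨_, e1, le_max_left _ _, hz⟩)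
    exact e2 x ⟨hx.1, lt_max_of_lt_right (lt_add_one _)⟩

/-- Closure of the tail. Build `w γ` for `γ ≥ c` by `exists_seq` (coherent under `res`); at
limits take unions. Easton support at an inaccessible `δ > c`: if there is a stage in `[c, δ)`
then `#ι < δ`, otherwise no atom has a stage in `[c, δ)`. -/
theorem PV.cl (hcd : c ≤ d) (hι : ∀ γ, Stage γ → c ≤ γ → #ι < lc γ.card) (hu : ∀ i, u i ∈ PV d)
    (hs : s0 ∈ PV c) (hd : DirF c s0 u) : ∃ w ∈ PV d, SC7292.res c w = s0 ∧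
      ∀ i, ∀ s ∈ PV c, s0 ⊆ s → SC7292.res c (u i) ⊆ s → Sle (s ∪ w) (u i) := by
  obtain ⟨F, hF⟩ := exists_seq (ι := Ordinal.{0}) (Y := Set At) (· < ·) wellFounded_lt
    (fun γ y => c ≤ γ → LowB c s0 u γ y) (fun _ k y z => c ≤ k → SC7292.res k y = z)
    (fun γ F hF => by
      rcases lt_trichotomy γ c with e | e | e
      · exact ⟨∅, fun k => absurd e (not_lt.2 k), fun j a b => absurd (a.trans e) (not_lt.2 b)⟩
      · subst e
        refine ⟨s0, fun _ => ⟨hs, PV.res_eq hs le_rfl, fun a b => Or.inl b, fun i s a b e => ?_⟩,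
          fun j a b => absurd a (not_lt.2 b)⟩
        rw [union_eq_left.2 b]
        exact Sle.of_sub a e
      · by_cases hγ : ∀ j < γ, j + 1 < γ
        · obtain ⟨y, a, b⟩ := cl2_lim e hγ hι hu (fun j a => (hF j a).1) fun j a => (hF j a).2
          exact ⟨y, fun _ => a, b⟩
        · push Not at hγ
          obtain ⟨j, a, b⟩ := hγ
          obtain rfl : γ = j + 1 := le_antisymm b (Order.add_one_le_of_lt a)
          have hj : c ≤ j := Order.le_of_lt_add_one e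
          obtain ⟨w, w1, w2⟩ := ((hF j a).1 hj).step hj hu hd fun k => hι j k hj
          refine ⟨w, fun _ => w1, fun k m n => ?_⟩
          rcases (Order.le_of_lt_add_one m).eq_or_lt with rfl | m'
          · exact w2
          · rw [← res_res m'.le, w2]
            exact (hF j a).2 k m' n) fun _ _ _ => lt_trans
  obtain ⟨a1, a2, -, a3⟩ := (hF d).1 hcd
  refine ⟨F d, a1, a2, fun i s x y z => ?_⟩
  have := a3 i s x y z
  rwa [PV.res_eq (hu i) le_rfl] at this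

/-- Antichains of `PV c` have fewer than `μ` elements. -/
def CC (c : Ordinal.{0}) (μ : Cardinal.{1}) : Prop :=
  ∀ A ⊆ PV c, (∀ a ∈ A, ∀ b ∈ A, (∃ s ∈ PV c, a ⊆ s ∧ b ⊆ s) → a = b) → #A < μ

theorem cc_of_mk {μ : Cardinal.{1}} (h : #(PV c) < μ) : CC c μ :=
  fun _ a _ => (mk_le_mk_of_subset a).trans_lt h

theorem PV_omega : PV ω = {∅} :=
  Set.ext fun _ => ⟨fun h => PV.eq_empty h fun _ a b => b.omega_lt.not_gt a,
    fun h => h ▸ empty_PV _⟩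

theorem cc_omega : CC (ℵ₀ : Cardinal.{0}).ord (lc ℵ₀) := by
  refine cc_of_mk ?_
  rw [ord_aleph0, PV_omega]
  simp

variable {κ : Cardinal.{0}} {W : Ultrafilter (Set Ordinal.{0})} {l : Ordinal.{0}}

theorem NM.mem_PV (h : NM κ (Iio l) W) (hl : κ.ord ≤ l) (hκ : Stage κ.ord) {s : Set At}
    (hs : s ∈ PV κ.ord) : ∀ᶠ x in (W : Filter (Set Ordinal.{0})), s ∈ PV (kx x) :=
  let ⟨_, a, b⟩ := hκ.bdd hs
  (h.lt_kx hl a).mono fun _ k => PV.mono b k.le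

/-- Diagonal intersections over `PV (kx x)`: its elements have codes below `kx x`. -/
theorem NM.diag_PV (h : NM κ (Iio l) W) (hl : κ.ord ≤ l) (hκ : Stage κ.ord)
    (p : Set Ordinal.{0} → Set At → Prop)
    (hp : ∀ s ∈ PV κ.ord, ∀ᶠ x in (W : Filter (Set Ordinal.{0})), p x s) :
    ∀ᶠ x in (W : Filter (Set Ordinal.{0})), ∀ s ∈ PV (kx x), p x s := by
  have h1 := h.diag_kx hl (fun x α => ∀ β < kx x, dec (α, β) ∈ PV κ.ord → p x (dec (α, β)))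
    fun α _ => h.diag_kx hl (fun x β => dec (α, β) ∈ PV κ.ord → p x (dec (α, β))) fun β _ => by
      by_cases k : dec (α, β) ∈ PV κ.ord
      · exact (hp _ k).mono fun _ a _ => a
      · exact Eventually.of_forall fun _ a => absurd a k
  filter_upwards [h1, h.kx_stage hl hκ, h.kx_spec hl] with x a b e s hs
  obtain ⟨⟨α, β⟩, e1, e2, rfl⟩ := b.code hs
  exact a α e1 β e2 (PV.mono hs e.1.le)

/-- If `p ξ` (`ξ < κ.ord`) is an injective enumeration of an antichain, `res (kx x) (p (kx x))`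
is almost constant, say `r`; take `x`, then `x'` with `p (kx x) ∈ PV (kx x')` and `kx x < kx x'`,
and amalgamate. -/
theorem NM.cc (h : NM κ (Iio l) W) (hl : κ.ord ≤ l) (hκ : Stage κ.ord) : CC κ.ord (lc κ) := by
  classical
  intro A hA hanti
  by_contra hc
  have h0 : #(Iio κ.ord) ≤ #A := by
    rw [mk_Iio_ord]
    exact not_lt.1 hc
  obtain ⟨φ⟩ := h0
  let p : Ordinal.{0} → Set At := fun ξ => if k : ξ < κ.ord then (φ ⟨ξ, k⟩).1 else ∅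
  have p1 : ∀ ξ (k : ξ < κ.ord), p ξ = (φ ⟨ξ, k⟩).1 := fun ξ k => dif_pos k
  have p2 : ∀ ξ < κ.ord, p ξ ∈ A := fun ξ k => p1 ξ k ▸ (φ ⟨ξ, k⟩).2
  obtain ⟨r, hr⟩ : ∃ r, ∀ᶠ x in (W : Filter (Set Ordinal.{0})), res (kx x) (p (kx x)) = r := by
    by_contra hn
    obtain ⟨x, a, b⟩ := ((h.diag_PV hl hκ (fun x s => ¬ res (kx x) (p (kx x)) = s) fun s _ =>
      Ultrafilter.eventually_not.2 fun k => hn ⟨s, k⟩).and (h.kx_spec hl)).exists
    exact a _ (PV.res (hA (p2 _ b.1)) _) rfl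
  obtain ⟨x, a, b⟩ := (hr.and (h.kx_spec hl)).exists
  obtain ⟨x', ⟨a', b'⟩, e1, e2⟩ := ((hr.and (h.kx_spec hl)).and
    ((h.mem_PV hl hκ (hA (p2 _ b.1))).and (h.lt_kx hl b.1))).exists
  have e3 := PV.amal e1 (hA (p2 _ b'.1)) (a'.trans a.symm ▸ res_sub _ _) b'.1.le
  have e4 := hanti _ (p2 _ b.1) _ (p2 _ b'.1) ⟨_, e3, subset_union_left, subset_union_right⟩
  rw [p1 _ b.1, p1 _ b'.1] at e4
  exact e2.ne (congrArg Subtype.val (φ.injective (Subtype.ext e4)))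

end Pool.Agent.SC7292

/-!
Posets lying over the iteration; relative distributivity.
-/

namespace Pool.Agent.SC7292

open Cardinal Ordinal Set Filter Function Pool.Agent.MP_7b2404_lc

/-- A poset `Q` with a projection to the iteration. -/
structure Tw (X : Type 1) : Type 1 where
  Q : Set X
  gp : X → Set At
  up : Set At → X
  sle : X → X → Prop

variable {X : Type 1} [SemilatticeSup X]

/-- The properties of such a poset for cuts `c ≤ b`. -/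
structure Tw.OK (T : Tw X) (b : Ordinal.{0}) : Prop where
  res_mem : ∀ {g}, g ∈ T.Q → ∀ c, res c (T.gp g) ∈ PV c
  gp_mono : Monotone T.gp
  gp_up : ∀ s, T.gp (T.up s) = s
  gp_sup : ∀ g g', T.gp (g ⊔ g') = T.gp g ∪ T.gp g'
  up_le : ∀ {s g}, s ⊆ T.gp g → T.up s ≤ g
  up_mono : Monotone T.up
  amal : ∀ {c s g}, c ≤ b → s ∈ PV c → g ∈ T.Q → res c (T.gp g) ⊆ s → T.up s ⊔ g ∈ T.Q
  bot : ∃ o ∈ T.Q, T.gp o = ∅ ∧ ∀ g, o ≤ g
  of_le : ∀ {g u}, g ∈ T.Q → u ∈ T.Q → u ≤ g → T.sle g u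
  mono : ∀ {g g' u}, T.sle g u → g ≤ g' → T.sle g' u
  trans : ∀ {g u w}, T.sle g u → T.sle u w → u ∈ T.Q → T.sle g w
  sup_mem : ∀ {g u}, T.sle g u → g ∈ T.Q → u ∈ T.Q → g ⊔ u ∈ T.Q
  sup : ∀ {g u u'}, T.sle g u → T.sle g u' → T.sle g (u ⊔ u')
  sle_up : ∀ {g s}, Sle (T.gp g) s → T.sle g (T.up s)
  cl : ∀ {c} {ι : Type 1} {u : ι → X} {s0}, c ≤ b → (∀ γ, Stage γ → c ≤ γ → #ι < lc γ.card) →
    (∀ i, u i ∈ T.Q) → s0 ∈ PV c →
    (∀ i j, ∀ s ∈ PV c, s0 ⊆ s → res c (T.gp (u i)) ⊆ s → res c (T.gp (u j)) ⊆ s →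
      ∃ s' ∈ PV c, s ⊆ s' ∧ ∃ k, res c (T.gp (u k)) ⊆ s' ∧ T.sle (T.up s' ⊔ u k) (u i) ∧
        T.sle (T.up s' ⊔ u k) (u j)) →
    ∃ w ∈ T.Q, res c (T.gp w) = s0 ∧
      ∀ i, ∀ s ∈ PV c, s0 ⊆ s → res c (T.gp (u i)) ⊆ s → T.sle (T.up s ⊔ w) (u i)

/-- The iteration as a tower. -/
def pvT (Q : Set (Set At)) : Tw (Set At) := ⟨Q, id, id, Sle⟩

theorem pvT_ok (d : Ordinal.{0}) : (pvT (PV d)).OK d where
  res_mem h c := PV.res h c
  gp_mono := monotone_id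
  gp_up _ := rfl
  gp_sup _ _ := rfl
  up_le h := h
  up_mono := monotone_id
  amal a b c e := PV.amal b c e a
  bot := ⟨∅, empty_PV _, rfl, empty_subset⟩
  of_le a _ b := Sle.of_sub a b
  mono := Sle.mono
  trans := Sle.trans
  sup_mem := Sle.union_mem
  sup := Sle.union
  sle_up h := h
  cl a b c e f := PV.cl a b c e f

/-- At a cut that is not a stage: take `μ = succ (max (max #ι #(PV c)) ℵ₀)`. -/
theorem exists_mu {c : Ordinal.{0}} (hn : ¬ Stage c) {a : Cardinal.{1}}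
    (ha : ∀ γ, Stage γ → c < γ → a < lc γ.card) : ∃ μ : Cardinal.{1}, ℵ₀ ≤ μ ∧
      (∀ γ, Stage γ → c ≤ γ → μ ≤ lc γ.card) ∧ CC c μ ∧ a < μ := by
  have e := Order.lt_succ (max (max a #(PV c)) ℵ₀)
  refine ⟨_, (le_max_right _ _).trans e.le, fun γ k l => Order.succ_le_of_lt ?_,
    cc_of_mk (((le_max_right _ _).trans (le_max_left _ _)).trans_lt e),
    ((le_max_left _ _).trans (le_max_left _ _)).trans_lt e⟩
  have l' : c < γ := l.lt_of_ne fun e => hn (e ▸ k)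
  exact max_lt (max_lt (ha γ k l') (k.mk_PV l')) (aleph0_lt_lift.2 k.1.aleph0_lt)

theorem tw1_card {c : Ordinal.{0}} {μ : Cardinal.{1}} (hcc : CC c μ) {Y : Type 1} {A : Set Y}
    (f : Y → Set At) (h1 : ∀ a ∈ A, f a ∈ PV c)
    (h2 : ∀ a ∈ A, ∀ b ∈ A, (∃ s ∈ PV c, f a ⊆ s ∧ f b ⊆ s) → a = b) : #A < μ := by
  refine mk_lt_of_map (hcc (f '' A) ?_ ?_) f (fun _ => mem_image_of_mem f)
    fun a k b l e => h2 a k b l ⟨_, h1 a k, subset_rfl, e.ge⟩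
  · rintro _ ⟨a, k, rfl⟩
    exact h1 a k
  · rintro _ ⟨a, k, rfl⟩ _ ⟨b, l, rfl⟩ e
    rw [h2 a k b l e]

theorem tw1_opt {μ : Cardinal.{1}} (h0 : ℵ₀ ≤ μ) {J : Type 1} (h : #J < μ) : #(Option J) < μ := by
  rw [mk_option]
  exact add_lt_of_lt h0 h (one_lt_aleph0.trans_le h0)

namespace Tw.OK

variable {T : Tw X} {b c : Ordinal.{0}} (h : T.OK b) {g g' u k : X} {s : Set At}
include h

theorem le (k : c ≤ b) : T.OK c :=
  { h with
    amal := fun a => h.amal (a.trans k)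
    cl := fun a => h.cl (a.trans k) }

/-- Extensions of `g` are compatible with whatever `g` forces. -/
theorem cov (a : T.sle g u) (hu : u ∈ T.Q) (hk : k ∈ T.Q) (e : g ≤ k) : k ⊔ u ∈ T.Q :=
  h.sup_mem (h.mono a e) hk hu

theorem dn (a : T.sle g u) (hu : u ∈ T.Q) {p : X → Prop} (H : Dn T.Q u p) : Dn T.Q g p :=
  fun k hk e =>
    let ⟨k', x, y, z⟩ := H _ (h.cov a hu hk e) le_sup_right
    ⟨k', x, le_sup_left.trans y, z⟩

theorem res_up (hs : s ∈ PV c) (e : res c (T.gp g) ⊆ s) : res c (T.gp (T.up s ⊔ g)) = s := by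
  rw [h.gp_sup, h.gp_up, res_amal hs e]

theorem anti (a : T.sle g u) (hu : u ∈ T.Q) (hk : k ∈ T.Q) (e : k ≤ u) : T.sle g k :=
  h.trans a (h.of_le hu hk e) hu

theorem sub_gp (s : Set At) (g : X) : s ⊆ T.gp (T.up s ⊔ g) := by
  rw [h.gp_sup, h.gp_up]
  exact subset_union_left

/-- Labels force what their projection contains. -/
theorem sle_sub (hg : g ∈ T.Q) (hs : s ∈ PV c) (e : s ⊆ T.gp g) : T.sle g (T.up s) :=
  h.sle_up ((Sle.of_sub (h.res_mem hg c) (PV.sub_res hs e)).mono (res_sub _ _))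

theorem up_sup_le (a : s ⊆ T.gp k) (e : g ≤ k) : T.up s ⊔ g ≤ k := sup_le (h.up_le a) e

theorem tw1_up {w : X} (e : res c (T.gp w) = s) : T.up s ⊔ w = w :=
  sup_eq_right.2 (h.up_le (e ▸ res_sub _ _))

theorem tw1_res {w : X} (e : res c (T.gp w) = res c (T.gp g)) :
    res c (T.gp (w ⊔ g)) = res c (T.gp g) := by
  rw [h.gp_sup, res_union, e, union_self]

theorem tw1_chain (hc : c ≤ b) {μ : Cardinal.{1}} (h0 : ℵ₀ ≤ μ)
    (hμ : ∀ γ, Stage γ → c ≤ γ → μ ≤ lc γ.card) {J : Type 1} (hJ : #J < μ) (hg : g ∈ T.Q)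
    (F : J → X) (h1 : ∀ j, F j ∈ T.Q ∧ res c (T.gp (F j)) = res c (T.gp g) ∧ T.sle (F j) g)
    (h2 : ∀ i j, T.sle (F i) (F j) ∨ T.sle (F j) (F i)) :
    ∃ w ∈ T.Q, res c (T.gp w) = res c (T.gp g) ∧ T.sle w g ∧ ∀ j, T.sle w (F j) := by
  let u : Option J → X := fun o => o.elim g F
  have a1 : ∀ i, u i ∈ T.Q ∧ res c (T.gp (u i)) = res c (T.gp g) := by
    rintro (_ | i)
    exacts [⟨hg, rfl⟩, ⟨(h1 i).1, (h1 i).2.1⟩]
  have a2 : ∀ i, T.sle (u i) (u i) := fun i => h.of_le (a1 i).1 (a1 i).1 le_rfl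
  have a3 : ∀ i j, T.sle (u i) (u j) ∨ T.sle (u j) (u i) := by
    rintro (_ | i) (_ | j)
    exacts [Or.inl (a2 none), Or.inr (h1 j).2.2, Or.inl (h1 i).2.2, h2 i j]
  obtain ⟨w, b1, b2, b3⟩ := h.cl (u := u) hc
    (fun γ k l => (tw1_opt h0 hJ).trans_le (hμ γ k l)) (fun i => (a1 i).1) (h.res_mem hg c)
    fun i j s hs _ k l => ⟨s, hs, subset_rfl, (a3 i j).elim
      (fun e => ⟨i, k, h.mono (a2 i) le_sup_right, h.mono e le_sup_right⟩)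
      fun e => ⟨j, l, h.mono e le_sup_right, h.mono (a2 j) le_sup_right⟩⟩
  have b4 : ∀ i, T.sle w (u i) := fun i =>
    h.tw1_up b2 ▸ b3 i _ (h.res_mem hg c) subset_rfl (a1 i).2.le
  exact ⟨w, b1, b2, b4 none, fun j => b4 (some j)⟩

theorem tw1_step (hc : c ≤ b) {μ : Cardinal.{1}} (h0 : ℵ₀ ≤ μ)
    (hμ : ∀ γ, Stage γ → c ≤ γ → μ ≤ lc γ.card) (hcc : CC c μ) {D : X → Prop} (hg : g ∈ T.Q)
    (hD : Dn T.Q g D) {w : X} (h1 : w ∈ T.Q) (h2 : res c (T.gp w) = res c (T.gp g))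
    (h3 : T.sle w g) : ∃ y ∈ T.Q, res c (T.gp y) = res c (T.gp g) ∧ T.sle y w ∧
      ∀ s ∈ PV c, res c (T.gp g) ⊆ s → ∃ s' ∈ PV c, s ⊆ s' ∧ ∃ k ∈ T.Q, g ≤ k ∧ D k ∧
        T.sle (T.up s' ⊔ y) k := by
  have hw := h.sup_mem h3 h1 hg
  obtain ⟨A, a1, a2, a3⟩ := exists_anti {k | k ∈ T.Q ∧ w ⊔ g ≤ k ∧ D k}
    (fun k k' => ∃ s ∈ PV c, res c (T.gp k) ⊆ s ∧ res c (T.gp k') ⊆ s)
    (fun k a => ⟨_, h.res_mem a.1 c, subset_rfl, subset_rfl⟩)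
    fun _ _ ⟨s, x, y, z⟩ => ⟨s, x, z, y⟩
  have a4 : #A < μ := tw1_card hcc (fun k => res c (T.gp k)) (fun k a => h.res_mem (a1 a).1 c) a2
  let u : Option A → X := fun o => o.elim (w ⊔ g) Subtype.val
  have a5 : ∀ i, u i ∈ T.Q := by
    rintro (_ | i)
    exacts [hw, (a1 i.2).1]
  have a6 : ∀ i j, ∀ s ∈ PV c, res c (T.gp (u i)) ⊆ s → res c (T.gp (u j)) ⊆ s →
      u i ≤ u j ∨ u j ≤ u i := by
    rintro (_ | i) (_ | j) s hs k l
    exacts [Or.inl le_rfl, Or.inl (a1 j.2).2.1, Or.inr (a1 i.2).2.1,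
      Or.inl (a2 _ i.2 _ j.2 ⟨s, hs, k, l⟩).le]
  obtain ⟨y, b1, b2, b3⟩ := h.cl (u := u) hc
    (fun γ k l => (tw1_opt h0 a4).trans_le (hμ γ k l)) a5 (h.res_mem hg c)
    fun i j s hs _ k l => ⟨s, hs, subset_rfl, (a6 i j s hs k l).elim
      (fun e => ⟨j, l, h.of_le (h.amal hc hs (a5 j) l) (a5 i) (e.trans le_sup_right),
        h.of_le (h.amal hc hs (a5 j) l) (a5 j) le_sup_right⟩)
      fun e => ⟨i, k, h.of_le (h.amal hc hs (a5 i) k) (a5 i) le_sup_right,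
        h.of_le (h.amal hc hs (a5 i) k) (a5 j) (e.trans le_sup_right)⟩⟩
  refine ⟨y, b1, b2, ?_, fun s hs k => ?_⟩
  · exact h.anti (h.tw1_up b2 ▸ b3 none _ (h.res_mem hg c) subset_rfl (h.tw1_res h2).le) hw h1
      le_sup_left
  · obtain ⟨k1, c1, c2, c3⟩ := hD _ (h.amal hc hs hw ((h.tw1_res h2).le.trans k))
      (le_sup_right.trans le_sup_right)
    obtain ⟨a, d1, s', d2, d3, d4⟩ := a3 k1 ⟨c1, le_sup_right.trans c2, c3⟩
    have e : s ⊆ s' := (PV.sub_res hs ((h.sub_gp _ _).trans (h.gp_mono c2))).trans d3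
    exact ⟨s', d2, e, a, (a1 d1).1, le_sup_right.trans (a1 d1).2.1, (a1 d1).2.2,
      b3 (some ⟨a, d1⟩) s' d2 (k.trans e) d4⟩

/-- Relative distributivity. One step: for `w ∈ Q` with `res c (gp w) = s0` take a maximal
antichain (`exists_anti`, first components) among the pairs `(res c (gp k), k)` with `k ∈ Q`,
`w ≤ k`, `D k`, and apply `cl` to `w` together with these `k`. Then iterate along a well-order of
`ι` (`exists_seq`), using `cl` for chains (add `g` to the family); finally take `w ⊔ g`. -/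
theorem rd (hc : c ≤ b) {μ : Cardinal.{1}} (h0 : ℵ₀ ≤ μ)
    (hμ : ∀ γ, Stage γ → c ≤ γ → μ ≤ lc γ.card) (hcc : CC c μ) {ι : Type 1} (hι : #ι < μ)
    (D : ι → X → Prop) (hg : g ∈ T.Q) (hD : ∀ i, Dn T.Q g (D i)) :
    ∃ g' ∈ T.Q, g ≤ g' ∧ res c (T.gp g') = res c (T.gp g) ∧ ∀ i, ∀ s ∈ PV c,
      res c (T.gp g) ⊆ s → ∃ s' ∈ PV c, s ⊆ s' ∧ ∃ k ∈ T.Q, g ≤ k ∧ D i k ∧
        T.sle (T.up s' ⊔ g') k := by
  have : Nonempty X := ⟨g⟩
  have tri : ∀ {i j : ι} {F : ι → X}, F i ∈ T.Q → (WellOrderingRel j i → T.sle (F i) (F j)) →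
      (WellOrderingRel i j → T.sle (F j) (F i)) → T.sle (F i) (F j) ∨ T.sle (F j) (F i) := by
    intro i j F a k l
    rcases trichotomous_of WellOrderingRel i j with e | rfl | e
    exacts [Or.inr (l e), Or.inl (h.of_le a a le_rfl), Or.inl (k e)]
  obtain ⟨F, hF⟩ := exists_seq (ι := ι) (Y := X) WellOrderingRel IsWellFounded.wf
    (fun i y => (y ∈ T.Q ∧ res c (T.gp y) = res c (T.gp g) ∧ T.sle y g) ∧
      ∀ s ∈ PV c, res c (T.gp g) ⊆ s → ∃ s' ∈ PV c, s ⊆ s' ∧ ∃ k ∈ T.Q, g ≤ k ∧ D i k ∧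
        T.sle (T.up s' ⊔ y) k) (fun _ _ y y' => T.sle y y')
    (fun i F H => by
      obtain ⟨w, a1, a2, a3, a4⟩ := h.tw1_chain hc h0 hμ (J := {j // WellOrderingRel j i})
        ((mk_subtype_le _).trans_lt hι) hg (fun j => F j.1) (fun j => (H j.1 j.2).1.1)
        fun j k => tri (H j.1 j.2).1.1.1 ((H j.1 j.2).2 _) ((H k.1 k.2).2 _)
      obtain ⟨y, b1, b2, b3, b4⟩ := h.tw1_step hc h0 hμ hcc hg (hD i) a1 a2 a3
      exact ⟨y, ⟨⟨b1, b2, h.trans b3 a3 a1⟩, b4⟩, fun j k => h.trans b3 (a4 ⟨j, k⟩) a1⟩)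
    fun _ _ _ => trans_of WellOrderingRel
  obtain ⟨w, a1, a2, a3, a4⟩ := h.tw1_chain hc h0 hμ hι hg F (fun j => (hF j).1.1)
    fun j k => tri (hF j).1.1.1 ((hF j).2 _) ((hF k).2 _)
  have hw := h.sup_mem a3 a1 hg
  refine ⟨w ⊔ g, hw, le_sup_right, h.tw1_res a2, fun i s hs k => ?_⟩
  obtain ⟨s', b1, b2, k1, b3, b4, b5, b6⟩ := (hF i).1.2 s hs k
  refine ⟨s', b1, b2, k1, b3, b4, b5, h.trans (h.sup ?_ ?_) b6
    (h.amal hc b1 (hF i).1.1.1 ((hF i).1.1.2.1.le.trans (k.trans b2)))⟩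
  · exact h.sle_sub (h.amal hc b1 hw ((h.tw1_res a2).le.trans (k.trans b2))) b1 (h.sub_gp _ _)
  · exact h.mono (a4 i) (le_sup_left.trans le_sup_right)

/-- The same with antichains. -/
theorem rd_anti (hc : c ≤ b) {μ : Cardinal.{1}} (h0 : ℵ₀ ≤ μ)
    (hμ : ∀ γ, Stage γ → c ≤ γ → μ ≤ lc γ.card) (hcc : CC c μ) {ι : Type 1} (hι : #ι < μ)
    (D : ι → X → Prop) (hg : g ∈ T.Q) (hD : ∀ i, Dn T.Q g (D i)) :
    ∃ g' ∈ T.Q, g ≤ g' ∧ res c (T.gp g') = res c (T.gp g) ∧ ∃ A : ι → Set (Set At × X), ∀ i,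
      #(A i) < μ ∧ (∀ e ∈ A i, e.1 ∈ PV c ∧ res c (T.gp g) ⊆ e.1 ∧ e.2 ∈ T.Q ∧ g ≤ e.2 ∧
        D i e.2 ∧ T.sle (T.up e.1 ⊔ g') e.2) ∧
      (∀ e ∈ A i, ∀ e' ∈ A i, ∀ s ∈ PV c, e.1 ⊆ s → e'.1 ⊆ s → e = e') ∧
      ∀ s ∈ PV c, res c (T.gp g) ⊆ s → ∃ e ∈ A i, ∃ s' ∈ PV c, s ⊆ s' ∧ e.1 ⊆ s' := by
  obtain ⟨g', a1, a2, a3, a4⟩ := h.rd hc h0 hμ hcc hι D hg hD
  choose A b1 b2 b3 using fun i => exists_anti
    {e : Set At × X | e.1 ∈ PV c ∧ res c (T.gp g) ⊆ e.1 ∧ e.2 ∈ T.Q ∧ g ≤ e.2 ∧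
      D i e.2 ∧ T.sle (T.up e.1 ⊔ g') e.2}
    (fun e e' => ∃ s ∈ PV c, e.1 ⊆ s ∧ e'.1 ⊆ s) (fun e a => ⟨_, a.1, subset_rfl, subset_rfl⟩)
    fun _ _ ⟨s, x, y, z⟩ => ⟨s, x, z, y⟩
  refine ⟨g', a1, a2, a3, A, fun i => ⟨tw1_card hcc Prod.fst (fun e a => (b1 i a).1) (b2 i),
    fun e a => b1 i a, fun e a e' a' s x y z => b2 i e a e' a' ⟨s, x, y, z⟩, fun s hs k => ?_⟩⟩
  obtain ⟨s', c1, c2, k1, c3, c4, c5, c6⟩ := a4 i s hs k
  obtain ⟨e, d1, s'', d2, d3, d4⟩ := b3 i (s', k1) ⟨c1, k.trans c2, c3, c4, c5, c6⟩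
  exact ⟨e, d1, s'', d2, c2.trans d3, d4⟩

/-- At a cut that is not a stage. -/
theorem rds (hc : c ≤ b) (hn : ¬ Stage c) {ι : Type 1}
    (hι : ∀ γ, Stage γ → c < γ → #ι < lc γ.card) (D : ι → X → Prop) (hg : g ∈ T.Q)
    (hD : ∀ i, Dn T.Q g (D i)) :
    ∃ g' ∈ T.Q, g ≤ g' ∧ res c (T.gp g') = res c (T.gp g) ∧ ∀ i, ∀ s ∈ PV c,
      res c (T.gp g) ⊆ s → ∃ s' ∈ PV c, s ⊆ s' ∧ ∃ k ∈ T.Q, g ≤ k ∧ D i k ∧
        T.sle (T.up s' ⊔ g') k :=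
  let ⟨_, a1, a2, a3, a4⟩ := exists_mu hn hι
  h.rd hc a1 a2 a3 a4 D hg hD

end Tw.OK

theorem not_stage_succ (c : Ordinal.{0}) : ¬ Stage (c + 1) := fun h =>
  (h.2.2 c (lt_add_one c)).not_ge (Order.add_one_le_of_lt (lt_fm c))

end Pool.Agent.SC7292
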