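import Pool.Agent.SC7292.Lab

/-!
States of a block, large sets of successors, closed sets of states.
-/

namespace Pool.Agent.SC7292

open Cardinal Ordinal Set Filter Function Pool.Agent.MP_7b2404_lc

/-- Histories: number of moves, current stage, recorded inputs and points. -/
@[ext] structure Hist (C : Type) : Type 1 where
  len : C → ℕ
  st : C → Ordinal.{0}
  inp : C × ℕ → Ordinal.{0}
  pt : C × ℕ → Set Ordinal.{0}

/-- States. -/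
abbrev State (C : Type) : Type 1 := Hist C × Lb C

/-- Systems of names of ultrafilters. -/
abbrev Phi (C : Type) : Type 1 := (C → ℕ) → Ordinal.{0} → Lb C → Nam (Lb C) → Prop

/-- Points of a base coordinate are small subsets of this ordinal. -/
noncomputable def Ty.dl (t : Ty) : Ordinal.{0} := max t.θ t.l

variable {C : Type} [LinearOrder C]

/-- One move. -/
noncomputable def Hist.step (h : Hist C) (c : C) (a : Ordinal.{0}) (z : Set Ordinal.{0}) : Hist C :=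
  ⟨update h.len c (h.len c + 1), update h.st c (max (h.st c) a), update h.inp (c, h.len c) a,
    update h.pt (c, h.len c) z⟩

/-- Extension of histories. -/
def HExt (h h' : Hist C) : Prop :=
  (∀ c, h.len c ≤ h'.len c ∧ h.st c ≤ h'.st c) ∧
    ∀ m : C × ℕ, m.2 < h.len m.1 → h'.inp m = h.inp m ∧ h'.pt m = h.pt m

omit [LinearOrder C] in
theorem HExt.refl (h : Hist C) : HExt h h := ⟨fun _ => ⟨le_rfl, le_rfl⟩, fun _ _ => ⟨rfl, rfl⟩⟩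

omit [LinearOrder C] in
theorem HExt.trans {h h' h'' : Hist C} (a : HExt h h') (b : HExt h' h'') : HExt h h'' :=
  ⟨fun c => ⟨(a.1 c).1.trans (b.1 c).1, (a.1 c).2.trans (b.1 c).2⟩, fun m hm =>
    have k := b.2 m (hm.trans_le (a.1 _).1)
    ⟨k.1.trans (a.2 m hm).1, k.2.trans (a.2 m hm).2⟩⟩

theorem HExt.step (h : Hist C) (c : C) (a : Ordinal.{0}) (z : Set Ordinal.{0}) :
    HExt h (h.step c a z) := by
  refine ⟨fun c' => ⟨update_ge _ _ _, ?_⟩, fun m hm => ?_⟩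
  · by_cases k : c' = c
    · simp [Hist.step, k]
    · simp [Hist.step, k]
  · have : m ≠ (c, h.len c) := by
      rintro rfl
      exact hm.false
    simp [Hist.step, this]

namespace Par

variable (P : Par) (ty : C → Ty)

/-- Valid types. -/
def TyOK (t : Ty) : Prop := t.θ < (P.ν (t.k + 1)).ord ∧ t.l < P.Ω

/-- Coordinates whose stages come from a clock. -/
def Clocked (t : Ty) : Prop := t.k = 0 ∧ ω < P.ρ

/-- Admissible inputs. -/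
def Inp (t : Ty) (n : ℕ) (a : Ordinal.{0}) : Prop := a < P.ρ ∧ (¬ P.Clocked t → a = n)

/-- Valid histories. -/
def HOK (h : Hist C) : Prop :=
  (∀ c, h.st c < P.ρ) ∧ ∀ m, h.inp m < P.ρ ∧ Pt (P.ν (ty m.1).k) (ty m.1).θ (h.pt m)

/-- Valid states. -/
def Val (σ : State C) : Prop := P.HOK ty σ.1 ∧ σ.2 ∈ P.Q ty σ.1.len

/-- Valid systems of names. -/
structure PhiOK (Φ : Phi C) : Prop where
  tyok : ∀ c, P.TyOK (ty c)
  uf : ∀ f α c, Mover f c → (ty c).k = 0 → α < P.ρ → UF (P.Q ty f) (P.sc α) (ty c).dl (Φ f α)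
  dom : ∀ f α g N, Φ f α g N → α < P.ρ ∧ ∃ c, Mover f c ∧ (ty c).k = 0
  loc : ∃ l < P.Ω, ∀ c, l ≤ c → ∀ f α, Loc (P.Q ty f) (rl c) (Φ f α)

/-- The effect of a move on atoms. -/
noncomputable def mva (c : C) (n : ℕ) (x : Set Ordinal.{0}) : Atom C → Atom C :=
  if (ty c).k = 0 then P.fill c n x else evA (c, n) x

/-- The state after a move. -/
noncomputable def mv (h : Hist C) (c : C) (a : Ordinal.{0}) (x : Set Ordinal.{0}) (g : Lb C) :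
    State C := (h.step c a (x ∩ Iio (ty c).θ), lmap (P.mva ty c (h.len c) x) g)

/-- Almost all moves lead into `D`. -/
def Large (Φ : Phi C) (σ : State C) (c : C) (a : Ordinal.{0}) (D : Set (State C)) : Prop :=
  ((ty c).k = 0 → Φ σ.1.len (max (σ.1.st c) a) σ.2
    fun x => {g | P.Full ty c x g ∧ P.mv ty σ.1 c a x g ∈ D}) ∧
  ((ty c).k ≠ 0 → P.UN (ty c) σ.2.1 fun y => {q | P.mv ty σ.1 c a y (q, σ.2.2) ∈ D})

/-- Open sets of valid states. -/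
def Opn (D : Set (State C)) : Prop :=
  ∀ σ ∈ D, P.Val ty σ ∧ ∀ g ∈ P.Q ty σ.1.len, σ.2 ≤ g → (σ.1, g) ∈ D

/-- Regular sets of states. -/
def Reg (D : Set (State C)) : Prop :=
  ∀ σ, P.Val ty σ → (Dn (P.Q ty σ.1.len) σ.2 fun g => (σ.1, g) ∈ D) → σ ∈ D

/-- The next move. -/
def Nx (h : Hist C) (c : C) (a : Ordinal.{0}) : Prop := Mover h.len c ∧ P.Inp (ty c) (h.len c) a

/-- Closed sets of states. -/
def Closed (Φ : Phi C) (D : Set (State C)) : Prop :=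
  P.Opn ty D ∧ ∀ σ ∈ D, ∀ c a, P.Nx ty σ.1 c a → P.Large ty Φ σ c a D

/-- Successors. -/
def Succ (σ : State C) (c : C) (a : Ordinal.{0}) (x : Set Ordinal.{0}) (τ : State C) : Prop :=
  ∃ g ∈ P.Q ty σ.1.len, σ.2 ≤ g ∧ τ = P.mv ty σ.1 c a x g ∧ P.Val ty τ ∧
    ((ty c).k = 0 → P.Full ty c x g ∧ #x ≤ lc (P.ν 0))

/-- States with no extension in `D`. -/
def perp (D : Set (State C)) : Set (State C) :=
  {τ | P.Val ty τ ∧ ∀ g ∈ P.Q ty τ.1.len, τ.2 ≤ g → (τ.1, g) ∉ D}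

/-- States with densely many extensions in `D`. -/
def reg (D : Set (State C)) : Set (State C) := P.perp ty (P.perp ty D)

variable {P ty} {Φ : Phi C} {σ : State C} {c : C} {a : Ordinal.{0}} {D D' : Set (State C)}

theorem Val.ext (h : P.Val ty σ) {g : Lb C} (hg : g ∈ P.Q ty σ.1.len) :
    P.Val ty (σ.1, g) := ⟨h.1, hg⟩

theorem opn_perp : P.Opn ty (P.perp ty D) := fun _ h =>
  ⟨h.1, fun _ a b => ⟨h.1.ext a, fun g' c d => h.2 g' c (b.trans d)⟩⟩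

theorem reg_perp (hD : P.Opn ty D) : P.Reg ty (P.perp ty D) := fun _ h H => ⟨h, fun g a b c =>
  let ⟨k, d, e, f⟩ := H g a b
  f.2 k d le_rfl ((hD _ c).2 k d e)⟩

theorem mem_reg : σ ∈ P.reg ty D ↔
    P.Val ty σ ∧ Dn (P.Q ty σ.1.len) σ.2 fun g => (σ.1, g) ∈ D := by
  refine and_congr_right fun h => forall₃_congr fun g a _ => ?_
  simp only [perp, mem_setOf_eq, h.ext a, true_and, not_forall, not_not, exists_prop]

theorem opn_reg : P.Opn ty (P.reg ty D) := opn_perp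

theorem reg_reg : P.Reg ty (P.reg ty D) := reg_perp opn_perp

theorem Opn.sub_reg (h : P.Opn ty D) : D ⊆ P.reg ty D := fun σ k =>
  mem_reg.2 ⟨(h σ k).1, Dn.of (h σ k).2⟩

theorem Reg.reg_sub (h : P.Reg ty D) : P.reg ty D ⊆ D := fun σ k =>
  h σ (mem_reg.1 k).1 (mem_reg.1 k).2

theorem reg_mono (e : D ⊆ D') : P.reg ty D ⊆ P.reg ty D' := fun _ k =>
  mem_reg.2 ⟨(mem_reg.1 k).1, (mem_reg.1 k).2.imp fun _ _ _ l => e l⟩

theorem lab_ok (f : C → ℕ) : (P.labT ty f P.Ω).OK P.b := labT_ok P.b_le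

/-- A label forcing a member of a regular open set is a member. -/
theorem Reg.of_sle (h : P.Reg ty D) (hD : P.Opn ty D) (k : σ ∈ D) {g : Lb C}
    (hg : g ∈ P.Q ty σ.1.len) (e : P.lsle g σ.2) : (σ.1, g) ∈ D :=
  h _ ((hD σ k).1.ext hg) ((lab_ok σ.1.len).dn e (hD σ k).1.2 (Dn.of (hD σ k).2))

/-- Extending the first component of a label. -/
theorem Opn.up (h : P.Opn ty D) (k : σ ∈ D) {q : Set At} (hq : q ∈ PV P.Ω) (e : σ.2.1 ⊆ q) :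
    (σ.1, (q, σ.2.2)) ∈ D := (h σ k).2 _ (QL_up' (h σ k).1.2 hq e) ⟨e, subset_rfl⟩

theorem Nx.st (hn : P.Nx ty σ.1 c a) (hσ : P.Val ty σ) : max (σ.1.st c) a < P.ρ :=
  max_lt (hσ.1.1 c) hn.2.1

theorem hok_step {h : Hist C} (hh : P.HOK ty h) (ha : a < P.ρ) {z : Set Ordinal.{0}}
    (hz : Pt (P.ν (ty c).k) (ty c).θ z) : P.HOK ty (h.step c a z) := by
  refine ⟨fun c' => ?_, fun m => ?_⟩
  · by_cases k : c' = c
    · simpa [Hist.step, k] using ⟨hh.1 c, ha⟩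
    · simpa [Hist.step, k] using hh.1 c'
  · by_cases k : m = (c, h.len c)
    · simpa [Hist.step, k] using ⟨ha, hz⟩
    · simpa [Hist.step, k] using hh.2 m

theorem mv_mono {h : Hist C} {x : Set Ordinal.{0}} {g g' : Lb C} (e : g ≤ g') :
    (P.mv ty h c a x g).2 ≤ (P.mv ty h c a x g').2 := lmap_mono _ e

theorem mv_base (hk : (ty c).k = 0) (h : Hist C) (x : Set Ordinal.{0}) (g : Lb C) :
    (P.mv ty h c a x g).2 = lmap (P.fill c (h.len c) x) g := by simp only [mv, mva, hk, if_true]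

theorem mv_upper (hk : (ty c).k ≠ 0) (h : Hist C) (x : Set Ordinal.{0}) (g : Lb C) :
    (P.mv ty h c a x g).2 = lmap (evA (c, h.len c) x) g := by simp only [mv, mva, hk, if_false]

theorem mv_Q (hk : (ty c).k = 0) {h : Hist C} {x : Set Ordinal.{0}} {g : Lb C}
    (hg : g ∈ P.Q ty h.len) : (P.mv ty h c a x g).2 ∈ P.Q ty (P.mv ty h c a x g).1.len := by
  rw [mv_base hk]
  simp only [mv, Hist.step, Q_base hk]
  exact Q_fill hg _ _ _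

theorem mv_Q' (hn : Mover σ.1.len c) (hk : (ty c).k ≠ 0) {g : Lb C} (hg : g ∈ P.Q ty σ.1.len) :
    ∀ᶠ y in (P.U (ty c) : Filter (Set Ordinal.{0})), ∀ q ∈ PV P.Ω, g.1 ⊆ q →
      (P.mv ty σ.1 c a y (q, g.2)).2 ∈ P.Q ty (P.mv ty σ.1 c a y (q, g.2)).1.len :=
  (Q_ev hn hk hg).mono fun y hy q b e => by
    rw [mv_upper hk]
    exact QL_up' hy b e

theorem Opn.mv (hD : P.Opn ty D) (hk : (ty c).k = 0) {h : Hist C} {x : Set Ordinal.{0}}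
    {g g' : Lb C} (e : g ≤ g') (hg : g' ∈ P.Q ty h.len) (k : P.mv ty h c a x g ∈ D) :
    P.mv ty h c a x g' ∈ D := (hD _ k).2 _ (mv_Q (x := x) (a := a) hk hg) (mv_mono e)

theorem Opn.hit (hD : P.Opn ty D) {h : Hist C} {y : Set Ordinal.{0}} {L : Set (LA C)}
    {q : Set At} (hq : q ∈ PV P.Ω)
    (k : Hit (fun y => {q | P.mv ty h c a y (q, L) ∈ D}) y q) : P.mv ty h c a y (q, L) ∈ D :=
  let ⟨_, b, e⟩ := k
  hD.up b hq e

theorem val_base (hσ : P.Val ty σ) (hn : P.Nx ty σ.1 c a) (hk : (ty c).k = 0) {δ : Ordinal.{0}}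
    {x : Set Ordinal.{0}} (hx : Pt (P.sc (max (σ.1.st c) a)) δ x) {g : Lb C}
    (hg : g ∈ P.Q ty σ.1.len) : P.Val ty (P.mv ty σ.1 c a x g) :=
  ⟨hok_step hσ.1 hn.2.1 ⟨inter_subset_right, ((mk_le_mk_of_subset inter_subset_left).trans_lt
    hx.2).trans_le (hk ▸ Cardinal.lift_le.2 (P.sc_le _ (hn.st hσ)))⟩, mv_Q hk hg⟩

theorem val_upper (hσ : P.Val ty σ) (hn : P.Nx ty σ.1 c a) (hk : (ty c).k ≠ 0) :
    ∀ᶠ y in (P.U (ty c) : Filter (Set Ordinal.{0})), ∀ q ∈ PV P.Ω, σ.2.1 ⊆ q →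
      P.Val ty (P.mv ty σ.1 c a y (q, σ.2.2)) := by
  filter_upwards [mv_Q' (a := a) hn.1 hk hσ.2, P.U_pt hk] with y a1 a2 q b e
  exact ⟨hok_step hσ.1 hn.2.1 ⟨inter_subset_right,
    (mk_le_mk_of_subset inter_subset_left).trans_lt a2.2⟩, a1 q b e⟩

theorem Pt.le {α δ : Ordinal.{0}} (hα : α < P.ρ) {x : Set Ordinal.{0}} (hx : Pt (P.sc α) δ x) :
    #x ≤ lc (P.ν 0) := hx.2.le.trans (Cardinal.lift_le.2 (P.sc_le _ hα))

theorem exists_full' {f : C → ℕ} {g : Lb C} (h : g ∈ P.Q ty f) (hc : (ty c).k = 0)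
    {x : Set Ordinal.{0}} (hx : #x ≤ lc (P.ν 0)) : ∃ g' ∈ P.Q ty f, g ≤ g' ∧ P.Full ty c x g' :=
  let ⟨_, a, b, d⟩ := exists_full h hc hx
  ⟨_, a, ⟨subset_rfl, b⟩, d⟩

theorem PhiOK.uf' (hΦ : P.PhiOK ty Φ) (hσ : P.Val ty σ) (hn : P.Nx ty σ.1 c a)
    (hk : (ty c).k = 0) : UF (P.Q ty σ.1.len) (P.sc (max (σ.1.st c) a)) (ty c).dl
      (Φ σ.1.len (max (σ.1.st c) a)) := hΦ.uf _ _ c hn.1 hk (hn.st hσ)

theorem PhiOK.pf (hΦ : P.PhiOK ty Φ) {f α g N} (h : Φ f α g N) :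
    ∃ δ, PF (P.Q ty f) (P.sc α) δ (Φ f α) :=
  let ⟨a, c, b, d⟩ := hΦ.dom _ _ _ _ h
  ⟨_, (hΦ.uf f α c b d a).toPF⟩

theorem large_of_succ (hΦ : P.PhiOK ty Φ) (hσ : P.Val ty σ) (hn : P.Nx ty σ.1 c a)
    (h : ∀ x τ, P.Succ ty σ c a x τ → τ ∈ D) : P.Large ty Φ σ c a D := by
  refine ⟨fun hk => ?_, fun hk => P.UN_incl hk (val_upper hσ hn hk)
    ((P.UN_uf hk).small hσ.2.1) fun y hy q b e _ => ⟨q, b, subset_rfl, hit_of_mem
      (h y _ ⟨_, QL_up' hσ.2 b e, ⟨e, subset_rfl⟩, rfl, hy q b e, fun k => (hk k).elim⟩)⟩⟩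
  have u := hΦ.uf' hσ hn hk
  refine u.incl (u.small hσ.2) fun x g hg e ⟨_, hx, _⟩ => ?_
  obtain ⟨g', a1, a2, a3⟩ := exists_full' hg hk (Pt.le (hn.st hσ) hx)
  exact ⟨g', a1, a2, hit_of_mem ⟨a3, h x _ ⟨g', a1, e.trans a2, rfl, val_base hσ hn hk hx a1,
    fun _ => ⟨a3, Pt.le (hn.st hσ) hx⟩⟩⟩⟩

theorem Large.mono (hΦ : P.PhiOK ty Φ) (h : P.Large ty Φ σ c a D) (e : D ⊆ D') :
    P.Large ty Φ σ c a D' :=
  ⟨fun hk => (hΦ.pf (h.1 hk)).choose_spec.incl (h.1 hk)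
    fun _ g hg _ ⟨k, a1, a2⟩ => ⟨g, hg, le_rfl, k, ⟨a1.1, e a1.2⟩, a2⟩,
    fun hk => (P.UN_uf hk).incl (h.2 hk)
      fun _ g hg _ ⟨k, a1, a2⟩ => ⟨g, hg, le_rfl, k, e a1, a2⟩⟩

theorem Large.ext (hΦ : P.PhiOK ty Φ) (h : P.Large ty Φ σ c a D) (hD : P.Opn ty D)
    (hn : Mover σ.1.len c) {g : Lb C} (hg : g ∈ P.Q ty σ.1.len) (e : σ.2 ≤ g) :
    P.Large ty Φ (σ.1, g) c a D :=
  ⟨fun hk => (hΦ.pf (h.1 hk)).choose_spec.mono (h.1 hk) e hg, fun hk =>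
    P.UN_incl hk (mv_Q' (a := a) hn hk hg) ((P.UN_uf hk).mono (h.2 hk) e.1 hg.1)
      fun y hy q b l k => ⟨q, b, subset_rfl, hit_of_mem ((hD _ (hD.hit b k)).2 _ (hy q b l)
        (mv_mono (a := a) (g := (q, σ.2.2)) (g' := (q, g.2)) ⟨subset_rfl, e.2⟩))⟩⟩

theorem tree1_pull (hk : (ty c).k = 0) {h : Hist C} {x : Set Ordinal.{0}} {g t : Lb C}
    (hg : g ∈ P.Q ty h.len) (hf : P.Full ty c x g) (ht : t ∈ P.Q ty (P.mv ty h c a x g).1.len)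
    (e : (P.mv ty h c a x g).2 ≤ t) :
    ∃ g' ∈ P.Q ty h.len, g ≤ g' ∧ P.lsle (P.mv ty h c a x g').2 t := by
  simp only [mv_base hk] at e ⊢
  simp only [mv, Hist.step, Q_base hk] at ht
  exact fill_pull hg ht hf e

/-- Port of the old lemma. In the base case a point `x` and a full label `g'` with
`∀ i, Dn _ g' (Hit (N i) x)` give `mv x g' ∈ D i` by regularity: for `t` above `(mv x g').2` use
`fill_pull`, and `cov` of `lab_ok`. In the upper case extend the first component of `t`. -/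
theorem large_iInter (hΦ : P.PhiOK ty Φ) (hσ : P.Val ty σ) (hn : P.Nx ty σ.1 c a) {ι : Type 1}
    {α : Ordinal.{0}} (hα : α < P.ρ) (hι : #ι < lc (P.sc α)) (hc : (ty c).k = 0 → α ≤ σ.1.st c)
    {D : ι → Set (State C)} (hD : ∀ i, P.Opn ty (D i)) (hR : ∀ i, P.Reg ty (D i))
    (h : ∀ i, P.Large ty Φ σ c a (D i)) :
    P.Large ty Φ σ c a {τ | P.Val ty τ ∧ ∀ i, τ ∈ D i} := by
  refine ⟨fun hk => ?_, fun hk => ?_⟩
  · have u := hΦ.uf' hσ hn hk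
    refine u.incl (u.toPF.inter2 (P.sc_reg _).aleph0_le (u.small hσ.2) (u.inter (hι.trans_le
      (Cardinal.lift_le.2 (P.sc_mono ((hc hk).trans (le_max_left _ _))))) hσ.2
      fun i => (h i).1 hk)) fun x g hg e ⟨_, ⟨⟨_, hx, _⟩, ⟨_, b1, b2⟩⟩, b3⟩ => ?_
    obtain ⟨g', a1, a2, a3⟩ := exists_full' hg hk (Pt.le (hn.st hσ) hx)
    have v := val_base hσ hn hk hx a1
    refine ⟨g', a1, a2, hit_of_mem ⟨a3, v, fun i => hR i _ v fun t t1 t2 => ?_⟩⟩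
    obtain ⟨g2, d1, d2, d3⟩ := tree1_pull hk a1 a3 t1 t2
    obtain ⟨g3, e1, e2, k, e3, e4⟩ := b1 i g2 d1 (b2.trans (b3.trans (a2.trans d2)))
    have e5 := (lab_ok _).cov (k := (P.mv ty σ.1 c a x g3).2) d3 t1 (mv_Q hk e1) (mv_mono e2)
    exact ⟨_, e5, le_sup_right, (hD i _ ((hD i).mv hk e4 e1 e3.2)).2 _ e5 le_sup_left⟩
  · refine P.UN_incl hk (val_upper hσ hn hk) ((P.UN_uf hk).inter (hι.trans_le
      ((Cardinal.lift_le.2 (P.sc_le _ hα)).trans (P.ν0_lt hk).le)) hσ.2.1 fun i => (h i).2 hk)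
      fun y hy q b e ⟨_, b1, b2⟩ => ⟨q, b, subset_rfl, hit_of_mem ⟨hy q b e, fun i =>
        hR i _ (hy q b e) fun t t1 t2 => ?_⟩⟩
    obtain ⟨q', d1, d2, d3⟩ := b1 i t.1 t1.1 (b2.trans t2.1)
    have d4 := QL_up' t1 d1 d2
    exact ⟨_, d4, ⟨d2, subset_rfl⟩, (hD i _ ((hD i).hit d1 d3)).2 _ d4 ⟨subset_rfl, t2.2⟩⟩

theorem zero_lt_ρ : 0 < P.ρ := omega0_pos.trans_le P.ρ_om

theorem Large.inter (hΦ : P.PhiOK ty Φ) (hσ : P.Val ty σ) (hn : P.Nx ty σ.1 c a)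
    (hD : P.Opn ty D) (hD' : P.Opn ty D') (h : P.Large ty Φ σ c a D) (h' : P.Large ty Φ σ c a D') :
    P.Large ty Φ σ c a (D ∩ D') := by
  refine ⟨fun hk => ?_, fun hk => ?_⟩
  · have u := hΦ.uf' hσ hn hk
    exact u.incl (u.toPF.inter2 (P.sc_reg _).aleph0_le (h.1 hk) (h'.1 hk))
      fun x g b _ ⟨_, ⟨⟨_, d1, d2⟩, _, e1, e2⟩, l⟩ => ⟨g, b, le_rfl, hit_of_mem
        ⟨d1.1.mono (d2.trans l), hD.mv hk (d2.trans l) b d1.2, hD'.mv hk (e2.trans l) b e1.2⟩⟩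
  · have u := P.UN_uf hk
    exact u.incl (u.toPF.inter2 (P.ν0' _) (h.2 hk) (h'.2 hk))
      fun x g b _ ⟨_, ⟨d, e⟩, l⟩ => ⟨g, b, le_rfl, hit_of_mem
        ⟨hD.hit b (d.mono l), hD'.hit b (e.mono l)⟩⟩

theorem Large.exists (hΦ : P.PhiOK ty Φ) (hσ : P.Val ty σ) (hn : P.Nx ty σ.1 c a)
    (hD : P.Opn ty D) (h : P.Large ty Φ σ c a D) {s : Set Ordinal.{0}} (hs : s.Finite)
    (hs' : ∀ ξ ∈ s, ξ < (ty c).θ ∨ (ty c).k = 0 ∧ ξ < (ty c).l) :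
    ∃ x τ, P.Succ ty σ c a x τ ∧ τ ∈ D ∧ s ⊆ x := by
  by_cases hk : (ty c).k = 0
  · have u := hΦ.uf' hσ hn hk
    have h0 := (P.sc_reg (max (σ.1.st c) a)).aleph0_le
    obtain ⟨x, g, a1, a2, ⟨_, ⟨⟨_, hx, _⟩, ⟨_, b1, _⟩⟩, _⟩, k, b2, b3⟩ := u.toPF.proper2 h0
      (u.toPF.inter2 h0 (u.small hσ.2) (u.toPF.all (ι := s) (hs.lt_aleph0.trans_le
        (aleph0_le_lift.2 h0)) hσ.2 fun ξ => u.fine hσ.2 (lt_max_iff.2
          ((hs' _ ξ.2).imp_right And.right)))) (h.1 hk)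
    exact ⟨x, _, ⟨g, a1, a2, rfl, val_base hσ hn hk hx a1,
      fun _ => ⟨b2.1.mono b3, Pt.le (hn.st hσ) hx⟩⟩, hD.mv hk b3 a1 b2.2, fun ξ hξ => b1 ⟨ξ, hξ⟩⟩
  · have u := P.UN_uf hk
    obtain ⟨y, q, a1, a2, ⟨_, b1, _⟩, b2⟩ := u.toPF.proper2 (P.ν0' _)
      (u.toPF.all (ι := s) (hs.lt_aleph0.trans_le (aleph0_le_lift.2 (P.ν0' _))) hσ.2.1
        fun ξ => u.fine hσ.2.1 (((hs' _ ξ.2).resolve_right fun e => hk e.1).trans_le
          (P.le_lam hk (hΦ.tyok c).1))) (h.2 hk)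
    have a3 := hD.hit a1 b2
    exact ⟨y, _, ⟨_, QL_up' hσ.2 a1 a2, ⟨a2, subset_rfl⟩, rfl, (hD _ a3).1, fun k => (hk k).elim⟩,
      a3, fun ξ hξ => b1 ⟨ξ, hξ⟩⟩

theorem Large.ex (hΦ : P.PhiOK ty Φ) (hσ : P.Val ty σ) (hn : P.Nx ty σ.1 c a)
    (hD : P.Opn ty D) (h : P.Large ty Φ σ c a D) : ∃ x τ, P.Succ ty σ c a x τ ∧ τ ∈ D :=
  let ⟨x, τ, a, b, _⟩ := h.exists hΦ hσ hn hD finite_empty (by simp); ⟨x, τ, a, b⟩

/-- Port of the old lemma. Base case: `fill_pull` now gives a label forcing `t`; use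
`Reg.of_sle`. Upper case: if `perp D` is not large, some `q2 ⊇ σ.2.1` forces the complement of
that name (`reg`, `ultra`), hence the name
`fun y => {q | ∃ H ∈ Q _, H.1 ⊆ q ∧ (evaluation of σ.2 at y).2 ⊆ H.2 ∧ (h y, H) ∈ D}`. `UN_sg`
gives `q3` and ground functions `k y`, `H y`. Almost all `res P.b (k y)` equal one `r`
(`ae_const`, `mk_b`, `χ_lt`); by `proper2` and `UN_ae` some extension `q4` of `q3` contains `r`.
Apply `pull_back` to `(q4, σ.2.2)`. -/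
theorem ultra [Countable C] (hΦ : P.PhiOK ty Φ) (hσ : P.Val ty σ) (hn : P.Nx ty σ.1 c a)
    (hD : P.Opn ty D) (hR : P.Reg ty D) :
    (∃ g ∈ P.Q ty σ.1.len, σ.2 ≤ g ∧ P.Large ty Φ (σ.1, g) c a D) ∨
      P.Large ty Φ σ c a (P.perp ty D) := by
  by_cases hk : (ty c).k = 0
  · refine or_iff_not_imp_left.2 fun H => ⟨fun _ => ?_, fun k => (k hk).elim⟩
    have u := hΦ.uf' hσ hn hk
    refine u.incl (u.toPF.inter2 (P.sc_reg _).aleph0_le (u.small hσ.2) (u.perp hσ.2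
      (N := fun x => {g | P.Full ty c x g ∧ P.mv ty σ.1 c a x g ∈ D})
      fun g a1 a2 a3 => H ⟨g, a1, a2, fun _ => a3, fun k => (k hk).elim⟩))
      fun x k b1 _ ⟨_, ⟨⟨_, hx, _⟩, ⟨_, b2, b3⟩⟩, b4⟩ => ?_
    obtain ⟨k', d1, d2, d3⟩ := exists_full' b1 hk (Pt.le (hn.st hσ) hx)
    refine ⟨k', d1, d2, hit_of_mem ⟨d3, val_base hσ hn hk hx d1, fun t t1 t2 t3 => ?_⟩⟩
    obtain ⟨k'', e1, e2, e3⟩ := tree1_pull hk d1 d3 t1 t2
    exact b2 k'' e1 (b3.trans (b4.trans (d2.trans e2))) (hit_of_mem ⟨d3.mono e2,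
      hR.of_sle hD t3 (mv_Q (x := x) (a := a) hk e1) e3⟩)
  · refine or_iff_not_imp_right.2 fun H => ?_
    have u := P.UN_uf hk
    obtain ⟨q1, a1, a2, a3⟩ : ∃ q1 ∈ PV P.Ω, σ.2.1 ⊆ q1 ∧ ∀ q ∈ PV P.Ω, q1 ⊆ q →
        ¬ P.UN (ty c) q fun y => {q | P.mv ty σ.1 c a y (q, σ.2.2) ∈ P.perp ty D} := by
      by_contra hc
      push Not at hc
      exact H ⟨fun k => (hk k).elim, fun _ => u.reg hσ.2.1 hc⟩
    obtain ⟨q3, b1, b2, k, b3, b4⟩ := P.UN_sg hk q1 (fun y => {q | ∃ t : Lb C, t.1 ⊆ q ∧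
        (P.mv ty σ.1 c a y σ.2).2.2 ⊆ t.2 ∧ ((P.mv ty σ.1 c a y σ.2).1, t) ∈ D})
      (P.UN_incl hk (val_upper hσ hn hk) (u.perp a1 a3) fun y hy q d1 d2 ⟨_, d3, d4⟩ => by
        by_contra hc
        exact d3 q d1 d4 (hit_of_mem ⟨hy q d1 (a2.trans d2), fun t t1 t2 t3 =>
          hc ⟨t.1, t1.1, t2.1, hit_of_mem ⟨t, subset_rfl, t2.2, t3⟩⟩⟩))
    obtain ⟨T, hT⟩ := (b3.mono fun y ⟨d1, _, ⟨t, d2, d3⟩, d4⟩ =>
      (⟨t, d2.trans d4, d3⟩ : ∃ t : Lb C, t.1 ⊆ k y ∧ (P.mv ty σ.1 c a y σ.2).2.2 ⊆ t.2 ∧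
        ((P.mv ty σ.1 c a y σ.2).1, t) ∈ D)).choice
    have := P.U_ci hk
    obtain ⟨r, -, hr⟩ := ae_const (U := P.U (ty c)) (P.mk_b.trans_lt (P.χ_lt hk))
      (φ := fun y => res P.b (k y)) (b3.mono fun y d => PV.res d.1 _)
    obtain ⟨y0, q4, d1, d2, ⟨_, rfl, d3⟩, _, d4, -⟩ :=
      u.toPF.proper2 (P.ν0' _) b4 (P.UN_ae hk hr b1)
    have d5 : r ⊆ q4 := d4 ▸ (res_sub _ _).trans d3
    have d6 : σ.2.1 ⊆ q4 := a2.trans (b2.trans d2)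
    obtain ⟨L, e1, e2, e3⟩ := pull_back hn.1 hk (QL_up' hσ.2 d1 d6) T (by
      filter_upwards [hT, hr] with y f1 f2
      refine ⟨(hD _ f1.2.2).1.2, ?_, (res_mono f1.1).trans (f2 ▸ d5)⟩
      exact (mv_upper (a := a) hk σ.1 y σ.2 ▸ f1.2.1 :))
    refine ⟨(q4, L), e1, ⟨d6, e2⟩, fun k => (hk k).elim, fun _ => P.UN_incl hk
      ((hT.and e3).and (mv_Q' (a := a) hn.1 hk e1)) (u.mono b4 d2 d1) ?_⟩
    rintro y ⟨⟨f1, f2⟩, f3⟩ q f4 f5 ⟨_, rfl, f6⟩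
    refine ⟨q, f4, subset_rfl, hit_of_mem ((hD _ f1.2.2).2 _ (f3 q f4 f5) ⟨f1.1.trans f6, ?_⟩)⟩
    exact (mv_upper (a := a) hk σ.1 y (q4, L) ▸ f2 : (T y).2 ⊆ (P.mv ty σ.1 c a y (q4, L)).2.2)

theorem closed_of_inv (hΦ : P.PhiOK ty Φ) (p : State C → Prop)
    (h1 : ∀ σ g, p σ → σ.2 ≤ g → p (σ.1, g))
    (h2 : ∀ σ c a x τ, P.Val ty σ → p σ → P.Nx ty σ.1 c a → P.Succ ty σ c a x τ → p τ) :
    P.Closed ty Φ {σ | P.Val ty σ ∧ p σ} :=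
  ⟨fun _ h => ⟨h.1, fun _ a b => ⟨h.1.ext a, h1 _ _ h.2 b⟩⟩, fun _ h _ _ hn =>
    large_of_succ hΦ h.1 hn fun _ _ k => ⟨k.choose_spec.2.2.2.1, h2 _ _ _ _ _ h.1 h.2 hn k⟩⟩

theorem Succ.sub {x : Set Ordinal.{0}} {τ : State C} (h : P.Succ ty σ c a x τ) :
    σ.2.1 ⊆ τ.2.1 := by
  obtain ⟨g, -, e, rfl, -⟩ := h
  exact e.1

theorem closed_sub (hΦ : P.PhiOK ty Φ) (q : Set At) :
    P.Closed ty Φ {σ | P.Val ty σ ∧ q ⊆ σ.2.1} :=
  closed_of_inv hΦ _ (fun _ _ a b => a.trans b.1) fun _ _ _ _ _ _ a _ b => a.trans b.sub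

theorem Succ.hist {x : Set Ordinal.{0}} {τ : State C} (h : P.Succ ty σ c a x τ) :
    τ.1 = σ.1.step c a (x ∩ Iio (ty c).θ) := by
  obtain ⟨g, -, -, rfl, -⟩ := h
  rfl

theorem closed_hist (hΦ : P.PhiOK ty Φ) (p : Hist C → Prop)
    (h : ∀ h c a z, p h → P.Nx ty h c a → p (h.step c a z)) :
    P.Closed ty Φ {σ | P.Val ty σ ∧ p σ.1} :=
  closed_of_inv hΦ (fun σ => p σ.1) (fun _ _ a _ => a) fun _ _ _ _ _ _ a b k => k.hist ▸ h _ _ _ _ a b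

theorem closed_ext (hΦ : P.PhiOK ty Φ) (h : Hist C) :
    P.Closed ty Φ {σ | P.Val ty σ ∧ HExt h σ.1} :=
  closed_hist hΦ _ fun _ _ _ _ a _ => a.trans (HExt.step _ _ _ _)

theorem Opn.inter (h : P.Opn ty D) (h' : P.Opn ty D') : P.Opn ty (D ∩ D') := fun σ k =>
  ⟨(h σ k.1).1, fun g a b => ⟨(h σ k.1).2 g a b, (h' σ k.2).2 g a b⟩⟩

theorem Closed.inter (hΦ : P.PhiOK ty Φ) (h : P.Closed ty Φ D) (h' : P.Closed ty Φ D') :
    P.Closed ty Φ (D ∩ D') :=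
  ⟨h.1.inter h'.1, fun σ k c a hn =>
    (h.2 σ k.1 c a hn).inter hΦ (h.1 σ k.1).1 hn h.1 h'.1 (h'.2 σ k.2 c a hn)⟩

variable (ty) in
/-- All stages of base coordinates are at least `α`. -/
def _root_.Pool.Agent.SC7292.High (α : Ordinal.{0}) (h : Hist C) : Prop :=
  ∀ c, (ty c).k = 0 → α ≤ h.st c

theorem Closed.reg [Countable C] (hΦ : P.PhiOK ty Φ) (h : P.Closed ty Φ D) :
    P.Closed ty Φ (P.reg ty D) := by
  refine ⟨opn_reg, fun σ k c a hn =>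
    (ultra hΦ k.1 hn opn_perp (reg_perp h.1)).resolve_left fun ⟨g, a1, a2, a3⟩ => ?_⟩
  obtain ⟨g', b1, b2, b3⟩ := (mem_reg.1 k).2 g a1 a2
  obtain ⟨_, τ, -, e1, e2⟩ := ((h.2 _ b3 c a hn).inter hΦ (k.1.ext b1) hn h.1 opn_perp
    (a3.ext hΦ opn_perp hn.1 b1 b2)).ex hΦ (k.1.ext b1) hn (h.1.inter opn_perp)
  exact e2.2 _ e2.1.2 le_rfl e1

theorem closed_iInter (hΦ : P.PhiOK ty Φ) {ι : Type 1} {α : Ordinal.{0}} (hα : α < P.ρ)
    (hι : #ι < lc (P.sc α)) {D : ι → Set (State C)} (h : ∀ i, P.Closed ty Φ (D i))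
    (hR : ∀ i, P.Reg ty (D i)) :
    P.Closed ty Φ {σ | (P.Val ty σ ∧ High ty α σ.1) ∧ ∀ i, σ ∈ D i} := by
  have h1 := closed_hist hΦ (High ty α) fun h c a z k _ c' e =>
    (k c' e).trans ((HExt.step h c a z).1 c').2
  refine ⟨fun σ k => ⟨k.1.1, fun g a b => ⟨(h1.1 σ k.1).2 g a b, fun i =>
    ((h i).1 σ (k.2 i)).2 g a b⟩⟩, fun σ k c a hn => ?_⟩
  refine ((h1.2 σ k.1 c a hn).inter hΦ k.1.1 hn h1.1 ?_ (large_iInter hΦ k.1.1 hn hα hι (k.1.2 c)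
    (fun i => (h i).1) hR fun i => (h i).2 σ (k.2 i) c a hn)).mono hΦ fun τ l => ⟨l.1, l.2.2⟩
  exact fun τ l => ⟨l.1, fun g a b => ⟨l.1.ext a, fun i => ((h i).1 τ (l.2 i)).2 g a b⟩⟩

theorem closed_sUnion (hΦ : P.PhiOK ty Φ) {S : Set (Set (State C))}
    (h : ∀ D ∈ S, P.Closed ty Φ D) : P.Closed ty Φ (⋃₀ S) :=
  ⟨fun σ ⟨D, a, b⟩ => ⟨((h D a).1 σ b).1, fun g c d => ⟨D, a, ((h D a).1 σ b).2 g c d⟩⟩,
    fun σ ⟨D, a, b⟩ c x hn => ((h D a).2 σ b c x hn).mono hΦ (subset_sUnion_of_mem a)⟩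

theorem Closed.cone (hΦ : P.PhiOK ty Φ) (h : P.Closed ty Φ D) (hσ : P.Val ty σ)
    (H : ∀ c a, P.Nx ty σ.1 c a → P.Large ty Φ σ c a D) :
    P.Closed ty Φ (D ∪ {τ | τ.1 = σ.1 ∧ τ.2 ∈ P.Q ty σ.1.len ∧ σ.2 ≤ τ.2}) := by
  refine ⟨?_, ?_⟩
  · rintro τ (k | k)
    · exact ⟨(h.1 τ k).1, fun g a b => Or.inl ((h.1 τ k).2 g a b)⟩
    · obtain ⟨h', g⟩ := τ
      obtain ⟨rfl, a, b⟩ := k
      exact ⟨hσ.ext a, fun g' c d => Or.inr ⟨rfl, c, b.trans d⟩⟩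
  · rintro τ (k | k) c a hn
    · exact (h.2 τ k c a hn).mono hΦ subset_union_left
    · obtain ⟨h', g⟩ := τ
      obtain ⟨rfl, b, d⟩ := k
      exact ((H c a hn).ext hΦ h.1 hn.1 b d).mono hΦ subset_union_left

/-- Moving until `c` is about to make its move number `M`. -/
theorem Closed.adv [Finite C] (hΦ : P.PhiOK ty Φ) (h : P.Closed ty Φ D) {A : C × ℕ → Ordinal.{0}}
    (hA : ∀ m, P.Inp (ty m.1) m.2 (A m)) (c : C) (M : ℕ) (I : State C → Prop)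
    (hI : ∀ σ c' x τ, I σ → Mover σ.1.len c' → NdLt (c', σ.1.len c') (c, M) →
      P.Succ ty σ c' (A (c', σ.1.len c')) x τ → I τ) (hσ : σ ∈ D) (h0 : I σ)
    (hM : σ.1.len c ≤ M) : ∃ τ ∈ D, I τ ∧ Mover τ.1.len c ∧ τ.1.len c = M := by
  have := Fintype.ofFinite C
  induction hm : ∑ c', (M + 1 - σ.1.len c') using Nat.strong_induction_on generalizing σ with
  | _ n ih =>
    obtain ⟨c', hc'⟩ := exists_mover σ.1.len c
    by_cases k : NdLt (c', σ.1.len c') (c, M)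
    · have hn : P.Nx ty σ.1 c' (A (c', σ.1.len c')) := ⟨hc', hA (c', _)⟩
      obtain ⟨x, τ, a1, a2⟩ := (h.2 σ hσ _ _ hn).ex hΦ (h.1 σ hσ).1 hn h.1
      have k1 : σ.1.len c' ≤ M := k.elim le_of_lt fun a => a.1.le
      refine ih _ ?_ a2 (hI _ _ _ _ h0 hc' k a1) ?_ rfl
      · rw [← hm, a1.hist]
        refine Finset.sum_lt_sum (fun i _ => Nat.sub_le_sub_left (update_ge _ _ _) _)
          ⟨c', Finset.mem_univ _, ?_⟩
        simp only [Hist.step, update_self]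
        omega
      · rw [a1.hist]
        by_cases e : c = c'
        · subst e
          simpa [Hist.step, NdLt] using k
        · simpa [Hist.step, e] using hM
    · simp only [NdLt, not_or, not_lt, not_and] at k
      have e := ((hc' c).1.trans hM).antisymm k.1
      have e' := hM.antisymm (k.1.trans (hc' c).1)
      obtain rfl : c' = c := ((hc' c).2 (e.trans e'.symm)).antisymm (k.2 e)
      exact ⟨σ, hσ, h0, hc', e⟩

end Par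

/-- `h'` arises from `h` by moves with inputs `A`, and is not longer than `B`. -/
def Fol (A : C × ℕ → Ordinal.{0}) (B : ℕ) (h h' : Hist C) : Prop :=
  HExt h h' ∧ (∀ c, h'.len c ≤ h.len c ∨ h'.len c ≤ B) ∧
    ∀ m : C × ℕ, h.len m.1 ≤ m.2 → m.2 < h'.len m.1 → h'.inp m = A m

omit [LinearOrder C] in
theorem Fol.refl (A : C × ℕ → Ordinal.{0}) (B : ℕ) (h : Hist C) : Fol A B h h :=
  ⟨HExt.refl h, fun _ => Or.inl le_rfl, fun _ a b => (b.not_ge a).elim⟩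

theorem Fol.step {A : C × ℕ → Ordinal.{0}} {B : ℕ} {h h' : Hist C} (k : Fol A B h h') {c : C}
    (hc : h'.len c < B) (z : Set Ordinal.{0}) : Fol A B h (h'.step c (A (c, h'.len c)) z) := by
  refine ⟨k.1.trans (HExt.step _ _ _ _), fun c' => ?_, fun m a b => ?_⟩
  · by_cases e : c' = c
    · exact Or.inr (by simpa [Hist.step, e] using hc)
    · simpa [Hist.step, e] using k.2.1 c'
  · by_cases e : m = (c, h'.len c)
    · simp [Hist.step, e]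
    · simp only [Hist.step, update_of_ne e]
      exact k.2.2 m a (not_le.1 fun d => (le_update d e).not_gt b)

theorem Par.Closed.fol [Finite C] {P : Par} {ty : C → Ty} {Φ : Phi C} {D : Set (State C)}
    (hΦ : P.PhiOK ty Φ) (h : P.Closed ty Φ D) {A : C × ℕ → Ordinal.{0}}
    (hA : ∀ m, P.Inp (ty m.1) m.2 (A m)) (c : C) {M : ℕ} {σ : State C} (hσ : σ ∈ D)
    (hM : σ.1.len c ≤ M) : ∃ τ ∈ D, (σ.2.1 ⊆ τ.2.1 ∧ Fol A (M + 1) σ.1 τ.1) ∧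
      Mover τ.1.len c ∧ τ.1.len c = M :=
  h.adv hΦ hA c M (fun τ => σ.2.1 ⊆ τ.2.1 ∧ Fol A (M + 1) σ.1 τ.1) (fun _ _ _ _ a _ k b =>
    ⟨a.1.trans b.sub, b.hist ▸ a.2.step
      (Nat.lt_succ_of_le (k.elim le_of_lt fun a => a.1.le)) _⟩) hσ ⟨subset_rfl, Fol.refl _ _ _⟩ hM

end Pool.Agent.SC7292
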